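import Pool.Agent.X92.BF9
open MeasureTheory Set Filter Topology

namespace X92.BF

variable {μ ρ : Measure ℝ}

lemma pot_lint [IsProbabilityMeasure ρ] (hs : ρ (Icc 0 1)ᶜ = 0) {M : ℝ}
    (hU : ∀ δ : ℝ, 0 < δ → δ ≤ 1 → ∀ z ∈ Icc (0 : ℝ) 1, U δ ρ z ≤ M) {z : ℝ}
    (hz : z ∈ Icc (0 : ℝ) 1) :
    ∫⁻ y, ENNReal.ofReal (- Real.log |z - y|) ∂ρ ≤ ENNReal.ofReal M := by
  have hae : ∀ᵐ x ∂ρ, x ∈ Icc (0 : ℝ) 1 := by rw [ae_iff]; exact hs
  set d : ℕ → ℝ := fun n => 1 / ((n : ℝ) + 1) with hd
  have hd0 : ∀ n, 0 < d n := fun n => by rw [hd]; positivity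
  have hd1 : ∀ n, d n ≤ 1 := fun n => by
    rw [hd]; simp only
    rw [div_le_one (by positivity)]; linarith [(Nat.cast_nonneg n : (0:ℝ) ≤ n)]
  have hdl : Tendsto d atTop (𝓝 0) := tendsto_one_div_add_atTop_nhds_zero_nat
  have h1 : ∀ n, ∫⁻ y, ENNReal.ofReal (- L (d n) (y - z)) ∂ρ ≤ ENNReal.ofReal M := by
    intro n
    have hi : Integrable (fun y => L (d n) (y - z)) ρ := by
      refine Integrable.of_bound ((L_cont (hd0 n)).comp (by fun_prop)).aestronglyMeasurable
        (- Real.log (d n)) ?_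
      filter_upwards [hae] with x hx
      exact abs_L_le (hd0 n) (hd1 n) (abs_sub_le_one hx hz)
    have h2 := ofReal_integral_eq_lintegral_ofReal hi.neg (by
      filter_upwards [hae] with x hx
      have := L_le_zero (hd0 n) (hd1 n) (abs_sub_le_one hx hz)
      simp only [Pi.zero_apply, Pi.neg_apply]
      linarith)
    simp only [Pi.neg_apply] at h2
    rw [← h2, integral_neg]
    exact ENNReal.ofReal_le_ofReal (hU _ (hd0 n) (hd1 n) z hz)
  calc ∫⁻ y, ENNReal.ofReal (- Real.log |z - y|) ∂ρ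
      ≤ ∫⁻ y, liminf (fun n => ENNReal.ofReal (- L (d n) (y - z))) atTop ∂ρ := by
        apply lintegral_mono
        intro y
        simp only
        rcases eq_or_ne z y with h | h
        · rw [h]; simp
        · have hpos : 0 < |y - z| := abs_pos.2 (sub_ne_zero.2 (Ne.symm h))
          have he : ∀ᶠ n in atTop, ENNReal.ofReal (- Real.log |z - y|)
              = ENNReal.ofReal (- L (d n) (y - z)) := by
            filter_upwards [hdl.eventually (gt_mem_nhds hpos)] with n hn
            unfold L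
            rw [max_eq_left hn.le, abs_sub_comm]
          have : Tendsto (fun n => ENNReal.ofReal (- L (d n) (y - z))) atTop
              (𝓝 (ENNReal.ofReal (- Real.log |z - y|))) := tendsto_const_nhds.congr' he
          rw [this.liminf_eq]
    _ ≤ liminf (fun n => ∫⁻ y, ENNReal.ofReal (- L (d n) (y - z)) ∂ρ) atTop := by
        apply lintegral_liminf_le
        intro n
        exact ((L_cont (hd0 n)).measurable.comp (by fun_prop)).neg.ennreal_ofReal
    _ ≤ ENNReal.ofReal M := by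
        apply liminf_le_of_le (by isBoundedDefault)
        intro b hb
        obtain ⟨n, hn⟩ := hb.exists
        exact hn.trans (h1 n)

/-- a compact set of large `ρ`-measure carries a measure of small energy -/
lemma cap_lower [IsProbabilityMeasure ρ] (hs : ρ (Icc 0 1)ᶜ = 0) (hna : ∀ x, ρ {x} = 0) {M : ℝ}
    (hM : 0 ≤ M)
    (hU : ∀ δ : ℝ, 0 < δ → δ ≤ 1 → ∀ z ∈ Icc (0 : ℝ) 1, U δ ρ z ≤ M) {K0 : Set ℝ}
    (hK0 : IsCompact K0) (hK01 : K0 ⊆ Icc 0 1) {c : ℝ} (hc : 0 < c)
    (hcK : ENNReal.ofReal c ≤ ρ K0) :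
    ENNReal.ofReal (Real.exp (- (M / c))) ≤ cap (Complex.ofReal '' K0) := by
  have hpos : ρ K0 ≠ 0 := (lt_of_lt_of_le (ENNReal.ofReal_pos.2 hc) hcK).ne'
  have htop : ρ K0 ≠ ⊤ := measure_ne_top _ _
  set ν0 : Measure ℝ := (ρ K0)⁻¹ • ρ.restrict K0 with hν0
  have hν0p : IsProbabilityMeasure ν0 := by
    constructor
    rw [hν0, Measure.smul_apply, Measure.restrict_apply MeasurableSet.univ, univ_inter,
      smul_eq_mul, ENNReal.inv_mul_cancel hpos htop]
  have hle : ν0 ≤ (ρ K0)⁻¹ • ρ := by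
    intro S
    rw [hν0, Measure.smul_apply, Measure.smul_apply]
    gcongr
    exact Measure.restrict_le_self
  have hle2 : ν0 ≤ ENNReal.ofReal (1 / c) • ρ := by
    refine hle.trans ?_
    intro S
    rw [Measure.smul_apply, Measure.smul_apply]
    gcongr
    rw [one_div, ENNReal.ofReal_inv_of_pos hc]
    exact ENNReal.inv_le_inv.2 hcK
  have hcar : ν0 K0ᶜ = 0 := by
    rw [hν0, Measure.smul_apply, Measure.restrict_apply hK0.measurableSet.compl]
    simp
  have hae0 : ∀ᵐ x ∂ν0, x ∈ Icc (0 : ℝ) 1 := by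
    rw [ae_iff]
    exact measure_mono_null (compl_subset_compl.2 hK01) hcar
  have hnull : ∀ S, ρ S = 0 → ν0 S = 0 := by
    intro S hS
    have h2 : ((ρ K0)⁻¹ • ρ) S = 0 := by rw [Measure.smul_apply, hS, smul_zero]
    exact nonpos_iff_eq_zero.1 ((hle S).trans h2.le)
  set f : ℝ → ℂ := Complex.ofReal with hf
  have hfm : Measurable f := Complex.continuous_ofReal.measurable
  set ν : Measure ℂ := Measure.map f ν0 with hν
  have hνp : IsProbabilityMeasure ν := Measure.isProbabilityMeasure_map hfm.aemeasurable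
  have hprod : ν.prod ν = Measure.map (Prod.map f f) (ν0.prod ν0) := by
    rw [hν]; exact Measure.map_prod_map ν0 ν0 hfm hfm
  have hfac : ∀ q : ℝ × ℝ, Real.log ‖(Prod.map f f q).1 - (Prod.map f f q).2‖
      = Real.log |q.1 - q.2| := by
    intro q
    simp only [Prod.map_fst, Prod.map_snd, hf]
    rw [← Complex.ofReal_sub, Complex.norm_real, Real.norm_eq_abs]
  have hmeas : Measurable (fun q : ℝ × ℝ => - Real.log |q.1 - q.2|) := by fun_prop
  have hmeasC : Measurable (fun q : ℂ × ℂ => Real.log ‖q.1 - q.2‖) := by fun_prop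
  have hae1 : ∀ᵐ q : ℝ × ℝ ∂(ν0.prod ν0), q.1 ∈ Icc (0 : ℝ) 1 :=
    Measure.quasiMeasurePreserving_fst.ae hae0
  have hae2 : ∀ᵐ q : ℝ × ℝ ∂(ν0.prod ν0), q.2 ∈ Icc (0 : ℝ) 1 :=
    Measure.quasiMeasurePreserving_snd.ae hae0
  have hnn : ∀ᵐ q : ℝ × ℝ ∂(ν0.prod ν0), 0 ≤ - Real.log |q.1 - q.2| := by
    filter_upwards [hae1, hae2] with q h1 h2
    have := Real.log_nonpos (abs_nonneg _) (abs_sub_le_one h1 h2)
    linarith
  have hlint : ∫⁻ q : ℝ × ℝ, ENNReal.ofReal (- Real.log |q.1 - q.2|) ∂(ν0.prod ν0)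
      ≤ ENNReal.ofReal (M / c) := by
    rw [lintegral_prod _ hmeas.ennreal_ofReal.aemeasurable]
    calc ∫⁻ x, ∫⁻ y, ENNReal.ofReal (- Real.log |x - y|) ∂ν0 ∂ν0
        ≤ ∫⁻ x, ENNReal.ofReal (M / c) ∂ν0 := by
          apply lintegral_mono_ae
          filter_upwards [hae0] with x hx
          calc ∫⁻ y, ENNReal.ofReal (- Real.log |x - y|) ∂ν0
              ≤ ∫⁻ y, ENNReal.ofReal (- Real.log |x - y|) ∂(ENNReal.ofReal (1 / c) • ρ) :=
                lintegral_mono' hle2 le_rfl
            _ = ENNReal.ofReal (1 / c) * ∫⁻ y, ENNReal.ofReal (- Real.log |x - y|) ∂ρ := by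
                rw [lintegral_smul_measure, smul_eq_mul]
            _ ≤ ENNReal.ofReal (1 / c) * ENNReal.ofReal M := by
                gcongr
                exact pot_lint hs hU hx
            _ = ENNReal.ofReal (M / c) := by
                rw [← ENNReal.ofReal_mul (by positivity)]; congr 1; ring
      _ = ENNReal.ofReal (M / c) := by simp
  have hintR : Integrable (fun q : ℝ × ℝ => - Real.log |q.1 - q.2|) (ν0.prod ν0) := by
    refine ⟨hmeas.aestronglyMeasurable, ?_⟩
    rw [hasFiniteIntegral_iff_ofReal hnn]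
    exact lt_of_le_of_lt hlint ENNReal.ofReal_lt_top
  have hE : energy ν ≤ M / c := by
    unfold energy
    have hmC' : Measurable (fun q : ℂ × ℂ => - Real.log ‖q.1 - q.2‖) := hmeasC.neg
    rw [hprod, integral_map (hfm.prodMap hfm).aemeasurable hmC'.aestronglyMeasurable]
    simp_rw [hfac]
    rw [integral_eq_lintegral_of_nonneg_ae hnn hmeas.aestronglyMeasurable]
    calc (∫⁻ q : ℝ × ℝ, ENNReal.ofReal (- Real.log |q.1 - q.2|) ∂(ν0.prod ν0)).toReal
        ≤ (ENNReal.ofReal (M / c)).toReal := ENNReal.toReal_mono ENNReal.ofReal_ne_top hlint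
      _ = M / c := ENNReal.toReal_ofReal (by positivity)
  have hFE : FiniteEnergy (f '' K0) ν := by
    refine ⟨hνp, ?_, ?_, ?_⟩
    · rw [hν, Measure.map_apply hfm
        ((hK0.image Complex.continuous_ofReal).isClosed.measurableSet.compl)]
      refine measure_mono_null ?_ hcar
      intro x hx hx1
      exact hx ⟨x, hx1, rfl⟩
    · intro z
      rw [hν, Measure.map_apply hfm (measurableSet_singleton z)]
      refine measure_mono_null (t := {z.re}) ?_ (hnull _ (hna _))
      intro x hx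
      simp only [mem_preimage, mem_singleton_iff, hf] at hx
      simp [← hx]
    · rw [hprod, integrable_map_measure hmeasC.aestronglyMeasurable
        (hfm.prodMap hfm).aemeasurable]
      have : ((fun q : ℂ × ℂ => Real.log ‖q.1 - q.2‖) ∘ Prod.map f f)
          = fun q : ℝ × ℝ => - (- Real.log |q.1 - q.2|) := by
        funext q
        simp only [Function.comp_apply, neg_neg]
        exact hfac q
      rw [this]
      exact hintR.neg
  calc ENNReal.ofReal (Real.exp (- (M / c))) ≤ ENNReal.ofReal (Real.exp (- energy ν)) :=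
        ENNReal.ofReal_le_ofReal (Real.exp_le_exp.2 (by linarith))
    _ ≤ cap (f '' K0) := by
        unfold cap
        exact le_iSup₂ (f := fun (ν : Measure ℂ) (_ : FiniteEnergy (f '' K0) ν) =>
          ENNReal.ofReal (Real.exp (- energy ν))) ν hFE

lemma IsMinkowski.carrier_ge (h : IsMinkowski μ) :
    ENNReal.ofReal (1 / 4) ≤ carrierCap μ := by
  have hpμ := h.prob
  unfold carrierCap
  refine le_iInf fun B => le_iInf fun hB => le_iInf fun hμB => ?_
  have hl4 : 0 < Real.log 4 := Real.log_pos (by norm_num)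
  -- for all ε and c
  have hmain : ∀ ε : ℝ, 0 < ε → ∀ c : ℝ, 0 < c → c < 1 →
      ENNReal.ofReal (Real.exp (- ((Real.log 4 + ε) / c))) ≤ capBorel B := by
    intro ε hε c hc hc1
    obtain ⟨ρ, hρ, hs, ⟨K, hK, hKm⟩, hU⟩ := h.exists_rho hε
    have habs : ∀ S, μ S = 0 → ρ S = 0 := by
      intro S hS
      have h2 : (K • μ) S = 0 := by rw [Measure.smul_apply, hS, smul_zero]
      exact nonpos_iff_eq_zero.1 ((hKm S).trans h2.le)
    set S : Set ℝ := Icc 0 1 ∩ Complex.ofReal ⁻¹' B with hS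
    have hSm : MeasurableSet S :=
      measurableSet_Icc.inter (Complex.continuous_ofReal.measurable hB)
    have hSc : ρ Sᶜ = 0 := by
      rw [hS, compl_inter]
      refine measure_union_null hs (habs _ ?_)
      exact hμB
    have hS1 : ρ S = 1 := by
      rw [← prob_compl_eq_zero_iff hSm]; exact hSc
    have hlt : ENNReal.ofReal c < ρ S := by
      rw [hS1]; rw [← ENNReal.ofReal_one]; exact (ENNReal.ofReal_lt_ofReal_iff one_pos).2 hc1
    obtain ⟨K0, hK0S, hK0c, hK0⟩ := hSm.exists_lt_isCompact hlt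
    have h1 := cap_lower (M := Real.log 4 + ε) hs (fun x => habs _ (h.noAtom x)) (by linarith) hU
      hK0c (fun x hx => (hK0S hx).1) hc hK0.le
    refine h1.trans ?_
    unfold capBorel
    have hsub : Complex.ofReal '' K0 ⊆ B := by
      rintro _ ⟨x, hx, rfl⟩
      exact (hK0S hx).2
    have hcomp : IsCompact (Complex.ofReal '' K0) := hK0c.image Complex.continuous_ofReal
    exact le_iSup_of_le _ (le_iSup_of_le hcomp (le_iSup_of_le hsub le_rfl))
  -- limit
  have hlim : Tendsto (fun n : ℕ => ENNReal.ofReal (Real.exp (- ((Real.log 4 + 1 / ((n : ℝ) + 1)) /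
      (1 - 1 / ((n : ℝ) + 1) / 2))))) atTop
      (𝓝 (ENNReal.ofReal (Real.exp (- ((Real.log 4 + 0) / (1 - 0 / 2)))))) := by
    apply ENNReal.tendsto_ofReal
    apply (Real.continuous_exp.tendsto _).comp
    apply Tendsto.neg
    apply Tendsto.div
    · exact tendsto_const_nhds.add tendsto_one_div_add_atTop_nhds_zero_nat
    · exact tendsto_const_nhds.sub (tendsto_one_div_add_atTop_nhds_zero_nat.div_const 2)
    · norm_num
  have e : ENNReal.ofReal (Real.exp (- ((Real.log 4 + 0) / (1 - 0 / 2)))) = ENNReal.ofReal (1 / 4) := by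
    congr 1
    rw [add_zero, zero_div, sub_zero, div_one, Real.exp_neg, Real.exp_log (by norm_num), one_div]
  rw [e] at hlim
  apply le_of_tendsto' hlim
  intro n
  have hn : (0 : ℝ) < (n : ℝ) + 1 := by positivity
  have h1 : 1 / ((n : ℝ) + 1) ≤ 1 := by
    rw [div_le_one hn]; linarith [(Nat.cast_nonneg n : (0:ℝ) ≤ n)]
  have h2 : 0 < 1 / ((n : ℝ) + 1) := by positivity
  exact hmain _ h2 _ (by linarith) (by linarith)

theorem IsMinkowski.carrier_eq (h : IsMinkowski μ) : carrierCap μ = ENNReal.ofReal (1 / 4) :=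
  le_antisymm h.carrier_le h.carrier_ge

end X92.BF
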