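import Mathlib
open MeasureTheory Set Filter Topology

namespace X92.BF

/-- the Gauss map `x ↦ {1/x}` (with `gauss 0 = 0`) -/
noncomputable def gauss (x : ℝ) : ℝ := Int.fract x⁻¹

/-- the partial quotient `a_{k+1}(x)` of the regular continued fraction of `x ∈ (0,1]` -/
noncomputable def digit (x : ℝ) (k : ℕ) : ℕ := ⌊(gauss^[k] x)⁻¹⌋₊

/-- the term `(-1)^(k+2) / 2^(a_1+⋯+a_{k+1})`, present as long as the expansion has not stopped -/
noncomputable def qterm (x : ℝ) (k : ℕ) : ℝ :=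
  if gauss^[k] x = 0 then 0
  else (-1 : ℝ) ^ k / 2 ^ (∑ j ∈ Finset.range (k + 1), digit x j)

/-- Minkowski's question mark function on `[0,1]` -/
noncomputable def qm (x : ℝ) : ℝ := 2 * ∑' k, qterm x k

lemma gauss_zero : gauss 0 = 0 := by simp [gauss]

lemma iter_zero (k : ℕ) : gauss^[k] 0 = 0 := by
  induction k with
  | zero => rfl
  | succ k ih => rw [Function.iterate_succ_apply, gauss_zero, ih]

lemma gauss_mem (x : ℝ) : gauss x ∈ Icc (0 : ℝ) 1 :=
  ⟨Int.fract_nonneg _, (Int.fract_lt_one _).le⟩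

lemma gauss_lt (x : ℝ) : gauss x < 1 := Int.fract_lt_one _

lemma qterm_zero_left (k : ℕ) : qterm 0 k = 0 := by simp [qterm, iter_zero]

lemma digit_zero_pos {x : ℝ} (hx : 0 < x) (hx1 : x ≤ 1) : 1 ≤ digit x 0 := by
  unfold digit
  simp only [Function.iterate_zero, id]
  rw [Nat.one_le_floor_iff]
  exact one_le_inv_iff₀.2 ⟨hx, hx1⟩

lemma digit_succ (x : ℝ) (k : ℕ) : digit x (k + 1) = digit (gauss x) k := by
  simp [digit, Function.iterate_succ_apply]

lemma qterm_zero {x : ℝ} (hx : x ≠ 0) : qterm x 0 = (1 / 2) ^ digit x 0 := by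
  simp [qterm, hx]

lemma qterm_succ (x : ℝ) (k : ℕ) :
    qterm x (k + 1) = - ((1 / 2) ^ digit x 0 * qterm (gauss x) k) := by
  unfold qterm
  rw [Function.iterate_succ_apply]
  by_cases h : gauss^[k] (gauss x) = 0
  · simp [h]
  · rw [if_neg h, if_neg h, Finset.sum_range_succ']
    simp only [digit_succ]
    rw [pow_add, pow_succ, one_div, inv_pow]
    field_simp
    rw [pow_add]; ring

lemma qterm_bound (k : ℕ) : ∀ x ∈ Icc (0 : ℝ) 1, |qterm x k| ≤ (1 / 2) ^ (k + 1) := by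
  induction k with
  | zero =>
    intro x hx
    rcases eq_or_ne x 0 with h | h
    · rw [h, qterm_zero_left]; norm_num
    · rw [qterm_zero h, abs_of_nonneg (by positivity)]
      apply pow_le_pow_of_le_one (by norm_num) (by norm_num)
      simpa using digit_zero_pos (lt_of_le_of_ne hx.1 (Ne.symm h)) hx.2
  | succ k ih =>
    intro x hx
    rcases eq_or_ne x 0 with h | h
    · rw [h, qterm_zero_left]; simp
    · rw [qterm_succ, abs_neg, abs_mul, abs_of_nonneg (by positivity : (0:ℝ) ≤ (1/2) ^ digit x 0)]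
      have h1 : (1 / 2 : ℝ) ^ digit x 0 ≤ 1 / 2 := by
        calc (1 / 2 : ℝ) ^ digit x 0 ≤ (1 / 2) ^ 1 :=
              pow_le_pow_of_le_one (by norm_num) (by norm_num)
                (digit_zero_pos (lt_of_le_of_ne hx.1 (Ne.symm h)) hx.2)
          _ = 1 / 2 := by norm_num
      have h2 := ih (gauss x) (gauss_mem x)
      calc (1 / 2 : ℝ) ^ digit x 0 * |qterm (gauss x) k| ≤ 1 / 2 * (1 / 2) ^ (k + 1) :=
            mul_le_mul h1 h2 (abs_nonneg _) (by norm_num)
        _ = _ := by ring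

lemma summable_qterm {x : ℝ} (hx : x ∈ Icc (0 : ℝ) 1) : Summable (qterm x) := by
  apply Summable.of_norm_bounded (g := fun k : ℕ => (1 / 2 : ℝ) ^ (k + 1))
  · simp_rw [pow_succ]
    exact (summable_geometric_of_lt_one (by norm_num) (by norm_num)).mul_right _
  · intro k
    exact qterm_bound k x hx

lemma qm_zero : qm 0 = 0 := by simp [qm, qterm_zero_left]

lemma qm_rec {x : ℝ} (hx : 0 < x) (hx1 : x ≤ 1) :
    qm x = (1 / 2) ^ ⌊x⁻¹⌋₊ * (2 - qm (gauss x)) := by
  have hd : digit x 0 = ⌊x⁻¹⌋₊ := by simp [digit]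
  unfold qm
  rw [(summable_qterm ⟨hx.le, hx1⟩).tsum_eq_zero_add, qterm_zero hx.ne']
  simp_rw [qterm_succ]
  rw [tsum_neg, tsum_mul_left, hd]
  ring

lemma abs_qm_le {x : ℝ} (hx : x ∈ Icc (0 : ℝ) 1) : |qm x| ≤ 2 := by
  unfold qm
  rw [abs_mul, abs_of_pos (by norm_num : (0:ℝ) < 2)]
  have h1 : |∑' k, qterm x k| ≤ ∑' k : ℕ, (1 / 2 : ℝ) ^ (k + 1) := by
    apply (norm_tsum_le_tsum_norm (summable_qterm hx).norm).trans
    apply Summable.tsum_le_tsum (fun k => qterm_bound k x hx) (summable_qterm hx).norm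
    simp_rw [pow_succ]
    exact (summable_geometric_of_lt_one (by norm_num) (by norm_num)).mul_right _
  have h2 : ∑' k : ℕ, (1 / 2 : ℝ) ^ (k + 1) = 1 := by
    simp_rw [pow_succ]
    rw [tsum_mul_right, tsum_geometric_of_lt_one (by norm_num) (by norm_num)]
    norm_num
  linarith

lemma qm_mem {x : ℝ} (hx : x ∈ Icc (0 : ℝ) 1) : qm x ∈ Icc (0 : ℝ) 1 := by
  have hnn : ∀ y ∈ Icc (0 : ℝ) 1, 0 ≤ qm y := by
    intro y hy
    rcases eq_or_ne y 0 with h | h
    · rw [h, qm_zero]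
    · rw [qm_rec (lt_of_le_of_ne hy.1 (Ne.symm h)) hy.2]
      have := (abs_le.1 (abs_qm_le (gauss_mem y))).2
      apply mul_nonneg (by positivity) (by linarith)
  refine ⟨hnn x hx, ?_⟩
  rcases eq_or_ne x 0 with h | h
  · rw [h, qm_zero]; norm_num
  · have hpos := lt_of_le_of_ne hx.1 (Ne.symm h)
    rw [qm_rec hpos hx.2]
    have h1 := hnn _ (gauss_mem x)
    have hd := digit_zero_pos hpos hx.2
    have hd' : 1 ≤ ⌊x⁻¹⌋₊ := by simpa [digit] using hd
    have h2 : (1 / 2 : ℝ) ^ ⌊x⁻¹⌋₊ ≤ 1 / 2 := by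
      calc (1 / 2 : ℝ) ^ ⌊x⁻¹⌋₊ ≤ (1 / 2) ^ 1 :=
            pow_le_pow_of_le_one (by norm_num) (by norm_num) hd'
        _ = 1 / 2 := by norm_num
    have h3 : 0 ≤ (1 / 2 : ℝ) ^ ⌊x⁻¹⌋₊ := by positivity
    have h4 := (abs_le.1 (abs_qm_le (gauss_mem x))).2
    nlinarith

/-- the two maps -/
noncomputable def mA (x : ℝ) : ℝ := x / (1 + x)
noncomputable def mC (x : ℝ) : ℝ := 1 / (1 + x)

lemma qm_mA {x : ℝ} (hx : x ∈ Icc (0 : ℝ) 1) : qm (mA x) = qm x / 2 := by
  rcases eq_or_ne x 0 with h | h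
  · simp [h, mA, qm_zero]
  · have hpos := lt_of_le_of_ne hx.1 (Ne.symm h)
    have hA : 0 < mA x := by unfold mA; positivity
    have hA1 : mA x ≤ 1 := by unfold mA; rw [div_le_one (by positivity)]; linarith
    have hinv : (mA x)⁻¹ = x⁻¹ + 1 := by unfold mA; field_simp
    have hg : gauss (mA x) = gauss x := by
      unfold gauss; rw [hinv, Int.fract_add_one]
    rw [qm_rec hA hA1, qm_rec hpos hx.2, hg, hinv, Nat.floor_add_one (by positivity), pow_succ]
    ring

lemma qm_one : qm 1 = 1 := by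
  rw [qm_rec one_pos le_rfl]
  have hg : gauss 1 = 0 := by simp [gauss]
  rw [hg, qm_zero]
  simp

lemma qm_mC {x : ℝ} (hx : x ∈ Icc (0 : ℝ) 1) : qm (mC x) = 1 - qm x / 2 := by
  rcases eq_or_ne x 0 with h | h
  · simp [h, mC, qm_zero, qm_one]
  rcases eq_or_ne x 1 with h1 | h1
  · have : mC 1 = mA 1 := by unfold mA mC; norm_num
    rw [h1, this, qm_mA (by norm_num), qm_one]; norm_num
  · have hpos := lt_of_le_of_ne hx.1 (Ne.symm h)
    have hlt := lt_of_le_of_ne hx.2 h1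
    have hC : 0 < mC x := by unfold mC; positivity
    have hC1 : mC x ≤ 1 := by unfold mC; rw [div_le_one (by positivity)]; linarith
    have hinv : (mC x)⁻¹ = x + 1 := by unfold mC; field_simp; ring
    have hg : gauss (mC x) = x := by
      unfold gauss; rw [hinv, Int.fract_add_one, Int.fract_eq_self.2 ⟨hpos.le, hlt⟩]
    have hf : ⌊x⌋₊ = 0 := Nat.floor_eq_zero.2 hlt
    rw [qm_rec hC hC1, hg, hinv, Nat.floor_add_one hpos.le, hf]
    ring

/-- every point of `[0,1]` is in the image of one of the two maps -/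
lemma cover {x : ℝ} (hx : x ∈ Icc (0 : ℝ) 1) :
    (x ≤ 1 / 2 → mA (x / (1 - x)) = x ∧ x / (1 - x) ∈ Icc (0 : ℝ) 1) ∧
    (1 / 2 ≤ x → mC (1 / x - 1) = x ∧ 1 / x - 1 ∈ Icc (0 : ℝ) 1) := by
  obtain ⟨h0, h1⟩ := hx
  constructor
  · intro h
    have h2 : 0 < 1 - x := by linarith
    refine ⟨?_, by positivity, ?_⟩
    · unfold mA; field_simp; ring
    · rw [div_le_one h2]; linarith
  · intro h
    have h2 : 0 < x := by linarith
    refine ⟨?_, ?_, ?_⟩
    · unfold mC; field_simp; ring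
    · rw [sub_nonneg, one_le_div h2]; exact h1
    · rw [sub_le_iff_le_add, div_le_iff₀ h2]; linarith

lemma qm_lo {x : ℝ} (hx : x ∈ Icc (0 : ℝ) 1) (h : x ≤ 1 / 2) :
    qm x = qm (x / (1 - x)) / 2 := by
  obtain ⟨h1, h2⟩ := (cover hx).1 h
  conv_lhs => rw [← h1]
  exact qm_mA h2

lemma qm_hi {x : ℝ} (hx : x ∈ Icc (0 : ℝ) 1) (h : 1 / 2 ≤ x) :
    qm x = 1 - qm (1 / x - 1) / 2 := by
  obtain ⟨h1, h2⟩ := (cover hx).2 h
  conv_lhs => rw [← h1]
  exact qm_mC h2

lemma qm_mono_aux (n : ℕ) : ∀ x ∈ Icc (0 : ℝ) 1, ∀ y ∈ Icc (0 : ℝ) 1, x ≤ y →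
    qm x - qm y ≤ (1 / 2) ^ n := by
  induction n with
  | zero =>
    intro x hx y hy _
    have h1 := (qm_mem hx).2
    have h2 := (qm_mem hy).1
    simp; linarith
  | succ n ih =>
    intro x hx y hy hxy
    rcases le_total y (1 / 2) with hy2 | hy2
    · have hx2 := hxy.trans hy2
      rw [qm_lo hx hx2, qm_lo hy hy2]
      have h3 : x / (1 - x) ≤ y / (1 - y) := by
        rw [div_le_div_iff₀ (by linarith) (by linarith)]; nlinarith
      have := ih _ ((cover hx).1 hx2).2 _ ((cover hy).1 hy2).2 h3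
      rw [pow_succ]; linarith
    · rcases le_total x (1 / 2) with hx2 | hx2
      · rw [qm_lo hx hx2, qm_hi hy hy2]
        have h1 := (qm_mem ((cover hx).1 hx2).2).2
        have h2 := (qm_mem ((cover hy).2 hy2).2).2
        have : (0 : ℝ) ≤ (1 / 2) ^ (n + 1) := by positivity
        linarith
      · rw [qm_hi hx hx2, qm_hi hy hy2]
        have h3 : 1 / y - 1 ≤ 1 / x - 1 := by
          have : 1 / y ≤ 1 / x := one_div_le_one_div_of_le (by linarith) hxy
          linarith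
        have := ih _ ((cover hy).2 hy2).2 _ ((cover hx).2 hx2).2 h3
        rw [pow_succ]; linarith

lemma qm_mono {x y : ℝ} (hx : x ∈ Icc (0 : ℝ) 1) (hy : y ∈ Icc (0 : ℝ) 1) (hxy : x ≤ y) :
    qm x ≤ qm y := by
  have h : Tendsto (fun n : ℕ => (1 / 2 : ℝ) ^ n) atTop (𝓝 0) :=
    tendsto_pow_atTop_nhds_zero_of_lt_one (by norm_num) (by norm_num)
  have := ge_of_tendsto' h (fun n => qm_mono_aux n x hx y hy hxy)
  linarith

lemma qm_small {n : ℕ} {t : ℝ} (ht : t ∈ Icc (0 : ℝ) 1) (h : t * n ≤ 1) :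
    qm t ≤ 2 * (1 / 2) ^ n := by
  rcases eq_or_ne t 0 with h0 | h0
  · rw [h0, qm_zero]; positivity
  · have hpos := lt_of_le_of_ne ht.1 (Ne.symm h0)
    rw [qm_rec hpos ht.2]
    have h1 := qm_mem (gauss_mem t)
    have h2 : n ≤ ⌊t⁻¹⌋₊ := by
      apply Nat.le_floor
      rw [← one_div, le_div_iff₀ hpos]; linarith
    have h3 : (1 / 2 : ℝ) ^ ⌊t⁻¹⌋₊ ≤ (1 / 2) ^ n :=
      pow_le_pow_of_le_one (by norm_num) (by norm_num) h2
    have h4 : (0 : ℝ) ≤ (1 / 2) ^ ⌊t⁻¹⌋₊ := by positivity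
    nlinarith [h1.1, h1.2]

lemma qm_near_one {n : ℕ} {t : ℝ} (ht : t ∈ Icc (0 : ℝ) 1) (h2 : 1 / 2 ≤ t)
    (h : (1 - t) * (2 * n) ≤ 1) :
    1 - qm t ≤ (1 / 2) ^ n := by
  rw [qm_hi ht h2]
  have hm := ((cover ht).2 h2).2
  have h3 : (1 / t - 1) * n ≤ 1 := by
    have h5 : 1 / t - 1 ≤ 2 * (1 - t) := by
      have ht0 : 0 < t := by linarith
      have : 1 / t - 1 - 2 * (1 - t) = (1 - t) * (1 - 2 * t) / t := by field_simp
      have h6 : (1 - t) * (1 - 2 * t) / t ≤ 0 := by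
        apply div_nonpos_of_nonpos_of_nonneg _ ht0.le
        nlinarith [ht.2]
      linarith
    calc (1 / t - 1) * n ≤ 2 * (1 - t) * n := by
          apply mul_le_mul_of_nonneg_right h5 (by positivity)
      _ ≤ 1 := by linarith
  have := qm_small hm h3
  linarith

lemma qm_cont_aux (n : ℕ) : ∃ δ : ℝ, 0 < δ ∧ ∀ x ∈ Icc (0 : ℝ) 1, ∀ y ∈ Icc (0 : ℝ) 1, x ≤ y →
    y - x ≤ δ → qm y - qm x ≤ (1 / 2) ^ n := by
  induction n with
  | zero =>
    refine ⟨1, one_pos, ?_⟩
    intro x hx y hy _ _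
    have h1 := (qm_mem hx).1
    have h2 := (qm_mem hy).2
    simp; linarith
  | succ n ih =>
    obtain ⟨δ, hδ, h⟩ := ih
    have hn : (0 : ℝ) < 8 * (n + 1) := by positivity
    refine ⟨min (δ / 4) (1 / (8 * (n + 1))), by positivity, ?_⟩
    intro x hx y hy hxy hd
    have hd1 : y - x ≤ δ / 4 := hd.trans (min_le_left _ _)
    have hd2 : y - x ≤ 1 / (8 * (n + 1)) := hd.trans (min_le_right _ _)
    rcases le_total y (1 / 2) with hy2 | hy2
    · have hx2 := hxy.trans hy2
      rw [qm_lo hx hx2, qm_lo hy hy2]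
      have hx3 : 0 < 1 - x := by linarith
      have hy3 : 0 < 1 - y := by linarith
      have h3 : x / (1 - x) ≤ y / (1 - y) := by
        rw [div_le_div_iff₀ hx3 hy3]; nlinarith
      have h4 : y / (1 - y) - x / (1 - x) ≤ δ := by
        have : y / (1 - y) - x / (1 - x) = (y - x) / ((1 - x) * (1 - y)) := by
          field_simp; ring
        rw [this, div_le_iff₀ (by positivity)]
        have : 1 / 4 ≤ (1 - x) * (1 - y) := by nlinarith
        nlinarith
      have := h _ ((cover hx).1 hx2).2 _ ((cover hy).1 hy2).2 h3 h4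
      rw [pow_succ]; linarith
    · rcases le_total x (1 / 2) with hx2 | hx2
      · rw [qm_lo hx hx2, qm_hi hy hy2]
        have hx3 : 0 < 1 - x := by linarith
        have hy3 : 0 < y := by linarith
        have hmx := ((cover hx).1 hx2).2
        have hmy := ((cover hy).2 hy2).2
        have hx8 : 1 / 2 - x ≤ 1 / (8 * (n + 1)) := by linarith
        have hy8 : y - 1 / 2 ≤ 1 / (8 * (n + 1)) := by linarith
        have h18 : 1 / (8 * ((n : ℝ) + 1)) ≤ 1 / 8 := by
          apply one_div_le_one_div_of_le (by norm_num); nlinarith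
        have ex : 1 - x / (1 - x) ≤ 4 * (1 / (8 * (n + 1))) := by
          have : 1 - x / (1 - x) = 2 * (1 / 2 - x) / (1 - x) := by field_simp; ring
          rw [this, div_le_iff₀ hx3]
          nlinarith
        have ey : 1 - (1 / y - 1) ≤ 4 * (1 / (8 * (n + 1))) := by
          have : 1 - (1 / y - 1) = 2 * (y - 1 / 2) / y := by field_simp; ring
          rw [this, div_le_iff₀ hy3]
          nlinarith
        have key : 4 * (1 / (8 * ((n : ℝ) + 1))) * (2 * ((n + 1 : ℕ) : ℝ)) = 1 := by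
          push_cast; field_simp; norm_num
        have hnn : (0 : ℝ) ≤ 2 * ((n + 1 : ℕ) : ℝ) := by positivity
        have hxn : 1 / 2 ≤ x / (1 - x) := by linarith
        have hyn : 1 / 2 ≤ 1 / y - 1 := by linarith
        have e1 := qm_near_one (n := n + 1) hmx hxn
          ((mul_le_mul_of_nonneg_right ex hnn).trans key.le)
        have e2 := qm_near_one (n := n + 1) hmy hyn
          ((mul_le_mul_of_nonneg_right ey hnn).trans key.le)
        linarith
      · rw [qm_hi hx hx2, qm_hi hy hy2]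
        have hx3 : 0 < x := by linarith
        have hy3 : 0 < y := by linarith
        have h3 : 1 / y - 1 ≤ 1 / x - 1 := by
          have : 1 / y ≤ 1 / x := one_div_le_one_div_of_le hx3 hxy
          linarith
        have h4 : (1 / x - 1) - (1 / y - 1) ≤ δ := by
          have : (1 / x - 1) - (1 / y - 1) = (y - x) / (x * y) := by field_simp; ring
          rw [this, div_le_iff₀ (by positivity)]
          have : 1 / 4 ≤ x * y := by nlinarith
          nlinarith
        have := h _ ((cover hy).2 hy2).2 _ ((cover hx).2 hx2).2 h3 h4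
        rw [pow_succ]; linarith

lemma qm_continuousOn : ContinuousOn qm (Icc 0 1) := by
  rw [Metric.continuousOn_iff]
  intro b hb ε hε
  obtain ⟨n, hn⟩ := exists_pow_lt_of_lt_one hε (by norm_num : (1 / 2 : ℝ) < 1)
  obtain ⟨δ, hδ, h⟩ := qm_cont_aux n
  refine ⟨δ, hδ, ?_⟩
  intro a ha hab
  rw [Real.dist_eq] at hab ⊢
  rcases le_total a b with hl | hl
  · have h1 := h a ha b hb hl (by rw [abs_sub_comm] at hab; exact (le_abs_self _).trans hab.le)
    have h2 := qm_mono ha hb hl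
    rw [abs_sub_comm, abs_of_nonneg (by linarith)]; linarith
  · have h1 := h b hb a ha hl ((le_abs_self _).trans hab.le)
    have h2 := qm_mono hb ha hl
    rw [abs_of_nonneg (by linarith)]; linarith

end X92.BF
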