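import Pool.Agent.X92.BF1
open MeasureTheory Set Filter Topology

namespace X92.BF

/-- `μ` is the probability measure on `[0,1]` with distribution function `qm` -/
structure IsMinkowski (μ : Measure ℝ) : Prop where
  prob : IsProbabilityMeasure μ
  supp : μ (Icc 0 1)ᶜ = 0
  cdf : ∀ x ∈ Icc (0 : ℝ) 1, μ (Icc 0 x) = ENNReal.ofReal (qm x)

/-- extension of `qm` to the line by `0` and `1` -/
noncomputable def qext (x : ℝ) : ℝ := qm (max 0 (min x 1))

lemma clamp_mem (x : ℝ) : max 0 (min x 1) ∈ Icc (0 : ℝ) 1 :=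
  ⟨le_max_left _ _, max_le (by norm_num) (min_le_right _ _)⟩

lemma qext_mono : Monotone qext := by
  intro x y hxy
  apply qm_mono (clamp_mem x) (clamp_mem y)
  exact max_le_max le_rfl (min_le_min hxy le_rfl)

lemma qext_cont : Continuous qext := by
  have h := continuousOn_iff_continuous_domRestrict.1 qm_continuousOn
  have h2 : Continuous (fun x : ℝ => (⟨max 0 (min x 1), clamp_mem x⟩ : Icc (0 : ℝ) 1)) := by
    apply Continuous.subtype_mk
    fun_prop
  exact h.comp h2

noncomputable def sf : StieltjesFunction ℝ where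
  toFun := qext
  mono' := qext_mono
  right_continuous' := fun x => qext_cont.continuousAt.continuousWithinAt

lemma qext_of_neg {x : ℝ} (hx : x ≤ 0) : qext x = 0 := by
  unfold qext
  rw [min_eq_left (by linarith), max_eq_left hx, qm_zero]

lemma qext_of_ge {x : ℝ} (hx : 1 ≤ x) : qext x = 1 := by
  unfold qext
  rw [min_eq_right hx, max_eq_right (by norm_num), qm_one]

lemma qext_of_mem {x : ℝ} (hx : x ∈ Icc (0 : ℝ) 1) : qext x = qm x := by
  unfold qext
  rw [min_eq_left hx.2, max_eq_right hx.1]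

lemma sf_Icc (a b : ℝ) : sf.measure (Icc a b) = ENNReal.ofReal (qext b - qext a) := by
  rw [StieltjesFunction.measure_Icc]
  have : Function.leftLim sf a = qext a := by
    apply ContinuousWithinAt.leftLim_eq
    exact qext_cont.continuousAt.continuousWithinAt
  rw [this]; rfl

lemma exists_minkowski : ∃ μ : Measure ℝ, IsMinkowski μ := by
  refine ⟨sf.measure, ?_, ?_, ?_⟩
  · constructor
    have h1 : Tendsto sf atBot (𝓝 0) := by
      apply tendsto_const_nhds.congr'
      filter_upwards [eventually_le_atBot 0] with x hx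
      exact (qext_of_neg hx).symm
    have h2 : Tendsto sf atTop (𝓝 1) := by
      apply tendsto_const_nhds.congr'
      filter_upwards [eventually_ge_atTop 1] with x hx
      exact (qext_of_ge hx).symm
    rw [StieltjesFunction.measure_univ sf h1 h2]; simp
  · have h : (Icc (0 : ℝ) 1)ᶜ ⊆ ⋃ n : ℕ, (Icc (-(n : ℝ)) 0 \ {0}) ∪ (Ioc 1 (n : ℝ)) := by
      intro x hx
      simp only [mem_compl_iff, mem_Icc, not_and_or, not_le] at hx
      obtain ⟨n, hn⟩ := exists_nat_ge |x|
      refine mem_iUnion.2 ⟨n, ?_⟩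
      rcases hx with h | h
      · left
        refine ⟨⟨by have := neg_abs_le x; linarith, h.le⟩, by simpa using h.ne⟩
      · right
        exact ⟨h, (le_abs_self x).trans hn⟩
    refine measure_mono_null h (measure_iUnion_null fun n => ?_)
    apply measure_union_null
    · apply measure_mono_null sdiff_subset
      rw [sf_Icc, qext_of_neg le_rfl, qext_of_neg (by simp)]; simp
    · rw [StieltjesFunction.measure_Ioc]
      change ENNReal.ofReal (qext n - qext 1) = 0
      rw [qext_of_ge le_rfl]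
      rw [ENNReal.ofReal_eq_zero]
      rcases le_total 1 (n : ℝ) with h | h
      · rw [qext_of_ge h]; simp
      · have := qext_mono h
        rw [qext_of_ge le_rfl] at this; linarith
  · intro x hx
    rw [sf_Icc, qext_of_mem hx, qext_of_neg le_rfl, sub_zero]

variable {μ : Measure ℝ}

lemma IsMinkowski.ioc_eq (h : IsMinkowski μ) {x y : ℝ} (hx : x ∈ Icc (0 : ℝ) 1)
    (hy : y ∈ Icc (0 : ℝ) 1) (hxy : x ≤ y) : μ (Ioc x y) = ENNReal.ofReal (qm y - qm x) := by
  have := h.prob
  have h1 : Ioc x y = Icc 0 y \ Icc 0 x := by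
    ext z
    simp only [mem_Ioc, Set.mem_sdiff, mem_Icc, not_and, not_le]
    constructor
    · rintro ⟨h1, h2⟩; exact ⟨⟨hx.1.trans h1.le, h2⟩, fun _ => h1⟩
    · rintro ⟨⟨h1, h2⟩, h3⟩; exact ⟨h3 h1, h2⟩
  rw [h1, measure_sdiff (Icc_subset_Icc_right hxy) measurableSet_Icc.nullMeasurableSet
    (measure_ne_top _ _), h.cdf _ hx, h.cdf _ hy, ENNReal.ofReal_sub _ (qm_mem hx).1]

lemma IsMinkowski.noAtom (h : IsMinkowski μ) (x : ℝ) : μ {x} = 0 := by
  have := h.prob
  by_cases hx : x ∈ Icc (0 : ℝ) 1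
  · rcases eq_or_ne x 0 with h0 | h0
    · have := h.cdf 0 (by norm_num)
      rw [Icc_self, qm_zero, ENNReal.ofReal_zero] at this
      rw [h0]; exact this
    · have hpos := lt_of_le_of_ne hx.1 (Ne.symm h0)
      by_contra hne
      have hpos2 : 0 < (μ {x}).toReal := ENNReal.toReal_pos hne (measure_ne_top _ _)
      obtain ⟨n, hn⟩ := exists_pow_lt_of_lt_one hpos2 (by norm_num : (1 / 2 : ℝ) < 1)
      obtain ⟨δ, hδ, hh⟩ := qm_cont_aux n
      set s := max 0 (x - δ) with hs
      have hsx : s < x := max_lt hpos (by linarith)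
      have hs0 : s ∈ Icc (0 : ℝ) 1 := ⟨le_max_left _ _, hsx.le.trans hx.2⟩
      have hs1 : x - s ≤ δ := by have := le_max_right 0 (x - δ); linarith
      have h1 := hh s hs0 x hx hsx.le hs1
      have h2 : μ {x} ≤ ENNReal.ofReal (qm x - qm s) := by
        rw [← h.ioc_eq hs0 hx hsx.le]
        apply measure_mono
        intro z hz; rw [mem_singleton_iff] at hz; rw [hz]; exact ⟨hsx, le_rfl⟩
      have h3 : (μ {x}).toReal ≤ qm x - qm s := by
        rw [← ENNReal.toReal_ofReal (sub_nonneg.2 (qm_mono hs0 hx hsx.le))]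
        exact ENNReal.toReal_mono ENNReal.ofReal_ne_top h2
      linarith
  · exact measure_mono_null (singleton_subset_iff.2 hx) h.supp

lemma IsMinkowski.inter (h : IsMinkowski μ) {S T : Set ℝ}
    (hST : S ∩ Icc 0 1 = T ∩ Icc 0 1) : μ S = μ T := by
  have e : ∀ S : Set ℝ, μ S = μ (S ∩ Icc 0 1) := by
    intro S
    apply le_antisymm _ (measure_mono inter_subset_left)
    calc μ S ≤ μ (S ∩ Icc 0 1 ∪ (Icc 0 1)ᶜ) := by
          apply measure_mono; intro z hz
          by_cases hz1 : z ∈ Icc (0 : ℝ) 1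
          · exact Or.inl ⟨hz, hz1⟩
          · exact Or.inr hz1
      _ ≤ μ (S ∩ Icc 0 1) + μ (Icc 0 1)ᶜ := measure_union_le _ _
      _ = _ := by rw [h.supp, add_zero]
  rw [e S, e T, hST]

lemma IsMinkowski.icc_one (h : IsMinkowski μ) {t : ℝ} (ht : t ∈ Icc (0 : ℝ) 1) :
    μ (Icc t 1) = ENNReal.ofReal (1 - qm t) := by
  have h1 : Icc t 1 = {t} ∪ Ioc t 1 := by
    rw [union_comm, Ioc_union_left ht.2]
  have h2 := h.ioc_eq ht (by norm_num : (1 : ℝ) ∈ Icc (0 : ℝ) 1) ht.2
  rw [qm_one] at h2
  apply le_antisymm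
  · rw [h1]
    calc μ ({t} ∪ Ioc t 1) ≤ μ {t} + μ (Ioc t 1) := measure_union_le _ _
      _ = _ := by rw [h.noAtom, zero_add, h2]
  · rw [← h2]; exact measure_mono Ioc_subset_Icc_self

lemma measurable_mA : Measurable mA := by unfold mA; fun_prop
lemma measurable_mC : Measurable mC := by unfold mC; fun_prop

lemma IsMinkowski.selfsim (h : IsMinkowski μ) :
    μ = (2⁻¹ : ENNReal) • Measure.map mA μ + (2⁻¹ : ENNReal) • Measure.map mC μ := by
  have := h.prob
  have htot : ∀ S : Set ℝ, Icc (0 : ℝ) 1 ⊆ S → μ S = 1 := by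
    intro S hS
    rw [h.inter (T := univ) (by rw [univ_inter, inter_eq_right.2 hS])]
    exact measure_univ
  apply Measure.ext_of_Iic
  intro a
  rw [Measure.add_apply, Measure.smul_apply, Measure.smul_apply,
    Measure.map_apply measurable_mA measurableSet_Iic,
    Measure.map_apply measurable_mC measurableSet_Iic]
  simp only [smul_eq_mul]
  have hA01 : ∀ x ∈ Icc (0 : ℝ) 1, mA x ∈ Icc (0 : ℝ) (1 / 2) := by
    intro x hx
    unfold mA
    have : 0 < 1 + x := by linarith [hx.1]
    exact ⟨div_nonneg hx.1 this.le, by rw [div_le_div_iff₀ this (by norm_num)]; linarith [hx.2]⟩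
  have hC01 : ∀ x ∈ Icc (0 : ℝ) 1, mC x ∈ Icc (1 / 2 : ℝ) 1 := by
    intro x hx
    unfold mC
    have : 0 < 1 + x := by linarith [hx.1]
    exact ⟨by rw [div_le_div_iff₀ (by norm_num) this]; linarith [hx.2],
      by rw [div_le_one this]; linarith [hx.1]⟩
  have half2 : (2⁻¹ : ENNReal) + 2⁻¹ = 1 := ENNReal.inv_two_add_inv_two
  rcases lt_or_ge a 0 with ha | ha
  · have e1 : μ (Iic a) = 0 := by
      rw [h.inter (T := ∅)]; · simp
      ext z; simp only [mem_inter_iff, mem_Iic, mem_Icc, mem_empty_iff_false, false_and,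
        iff_false, not_and]
      intro h1 h2; linarith
    have e2 : μ (mA ⁻¹' Iic a) = 0 := by
      rw [h.inter (T := ∅)]; · simp
      ext z; simp only [mem_inter_iff, mem_preimage, mem_Iic, mem_empty_iff_false, false_and,
        iff_false, not_and]
      intro h1 h2; have := (hA01 z h2).1; linarith
    have e3 : μ (mC ⁻¹' Iic a) = 0 := by
      rw [h.inter (T := ∅)]; · simp
      ext z; simp only [mem_inter_iff, mem_preimage, mem_Iic, mem_empty_iff_false, false_and,
        iff_false, not_and]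
      intro h1 h2; have := (hC01 z h2).1; linarith
    rw [e1, e2, e3]; simp
  rcases lt_or_ge a 1 with ha1 | ha1
  swap
  · rw [htot, htot, htot]
    · simp [half2]
    · intro x hx; exact (hC01 x hx).2.trans ha1
    · intro x hx; exact (hA01 x hx).2.trans (by linarith)
    · intro x hx; exact hx.2.trans ha1
  have haI : a ∈ Icc (0 : ℝ) 1 := ⟨ha, ha1.le⟩
  have e1 : μ (Iic a) = ENNReal.ofReal (qm a) := by
    rw [← h.cdf a haI]
    apply h.inter
    ext z; simp only [mem_inter_iff, mem_Iic, mem_Icc]; constructor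
    · rintro ⟨h1, h2, h3⟩; exact ⟨⟨h2, h1⟩, h2, h3⟩
    · rintro ⟨⟨h1, h2⟩, h3, h4⟩; exact ⟨h2, h3, h4⟩
  rw [e1]
  rcases lt_or_ge a (1 / 2) with ha2 | ha2
  · have e2 : μ (mA ⁻¹' Iic a) = ENNReal.ofReal (qm (a / (1 - a))) := by
      rw [← h.cdf _ ((cover haI).1 ha2.le).2]
      apply h.inter
      ext z; simp only [mem_inter_iff, mem_preimage, mem_Iic, mem_Icc]
      have h1a : 0 < 1 - a := by linarith
      constructor
      · rintro ⟨h1, h2, h3⟩
        refine ⟨⟨h2, ?_⟩, h2, h3⟩
        unfold mA at h1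
        rw [div_le_iff₀ (by linarith)] at h1
        rw [le_div_iff₀ h1a]; linarith
      · rintro ⟨⟨h1, h2⟩, h3, h4⟩
        refine ⟨?_, h3, h4⟩
        unfold mA
        rw [div_le_iff₀ (by linarith)]
        rw [le_div_iff₀ h1a] at h2; linarith
    have e3 : μ (mC ⁻¹' Iic a) = 0 := by
      rw [h.inter (T := ∅)]; · simp
      ext z; simp only [mem_inter_iff, mem_preimage, mem_Iic, mem_empty_iff_false, false_and,
        iff_false, not_and]
      intro h1 h2; have := (hC01 z h2).1; linarith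
    rw [e2, e3, mul_zero, add_zero, qm_lo haI ha2.le, div_eq_mul_inv, mul_comm,
      ENNReal.ofReal_mul (by norm_num)]
    congr 1
    rw [ENNReal.ofReal_inv_of_pos (by norm_num)]; simp
  · have e2 : μ (mA ⁻¹' Iic a) = 1 := by
      apply htot; intro x hx; exact (hA01 x hx).2.trans ha2
    have hm := ((cover haI).2 ha2).2
    have e3 : μ (mC ⁻¹' Iic a) = ENNReal.ofReal (1 - qm (1 / a - 1)) := by
      rw [← h.icc_one hm]
      apply h.inter
      have h0a : 0 < a := by linarith
      ext z; simp only [mem_inter_iff, mem_preimage, mem_Iic, mem_Icc]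
      constructor
      · rintro ⟨h1, h2, h3⟩
        refine ⟨⟨?_, h3⟩, h2, h3⟩
        unfold mC at h1
        rw [div_le_iff₀ (by linarith)] at h1
        rw [sub_le_iff_le_add, div_le_iff₀ h0a]; linarith
      · rintro ⟨⟨h1, h2⟩, h3, h4⟩
        refine ⟨?_, h3, h4⟩
        unfold mC
        rw [div_le_iff₀ (by linarith)]
        rw [sub_le_iff_le_add, div_le_iff₀ h0a] at h1; linarith
    rw [e2, e3, qm_hi haI ha2]
    have hq := qm_mem hm
    have : (2⁻¹ : ENNReal) = ENNReal.ofReal (1 / 2) := by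
      rw [one_div, ENNReal.ofReal_inv_of_pos (by norm_num)]; simp
    rw [this, mul_one, ← ENNReal.ofReal_mul (by norm_num), ← ENNReal.ofReal_add (by norm_num)
      (by nlinarith [hq.1, hq.2])]
    congr 1; ring

end X92.BF
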