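import Pool.Agent.X92.BF2
open MeasureTheory Set Filter Topology

namespace X92.BF

/-- truncated logarithm `log max(|t|, δ)` -/
noncomputable def L (δ t : ℝ) : ℝ := Real.log (max |t| δ)

lemma L_mono {δ s t : ℝ} (hδ : 0 < δ) (h : |s| ≤ |t|) : L δ s ≤ L δ t := by
  unfold L
  exact Real.log_le_log (lt_max_of_lt_right hδ) (max_le_max h le_rfl)

lemma L_ge {δ t : ℝ} (hδ : 0 < δ) : Real.log δ ≤ L δ t :=
  Real.log_le_log hδ (le_max_right _ _)

lemma L_le_zero {δ t : ℝ} (hδ : 0 < δ) (hδ1 : δ ≤ 1) (ht : |t| ≤ 1) : L δ t ≤ 0 :=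
  Real.log_nonpos (le_max_of_le_right hδ.le) (max_le ht hδ1)

/-- if `|s| ≥ |t| / c` with `c ≥ 1` then `L s ≥ L t - log c` -/
lemma L_scale {δ s t c : ℝ} (hδ : 0 < δ) (hc : 1 ≤ c) (h : |t| ≤ c * |s|) :
    L δ t - Real.log c ≤ L δ s := by
  unfold L
  have hc0 : 0 < c := by linarith
  rw [sub_le_iff_le_add, ← Real.log_mul (lt_max_of_lt_right hδ).ne' hc0.ne']
  apply Real.log_le_log (lt_max_of_lt_right hδ)
  apply max_le
  · calc |t| ≤ c * |s| := h
      _ ≤ max |s| δ * c := by rw [mul_comm]; gcongr; exact le_max_left _ _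
  · calc δ = δ * 1 := (mul_one _).symm
      _ ≤ max |s| δ * c := by gcongr; exact le_max_right _ _

lemma L_cont {δ : ℝ} (hδ : 0 < δ) : Continuous (L δ) := by
  unfold L
  apply Continuous.log (by fun_prop)
  intro x; exact (lt_max_of_lt_right hδ).ne'

lemma IsMinkowski.ae_mem {μ : Measure ℝ} (h : IsMinkowski μ) : ∀ᵐ x ∂μ, x ∈ Icc (0 : ℝ) 1 := by
  rw [ae_iff]
  exact h.supp

/-- integrals of continuous functions along a map preserving `[0,1]` -/
lemma IsMinkowski.integrable_of {μ : Measure ℝ} (h : IsMinkowski μ) {f : ℝ → ℝ}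
    (hm : Measurable f) {B : ℝ} (hB : ∀ x ∈ Icc (0 : ℝ) 1, |f x| ≤ B) : Integrable f μ := by
  have := h.prob
  refine Integrable.of_bound hm.aestronglyMeasurable B ?_
  filter_upwards [h.ae_mem] with x hx
  exact hB x hx

lemma mA_mem {x : ℝ} (hx : x ∈ Icc (0 : ℝ) 1) : mA x ∈ Icc (0 : ℝ) (1 / 2) := by
  unfold mA
  have : 0 < 1 + x := by linarith [hx.1]
  exact ⟨div_nonneg hx.1 this.le, by rw [div_le_div_iff₀ this (by norm_num)]; linarith [hx.2]⟩

lemma mC_mem {x : ℝ} (hx : x ∈ Icc (0 : ℝ) 1) : mC x ∈ Icc (1 / 2 : ℝ) 1 := by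
  unfold mC
  have : 0 < 1 + x := by linarith [hx.1]
  exact ⟨by rw [div_le_div_iff₀ (by norm_num) this]; linarith [hx.2],
      by rw [div_le_one this]; linarith [hx.1]⟩

lemma IsMinkowski.integral_split {μ : Measure ℝ} (h : IsMinkowski μ) {f : ℝ → ℝ}
    (hf : Continuous f) :
    ∫ x, f x ∂μ = (1 / 2) * ∫ x, f (mA x) ∂μ + (1 / 2) * ∫ x, f (mC x) ∂μ := by
  have := h.prob
  obtain ⟨B, hB⟩ := isCompact_Icc.exists_bound_of_continuousOn (s := Icc (0 : ℝ) 1)
    hf.continuousOn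
  have hA : Integrable (fun x => f (mA x)) μ := h.integrable_of (hf.measurable.comp measurable_mA)
    (fun x hx => hB _ ⟨(mA_mem hx).1, (mA_mem hx).2.trans (by norm_num)⟩)
  have hC : Integrable (fun x => f (mC x)) μ := h.integrable_of (hf.measurable.comp measurable_mC)
    (fun x hx => hB _ ⟨by linarith [(mC_mem hx).1], (mC_mem hx).2⟩)
  have hA' : Integrable f (Measure.map mA μ) :=
    (integrable_map_measure hf.aestronglyMeasurable measurable_mA.aemeasurable).2 hA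
  have hC' : Integrable f (Measure.map mC μ) :=
    (integrable_map_measure hf.aestronglyMeasurable measurable_mC.aemeasurable).2 hC
  conv_lhs => rw [h.selfsim]
  rw [integral_add_measure (hA'.smul_measure (by simp)) (hC'.smul_measure (by simp)),
    integral_smul_measure, integral_smul_measure,
    integral_map measurable_mA.aemeasurable hf.aestronglyMeasurable,
    integral_map measurable_mC.aemeasurable hf.aestronglyMeasurable]
  simp

/-- the truncated potential -/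
noncomputable def U (δ : ℝ) (μ : Measure ℝ) (z : ℝ) : ℝ := - ∫ x, L δ (x - z) ∂μ

variable {μ : Measure ℝ} {δ : ℝ}

lemma abs_L_le (hδ : 0 < δ) (hδ1 : δ ≤ 1) {t : ℝ} (ht : |t| ≤ 1) : |L δ t| ≤ - Real.log δ := by
  rw [abs_of_nonpos (L_le_zero hδ hδ1 ht)]
  linarith [L_ge (t := t) hδ]

lemma abs_sub_le_one {x z : ℝ} (hx : x ∈ Icc (0 : ℝ) 1) (hz : z ∈ Icc (0 : ℝ) 1) :
    |x - z| ≤ 1 := by
  rw [abs_le]; exact ⟨by linarith [hx.1, hz.2], by linarith [hx.2, hz.1]⟩

lemma IsMinkowski.int_L (h : IsMinkowski μ) (hδ : 0 < δ) (hδ1 : δ ≤ 1) {W : ℝ → ℝ}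
    (hW : Measurable W) (hW1 : ∀ x ∈ Icc (0 : ℝ) 1, W x ∈ Icc (0 : ℝ) 1) {z : ℝ}
    (hz : z ∈ Icc (0 : ℝ) 1) : Integrable (fun x => L δ (W x - z)) μ := by
  apply h.integrable_of (B := - Real.log δ)
  · exact (L_cont hδ).measurable.comp (hW.sub_const z)
  · intro x hx
    exact abs_L_le hδ hδ1 (abs_sub_le_one (hW1 x hx) hz)

lemma mA01 {x : ℝ} (hx : x ∈ Icc (0 : ℝ) 1) : mA x ∈ Icc (0 : ℝ) 1 :=
  ⟨(mA_mem hx).1, (mA_mem hx).2.trans (by norm_num)⟩
lemma mC01 {x : ℝ} (hx : x ∈ Icc (0 : ℝ) 1) : mC x ∈ Icc (0 : ℝ) 1 :=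
  ⟨by linarith [(mC_mem hx).1], (mC_mem hx).2⟩

lemma exp_A {x w : ℝ} (hx : x ∈ Icc (0 : ℝ) 1) (hw : w ∈ Icc (0 : ℝ) 1) :
    |x - w| ≤ 4 * |mA x - mA w| := by
  have h1 : 0 < 1 + x := by linarith [hx.1]
  have h2 : 0 < 1 + w := by linarith [hw.1]
  have : mA x - mA w = (x - w) / ((1 + x) * (1 + w)) := by unfold mA; field_simp; ring
  rw [this, abs_div, abs_of_pos (mul_pos h1 h2), mul_div_assoc', le_div_iff₀ (mul_pos h1 h2)]
  have : (1 + x) * (1 + w) ≤ 4 := by nlinarith [hx.2, hw.2, hx.1, hw.1]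
  nlinarith [abs_nonneg (x - w)]

lemma exp_C {x w : ℝ} (hx : x ∈ Icc (0 : ℝ) 1) (hw : w ∈ Icc (0 : ℝ) 1) :
    |x - w| ≤ 4 * |mC x - mC w| := by
  have h1 : 0 < 1 + x := by linarith [hx.1]
  have h2 : 0 < 1 + w := by linarith [hw.1]
  have : mC x - mC w = - (x - w) / ((1 + x) * (1 + w)) := by unfold mC; field_simp; ring
  rw [this, abs_div, abs_neg, abs_of_pos (mul_pos h1 h2), mul_div_assoc',
    le_div_iff₀ (mul_pos h1 h2)]
  have : (1 + x) * (1 + w) ≤ 4 := by nlinarith [hx.2, hw.2, hx.1, hw.1]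
  nlinarith [abs_nonneg (x - w)]

/-- comparison of integrals of `L` -/
lemma IsMinkowski.int_comp (h : IsMinkowski μ) (hδ : 0 < δ) (hδ1 : δ ≤ 1) {W : ℝ → ℝ}
    (hW : Measurable W) (hW1 : ∀ x ∈ Icc (0 : ℝ) 1, W x ∈ Icc (0 : ℝ) 1) {z w c : ℝ}
    (hz : z ∈ Icc (0 : ℝ) 1) (hw : w ∈ Icc (0 : ℝ) 1) (hc : 1 ≤ c)
    (hb : ∀ x ∈ Icc (0 : ℝ) 1, |x - w| ≤ c * |W x - z|) :
    - ∫ x, L δ (W x - z) ∂μ ≤ U δ μ w + Real.log c := by
  have := h.prob
  unfold U
  have h1 : ∫ x, (L δ (x - w) - Real.log c) ∂μ ≤ ∫ x, L δ (W x - z) ∂μ := by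
    apply integral_mono_ae
    · exact (h.int_L hδ hδ1 measurable_id (fun x hx => hx) hw).sub (integrable_const _)
    · exact h.int_L hδ hδ1 hW hW1 hz
    · filter_upwards [h.ae_mem] with x hx
      exact L_scale hδ hc (hb x hx)
  have hi : Integrable (fun x => L δ (x - w)) μ :=
    h.int_L hδ hδ1 measurable_id (fun x hx => hx) hw
  rw [integral_sub hi (integrable_const _)] at h1
  simp only [integral_const, probReal_univ, smul_eq_mul, one_mul] at h1
  linarith

lemma IsMinkowski.int_const_le (h : IsMinkowski μ) (hδ : 0 < δ) (hδ1 : δ ≤ 1) {W : ℝ → ℝ}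
    (hW : Measurable W) (hW1 : ∀ x ∈ Icc (0 : ℝ) 1, W x ∈ Icc (0 : ℝ) 1) {z c : ℝ}
    (hz : z ∈ Icc (0 : ℝ) 1) (hc : 0 < c)
    (hb : ∀ x ∈ Icc (0 : ℝ) 1, c ≤ |W x - z|) :
    - ∫ x, L δ (W x - z) ∂μ ≤ - Real.log c := by
  have := h.prob
  have h1 : ∫ x, (Real.log c) ∂μ ≤ ∫ x, L δ (W x - z) ∂μ := by
    apply integral_mono_ae
    · exact (integrable_const _)
    · exact h.int_L hδ hδ1 hW hW1 hz
    · filter_upwards [h.ae_mem] with x hx
      exact Real.log_le_log hc ((hb x hx).trans (le_max_left _ _))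
  simp only [integral_const, probReal_univ, smul_eq_mul, one_mul] at h1
  linarith

lemma log4 : Real.log 4 = 2 * Real.log 2 := by
  rw [show (4 : ℝ) = 2 ^ 2 by norm_num, Real.log_pow]; norm_num

lemma IsMinkowski.U_split (h : IsMinkowski μ) (hδ : 0 < δ) (z : ℝ) :
    U δ μ z = (1 / 2) * (- ∫ x, L δ (mA x - z) ∂μ) + (1 / 2) * (- ∫ x, L δ (mC x - z) ∂μ) := by
  unfold U
  rw [h.integral_split (f := fun x => L δ (x - z)) ((L_cont hδ).comp (by fun_prop))]
  ring

lemma IsMinkowski.U_zero (h : IsMinkowski μ) (hδ : 0 < δ) (hδ1 : δ ≤ 1) :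
    U δ μ 0 ≤ 2 * Real.log 2 := by
  have h0 : (0 : ℝ) ∈ Icc (0 : ℝ) 1 := by norm_num
  have e1 := h.int_comp hδ hδ1 measurable_mA (fun x hx => mA01 hx) (z := 0) (w := 0) (c := 2)
    h0 h0 (by norm_num) (by
      intro x hx
      rw [sub_zero, sub_zero, abs_of_nonneg hx.1, abs_of_nonneg (mA_mem hx).1]
      unfold mA
      rw [mul_div_assoc', le_div_iff₀ (by linarith [hx.1])]
      nlinarith [hx.1, hx.2])
  have e2 := h.int_const_le hδ hδ1 measurable_mC (fun x hx => mC01 hx) (z := 0) (c := 1 / 2)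
    h0 (by norm_num) (by
      intro x hx
      rw [sub_zero, abs_of_nonneg (by linarith [(mC_mem hx).1])]; exact (mC_mem hx).1)
  rw [one_div, Real.log_inv, neg_neg] at e2
  have := h.U_split hδ 0
  linarith

lemma IsMinkowski.U_one (h : IsMinkowski μ) (hδ : 0 < δ) (hδ1 : δ ≤ 1) :
    U δ μ 1 ≤ 2 * Real.log 2 := by
  have h0 : (0 : ℝ) ∈ Icc (0 : ℝ) 1 := by norm_num
  have h1 : (1 : ℝ) ∈ Icc (0 : ℝ) 1 := by norm_num
  have e1 := h.int_const_le hδ hδ1 measurable_mA (fun x hx => mA01 hx) (z := 1) (c := 1 / 2)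
    h1 (by norm_num) (by
      intro x hx
      rw [abs_sub_comm, abs_of_nonneg (by linarith [(mA_mem hx).2])]; linarith [(mA_mem hx).2])
  have e2 := h.int_comp hδ hδ1 measurable_mC (fun x hx => mC01 hx) (z := 1) (w := 0) (c := 2)
    h1 h0 (by norm_num) (by
      intro x hx
      rw [sub_zero, abs_of_nonneg hx.1, abs_sub_comm, abs_of_nonneg (by linarith [(mC_mem hx).2])]
      unfold mC
      have : 0 < 1 + x := by linarith [hx.1]
      have e : 1 - 1 / (1 + x) = x / (1 + x) := by field_simp; ring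
      rw [e, mul_div_assoc', le_div_iff₀ this]
      nlinarith [hx.1, hx.2])
  rw [one_div, Real.log_inv, neg_neg] at e1
  have := h.U_split hδ 1
  have := h.U_zero hδ hδ1
  linarith

lemma IsMinkowski.U_aux (h : IsMinkowski μ) (hδ : 0 < δ) (hδ1 : δ ≤ 1) (n : ℕ) :
    ∀ z ∈ Icc (0 : ℝ) 1, U δ μ z ≤ 6 * Real.log 2 + (1 / 2) ^ n * (- Real.log δ) := by
  have hp := h.prob
  have hl2 : 0 < Real.log 2 := Real.log_pos (by norm_num)
  have h1 : (1 : ℝ) ∈ Icc (0 : ℝ) 1 := by norm_num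
  induction n with
  | zero =>
    intro z hz
    unfold U
    have h2 : ∫ x, (Real.log δ) ∂μ ≤ ∫ x, L δ (x - z) ∂μ := by
      apply integral_mono_ae (integrable_const _)
        (h.int_L hδ hδ1 measurable_id (fun x hx => hx) hz)
      exact Eventually.of_forall fun x => L_ge hδ
    simp only [integral_const, probReal_univ, smul_eq_mul, one_mul] at h2
    simp only [pow_zero, one_mul]; linarith
  | succ n ih =>
    intro z hz
    have hU1 := h.U_one hδ hδ1
    have hsp := h.U_split hδ z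
    rcases le_total z (1 / 2) with hz2 | hz2
    · obtain ⟨e, hw⟩ := (cover hz).1 hz2
      have e1 := h.int_comp hδ hδ1 measurable_mA (fun x hx => mA01 hx) hz hw (c := 4)
        (by norm_num) (by intro x hx; have := exp_A hx hw; rwa [e] at this)
      have e2 := h.int_comp hδ hδ1 measurable_mC (fun x hx => mC01 hx) hz h1 (c := 4)
        (by norm_num) (by
          intro x hx
          refine (exp_C hx h1).trans ?_
          have e3 : mC 1 = 1 / 2 := by unfold mC; norm_num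
          rw [e3, abs_of_nonneg (by linarith [(mC_mem hx).1]),
            abs_of_nonneg (by linarith [(mC_mem hx).1])]
          linarith)
      have := ih _ hw
      rw [log4] at e1 e2
      rw [pow_succ]; linarith
    · obtain ⟨e, hw⟩ := (cover hz).2 hz2
      have e1 := h.int_comp hδ hδ1 measurable_mC (fun x hx => mC01 hx) hz hw (c := 4)
        (by norm_num) (by intro x hx; have := exp_C hx hw; rwa [e] at this)
      have e2 := h.int_comp hδ hδ1 measurable_mA (fun x hx => mA01 hx) hz h1 (c := 4)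
        (by norm_num) (by
          intro x hx
          refine (exp_A hx h1).trans ?_
          have e3 : mA 1 = 1 / 2 := by unfold mA; norm_num
          rw [e3, abs_of_nonpos (by linarith [(mA_mem hx).2]),
            abs_of_nonpos (by linarith [(mA_mem hx).2])]
          linarith)
      have := ih _ hw
      rw [log4] at e1 e2
      rw [pow_succ]; linarith

lemma IsMinkowski.U_le (h : IsMinkowski μ) (hδ : 0 < δ) (hδ1 : δ ≤ 1) {z : ℝ}
    (hz : z ∈ Icc (0 : ℝ) 1) : U δ μ z ≤ 6 * Real.log 2 := by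
  have h1 : Tendsto (fun n : ℕ => 6 * Real.log 2 + (1 / 2 : ℝ) ^ n * (- Real.log δ)) atTop
      (𝓝 (6 * Real.log 2 + 0 * (- Real.log δ))) :=
    tendsto_const_nhds.add
      ((tendsto_pow_atTop_nhds_zero_of_lt_one (by norm_num) (by norm_num)).mul_const _)
  rw [zero_mul, add_zero] at h1
  exact ge_of_tendsto' h1 fun n => h.U_aux hδ hδ1 n z hz

end X92.BF
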