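import Pool.Agent.X92.BF3
open MeasureTheory Set Filter Topology

namespace X92.BF

noncomputable def Mob (a b c d x : ℝ) : ℝ := (a * x + b) / (c * x + d)

structure Good (a b c d : ℝ) : Prop where
  ha : 0 ≤ a
  hb : 0 ≤ b
  hc : 0 ≤ c
  hd : 1 ≤ d
  hbd : b ≤ d
  hs : a + b ≤ c + d
  hdet : |a * d - b * c| = 1

variable {a b c d : ℝ} {μ : Measure ℝ}

lemma Good.den (h : Good a b c d) {x : ℝ} (hx : x ∈ Icc (0 : ℝ) 1) : 1 ≤ c * x + d := by
  have := mul_nonneg h.hc hx.1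
  linarith [h.hd]

lemma Good.den_le (h : Good a b c d) {x : ℝ} (hx : x ∈ Icc (0 : ℝ) 1) : c * x + d ≤ c + d := by
  have := mul_le_mul_of_nonneg_left hx.2 h.hc
  linarith

lemma Good.maps (h : Good a b c d) {x : ℝ} (hx : x ∈ Icc (0 : ℝ) 1) :
    Mob a b c d x ∈ Icc (0 : ℝ) 1 := by
  have h1 := h.den hx
  unfold Mob
  refine ⟨div_nonneg (add_nonneg (mul_nonneg h.ha hx.1) h.hb) (by linarith), ?_⟩
  rw [div_le_one (by linarith)]
  have e1 := mul_le_mul_of_nonneg_left h.hs hx.1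
  have e2 := mul_le_mul_of_nonneg_left h.hbd (sub_nonneg.2 hx.2)
  nlinarith

lemma Good.diff (h : Good a b c d) {x y : ℝ} (hx : x ∈ Icc (0 : ℝ) 1) (hy : y ∈ Icc (0 : ℝ) 1) :
    |Mob a b c d x - Mob a b c d y| = |x - y| / ((c * x + d) * (c * y + d)) := by
  have h1 := h.den hx
  have h2 := h.den hy
  have : Mob a b c d x - Mob a b c d y
      = (a * d - b * c) * (x - y) / ((c * x + d) * (c * y + d)) := by
    unfold Mob
    rw [div_sub_div _ _ (by positivity) (by positivity)]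
    congr 1; ring
  rw [this, abs_div, abs_mul, h.hdet, one_mul, abs_of_pos (a := (c * x + d) * (c * y + d))
    (by positivity)]

lemma Good.lower (h : Good a b c d) {x y Q : ℝ} (hx : x ∈ Icc (0 : ℝ) 1)
    (hy : y ∈ Icc (0 : ℝ) 1) (hQ : c + d ≤ Q) :
    |x - y| ≤ Q ^ 2 * |Mob a b c d x - Mob a b c d y| := by
  have h1 := h.den hx
  have h2 := h.den hy
  rw [h.diff hx hy, mul_div_assoc', le_div_iff₀ (by positivity), mul_comm]
  apply mul_le_mul_of_nonneg_right _ (abs_nonneg _)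
  rw [sq]
  exact mul_le_mul ((h.den_le hx).trans hQ) ((h.den_le hy).trans hQ) (by linarith)
    (by linarith [h.den_le hx])

lemma Good.upper' (h : Good a b c d) {x y : ℝ} (hx : x ∈ Icc (0 : ℝ) 1)
    (hy : y ∈ Icc (0 : ℝ) 1) (hxy : y ≤ x) :
    |Mob a b c d x - Mob a b c d y| ≤ 1 / (c + d) := by
  have h1 := h.den hx
  have h2 := h.den hy
  have hcd : 0 < c + d := by linarith [h.hc, h.hd]
  rw [h.diff hx hy, abs_of_nonneg (by linarith), div_le_div_iff₀ (by positivity) hcd, one_mul]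
  have e1 : (x - y) * (c + d) ≤ c * x + d := by
    have : (x - y) * (c + d) ≤ x * (c + d) :=
      mul_le_mul_of_nonneg_right (by linarith [hy.1]) hcd.le
    have h3 : x * d ≤ d := by nlinarith [hx.2, h.hd]
    nlinarith
  calc (x - y) * (c + d) ≤ (c * x + d) * 1 := by linarith
    _ ≤ (c * x + d) * (c * y + d) := by gcongr

lemma Good.upper (h : Good a b c d) {x y : ℝ} (hx : x ∈ Icc (0 : ℝ) 1)
    (hy : y ∈ Icc (0 : ℝ) 1) :
    |Mob a b c d x - Mob a b c d y| ≤ 1 / (c + d) := by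
  rcases le_total y x with hh | hh
  · exact h.upper' hx hy hh
  · rw [abs_sub_comm]; exact h.upper' hy hx hh

lemma Good.childA (h : Good a b c d) : Good (a + b) b (c + d) d := by
  obtain ⟨h1, h2, h3, h4, h5, h6, h7⟩ := h
  refine ⟨by linarith, h2, by linarith, h4, h5, by linarith, ?_⟩
  rw [← h7]; congr 1; ring

lemma Good.childC (h : Good a b c d) : Good b (a + b) d (c + d) := by
  obtain ⟨h1, h2, h3, h4, h5, h6, h7⟩ := h
  refine ⟨h2, by linarith, by linarith, by linarith, by linarith, by linarith, ?_⟩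
  rw [← h7, abs_sub_comm]; congr 1; ring

lemma Good.compA (h : Good a b c d) {x : ℝ} (hx : x ∈ Icc (0 : ℝ) 1) :
    Mob (a + b) b (c + d) d x = Mob a b c d (mA x) := by
  have h1 : 0 < 1 + x := by linarith [hx.1]
  have h2 := h.childA.den hx
  have h3 := h.den (mA01 hx)
  unfold Mob mA at *
  rw [div_eq_div_iff (by linarith) (by linarith)]
  field_simp; ring

lemma Good.compC (h : Good a b c d) {x : ℝ} (hx : x ∈ Icc (0 : ℝ) 1) :
    Mob b (a + b) d (c + d) x = Mob a b c d (mC x) := by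
  have h1 : 0 < 1 + x := by linarith [hx.1]
  have h2 := h.childC.den hx
  have h3 := h.den (mC01 hx)
  unfold Mob mC at *
  rw [div_eq_div_iff (by linarith) (by linarith)]
  field_simp; ring

lemma measurable_Mob (a b c d : ℝ) : Measurable (Mob a b c d) := by unfold Mob; fun_prop

lemma IsMinkowski.mapA_le (h : IsMinkowski μ) : Measure.map mA μ ≤ (2 : ENNReal) • μ := by
  intro S
  have e : μ S = 2⁻¹ * Measure.map mA μ S + 2⁻¹ * Measure.map mC μ S := by
    conv_lhs => rw [h.selfsim]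
    simp
  rw [Measure.smul_apply, smul_eq_mul, e, mul_add, ← mul_assoc,
    ENNReal.mul_inv_cancel (by norm_num) (by norm_num), one_mul]
  exact le_self_add

lemma IsMinkowski.mapC_le (h : IsMinkowski μ) : Measure.map mC μ ≤ (2 : ENNReal) • μ := by
  intro S
  have e : μ S = 2⁻¹ * Measure.map mA μ S + 2⁻¹ * Measure.map mC μ S := by
    conv_lhs => rw [h.selfsim]
    simp
  rw [Measure.smul_apply, smul_eq_mul, e, mul_add, ← mul_assoc, ← mul_assoc,
    ENNReal.mul_inv_cancel (by norm_num) (by norm_num), one_mul, one_mul]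
  exact le_add_self

lemma IsMinkowski.map_step (h : IsMinkowski μ) {f g W : ℝ → ℝ} (hf : Measurable f)
    (hW : Measurable W) (hfg : ∀ x ∈ Icc (0 : ℝ) 1, g x = W (f x))
    (hf2 : Measure.map f μ ≤ (2 : ENNReal) • μ) {K : ENNReal} (hK : K ≠ ⊤)
    (hWK : Measure.map W μ ≤ K • μ) :
    ∃ K' : ENNReal, K' ≠ ⊤ ∧ Measure.map g μ ≤ K' • μ := by
  refine ⟨2 * K, ENNReal.mul_ne_top (by norm_num) hK, ?_⟩
  have e : Measure.map g μ = Measure.map W (Measure.map f μ) := by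
    rw [Measure.map_map hW hf]
    apply Measure.map_congr
    filter_upwards [h.ae_mem] with x hx
    exact hfg x hx
  rw [e]
  calc Measure.map W (Measure.map f μ) ≤ Measure.map W ((2 : ENNReal) • μ) :=
        Measure.map_mono hf2 hW
    _ = (2 : ENNReal) • Measure.map W μ := Measure.map_smul _ _ _
    _ ≤ (2 : ENNReal) • (K • μ) := by gcongr
    _ = (2 * K) • μ := by rw [smul_smul]

lemma IsMinkowski.words (h : IsMinkowski μ) (Q : ℝ) (hQ : 2 ≤ Q) {t : ℝ}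
    (ht : t ∈ Icc (0 : ℝ) 1) (k : ℕ) : ∃ a b c d : ℝ, Good a b c d ∧
    (∃ s ∈ Icc (0 : ℝ) 1, Mob a b c d s = t) ∧
    (∃ K : ENNReal, K ≠ ⊤ ∧ Measure.map (Mob a b c d) μ ≤ K • μ) ∧ c + d ≤ Q ∧
    (Q < c + 2 * d ∨ (k : ℝ) + 2 ≤ c + 2 * d) := by
  induction k with
  | zero =>
    refine ⟨1, 0, 0, 1, ⟨by norm_num, by norm_num, by norm_num, by norm_num, by norm_num,
      by norm_num, by norm_num⟩, ⟨t, ht, by simp [Mob]⟩, ⟨1, by simp, ?_⟩, by linarith,
      Or.inr (by norm_num)⟩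
    have : Mob 1 0 0 1 = id := by ext x; simp [Mob]
    rw [this, Measure.map_id, one_smul]
  | succ k ih =>
    obtain ⟨a, b, c, d, hg, ⟨s, hs, hst⟩, ⟨K, hK, hKm⟩, hcd, hor⟩ := ih
    by_cases hlt : Q < c + 2 * d
    · exact ⟨a, b, c, d, hg, ⟨s, hs, hst⟩, ⟨K, hK, hKm⟩, hcd, Or.inl hlt⟩
    · have hle : c + 2 * d ≤ Q := not_lt.1 hlt
      have hk : (k : ℝ) + 2 ≤ c + 2 * d := hor.resolve_left hlt
      rcases le_total s (1 / 2) with h2 | h2
      · obtain ⟨e, hs'⟩ := (cover hs).1 h2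
        refine ⟨a + b, b, c + d, d, hg.childA, ⟨_, hs', ?_⟩, ?_, by linarith, Or.inr ?_⟩
        · rw [hg.compA hs', e, hst]
        · exact h.map_step measurable_mA (measurable_Mob a b c d) (fun x hx => hg.compA hx)
            h.mapA_le hK hKm
        · push_cast; linarith [hg.hd]
      · obtain ⟨e, hs'⟩ := (cover hs).2 h2
        refine ⟨b, a + b, d, c + d, hg.childC, ⟨_, hs', ?_⟩, ?_, by linarith, Or.inr ?_⟩
        · rw [hg.compC hs', e, hst]
        · exact h.map_step measurable_mC (measurable_Mob a b c d) (fun x hx => hg.compC hx)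
            h.mapC_le hK hKm
        · push_cast; linarith [hg.hd, hg.hc]

lemma IsMinkowski.exists_word (h : IsMinkowski μ) (Q : ℝ) (hQ : 2 ≤ Q) {t : ℝ}
    (ht : t ∈ Icc (0 : ℝ) 1) : ∃ W : ℝ → ℝ, Measurable W ∧ ContinuousOn W (Icc 0 1) ∧
    (∀ x ∈ Icc (0 : ℝ) 1, W x ∈ Icc (0 : ℝ) 1) ∧
    (∀ x ∈ Icc (0 : ℝ) 1, ∀ y ∈ Icc (0 : ℝ) 1, |x - y| ≤ Q ^ 2 * |W x - W y|) ∧
    (∀ x ∈ Icc (0 : ℝ) 1, |W x - t| ≤ 2 / Q) ∧
    (∃ K : ENNReal, K ≠ ⊤ ∧ Measure.map W μ ≤ K • μ) := by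
  obtain ⟨k, hk⟩ := exists_nat_gt Q
  obtain ⟨a, b, c, d, hg, ⟨s, hs, hst⟩, hK, hcd, hor⟩ := h.words Q hQ ht k
  have hlt : Q < c + 2 * d := by
    rcases hor with h | h
    · exact h
    · linarith
  refine ⟨Mob a b c d, measurable_Mob _ _ _ _, ?_, fun x hx => hg.maps hx,
    fun x hx y hy => hg.lower hx hy hcd, ?_, hK⟩
  · unfold Mob
    apply ContinuousOn.div (by fun_prop) (by fun_prop)
    intro x hx
    have := hg.den hx; linarith
  · intro x hx
    rw [← hst]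
    refine (hg.upper hx hs).trans ?_
    rw [div_le_div_iff₀ (by linarith [hg.hc, hg.hd]) (by linarith)]
    linarith [hg.hc]

/-- nearest point in the image -/
lemma nearest {W : ℝ → ℝ} (hW : ContinuousOn W (Icc 0 1)) (z : ℝ) :
    ∃ w ∈ Icc (0 : ℝ) 1, ∀ x ∈ Icc (0 : ℝ) 1, |W x - W w| ≤ |W x - z| := by
  have hne : (Icc (0 : ℝ) 1).Nonempty := ⟨0, by norm_num⟩
  by_cases hz : z ∈ W '' Icc (0 : ℝ) 1
  · obtain ⟨w, hw, rfl⟩ := hz
    exact ⟨w, hw, fun x _ => le_rfl⟩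
  · have hpc : IsPreconnected (W '' Icc (0 : ℝ) 1) := isPreconnected_Icc.image W hW
    have hoc := hpc.ordConnected
    obtain ⟨m, hm, hmin⟩ := isCompact_Icc.exists_isMinOn hne hW
    obtain ⟨M, hM, hmax⟩ := isCompact_Icc.exists_isMaxOn hne hW
    rcases lt_or_ge z (W m) with h | h
    · refine ⟨m, hm, fun x hx => ?_⟩
      have := hmin hx
      simp only [Set.mem_ofPred_eq] at this
      rw [abs_of_nonneg (by linarith), abs_of_nonneg (by linarith)]; linarith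
    · rcases lt_or_ge (W M) z with h' | h'
      · refine ⟨M, hM, fun x hx => ?_⟩
        have := hmax hx
        simp only [Set.mem_ofPred_eq] at this
        rw [abs_of_nonpos (by linarith), abs_of_nonpos (by linarith)]; linarith
      · exact absurd (hoc.out (mem_image_of_mem _ hm) (mem_image_of_mem _ hM) ⟨h, h'⟩) hz

lemma IsMinkowski.word_pot (h : IsMinkowski μ) {δ : ℝ} (hδ : 0 < δ) (hδ1 : δ ≤ 1) {Q : ℝ}
    (hQ : 2 ≤ Q) {W : ℝ → ℝ} (hWm : Measurable W) (hWc : ContinuousOn W (Icc 0 1))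
    (hW1 : ∀ x ∈ Icc (0 : ℝ) 1, W x ∈ Icc (0 : ℝ) 1)
    (hW2 : ∀ x ∈ Icc (0 : ℝ) 1, ∀ y ∈ Icc (0 : ℝ) 1, |x - y| ≤ Q ^ 2 * |W x - W y|)
    {z : ℝ} (hz : z ∈ Icc (0 : ℝ) 1) :
    - ∫ x, L δ (W x - z) ∂μ ≤ 6 * Real.log 2 + 2 * Real.log Q := by
  obtain ⟨w, hw, hn⟩ := nearest hWc z
  have h1 := h.int_comp hδ hδ1 hWm hW1 hz hw (c := Q ^ 2) (by nlinarith) (by
    intro x hx
    exact (hW2 x hx w hw).trans (mul_le_mul_of_nonneg_left (hn x hx) (by positivity)))
  have h2 := h.U_le hδ hδ1 hw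
  rw [Real.log_pow] at h1
  push_cast at h1
  linarith

end X92.BF
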