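import Mathlib
open MeasureTheory Set Filter Topology Real

namespace X92.BF

/-- Chebyshev nodes of `[0,1]` -/
noncomputable def nd (N k : ℕ) : ℝ := (1 + cos ((2 * k + 1) * π / (2 * N))) / 2

lemma nd_mem (N k : ℕ) : nd N k ∈ Icc (0 : ℝ) 1 := by
  unfold nd
  have h1 := neg_one_le_cos ((2 * k + 1) * π / (2 * N))
  have h2 := cos_le_one ((2 * k + 1) * π / (2 * N))
  exact ⟨by linarith, by linarith⟩

lemma cheb_injOn (N : ℕ) : Set.InjOn (fun k : ℕ ↦ cos ((2 * k + 1) * π / (2 * N)))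
    (Finset.range N : Set ℕ) :=
  (Finset.range N).nodup_map_iff_injOn.mp (Polynomial.Chebyshev.roots_T_real_nodup N)

lemma cheb_prod {N : ℕ} (x : ℝ) :
    2 ^ (N - 1) * ∏ k ∈ Finset.range N, (x - cos ((2 * k + 1) * π / (2 * N)))
      = (Polynomial.Chebyshev.T ℝ N).eval x := by
  have hcard : (Polynomial.Chebyshev.T ℝ N).roots.card
      = (Polynomial.Chebyshev.T ℝ N).natDegree := by
    rw [Polynomial.Chebyshev.roots_T_real, Polynomial.Chebyshev.natDegree_T]
    have : ((Finset.range N).image (fun (k : ℕ) => cos ((2 * k + 1) * π / (2 * N)))).card = N := by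
      rw [Finset.card_image_of_injOn (cheb_injOn N), Finset.card_range]
    rw [Finset.card_val, this]; simp
  have h := Polynomial.C_leadingCoeff_mul_prod_multiset_X_sub_C hcard
  rw [Polynomial.Chebyshev.roots_T_real, Polynomial.Chebyshev.leadingCoeff_T] at h
  conv_rhs => rw [← h]
  rw [Polynomial.eval_mul, Polynomial.eval_C]
  congr 1
  change _ = Polynomial.eval x (∏ a ∈ (Finset.range N).image
    (fun (k : ℕ) => cos ((2 * k + 1) * π / (2 * N))), (Polynomial.X - Polynomial.C a))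
  rw [Finset.prod_image (cheb_injOn N), Polynomial.eval_prod]
  simp

lemma nodes_prod {N : ℕ} (hN : N ≠ 0) (z : ℝ) :
    ∏ k ∈ Finset.range N, (z - nd N k) =
      2 * (Polynomial.Chebyshev.T ℝ N).eval (2 * z - 1) / 4 ^ N := by
  rw [← cheb_prod]
  have e : ∀ k : ℕ, 2 * z - 1 - cos ((2 * (k : ℝ) + 1) * π / (2 * N)) = 2 * (z - nd N k) := by
    intro k; unfold nd; ring
  simp_rw [e]
  rw [Finset.prod_mul_distrib]
  simp only [Finset.prod_const, Finset.card_range]
  obtain ⟨M, rfl⟩ := Nat.exists_eq_succ_of_ne_zero hN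
  simp only [Nat.succ_eq_add_one, Nat.add_sub_cancel]
  have h4 : (4 : ℝ) ^ (M + 1) = 2 ^ (M + 1) * 2 ^ (M + 1) := by
    rw [← mul_pow]; norm_num
  rw [h4, pow_succ (2 : ℝ) M]
  field_simp

lemma abs_sin_ge {u : ℝ} (hu : |u| ≤ π / 2) : 2 / π * |u| ≤ |sin u| := by
  rcases le_total 0 u with h | h
  · rw [abs_of_nonneg h] at hu ⊢
    exact (mul_le_sin h hu).trans (le_abs_self _)
  · rw [abs_of_nonpos h] at hu ⊢
    have := mul_le_sin (neg_nonneg.2 h) hu
    rw [sin_neg] at this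
    exact this.trans (neg_le_abs _)

lemma abs_cos_sub_cos_le (a b : ℝ) : |cos a - cos b| ≤ |a - b| := by
  rw [cos_sub_cos, abs_mul, abs_mul, abs_neg]
  have h1 : |sin ((a + b) / 2)| ≤ 1 := abs_sin_le_one _
  have h2 : |sin ((a - b) / 2)| ≤ |(a - b) / 2| := abs_sin_le_abs
  rw [abs_div, abs_of_pos (by norm_num : (0:ℝ) < 2)] at *
  calc 2 * |sin ((a + b) / 2)| * |sin ((a - b) / 2)| ≤ 2 * 1 * (|a - b| / 2) := by gcongr
    _ = _ := by ring

/-- for `z` in `[0,1]` which is not a node: there is a node `k0` such that the others are far and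
their product is large -/
lemma cheb_est {N : ℕ} (hN : 1 ≤ N) {z : ℝ} (hz : z ∈ Icc (0 : ℝ) 1)
    (hne : ∀ k < N, z ≠ nd N k) : ∃ k0 < N,
    (∀ k < N, k ≠ k0 → 1 / (4 * (N : ℝ) ^ 2) ≤ |z - nd N k|) ∧
    1 / 4 ^ N ≤ ∏ k ∈ (Finset.range N).erase k0, |z - nd N k| := by
  have hN0 : (0 : ℝ) < N := by exact_mod_cast hN
  have hN1 : (1 : ℝ) ≤ N := by exact_mod_cast hN
  set θ := arccos (2 * z - 1) with hθ
  have hθ0 : 0 ≤ θ := arccos_nonneg _
  have hθπ : θ ≤ π := arccos_le_pi _
  have hcos : cos θ = 2 * z - 1 := cos_arccos (by linarith [hz.1]) (by linarith [hz.2])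
  -- the index
  obtain ⟨k0, hk0, hclose⟩ : ∃ k0 < N, |θ - (2 * k0 + 1) * π / (2 * N)| ≤ π / (2 * N) := by
    have hπ := pi_pos
    set m := ⌊N * θ / π⌋₊ with hm
    have hm1 : (m : ℝ) ≤ N * θ / π := Nat.floor_le (by positivity)
    have hm2 : N * θ / π < m + 1 := Nat.lt_floor_add_one _
    rw [le_div_iff₀ hπ] at hm1
    rw [div_lt_iff₀ hπ] at hm2
    by_cases hmN : m < N
    · refine ⟨m, hmN, ?_⟩
      rw [abs_le]
      have e : (2 * (m : ℝ) + 1) * π / (2 * N) = m * π / N + π / (2 * N) := by field_simp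
      have e1 : (m : ℝ) * π / N ≤ θ := by rw [div_le_iff₀ hN0]; linarith
      have e2 : θ ≤ m * π / N + 2 * (π / (2 * N)) := by
        have : m * π / N + 2 * (π / (2 * N)) = (m + 1) * π / N := by field_simp
        rw [this, le_div_iff₀ hN0]; linarith
      rw [e]; constructor <;> linarith
    · refine ⟨N - 1, by omega, ?_⟩
      have hmN' : (N : ℝ) ≤ m := by exact_mod_cast not_lt.1 hmN
      have hθe : θ = π := by
        apply le_antisymm hθπ
        have : (N : ℝ) * π ≤ N * θ := (mul_le_mul_of_nonneg_right hmN' hπ.le).trans hm1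
        exact le_of_mul_le_mul_left this hN0
      rw [hθe]
      have e : π - (2 * ((N - 1 : ℕ) : ℝ) + 1) * π / (2 * N) = π / (2 * N) := by
        rw [Nat.cast_sub hN]; push_cast; field_simp; ring
      rw [e, abs_of_pos (by positivity)]
  refine ⟨k0, hk0, ?_, ?_⟩
  · intro k hk hkk
    have hπ := pi_pos
    set φ := (2 * (k : ℝ) + 1) * π / (2 * N) with hφ
    have hkN : (k : ℝ) + 1 ≤ N := by exact_mod_cast hk
    have hφ0 : π / (2 * N) ≤ φ := by
      rw [hφ]; gcongr; nlinarith [(Nat.cast_nonneg k : (0:ℝ) ≤ k)]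
    have hφ1 : φ ≤ π - π / (2 * N) := by
      have : π - π / (2 * N) = (2 * N - 1) * π / (2 * N) := by field_simp
      rw [this, hφ]; gcongr; linarith
    have hfar : π / (2 * N) ≤ |θ - φ| := by
      have e1 : π / N ≤ |φ - (2 * k0 + 1) * π / (2 * N)| := by
        have : φ - (2 * k0 + 1) * π / (2 * N) = ((k : ℝ) - k0) * (π / N) := by
          rw [hφ]; field_simp; ring
        rw [this, abs_mul, abs_of_pos (by positivity : 0 < π / N)]
        have : (1 : ℝ) ≤ |(k : ℝ) - k0| := by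
          have h1 : ((k : ℤ) - k0) ≠ 0 := by omega
          have h2 := Int.one_le_abs h1
          have h3 : ((|(k : ℤ) - k0| : ℤ) : ℝ) = |(k : ℝ) - k0| := by push_cast; rfl
          rw [← h3]; exact_mod_cast h2
        nlinarith [(by positivity : 0 < π / (N : ℝ))]
      have e2 : |φ - (2 * k0 + 1) * π / (2 * N)| ≤ |θ - φ| + |θ - (2 * k0 + 1) * π / (2 * N)| := by
        rw [abs_sub_comm θ φ]
        exact abs_sub_le _ _ _
      have e3 : π / N = 2 * (π / (2 * N)) := by field_simp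
      linarith
    have hz' : z - nd N k = (cos θ - cos φ) / 2 := by rw [hcos]; unfold nd; rw [← hφ]; ring
    rw [hz', abs_div, abs_of_pos (by norm_num : (0:ℝ) < 2), cos_sub_cos, abs_mul, abs_mul, abs_neg,
      abs_of_pos (by norm_num : (0:ℝ) < 2)]
    have hh : |θ - φ| ≤ π := by
      rw [abs_le]; constructor <;> nlinarith [(by positivity : 0 < π / (2 * (N:ℝ)))]
    have s2 : 1 / (2 * (N : ℝ)) ≤ |sin ((θ - φ) / 2)| := by
      have h1 : |(θ - φ) / 2| ≤ π / 2 := by
        rw [abs_div, abs_of_pos (by norm_num : (0:ℝ) < 2)]; linarith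
      refine le_trans ?_ (abs_sin_ge h1)
      rw [abs_div, abs_of_pos (by norm_num : (0:ℝ) < 2)]
      calc 1 / (2 * (N : ℝ)) = 2 / π * (π / (2 * N) / 2) := by field_simp
        _ ≤ 2 / π * (|θ - φ| / 2) := by gcongr
    have s1 : 1 / (2 * (N : ℝ)) ≤ |sin ((θ + φ) / 2)| := by
      have hp : 0 < π / (2 * (N:ℝ)) := by positivity
      rcases le_total ((θ + φ) / 2) (π / 2) with h | h
      · have h0 : 0 ≤ (θ + φ) / 2 := by linarith
        refine le_trans ?_ ((mul_le_sin h0 h).trans (le_abs_self _))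
        calc 1 / (2 * (N : ℝ)) = 2 / π * (π / (2 * N) / 2) := by field_simp
          _ ≤ 2 / π * ((θ + φ) / 2) := by gcongr; linarith
      · have h0 : 0 ≤ π - (θ + φ) / 2 := by linarith
        have h1 : π - (θ + φ) / 2 ≤ π / 2 := by linarith
        have h2 := mul_le_sin h0 h1
        rw [sin_pi_sub] at h2
        refine le_trans ?_ (h2.trans (le_abs_self _))
        calc 1 / (2 * (N : ℝ)) = 2 / π * (π / (2 * N) / 2) := by field_simp
          _ ≤ 2 / π * (π - (θ + φ) / 2) := by gcongr; linarith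
    calc 1 / (4 * (N : ℝ) ^ 2) = 1 / (2 * (N : ℝ)) * (1 / (2 * (N : ℝ))) := by field_simp; norm_num
      _ ≤ |sin ((θ + φ) / 2)| * |sin ((θ - φ) / 2)| := by gcongr
      _ = _ := by ring
  · have hπ := pi_pos
    have hprod := nodes_prod (N := N) (by omega) z
    have hT : (Polynomial.Chebyshev.T ℝ N).eval (2 * z - 1) = cos (N * θ) := by
      rw [← hcos, Polynomial.Chebyshev.T_real_cos]; push_cast; rfl
    rw [hT] at hprod
    have habs : (∏ k ∈ (Finset.range N).erase k0, |z - nd N k|) * |z - nd N k0|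
        = 2 * |cos (N * θ)| / 4 ^ N := by
      rw [Finset.prod_erase_mul _ _ (Finset.mem_range.2 hk0), ← Finset.abs_prod, hprod,
        abs_div, abs_mul, abs_of_pos (by norm_num : (0:ℝ) < 2),
        abs_of_pos (by positivity : (0:ℝ) < 4 ^ N)]
    have hpos : 0 < |z - nd N k0| := abs_pos.2 (sub_ne_zero.2 (hne k0 hk0))
    set φ := (2 * (k0 : ℝ) + 1) * π / (2 * N) with hφ
    have hcosN : |cos (N * θ)| = |sin (N * (θ - φ))| := by
      have e : N * θ = N * (θ - φ) + (2 * (k0 : ℝ) + 1) * π / 2 := by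
        rw [hφ]; field_simp; ring
      rw [e, cos_add]
      have h1 : cos ((2 * (k0 : ℝ) + 1) * π / 2) = 0 := by
        rw [cos_eq_zero_iff]; exact ⟨k0, by push_cast; ring⟩
      have h2 : |sin ((2 * (k0 : ℝ) + 1) * π / 2)| = 1 := by
        have := sin_sq_add_cos_sq ((2 * (k0 : ℝ) + 1) * π / 2)
        rw [h1] at this
        have h3 : |sin ((2 * (k0 : ℝ) + 1) * π / 2)| ^ 2 = 1 := by rw [sq_abs]; linarith
        exact (pow_eq_one_iff_of_nonneg (abs_nonneg _) (by norm_num)).1 h3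
      rw [h1, mul_zero, zero_sub, abs_neg, abs_mul, h2, mul_one]
    have hsin : 2 / π * |N * (θ - φ)| ≤ |sin (N * (θ - φ))| := by
      apply abs_sin_ge
      rw [abs_mul, abs_of_pos hN0]
      calc N * |θ - φ| ≤ N * (π / (2 * N)) := by gcongr
        _ = π / 2 := by field_simp
    have hzk : |z - nd N k0| ≤ |θ - φ| / 2 := by
      have : z - nd N k0 = (cos θ - cos φ) / 2 := by rw [hcos]; unfold nd; rw [← hφ]; ring
      rw [this, abs_div, abs_of_pos (by norm_num : (0:ℝ) < 2)]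
      exact div_le_div_of_nonneg_right (abs_cos_sub_cos_le _ _) (by norm_num)
    have hkey : |z - nd N k0| ≤ |cos (N * θ)| := by
      rw [hcosN]
      refine le_trans ?_ hsin
      rw [abs_mul, abs_of_pos hN0]
      have h4 : 1 / 2 ≤ 2 / π * N := by
        have : 1 / 2 ≤ 2 / π := by
          rw [div_le_div_iff₀ (by norm_num) hπ]; linarith [pi_le_four]
        nlinarith [(by positivity : 0 < 2 / π)]
      calc |z - nd N k0| ≤ |θ - φ| * (1 / 2) := by linarith
        _ ≤ |θ - φ| * (2 / π * N) := by gcongr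
        _ = _ := by ring
    by_contra hcon
    push Not at hcon
    have : (∏ k ∈ (Finset.range N).erase k0, |z - nd N k|) * |z - nd N k0|
        < 1 / 4 ^ N * |z - nd N k0| := mul_lt_mul_of_pos_right hcon hpos
    rw [habs] at this
    have h5 : 1 / 4 ^ N * |z - nd N k0| ≤ 2 * |cos (N * θ)| / 4 ^ N := by
      rw [div_mul_eq_mul_div, one_mul]
      gcongr
      linarith [abs_nonneg (cos (N * θ))]
    linarith

/-- the monic Chebyshev polynomial of `[0,1]` is small -/
lemma nodes_prod_le {N : ℕ} (hN : N ≠ 0) {z : ℝ} (hz : z ∈ Icc (0 : ℝ) 1) :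
    |∏ k ∈ Finset.range N, (z - nd N k)| ≤ 2 / 4 ^ N := by
  rw [nodes_prod hN, abs_div, abs_mul, abs_of_pos (by norm_num : (0:ℝ) < 2),
    abs_of_pos (by positivity : (0:ℝ) < 4 ^ N)]
  gcongr
  have := Polynomial.Chebyshev.abs_eval_T_real_le_one (N : ℤ) (x := 2 * z - 1)
    (by rw [abs_le]; exact ⟨by linarith [hz.1], by linarith [hz.2]⟩)
  linarith

end X92.BF
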