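import Pool.Agent.X92.BF4
import Pool.Agent.X92.BF5
open MeasureTheory Set Filter Topology

namespace X92.BF

variable {μ : Measure ℝ}

lemma exists_N {ε : ℝ} (hε : 0 < ε) : ∃ N : ℕ, 1 ≤ N ∧
    (1 + 6 * Real.log 2 + 2 * Real.log (16 * (N : ℝ) ^ 3)) / N ≤ ε := by
  have h1 : Tendsto (fun x : ℝ => Real.log x ^ 1 / (1 * x + 0)) atTop (𝓝 0) :=
    Real.tendsto_pow_log_div_mul_add_atTop 1 0 1 one_ne_zero
  have h2 : Tendsto (fun n : ℕ => Real.log (n : ℝ) / n) atTop (𝓝 0) := by
    simpa [Function.comp_def] using h1.comp tendsto_natCast_atTop_atTop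
  have h3 : Tendsto (fun n : ℕ => (1 + 6 * Real.log 2 + 2 * Real.log 16) / (n : ℝ)
      + 6 * (Real.log (n : ℝ) / n)) atTop (𝓝 (0 + 6 * 0)) :=
    (tendsto_const_div_atTop_nhds_zero_nat _).add (h2.const_mul 6)
  rw [mul_zero, add_zero] at h3
  obtain ⟨N, hN, hN1⟩ := ((h3.eventually (gt_mem_nhds hε)).and (eventually_ge_atTop 1)).exists
  refine ⟨N, hN1, le_trans (le_of_eq ?_) hN.le⟩
  have hN0 : (0 : ℝ) < N := by exact_mod_cast hN1
  rw [Real.log_mul (by norm_num) (by positivity), Real.log_pow]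
  push_cast
  field_simp
  ring

lemma neg_log_one_sub {N : ℝ} (hN : 1 ≤ N) : - Real.log (1 - 1 / (2 * N)) ≤ 1 / N := by
  have hN0 : 0 < N := by linarith
  have h0 : 1 / (2 * N) ≤ 1 / 2 := by
    apply one_div_le_one_div_of_le (by norm_num); linarith
  have h1 : 0 < 1 - 1 / (2 * N) := by linarith
  have h2 := Real.one_sub_inv_le_log_of_pos h1
  have h3 : (1 - 1 / (2 * N))⁻¹ - 1 ≤ 1 / N := by
    rw [inv_eq_one_div, sub_le_iff_le_add, div_le_iff₀ h1]
    have e : (1 / N + 1) * (1 - 1 / (2 * N)) = 1 + (1 / (2 * N)) * (1 - 1 / N) := by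
      field_simp; ring
    rw [e]
    have : 0 ≤ 1 - 1 / N := by
      rw [sub_nonneg, div_le_one hN0]; exact hN
    nlinarith [(by positivity : 0 < 1 / (2 * N))]
  linarith

/-- measures with bounded density and small potentials -/
lemma IsMinkowski.exists_rho (h : IsMinkowski μ) {ε : ℝ} (hε : 0 < ε) :
    ∃ ρ : Measure ℝ, IsProbabilityMeasure ρ ∧ ρ (Icc 0 1)ᶜ = 0 ∧
      (∃ K : ENNReal, K ≠ ⊤ ∧ ρ ≤ K • μ) ∧
      ∀ δ : ℝ, 0 < δ → δ ≤ 1 → ∀ z ∈ Icc (0 : ℝ) 1, U δ ρ z ≤ Real.log 4 + ε := by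
  have hp := h.prob
  obtain ⟨N, hN1, hNε⟩ := exists_N hε
  have hN0 : (0 : ℝ) < N := by exact_mod_cast hN1
  have hN1' : (1 : ℝ) ≤ N := by exact_mod_cast hN1
  set Q : ℝ := 16 * (N : ℝ) ^ 3 with hQdef
  have hN3 : (1 : ℝ) ≤ (N : ℝ) ^ 3 := one_le_pow₀ hN1'
  have hQ : 2 ≤ Q := by rw [hQdef]; linarith
  choose W hWm hWc hW1 hW2 hW3 hW4 using fun k : ℕ => h.exists_word Q hQ (nd_mem N k)
  choose K hK hKm using hW4
  set ρ : Measure ℝ := (N : ENNReal)⁻¹ • ∑ k ∈ Finset.range N, Measure.map (W k) μ with hρ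
  have hNE : (N : ENNReal) ≠ 0 := by simp; omega
  have hprob : IsProbabilityMeasure ρ := by
    constructor
    rw [hρ, Measure.smul_apply, Measure.finsetSum_apply]
    have : ∀ k ∈ Finset.range N, Measure.map (W k) μ univ = 1 := by
      intro k _
      rw [Measure.map_apply (hWm k) MeasurableSet.univ, preimage_univ, measure_univ]
    rw [Finset.sum_congr rfl this]
    simp [ENNReal.inv_mul_cancel hNE (ENNReal.natCast_ne_top N)]
  have hsupp : ρ (Icc 0 1)ᶜ = 0 := by
    rw [hρ, Measure.smul_apply, Measure.finsetSum_apply]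
    have : ∀ k ∈ Finset.range N, Measure.map (W k) μ (Icc 0 1)ᶜ = 0 := by
      intro k _
      rw [Measure.map_apply (hWm k) measurableSet_Icc.compl]
      refine measure_mono_null ?_ h.supp
      intro x hx hx1
      exact hx (hW1 k x hx1)
    rw [Finset.sum_congr rfl this]
    simp
  have hint : ∀ f : ℝ → ℝ, Continuous f →
      ∫ x, f x ∂ρ = (1 / N) * ∑ k ∈ Finset.range N, ∫ x, f (W k x) ∂μ := by
    intro f hf
    obtain ⟨B, hB⟩ := isCompact_Icc.exists_bound_of_continuousOn (s := Icc (0 : ℝ) 1)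
      hf.continuousOn
    rw [hρ, integral_smul_measure, integral_finsetSum_measure]
    · simp only [ENNReal.toReal_inv, ENNReal.toReal_natCast, smul_eq_mul, one_div]
      congr 1
      apply Finset.sum_congr rfl
      intro k _
      rw [integral_map (hWm k).aemeasurable hf.aestronglyMeasurable]
    · intro k _
      rw [integrable_map_measure hf.aestronglyMeasurable (hWm k).aemeasurable]
      exact h.integrable_of (hf.measurable.comp (hWm k)) (fun x hx => hB _ (hW1 k x hx))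
  refine ⟨ρ, hprob, hsupp, ⟨(N : ENNReal)⁻¹ * ∑ k ∈ Finset.range N, K k, ?_, ?_⟩, ?_⟩
  · exact ENNReal.mul_ne_top (by simp [hNE]) (ENNReal.sum_ne_top.2 fun k _ => hK k)
  · rw [hρ, ← smul_smul]
    have e : ∑ k ∈ Finset.range N, Measure.map (W k) μ ≤ (∑ k ∈ Finset.range N, K k) • μ := by
      rw [Finset.sum_smul]
      exact Finset.sum_le_sum fun k _ => hKm k
    intro S
    rw [Measure.smul_apply, Measure.smul_apply]
    gcongr
  intro δ hδ hδ1
  -- first away from the nodes
  have hmain : ∀ z ∈ Icc (0 : ℝ) 1, (∀ k < N, z ≠ nd N k) → U δ ρ z ≤ Real.log 4 + ε := by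
    intro z hz hne
    obtain ⟨k0, hk0, hfar, hprod⟩ := cheb_est hN1 hz hne
    unfold U
    rw [hint (fun x => L δ (x - z)) ((L_cont hδ).comp (by fun_prop))]
    have hb0 : - ∫ x, L δ (W k0 x - z) ∂μ ≤ 6 * Real.log 2 + 2 * Real.log Q :=
      h.word_pot hδ hδ1 hQ (hWm k0) (hWc k0) (hW1 k0) (hW2 k0) hz
    have hbk : ∀ k ∈ (Finset.range N).erase k0,
        - ∫ x, L δ (W k x - z) ∂μ ≤ - Real.log |z - nd N k| + 1 / N := by
      intro k hk
      rw [Finset.mem_erase, Finset.mem_range] at hk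
      have hfk := hfar k hk.2 hk.1
      have hzpos : 0 < |z - nd N k| := lt_of_lt_of_le (by positivity) hfk
      have hfac : 0 < 1 - 1 / (2 * (N : ℝ)) := by
        have : 1 / (2 * (N : ℝ)) ≤ 1 / 2 := by
          apply one_div_le_one_div_of_le (by norm_num); linarith
        linarith
      have e1 := h.int_const_le hδ hδ1 (hWm k) (hW1 k) hz
        (c := |z - nd N k| * (1 - 1 / (2 * (N : ℝ)))) (by positivity) (by
          intro x hx
          have h3 := hW3 k x hx
          have h4 : 2 / Q ≤ |z - nd N k| * (1 / (2 * (N : ℝ))) := by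
            have : 2 / Q = 1 / (4 * (N : ℝ) ^ 2) * (1 / (2 * (N : ℝ))) := by
              rw [hQdef]; field_simp; norm_num
            rw [this]; gcongr
          have h5 : |z - nd N k| ≤ |W k x - z| + |W k x - nd N k| := by
            rw [abs_sub_comm (W k x) z]; exact abs_sub_le _ _ _
          linarith)
      rw [Real.log_mul hzpos.ne' hfac.ne'] at e1
      have := neg_log_one_sub hN1'
      linarith
    have hsum : ∑ k ∈ Finset.range N, (- ∫ x, L δ (W k x - z) ∂μ)
        ≤ N * Real.log 4 + 1 + (6 * Real.log 2 + 2 * Real.log Q) := by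
      rw [← Finset.sum_erase_add _ _ (Finset.mem_range.2 hk0)]
      have h1 : ∑ k ∈ (Finset.range N).erase k0, (- ∫ x, L δ (W k x - z) ∂μ)
          ≤ N * Real.log 4 + 1 := by
        refine (Finset.sum_le_sum hbk).trans ?_
        rw [Finset.sum_add_distrib, Finset.sum_neg_distrib, Finset.sum_const,
          Finset.card_erase_of_mem (Finset.mem_range.2 hk0), Finset.card_range]
        have hlog : ∑ k ∈ (Finset.range N).erase k0, Real.log |z - nd N k|
            = Real.log (∏ k ∈ (Finset.range N).erase k0, |z - nd N k|) := by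
          rw [Real.log_prod]
          intro k hk
          rw [Finset.mem_erase, Finset.mem_range] at hk
          exact (abs_pos.2 (sub_ne_zero.2 (hne k hk.2))).ne'
        rw [hlog]
        have h2 : Real.log (1 / 4 ^ N) ≤
            Real.log (∏ k ∈ (Finset.range N).erase k0, |z - nd N k|) :=
          Real.log_le_log (by positivity) hprod
        rw [one_div, Real.log_inv, Real.log_pow] at h2
        have h3 : ((N - 1 : ℕ) : ℝ) * (1 / N) ≤ 1 := by
          rw [mul_one_div, div_le_one hN0]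
          exact_mod_cast Nat.sub_le N 1
        rw [nsmul_eq_mul]
        linarith
      linarith
    rw [Finset.sum_neg_distrib] at hsum
    have hfin : - ((1 / (N : ℝ)) * ∑ k ∈ Finset.range N, ∫ x, L δ (W k x - z) ∂μ)
        = (1 / (N : ℝ)) * (- ∑ k ∈ Finset.range N, ∫ x, L δ (W k x - z) ∂μ) := by ring
    rw [hfin]
    calc (1 / (N : ℝ)) * (- ∑ k ∈ Finset.range N, ∫ x, L δ (W k x - z) ∂μ)
        ≤ (1 / (N : ℝ)) * (N * Real.log 4 + 1 + (6 * Real.log 2 + 2 * Real.log Q)) := by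
          gcongr
      _ = Real.log 4 + (1 + 6 * Real.log 2 + 2 * Real.log Q) / N := by field_simp; ring
      _ ≤ _ := by linarith
  -- continuity
  have hρae : ∀ᵐ x ∂ρ, x ∈ Icc (0 : ℝ) 1 := by rw [ae_iff]; exact hsupp
  have hcont : ContinuousOn (fun z => U δ ρ z) (Icc 0 1) := by
    unfold U
    apply ContinuousOn.neg
    apply continuousOn_of_dominated (bound := fun _ => - Real.log δ)
    · intro z _
      exact ((L_cont hδ).comp (by fun_prop)).aestronglyMeasurable
    · intro z hz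
      filter_upwards [hρae] with x hx
      exact abs_L_le hδ hδ1 (abs_sub_le_one hx hz)
    · exact integrable_const _
    · exact Eventually.of_forall fun x => ((L_cont hδ).comp (by fun_prop)).continuousOn
  have hcl : IsClosed (Icc (0 : ℝ) 1 ∩ (fun z => U δ ρ z) ⁻¹' (Iic (Real.log 4 + ε))) :=
    hcont.preimage_isClosed_of_isClosed isClosed_Icc isClosed_Iic
  set F : Set ℝ := (nd N) '' (Set.Iio N) with hF
  have hFfin : F.Finite := (Set.finite_Iio N).image _
  have hdense : Dense Fᶜ := hFfin.countable.dense_compl ℝ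
  have hsub : Ioo (0 : ℝ) 1 ∩ Fᶜ ⊆
      Icc (0 : ℝ) 1 ∩ (fun z => U δ ρ z) ⁻¹' (Iic (Real.log 4 + ε)) := by
    rintro z ⟨hz, hzF⟩
    refine ⟨Ioo_subset_Icc_self hz, hmain z (Ioo_subset_Icc_self hz) ?_⟩
    intro k hk he
    exact hzF ⟨k, hk, he.symm⟩
  have h1 : Ioo (0 : ℝ) 1 ⊆ closure (Ioo (0 : ℝ) 1 ∩ Fᶜ) :=
    hdense.open_subset_closure_inter isOpen_Ioo
  intro z hz
  have h2 : z ∈ closure (Ioo (0 : ℝ) 1 ∩ Fᶜ) := by
    have h3 : Icc (0 : ℝ) 1 ⊆ closure (Ioo (0 : ℝ) 1) := by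
      rw [closure_Ioo (by norm_num)]
    exact (closure_minimal h1 isClosed_closure) (h3 hz)
  exact (closure_minimal hsub hcl h2).2

end X92.BF
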