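import Pool.Agent.X92.BF6
open MeasureTheory Set Filter Topology Polynomial

namespace X92.BF

variable {μ : Measure ℝ}

lemma exists_roots {P : ℝ[X]} (hP : P.Monic) : ∃ (m : ℕ) (c : Fin m → ℂ), m = P.natDegree ∧
    ∀ x : ℝ, |P.eval x| = ∏ i, ‖(x : ℂ) - c i‖ := by
  set R : ℂ[X] := P.map (algebraMap ℝ ℂ) with hR
  have hRm : R.Monic := hP.map _
  have hs : R.Splits := IsAlgClosed.splits R
  have hcard : R.roots.card = P.natDegree := by
    rw [← hs.natDegree_eq_card_roots, hR, natDegree_map]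
  refine ⟨R.roots.toList.length, fun i => R.roots.toList[i], ?_, ?_⟩
  · rw [Multiset.length_toList, hcard]
  · intro x
    have h1 : ((P.eval x : ℝ) : ℂ) = (R.roots.map (fun a => (x : ℂ) - a)).prod := by
      rw [← hs.eval_eq_prod_roots_of_monic hRm, hR, eval_map_algebraMap]
      exact (ofReal_eval P x)
    have h2 : (R.roots.map (fun a => (x : ℂ) - a)).prod
        = ∏ i : Fin R.roots.toList.length, ((x : ℂ) - R.roots.toList[i]) := by
      refine Eq.trans ?_ (Fin.prod_univ_fun_getElem R.roots.toList (fun a => (x : ℂ) - a)).symm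
      rw [← Multiset.prod_coe, ← Multiset.map_coe, Multiset.coe_toList]
    have h3 : |P.eval x| = ‖((P.eval x : ℝ) : ℂ)‖ := by
      rw [Complex.norm_real, Real.norm_eq_abs]
    rw [h3, h1, h2, norm_prod]

lemma clamp_le {x r : ℝ} (hx : x ∈ Icc (0 : ℝ) 1) : |x - max 0 (min r 1)| ≤ |x - r| := by
  rcases le_total r 0 with h | h
  · rw [min_eq_left (by linarith), max_eq_left h, sub_zero, abs_of_nonneg hx.1,
      abs_of_nonneg (by linarith [hx.1])]; linarith
  · rcases le_total r 1 with h' | h'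
    · rw [min_eq_left h', max_eq_right h]
    · rw [min_eq_right h', max_eq_right (by norm_num), abs_of_nonpos (by linarith [hx.2]),
        abs_of_nonpos (by linarith [hx.2])]; linarith

lemma exp_L {δ t : ℝ} (hδ : 0 < δ) : Real.exp (L δ t) = max |t| δ := by
  unfold L; exact Real.exp_log (lt_max_of_lt_right hδ)

lemma poly_lower {ρ : Measure ℝ} [IsProbabilityMeasure ρ] (hs : ρ (Icc 0 1)ᶜ = 0) {M : ℝ}
    (hU : ∀ δ : ℝ, 0 < δ → δ ≤ 1 → ∀ z ∈ Icc (0 : ℝ) 1, U δ ρ z ≤ M)
    {P : ℝ[X]} (hP : P.Monic) :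
    Real.exp (- (2 * P.natDegree * M)) ≤ ∫ x, (P.eval x) ^ 2 ∂ρ := by
  have hae : ∀ᵐ x ∂ρ, x ∈ Icc (0 : ℝ) 1 := by rw [ae_iff]; exact hs
  obtain ⟨m, c, hm, hc⟩ := exists_roots hP
  set e : Fin m → ℝ := fun i => max 0 (min (c i).re 1) with he
  have he01 : ∀ i, e i ∈ Icc (0 : ℝ) 1 := fun i => clamp_mem _
  have hint_of : ∀ f : ℝ → ℝ, Continuous f → Integrable f ρ := by
    intro f hf
    obtain ⟨B, hB⟩ := isCompact_Icc.exists_bound_of_continuousOn (s := Icc (0 : ℝ) 1)
      hf.continuousOn
    refine Integrable.of_bound hf.aestronglyMeasurable B ?_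
    filter_upwards [hae] with x hx
    exact hB x hx
  have hLc : ∀ δ : ℝ, 0 < δ → ∀ i, Continuous (fun x => L δ (x - e i)) :=
    fun δ hδ i => (L_cont hδ).comp (by fun_prop)
  -- Jensen
  have hJ : ∀ δ : ℝ, 0 < δ → δ ≤ 1 →
      Real.exp (- (2 * m * M)) ≤ ∫ x, (∏ i, (max |x - e i| δ) ^ 2) ∂ρ := by
    intro δ hδ hδ1
    have hfc : Continuous (fun x => ∑ i, 2 * L δ (x - e i)) :=
      continuous_finsetSum _ fun i _ => (hLc δ hδ i).const_mul 2
    have h1 := (convexOn_exp).map_integral_le (μ := ρ) (f := fun x => ∑ i, 2 * L δ (x - e i))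
      Real.continuous_exp.continuousOn isClosed_univ (by simp) (hint_of _ hfc)
      (hint_of _ (Real.continuous_exp.comp hfc))
    have h2 : ∀ x, Real.exp (∑ i, 2 * L δ (x - e i)) = ∏ i, (max |x - e i| δ) ^ 2 := by
      intro x
      rw [Real.exp_sum]
      apply Finset.prod_congr rfl
      intro i _
      rw [two_mul, Real.exp_add, exp_L hδ, sq]
    simp_rw [h2] at h1
    refine le_trans ?_ h1
    apply Real.exp_le_exp.2
    rw [integral_finsetSum _ fun i _ => (hint_of _ (hLc δ hδ i)).const_mul 2]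
    have h3 : ∀ i ∈ (Finset.univ : Finset (Fin m)), -(2 * M) ≤ ∫ x, 2 * L δ (x - e i) ∂ρ := by
      intro i _
      rw [integral_const_mul]
      have := hU δ hδ hδ1 (e i) (he01 i)
      unfold U at this
      linarith
    have h4 := Finset.sum_le_sum h3
    rw [Finset.sum_const, Finset.card_univ, Fintype.card_fin, nsmul_eq_mul] at h4
    linarith
  -- limit
  have hlim : Tendsto (fun n : ℕ => ∫ x, (∏ i, (max |x - e i| (1 / ((n : ℝ) + 1))) ^ 2) ∂ρ) atTop
      (𝓝 (∫ x, (∏ i, (max |x - e i| 0) ^ 2) ∂ρ)) := by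
    apply tendsto_integral_of_dominated_convergence (fun _ => (1 : ℝ))
    · intro n
      apply Continuous.aestronglyMeasurable
      fun_prop
    · exact integrable_const _
    · intro n
      filter_upwards [hae] with x hx
      rw [Real.norm_eq_abs, abs_of_nonneg (Finset.prod_nonneg fun i _ => by positivity)]
      apply Finset.prod_le_one
      · intro i _; positivity
      · intro i _
        apply pow_le_one₀ (le_max_of_le_left (abs_nonneg _))
        apply max_le (abs_sub_le_one hx (he01 i))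
        rw [div_le_one (by positivity)]
        linarith [(Nat.cast_nonneg n : (0 : ℝ) ≤ n)]
    · refine Eventually.of_forall fun x => ?_
      apply tendsto_finsetProd
      intro i _
      apply Tendsto.pow
      exact tendsto_const_nhds.max tendsto_one_div_add_atTop_nhds_zero_nat
  have h5 : Real.exp (- (2 * m * M)) ≤ ∫ x, (∏ i, (max |x - e i| 0) ^ 2) ∂ρ := by
    apply ge_of_tendsto' hlim
    intro n
    apply hJ
    · positivity
    · rw [div_le_one (by positivity)]
      linarith [(Nat.cast_nonneg n : (0 : ℝ) ≤ n)]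
  rw [← hm]
  refine h5.trans ?_
  apply integral_mono_ae
  · apply hint_of
    fun_prop
  · apply hint_of
    exact (P.continuous).pow 2
  · filter_upwards [hae] with x hx
    have h6 : (P.eval x) ^ 2 = ∏ i, ‖(x : ℂ) - c i‖ ^ 2 := by
      rw [← sq_abs, hc, Finset.prod_pow]
    rw [h6]
    apply Finset.prod_le_prod
    · intro i _; positivity
    · intro i _
      have h7 : |x - (c i).re| ≤ ‖(x : ℂ) - c i‖ := by
        have := Complex.abs_re_le_norm ((x : ℂ) - c i)
        simpa using this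
      rw [max_eq_left (abs_nonneg _)]
      exact pow_le_pow_left₀ (abs_nonneg _) ((clamp_le hx).trans h7) 2

end X92.BF
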