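import Pool.Agent.X92.BF7
open MeasureTheory Set Filter Topology Polynomial

namespace X92.BF

/-- `p` is the sequence of orthonormal polynomials of `μ`, with positive leading coefficients -/
structure IsOPS (μ : Measure ℝ) (p : ℕ → ℝ[X]) : Prop where
  deg : ∀ n, (p n).natDegree = n
  pos : ∀ n, 0 < (p n).leadingCoeff
  orth : ∀ m n, ∫ x, (p m).eval x * (p n).eval x ∂μ = if m = n then 1 else 0

/-- the three term recurrence `x p_n = a_{n+1} p_{n+1} + b_n p_n + a_n p_{n-1}`, with
`p_{-1} = 0` -/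
def IsRecurrence (p : ℕ → ℝ[X]) (a b : ℕ → ℝ) : Prop :=
  (X * p 0 = C (a 1) * p 1 + C (b 0) * p 0) ∧
  ∀ n, X * p (n + 1) = C (a (n + 2)) * p (n + 2) + C (b (n + 1)) * p (n + 1)
    + C (a (n + 1)) * p n

variable {μ : Measure ℝ} {p : ℕ → ℝ[X]} {a b : ℕ → ℝ}

lemma IsOPS.coeff_top (hp : IsOPS μ p) (n : ℕ) : (p n).coeff n = (p n).leadingCoeff := by
  rw [leadingCoeff, hp.deg]

lemma IsOPS.coeff_gt (hp : IsOPS μ p) {n k : ℕ} (h : n < k) : (p n).coeff k = 0 :=
  coeff_eq_zero_of_natDegree_lt (by rw [hp.deg]; exact h)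

lemma lc_rec (hp : IsOPS μ p) (hr : IsRecurrence p a b) (n : ℕ) :
    (p n).leadingCoeff = a (n + 1) * (p (n + 1)).leadingCoeff := by
  cases n with
  | zero =>
    have h := congrArg (fun q => q.coeff 1) hr.1
    simp only [coeff_add, coeff_C_mul] at h
    rw [show (1 : ℕ) = 0 + 1 from rfl, coeff_X_mul, hp.coeff_top 0] at h
    rw [zero_add] at h
    rw [hp.coeff_top 1, hp.coeff_gt (by norm_num : 0 < 1)] at h
    simpa using h
  | succ n =>
    have h := congrArg (fun q => q.coeff (n + 2)) (hr.2 n)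
    simp only [coeff_add, coeff_C_mul] at h
    rw [coeff_X_mul, hp.coeff_top (n + 1), hp.coeff_top (n + 2),
      hp.coeff_gt (by omega : n + 1 < n + 2), hp.coeff_gt (by omega : n < n + 2)] at h
    simpa using h

lemma lc_zero (hμ : IsProbabilityMeasure μ) (hp : IsOPS μ p) : (p 0).leadingCoeff = 1 := by
  have h0 : p 0 = C ((p 0).coeff 0) := eq_C_of_natDegree_eq_zero (hp.deg 0)
  have h1 := hp.orth 0 0
  rw [h0] at h1
  simp only [eval_C, integral_const, probReal_univ, smul_eq_mul, one_mul, if_true] at h1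
  have h2 := hp.pos 0
  rw [← hp.coeff_top 0] at h2 ⊢
  nlinarith

lemma prod_a (hμ : IsProbabilityMeasure μ) (hp : IsOPS μ p) (hr : IsRecurrence p a b) (n : ℕ) :
    ∏ k ∈ Finset.Icc 1 n, a k = ((p n).leadingCoeff)⁻¹ := by
  induction n with
  | zero => simp [lc_zero hμ hp]
  | succ n ih =>
    rw [Finset.prod_Icc_succ_top (by omega), ih, lc_rec hp hr n]
    have h1 := (hp.pos (n + 1)).ne'
    have h2 : a (n + 1) ≠ 0 := by
      intro h
      have := hp.pos n
      rw [lc_rec hp hr n, h, zero_mul] at this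
      exact lt_irrefl _ this
    field_simp

lemma IsMinkowski.int_poly (h : IsMinkowski μ) (P : ℝ[X]) : Integrable (fun x => P.eval x) μ := by
  obtain ⟨B, hB⟩ := isCompact_Icc.exists_bound_of_continuousOn (s := Icc (0 : ℝ) 1)
      P.continuous.continuousOn
  exact h.integrable_of P.continuous.measurable hB

lemma IsMinkowski.orth_low (h : IsMinkowski μ) (hp : IsOPS μ p) (n : ℕ) (m : ℕ) (hm : m ≤ n) :
    ∀ R : ℝ[X], (∀ k, m ≤ k → R.coeff k = 0) → ∫ x, (p n).eval x * R.eval x ∂μ = 0 := by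
  induction m with
  | zero =>
    intro R hR
    have : R = 0 := by ext k; simpa using hR k (Nat.zero_le _)
    simp [this]
  | succ m ih =>
    intro R hR
    set c := R.coeff m / (p m).coeff m with hc
    have hlc : (p m).coeff m ≠ 0 := by rw [hp.coeff_top]; exact (hp.pos m).ne'
    set R' := R - C c * p m with hR'
    have h1 : ∀ k, m ≤ k → R'.coeff k = 0 := by
      intro k hk
      rw [hR', coeff_sub, coeff_C_mul]
      rcases eq_or_lt_of_le hk with he | he
      · rw [← he, hc]; field_simp; ring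
      · rw [hR k he, hp.coeff_gt he]; simp
    have h2 := ih (by omega) R' h1
    have h3 : ∀ x, (p n).eval x * R.eval x
        = (p n).eval x * R'.eval x + c * ((p n).eval x * (p m).eval x) := by
      intro x; rw [hR']; simp only [eval_sub, eval_mul, eval_C]; ring
    simp_rw [h3]
    have i1 : Integrable (fun x => (p n).eval x * R'.eval x) μ := by
      have := h.int_poly (p n * R'); simpa using this
    have i2 : Integrable (fun x => (p n).eval x * (p m).eval x) μ := by
      have := h.int_poly (p n * p m); simpa using this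
    rw [integral_add i1 (i2.const_mul c), h2, integral_const_mul, hp.orth]
    rw [if_neg (by omega)]; simp

/-- extremality -/
lemma IsMinkowski.extremal (h : IsMinkowski μ) (hp : IsOPS μ p) {n : ℕ} {T : ℝ[X]}
    (hT : T.Monic) (hTn : T.natDegree = n) :
    (((p n).leadingCoeff)⁻¹) ^ 2 ≤ ∫ x, (T.eval x) ^ 2 ∂μ := by
  set l := (p n).leadingCoeff with hl
  have hl0 : l ≠ 0 := (hp.pos n).ne'
  set R := T - C l⁻¹ * p n with hR
  have h1 : ∀ k, n ≤ k → R.coeff k = 0 := by
    intro k hk
    rw [hR, coeff_sub, coeff_C_mul]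
    rcases eq_or_lt_of_le hk with he | he
    · rw [← he, hp.coeff_top, ← hl]
      have : T.coeff n = 1 := by rw [← hTn]; exact hT
      rw [this]; field_simp; ring
    · rw [hp.coeff_gt he, coeff_eq_zero_of_natDegree_lt (by omega)]; simp
  have h2 := h.orth_low hp n n le_rfl R h1
  have h3 : ∀ x, (T.eval x) ^ 2 = (l⁻¹) ^ 2 * ((p n).eval x * (p n).eval x)
      + 2 * l⁻¹ * ((p n).eval x * R.eval x) + (R.eval x) ^ 2 := by
    intro x; rw [hR]; simp only [eval_sub, eval_mul, eval_C]; ring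
  simp_rw [h3]
  have i1 : Integrable (fun x => (p n).eval x * (p n).eval x) μ := by
    have := h.int_poly (p n * p n); simpa using this
  have i2 : Integrable (fun x => (p n).eval x * R.eval x) μ := by
    have := h.int_poly (p n * R); simpa using this
  have i3 : Integrable (fun x => (R.eval x) ^ 2) μ := by
    have := h.int_poly (R ^ 2); simpa using this
  have i12 : Integrable (fun x => (l⁻¹) ^ 2 * ((p n).eval x * (p n).eval x)
      + 2 * l⁻¹ * ((p n).eval x * R.eval x)) μ := (i1.const_mul _).add (i2.const_mul _)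
  rw [integral_add i12 i3, integral_add (i1.const_mul _) (i2.const_mul _), integral_const_mul, integral_const_mul, h2,
    hp.orth]
  have : 0 ≤ ∫ x, (R.eval x) ^ 2 ∂μ := integral_nonneg fun x => sq_nonneg _
  simp only [if_true]
  linarith

lemma IsMinkowski.lc_lower (h : IsMinkowski μ) (hp : IsOPS μ p) {n : ℕ} (hn : 1 ≤ n) :
    n * Real.log 4 - Real.log 2 ≤ Real.log (p n).leadingCoeff := by
  have hpr := h.prob
  set T : ℝ[X] := ∏ k ∈ Finset.range n, (X - C (nd n k)) with hT
  have hTm : T.Monic := monic_prod_of_monic _ _ fun k _ => monic_X_sub_C _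
  have hTn : T.natDegree = n := by
    rw [hT, natDegree_prod_of_monic _ _ fun k _ => monic_X_sub_C _]; simp
  have h1 := h.extremal hp hTm hTn
  have h2 : ∫ x, (T.eval x) ^ 2 ∂μ ≤ ∫ x, ((2 / 4 ^ n) ^ 2 : ℝ) ∂μ := by
    apply integral_mono_ae
    · have := h.int_poly (T ^ 2); simpa using this
    · exact integrable_const _
    · filter_upwards [h.ae_mem] with x hx
      have h3 : T.eval x = ∏ k ∈ Finset.range n, (x - nd n k) := by
        rw [hT, eval_prod]; simp
      rw [h3, ← sq_abs]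
      exact pow_le_pow_left₀ (abs_nonneg _) (nodes_prod_le (by omega) hx) 2
  rw [integral_const, probReal_univ, one_smul] at h2
  have h3 := h1.trans h2
  have hl := hp.pos n
  have h4 : ((p n).leadingCoeff)⁻¹ ≤ 2 / 4 ^ n :=
    (pow_le_pow_iff_left₀ (by positivity) (by positivity) (by norm_num)).1 h3
  have h5 := Real.log_le_log (by positivity) h4
  rw [Real.log_inv, Real.log_div (by norm_num) (by positivity), Real.log_pow] at h5
  linarith

lemma IsMinkowski.lc_upper (h : IsMinkowski μ) (hp : IsOPS μ p) {ε : ℝ} (hε : 0 < ε) :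
    ∃ K : ℝ, ∀ n : ℕ, Real.log (p n).leadingCoeff ≤ n * (Real.log 4 + ε) + K := by
  obtain ⟨ρ, hρ, hs, ⟨K, hK, hKm⟩, hU⟩ := h.exists_rho hε
  refine ⟨Real.log (K.toReal + 1) / 2, fun n => ?_⟩
  set l := (p n).leadingCoeff with hl
  have hl0 : 0 < l := hp.pos n
  set P : ℝ[X] := C l⁻¹ * p n with hP
  have hPm : P.Monic := by
    rw [Monic, hP, leadingCoeff_mul, leadingCoeff_C, ← hl, inv_mul_cancel₀ hl0.ne']
  have hPn : P.natDegree = n := by
    rw [hP, natDegree_C_mul (inv_ne_zero hl0.ne'), hp.deg]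
  have h1 := poly_lower hs hU hPm
  rw [hPn] at h1
  have iP : Integrable (fun x => (P.eval x) ^ 2) μ := by
    have := h.int_poly (P ^ 2); simpa using this
  have h2 : ∫ x, (P.eval x) ^ 2 ∂ρ ≤ ∫ x, (P.eval x) ^ 2 ∂(K • μ) :=
    integral_mono_measure hKm (Eventually.of_forall fun x => sq_nonneg _) (iP.smul_measure hK)
  rw [integral_smul_measure, smul_eq_mul] at h2
  have h3 : ∫ x, (P.eval x) ^ 2 ∂μ = (l⁻¹) ^ 2 := by
    have : ∀ x, (P.eval x) ^ 2 = (l⁻¹) ^ 2 * ((p n).eval x * (p n).eval x) := by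
      intro x; rw [hP]; simp only [eval_mul, eval_C]; ring
    simp_rw [this]
    rw [integral_const_mul, hp.orth]; simp
  rw [h3] at h2
  have h4 : Real.exp (- (2 * n * (Real.log 4 + ε))) ≤ (K.toReal + 1) * (l⁻¹) ^ 2 := by
    refine (h1.trans h2).trans ?_
    have : 0 < (l⁻¹) ^ 2 := by positivity
    nlinarith
  have hK0 : 0 < K.toReal + 1 := by positivity
  have h5 := Real.log_le_log (Real.exp_pos _) h4
  rw [Real.log_exp, Real.log_mul hK0.ne' (by positivity), Real.log_pow, Real.log_inv] at h5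
  push_cast at h5
  linarith

lemma IsMinkowski.lc_limit (h : IsMinkowski μ) (hp : IsOPS μ p) :
    Tendsto (fun n : ℕ => Real.log (p n).leadingCoeff / n) atTop (𝓝 (Real.log 4)) := by
  rw [Metric.tendsto_atTop]
  intro η hη
  obtain ⟨K, hK⟩ := h.lc_upper hp (half_pos hη)
  obtain ⟨N, hN⟩ := exists_nat_gt (2 * (|K| + Real.log 2 + 1) / η)
  refine ⟨max N 1, fun n hn => ?_⟩
  have hn1 : 1 ≤ n := le_of_max_le_right hn
  have hnN : N ≤ n := le_of_max_le_left hn
  have hn0 : (0 : ℝ) < n := by exact_mod_cast hn1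
  have hnN' : (N : ℝ) ≤ n := by exact_mod_cast hnN
  have h1 := h.lc_lower hp hn1
  have h2 := hK n
  have hb : 2 * (|K| + Real.log 2 + 1) < η * n := by
    have := hN.trans_le hnN'
    rw [div_lt_iff₀ hη] at this; linarith
  have hl2 : 0 < Real.log 2 := Real.log_pos (by norm_num)
  rw [Real.dist_eq, abs_lt]
  constructor
  · rw [lt_sub_iff_add_lt, lt_div_iff₀ hn0]
    nlinarith [abs_nonneg K]
  · rw [sub_lt_iff_lt_add, div_lt_iff₀ hn0]
    nlinarith [le_abs_self K]

theorem IsMinkowski.geom_limit (h : IsMinkowski μ) (hp : IsOPS μ p) (hr : IsRecurrence p a b) :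
    Tendsto (fun n : ℕ => (∏ k ∈ Finset.Icc 1 n, a k) ^ ((1 : ℝ) / n)) atTop (𝓝 (1 / 4)) := by
  have h1 := (Real.continuous_exp.tendsto _).comp (h.lc_limit hp).neg
  rw [Real.exp_neg, Real.exp_log (by norm_num)] at h1
  rw [one_div]
  refine h1.congr fun n => ?_
  simp only [Function.comp_apply]
  rw [prod_a h.prob hp hr, Real.rpow_def_of_pos (inv_pos.2 (hp.pos n)), Real.log_inv]
  congr 1; ring

end X92.BF
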