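import Pool.Agent.X92.BF6
open MeasureTheory Set Filter Topology

namespace X92.BF

/-- `ν` is a probability measure carried by `K`, of finite logarithmic energy (in particular
without atoms) -/
structure FiniteEnergy (K : Set ℂ) (ν : Measure ℂ) : Prop where
  prob : IsProbabilityMeasure ν
  carried : ν Kᶜ = 0
  noAtom : ∀ z, ν {z} = 0
  integrable : Integrable (fun q : ℂ × ℂ => Real.log ‖q.1 - q.2‖) (ν.prod ν)

/-- logarithmic energy `∫∫ log 1/|z-w| dν dν` -/
noncomputable def energy (ν : Measure ℂ) : ℝ := ∫ q : ℂ × ℂ, - Real.log ‖q.1 - q.2‖ ∂(ν.prod ν)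

/-- logarithmic capacity of a compact set -/
noncomputable def cap (K : Set ℂ) : ENNReal :=
  ⨆ (ν : Measure ℂ) (_ : FiniteEnergy K ν), ENNReal.ofReal (Real.exp (- energy ν))

/-- capacity of a Borel set -/
noncomputable def capBorel (B : Set ℂ) : ENNReal :=
  ⨆ (K : Set ℂ) (_ : IsCompact K) (_ : K ⊆ B), cap K

/-- minimal carrier capacity -/
noncomputable def carrierCap (μ : Measure ℝ) : ENNReal :=
  ⨅ (B : Set ℂ) (_ : MeasurableSet B) (_ : μ {x : ℝ | (x : ℂ) ∉ B} = 0), capBorel B

lemma hasSum_log {r t : ℝ} (hr0 : 0 ≤ r) (hr : r < 1) :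
    HasSum (fun n : ℕ => r ^ n * Real.cos (n * t) / n)
      (- (1 / 2) * Real.log (1 - 2 * r * Real.cos t + r ^ 2)) := by
  set z : ℂ := r * Complex.exp (t * Complex.I) with hz
  have hnz : ‖z‖ = r := by
    rw [hz, norm_mul, Complex.norm_exp_ofReal_mul_I, mul_one, Complex.norm_real,
      Real.norm_eq_abs, abs_of_nonneg hr0]
  have h := Complex.hasSum_taylorSeries_neg_log (z := z) (by rw [hnz]; exact hr)
  have h2 := Complex.hasSum_re h
  have e1 : ∀ n : ℕ, (z ^ n / n).re = r ^ n * Real.cos (n * t) / n := by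
    intro n
    have : z ^ n / n = ((r ^ n / n : ℝ) : ℂ) * Complex.exp (((n * t : ℝ) : ℂ) * Complex.I) := by
      rw [hz, mul_pow, ← Complex.exp_nat_mul]
      push_cast
      rw [show (n : ℂ) * (↑t * Complex.I) = ↑n * ↑t * Complex.I by ring]
      ring
    rw [this, Complex.re_ofReal_mul, Complex.exp_ofReal_mul_I_re]
    ring
  simp_rw [e1] at h2
  convert h2 using 1
  rw [Complex.neg_re, Complex.log_re]
  have hre : z.re = r * Real.cos t := by
    rw [hz, Complex.re_ofReal_mul, Complex.exp_ofReal_mul_I_re]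
  have him : z.im = r * Real.sin t := by
    rw [hz, Complex.im_ofReal_mul, Complex.exp_ofReal_mul_I_im]
  have hn : ‖1 - z‖ ^ 2 = 1 - 2 * r * Real.cos t + r ^ 2 := by
    rw [← Complex.normSq_eq_norm_sq, Complex.normSq_apply]
    simp only [Complex.sub_re, Complex.one_re, Complex.sub_im, Complex.one_im]
    rw [hre, him]
    have := Real.sin_sq_add_cos_sq t
    nlinarith
  rw [← hn, Real.log_pow]
  push_cast
  ring

/-- the angle of a point of the segment -/
noncomputable def ang (z : ℂ) : ℝ := Real.arccos (2 * z.re - 1)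

lemma measurable_ang : Measurable ang := by
  unfold ang
  exact (Real.continuous_arccos.comp (by fun_prop : Continuous fun z : ℂ => 2 * z.re - 1)).measurable

noncomputable def Fr (r : ℝ) (q : ℂ × ℂ) : ℝ :=
  ∑' n : ℕ, 2 * r ^ n / n * (Real.cos (n * ang q.1) * Real.cos (n * ang q.2))

lemma log_ge {r : ℝ} (hr0 : 0 ≤ r) (hr : r < 1) {q : ℂ × ℂ} (h1 : q.1 ∈ Complex.ofReal '' Icc 0 1)
    (h2 : q.2 ∈ Complex.ofReal '' Icc 0 1) (hne : q.1 ≠ q.2) :
    2 * Real.log (1 + r) + Fr r q ≤ - Real.log ‖q.1 - q.2‖ := by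
  obtain ⟨x, hx, hx'⟩ := h1
  obtain ⟨y, hy, hy'⟩ := h2
  set θ := Real.arccos (2 * x - 1) with hθ
  set φ := Real.arccos (2 * y - 1) with hφ
  have ha1 : ang q.1 = θ := by rw [ang, ← hx', Complex.ofReal_re]
  have ha2 : ang q.2 = φ := by rw [ang, ← hy', Complex.ofReal_re]
  have hcx : Real.cos θ = 2 * x - 1 := Real.cos_arccos (by linarith [hx.1]) (by linarith [hx.2])
  have hcy : Real.cos φ = 2 * y - 1 := Real.cos_arccos (by linarith [hy.1]) (by linarith [hy.2])
  have hs1 := hasSum_log (t := θ + φ) hr0 hr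
  have hs2 := hasSum_log (t := θ - φ) hr0 hr
  have hs := hs1.add hs2
  have hFr : Fr r q = - (1 / 2) * Real.log (1 - 2 * r * Real.cos (θ + φ) + r ^ 2)
      + - (1 / 2) * Real.log (1 - 2 * r * Real.cos (θ - φ) + r ^ 2) := by
    rw [← hs.tsum_eq]
    unfold Fr
    apply tsum_congr
    intro n
    rw [ha1, ha2, mul_add, mul_sub, Real.cos_add, Real.cos_sub]
    ring
  have hdist : ‖q.1 - q.2‖ = |Real.sin ((θ + φ) / 2)| * |Real.sin ((θ - φ) / 2)| := by
    rw [← hx', ← hy', ← Complex.ofReal_sub, Complex.norm_real, Real.norm_eq_abs]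
    have : x - y = (Real.cos θ - Real.cos φ) / 2 := by rw [hcx, hcy]; ring
    rw [this, Real.cos_sub_cos, ← abs_mul, ← abs_neg]
    congr 1; ring
  have hxy : x ≠ y := by
    intro h; apply hne; rw [← hx', ← hy', h]
  have hpos : 0 < ‖q.1 - q.2‖ := norm_pos_iff.2 (sub_ne_zero.2 hne)
  rw [hdist] at hpos
  have hp1 : 0 < |Real.sin ((θ + φ) / 2)| := by
    rcases (abs_nonneg (Real.sin ((θ + φ) / 2))).eq_or_lt with h | h
    · rw [← h, zero_mul] at hpos; exact absurd hpos (lt_irrefl _)
    · exact h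
  have hp2 : 0 < |Real.sin ((θ - φ) / 2)| := by
    rcases (abs_nonneg (Real.sin ((θ - φ) / 2))).eq_or_lt with h | h
    · rw [← h, mul_zero] at hpos; exact absurd hpos (lt_irrefl _)
    · exact h
  have key : ∀ t : ℝ, 0 < |Real.sin (t / 2)| → Real.log |Real.sin (t / 2)| ≤
      (1 / 2) * Real.log (1 - 2 * r * Real.cos t + r ^ 2) - Real.log (1 + r) := by
    intro t ht
    have hc : Real.cos t = 1 - 2 * Real.sin (t / 2) ^ 2 := by
      have := Real.cos_sq' (t / 2)
      have h3 := Real.cos_two_mul (t / 2)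
      rw [show 2 * (t / 2) = t by ring] at h3
      rw [h3, this]; ring
    have h1r : 0 < 1 + r := by linarith
    have hle : (|Real.sin (t / 2)| * (1 + r)) ^ 2 ≤ 1 - 2 * r * Real.cos t + r ^ 2 := by
      rw [mul_pow, sq_abs, hc]
      have h4 : Real.sin (t / 2) ^ 2 ≤ 1 := Real.sin_sq_le_one _
      nlinarith [mul_nonneg (sq_nonneg (1 - r)) (sub_nonneg.2 h4)]
    have := Real.log_le_log (by positivity) hle
    rw [Real.log_pow, Real.log_mul ht.ne' h1r.ne'] at this
    push_cast at this
    linarith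
  rw [hdist, Real.log_mul hp1.ne' hp2.ne', hFr]
  have k1 := key (θ + φ) hp1
  have k2 := key (θ - φ) hp2
  linarith

lemma diag_null {ν : Measure ℂ} [IsProbabilityMeasure ν] (h : ∀ z, ν {z} = 0) :
    ∀ᵐ q : ℂ × ℂ ∂(ν.prod ν), q.1 ≠ q.2 := by
  have hm : MeasurableSet {q : ℂ × ℂ | q.1 = q.2} := measurableSet_eq_fun measurable_fst measurable_snd
  rw [ae_iff]
  simp only [ne_eq, not_not]
  rw [Measure.prod_apply hm]
  have : ∀ x : ℂ, Prod.mk x ⁻¹' {q : ℂ × ℂ | q.1 = q.2} = {x} := by
    intro x; ext y; simp [eq_comm]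
  simp [this, h]

lemma energy_ge {ν : Measure ℂ} {K : Set ℂ} (h : FiniteEnergy K ν)
    (hK : K ⊆ Complex.ofReal '' Icc 0 1) : Real.log 4 ≤ energy ν := by
  have hp := h.prob
  have hae : ∀ᵐ z ∂ν, z ∈ Complex.ofReal '' Icc (0 : ℝ) 1 := by
    rw [ae_iff]
    exact measure_mono_null (compl_subset_compl.2 hK) h.carried
  have hae1 : ∀ᵐ q : ℂ × ℂ ∂(ν.prod ν), q.1 ∈ Complex.ofReal '' Icc (0 : ℝ) 1 :=
    Measure.quasiMeasurePreserving_fst.ae hae
  have hae2 : ∀ᵐ q : ℂ × ℂ ∂(ν.prod ν), q.2 ∈ Complex.ofReal '' Icc (0 : ℝ) 1 :=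
    Measure.quasiMeasurePreserving_snd.ae hae
  have hr : ∀ r : ℝ, 0 ≤ r → r < 1 → 2 * Real.log (1 + r) ≤ energy ν := by
    intro r hr0 hr1
    set G : ℕ → ℂ × ℂ → ℝ := fun n q =>
      2 * r ^ n / n * (Real.cos (n * ang q.1) * Real.cos (n * ang q.2)) with hG
    have hGm : ∀ n, Measurable (G n) := by
      intro n
      have a1 : Measurable fun q : ℂ × ℂ => ang q.1 := measurable_ang.comp measurable_fst
      have a2 : Measurable fun q : ℂ × ℂ => ang q.2 := measurable_ang.comp measurable_snd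
      rw [hG]; fun_prop
    have hGb : ∀ n q, ‖G n q‖ ≤ 2 * r ^ n := by
      intro n q
      rw [hG]
      simp only [norm_mul, Real.norm_eq_abs]
      have c1 := Real.abs_cos_le_one (n * ang q.1)
      have c2 := Real.abs_cos_le_one (n * ang q.2)
      have c3 : |2 * r ^ n / n| ≤ 2 * r ^ n := by
        rw [abs_of_nonneg (by positivity)]
        rcases Nat.eq_zero_or_pos n with h0 | h0
        · rw [h0]; simp
        · apply div_le_self (by positivity)
          exact_mod_cast h0
      calc |2 * r ^ n / n| * (|Real.cos (n * ang q.1)| * |Real.cos (n * ang q.2)|)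
          ≤ 2 * r ^ n * (1 * 1) := by gcongr
        _ = _ := by ring
    have hGi : ∀ n, Integrable (G n) (ν.prod ν) := fun n =>
      Integrable.of_bound (hGm n).aestronglyMeasurable (2 * r ^ n)
        (Eventually.of_forall fun q => hGb n q)
    have hsumm : Summable fun n : ℕ => 2 * r ^ n :=
      (summable_geometric_of_lt_one hr0 hr1).mul_left 2
    have hGs : Summable fun n => ∫ q, ‖G n q‖ ∂(ν.prod ν) := by
      apply Summable.of_nonneg_of_le (fun n => integral_nonneg fun q => norm_nonneg _) _ hsumm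
      intro n
      calc ∫ q, ‖G n q‖ ∂(ν.prod ν) ≤ ∫ _q, 2 * r ^ n ∂(ν.prod ν) :=
            integral_mono (hGi n).norm (integrable_const _) (hGb n)
        _ = _ := by simp
    have hhas := hasSum_integral_of_summable_integral_norm hGi hGs
    have hval : ∀ n, ∫ q, G n q ∂(ν.prod ν)
        = 2 * r ^ n / n * ((∫ z, Real.cos (n * ang z) ∂ν) * (∫ z, Real.cos (n * ang z) ∂ν)) := by
      intro n
      rw [hG]
      simp only
      rw [integral_const_mul]
      congr 1
      exact integral_prod_mul (fun z => Real.cos (n * ang z)) (fun z => Real.cos (n * ang z))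
    have hnn : 0 ≤ ∫ q, Fr r q ∂(ν.prod ν) := by
      have : (fun q => Fr r q) = fun q => ∑' n, G n q := rfl
      rw [this]
      apply hhas.nonneg
      intro n
      rw [hval]
      apply mul_nonneg (by positivity) (mul_self_nonneg _)
    have hFm : Integrable (fun q => Fr r q) (ν.prod ν) := by
      have : (fun q => Fr r q) = fun q => ∑' n, G n q := rfl
      rw [this]
      refine Integrable.of_bound ?_ (∑' n : ℕ, 2 * r ^ n) ?_
      · apply Measurable.aestronglyMeasurable
        exact Measurable.tsum hGm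
      · refine Eventually.of_forall fun q => ?_
        refine (norm_tsum_le_tsum_norm ?_).trans ?_
        · exact Summable.of_nonneg_of_le (fun n => norm_nonneg _) (fun n => hGb n q) hsumm
        · exact Summable.tsum_le_tsum (fun n => hGb n q)
            (Summable.of_nonneg_of_le (fun n => norm_nonneg _) (fun n => hGb n q) hsumm) hsumm
    have hle : ∫ q, (2 * Real.log (1 + r) + Fr r q) ∂(ν.prod ν) ≤ energy ν := by
      unfold energy
      apply integral_mono_ae ((integrable_const _).add hFm) h.integrable.neg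
      filter_upwards [hae1, hae2, diag_null h.noAtom] with q h1 h2 h3
      exact log_ge hr0 hr1 h1 h2 h3
    rw [integral_add (integrable_const _) hFm, integral_const, probReal_univ, one_smul] at hle
    linarith
  have hlim : Tendsto (fun n : ℕ => 2 * Real.log (1 + (1 - 1 / ((n : ℝ) + 1)))) atTop
      (𝓝 (2 * Real.log (1 + (1 - 0)))) := by
    apply Tendsto.const_mul
    apply Tendsto.log _ (by norm_num)
    exact tendsto_const_nhds.add (tendsto_const_nhds.sub tendsto_one_div_add_atTop_nhds_zero_nat)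
  rw [log4]
  have e : (2 : ℝ) * Real.log 2 = 2 * Real.log (1 + (1 - 0)) := by norm_num
  rw [e]
  apply le_of_tendsto' hlim
  intro n
  have hn : (0 : ℝ) < (n : ℝ) + 1 := by positivity
  apply hr
  · rw [sub_nonneg, div_le_one hn]; linarith [(Nat.cast_nonneg n : (0:ℝ) ≤ n)]
  · have : 0 < 1 / ((n : ℝ) + 1) := by positivity
    linarith

lemma IsMinkowski.carrier_le {μ : Measure ℝ} (h : IsMinkowski μ) :
    carrierCap μ ≤ ENNReal.ofReal (1 / 4) := by
  have hcl : IsClosed (Complex.ofReal '' Icc (0 : ℝ) 1) :=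
    (isCompact_Icc.image Complex.continuous_ofReal).isClosed
  unfold carrierCap
  refine (iInf₂_le (Complex.ofReal '' Icc (0 : ℝ) 1) hcl.measurableSet).trans ?_
  refine (iInf_le _ ?_).trans ?_
  · refine measure_mono_null ?_ h.supp
    intro x hx hx1
    exact hx ⟨x, hx1, rfl⟩
  · unfold capBorel
    refine iSup_le fun K => iSup_le fun _ => iSup_le fun hKB => ?_
    unfold cap
    refine iSup_le fun ν => iSup_le fun hν => ?_
    apply ENNReal.ofReal_le_ofReal
    have := energy_ge hν hKB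
    calc Real.exp (- energy ν) ≤ Real.exp (- Real.log 4) := Real.exp_le_exp.2 (by linarith)
      _ = 1 / 4 := by rw [Real.exp_neg, Real.exp_log (by norm_num), one_div]

end X92.BF
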