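import Pool.Agent.X92.Ext16
open MeasureTheory Set Complex Filter
open scoped ENNReal ComplexConjugate NNReal Topology

namespace X92.Ext

variable {X : Type*} [MeasurableSpace X]

/-- one-dimensional phase -/
noncomputable def ph1 (ξ y : ℝ) : ℂ := cexp (-(I * ((ξ : ℂ) * (y : ℂ))))

theorem ph1_eq (ξ y : ℝ) : ph1 ξ y = cexp (((-(ξ * y) : ℝ) : ℂ) * I) := by
  rw [ph1]; congr 1; push_cast; ring

theorem norm_ph1 (ξ y : ℝ) : ‖ph1 ξ y‖ = 1 := by
  rw [ph1_eq, Complex.norm_exp_ofReal_mul_I]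

theorem ph1_add (ξ y z : ℝ) : ph1 ξ (y + z) = ph1 ξ y * ph1 ξ z := by
  rw [ph1, ph1, ph1, ← Complex.exp_add]; congr 1; push_cast; ring

theorem conj_ph1 (ξ y : ℝ) : conj (ph1 ξ y) = ph1 ξ (-y) := by
  rw [ph1, ph1, ← Complex.exp_conj]; congr 1
  simp only [map_neg, map_mul, Complex.conj_I, Complex.conj_ofReal]
  push_cast; ring

theorem continuous_ph1 : Continuous (fun z : ℝ × ℝ => ph1 z.1 z.2) := by
  unfold ph1
  fun_prop

theorem ph_prod (ξ y : ℝ × ℝ) : ph ξ y = ph1 ξ.1 y.1 * ph1 ξ.2 y.2 := by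
  rw [ph, ph1, ph1, ← Complex.exp_add]; congr 1; ring

/-- one-dimensional Gaussian weight -/
noncomputable def g1 (R t : ℝ) : ℝ := Real.exp (-(t ^ 2) / R ^ 2)

theorem g1_nonneg (R t : ℝ) : 0 ≤ g1 R t := (Real.exp_pos _).le

/-- one-dimensional Gaussian kernel -/
noncomputable def k1 (ρ y : ℝ) : ℝ := Real.sqrt Real.pi * ρ * Real.exp (-(ρ ^ 2 * y ^ 2) / 4)

theorem k1_nonneg (ρ : ℝ) (hρ : 0 ≤ ρ) (y : ℝ) : 0 ≤ k1 ρ y := by unfold k1; positivity

theorem continuous_k1 (ρ : ℝ) : Continuous (k1 ρ) := by unfold k1; fun_prop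

theorem ttg1 (μ : Measure X) [SFinite μ] (ρ : ℝ) (hρ : 0 < ρ) (φ : X → ℝ) (hφ : Measurable φ)
    (F : X → ℂ) (hF : Integrable F μ) :
    ∫⁻ ξ : ℝ, ‖∫ x, F x * ph1 ξ (φ x) ∂μ‖ₑ ^ 2 * ENNReal.ofReal (g1 ρ ξ) ≤
      2 * ∫⁻ x, ‖F x‖ₑ ^ 2 * ∫⁻ x', ENNReal.ofReal (k1 ρ (φ x - φ x')) ∂μ ∂μ := by
  refine (tt volume μ (fun ξ x => ph1 ξ (φ x)) ?_ (fun ξ x => (norm_ph1 _ _).le) (g1 ρ)
    (integrable_gauss ρ hρ) (g1_nonneg ρ) F hF (fun x x' => k1 ρ (φ x - φ x')) ?_).trans ?_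
  · have h1 : Measurable (fun z : ℝ × X => (z.1, φ z.2)) :=
      measurable_fst.prodMk (hφ.comp measurable_snd)
    have h2 : Measurable (fun z : ℝ × ℝ => ph1 z.1 z.2) := continuous_ph1.measurable
    have h3 := h2.comp h1
    simpa only [Function.uncurry_def, Function.comp_def] using h3
  · intro x x'
    have : ∀ ξ : ℝ, ((g1 ρ ξ : ℝ) : ℂ) * (ph1 ξ (φ x) * conj (ph1 ξ (φ x'))) =
        ((Real.exp (-(ξ ^ 2) / ρ ^ 2) : ℝ) : ℂ) * cexp (-(I * ((ξ : ℂ) * ((φ x - φ x' : ℝ) : ℂ)))) := by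
      intro ξ
      rw [conj_ph1, ← ph1_add, ← sub_eq_add_neg]
      rfl
    simp_rw [this]
    rw [gauss1 ρ hρ, Complex.norm_real, Real.norm_of_nonneg]
    · rfl
    · exact k1_nonneg ρ hρ.le _
  · refine schur μ F hF.aestronglyMeasurable _ ?_ ?_
    · have h1 : Measurable (fun z : X × X => φ z.1 - φ z.2) :=
        (hφ.comp measurable_fst).sub (hφ.comp measurable_snd)
      have h2 : Measurable (k1 ρ) := (continuous_k1 ρ).measurable
      exact h2.comp h1
    · intro x x'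
      unfold k1
      congr 3
      ring

theorem lintegral_k1 (ρ : ℝ) (hρ : 0 < ρ) (x : ℝ) :
    ∫⁻ x', ENNReal.ofReal (k1 ρ (x - x')) = ENNReal.ofReal (2 * Real.pi) := by
  rw [lintegral_sub_left_eq_self (fun y => ENNReal.ofReal (k1 ρ y)) x]
  have h1 : Integrable (fun y : ℝ => Real.exp (-(ρ ^ 2 / 4) * y ^ 2)) :=
    integrable_exp_neg_mul_sq (by positivity)
  have e0 : ∀ y, k1 ρ y = (Real.sqrt Real.pi * ρ) * Real.exp (-(ρ ^ 2 / 4) * y ^ 2) := by
    intro y; unfold k1; congr 2; ring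
  simp_rw [e0]
  rw [← ofReal_integral_eq_lintegral_ofReal (h1.const_mul _) (Eventually.of_forall (fun y => by positivity))]
  congr 1
  rw [integral_const_mul, integral_gaussian, Real.sqrt_div Real.pi_pos.le]
  have e1 : Real.sqrt (ρ ^ 2 / 4) = ρ / 2 := by
    rw [show ρ ^ 2 / 4 = (ρ / 2) ^ 2 by ring, Real.sqrt_sq (by positivity)]
  rw [e1]
  have h3 : Real.sqrt Real.pi * Real.sqrt Real.pi = Real.pi := Real.mul_self_sqrt Real.pi_pos.le
  calc Real.sqrt Real.pi * ρ * (Real.sqrt Real.pi / (ρ / 2)) =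
      2 * (Real.sqrt Real.pi * Real.sqrt Real.pi) * (ρ / ρ) := by field_simp
    _ = _ := by rw [h3, div_self hρ.ne', mul_one]

theorem measurable_ft1 {X : Type*} [MeasurableSpace X] (μ : Measure X) [SFinite μ] (φ : X → ℝ)
    (hφ : Measurable φ) (G : X → ℂ) (hG : AEStronglyMeasurable G μ) :
    AEStronglyMeasurable (fun p : ℝ => ∫ v, G v * ph1 p (φ v) ∂μ) := by
  have h1 : Measurable (fun z : ℝ × X => (z.1, φ z.2)) :=
    measurable_fst.prodMk (hφ.comp measurable_snd)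
  have h2 : Measurable (fun z : ℝ × ℝ => ph1 z.1 z.2) := continuous_ph1.measurable
  have h3 := (h2.comp h1).aestronglyMeasurable (μ := (volume : Measure ℝ).prod μ)
  have h : AEStronglyMeasurable (fun z : ℝ × X => G z.2 * ph1 z.1 (φ z.2))
      ((volume : Measure ℝ).prod μ) := (hG.comp_snd).mul h3
  exact h.integral_prod_right'

/-- One-dimensional Plancherel inequality. -/
theorem planch1 (G : ℝ → ℂ) (hG : Integrable G) :
    ∫⁻ p : ℝ, ‖∫ v, G v * ph1 p v‖ₑ ^ 2 ≤ ENNReal.ofReal (4 * Real.pi) * ∫⁻ v, ‖G v‖ₑ ^ 2 := by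
  have hb : ∀ n : ℕ, ∫⁻ p : ℝ, ‖∫ v, G v * ph1 p v‖ₑ ^ 2 * ENNReal.ofReal (g1 ((n : ℝ) + 1) p) ≤
      ENNReal.ofReal (4 * Real.pi) * ∫⁻ v, ‖G v‖ₑ ^ 2 := by
    intro n
    refine (ttg1 volume ((n : ℝ) + 1) (by positivity) (fun v => v) measurable_id G hG).trans ?_
    simp_rw [lintegral_k1 _ (by positivity : (0 : ℝ) < (n : ℝ) + 1)]
    rw [lintegral_mul_const' _ _ ENNReal.ofReal_ne_top, ← mul_assoc, mul_comm, ← mul_assoc]
    refine mul_le_mul_left ?_ _
    rw [mul_comm]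
    have : (2 : ℝ≥0∞) = ENNReal.ofReal 2 := by simp
    rw [this, ← ENNReal.ofReal_mul (by norm_num)]
    refine ENNReal.ofReal_le_ofReal ?_
    nlinarith [Real.pi_pos]
  have hmeas := measurable_ft1 volume (fun v => v) measurable_id G hG.aestronglyMeasurable
  have ht : Filter.Tendsto (fun n : ℕ => ∫⁻ p : ℝ, ‖∫ v, G v * ph1 p v‖ₑ ^ 2 *
      ENNReal.ofReal (g1 ((n : ℝ) + 1) p)) Filter.atTop
      (nhds (∫⁻ p : ℝ, ‖∫ v, G v * ph1 p v‖ₑ ^ 2 * 1)) := by
    refine lintegral_tendsto_of_tendsto_of_monotone ?_ ?_ ?_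
    · intro n
      refine (hmeas.enorm.pow_const 2).mul ?_
      exact (integrable_gauss _ (by positivity)).aestronglyMeasurable.aemeasurable.ennreal_ofReal
    · refine Filter.Eventually.of_forall (fun p n m hnm => ?_)
      refine mul_le_mul_right ?_ _
      refine ENNReal.ofReal_le_ofReal ?_
      unfold g1
      refine Real.exp_le_exp.2 ?_
      rw [neg_div, neg_div, neg_le_neg_iff]
      have : (n : ℝ) ≤ m := by exact_mod_cast hnm
      gcongr
    · refine Filter.Eventually.of_forall (fun p => ?_)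
      refine ENNReal.Tendsto.const_mul ?_ (Or.inl one_ne_zero)
      have h1 : Filter.Tendsto (fun n : ℕ => g1 ((n : ℝ) + 1) p) Filter.atTop (nhds 1) := by
        unfold g1
        have h2 : Filter.Tendsto (fun n : ℕ => -(p ^ 2) / ((n : ℝ) + 1) ^ 2) Filter.atTop (nhds 0) := by
          refine Filter.Tendsto.div_atTop (a := -(p ^ 2)) tendsto_const_nhds ?_
          refine (Filter.tendsto_pow_atTop (by norm_num)).comp ?_
          exact Filter.tendsto_atTop_add_const_right _ _ tendsto_natCast_atTop_atTop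
        have h3 := (Real.continuous_exp.tendsto 0).comp h2
        simpa [Function.comp_def] using h3
      have := ENNReal.tendsto_ofReal h1
      simpa using this
  simp only [mul_one] at ht
  exact le_of_tendsto' ht hb

/-- the 1d extension operator -/
noncomputable def T1 (a : ℝ → ℂ) (p t : ℝ) : ℂ := ∫ x, a x * (ph1 p x * ph1 t (x ^ 2))

noncomputable def GG1 (a : ℝ → ℂ) (t v : ℝ) : ℂ :=
  ∫ x, (a x * a (v - x)) * ph1 t (x ^ 2 + (v - x) ^ 2)

theorem integrable_mod1 (f : ℝ → ℂ) (hf : Integrable f) (b : ℝ) (φ : ℝ → ℝ)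
    (hφ : Continuous φ) : Integrable (fun x => f x * ph1 b (φ x)) := by
  have hc : Continuous (fun x => ph1 b (φ x)) :=
    continuous_ph1.comp (continuous_const.prodMk hφ)
  have h := hf.bdd_mul (c := 1) (f := fun x => ph1 b (φ x)) hc.aestronglyMeasurable
    (Filter.Eventually.of_forall (fun x => (norm_ph1 _ _).le))
  refine h.congr (Filter.Eventually.of_forall (fun x => ?_))
  simp only
  ring

theorem conv_int1 (g : ℝ → ℂ) (hg : Integrable g) :
    Integrable (fun v : ℝ => ∫ x, g x * g (v - x)) ∧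
      ∫ v, ∫ x, g x * g (v - x) = (∫ x, g x) ^ 2 := by
  have h1 := hg.integrable_convolution (ContinuousLinearMap.mul ℝ ℂ) hg
  have h2 := integral_convolution (ContinuousLinearMap.mul ℝ ℂ) hg hg
  simp only [convolution_def, ContinuousLinearMap.mul_apply'] at h2
  constructor
  · exact h1
  · rw [h2, sq]

theorem GG1_integrable (f : ℝ → ℂ) (hf : Integrable f) (b : ℝ) : Integrable (GG1 f b) := by
  have h := (conv_int1 _ (integrable_mod1 f hf b (fun x => x ^ 2) (by fun_prop))).1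
  refine h.congr (Filter.Eventually.of_forall (fun v => ?_))
  simp only [GG1]
  congr 1
  ext x
  rw [ph1_add]
  ring

theorem T1_sq (f : ℝ → ℂ) (hf : Integrable f) (p b : ℝ) :
    (T1 f p b) ^ 2 = ∫ v, GG1 f b v * ph1 p v := by
  have h0 : Integrable (fun x => f x * (ph1 p x * ph1 b (x ^ 2))) := by
    have h1 := integrable_mod1 _ (integrable_mod1 f hf p (fun x => x) continuous_id) b (fun x => x ^ 2) (by fun_prop)
    refine h1.congr (Filter.Eventually.of_forall (fun x => ?_))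
    simp only
    ring
  have h := (conv_int1 _ h0).2
  rw [T1, ← h]
  congr 1
  ext v
  rw [GG1, ← integral_mul_const]
  congr 1
  ext x
  have h3 : ph1 p v = ph1 p x * ph1 p (v - x) := by
    rw [← ph1_add]; congr 1; ring
  rw [ph1_add, h3]
  ring

theorem planch_sq (f : ℝ → ℂ) (hf : Integrable f) (b : ℝ) :
    ∫⁻ p : ℝ, ‖T1 f p b‖ₑ ^ 4 ≤ ENNReal.ofReal (4 * Real.pi) * ∫⁻ v, ‖GG1 f b v‖ₑ ^ 2 := by
  refine le_trans (le_of_eq ?_) (planch1 (GG1 f b) (GG1_integrable f hf b))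
  refine lintegral_congr (fun p => ?_)
  rw [← T1_sq f hf p b, enorm_pow, ← pow_mul]

theorem k1_eq (R v x x' : ℝ) :
    k1 R ((x ^ 2 + (v - x) ^ 2) - (x' ^ 2 + (v - x') ^ 2)) = q1 R (x - v / 2) (x' - v / 2) := by
  unfold k1 q1
  congr 2
  ring

theorem lint_k1_le (R : ℝ) (hR : 0 < R) (v x : ℝ) :
    ∫⁻ x', ENNReal.ofReal (k1 R ((x ^ 2 + (v - x) ^ 2) - (x' ^ 2 + (v - x') ^ 2))) ≤
      ENNReal.ofReal (kap R (x - v / 2)) := by
  simp_rw [k1_eq]
  rw [lintegral_sub_right_eq_self (fun y : ℝ => ENNReal.ofReal (q1 R (x - v / 2) y)) (v / 2)]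
  exact j_bound R hR _

theorem stepC1 (R : ℝ) (hR : 0 < R) (f : ℝ → ℂ) (v : ℝ) :
    ∫⁻ b, ‖GG1 f b v‖ₑ ^ 2 * ENNReal.ofReal (g1 R b) ≤
      2 * ∫⁻ x, ‖f x * f (v - x)‖ₑ ^ 2 * ENNReal.ofReal (kap R (x - v / 2)) := by
  by_cases hint : Integrable (fun x => f x * f (v - x))
  · have hφ : Measurable (fun x : ℝ => x ^ 2 + (v - x) ^ 2) := by fun_prop
    refine (ttg1 volume R hR (fun x => x ^ 2 + (v - x) ^ 2) hφ (fun x => f x * f (v - x)) hint).trans ?_
    refine mul_le_mul_right ?_ _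
    refine lintegral_mono (fun x => ?_)
    exact mul_le_mul_right (lint_k1_le R hR v x) _
  · have h0 : ∀ b, GG1 f b v = 0 := by
      intro b
      refine integral_undef ?_
      intro hcon
      apply hint
      have hc : Continuous (fun x : ℝ => ph1 b (-(x ^ 2 + (v - x) ^ 2))) := by
        refine continuous_ph1.comp (continuous_const.prodMk ?_)
        fun_prop
      have h := hcon.bdd_mul (c := 1) (f := fun x => ph1 b (-(x ^ 2 + (v - x) ^ 2))) hc.aestronglyMeasurable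
        (Filter.Eventually.of_forall (fun x => (norm_ph1 _ _).le))
      refine h.congr (Filter.Eventually.of_forall (fun x => ?_))
      simp only
      have h5 : ph1 b (-(x ^ 2 + (v - x) ^ 2)) * ph1 b (x ^ 2 + (v - x) ^ 2) = 1 := by
        rw [← ph1_add]; simp [ph1]
      calc _ = (ph1 b (-(x ^ 2 + (v - x) ^ 2)) * ph1 b (x ^ 2 + (v - x) ^ 2)) * (f x * f (v - x)) := by ring
        _ = _ := by rw [h5, one_mul]
    simp [h0]

theorem stepE1 (R : ℝ) (hR : 0 < R) (f : ℝ → ℂ) (hf : AEStronglyMeasurable f)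
    (hsupp : ∀ x : ℝ, 1 < |x| → f x = 0) :
    ∫⁻ v : ℝ, ∫⁻ x : ℝ, ‖f x * f (v - x)‖ₑ ^ 2 * ENNReal.ofReal (kap R (x - v / 2)) ≤
      2 * (ENNReal.ofReal (16 * Real.pi * Real.exp 1 * Real.log (1 + Real.sqrt R)) *
        ∫⁻ x, ‖f x‖ₑ ^ 4) := by
  have hkc := continuous_kap R hR
  have hm0 : Measurable (fun z : ℝ × ℝ => ENNReal.ofReal (kap R (z.2 - z.1 / 2))) := by
    refine ENNReal.measurable_ofReal.comp (Continuous.measurable ?_)
    exact hkc.comp (by fun_prop)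
  have hm1 : AEStronglyMeasurable (fun z : ℝ × ℝ => f z.2 * f (z.1 - z.2))
      ((volume : Measure ℝ).prod volume) :=
    hf.convolution_integrand (ContinuousLinearMap.mul ℝ ℂ) hf
  have hm2 : AEMeasurable (fun z : ℝ × ℝ => ‖f z.2 * f (z.1 - z.2)‖ₑ ^ 2 *
      ENNReal.ofReal (kap R (z.2 - z.1 / 2)))
      ((volume : Measure ℝ).prod volume) := (hm1.enorm.pow_const 2).mul hm0.aemeasurable
  rw [lintegral_lintegral_swap hm2]
  have h1 : ∀ x : ℝ, ∫⁻ v : ℝ, ‖f x * f (v - x)‖ₑ ^ 2 * ENNReal.ofReal (kap R (x - v / 2)) =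
      ∫⁻ y : ℝ, ‖f x * f y‖ₑ ^ 2 * ENNReal.ofReal (kap R ((x - y) / 2)) := by
    intro x
    rw [← lintegral_add_left_eq_self (fun v : ℝ => ‖f x * f (v - x)‖ₑ ^ 2 *
      ENNReal.ofReal (kap R (x - v / 2))) x]
    refine lintegral_congr (fun y => ?_)
    have e1 : x + y - x = y := by ring
    have e2 : x - (x + y) / 2 = (x - y) / 2 := by ring
    rw [e1, e2]
  simp_rw [h1]
  set F : ℝ → ℂ := fun x => ((‖f x‖ ^ 2 : ℝ) : ℂ) with hF
  have hFm : AEStronglyMeasurable F :=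
    Complex.continuous_ofReal.comp_aestronglyMeasurable (hf.norm.pow 2)
  have hFn : ∀ x, ‖F x‖ₑ = ‖f x‖ₑ ^ 2 := by
    intro x
    rw [← ofReal_norm, ← ofReal_norm, hF]
    simp only [Complex.norm_real, norm_pow, norm_norm]
    rw [ENNReal.ofReal_pow (norm_nonneg _)]
  have h2 : ∀ x y : ℝ, ‖f x * f y‖ₑ ^ 2 * ENNReal.ofReal (kap R ((x - y) / 2)) ≤
      ‖F x‖ₑ * ‖F y‖ₑ * ENNReal.ofReal (kt R (x - y)) := by
    intro x y
    by_cases hx : 1 < |x|
    · simp [hsupp x hx]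
    by_cases hy : 1 < |y|
    · simp [hsupp y hy]
    push Not at hx hy
    have a1 := abs_le.1 hx
    have a3 := abs_le.1 hy
    have m1 : x - y ∈ Icc (-2 : ℝ) 2 := ⟨by linarith [a1.1, a3.2], by linarith [a1.2, a3.1]⟩
    unfold kt
    rw [indicator_of_mem m1, enorm_mul, mul_pow, hFn, hFn]
  have hktm := measurable_kt R hR
  have hKm : Measurable (Function.uncurry (fun x y : ℝ => kt R (x - y))) := by
    have g1 : Measurable (fun z : ℝ × ℝ => kt R (z.1 - z.2)) :=
      hktm.comp (by fun_prop)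
    simpa only [Function.uncurry_def] using g1
  refine (lintegral_mono (fun x => lintegral_mono (fun y => h2 x y))).trans ?_
  refine (schur volume F hFm (fun x y => kt R (x - y)) hKm ?_).trans ?_
  · intro x y
    have e1 : x - y = -(y - x) := by ring
    rw [e1, kt_neg]
  · refine mul_le_mul_right ?_ _
    have h3 : ∀ x : ℝ, ∫⁻ y : ℝ, ENNReal.ofReal (kt R (x - y)) =
        ENNReal.ofReal (16 * Real.pi * Real.exp 1 * Real.log (1 + Real.sqrt R)) := by
      intro x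
      rw [lintegral_sub_left_eq_self (fun y : ℝ => ENNReal.ofReal (kt R y)) x, lint_kt R hR]
    simp_rw [h3, hFn]
    rw [lintegral_mul_const' _ _ ENNReal.ofReal_ne_top, mul_comm]
    refine mul_le_mul_right ?_ _
    refine lintegral_mono (fun x => ?_)
    rw [← pow_mul]

/-- The one-dimensional logarithmic `L⁴` estimate. -/
theorem L41 (R : ℝ) (hR : 0 < R) (f : ℝ → ℂ) (hf : Integrable f) (hsupp : ∀ x : ℝ, 1 < |x| → f x = 0) :
    ∫⁻ b : ℝ, (∫⁻ p : ℝ, ‖T1 f p b‖ₑ ^ 4) * ENNReal.ofReal (g1 R b) ≤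
      ENNReal.ofReal (16 * Real.pi *
        (16 * Real.pi * Real.exp 1 * Real.log (1 + Real.sqrt R))) * ∫⁻ x, ‖f x‖ₑ ^ 4 := by
  have hA := planch_sq f hf
  have hm : AEMeasurable (fun z : ℝ × ℝ => ‖GG1 f z.1 z.2‖ₑ ^ 2 * ENNReal.ofReal (g1 R z.1))
      ((volume : Measure ℝ).prod volume) := by
    have h1 : AEStronglyMeasurable (fun z : ℝ × ℝ => GG1 f z.1 z.2)
        ((volume : Measure ℝ).prod volume) := by
      have h2 : AEStronglyMeasurable (fun y : (ℝ × ℝ) × ℝ =>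
          (f y.2 * f (y.1.2 - y.2)) * ph1 y.1.1 (y.2 ^ 2 + (y.1.2 - y.2) ^ 2))
          (((volume : Measure ℝ).prod volume).prod volume) := by
        refine AEStronglyMeasurable.mul ?_ ?_
        · have h3 : AEStronglyMeasurable (fun z : ℝ × ℝ => f z.2 * f (z.1 - z.2))
            ((volume : Measure ℝ).prod volume) :=
            hf.aestronglyMeasurable.convolution_integrand (ContinuousLinearMap.mul ℝ ℂ) hf.aestronglyMeasurable
          have hq : Measure.QuasiMeasurePreserving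
              (fun y : (ℝ × ℝ) × ℝ => (y.1.2, y.2))
              (((volume : Measure ℝ).prod volume).prod volume)
              ((volume : Measure ℝ).prod volume) := by
            have h5 := (measurePreserving_prodAssoc (volume : Measure ℝ) (volume : Measure ℝ)
              (volume : Measure ℝ)).quasiMeasurePreserving
            have h6 := (Measure.quasiMeasurePreserving_snd (μ := (volume : Measure ℝ))
              (ν := (volume : Measure ℝ).prod (volume : Measure ℝ))).comp h5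
            exact h6
          exact h3.comp_quasiMeasurePreserving hq
        · have hc1 : Continuous (fun y : (ℝ × ℝ) × ℝ => (y.1.1, y.2 ^ 2 + (y.1.2 - y.2) ^ 2)) := by
            fun_prop
          exact (continuous_ph1.comp hc1).aestronglyMeasurable
      exact h2.integral_prod_right'
    refine (h1.enorm.pow_const 2).mul ?_
    exact ((integrable_gauss R hR).aestronglyMeasurable.aemeasurable.ennreal_ofReal).comp_quasiMeasurePreserving
      Measure.quasiMeasurePreserving_fst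
  calc ∫⁻ b : ℝ, (∫⁻ p : ℝ, ‖T1 f p b‖ₑ ^ 4) * ENNReal.ofReal (g1 R b)
      ≤ ∫⁻ b : ℝ, (ENNReal.ofReal (4 * Real.pi) * ∫⁻ v, ‖GG1 f b v‖ₑ ^ 2) * ENNReal.ofReal (g1 R b) :=
        lintegral_mono (fun b => mul_le_mul_left (hA b) _)
    _ = ENNReal.ofReal (4 * Real.pi) * ∫⁻ b : ℝ, ∫⁻ v, ‖GG1 f b v‖ₑ ^ 2 * ENNReal.ofReal (g1 R b) := by
        rw [← lintegral_const_mul' _ _ ENNReal.ofReal_ne_top]
        refine lintegral_congr (fun b => ?_)
        rw [lintegral_mul_const' _ _ ENNReal.ofReal_ne_top, mul_assoc]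
    _ = ENNReal.ofReal (4 * Real.pi) * ∫⁻ v : ℝ, ∫⁻ b : ℝ, ‖GG1 f b v‖ₑ ^ 2 * ENNReal.ofReal (g1 R b) := by
        rw [lintegral_lintegral_swap hm]
    _ ≤ ENNReal.ofReal (4 * Real.pi) * ∫⁻ v : ℝ, 2 * ∫⁻ x, ‖f x * f (v - x)‖ₑ ^ 2 *
        ENNReal.ofReal (kap R (x - v / 2)) :=
        mul_le_mul_right (lintegral_mono (fun v => stepC1 R hR f v)) _
    _ ≤ ENNReal.ofReal (4 * Real.pi) * (2 * (2 * (ENNReal.ofReal (16 * Real.pi * Real.exp 1 *
        Real.log (1 + Real.sqrt R)) * ∫⁻ x, ‖f x‖ₑ ^ 4))) := by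
        refine mul_le_mul_right ?_ _
        rw [lintegral_const_mul' _ _ (by norm_num)]
        exact mul_le_mul_right (stepE1 R hR f hf.aestronglyMeasurable hsupp) _
    _ = _ := by
        have h4 : (2 : ℝ≥0∞) = ENNReal.ofReal 2 := by simp
        rw [h4, ← mul_assoc, ← mul_assoc, ← mul_assoc, ← ENNReal.ofReal_mul (by positivity),
          ← ENNReal.ofReal_mul (by positivity), ← ENNReal.ofReal_mul (by positivity)]
        congr 2
        ring

end X92.Ext
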