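import Pool.Agent.X92.Dir1
open MeasureTheory Set Complex
open scoped ENNReal ComplexConjugate

namespace X92.Ext

/-- Marcinkiewicz interpolation between `L²` and `L^∞`. -/
theorem marcInf {X Y : Type*} [MeasurableSpace X] [MeasurableSpace Y] (μ : Measure X) [SFinite μ]
    (ν : Measure Y) (q : ℝ) (hq2 : 2 < q) (A2 : ℝ≥0∞) (c : ℝ) (hc : 0 < c)
    (f : X → ℂ) (hf : Measurable f) (Tf : Y → ℂ) (hTf : AEStronglyMeasurable Tf ν)
    (U V : ℝ → Y → ℂ) (hsum : ∀ t > 0, ∀ y, Tf y = U t y + V t y)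
    (hUm : ∀ t > 0, AEStronglyMeasurable (U t) ν)
    (hU : ∀ t > 0, ∫⁻ y, ‖U t y‖ₑ ^ 2 ∂ν ≤
      A2 * ∫⁻ x, ({x | c * t < ‖f x‖}.indicator (fun x => ‖f x‖ₑ ^ 2) x) ∂μ)
    (hV : ∀ t > 0, ∀ y, ‖V t y‖ ≤ t / 2) :
    ∫⁻ y, ‖Tf y‖ₑ ^ q ∂ν ≤
      ENNReal.ofReal q * (4 * A2 * ENNReal.ofReal (c ^ (2 - q) / (q - 2))) * ∫⁻ x, ‖f x‖ₑ ^ q ∂μ := by
  have hq0 : 0 < q := by linarith
  have h0 : ∫⁻ y, ‖Tf y‖ₑ ^ q ∂ν = ∫⁻ y, ENNReal.ofReal (‖Tf y‖ ^ q) ∂ν := by
    refine lintegral_congr (fun y => ?_)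
    rw [← ofReal_norm, ENNReal.ofReal_rpow_of_nonneg (norm_nonneg _) hq0.le]
  rw [h0, lintegral_rpow_eq_lintegral_meas_lt_mul ν (Filter.Eventually.of_forall (fun y => norm_nonneg _))
    hTf.norm.aemeasurable hq0]
  rw [mul_assoc (ENNReal.ofReal q)]
  refine mul_le_mul_right ?_ _
  have hlev : ∀ t ∈ Ioi (0 : ℝ), ν {a | t < ‖Tf a‖} * ENNReal.ofReal (t ^ (q - 1)) ≤
      (∫⁻ x, (4 * A2 * ‖f x‖ₑ ^ 2) * (Iio (‖f x‖ / c)).indicator (fun t : ℝ => ENNReal.ofReal (t ^ (q - 3))) t ∂μ) := by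
    intro t ht
    have ht0 : (0 : ℝ) < t := ht
    have hsub : {a | t < ‖Tf a‖} ⊆ {a | ENNReal.ofReal ((t / 2) ^ 2) ≤ ‖U t a‖ₑ ^ 2} := by
      intro a ha
      have ha' : t < ‖Tf a‖ := ha
      have d2 : ‖V t a‖ ≤ t / 2 := hV t ht0 a
      have d3 : ‖Tf a‖ ≤ ‖U t a‖ + ‖V t a‖ := by rw [hsum t ht0 a]; exact norm_add_le _ _
      have hh : t / 2 ≤ ‖U t a‖ := by linarith
      rw [mem_ofPred_eq, ← ofReal_norm, ← ENNReal.ofReal_pow (norm_nonneg _)]
      exact ENNReal.ofReal_le_ofReal (pow_le_pow_left₀ (by positivity) hh 2)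
    have hm : ν {a | t < ‖Tf a‖} ≤ (∫⁻ y, ‖U t y‖ₑ ^ 2 ∂ν) / ENNReal.ofReal ((t / 2) ^ 2) := by
      refine (measure_mono hsub).trans ?_
      refine meas_ge_le_lintegral_div ((hUm t ht0).enorm.pow_const 2) ?_ ENNReal.ofReal_ne_top
      exact (ENNReal.ofReal_pos.2 (by positivity)).ne'
    refine (mul_le_mul_left hm _).trans ?_
    have e1 : (∫⁻ y, ‖U t y‖ₑ ^ 2 ∂ν) / ENNReal.ofReal ((t / 2) ^ 2) * ENNReal.ofReal (t ^ (q - 1)) =
        (∫⁻ y, ‖U t y‖ₑ ^ 2 ∂ν) * (4 * ENNReal.ofReal (t ^ (q - 3))) := by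
      rw [div_eq_mul_inv, mul_assoc]
      congr 1
      rw [← ENNReal.ofReal_inv_of_pos (by positivity), ← ENNReal.ofReal_mul (by positivity)]
      have h4 : (4 : ℝ≥0∞) = ENNReal.ofReal 4 := by simp
      rw [h4, ← ENNReal.ofReal_mul (by norm_num)]
      congr 1
      have : t ^ (q - 1) = t ^ 2 * t ^ (q - 3) := by
        rw [← Real.rpow_natCast t 2, ← Real.rpow_add ht0]
        congr 1; push_cast; ring
      rw [this]
      field_simp
      norm_num
    rw [e1]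
    refine (mul_le_mul_left (hU t ht0) _).trans (le_of_eq ?_)
    have e2 : ∀ x, (4 * A2 * ‖f x‖ₑ ^ 2) * (Iio (‖f x‖ / c)).indicator (fun t : ℝ => ENNReal.ofReal (t ^ (q - 3))) t =
        ({x | c * t < ‖f x‖}.indicator (fun x => ‖f x‖ₑ ^ 2) x) * (A2 * (4 * ENNReal.ofReal (t ^ (q - 3)))) := by
      intro x
      by_cases hx : c * t < ‖f x‖
      · have hx2 : t ∈ Iio (‖f x‖ / c) := by
          rw [mem_Iio, lt_div_iff₀ hc]; linarith
        rw [indicator_of_mem hx2, indicator_of_mem (show x ∈ {x | c * t < ‖f x‖} from hx)]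
        ring
      · have hx2 : t ∉ Iio (‖f x‖ / c) := by
          rw [mem_Iio, lt_div_iff₀ hc]; intro h; apply hx; linarith
        rw [indicator_of_notMem hx2, indicator_of_notMem (show x ∉ {x | c * t < ‖f x‖} from hx)]
        simp
    simp_rw [e2]
    rw [lintegral_mul_const]
    · ring
    · exact (hf.enorm.pow_const 2).indicator (measurableSet_lt measurable_const hf.norm)
  have hmlow : Measurable (fun z : ℝ × X => (4 * A2 * ‖f z.2‖ₑ ^ 2) *
      (Iio (‖f z.2‖ / c)).indicator (fun t : ℝ => ENNReal.ofReal (t ^ (q - 3))) z.1) := by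
    refine Measurable.mul ?_ ?_
    · exact ((hf.comp measurable_snd).enorm.pow_const 2).const_mul _
    · have : (fun z : ℝ × X => (Iio (‖f z.2‖ / c)).indicator (fun t : ℝ => ENNReal.ofReal (t ^ (q - 3))) z.1) =
          {z : ℝ × X | z.1 < ‖f z.2‖ / c}.indicator (fun z => ENNReal.ofReal (z.1 ^ (q - 3))) := by
        ext z
        by_cases hz : z.1 < ‖f z.2‖ / c
        · rw [indicator_of_mem (show z.1 ∈ Iio (‖f z.2‖ / c) from hz),
            indicator_of_mem (show z ∈ {z : ℝ × X | z.1 < ‖f z.2‖ / c} from hz)]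
        · rw [indicator_of_notMem (show z.1 ∉ Iio (‖f z.2‖ / c) from hz),
            indicator_of_notMem (show z ∉ {z : ℝ × X | z.1 < ‖f z.2‖ / c} from hz)]
      rw [this]
      refine Measurable.indicator ?_ ?_
      · exact ENNReal.measurable_ofReal.comp (measurable_fst.pow_const _)
      · exact measurableSet_lt measurable_fst ((hf.comp measurable_snd).norm.div_const c)
  refine (setLIntegral_mono' measurableSet_Ioi hlev).trans ?_
  rw [lintegral_lintegral_swap hmlow.aemeasurable, ← lintegral_const_mul _ ((hf.enorm.pow_const q))]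
  refine lintegral_mono (fun x => ?_)
  dsimp only
  rw [lintegral_const_mul]
  swap
  · exact (ENNReal.measurable_ofReal.comp (measurable_id.pow_const _)).indicator measurableSet_Iio
  rw [low_int q hq2 _ (by positivity), mul_assoc, mul_assoc (4 * A2)]
  refine mul_le_mul_right (le_of_eq ?_) _
  rw [← ofReal_norm, ← ENNReal.ofReal_pow (norm_nonneg _), ENNReal.ofReal_rpow_of_nonneg (norm_nonneg _) hq0.le,
    ← ENNReal.ofReal_mul (by positivity), ← ENNReal.ofReal_mul (by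
      have : 0 < q - 2 := by linarith
      positivity)]
  congr 1
  rcases eq_or_lt_of_le (norm_nonneg (f x)) with h | h
  · rw [← h, Real.zero_rpow hq0.ne']; simp
  · rw [Real.div_rpow h.le hc.le]
    have e3 : ‖f x‖ ^ q = ‖f x‖ ^ 2 * ‖f x‖ ^ (q - 2) := by
      rw [← Real.rpow_natCast (‖f x‖) 2, ← Real.rpow_add h]
      congr 1; push_cast; ring
    have e4 : c ^ (2 - q) = (c ^ (q - 2))⁻¹ := by
      rw [← Real.rpow_neg hc.le]; congr 1; ring
    rw [e3, e4]
    ring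

/-- Interpolation for kernel operators bounded on `L²` and `L^∞`. -/
theorem kint (q : ℝ) (hq2 : 2 < q) (k : ℝ → ℝ → ℂ) (hk : Measurable (fun z : ℝ × ℝ => k z.1 z.2))
    (hk1 : ∀ p y, ‖k p y‖ ≤ 1) (A2 : ℝ≥0∞) (L : ℝ) (hL : 0 < L) (B : Set ℝ) (hB : MeasurableSet B)
    (h2 : ∀ S : ℝ → ℂ, Measurable S → Integrable S →
      ∫⁻ p : ℝ, ‖∫ y, S y * k p y‖ₑ ^ 2 ≤ A2 * ∫⁻ y, ‖S y‖ₑ ^ 2)
    (hinf : ∀ p, ∫⁻ y in B, ‖k p y‖ₑ ≤ ENNReal.ofReal L)
    (S : ℝ → ℂ) (hSm : Measurable S) (hSi : Integrable S) (hSB : ∀ y, y ∉ B → S y = 0) :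
    ∫⁻ p : ℝ, ‖∫ y, S y * k p y‖ₑ ^ q ≤
      ENNReal.ofReal q * (4 * A2 * ENNReal.ofReal ((2 * L) ^ (q - 2) / (q - 2))) * ∫⁻ y, ‖S y‖ₑ ^ q := by
  have hc : 0 < (2 * L)⁻¹ := by positivity
  have hPm : ∀ S : ℝ → ℂ, Measurable S → AEStronglyMeasurable (fun p : ℝ => ∫ y, S y * k p y) := by
    intro S hS
    have h : Measurable (fun z : ℝ × ℝ => S z.2 * k z.1 z.2) := (hS.comp measurable_snd).mul hk
    exact (h.stronglyMeasurable.integral_prod_right').aestronglyMeasurable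
  have hint : ∀ S : ℝ → ℂ, Integrable S → ∀ p, Integrable (fun y => S y * k p y) := by
    intro S hS p
    have hkp : Measurable (fun y => k p y) := hk.comp (measurable_const.prodMk measurable_id)
    have h := hS.bdd_mul (c := 1) (f := fun y => k p y) hkp.aestronglyMeasurable
      (Filter.Eventually.of_forall (fun y => hk1 p y))
    refine h.congr (Filter.Eventually.of_forall (fun x => ?_))
    simp only
    ring
  have hm1 : ∀ s : ℝ, MeasurableSet {x : ℝ | (2 * L)⁻¹ * s < ‖S x‖} := fun s =>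
    measurableSet_lt measurable_const hSm.norm
  have key := marcInf (X := ℝ) (Y := ℝ) volume volume q hq2 A2 (2 * L)⁻¹ hc S hSm
    (fun p => ∫ y, S y * k p y) (hPm S hSm)
    (fun s p => ∫ y, ({x : ℝ | (2 * L)⁻¹ * s < ‖S x‖}.indicator S y) * k p y)
    (fun s p => ∫ y, ({x : ℝ | (2 * L)⁻¹ * s < ‖S x‖}ᶜ.indicator S y) * k p y)
    ?_ ?_ ?_ ?_
  · refine key.trans (le_of_eq ?_)
    congr 4
    rw [Real.inv_rpow (by positivity), ← Real.rpow_neg (by positivity)]
    congr 2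
    ring
  · intro s hs p
    rw [← integral_add (hint _ (hSi.indicator (hm1 s)) p) (hint _ (hSi.indicator (hm1 s).compl) p)]
    congr 1
    ext y
    rw [← add_mul, indicator_self_add_compl_apply]
  · intro s hs
    exact hPm _ (hSm.indicator (hm1 s))
  · intro s hs
    refine (h2 _ (hSm.indicator (hm1 s)) (hSi.indicator (hm1 s))).trans (le_of_eq ?_)
    congr 1
    refine lintegral_congr (fun y => ?_)
    by_cases hy : y ∈ {x : ℝ | (2 * L)⁻¹ * s < ‖S x‖}
    · rw [indicator_of_mem hy, indicator_of_mem hy]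
    · rw [indicator_of_notMem hy, indicator_of_notMem hy]; simp
  · intro s hs p
    have hb : ∀ y, ‖({x : ℝ | (2 * L)⁻¹ * s < ‖S x‖}ᶜ.indicator S y)‖ₑ ≤
        B.indicator (fun _ => ENNReal.ofReal ((2 * L)⁻¹ * s)) y := by
      intro y
      by_cases hyB : y ∈ B
      · rw [indicator_of_mem hyB]
        by_cases hy : y ∈ {x : ℝ | (2 * L)⁻¹ * s < ‖S x‖}ᶜ
        · rw [indicator_of_mem hy, ← ofReal_norm]
          refine ENNReal.ofReal_le_ofReal ?_
          have : ¬ ((2 * L)⁻¹ * s < ‖S y‖) := hy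
          exact not_lt.1 this
        · rw [indicator_of_notMem hy]; simp
      · rw [indicator_of_notMem hyB]
        by_cases hy : y ∈ {x : ℝ | (2 * L)⁻¹ * s < ‖S x‖}ᶜ
        · rw [indicator_of_mem hy, hSB y hyB]; simp
        · rw [indicator_of_notMem hy]; simp
    have h3 : ‖∫ y, ({x : ℝ | (2 * L)⁻¹ * s < ‖S x‖}ᶜ.indicator S y) * k p y‖ₑ ≤ ENNReal.ofReal (s / 2) := by
      refine (enorm_integral_le_lintegral_enorm _).trans ?_
      calc ∫⁻ y, ‖({x : ℝ | (2 * L)⁻¹ * s < ‖S x‖}ᶜ.indicator S y) * k p y‖ₑ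
          ≤ ∫⁻ y, ENNReal.ofReal ((2 * L)⁻¹ * s) * B.indicator (fun y => ‖k p y‖ₑ) y := by
            refine lintegral_mono (fun y => ?_)
            rw [enorm_mul]
            refine (mul_le_mul_left (hb y) _).trans (le_of_eq ?_)
            by_cases hyB : y ∈ B
            · rw [indicator_of_mem hyB, indicator_of_mem hyB]
            · rw [indicator_of_notMem hyB, indicator_of_notMem hyB]; simp
        _ = ENNReal.ofReal ((2 * L)⁻¹ * s) * ∫⁻ y in B, ‖k p y‖ₑ := by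
            rw [lintegral_const_mul' _ _ ENNReal.ofReal_ne_top, lintegral_indicator hB]
        _ ≤ ENNReal.ofReal ((2 * L)⁻¹ * s) * ENNReal.ofReal L := mul_le_mul_right (hinf p) _
        _ = _ := by
            rw [← ENNReal.ofReal_mul (by positivity)]
            congr 1
            field_simp
    rw [← ofReal_norm] at h3
    exact (ENNReal.ofReal_le_ofReal_iff (by positivity)).1 h3

end X92.Ext
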