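import Pool.Agent.X92.Dir2
open MeasureTheory Set Complex ProbabilityTheory
open scoped ENNReal ComplexConjugate NNReal

namespace X92.Ext

theorem cont_ph1 {Z : Type*} [TopologicalSpace Z] (a b : Z → ℝ) (ha : Continuous a) (hb : Continuous b) :
    Continuous (fun z => ph1 (a z) (b z)) := continuous_ph1.comp (ha.prodMk hb)

theorem cont_pp {Z : Type*} [TopologicalSpace Z] (a b c d : Z → ℝ) (ha : Continuous a) (hb : Continuous b)
    (hc : Continuous c) (hd : Continuous d) :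
    Continuous (fun z => ph1 (a z) (b z) * ph1 (c z) (d z)) := (cont_ph1 a b ha hb).mul (cont_ph1 c d hc hd)

/-- The Gaussian superposition kernel. -/
noncomputable def KV (v : ℝ≥0) (t p y : ℝ) : ℂ :=
  ∫ η, ph1 p (y + η) * ph1 t ((y + η) ^ 2) ∂(gaussianReal 0 v)

theorem KV_norm (v : ℝ≥0) (hv : v ≠ 0) (t p y : ℝ) :
    ‖KV v t p y‖ = Real.sqrt (1 / Real.sqrt (1 + 4 * v ^ 2 * t ^ 2)) *
      Real.exp (-((p + 2 * t * y) ^ 2 * v / (2 * (1 + 4 * v ^ 2 * t ^ 2)))) := by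
  have hv0 : (0 : ℝ) < v := NNReal.coe_pos.2 (pos_iff_ne_zero.2 hv)
  set D : ℝ := 1 + 4 * v ^ 2 * t ^ 2 with hD
  have hD0 : 0 < D := by positivity
  set b : ℂ := -(((2 * (v : ℝ))⁻¹ : ℝ) + (t : ℂ) * I) with hb
  set z : ℝ := p + 2 * t * y with hz
  have hbre : b.re < 0 := by
    have : b.re = -(2 * (v : ℝ))⁻¹ := by simp [hb]
    rw [this]
    have : 0 < (2 * (v : ℝ))⁻¹ := by positivity
    linarith
  have hb0 : b ≠ 0 := by intro h; rw [h] at hbre; simp at hbre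
  have h1 : KV v t p y = ((Real.sqrt (2 * Real.pi * v))⁻¹ : ℝ) *
      ∫ η : ℝ, cexp (b * η ^ 2 + (-(I * z)) * η + (-(I * ((p * y + t * y ^ 2 : ℝ) : ℂ)))) := by
    unfold KV
    rw [integral_gaussianReal_eq_integral_smul hv, ← integral_const_mul]
    congr 1
    ext η
    rw [gaussianPDFReal, ph1, ph1, Complex.real_smul, ← Complex.exp_add]
    push_cast
    rw [mul_assoc, ← Complex.exp_add]
    congr 2
    rw [hb, hz]
    have hvc : ((v : ℝ) : ℂ) ≠ 0 := by exact_mod_cast hv0.ne'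
    push_cast
    field_simp
    ring
  rw [h1, integral_cexp_quadratic hbre, norm_mul, norm_mul]
  have hnb : ‖b‖ = Real.sqrt D / (2 * v) := by
    rw [hb, norm_neg, Complex.norm_add_mul_I]
    have : ((2 * (v : ℝ))⁻¹) ^ 2 + t ^ 2 = D / (2 * v) ^ 2 := by
      rw [hD]; field_simp; ring
    rw [this, Real.sqrt_div hD0.le, Real.sqrt_sq (by positivity)]
  have h2 : ‖((Real.pi : ℂ) / -b) ^ (1 / 2 : ℂ)‖ = Real.sqrt (Real.pi * (2 * v) / Real.sqrt D) := by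
    have : (1 / 2 : ℂ) = (((1 / 2 : ℝ)) : ℂ) := by push_cast; ring
    rw [this, norm_cpow_real, norm_div, norm_neg, hnb, Complex.norm_real,
      Real.norm_of_nonneg Real.pi_pos.le, ← Real.sqrt_eq_rpow]
    congr 1
    field_simp
  rw [h2]
  have h3 : (-(I * ((p * y + t * y ^ 2 : ℝ) : ℂ))) - (-(I * z)) ^ 2 / (4 * b) =
      ((-(z ^ 2 * v / (2 * D)) : ℝ) : ℂ) + ((-(p * y + t * y ^ 2) + z ^ 2 * t * v ^ 2 / D : ℝ) : ℂ) * I := by
    have hinv : (1 : ℂ) / b = -((((2 * (v : ℝ))⁻¹ : ℝ) : ℂ) - (t : ℂ) * I) * ((4 * v ^ 2 / D : ℝ) : ℂ) := by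
      rw [div_eq_iff hb0, hb]
      have hI : I ^ 2 = -1 := Complex.I_sq
      have e : -((((2 * (v : ℝ))⁻¹ : ℝ) : ℂ) - (t : ℂ) * I) * ((4 * v ^ 2 / D : ℝ) : ℂ) *
          -((((2 * (v : ℝ))⁻¹ : ℝ) : ℂ) + (t : ℂ) * I) =
          (((((2 * (v : ℝ))⁻¹) ^ 2 + t ^ 2) * (4 * v ^ 2 / D) : ℝ) : ℂ) := by
        push_cast
        ring_nf
        rw [hI]
        ring
      rw [e]
      have e2 : (((2 * (v : ℝ))⁻¹) ^ 2 + t ^ 2) * (4 * v ^ 2 / D) = 1 := by
        have : ((2 * (v : ℝ))⁻¹) ^ 2 + t ^ 2 = D / (4 * v ^ 2) := by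
          rw [hD]; field_simp; ring
        rw [this]
        field_simp
      rw [e2]
      simp
    have e3 : (-(I * (z : ℂ))) ^ 2 / (4 * b) = -((z : ℂ) ^ 2) / 4 * (1 / b) := by
      have hI : I ^ 2 = -1 := Complex.I_sq
      rw [neg_sq, mul_pow, hI]
      field_simp
    rw [e3, hinv]
    have hvc : ((v : ℝ) : ℂ) ≠ 0 := by exact_mod_cast hv0.ne'
    have hDc : ((D : ℝ) : ℂ) ≠ 0 := by exact_mod_cast hD0.ne'
    push_cast
    field_simp
    ring
  rw [h3, Complex.norm_exp]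
  have h4 : ((((-(z ^ 2 * v / (2 * D)) : ℝ) : ℂ) +
      ((-(p * y + t * y ^ 2) + z ^ 2 * t * v ^ 2 / D : ℝ) : ℂ) * I)).re = -(z ^ 2 * v / (2 * D)) := by
    simp only [Complex.add_re, Complex.ofReal_re, Complex.re_ofReal_mul, Complex.I_re, mul_zero, add_zero]
  rw [h4, ← mul_assoc]
  congr 1
  rw [Complex.norm_real, Real.norm_of_nonneg (by positivity), ← Real.sqrt_inv, ← Real.sqrt_mul (by positivity)]
  congr 1
  have : 0 < Real.sqrt D := Real.sqrt_pos.2 hD0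
  field_simp

theorem norm_KV_le (v : ℝ≥0) (t p y : ℝ) : ‖KV v t p y‖ ≤ 1 := by
  unfold KV
  refine (norm_integral_le_of_norm_le_const (C := 1) (Filter.Eventually.of_forall (fun η => ?_))).trans ?_
  · rw [norm_mul, norm_ph1, norm_ph1, one_mul]
  · simp

theorem measurable_KV (v : ℝ≥0) (t : ℝ) : Measurable (fun z : ℝ × ℝ => KV v t z.1 z.2) := by
  have hc : Continuous (fun w : (ℝ × ℝ) × ℝ => ph1 w.1.1 (w.1.2 + w.2) * ph1 t ((w.1.2 + w.2) ^ 2)) :=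
    cont_pp _ _ _ _ (by fun_prop) (by fun_prop) (by fun_prop) (by fun_prop)
  exact (hc.measurable.stronglyMeasurable.integral_prod_right'
    (ν := gaussianReal 0 v)).measurable

theorem KV_int (v : ℝ≥0) (hv : v ≠ 0) (t R : ℝ) (hR : 0 < R) (hRt : R ≤ |t|) (p : ℝ) :
    ∫⁻ y, ‖KV v t p y‖ₑ ≤ ENNReal.ofReal (2 * (1 / (R * Real.sqrt v) + 1 / Real.sqrt R)) := by
  have hv0 : (0 : ℝ) < v := NNReal.coe_pos.2 (pos_iff_ne_zero.2 hv)
  have ht0 : t ≠ 0 := by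
    intro h; rw [h, abs_zero] at hRt; linarith
  have hta : 0 < |t| := abs_pos.2 ht0
  set D : ℝ := 1 + 4 * v ^ 2 * t ^ 2 with hD
  have hD0 : 0 < D := by positivity
  set β : ℝ := (2 * t) ^ 2 * v / (2 * D) with hβ
  have hβ0 : 0 < β := by positivity
  have h1 : ∀ y, ‖KV v t p y‖ₑ = ENNReal.ofReal (Real.sqrt (1 / Real.sqrt D) *
      Real.exp (-β * (y + p / (2 * t)) ^ 2)) := by
    intro y
    rw [← ofReal_norm, KV_norm v hv]
    congr 3
    rw [hβ, ← hD]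
    field_simp
    ring
  simp_rw [h1]
  have hint : Integrable (fun y : ℝ => Real.exp (-β * (y + p / (2 * t)) ^ 2)) := by
    exact (integrable_exp_neg_mul_sq hβ0).comp_add_right (p / (2 * t))
  rw [← ofReal_integral_eq_lintegral_ofReal (hint.const_mul _)
    (Filter.Eventually.of_forall (fun y => by positivity)), integral_const_mul,
    integral_add_right_eq_self (fun y : ℝ => Real.exp (-β * y ^ 2)) (p / (2 * t)), integral_gaussian,
    ← Real.sqrt_mul (by positivity)]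
  refine ENNReal.ofReal_le_ofReal ?_
  have hs : Real.sqrt D ≤ 1 + 2 * v * |t| := by
    rw [Real.sqrt_le_left (by positivity), hD]
    have : (2 * v * |t|) ^ 2 = 4 * v ^ 2 * t ^ 2 := by rw [mul_pow, mul_pow, sq_abs]; ring
    nlinarith [this, mul_pos hv0 hta]
  have hsD : 0 < Real.sqrt D := Real.sqrt_pos.2 hD0
  have h2 : 1 / Real.sqrt D * (Real.pi / β) = Real.pi * Real.sqrt D / (2 * t ^ 2 * v) := by
    have hDD : D = Real.sqrt D * Real.sqrt D := (Real.mul_self_sqrt hD0.le).symm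
    rw [hβ]
    calc 1 / Real.sqrt D * (Real.pi / ((2 * t) ^ 2 * v / (2 * D))) =
        Real.pi * (D / Real.sqrt D) / (2 * t ^ 2 * v) := by field_simp
      _ = _ := by
        congr 2
        rw [div_eq_iff hsD.ne']
        exact hDD
  rw [h2]
  have h3 : Real.pi * Real.sqrt D / (2 * t ^ 2 * v) ≤ (2 * (1 / (R * Real.sqrt v))) ^ 2 + (2 * (1 / Real.sqrt R)) ^ 2 := by
    have hpi : Real.pi ≤ 4 := Real.pi_le_four
    have e1 : Real.pi * Real.sqrt D / (2 * t ^ 2 * v) ≤ 4 * (1 + 2 * v * |t|) / (2 * t ^ 2 * v) := by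
      gcongr
    have e2 : 4 * (1 + 2 * v * |t|) / (2 * t ^ 2 * v) = 2 / (|t| ^ 2 * v) + 4 / |t| := by
      rw [← sq_abs t]
      field_simp
      ring
    have e3 : (2 * (1 / (R * Real.sqrt v))) ^ 2 = 4 / (R ^ 2 * v) := by
      rw [mul_pow, div_pow, mul_pow, Real.sq_sqrt hv0.le]; ring
    have e4 : (2 * (1 / Real.sqrt R)) ^ 2 = 4 / R := by
      rw [mul_pow, div_pow, Real.sq_sqrt hR.le]; ring
    rw [e3, e4]
    refine e1.trans ?_
    rw [e2]
    have e5 : 2 / (|t| ^ 2 * v) ≤ 4 / (R ^ 2 * v) := by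
      refine div_le_div₀ (by norm_num) (by norm_num) (by positivity) ?_
      gcongr
    have e6 : 4 / |t| ≤ 4 / R := by gcongr
    linarith
  have hx : 0 ≤ 2 * (1 / (R * Real.sqrt v)) := by positivity
  have hy : 0 ≤ 2 * (1 / Real.sqrt R) := by positivity
  rw [mul_add]
  rw [Real.sqrt_le_left (by positivity)]
  nlinarith [mul_nonneg hx hy]

theorem jens {Ω : Type*} [MeasurableSpace Ω] (γ : Measure Ω) [IsProbabilityMeasure γ] (q : ℝ) (hq : 1 ≤ q)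
    (F : Ω → ℂ) (hF : AEStronglyMeasurable F γ) :
    (∫⁻ η, ‖F η‖ₑ ∂γ) ^ q ≤ ∫⁻ η, ‖F η‖ₑ ^ q ∂γ := by
  have h := eLpNorm'_le_eLpNorm'_of_exponent_le (p := 1) (q := q) one_pos hq γ hF
  have h2 : eLpNorm' F 1 γ = ∫⁻ η, ‖F η‖ₑ ∂γ := by simp [eLpNorm']
  rw [h2] at h
  refine (ENNReal.rpow_le_rpow h (by linarith : (0 : ℝ) ≤ q)).trans (le_of_eq ?_)
  rw [eLpNorm', ← ENNReal.rpow_mul, one_div, inv_mul_cancel₀ (by linarith), ENNReal.rpow_one]

theorem jensI {Ω : Type*} [MeasurableSpace Ω] (γ : Measure Ω) [IsProbabilityMeasure γ] (q : ℝ) (hq : 1 ≤ q)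
    (F : Ω → ℂ) (hF : AEStronglyMeasurable F γ) :
    ‖∫ η, F η ∂γ‖ₑ ^ q ≤ ∫⁻ η, ‖F η‖ₑ ^ q ∂γ :=
  (ENNReal.rpow_le_rpow (enorm_integral_le_lintegral_enorm _) (by linarith)).trans (jens γ q hq F hF)

/-- translation in one dimension -/
noncomputable def Q1 (S : ℝ → ℂ) (t η p : ℝ) : ℂ := ∫ y, S y * (ph1 p (y + η) * ph1 t ((y + η) ^ 2))

theorem Q1_L2 (S : ℝ → ℂ) (hSi : Integrable S) (t η : ℝ) :
    ∫⁻ p : ℝ, ‖Q1 S t η p‖ₑ ^ 2 ≤ ENNReal.ofReal (4 * Real.pi) * ∫⁻ y, ‖S y‖ₑ ^ 2 := by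
  have h1 : ∀ p, Q1 S t η p = ∫ x, (S (x - η) * ph1 t (x ^ 2)) * ph1 p x := by
    intro p
    unfold Q1
    rw [← integral_add_right_eq_self (fun x => (S (x - η) * ph1 t (x ^ 2)) * ph1 p x) η]
    congr 1
    ext y
    rw [add_sub_cancel_right]
    ring
  simp_rw [h1]
  have h2 : Integrable (fun x => S (x - η) * ph1 t (x ^ 2)) :=
    integrable_mod1 (fun x => S (x - η)) (hSi.comp_sub_right η) t (fun x => x ^ 2) (by fun_prop)
  refine (planch1 _ h2).trans (mul_le_mul_right (le_of_eq ?_) _)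
  rw [← lintegral_sub_right_eq_self (fun y => ‖S y‖ₑ ^ 2) η]
  refine lintegral_congr (fun x => ?_)
  rw [enorm_mul]
  have : ‖ph1 t (x ^ 2)‖ₑ = 1 := by rw [← ofReal_norm, norm_ph1]; simp
  rw [this, mul_one]

theorem measurable_Q1 (S : ℝ → ℂ) (hS : Measurable S) (t : ℝ) :
    Measurable (fun z : ℝ × ℝ => Q1 S t z.1 z.2) := by
  have hc : Continuous (fun w : (ℝ × ℝ) × ℝ => ph1 w.1.2 (w.2 + w.1.1) * ph1 t ((w.2 + w.1.1) ^ 2)) :=
    cont_pp _ _ _ _ (by fun_prop) (by fun_prop) (by fun_prop) (by fun_prop)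
  have h := (hS.comp (measurable_snd : Measurable (fun w : (ℝ × ℝ) × ℝ => w.2))).mul hc.measurable
  exact (h.stronglyMeasurable.integral_prod_right').measurable

theorem KV_fub (S : ℝ → ℂ) (hSi : Integrable S) (v : ℝ≥0) (t p : ℝ) :
    ∫ y, S y * KV v t p y = ∫ η, Q1 S t η p ∂(gaussianReal 0 v) := by
  unfold KV Q1
  have h : Integrable (Function.uncurry (fun y η : ℝ => S y * (ph1 p (y + η) * ph1 t ((y + η) ^ 2))))
      ((volume : Measure ℝ).prod (gaussianReal 0 v)) := by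
    have hc : Continuous (fun w : ℝ × ℝ => ph1 p (w.1 + w.2) * ph1 t ((w.1 + w.2) ^ 2)) :=
      cont_pp _ _ _ _ (by fun_prop) (by fun_prop) (by fun_prop) (by fun_prop)
    have h0 : Integrable (fun w : ℝ × ℝ => S w.1) ((volume : Measure ℝ).prod (gaussianReal 0 v)) :=
      hSi.comp_fst _
    have h1 := h0.bdd_mul (c := 1) (f := fun w : ℝ × ℝ => ph1 p (w.1 + w.2) * ph1 t ((w.1 + w.2) ^ 2))
      hc.aestronglyMeasurable (Filter.Eventually.of_forall (fun y => by rw [norm_mul, norm_ph1, norm_ph1, one_mul]))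
    refine h1.congr (Filter.Eventually.of_forall (fun x => ?_))
    simp only [Function.uncurry]
    ring
  rw [← integral_integral_swap h]
  congr 1
  ext y
  rw [← integral_const_mul]

theorem KV_L2 (v : ℝ≥0) (t : ℝ) (S : ℝ → ℂ) (hSm : Measurable S) (hSi : Integrable S) :
    ∫⁻ p : ℝ, ‖∫ y, S y * KV v t p y‖ₑ ^ 2 ≤ ENNReal.ofReal (4 * Real.pi) * ∫⁻ y, ‖S y‖ₑ ^ 2 := by
  simp_rw [KV_fub S hSi v t]
  have hm := measurable_Q1 S hSm t
  calc ∫⁻ p : ℝ, ‖∫ η, Q1 S t η p ∂(gaussianReal 0 v)‖ₑ ^ 2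
      ≤ ∫⁻ p : ℝ, ∫⁻ η, ‖Q1 S t η p‖ₑ ^ 2 ∂(gaussianReal 0 v) := by
        refine lintegral_mono (fun p => ?_)
        have h := jensI (gaussianReal 0 v) 2 (by norm_num) (fun η => Q1 S t η p)
          (hm.comp (measurable_id.prodMk measurable_const)).aestronglyMeasurable
        simpa only [ENNReal.rpow_two] using h
    _ = ∫⁻ η, (∫⁻ p : ℝ, ‖Q1 S t η p‖ₑ ^ 2) ∂(gaussianReal 0 v) := by
        refine lintegral_lintegral_swap ?_
        exact ((hm.comp measurable_swap).enorm.pow_const 2).aemeasurable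
    _ ≤ ∫⁻ η, (ENNReal.ofReal (4 * Real.pi) * ∫⁻ y, ‖S y‖ₑ ^ 2) ∂(gaussianReal 0 v) :=
        lintegral_mono (fun η => Q1_L2 S hSi t η)
    _ = _ := by rw [lintegral_const, measure_univ, mul_one]

/-- one-dimensional smoothing estimate -/
theorem smooth1 (q : ℝ) (hq2 : 2 < q) (v : ℝ≥0) (hv : v ≠ 0) (t R : ℝ) (hR : 0 < R) (hRt : R ≤ |t|)
    (S : ℝ → ℂ) (hSm : Measurable S) (hSi : Integrable S) :
    ∫⁻ p : ℝ, ‖∫ y, S y * KV v t p y‖ₑ ^ q ≤
      ENNReal.ofReal q * (4 * ENNReal.ofReal (4 * Real.pi) *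
        ENNReal.ofReal ((2 * (2 * (1 / (R * Real.sqrt v) + 1 / Real.sqrt R))) ^ (q - 2) / (q - 2))) *
        ∫⁻ y, ‖S y‖ₑ ^ q := by
  have hv0 : (0 : ℝ) < v := NNReal.coe_pos.2 (pos_iff_ne_zero.2 hv)
  have hsv : 0 < Real.sqrt v := Real.sqrt_pos.2 hv0
  refine kint q hq2 (KV v t) (measurable_KV v t) (norm_KV_le v t) _ _ (by positivity) univ
    MeasurableSet.univ (KV_L2 v t) ?_ S hSm hSi (fun y hy => absurd (mem_univ y) hy)
  intro p
  rw [Measure.restrict_univ]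
  exact KV_int v hv t R hR hRt p

/-- one-dimensional estimate, compact case -/
theorem comp1 (q : ℝ) (hq2 : 2 < q) (t : ℝ) (B : Set ℝ) (hB : MeasurableSet B) (hBv : volume B ≤ 4)
    (S : ℝ → ℂ) (hSm : Measurable S) (hSi : Integrable S) (hSB : ∀ y, y ∉ B → S y = 0) :
    ∫⁻ p : ℝ, ‖∫ y, S y * (ph1 p y * ph1 t (y ^ 2))‖ₑ ^ q ≤
      ENNReal.ofReal q * (4 * ENNReal.ofReal (4 * Real.pi) *
        ENNReal.ofReal ((2 * 4) ^ (q - 2) / (q - 2))) * ∫⁻ y, ‖S y‖ₑ ^ q := by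
  refine kint q hq2 (fun p y => ph1 p y * ph1 t (y ^ 2)) ?_ ?_ _ _ (by norm_num) B hB ?_ ?_ S hSm hSi hSB
  · have hc : Continuous (fun w : ℝ × ℝ => ph1 w.1 w.2 * ph1 t (w.2 ^ 2)) :=
      cont_pp _ _ _ _ (by fun_prop) (by fun_prop) (by fun_prop) (by fun_prop)
    exact hc.measurable
  · intro p y
    rw [norm_mul, norm_ph1, norm_ph1, one_mul]
  · intro S hSm hSi
    have h := Q1_L2 S hSi t 0
    simpa only [Q1, add_zero] using h
  · intro p
    have : ∀ y, ‖ph1 p y * ph1 t (y ^ 2)‖ₑ = 1 := by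
      intro y
      rw [← ofReal_norm, norm_mul, norm_ph1, norm_ph1, one_mul, ENNReal.ofReal_one]
    simp_rw [this]
    simp only [lintegral_const, Measure.restrict_apply MeasurableSet.univ, univ_inter, one_mul]
    refine hBv.trans (le_of_eq ?_)
    simp

end X92.Ext
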