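import Pool.Agent.X92.Dir3
open MeasureTheory Set Complex ProbabilityTheory
open scoped ENNReal ComplexConjugate NNReal

namespace X92.Ext

theorem measurable_T1 {Z : Type*} [MeasurableSpace Z] (g : Z → ℝ → ℂ)
    (hg : Measurable (fun w : Z × ℝ => g w.1 w.2)) (a b : Z → ℝ) (ha : Measurable a) (hb : Measurable b) :
    Measurable (fun z => T1 (g z) (a z) (b z)) := by
  have hc : Continuous (fun w : (ℝ × ℝ) × ℝ => ph1 w.1.1 w.2 * ph1 w.1.2 (w.2 ^ 2)) :=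
    cont_pp (fun w : (ℝ × ℝ) × ℝ => w.1.1) (fun w : (ℝ × ℝ) × ℝ => w.2) (fun w : (ℝ × ℝ) × ℝ => w.1.2)
      (fun w : (ℝ × ℝ) × ℝ => w.2 ^ 2) (by fun_prop) (by fun_prop) (by fun_prop) (by fun_prop)
  have h1 : Measurable (fun w : Z × ℝ => ((a w.1, b w.1), w.2)) :=
    ((ha.comp measurable_fst).prodMk (hb.comp measurable_fst)).prodMk measurable_snd
  have h3 : Measurable (fun w : Z × ℝ => ph1 (a w.1) w.2 * ph1 (b w.1) (w.2 ^ 2)) := by
    have := hc.measurable.comp h1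
    exact this
  have h2 : Measurable (fun w : Z × ℝ => g w.1 w.2 * (ph1 (a w.1) w.2 * ph1 (b w.1) (w.2 ^ 2))) :=
    hg.mul h3
  exact (h2.stronglyMeasurable.integral_prod_right').measurable

/-- the one-dimensional `L^q` estimate on a dyadic time interval -/
theorem oneD (q : ℝ) (hq2 : 2 < q) (hq4 : q < 4) : ∃ C : ℝ, 0 < C ∧ ∀ R : ℝ, 1 ≤ R → ∀ a : ℝ → ℂ,
    Measurable a → Integrable a → (∀ x : ℝ, 1 < |x| → a x = 0) →
    ∫⁻ t in DR R, ∫⁻ p : ℝ, ‖T1 a p t‖ₑ ^ q ≤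
      ENNReal.ofReal (C * (1 + Real.log (1 + Real.sqrt R)) * R ^ ((4 - q) / 2)) * ∫⁻ x, ‖a x‖ₑ ^ q := by
  set K2 : ℝ := 4 * (4 * Real.pi) with hK2
  set K4 : ℝ := Real.exp 4 * (16 * Real.pi * (16 * Real.pi * Real.exp 1)) with hK4
  have hK20 : 0 < K2 := by positivity
  have hK40 : 0 < K4 := by positivity
  have h42 : 0 < q - 2 := by linarith
  have h44 : 0 < 4 - q := by linarith
  refine ⟨q * (4 * K2 / (q - 2) + 16 * K4 / (4 - q)), by positivity, ?_⟩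
  intro R hR a ham hai has
  have hR0 : 0 < R := by linarith
  have hsR : 0 < Real.sqrt R := Real.sqrt_pos.2 hR0
  set Λ : ℝ := 1 + Real.log (1 + Real.sqrt R) with hΛ
  have hlog : 0 ≤ Real.log (1 + Real.sqrt R) := Real.log_nonneg (by linarith)
  have hΛ1 : 1 ≤ Λ := by linarith
  set ν : Measure (ℝ × ℝ) := (volume.restrict (DR R)).prod volume with hν
  have hmT : ∀ b : ℝ → ℂ, Measurable b → Measurable (fun y : ℝ × ℝ => T1 b y.2 y.1) := fun b hb =>
    measurable_T1 (Z := ℝ × ℝ) (fun _ => b) (hb.comp measurable_snd) (fun y : ℝ × ℝ => y.2)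
      (fun y : ℝ × ℝ => y.1) measurable_snd measurable_fst
  have hprod : ∀ (b : ℝ → ℂ) (r : ℝ), Measurable b → ∫⁻ y, ‖T1 b y.2 y.1‖ₑ ^ r ∂ν =
      ∫⁻ t in DR R, ∫⁻ p : ℝ, ‖T1 b p t‖ₑ ^ r := by
    intro b r hb
    rw [hν, lintegral_prod _ ((hmT b hb).enorm.pow_const r).aemeasurable]
  have hT2 : ∀ b : ℝ → ℂ, Measurable b → Integrable b →
      ∫⁻ y, ‖T1 b y.2 y.1‖ₑ ^ (2 : ℝ) ∂ν ≤ ENNReal.ofReal (K2 * R) * ∫⁻ x, ‖b x‖ₑ ^ 2 := by
    intro b hb hbi
    rw [hprod b 2 hb]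
    calc ∫⁻ t in DR R, ∫⁻ p : ℝ, ‖T1 b p t‖ₑ ^ (2 : ℝ)
        ≤ ∫⁻ t in DR R, ENNReal.ofReal (4 * Real.pi) * ∫⁻ x, ‖b x‖ₑ ^ 2 := by
          refine lintegral_mono (fun t => ?_)
          have h := Q1_L2 b hbi t 0
          simpa only [Q1, add_zero, T1, ENNReal.rpow_two] using h
      _ = ENNReal.ofReal (4 * Real.pi) * (∫⁻ x, ‖b x‖ₑ ^ 2) * volume (DR R) := by
          rw [lintegral_const, Measure.restrict_apply MeasurableSet.univ, univ_inter]
      _ ≤ ENNReal.ofReal (4 * Real.pi) * (∫⁻ x, ‖b x‖ₑ ^ 2) * ENNReal.ofReal (4 * R) :=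
          mul_le_mul_right (volume_DR_le R hR0) _
      _ = _ := by
          rw [mul_right_comm, ← ENNReal.ofReal_mul (by positivity)]
          congr 2
          rw [hK2]; ring
  have hT4 : ∀ b : ℝ → ℂ, Measurable b → Integrable b → (∀ x : ℝ, 1 < |x| → b x = 0) →
      ∫⁻ y, ‖T1 b y.2 y.1‖ₑ ^ (4 : ℝ) ∂ν ≤ ENNReal.ofReal (K4 * Λ) * ∫⁻ x, ‖b x‖ₑ ^ 4 := by
    intro b hb hbi hbs
    rw [hprod b 4 hb]
    have hgl : ∀ t ∈ DR R, (1 : ℝ≥0∞) ≤ ENNReal.ofReal (Real.exp 4) * ENNReal.ofReal (g1 R t) := by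
      intro t ht
      rw [← ENNReal.ofReal_mul (Real.exp_pos _).le, g1, ← Real.exp_add, ← ENNReal.ofReal_one]
      refine ENNReal.ofReal_le_ofReal ?_
      rw [← Real.exp_zero]
      refine Real.exp_le_exp.2 ?_
      have h1 : t ^ 2 ≤ 4 * R ^ 2 := by
        have h2 : |t| ≤ 2 * R := ht.2
        have h3 : |t| ^ 2 ≤ (2 * R) ^ 2 := pow_le_pow_left₀ (abs_nonneg _) h2 2
        rw [sq_abs] at h3
        linarith
      have h4 : t ^ 2 / R ^ 2 ≤ 4 := by
        rw [div_le_iff₀ (by positivity)]; exact h1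
      rw [neg_div]
      linarith
    calc ∫⁻ t in DR R, ∫⁻ p : ℝ, ‖T1 b p t‖ₑ ^ (4 : ℝ)
        ≤ ∫⁻ t in DR R, ENNReal.ofReal (Real.exp 4) * ((∫⁻ p : ℝ, ‖T1 b p t‖ₑ ^ 4) * ENNReal.ofReal (g1 R t)) := by
          refine setLIntegral_mono' (measurableSet_DR R) (fun t ht => ?_)
          have h5 : ∫⁻ p : ℝ, ‖T1 b p t‖ₑ ^ (4 : ℝ) = ∫⁻ p : ℝ, ‖T1 b p t‖ₑ ^ 4 := by
            refine lintegral_congr (fun p => ?_)
            rw [show (4 : ℝ) = ((4 : ℕ) : ℝ) by norm_num, ENNReal.rpow_natCast]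
          rw [h5]
          calc ∫⁻ p : ℝ, ‖T1 b p t‖ₑ ^ 4 = (∫⁻ p : ℝ, ‖T1 b p t‖ₑ ^ 4) * 1 := (mul_one _).symm
            _ ≤ (∫⁻ p : ℝ, ‖T1 b p t‖ₑ ^ 4) * (ENNReal.ofReal (Real.exp 4) * ENNReal.ofReal (g1 R t)) :=
              mul_le_mul_right (hgl t ht) _
            _ = _ := by ring
      _ ≤ ∫⁻ t : ℝ, ENNReal.ofReal (Real.exp 4) * ((∫⁻ p : ℝ, ‖T1 b p t‖ₑ ^ 4) * ENNReal.ofReal (g1 R t)) :=
          setLIntegral_le_lintegral _ _
      _ = ENNReal.ofReal (Real.exp 4) * ∫⁻ t : ℝ, ((∫⁻ p : ℝ, ‖T1 b p t‖ₑ ^ 4) * ENNReal.ofReal (g1 R t)) := by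
          rw [lintegral_const_mul' _ _ ENNReal.ofReal_ne_top]
      _ ≤ ENNReal.ofReal (Real.exp 4) * (ENNReal.ofReal (16 * Real.pi *
        (16 * Real.pi * Real.exp 1 * Real.log (1 + Real.sqrt R))) * ∫⁻ x, ‖b x‖ₑ ^ 4) :=
          mul_le_mul_right (L41 R hR0 b hbi hbs) _
      _ = ENNReal.ofReal (K4 * Real.log (1 + Real.sqrt R)) * ∫⁻ x, ‖b x‖ₑ ^ 4 := by
          rw [← mul_assoc, ← ENNReal.ofReal_mul (Real.exp_pos _).le]
          congr 2
          rw [hK4]; ring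
      _ ≤ _ := by
          refine mul_le_mul_left (ENNReal.ofReal_le_ofReal ?_) _
          exact mul_le_mul_of_nonneg_left (by rw [hΛ]; linarith) hK40.le
  have hm1 : ∀ s : ℝ, MeasurableSet {x : ℝ | Real.sqrt R * s < ‖a x‖} := fun s =>
    measurableSet_lt measurable_const ham.norm
  have key := marcin (X := ℝ) (Y := ℝ × ℝ) volume ν q hq2 hq4 (ENNReal.ofReal (K2 * R))
    (ENNReal.ofReal (K4 * Λ)) (Real.sqrt R) hsR a ham (fun y => T1 a y.2 y.1)
    (hmT a ham).aestronglyMeasurable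
    (fun s y => T1 ({x : ℝ | Real.sqrt R * s < ‖a x‖}.indicator a) y.2 y.1)
    (fun s y => T1 ({x : ℝ | Real.sqrt R * s < ‖a x‖}ᶜ.indicator a) y.2 y.1)
    ?_ ?_ ?_ ?_ ?_
  · rw [hprod a q ham] at key
    refine key.trans (mul_le_mul_left ?_ _)
    have h16 : (16 : ℝ≥0∞) = ENNReal.ofReal 16 := by simp
    have h4 : (4 : ℝ≥0∞) = ENNReal.ofReal 4 := by simp
    have E1 : ∀ X : ℝ, 4 * ENNReal.ofReal (K2 * R) * ENNReal.ofReal X = ENNReal.ofReal (4 * (K2 * R) * X) := by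
      intro X
      rw [h4, ← ENNReal.ofReal_mul (by norm_num), ← ENNReal.ofReal_mul (by positivity)]
    have E2 : ∀ X : ℝ, 16 * ENNReal.ofReal (K4 * Λ) * ENNReal.ofReal X = ENNReal.ofReal (16 * (K4 * Λ) * X) := by
      intro X
      rw [h16, ← ENNReal.ofReal_mul (by norm_num), ← ENNReal.ofReal_mul (by positivity)]
    rw [E1, E2, ← ENNReal.ofReal_add (by positivity) (by positivity), ← ENNReal.ofReal_mul (by linarith)]
    refine ENNReal.ofReal_le_ofReal ?_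
    have e1 : Real.sqrt R ^ (2 - q) = R ^ ((2 - q) / 2) := by
      rw [Real.sqrt_eq_rpow, ← Real.rpow_mul hR0.le]; congr 1; ring
    have e2 : Real.sqrt R ^ (4 - q) = R ^ ((4 - q) / 2) := by
      rw [Real.sqrt_eq_rpow, ← Real.rpow_mul hR0.le]; congr 1; ring
    have e3 : R * R ^ ((2 - q) / 2) = R ^ ((4 - q) / 2) := by
      rw [← Real.rpow_one_add' hR0.le (by intro h; linarith)]
      congr 1; ring
    rw [e1, e2]
    have e4 : 4 * (K2 * R) * (R ^ ((2 - q) / 2) / (q - 2)) = 4 * K2 / (q - 2) * (R * R ^ ((2 - q) / 2)) := by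
      ring
    rw [e4, e3]
    have hRp : 0 < R ^ ((4 - q) / 2) := Real.rpow_pos_of_pos hR0 _
    have e5 : 4 * K2 / (q - 2) * R ^ ((4 - q) / 2) ≤ 4 * K2 / (q - 2) * R ^ ((4 - q) / 2) * Λ := by
      refine le_mul_of_one_le_right (by positivity) hΛ1
    have e6 : 16 * (K4 * Λ) * (R ^ ((4 - q) / 2) / (4 - q)) = 16 * K4 / (4 - q) * R ^ ((4 - q) / 2) * Λ := by
      ring
    rw [e6]
    calc q * (4 * K2 / (q - 2) * R ^ ((4 - q) / 2) + 16 * K4 / (4 - q) * R ^ ((4 - q) / 2) * Λ)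
        ≤ q * (4 * K2 / (q - 2) * R ^ ((4 - q) / 2) * Λ + 16 * K4 / (4 - q) * R ^ ((4 - q) / 2) * Λ) := by
          gcongr
      _ = _ := by ring
  · intro s hs y
    have hint : ∀ (b : ℝ → ℂ), Integrable b → Integrable (fun x => b x * (ph1 y.2 x * ph1 y.1 (x ^ 2))) := by
      intro b hb
      have h1 := integrable_mod1 _ (integrable_mod1 b hb y.2 (fun x => x) continuous_id) y.1 (fun x => x ^ 2)
        (by fun_prop)
      refine h1.congr (Filter.Eventually.of_forall (fun x => ?_))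
      simp only
      ring
    simp only [T1]
    rw [← integral_add (hint _ (hai.indicator (hm1 s))) (hint _ (hai.indicator (hm1 s).compl))]
    congr 1
    ext x
    rw [← add_mul, indicator_self_add_compl_apply]
  · intro s hs
    exact (hmT _ (ham.indicator (hm1 s))).aestronglyMeasurable
  · intro s hs
    exact (hmT _ (ham.indicator (hm1 s).compl)).aestronglyMeasurable
  · intro s hs
    have h := hT2 _ (ham.indicator (hm1 s)) (hai.indicator (hm1 s))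
    simp only [ENNReal.rpow_two] at h
    refine h.trans (le_of_eq ?_)
    congr 1
    refine lintegral_congr (fun y => ?_)
    by_cases hy : y ∈ {x : ℝ | Real.sqrt R * s < ‖a x‖}
    · rw [indicator_of_mem hy, indicator_of_mem hy]
    · rw [indicator_of_notMem hy, indicator_of_notMem hy]; simp
  · intro s hs
    have h := hT4 _ (ham.indicator (hm1 s).compl) (hai.indicator (hm1 s).compl) (by
      intro x hx
      by_cases hy : x ∈ {x : ℝ | Real.sqrt R * s < ‖a x‖}ᶜ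
      · rw [indicator_of_mem hy, has x hx]
      · rw [indicator_of_notMem hy])
    have h5 : ∀ z : ℝ≥0∞, z ^ (4 : ℝ) = z ^ 4 := by
      intro z
      rw [show (4 : ℝ) = ((4 : ℕ) : ℝ) by norm_num, ENNReal.rpow_natCast]
    simp only [h5] at h
    refine h.trans (le_of_eq ?_)
    congr 1
    refine lintegral_congr (fun y => ?_)
    by_cases hy : y ∈ {x : ℝ | Real.sqrt R * s < ‖a x‖}
    · have hy2 : y ∉ {x | ‖a x‖ ≤ Real.sqrt R * s} := by
        intro hh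
        have h1 : ‖a y‖ ≤ Real.sqrt R * s := hh
        have h2 : Real.sqrt R * s < ‖a y‖ := hy
        linarith
      have hy3 : y ∉ {x : ℝ | Real.sqrt R * s < ‖a x‖}ᶜ := fun hh => hh hy
      rw [indicator_of_notMem hy3, indicator_of_notMem hy2]; simp
    · have hy2 : y ∈ {x | ‖a x‖ ≤ Real.sqrt R * s} := by
        have h2 : ¬ (Real.sqrt R * s < ‖a y‖) := hy
        exact not_lt.1 h2
      rw [indicator_of_mem (show y ∈ {x : ℝ | Real.sqrt R * s < ‖a x‖}ᶜ from hy), indicator_of_mem hy2]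

end X92.Ext
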