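import Pool.Agent.X92.Dir4
open MeasureTheory Set Complex ProbabilityTheory
open scoped ENNReal ComplexConjugate NNReal

namespace X92.Ext

theorem T1_undef (a : ℝ → ℂ) (ha : ¬ Integrable a) (p t : ℝ) : T1 a p t = 0 := by
  refine integral_undef ?_
  intro hcon
  apply ha
  have hc : Continuous (fun x : ℝ => ph1 p (-x) * ph1 t (-(x ^ 2))) :=
    cont_pp (fun _ : ℝ => p) (fun x : ℝ => -x) (fun _ : ℝ => t) (fun x : ℝ => -(x ^ 2)) (by fun_prop)
      (by fun_prop) (by fun_prop) (by fun_prop)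
  have h := hcon.bdd_mul (c := 1) (f := fun x => ph1 p (-x) * ph1 t (-(x ^ 2))) hc.aestronglyMeasurable
    (Filter.Eventually.of_forall (fun x => by rw [norm_mul, norm_ph1, norm_ph1, one_mul]))
  refine h.congr (Filter.Eventually.of_forall (fun x => ?_))
  simp only
  have h5 : ph1 p (-x) * ph1 p x = 1 := by
    rw [← ph1_add]; simp [ph1]
  have h6 : ph1 t (-(x ^ 2)) * ph1 t (x ^ 2) = 1 := by
    rw [← ph1_add]; simp [ph1]
  calc _ = (ph1 p (-x) * ph1 p x) * (ph1 t (-(x ^ 2)) * ph1 t (x ^ 2)) * a x := by ring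
    _ = _ := by rw [h5, h6, one_mul, one_mul]

/-- `oneD` without the integrability hypothesis. -/
theorem oneD' (q : ℝ) (hq2 : 2 < q) (hq4 : q < 4) : ∃ C : ℝ, 0 < C ∧ ∀ R : ℝ, 1 ≤ R → ∀ a : ℝ → ℂ,
    Measurable a → (∀ x : ℝ, 1 < |x| → a x = 0) →
    ∫⁻ t in DR R, ∫⁻ p : ℝ, ‖T1 a p t‖ₑ ^ q ≤
      ENNReal.ofReal (C * (1 + Real.log (1 + Real.sqrt R)) * R ^ ((4 - q) / 2)) * ∫⁻ x, ‖a x‖ₑ ^ q := by
  obtain ⟨C, hC, h⟩ := oneD q hq2 hq4
  refine ⟨C, hC, fun R hR a ham has => ?_⟩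
  by_cases hai : Integrable a
  · exact h R hR a ham hai has
  · have : ∀ p t, T1 a p t = 0 := T1_undef a hai
    simp_rw [this]
    simp [show 0 < q by linarith]

theorem T_slice (g : ℝ × ℝ → ℂ) (hg : Integrable g) (p1 p2 t : ℝ) :
    T g (p1, p2) (t, t) = ∫ y, T1 (fun x => g (y, x)) p2 t * (ph1 p1 y * ph1 t (y ^ 2)) := by
  unfold T T1
  have hc : Continuous (fun x : ℝ × ℝ => ph (p1, p2) x * ph (t, t) (sq2 x)) := by
    have h1 : Continuous (fun x : ℝ × ℝ => ph (p1, p2) x) :=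
      continuous_ph.comp (continuous_const.prodMk continuous_id)
    have h2 : Continuous (fun x : ℝ × ℝ => ph (t, t) (sq2 x)) :=
      continuous_ph.comp (continuous_const.prodMk continuous_sq2)
    exact h1.mul h2
  have hint : Integrable (fun x : ℝ × ℝ => g x * (ph (p1, p2) x * ph (t, t) (sq2 x)))
      ((volume : Measure ℝ).prod volume) := by
    have h := hg.bdd_mul (c := 1) (f := fun x : ℝ × ℝ => ph (p1, p2) x * ph (t, t) (sq2 x))
      hc.aestronglyMeasurable (Filter.Eventually.of_forall (fun x => by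
        rw [norm_mul, norm_ph, norm_ph, one_mul]))
    refine h.congr (Filter.Eventually.of_forall (fun x => ?_))
    simp only
    ring
  rw [Measure.volume_eq_prod, integral_prod _ hint]
  congr 1
  ext y
  rw [← integral_mul_const]
  congr 1
  ext x
  rw [ph_prod, ph_prod]
  simp only [sq2]
  ring

theorem slice_meas (g : ℝ × ℝ → ℂ) (hgm : Measurable g) (p2 t : ℝ) :
    Measurable (fun y => T1 (fun x => g (y, x)) p2 t) :=
  measurable_T1 (Z := ℝ) (fun y x => g (y, x)) hgm (fun _ => p2) (fun _ => t) measurable_const measurable_const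

theorem T1_le (a : ℝ → ℂ) (p t : ℝ) : ‖T1 a p t‖ₑ ≤ ∫⁻ x, ‖a x‖ₑ := by
  refine (enorm_integral_le_lintegral_enorm _).trans (le_of_eq ?_)
  refine lintegral_congr (fun x => ?_)
  rw [enorm_mul]
  have : ‖ph1 p x * ph1 t (x ^ 2)‖ₑ = 1 := by
    rw [← ofReal_norm, norm_mul, norm_ph1, norm_ph1, one_mul, ENNReal.ofReal_one]
  rw [this, mul_one]

theorem slice_int (g : ℝ × ℝ → ℂ) (hgm : Measurable g) (hg : Integrable g) (p2 t : ℝ) :
    Integrable (fun y => T1 (fun x => g (y, x)) p2 t) := by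
  refine ⟨(slice_meas g hgm p2 t).aestronglyMeasurable, ?_⟩
  have h1 : ∫⁻ y, ‖T1 (fun x => g (y, x)) p2 t‖ₑ ≤ ∫⁻ y, ∫⁻ x, ‖g (y, x)‖ₑ :=
    lintegral_mono (fun y => T1_le _ _ _)
  refine lt_of_le_of_lt h1 ?_
  rw [← lintegral_prod (fun z : ℝ × ℝ => ‖g z‖ₑ) hgm.enorm.aemeasurable]
  exact hg.2

noncomputable def tau (η : ℝ) (f : ℝ × ℝ → ℂ) (x : ℝ × ℝ) : ℂ := f (x.1 - η, x.2)

noncomputable def Hv (v : ℝ≥0) (f : ℝ × ℝ → ℂ) (x : ℝ × ℝ) : ℂ := ∫ η, f (x.1 - η, x.2) ∂(gaussianReal 0 v)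

theorem mp_tau (η : ℝ) : MeasurePreserving (fun x : ℝ × ℝ => (x.1 - η, x.2)) volume volume := by
  have h := (measurePreserving_sub_right (volume : Measure ℝ) η).prod (MeasurePreserving.id (volume : Measure ℝ))
  exact h

theorem tau_meas (η : ℝ) (f : ℝ × ℝ → ℂ) (hf : Measurable f) : Measurable (tau η f) :=
  hf.comp (mp_tau η).measurable

theorem tau_lint (η : ℝ) (F : ℝ × ℝ → ℝ≥0∞) (hF : Measurable F) : ∫⁻ x : ℝ × ℝ, F (x.1 - η, x.2) = ∫⁻ x, F x :=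
  (mp_tau η).lintegral_comp hF

theorem tau_int (η : ℝ) (f : ℝ × ℝ → ℂ) (hf : Integrable f) : Integrable (tau η f) :=
  (mp_tau η).integrable_comp_of_integrable hf

theorem tau2_meas (f : ℝ × ℝ → ℂ) (hf : Measurable f) :
    Measurable (fun z : (ℝ × ℝ) × ℝ => f (z.1.1 - z.2, z.1.2)) := by
  refine hf.comp ?_
  exact ((measurable_fst.comp measurable_fst).sub measurable_snd).prodMk (measurable_snd.comp measurable_fst)

theorem Hv_meas (v : ℝ≥0) (f : ℝ × ℝ → ℂ) (hf : Measurable f) : Measurable (Hv v f) :=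
  ((tau2_meas f hf).stronglyMeasurable.integral_prod_right' (ν := gaussianReal 0 v)).measurable

theorem tau2_int (v : ℝ≥0) (f : ℝ × ℝ → ℂ) (hfm : Measurable f) (hf : Integrable f) :
    Integrable (fun z : (ℝ × ℝ) × ℝ => f (z.1.1 - z.2, z.1.2))
      ((volume : Measure (ℝ × ℝ)).prod (gaussianReal 0 v)) := by
  refine ⟨(tau2_meas f hfm).aestronglyMeasurable, ?_⟩
  have h : ∫⁻ z : (ℝ × ℝ) × ℝ, ‖f (z.1.1 - z.2, z.1.2)‖ₑ ∂((volume : Measure (ℝ × ℝ)).prod (gaussianReal 0 v)) =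
      ∫⁻ x, ‖f x‖ₑ := by
    rw [lintegral_prod_symm _ (tau2_meas f hfm).enorm.aemeasurable]
    have : ∀ η : ℝ, ∫⁻ x : ℝ × ℝ, ‖f (x.1 - η, x.2)‖ₑ = ∫⁻ x, ‖f x‖ₑ := fun η =>
      tau_lint η (fun x => ‖f x‖ₑ) hfm.enorm
    simp_rw [this]
    rw [lintegral_const, measure_univ, mul_one]
  show ∫⁻ z : (ℝ × ℝ) × ℝ, ‖f (z.1.1 - z.2, z.1.2)‖ₑ ∂((volume : Measure (ℝ × ℝ)).prod (gaussianReal 0 v)) < ⊤
  rw [h]
  exact hf.2

theorem Hv_int (v : ℝ≥0) (f : ℝ × ℝ → ℂ) (hfm : Measurable f) (hf : Integrable f) : Integrable (Hv v f) :=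
  (tau2_int v f hfm hf).integral_prod_left

theorem T_Hv (v : ℝ≥0) (f : ℝ × ℝ → ℂ) (hfm : Measurable f) (hf : Integrable f) (p b : ℝ × ℝ) :
    T (Hv v f) p b = ∫ η, T (tau η f) p b ∂(gaussianReal 0 v) := by
  unfold T Hv tau
  have hc : Continuous (fun z : (ℝ × ℝ) × ℝ => ph p z.1 * ph b (sq2 z.1)) := by
    have h1 : Continuous (fun z : (ℝ × ℝ) × ℝ => ph p z.1) :=
      continuous_ph.comp (continuous_const.prodMk continuous_fst)
    have h2 : Continuous (fun z : (ℝ × ℝ) × ℝ => ph b (sq2 z.1)) :=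
      continuous_ph.comp (continuous_const.prodMk (continuous_sq2.comp continuous_fst))
    exact h1.mul h2
  have h : Integrable (Function.uncurry (fun (x : ℝ × ℝ) (η : ℝ) => f (x.1 - η, x.2) * (ph p x * ph b (sq2 x))))
      ((volume : Measure (ℝ × ℝ)).prod (gaussianReal 0 v)) := by
    have h1 := (tau2_int v f hfm hf).bdd_mul (c := 1) (f := fun z : (ℝ × ℝ) × ℝ => ph p z.1 * ph b (sq2 z.1))
      hc.aestronglyMeasurable (Filter.Eventually.of_forall (fun x => by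
        rw [norm_mul, norm_ph, norm_ph, one_mul]))
    refine h1.congr (Filter.Eventually.of_forall (fun x => ?_))
    simp only [Function.uncurry]
    ring
  rw [← integral_integral_swap h]
  congr 1
  ext x
  rw [integral_mul_const]

theorem T_tau_slice (η : ℝ) (g : ℝ × ℝ → ℂ) (hg : Integrable g) (p1 p2 t : ℝ) :
    T (tau η g) (p1, p2) (t, t) = Q1 (fun y => T1 (fun x => g (y, x)) p2 t) t η p1 := by
  rw [T_slice _ (tau_int η g hg)]
  unfold Q1
  rw [← integral_add_right_eq_self (fun y => T1 (fun x => tau η g (y, x)) p2 t * (ph1 p1 y * ph1 t (y ^ 2))) η]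
  congr 1
  ext y
  simp only [tau, add_sub_cancel_right]

theorem T_Hv_slice (v : ℝ≥0) (g : ℝ × ℝ → ℂ) (hgm : Measurable g) (hg : Integrable g) (p1 p2 t : ℝ) :
    T (Hv v g) (p1, p2) (t, t) = ∫ y, T1 (fun x => g (y, x)) p2 t * KV v t p1 y := by
  rw [T_Hv v g hgm hg, KV_fub _ (slice_int g hgm hg p2 t)]
  congr 1
  ext η
  exact T_tau_slice η g hg p1 p2 t

/-- the local norm -/
noncomputable def FR (q R : ℝ) (g : ℝ × ℝ → ℂ) : ℝ≥0∞ := ∫⁻ t in DR R, Phi q g (t, t)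

theorem FR_of_slices (q : ℝ) (hq2 : 2 < q) (hq4 : q < 4) : ∃ C : ℝ, 0 < C ∧ ∀ R : ℝ, 1 ≤ R →
    ∀ (K : ℝ≥0∞) (g g' : ℝ × ℝ → ℂ), K ≠ ⊤ → Measurable g → Measurable g' →
    (∀ x : ℝ × ℝ, 1 < |x.2| → g x = 0) →
    (∀ t ∈ DR R, ∀ p2 : ℝ, ∫⁻ p1 : ℝ, ‖T g' (p1, p2) (t, t)‖ₑ ^ q ≤
      K * ∫⁻ y, ‖T1 (fun x => g (y, x)) p2 t‖ₑ ^ q) →
    FR q R g' ≤ K * (ENNReal.ofReal (C * (1 + Real.log (1 + Real.sqrt R)) * R ^ ((4 - q) / 2)) *
      ∫⁻ x, ‖g x‖ₑ ^ q) := by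
  obtain ⟨C, hC, h1⟩ := oneD' q hq2 hq4
  refine ⟨C, hC, ?_⟩
  intro R hR K g g' hK hgm hgm' hgs h
  have hmT : Measurable (fun z : (ℝ × ℝ) × ℝ => T1 (fun x => g (z.2, x)) z.1.2 z.1.1) :=
    measurable_T1 (Z := (ℝ × ℝ) × ℝ) (fun z x => g (z.2, x))
      (hgm.comp ((measurable_snd.comp measurable_fst).prodMk measurable_snd))
      (fun z => z.1.2) (fun z => z.1.1) (measurable_snd.comp measurable_fst) (measurable_fst.comp measurable_fst)
  have hmF : Measurable (fun z : (ℝ × ℝ) × ℝ => ‖T1 (fun x => g (z.2, x)) z.1.2 z.1.1‖ₑ ^ q) :=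
    hmT.enorm.pow_const q
  calc FR q R g' = ∫⁻ t in DR R, ∫⁻ p2 : ℝ, ∫⁻ p1 : ℝ, ‖T g' (p1, p2) (t, t)‖ₑ ^ q := by
        unfold FR Phi
        refine lintegral_congr (fun t => ?_)
        have hm : Measurable (fun p : ℝ × ℝ => ‖T g' p (t, t)‖ₑ ^ q) :=
          (measurable_Tc (Z := ℝ × ℝ) g' hgm' (fun p => p) (fun _ => (t, t)) measurable_id
            measurable_const).enorm.pow_const q
        rw [Measure.volume_eq_prod, lintegral_prod_symm _ hm.aemeasurable]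
    _ ≤ ∫⁻ t in DR R, ∫⁻ p2 : ℝ, K * ∫⁻ y, ‖T1 (fun x => g (y, x)) p2 t‖ₑ ^ q := by
        refine setLIntegral_mono' (measurableSet_DR R) (fun t ht => ?_)
        exact lintegral_mono (fun p2 => h t ht p2)
    _ = K * ∫⁻ t in DR R, ∫⁻ p2 : ℝ, ∫⁻ y, ‖T1 (fun x => g (y, x)) p2 t‖ₑ ^ q := by
        rw [← lintegral_const_mul' _ _ hK]
        refine lintegral_congr (fun t => ?_)
        rw [lintegral_const_mul' _ _ hK]
    _ = K * ∫⁻ y, ∫⁻ t in DR R, ∫⁻ p2 : ℝ, ‖T1 (fun x => g (y, x)) p2 t‖ₑ ^ q := by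
        congr 1
        have e1 : ∀ t : ℝ, ∫⁻ p2 : ℝ, ∫⁻ y, ‖T1 (fun x => g (y, x)) p2 t‖ₑ ^ q =
            ∫⁻ y, ∫⁻ p2 : ℝ, ‖T1 (fun x => g (y, x)) p2 t‖ₑ ^ q := by
          intro t
          refine lintegral_lintegral_swap ?_
          have : Measurable (fun z : ℝ × ℝ => (((t, z.1), z.2) : (ℝ × ℝ) × ℝ)) :=
            (measurable_const.prodMk measurable_fst).prodMk measurable_snd
          exact (hmF.comp this).aemeasurable
        simp_rw [e1]
        refine lintegral_lintegral_swap ?_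
        have hm3 : Measurable (fun w : (ℝ × ℝ) × ℝ => (((w.1.1, w.2), w.1.2) : (ℝ × ℝ) × ℝ)) :=
          ((measurable_fst.comp measurable_fst).prodMk measurable_snd).prodMk (measurable_snd.comp measurable_fst)
        have hm4 := hmF.comp hm3
        exact (hm4.lintegral_prod_right').aemeasurable
    _ ≤ K * ∫⁻ y, ENNReal.ofReal (C * (1 + Real.log (1 + Real.sqrt R)) * R ^ ((4 - q) / 2)) *
        ∫⁻ x, ‖g (y, x)‖ₑ ^ q := by
        refine mul_le_mul_right (lintegral_mono (fun y => ?_)) _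
        exact h1 R hR (fun x => g (y, x)) (hgm.comp (measurable_const.prodMk measurable_id))
          (fun x hx => hgs (y, x) hx)
    _ = _ := by
        rw [lintegral_const_mul' _ _ ENNReal.ofReal_ne_top, Measure.volume_eq_prod,
          lintegral_prod _ (hgm.enorm.pow_const q).aemeasurable]

/-- Local estimate for smoothed functions. -/
theorem FR_smooth (q : ℝ) (hq2 : 2 < q) (hq4 : q < 4) : ∃ C : ℝ, 0 < C ∧ ∀ R : ℝ, 1 ≤ R →
    ∀ (v : ℝ≥0) (g : ℝ × ℝ → ℂ), v ≠ 0 → Measurable g → Integrable g →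
    (∀ x : ℝ × ℝ, 1 < |x.2| → g x = 0) →
    FR q R (Hv v g) ≤ ENNReal.ofReal (C * (1 + Real.log (1 + Real.sqrt R)) * R ^ ((4 - q) / 2) *
      (1 / (R * Real.sqrt v) + 1 / Real.sqrt R) ^ (q - 2)) * ∫⁻ x, ‖g x‖ₑ ^ q := by
  obtain ⟨C, hC, h1⟩ := FR_of_slices q hq2 hq4
  have h42 : 0 < q - 2 := by linarith
  refine ⟨q * (4 * (4 * Real.pi) * (4 ^ (q - 2) / (q - 2))) * C, by positivity, ?_⟩
  intro R hR v g hv hgm hg hgs
  have hR0 : 0 < R := by linarith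
  have hv0 : (0 : ℝ) < v := NNReal.coe_pos.2 (pos_iff_ne_zero.2 hv)
  have hsv : 0 < Real.sqrt v := Real.sqrt_pos.2 hv0
  set L : ℝ := 1 / (R * Real.sqrt v) + 1 / Real.sqrt R with hL
  have hL0 : 0 ≤ L := by positivity
  have hlog : 0 ≤ Real.log (1 + Real.sqrt R) := Real.log_nonneg (by linarith [Real.sqrt_nonneg R])
  have h4 : (4 : ℝ≥0∞) = ENNReal.ofReal 4 := by simp
  have hKe : ENNReal.ofReal q * (4 * ENNReal.ofReal (4 * Real.pi) *
        ENNReal.ofReal ((2 * (2 * L)) ^ (q - 2) / (q - 2))) =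
        ENNReal.ofReal (q * (4 * (4 * Real.pi) * (4 ^ (q - 2) / (q - 2))) * L ^ (q - 2)) := by
    rw [h4, ← ENNReal.ofReal_mul (by norm_num), ← ENNReal.ofReal_mul (by positivity),
      ← ENNReal.ofReal_mul (by linarith)]
    congr 1
    have : (2 * (2 * L)) ^ (q - 2) = 4 ^ (q - 2) * L ^ (q - 2) := by
      rw [← Real.mul_rpow (by norm_num) hL0]; congr 1; ring
    rw [this]
    ring
  have h2 := h1 R hR _ g (Hv v g) ENNReal.ofReal_ne_top hgm (Hv_meas v g hgm) hgs (fun t ht p2 => by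
    have h3 := smooth1 q hq2 v hv t R hR0 ht.1 (fun y => T1 (fun x => g (y, x)) p2 t)
      (slice_meas g hgm p2 t) (slice_int g hgm hg p2 t)
    rw [← hL, hKe] at h3
    simp_rw [T_Hv_slice v g hgm hg]
    exact h3)
  refine h2.trans (le_of_eq ?_)
  rw [← mul_assoc, ← ENNReal.ofReal_mul (by positivity)]
  congr 2
  ring

/-- Local estimate for compactly supported functions. -/
theorem FR_comp (q : ℝ) (hq2 : 2 < q) (hq4 : q < 4) : ∃ C : ℝ, 0 < C ∧ ∀ R : ℝ, 1 ≤ R →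
    ∀ (B : Set ℝ) (g : ℝ × ℝ → ℂ), MeasurableSet B → volume B ≤ 4 → Measurable g → Integrable g →
    (∀ x : ℝ × ℝ, 1 < |x.2| → g x = 0) → (∀ x : ℝ × ℝ, x.1 ∉ B → g x = 0) →
    FR q R g ≤ ENNReal.ofReal (C * (1 + Real.log (1 + Real.sqrt R)) * R ^ ((4 - q) / 2)) * ∫⁻ x, ‖g x‖ₑ ^ q := by
  obtain ⟨C, hC, h1⟩ := FR_of_slices q hq2 hq4
  have h42 : 0 < q - 2 := by linarith
  refine ⟨q * (4 * (4 * Real.pi) * ((2 * 4) ^ (q - 2) / (q - 2))) * C, by positivity, ?_⟩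
  intro R hR B g hB hBv hgm hg hgs hgB
  have hR0 : 0 < R := by linarith
  have hlog : 0 ≤ Real.log (1 + Real.sqrt R) := Real.log_nonneg (by linarith [Real.sqrt_nonneg R])
  have h4 : (4 : ℝ≥0∞) = ENNReal.ofReal 4 := by simp
  have hKe : ENNReal.ofReal q * (4 * ENNReal.ofReal (4 * Real.pi) *
        ENNReal.ofReal ((2 * 4) ^ (q - 2) / (q - 2))) =
        ENNReal.ofReal (q * (4 * (4 * Real.pi) * ((2 * 4) ^ (q - 2) / (q - 2)))) := by
    rw [h4, ← ENNReal.ofReal_mul (by norm_num), ← ENNReal.ofReal_mul (by positivity),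
      ← ENNReal.ofReal_mul (by linarith)]
  have h2 := h1 R hR _ g g ENNReal.ofReal_ne_top hgm hgm hgs (fun t ht p2 => by
    have h3 := comp1 q hq2 t B hB hBv (fun y => T1 (fun x => g (y, x)) p2 t)
      (slice_meas g hgm p2 t) (slice_int g hgm hg p2 t) (by
        intro y hy
        have : (fun x => g (y, x)) = fun _ => 0 := by ext x; exact hgB (y, x) hy
        simp only [this]
        simp [T1])
    rw [hKe] at h3
    simp_rw [T_slice g hg]
    exact h3)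
  refine h2.trans (le_of_eq ?_)
  rw [← mul_assoc, ← ENNReal.ofReal_mul (by positivity)]
  congr 2
  ring

end X92.Ext
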