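import Pool.Agent.X92.Dir5
open MeasureTheory Set Complex ProbabilityTheory
open scoped ENNReal ComplexConjugate NNReal

namespace X92.Ext

theorem measurable_Tg {Z : Type*} [MeasurableSpace Z] (g : Z → ℝ × ℝ → ℂ)
    (hg : Measurable (fun w : Z × (ℝ × ℝ) => g w.1 w.2)) (a b : Z → ℝ × ℝ) (ha : Measurable a)
    (hb : Measurable b) : Measurable (fun z => T (g z) (a z) (b z)) := by
  have hc1 : Measurable (fun w : (ℝ × ℝ) × (ℝ × ℝ) => ph w.1 w.2) := continuous_ph.measurable
  have hc2 : Measurable (fun w : (ℝ × ℝ) × (ℝ × ℝ) => ph w.1 (sq2 w.2)) := by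
    have : Continuous (fun w : (ℝ × ℝ) × (ℝ × ℝ) => (w.1, sq2 w.2)) :=
      continuous_fst.prodMk (continuous_sq2.comp continuous_snd)
    exact (continuous_ph.comp this).measurable
  have h1 : Measurable (fun w : Z × (ℝ × ℝ) => ((a w.1, w.2) : (ℝ × ℝ) × (ℝ × ℝ))) :=
    (ha.comp measurable_fst).prodMk measurable_snd
  have h2 : Measurable (fun w : Z × (ℝ × ℝ) => ((b w.1, w.2) : (ℝ × ℝ) × (ℝ × ℝ))) :=
    (hb.comp measurable_fst).prodMk measurable_snd
  have h3 : Measurable (fun w : Z × (ℝ × ℝ) => ph (a w.1) w.2) := by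
    have := hc1.comp h1
    exact this
  have h4 : Measurable (fun w : Z × (ℝ × ℝ) => ph (b w.1) (sq2 w.2)) := by
    have := hc2.comp h2
    exact this
  have h5 : Measurable (fun w : Z × (ℝ × ℝ) => g w.1 w.2 * (ph (a w.1) w.2 * ph (b w.1) (sq2 w.2))) :=
    hg.mul (h3.mul h4)
  exact (h5.stronglyMeasurable.integral_prod_right').measurable

theorem measurable_Ttau {Z : Type*} [MeasurableSpace Z] (f : ℝ × ℝ → ℂ) (hf : Measurable f)
    (η : Z → ℝ) (hη : Measurable η) (a b : Z → ℝ × ℝ) (ha : Measurable a)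
    (hb : Measurable b) : Measurable (fun z => T (tau (η z) f) (a z) (b z)) := by
  refine measurable_Tg (Z := Z) (fun z => tau (η z) f) ?_ a b ha hb
  have h1 : Measurable (fun w : Z × (ℝ × ℝ) => ((w.2.1 - η w.1, w.2.2) : ℝ × ℝ)) :=
    ((measurable_fst.comp measurable_snd).sub (hη.comp measurable_fst)).prodMk
      (measurable_snd.comp measurable_snd)
  exact hf.comp h1

theorem T_integrand (f : ℝ × ℝ → ℂ) (hf : Integrable f) (p b : ℝ × ℝ) :
    Integrable (fun x => f x * (ph p x * ph b (sq2 x))) := by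
  have h1 := integrable_mod _ (integrable_mod f hf p (fun x => x) continuous_id) b sq2 continuous_sq2
  refine h1.congr (Filter.Eventually.of_forall (fun x => ?_))
  simp only
  ring

theorem T_sub (f g : ℝ × ℝ → ℂ) (hf : Integrable f) (hg : Integrable g) (p b : ℝ × ℝ) :
    T (fun x => f x - g x) p b = T f p b - T g p b := by
  unfold T
  rw [← integral_sub (T_integrand f hf p b) (T_integrand g hg p b)]
  congr 1
  ext x
  ring

theorem T_add (f g : ℝ × ℝ → ℂ) (hf : Integrable f) (hg : Integrable g) (p b : ℝ × ℝ) :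
    T (fun x => f x + g x) p b = T f p b + T g p b := by
  unfold T
  rw [← integral_add (T_integrand f hf p b) (T_integrand g hg p b)]
  congr 1
  ext x
  ring

theorem tau_norm (η : ℝ) (f : ℝ × ℝ → ℂ) (hf : Measurable f) (q : ℝ) :
    ∫⁻ x, ‖tau η f x‖ₑ ^ q = ∫⁻ x, ‖f x‖ₑ ^ q :=
  tau_lint η (fun x => ‖f x‖ₑ ^ q) (hf.enorm.pow_const q)

theorem T_tau_integrable (γ : Measure ℝ) [IsProbabilityMeasure γ] (f : ℝ × ℝ → ℂ) (hfm : Measurable f)
    (hf : Integrable f) (p b : ℝ × ℝ) : Integrable (fun η => T (tau η f) p b) γ := by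
  have hm : Measurable (fun η : ℝ => T (tau η f) p b) :=
    measurable_Ttau (Z := ℝ) f hfm (fun η => η) measurable_id (fun _ => p) (fun _ => b) measurable_const
      measurable_const
  refine ⟨hm.aestronglyMeasurable, ?_⟩
  have h1 : ∀ η : ℝ, ‖T (tau η f) p b‖ₑ ≤ ∫⁻ x, ‖f x‖ₑ := by
    intro η
    refine (T_le (tau η f) p b).trans (le_of_eq ?_)
    exact tau_lint η (fun x => ‖f x‖ₑ) hfm.enorm
  refine lt_of_le_of_lt (lintegral_mono h1) ?_
  rw [lintegral_const, measure_univ, mul_one]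
  exact hf.2

theorem tau_Hv (η : ℝ) (w : ℝ≥0) (f : ℝ × ℝ → ℂ) : tau η (Hv w f) = Hv w (tau η f) := by
  ext x
  simp only [tau, Hv]
  congr 1
  ext η'
  congr 2
  ring

theorem tau_tau (η η' : ℝ) (f : ℝ × ℝ → ℂ) : tau η (tau η' f) = tau (η + η') f := by
  ext x
  simp only [tau]
  congr 2
  ring

theorem T_HvHv (v w : ℝ≥0) (f : ℝ × ℝ → ℂ) (hfm : Measurable f) (hf : Integrable f) (p b : ℝ × ℝ) :
    T (Hv v (Hv w f)) p b = T (Hv (v + w) f) p b := by
  rw [T_Hv v (Hv w f) (Hv_meas w f hfm) (Hv_int w f hfm hf), T_Hv (v + w) f hfm hf]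
  have h1 : ∀ η, T (tau η (Hv w f)) p b = ∫ η', T (tau (η + η') f) p b ∂(gaussianReal 0 w) := by
    intro η
    rw [tau_Hv, T_Hv w (tau η f) (tau_meas η f hfm) (tau_int η f hf)]
    congr 1
    ext η'
    rw [tau_tau, add_comm]
  simp_rw [h1]
  have hconv : gaussianReal 0 (v + w) = Measure.conv (gaussianReal 0 v) (gaussianReal 0 w) := by
    rw [gaussianReal_conv_gaussianReal, add_zero]
  have hm : Measurable (fun η : ℝ => T (tau η f) p b) :=
    measurable_Ttau (Z := ℝ) f hfm (fun η => η) measurable_id (fun _ => p) (fun _ => b) measurable_const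
      measurable_const
  have hadd : Measurable (fun x : ℝ × ℝ => x.1 + x.2) := by fun_prop
  rw [hconv, Measure.conv, integral_map hadd.aemeasurable hm.aestronglyMeasurable]
  rw [integral_prod]
  have h2 := T_tau_integrable (Measure.conv (gaussianReal 0 v) (gaussianReal 0 w)) f hfm hf p b
  rw [Measure.conv, integrable_map_measure hm.aestronglyMeasurable hadd.aemeasurable] at h2
  exact h2

theorem Hv_norm (q : ℝ) (hq : 1 ≤ q) (v : ℝ≥0) (f : ℝ × ℝ → ℂ) (hfm : Measurable f) :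
    ∫⁻ x, ‖Hv v f x‖ₑ ^ q ≤ ∫⁻ x, ‖f x‖ₑ ^ q := by
  have hm := tau2_meas f hfm
  calc ∫⁻ x, ‖Hv v f x‖ₑ ^ q ≤ ∫⁻ x : ℝ × ℝ, ∫⁻ η, ‖f (x.1 - η, x.2)‖ₑ ^ q ∂(gaussianReal 0 v) := by
        refine lintegral_mono (fun x => ?_)
        exact jensI (gaussianReal 0 v) q hq (fun η => f (x.1 - η, x.2))
          (hm.comp (measurable_const.prodMk measurable_id)).aestronglyMeasurable
    _ = ∫⁻ η, (∫⁻ x : ℝ × ℝ, ‖f (x.1 - η, x.2)‖ₑ ^ q) ∂(gaussianReal 0 v) := by
        refine lintegral_lintegral_swap ?_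
        exact (hm.enorm.pow_const q).aemeasurable
    _ = ∫⁻ η, (∫⁻ x : ℝ × ℝ, ‖f x‖ₑ ^ q) ∂(gaussianReal 0 v) := by
        refine lintegral_congr (fun η => ?_)
        exact tau_lint η (fun x => ‖f x‖ₑ ^ q) (hfm.enorm.pow_const q)
    _ = _ := by rw [lintegral_const, measure_univ, mul_one]

theorem Hv_sub_norm (q : ℝ) (hq : 1 ≤ q) (v : ℝ≥0) (f : ℝ × ℝ → ℂ) (hfm : Measurable f) (hf : Integrable f) :
    ∫⁻ x, ‖Hv v f x - f x‖ₑ ^ q ≤
      ∫⁻ η, (∫⁻ x : ℝ × ℝ, ‖f (x.1 - η, x.2) - f x‖ₑ ^ q) ∂(gaussianReal 0 v) := by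
  have hm0 : Measurable (fun z : (ℝ × ℝ) × ℝ => f (z.1.1 - z.2, z.1.2) - f z.1) :=
    (tau2_meas f hfm).sub (hfm.comp measurable_fst)
  have hae := (tau2_int v f hfm hf).prod_right_ae
  calc ∫⁻ x, ‖Hv v f x - f x‖ₑ ^ q
      ≤ ∫⁻ x : ℝ × ℝ, ∫⁻ η, ‖f (x.1 - η, x.2) - f x‖ₑ ^ q ∂(gaussianReal 0 v) := by
        refine lintegral_mono_ae ?_
        filter_upwards [hae] with x hx
        have h1 : Hv v f x - f x = ∫ η, (f (x.1 - η, x.2) - f x) ∂(gaussianReal 0 v) := by
          rw [integral_sub hx (integrable_const _), integral_const]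
          simp [Hv]
        rw [h1]
        exact jensI (gaussianReal 0 v) q hq (fun η => f (x.1 - η, x.2) - f x)
          (hm0.comp (measurable_const.prodMk measurable_id)).aestronglyMeasurable
    _ = _ := by
        refine lintegral_lintegral_swap ?_
        exact (hm0.enorm.pow_const q).aemeasurable

theorem gauss_moment (v : ℝ≥0) (a : ℝ) (ha : 0 < a) (ha2 : a ≤ 2) :
    ∫⁻ η, ENNReal.ofReal (|η| ^ a) ∂(gaussianReal 0 v) ≤ ENNReal.ofReal ((v : ℝ) ^ (a / 2)) := by
  have h1 : ∫⁻ η, ENNReal.ofReal (η ^ 2) ∂(gaussianReal 0 v) = ENNReal.ofReal v := by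
    have h2 : ∫ η, η ^ 2 ∂(gaussianReal 0 v) = v := by
      have h3 := variance_of_integral_eq_zero (X := fun x : ℝ => x) (μ := gaussianReal 0 v)
        measurable_id.aemeasurable (by exact integral_id_gaussianReal)
      rw [variance_fun_id_gaussianReal] at h3
      exact h3.symm
    have h4 : Integrable (fun η : ℝ => η ^ 2) (gaussianReal 0 v) := by
      have := (memLp_id_gaussianReal (μ := 0) (v := v) 2).integrable_sq
      simpa using this
    rw [← ofReal_integral_eq_lintegral_ofReal h4 (Filter.Eventually.of_forall (fun x => sq_nonneg x)), h2]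
  have hq : (1 : ℝ) ≤ 2 / a := by rw [le_div_iff₀ ha]; linarith
  have hF : Measurable (fun η : ℝ => ((|η| ^ a : ℝ) : ℂ)) := by
    have : Measurable (fun η : ℝ => |η| ^ a) := (continuous_abs.measurable).pow_const a
    exact Complex.measurable_ofReal.comp this
  have hn : ∀ η : ℝ, ‖((|η| ^ a : ℝ) : ℂ)‖ₑ = ENNReal.ofReal (|η| ^ a) := by
    intro η
    rw [← ofReal_norm, Complex.norm_real, Real.norm_of_nonneg (by positivity)]
  have h5 := jens (gaussianReal 0 v) (2 / a) hq (fun η : ℝ => ((|η| ^ a : ℝ) : ℂ)) hF.aestronglyMeasurable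
  simp_rw [hn] at h5
  have h6 : ∀ η : ℝ, ENNReal.ofReal (|η| ^ a) ^ (2 / a) = ENNReal.ofReal (η ^ 2) := by
    intro η
    rw [ENNReal.ofReal_rpow_of_nonneg (by positivity) (by positivity), ← Real.rpow_mul (abs_nonneg _)]
    congr 1
    rw [mul_div_cancel₀ _ ha.ne', Real.rpow_two, sq_abs]
  simp_rw [h6] at h5
  rw [h1] at h5
  have h7 := ENNReal.rpow_le_rpow h5 (by positivity : 0 ≤ a / 2)
  rw [← ENNReal.rpow_mul, show 2 / a * (a / 2) = 1 by field_simp, ENNReal.rpow_one,
    ENNReal.ofReal_rpow_of_nonneg (NNReal.coe_nonneg v) (by positivity)] at h7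
  exact h7

/-- Remainder estimate. -/
theorem FR_rem (q : ℝ) (hq2 : 2 < q) (hq4 : q < 4) : ∃ C : ℝ, 0 < C ∧ ∀ R : ℝ, 1 ≤ R →
    ∀ (v : ℝ≥0) (f : ℝ × ℝ → ℂ) (a : ℝ) (D : ℝ≥0∞), 0 < a → a ≤ 2 → Measurable f → Integrable f →
    (∀ x : ℝ × ℝ, (1 < |x.1| ∨ 1 < |x.2|) → f x = 0) →
    (∀ η : ℝ, ∫⁻ x : ℝ × ℝ, ‖f (x.1 - η, x.2) - f x‖ₑ ^ q ≤ D * ENNReal.ofReal (|η| ^ a)) →
    FR q R (fun x => f x - Hv v f x) ≤
      ENNReal.ofReal (C * (1 + Real.log (1 + Real.sqrt R)) * R ^ ((4 - q) / 2) * (v : ℝ) ^ (a / 2)) * D := by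
  obtain ⟨C, hC, h1⟩ := FR_comp q hq2 hq4
  refine ⟨C, hC, ?_⟩
  intro R hR v f a D ha ha2 hfm hf hfs hD
  have hR0 : 0 < R := by linarith
  have hlog : 0 ≤ Real.log (1 + Real.sqrt R) := Real.log_nonneg (by linarith [Real.sqrt_nonneg R])
  have hrep : ∀ p b : ℝ × ℝ, T (fun x => f x - Hv v f x) p b =
      ∫ η, T (fun x => f x - tau η f x) p b ∂(gaussianReal 0 v) := by
    intro p b
    rw [T_sub f (Hv v f) hf (Hv_int v f hfm hf), T_Hv v f hfm hf]
    have h2 : ∀ η, T (fun x => f x - tau η f x) p b = T f p b - T (tau η f) p b := fun η =>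
      T_sub f (tau η f) hf (tau_int η f hf) p b
    simp_rw [h2]
    rw [integral_sub (integrable_const _) (T_tau_integrable _ f hfm hf p b), integral_const]
    simp
  have hgm : Measurable (fun w : ((ℝ × (ℝ × ℝ)) × ℝ) × (ℝ × ℝ) => f w.2 - tau w.1.2 f w.2) := by
    refine (hfm.comp measurable_snd).sub ?_
    have : Measurable (fun w : ((ℝ × (ℝ × ℝ)) × ℝ) × (ℝ × ℝ) => ((w.2.1 - w.1.2, w.2.2) : ℝ × ℝ)) :=
      ((measurable_fst.comp measurable_snd).sub (measurable_snd.comp measurable_fst)).prodMk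
        (measurable_snd.comp measurable_snd)
    exact hfm.comp this
  have hTm : Measurable (fun z : (ℝ × (ℝ × ℝ)) × ℝ => T (fun x => f x - tau z.2 f x) z.1.2 (z.1.1, z.1.1)) :=
    measurable_Tg (Z := (ℝ × (ℝ × ℝ)) × ℝ) (fun z x => f x - tau z.2 f x) hgm (fun z => z.1.2)
      (fun z => (z.1.1, z.1.1)) (measurable_snd.comp measurable_fst)
      ((measurable_fst.comp measurable_fst).prodMk (measurable_fst.comp measurable_fst))
  have hTm2 := hTm.enorm.pow_const q
  calc FR q R (fun x => f x - Hv v f x)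
      ≤ ∫⁻ t in DR R, ∫⁻ p : ℝ × ℝ, ∫⁻ η, ‖T (fun x => f x - tau η f x) p (t, t)‖ₑ ^ q ∂(gaussianReal 0 v) := by
        unfold FR Phi
        refine lintegral_mono (fun t => lintegral_mono (fun p => ?_))
        simp_rw [hrep]
        refine jensI (gaussianReal 0 v) q (by linarith) (fun η => T (fun x => f x - tau η f x) p (t, t)) ?_
        have h3 : Measurable (fun η : ℝ => (((t, p), η) : (ℝ × (ℝ × ℝ)) × ℝ)) :=
          measurable_const.prodMk measurable_id
        exact (hTm.comp h3).aestronglyMeasurable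
    _ = ∫⁻ η, FR q R (fun x => f x - tau η f x) ∂(gaussianReal 0 v) := by
        have e1 : ∀ t : ℝ, ∫⁻ p : ℝ × ℝ, ∫⁻ η, ‖T (fun x => f x - tau η f x) p (t, t)‖ₑ ^ q ∂(gaussianReal 0 v) =
            ∫⁻ η, (∫⁻ p : ℝ × ℝ, ‖T (fun x => f x - tau η f x) p (t, t)‖ₑ ^ q) ∂(gaussianReal 0 v) := by
          intro t
          refine lintegral_lintegral_swap ?_
          have h3 : Measurable (fun z : (ℝ × ℝ) × ℝ => (((t, z.1), z.2) : (ℝ × (ℝ × ℝ)) × ℝ)) :=
            (measurable_const.prodMk measurable_fst).prodMk measurable_snd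
          exact (hTm2.comp h3).aemeasurable
        simp_rw [e1]
        rw [lintegral_lintegral_swap]
        · rfl
        · have h3 : Measurable (fun w : (ℝ × ℝ) × (ℝ × ℝ) => (((w.1.1, w.2), w.1.2) : (ℝ × (ℝ × ℝ)) × ℝ)) :=
            ((measurable_fst.comp measurable_fst).prodMk measurable_snd).prodMk (measurable_snd.comp measurable_fst)
          have h4 := hTm2.comp h3
          exact (h4.lintegral_prod_right').aemeasurable
    _ ≤ ∫⁻ η, ENNReal.ofReal (C * (1 + Real.log (1 + Real.sqrt R)) * R ^ ((4 - q) / 2)) *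
          (D * ENNReal.ofReal (|η| ^ a)) ∂(gaussianReal 0 v) := by
        refine lintegral_mono (fun η => ?_)
        have hB : MeasurableSet (Icc (-1 : ℝ) 1 ∪ Icc (-1 + η) (1 + η)) := measurableSet_Icc.union measurableSet_Icc
        refine (h1 R hR (Icc (-1 : ℝ) 1 ∪ Icc (-1 + η) (1 + η)) (fun x => f x - tau η f x) hB ?_ ?_ ?_ ?_ ?_).trans ?_
        · refine (measure_union_le _ _).trans ?_
          rw [Real.volume_Icc, Real.volume_Icc, ← ENNReal.ofReal_add (by norm_num) (by linarith)]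
          have h4 : (4 : ℝ≥0∞) = ENNReal.ofReal 4 := by simp
          rw [h4]
          exact ENNReal.ofReal_le_ofReal (by linarith)
        · exact hfm.sub (tau_meas η f hfm)
        · exact hf.sub (tau_int η f hf)
        · intro x hx
          simp only [tau]
          rw [hfs x (Or.inr hx), hfs (x.1 - η, x.2) (Or.inr hx), sub_zero]
        · intro x hx
          have hx1 : x.1 ∉ Icc (-1 : ℝ) 1 := fun h => hx (Or.inl h)
          have hx2 : x.1 ∉ Icc (-1 + η) (1 + η) := fun h => hx (Or.inr h)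
          have g1 : 1 < |x.1| := by
            by_contra h
            push Not at h
            exact hx1 (abs_le.1 h)
          have g2 : 1 < |x.1 - η| := by
            by_contra h
            push Not at h
            have := abs_le.1 h
            exact hx2 ⟨by linarith [this.1], by linarith [this.2]⟩
          simp only [tau]
          rw [hfs x (Or.inl g1), hfs (x.1 - η, x.2) (Or.inl g2), sub_zero]
        · refine mul_le_mul_right ?_ _
          refine le_trans (le_of_eq ?_) (hD η)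
          refine lintegral_congr (fun x => ?_)
          congr 1
          rw [← enorm_neg]
          congr 1
          simp [tau]
    _ = ENNReal.ofReal (C * (1 + Real.log (1 + Real.sqrt R)) * R ^ ((4 - q) / 2)) *
          (D * ∫⁻ η, ENNReal.ofReal (|η| ^ a) ∂(gaussianReal 0 v)) := by
        have hm : Measurable (fun η : ℝ => ENNReal.ofReal (|η| ^ a)) :=
          ENNReal.measurable_ofReal.comp ((continuous_abs.measurable).pow_const a)
        rw [lintegral_const_mul' _ _ ENNReal.ofReal_ne_top, lintegral_const_mul _ hm]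
    _ ≤ ENNReal.ofReal (C * (1 + Real.log (1 + Real.sqrt R)) * R ^ ((4 - q) / 2)) *
          (D * ENNReal.ofReal ((v : ℝ) ^ (a / 2))) :=
        mul_le_mul_right (mul_le_mul_right (gauss_moment v a ha ha2) _) _
    _ = _ := by
        have hvp : (0 : ℝ) ≤ (v : ℝ) ^ (a / 2) := Real.rpow_nonneg v.2 _
        rw [mul_comm D, ← mul_assoc, ← ENNReal.ofReal_mul (by positivity)]

end X92.Ext
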