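import Pool.Agent.X92.Dir6
open MeasureTheory Set Complex ProbabilityTheory
open scoped ENNReal ComplexConjugate NNReal

namespace X92.Ext

theorem real_bound (q a ρ : ℝ) (hq3 : 3 < q) (hq4 : q < 4) (ha : a ≤ 1)
    (hρ1 : ρ ≤ q - 3) (hρ2 : ρ ≤ a - (4 - q) / 2) (ha0 : 0 < a) (n k : ℕ) (hk : k ≤ n) :
    ((2 : ℝ) ^ n) ^ ((4 - q) / 2) * ((2 : ℝ) ^ k / (2 : ℝ) ^ n + 1 / Real.sqrt ((2 : ℝ) ^ n)) ^ (q - 2) *
      (2 : ℝ) ^ (-((k : ℝ) * a)) ≤ 8 * (2 : ℝ) ^ (-(ρ * n)) := by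
  have hs1 : 1 < q - 2 := by linarith
  have hs2 : q - 2 < 2 := by linarith
  have hkn : (k : ℝ) ≤ n := by exact_mod_cast hk
  have hk0 : (0 : ℝ) ≤ k := Nat.cast_nonneg k
  have hn0 : (0 : ℝ) ≤ n := Nat.cast_nonneg n
  have e1 : (2 : ℝ) ^ k / (2 : ℝ) ^ n = (2 : ℝ) ^ ((k : ℝ) - n) := by
    rw [Real.rpow_sub (by norm_num), Real.rpow_natCast, Real.rpow_natCast]
  have e2 : 1 / Real.sqrt ((2 : ℝ) ^ n) = (2 : ℝ) ^ (-(n : ℝ) / 2) := by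
    rw [← Real.rpow_natCast, Real.sqrt_eq_rpow, ← Real.rpow_mul (by norm_num), one_div,
      ← Real.rpow_neg (by norm_num)]
    congr 1; ring
  have e3 : ((2 : ℝ) ^ n) ^ ((4 - q) / 2) = (2 : ℝ) ^ ((n : ℝ) * ((4 - q) / 2)) := by
    rw [← Real.rpow_natCast, ← Real.rpow_mul (by norm_num)]
  rw [e1, e2, e3]
  set x : ℝ := (2 : ℝ) ^ ((k : ℝ) - n) with hx
  set y : ℝ := (2 : ℝ) ^ (-(n : ℝ) / 2) with hy
  have hx0 : 0 < x := by positivity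
  have hy0 : 0 < y := by positivity
  have h1 : (x + y) ^ (q - 2) ≤ 4 * (x ^ (q - 2) + y ^ (q - 2)) := by
    have h4 : (2 : ℝ) ^ (q - 2) ≤ 4 := by
      calc (2 : ℝ) ^ (q - 2) ≤ (2 : ℝ) ^ (2 : ℝ) := Real.rpow_le_rpow_of_exponent_le (by norm_num) hs2.le
        _ = 4 := by norm_num
    have hx1 : 0 ≤ x ^ (q - 2) := Real.rpow_nonneg hx0.le _
    have hy1 : 0 ≤ y ^ (q - 2) := Real.rpow_nonneg hy0.le _
    rcases le_total x y with h | h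
    · calc (x + y) ^ (q - 2) ≤ (2 * y) ^ (q - 2) :=
            Real.rpow_le_rpow (by positivity) (by linarith) (by linarith)
        _ = (2 : ℝ) ^ (q - 2) * y ^ (q - 2) := Real.mul_rpow (by norm_num) hy0.le
        _ ≤ 4 * y ^ (q - 2) := mul_le_mul_of_nonneg_right h4 hy1
        _ ≤ _ := by linarith
    · calc (x + y) ^ (q - 2) ≤ (2 * x) ^ (q - 2) :=
            Real.rpow_le_rpow (by positivity) (by linarith) (by linarith)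
        _ = (2 : ℝ) ^ (q - 2) * x ^ (q - 2) := Real.mul_rpow (by norm_num) hx0.le
        _ ≤ 4 * x ^ (q - 2) := mul_le_mul_of_nonneg_right h4 hx1
        _ ≤ _ := by linarith
  have hxs : x ^ (q - 2) = (2 : ℝ) ^ (((k : ℝ) - n) * (q - 2)) := by
    rw [hx, ← Real.rpow_mul (by norm_num)]
  have hys : y ^ (q - 2) = (2 : ℝ) ^ ((-(n : ℝ) / 2) * (q - 2)) := by
    rw [hy, ← Real.rpow_mul (by norm_num)]
  have hb1 : (2 : ℝ) ^ ((n : ℝ) * ((4 - q) / 2)) * x ^ (q - 2) * (2 : ℝ) ^ (-((k : ℝ) * a)) ≤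
      (2 : ℝ) ^ (-(ρ * n)) := by
    rw [hxs, ← Real.rpow_add (by norm_num), ← Real.rpow_add (by norm_num)]
    refine Real.rpow_le_rpow_of_exponent_le (by norm_num) ?_
    have h5 : ((k : ℝ) - n) * (q - 2) ≤ ((k : ℝ) - n) * a := by
      refine mul_le_mul_of_nonpos_left (by linarith) (by linarith)
    have h6 : (n : ℝ) * ρ ≤ n * (a - (4 - q) / 2) := mul_le_mul_of_nonneg_left hρ2 hn0
    nlinarith
  have hb2 : (2 : ℝ) ^ ((n : ℝ) * ((4 - q) / 2)) * y ^ (q - 2) * (2 : ℝ) ^ (-((k : ℝ) * a)) ≤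
      (2 : ℝ) ^ (-(ρ * n)) := by
    rw [hys, ← Real.rpow_add (by norm_num), ← Real.rpow_add (by norm_num)]
    refine Real.rpow_le_rpow_of_exponent_le (by norm_num) ?_
    have h6 : (n : ℝ) * ρ ≤ n * (q - 3) := mul_le_mul_of_nonneg_left hρ1 hn0
    have h7 : 0 ≤ (k : ℝ) * a := by positivity
    nlinarith
  have hP : 0 ≤ (2 : ℝ) ^ ((n : ℝ) * ((4 - q) / 2)) := by positivity
  have hQ : 0 ≤ (2 : ℝ) ^ (-((k : ℝ) * a)) := by positivity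
  calc (2 : ℝ) ^ ((n : ℝ) * ((4 - q) / 2)) * (x + y) ^ (q - 2) * (2 : ℝ) ^ (-((k : ℝ) * a))
      ≤ (2 : ℝ) ^ ((n : ℝ) * ((4 - q) / 2)) * (4 * (x ^ (q - 2) + y ^ (q - 2))) * (2 : ℝ) ^ (-((k : ℝ) * a)) :=
        mul_le_mul_of_nonneg_right (mul_le_mul_of_nonneg_left h1 hP) hQ
    _ = 4 * ((2 : ℝ) ^ ((n : ℝ) * ((4 - q) / 2)) * x ^ (q - 2) * (2 : ℝ) ^ (-((k : ℝ) * a)) +
        (2 : ℝ) ^ ((n : ℝ) * ((4 - q) / 2)) * y ^ (q - 2) * (2 : ℝ) ^ (-((k : ℝ) * a))) := by ring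
    _ ≤ _ := by linarith

theorem log_dyadic (n : ℕ) : 1 + Real.log (1 + Real.sqrt ((2 : ℝ) ^ n)) ≤ (n : ℝ) + 2 := by
  have h1 : (1 : ℝ) ≤ (2 : ℝ) ^ n := one_le_pow₀ (by norm_num)
  have h2 : Real.sqrt ((2 : ℝ) ^ n) ≤ (2 : ℝ) ^ n := by
    rw [Real.sqrt_le_left (by positivity)]
    nlinarith
  have h3 : 1 + Real.sqrt ((2 : ℝ) ^ n) ≤ (2 : ℝ) ^ (n + 1) := by
    rw [pow_succ]; linarith
  have h4 : Real.log (1 + Real.sqrt ((2 : ℝ) ^ n)) ≤ Real.log ((2 : ℝ) ^ (n + 1)) :=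
    Real.log_le_log (by positivity) h3
  rw [Real.log_pow] at h4
  have h5 : Real.log 2 ≤ 1 := by
    have := Real.log_two_lt_d9
    linarith
  have h6 : ((n + 1 : ℕ) : ℝ) * Real.log 2 ≤ (n + 1 : ℕ) := by
    have : (0 : ℝ) ≤ ((n + 1 : ℕ) : ℝ) := Nat.cast_nonneg _
    nlinarith
  push_cast at h4 h6
  linarith

theorem T_Hv_sub (v : ℝ≥0) (g h : ℝ × ℝ → ℂ) (hgm : Measurable g) (hg : Integrable g) (hhm : Measurable h)
    (hh : Integrable h) (p b : ℝ × ℝ) :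
    T (Hv v (fun x => g x - h x)) p b = T (Hv v g) p b - T (Hv v h) p b := by
  have h1 := T_Hv v (fun x => g x - h x) (hgm.sub hhm) (hg.sub hh) p b
  rw [h1, T_Hv v g hgm hg, T_Hv v h hhm hh]
  rw [← integral_sub (T_tau_integrable _ g hgm hg p b) (T_tau_integrable _ h hhm hh p b)]
  congr 1
  ext η
  exact T_sub (tau η g) (tau η h) (tau_int η g hg) (tau_int η h hh) p b

noncomputable def vk (k : ℕ) : ℝ≥0 := (1 / 4) ^ k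
noncomputable def wk (k : ℕ) : ℝ≥0 := 7 / 4 * vk k

theorem vk_ne (k : ℕ) : vk k ≠ 0 := by unfold vk; positivity

theorem vk_wk (k : ℕ) : vk (k + 1) + wk k = vk k + vk k := by
  unfold wk vk
  rw [pow_succ]
  have : (1 / 4 : ℝ≥0) ^ k * (1 / 4) + 7 / 4 * (1 / 4) ^ k = (1 / 4) ^ k * (1 / 4 + 7 / 4) := by ring
  rw [this]
  have h2 : (1 / 4 + 7 / 4 : ℝ≥0) = 2 := by
    rw [← add_div]
    have : (1 + 7 : ℝ≥0) = 8 := by norm_num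
    rw [this]
    rw [div_eq_iff (by norm_num)]
    norm_num
  rw [h2]
  ring

/-- the k-th piece -/
noncomputable def gk' (f : ℝ × ℝ → ℂ) (k : ℕ) (x : ℝ × ℝ) : ℂ := Hv (vk (k + 1)) f x - Hv (wk k) f x

theorem gk'_meas (f : ℝ × ℝ → ℂ) (hfm : Measurable f) (k : ℕ) : Measurable (gk' f k) :=
  (Hv_meas _ f hfm).sub (Hv_meas _ f hfm)

theorem gk'_int (f : ℝ × ℝ → ℂ) (hfm : Measurable f) (hf : Integrable f) (k : ℕ) : Integrable (gk' f k) :=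
  (Hv_int _ f hfm hf).sub (Hv_int _ f hfm hf)

theorem tele (f : ℝ × ℝ → ℂ) (hfm : Measurable f) (hf : Integrable f) (n : ℕ) (p b : ℝ × ℝ) :
    T f p b = T (Hv (vk 0) (Hv (vk 0) f)) p b + ∑ k ∈ Finset.range n, T (Hv (vk (k + 1)) (gk' f k)) p b +
      T (fun x => f x - Hv (vk n + vk n) f x) p b := by
  have h1 : ∀ k, T (Hv (vk (k + 1)) (gk' f k)) p b =
      T (Hv (vk (k + 1) + vk (k + 1)) f) p b - T (Hv (vk k + vk k) f) p b := by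
    intro k
    have h2 := T_Hv_sub (vk (k + 1)) (Hv (vk (k + 1)) f) (Hv (wk k) f) (Hv_meas _ f hfm) (Hv_int _ f hfm hf)
      (Hv_meas _ f hfm) (Hv_int _ f hfm hf) p b
    rw [T_HvHv _ _ f hfm hf, T_HvHv _ _ f hfm hf, vk_wk] at h2
    exact h2
  simp_rw [h1]
  rw [Finset.sum_range_sub (fun k => T (Hv (vk k + vk k) f) p b) n, T_HvHv _ _ f hfm hf,
    T_sub f _ hf (Hv_int _ f hfm hf)]
  ring

theorem Hv_supp (v : ℝ≥0) (f : ℝ × ℝ → ℂ) (hfs : ∀ x : ℝ × ℝ, 1 < |x.2| → f x = 0) :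
    ∀ x : ℝ × ℝ, 1 < |x.2| → Hv v f x = 0 := by
  intro x hx
  unfold Hv
  have : ∀ η : ℝ, f (x.1 - η, x.2) = 0 := fun η => hfs _ hx
  simp [this]

theorem pow_split (q : ℝ) (hq : 1 ≤ q) (n : ℕ) (A C : ℂ) (B : ℕ → ℂ) :
    ‖A + ∑ k ∈ Finset.range n, B k + C‖ₑ ^ q ≤
      ENNReal.ofReal (4 ^ q * ((n : ℝ) + 1) ^ q) * (‖A‖ₑ ^ q + ∑ k ∈ Finset.range n, ‖B k‖ₑ ^ q + ‖C‖ₑ ^ q) := by
  have hq0 : 0 ≤ q := by linarith
  have h0 : ‖A + ∑ k ∈ Finset.range n, B k + C‖ₑ ≤ (‖A‖ₑ + ‖C‖ₑ) + ∑ k ∈ Finset.range n, ‖B k‖ₑ := by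
    calc ‖A + ∑ k ∈ Finset.range n, B k + C‖ₑ ≤ ‖A + ∑ k ∈ Finset.range n, B k‖ₑ + ‖C‖ₑ := enorm_add_le _ _
      _ ≤ (‖A‖ₑ + ‖∑ k ∈ Finset.range n, B k‖ₑ) + ‖C‖ₑ := by gcongr; exact enorm_add_le _ _
      _ ≤ (‖A‖ₑ + ∑ k ∈ Finset.range n, ‖B k‖ₑ) + ‖C‖ₑ := by gcongr; exact enorm_sum_le _ _
      _ = _ := by ring
  have h1 := ENNReal.rpow_le_rpow h0 hq0
  refine h1.trans ?_
  have h2 := ENNReal.rpow_add_le_mul_rpow_add_rpow (‖A‖ₑ + ‖C‖ₑ) (∑ k ∈ Finset.range n, ‖B k‖ₑ) hq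
  have h3 := ENNReal.rpow_add_le_mul_rpow_add_rpow ‖A‖ₑ ‖C‖ₑ hq
  have h4 := ENNReal.rpow_sum_le_const_mul_sum_rpow (Finset.range n) (fun k => ‖B k‖ₑ) hq
  rw [Finset.card_range] at h4
  have e2 : (2 : ℝ≥0∞) ^ (q - 1) = ENNReal.ofReal ((2 : ℝ) ^ (q - 1)) := by
    rw [← ENNReal.ofReal_rpow_of_pos (by norm_num)]; simp
  have en : (n : ℝ≥0∞) ^ (q - 1) = ENNReal.ofReal ((n : ℝ) ^ (q - 1)) := by
    rw [← ENNReal.ofReal_rpow_of_nonneg (Nat.cast_nonneg n) (by linarith), ENNReal.ofReal_natCast]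
  rw [e2] at h2 h3
  rw [en] at h4
  have hn0 : (0 : ℝ) ≤ n := Nat.cast_nonneg n
  have hnq : (1 : ℝ) ≤ ((n : ℝ) + 1) ^ q := Real.one_le_rpow (by linarith) hq0
  have h24 : (2 : ℝ) ^ (q - 1) * (2 : ℝ) ^ (q - 1) ≤ 4 ^ q * ((n : ℝ) + 1) ^ q := by
    have g1 : (2 : ℝ) ^ (q - 1) * (2 : ℝ) ^ (q - 1) = 4 ^ (q - 1) := by
      rw [← Real.mul_rpow (by norm_num) (by norm_num)]; norm_num
    have g2 : (4 : ℝ) ^ (q - 1) ≤ 4 ^ q := Real.rpow_le_rpow_of_exponent_le (by norm_num) (by linarith)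
    rw [g1]
    have g3 : (0 : ℝ) < 4 ^ q := by positivity
    nlinarith
  have h2n : (2 : ℝ) ^ (q - 1) * (n : ℝ) ^ (q - 1) ≤ 4 ^ q * ((n : ℝ) + 1) ^ q := by
    have g1 : (2 : ℝ) ^ (q - 1) ≤ 4 ^ q :=
      (Real.rpow_le_rpow (by norm_num) (by norm_num) (by linarith)).trans
        (Real.rpow_le_rpow_of_exponent_le (by norm_num) (by linarith) : (4 : ℝ) ^ (q - 1) ≤ 4 ^ q)
    have g2 : (n : ℝ) ^ (q - 1) ≤ ((n : ℝ) + 1) ^ q :=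
      (Real.rpow_le_rpow hn0 (by linarith) (by linarith)).trans
        (Real.rpow_le_rpow_of_exponent_le (by linarith) (by linarith) : ((n : ℝ) + 1) ^ (q - 1) ≤ ((n : ℝ) + 1) ^ q)
    exact mul_le_mul g1 g2 (Real.rpow_nonneg hn0 _) (by positivity)
  calc ((‖A‖ₑ + ‖C‖ₑ) + ∑ k ∈ Finset.range n, ‖B k‖ₑ) ^ q
      ≤ ENNReal.ofReal ((2 : ℝ) ^ (q - 1)) * ((‖A‖ₑ + ‖C‖ₑ) ^ q + (∑ k ∈ Finset.range n, ‖B k‖ₑ) ^ q) := h2
    _ ≤ ENNReal.ofReal ((2 : ℝ) ^ (q - 1)) * (ENNReal.ofReal ((2 : ℝ) ^ (q - 1)) * (‖A‖ₑ ^ q + ‖C‖ₑ ^ q) +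
        ENNReal.ofReal ((n : ℝ) ^ (q - 1)) * ∑ k ∈ Finset.range n, ‖B k‖ₑ ^ q) :=
        mul_le_mul_right (add_le_add h3 h4) _
    _ = ENNReal.ofReal ((2 : ℝ) ^ (q - 1) * (2 : ℝ) ^ (q - 1)) * (‖A‖ₑ ^ q + ‖C‖ₑ ^ q) +
        ENNReal.ofReal ((2 : ℝ) ^ (q - 1) * (n : ℝ) ^ (q - 1)) * ∑ k ∈ Finset.range n, ‖B k‖ₑ ^ q := by
        rw [mul_add, ← mul_assoc, ← mul_assoc, ← ENNReal.ofReal_mul (by positivity),
          ← ENNReal.ofReal_mul (by positivity)]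
    _ ≤ ENNReal.ofReal (4 ^ q * ((n : ℝ) + 1) ^ q) * (‖A‖ₑ ^ q + ‖C‖ₑ ^ q) +
        ENNReal.ofReal (4 ^ q * ((n : ℝ) + 1) ^ q) * ∑ k ∈ Finset.range n, ‖B k‖ₑ ^ q :=
        add_le_add (mul_le_mul_left (ENNReal.ofReal_le_ofReal h24) _)
          (mul_le_mul_left (ENNReal.ofReal_le_ofReal h2n) _)
    _ = _ := by ring

theorem FR_tele (q : ℝ) (hq : 1 ≤ q) (R : ℝ) (f : ℝ × ℝ → ℂ) (hfm : Measurable f) (hf : Integrable f) (n : ℕ) :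
    FR q R f ≤ ENNReal.ofReal (4 ^ q * ((n : ℝ) + 1) ^ q) * (FR q R (Hv (vk 0) (Hv (vk 0) f)) +
      ∑ k ∈ Finset.range n, FR q R (Hv (vk (k + 1)) (gk' f k)) + FR q R (fun x => f x - Hv (vk n + vk n) f x)) := by
  have hTm : ∀ g : ℝ × ℝ → ℂ, Measurable g → ∀ t : ℝ, Measurable (fun p : ℝ × ℝ => ‖T g p (t, t)‖ₑ ^ q) := by
    intro g hg t
    exact (measurable_Tc (Z := ℝ × ℝ) g hg (fun p => p) (fun _ => (t, t)) measurable_id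
      measurable_const).enorm.pow_const q
  have hPm : ∀ g : ℝ × ℝ → ℂ, Measurable g → Measurable (fun t : ℝ => Phi q g (t, t)) := by
    intro g hg
    exact (measurable_Phi q g hg).comp (measurable_id.prodMk measurable_id)
  have mA : Measurable (Hv (vk 0) (Hv (vk 0) f)) := Hv_meas _ _ (Hv_meas _ _ hfm)
  have mB : ∀ k, Measurable (Hv (vk (k + 1)) (gk' f k)) := fun k => Hv_meas _ _ (gk'_meas f hfm k)
  have mC : Measurable (fun x => f x - Hv (vk n + vk n) f x) := hfm.sub (Hv_meas _ _ hfm)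
  have h1 : ∀ t : ℝ, Phi q f (t, t) ≤ ENNReal.ofReal (4 ^ q * ((n : ℝ) + 1) ^ q) *
      (Phi q (Hv (vk 0) (Hv (vk 0) f)) (t, t) + ∑ k ∈ Finset.range n, Phi q (Hv (vk (k + 1)) (gk' f k)) (t, t) +
        Phi q (fun x => f x - Hv (vk n + vk n) f x) (t, t)) := by
    intro t
    unfold Phi
    rw [← lintegral_finset_sum _ (fun k _ => hTm _ (mB k) t), ← lintegral_add_left (hTm _ mA t),
      ← lintegral_add_right _ (hTm _ mC t), ← lintegral_const_mul' _ _ ENNReal.ofReal_ne_top]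
    refine lintegral_mono (fun p => ?_)
    have h2 := tele f hfm hf n p (t, t)
    rw [h2]
    exact pow_split q hq n _ _ _
  unfold FR
  rw [← lintegral_finset_sum _ (fun k _ => hPm _ (mB k)), ← lintegral_add_left (hPm _ mA),
      ← lintegral_add_right _ (hPm _ mC), ← lintegral_const_mul' _ _ ENNReal.ofReal_ne_top]
  exact lintegral_mono (fun t => h1 t)

end X92.Ext
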