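import Pool.Agent.X92.Dir7
open MeasureTheory Set Complex ProbabilityTheory
open scoped ENNReal ComplexConjugate NNReal

namespace X92.Ext

theorem Hv_mod (q : ℝ) (hq : 1 ≤ q) (v : ℝ≥0) (f : ℝ × ℝ → ℂ) (hfm : Measurable f) (hf : Integrable f)
    (a : ℝ) (D : ℝ≥0∞) (ha : 0 < a) (ha2 : a ≤ 2)
    (hD : ∀ η : ℝ, ∫⁻ x : ℝ × ℝ, ‖f (x.1 - η, x.2) - f x‖ₑ ^ q ≤ D * ENNReal.ofReal (|η| ^ a)) :
    ∫⁻ x, ‖Hv v f x - f x‖ₑ ^ q ≤ D * ENNReal.ofReal ((v : ℝ) ^ (a / 2)) := by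
  have hm : Measurable (fun η : ℝ => ENNReal.ofReal (|η| ^ a)) :=
    ENNReal.measurable_ofReal.comp ((continuous_abs.measurable).pow_const a)
  calc ∫⁻ x, ‖Hv v f x - f x‖ₑ ^ q
      ≤ ∫⁻ η, (∫⁻ x : ℝ × ℝ, ‖f (x.1 - η, x.2) - f x‖ₑ ^ q) ∂(gaussianReal 0 v) := Hv_sub_norm q hq v f hfm hf
    _ ≤ ∫⁻ η, D * ENNReal.ofReal (|η| ^ a) ∂(gaussianReal 0 v) := lintegral_mono (fun η => hD η)
    _ = D * ∫⁻ η, ENNReal.ofReal (|η| ^ a) ∂(gaussianReal 0 v) := lintegral_const_mul _ hm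
    _ ≤ _ := mul_le_mul_right (gauss_moment v a ha ha2) _

theorem vk_rpow (k : ℕ) (a : ℝ) : (vk k : ℝ) ^ (a / 2) = (2 : ℝ) ^ (-((k : ℝ) * a)) := by
  unfold vk
  push_cast
  rw [← Real.rpow_natCast, ← Real.rpow_mul (by norm_num)]
  have : (1 / 4 : ℝ) = (2 : ℝ) ^ (-2 : ℝ) := by
    rw [Real.rpow_neg (by norm_num)]; norm_num
  rw [this, ← Real.rpow_mul (by norm_num)]
  congr 1
  ring

theorem wk_eq (k : ℕ) : wk k = 7 * vk (k + 1) := by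
  unfold wk vk
  rw [pow_succ]
  have : (7 / 4 : ℝ≥0) = 7 * (1 / 4) := by rw [mul_one_div]
  rw [this]
  ring

theorem wk_rpow (k : ℕ) (a : ℝ) (ha2 : a ≤ 2) :
    (wk k : ℝ) ^ (a / 2) ≤ 7 * (2 : ℝ) ^ (-(((k + 1 : ℕ) : ℝ) * a)) := by
  rw [wk_eq]
  push_cast
  rw [Real.mul_rpow (by norm_num) (NNReal.coe_nonneg _)]
  have h1 := vk_rpow (k + 1) a
  rw [h1]
  push_cast
  refine mul_le_mul_of_nonneg_right ?_ (by positivity)
  calc (7 : ℝ) ^ (a / 2) ≤ (7 : ℝ) ^ (1 : ℝ) := Real.rpow_le_rpow_of_exponent_le (by norm_num) (by linarith)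
    _ = 7 := Real.rpow_one 7

theorem gk'_norm (q : ℝ) (hq : 1 ≤ q) (hq4 : q ≤ 4) (f : ℝ × ℝ → ℂ) (hfm : Measurable f) (hf : Integrable f)
    (a : ℝ) (D : ℝ≥0∞) (ha : 0 < a) (ha2 : a ≤ 2)
    (hD : ∀ η : ℝ, ∫⁻ x : ℝ × ℝ, ‖f (x.1 - η, x.2) - f x‖ₑ ^ q ≤ D * ENNReal.ofReal (|η| ^ a)) (k : ℕ) :
    ∫⁻ x, ‖gk' f k x‖ₑ ^ q ≤ ENNReal.ofReal (64 * (2 : ℝ) ^ (-(((k + 1 : ℕ) : ℝ) * a))) * D := by
  have h1 := Hv_mod q hq (vk (k + 1)) f hfm hf a D ha ha2 hD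
  have h2 := Hv_mod q hq (wk k) f hfm hf a D ha ha2 hD
  rw [vk_rpow] at h1
  have h2' : ∫⁻ x, ‖Hv (wk k) f x - f x‖ₑ ^ q ≤ D * ENNReal.ofReal (7 * (2 : ℝ) ^ (-(((k + 1 : ℕ) : ℝ) * a))) :=
    h2.trans (mul_le_mul_right (ENNReal.ofReal_le_ofReal (wk_rpow k a ha2)) _)
  have hm1 : Measurable (fun x => ‖Hv (vk (k + 1)) f x - f x‖ₑ ^ q) :=
    ((Hv_meas _ f hfm).sub hfm).enorm.pow_const q
  have h8 : (2 : ℝ≥0∞) ^ (q - 1) ≤ ENNReal.ofReal 8 := by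
    calc (2 : ℝ≥0∞) ^ (q - 1) ≤ (2 : ℝ≥0∞) ^ (3 : ℝ) :=
          ENNReal.rpow_le_rpow_of_exponent_le (by norm_num) (by linarith)
      _ = ENNReal.ofReal 8 := by
          rw [show (3 : ℝ) = ((3 : ℕ) : ℝ) by norm_num, ENNReal.rpow_natCast]
          norm_num
  have hX : 0 ≤ (2 : ℝ) ^ (-(((k + 1 : ℕ) : ℝ) * a)) := by positivity
  calc ∫⁻ x, ‖gk' f k x‖ₑ ^ q
      ≤ ∫⁻ x, (2 : ℝ≥0∞) ^ (q - 1) * (‖Hv (vk (k + 1)) f x - f x‖ₑ ^ q + ‖Hv (wk k) f x - f x‖ₑ ^ q) := by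
        refine lintegral_mono (fun x => ?_)
        have e1 : gk' f k x = (Hv (vk (k + 1)) f x - f x) - (Hv (wk k) f x - f x) := by unfold gk'; ring
        rw [e1]
        exact (ENNReal.rpow_le_rpow enorm_sub_le (by linarith)).trans
          (ENNReal.rpow_add_le_mul_rpow_add_rpow _ _ hq)
    _ = (2 : ℝ≥0∞) ^ (q - 1) * ((∫⁻ x, ‖Hv (vk (k + 1)) f x - f x‖ₑ ^ q) + ∫⁻ x, ‖Hv (wk k) f x - f x‖ₑ ^ q) := by
        have h9 : (2 : ℝ≥0∞) ^ (q - 1) ≠ ⊤ := ne_top_of_le_ne_top ENNReal.ofReal_ne_top h8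
        rw [lintegral_const_mul' _ _ h9, lintegral_add_left hm1]
    _ ≤ ENNReal.ofReal 8 * (D * ENNReal.ofReal ((2 : ℝ) ^ (-(((k + 1 : ℕ) : ℝ) * a))) +
        D * ENNReal.ofReal (7 * (2 : ℝ) ^ (-(((k + 1 : ℕ) : ℝ) * a)))) :=
        mul_le_mul' h8 (add_le_add h1 h2')
    _ = _ := by
        rw [← mul_add, ← ENNReal.ofReal_add hX (by positivity), mul_comm D, ← mul_assoc,
          ← ENNReal.ofReal_mul (by norm_num)]
        congr 2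
        ring

theorem FR_dyadic (q a : ℝ) (hq3 : 3 < q) (hq4 : q < 4) (ha1 : (4 - q) / 2 < a) (ha2 : a ≤ 1) (ρ : ℝ)
    (hρ1 : ρ ≤ q - 3) (hρ2 : ρ ≤ a - (4 - q) / 2) :
    ∃ C : ℝ, 0 < C ∧ ∀ (n : ℕ) (f : ℝ × ℝ → ℂ) (D : ℝ≥0∞), Measurable f → Integrable f →
    (∀ x : ℝ × ℝ, (1 < |x.1| ∨ 1 < |x.2|) → f x = 0) →
    (∀ η : ℝ, ∫⁻ x : ℝ × ℝ, ‖f (x.1 - η, x.2) - f x‖ₑ ^ q ≤ D * ENNReal.ofReal (|η| ^ a)) →
    ∫⁻ x, ‖f x‖ₑ ^ q ≤ D →
    FR q ((2 : ℝ) ^ n) f ≤ ENNReal.ofReal (C * (((n : ℝ) + 2) ^ 6 * (2 : ℝ) ^ (-(ρ * n)))) * D := by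
  have ha0 : 0 < a := by linarith
  have ha22 : a ≤ 2 := by linarith
  have hq1 : 1 ≤ q := by linarith
  obtain ⟨C1, hC1, h1⟩ := FR_smooth q (by linarith) hq4
  obtain ⟨C3, hC3, h3⟩ := FR_rem q (by linarith) hq4
  refine ⟨4 ^ q * (520 * C1 + 2 * C3), by positivity, ?_⟩
  intro n f D hfm hf hfs hD hfD
  set R : ℝ := (2 : ℝ) ^ n with hR
  have hR1 : 1 ≤ R := one_le_pow₀ (by norm_num)
  have hR0 : 0 < R := by linarith
  have hn0 : (0 : ℝ) ≤ n := Nat.cast_nonneg n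
  set Λ : ℝ := 1 + Real.log (1 + Real.sqrt R) with hΛ
  have hlog : 0 ≤ Real.log (1 + Real.sqrt R) := Real.log_nonneg (by linarith [Real.sqrt_nonneg R])
  have hΛ0 : 0 < Λ := by linarith
  have hΛn : Λ ≤ (n : ℝ) + 2 := log_dyadic n
  set P : ℝ := R ^ ((4 - q) / 2) with hP
  have hP0 : 0 < P := Real.rpow_pos_of_pos hR0 _
  set G : ℝ := (2 : ℝ) ^ (-(ρ * n)) with hG
  have hG0 : 0 < G := by positivity
  have hf2 : ∀ x : ℝ × ℝ, 1 < |x.2| → f x = 0 := fun x hx => hfs x (Or.inr hx)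
  -- first piece
  have hA : FR q R (Hv (vk 0) (Hv (vk 0) f)) ≤ ENNReal.ofReal (8 * C1 * ((n : ℝ) + 2) * G) * D := by
    have g1 := h1 R hR1 (vk 0) (Hv (vk 0) f) (vk_ne 0) (Hv_meas _ f hfm) (Hv_int _ f hfm hf) (Hv_supp _ f hf2)
    have g2 : ∫⁻ x, ‖Hv (vk 0) f x‖ₑ ^ q ≤ D := (Hv_norm q hq1 _ f hfm).trans hfD
    refine (g1.trans (mul_le_mul_right g2 _)).trans (mul_le_mul_left (ENNReal.ofReal_le_ofReal ?_) _)
    have g3 := real_bound q a ρ hq3 hq4 ha2 hρ1 hρ2 ha0 n 0 (Nat.zero_le n)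
    have e0 : (1 : ℝ) / (R * Real.sqrt (vk 0)) = (2 : ℝ) ^ 0 / (2 : ℝ) ^ n := by
      simp [vk, hR]
    rw [e0]
    have e1 : (2 : ℝ) ^ (-(((0 : ℕ) : ℝ) * a)) = 1 := by simp
    rw [e1, mul_one, ← hR, ← hP, ← hG] at g3
    calc C1 * Λ * P * ((2 : ℝ) ^ 0 / (2 : ℝ) ^ n + 1 / Real.sqrt R) ^ (q - 2)
        = C1 * Λ * (P * ((2 : ℝ) ^ 0 / R + 1 / Real.sqrt R) ^ (q - 2)) := by rw [hR]; ring
      _ ≤ C1 * ((n : ℝ) + 2) * (8 * G) := by gcongr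
      _ = _ := by ring
  -- middle pieces
  have hB : ∀ k ∈ Finset.range n, FR q R (Hv (vk (k + 1)) (gk' f k)) ≤
      ENNReal.ofReal (512 * C1 * ((n : ℝ) + 2) * G) * D := by
    intro k hk
    have hkn : k + 1 ≤ n := Finset.mem_range.1 hk
    have g1 := h1 R hR1 (vk (k + 1)) (gk' f k) (vk_ne _) (gk'_meas f hfm k) (gk'_int f hfm hf k) (by
      intro x hx
      unfold gk'
      rw [Hv_supp _ f hf2 x hx, Hv_supp _ f hf2 x hx, sub_zero])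
    have g2 := gk'_norm q hq1 hq4.le f hfm hf a D ha0 ha22 hD k
    refine (g1.trans (mul_le_mul_right g2 _)).trans ?_
    rw [← mul_assoc, ← ENNReal.ofReal_mul (by positivity)]
    refine mul_le_mul_left (ENNReal.ofReal_le_ofReal ?_) _
    have g3 := real_bound q a ρ hq3 hq4 ha2 hρ1 hρ2 ha0 n (k + 1) hkn
    have e0 : (1 : ℝ) / (R * Real.sqrt (vk (k + 1))) = (2 : ℝ) ^ (k + 1) / R := by
      have : Real.sqrt ((vk (k + 1) : ℝ≥0) : ℝ) = (1 / 2) ^ (k + 1) := by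
        unfold vk
        push_cast
        rw [Real.sqrt_eq_iff_mul_self_eq (by positivity) (by positivity), ← mul_pow]
        norm_num
      rw [this, one_div_pow]
      field_simp
    rw [e0]
    rw [← hR, ← hP, ← hG] at g3
    calc C1 * Λ * P * ((2 : ℝ) ^ (k + 1) / R + 1 / Real.sqrt R) ^ (q - 2) *
          (64 * (2 : ℝ) ^ (-(((k + 1 : ℕ) : ℝ) * a)))
        = 64 * C1 * Λ * (P * ((2 : ℝ) ^ (k + 1) / R + 1 / Real.sqrt R) ^ (q - 2) *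
          (2 : ℝ) ^ (-(((k + 1 : ℕ) : ℝ) * a))) := by ring
      _ ≤ 64 * C1 * ((n : ℝ) + 2) * (8 * G) := by gcongr
      _ = _ := by ring
  -- remainder
  have hC : FR q R (fun x => f x - Hv (vk n + vk n) f x) ≤ ENNReal.ofReal (2 * C3 * ((n : ℝ) + 2) * G) * D := by
    have g1 := h3 R hR1 (vk n + vk n) f a D ha0 ha22 hfm hf hfs hD
    refine g1.trans (mul_le_mul_left (ENNReal.ofReal_le_ofReal ?_) _)
    have e1 : ((vk n + vk n : ℝ≥0) : ℝ) ^ (a / 2) ≤ 2 * (2 : ℝ) ^ (-((n : ℝ) * a)) := by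
      push_cast
      rw [← two_mul, Real.mul_rpow (by norm_num) (NNReal.coe_nonneg _), vk_rpow]
      refine mul_le_mul_of_nonneg_right ?_ (by positivity)
      calc (2 : ℝ) ^ (a / 2) ≤ (2 : ℝ) ^ (1 : ℝ) := Real.rpow_le_rpow_of_exponent_le (by norm_num) (by linarith)
        _ = 2 := Real.rpow_one 2
    have e2 : P * (2 : ℝ) ^ (-((n : ℝ) * a)) ≤ G := by
      rw [hP, hR, hG, ← Real.rpow_natCast, ← Real.rpow_mul (by norm_num), ← Real.rpow_add (by norm_num)]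
      refine Real.rpow_le_rpow_of_exponent_le (by norm_num) ?_
      have h6 : (n : ℝ) * ρ ≤ n * (a - (4 - q) / 2) := mul_le_mul_of_nonneg_left hρ2 hn0
      nlinarith
    calc C3 * Λ * P * ((vk n + vk n : ℝ≥0) : ℝ) ^ (a / 2)
        ≤ C3 * Λ * P * (2 * (2 : ℝ) ^ (-((n : ℝ) * a))) := by gcongr
      _ = 2 * C3 * Λ * (P * (2 : ℝ) ^ (-((n : ℝ) * a))) := by ring
      _ ≤ 2 * C3 * ((n : ℝ) + 2) * G := by gcongr
  refine (FR_tele q hq1 R f hfm hf n).trans ?_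
  have hsum : ∑ k ∈ Finset.range n, FR q R (Hv (vk (k + 1)) (gk' f k)) ≤
      ENNReal.ofReal ((n : ℝ) * (512 * C1 * ((n : ℝ) + 2) * G)) * D := by
    refine (Finset.sum_le_sum hB).trans (le_of_eq ?_)
    rw [Finset.sum_const, Finset.card_range, nsmul_eq_mul, ← mul_assoc, ENNReal.ofReal_mul hn0,
      ENNReal.ofReal_natCast]
  calc ENNReal.ofReal (4 ^ q * ((n : ℝ) + 1) ^ q) * (FR q R (Hv (vk 0) (Hv (vk 0) f)) +
      ∑ k ∈ Finset.range n, FR q R (Hv (vk (k + 1)) (gk' f k)) + FR q R (fun x => f x - Hv (vk n + vk n) f x))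
      ≤ ENNReal.ofReal (4 ^ q * ((n : ℝ) + 1) ^ q) * (ENNReal.ofReal (8 * C1 * ((n : ℝ) + 2) * G) * D +
        ENNReal.ofReal ((n : ℝ) * (512 * C1 * ((n : ℝ) + 2) * G)) * D +
        ENNReal.ofReal (2 * C3 * ((n : ℝ) + 2) * G) * D) :=
        mul_le_mul_right (add_le_add (add_le_add hA hsum) hC) _
    _ = ENNReal.ofReal (4 ^ q * ((n : ℝ) + 1) ^ q * (8 * C1 * ((n : ℝ) + 2) * G +
        (n : ℝ) * (512 * C1 * ((n : ℝ) + 2) * G) + 2 * C3 * ((n : ℝ) + 2) * G)) * D := by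
        rw [← add_mul, ← add_mul, ← ENNReal.ofReal_add (by positivity) (by positivity),
          ← ENNReal.ofReal_add (by positivity) (by positivity), ← mul_assoc, ← ENNReal.ofReal_mul (by positivity)]
    _ ≤ _ := by
        refine mul_le_mul_left (ENNReal.ofReal_le_ofReal ?_) _
        have k1 : ((n : ℝ) + 1) ^ q ≤ ((n : ℝ) + 2) ^ 4 := by
          calc ((n : ℝ) + 1) ^ q ≤ ((n : ℝ) + 2) ^ q := Real.rpow_le_rpow (by linarith) (by linarith) (by linarith)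
            _ ≤ ((n : ℝ) + 2) ^ (4 : ℝ) := Real.rpow_le_rpow_of_exponent_le (by linarith) hq4.le
            _ = ((n : ℝ) + 2) ^ 4 := by
              rw [show (4 : ℝ) = ((4 : ℕ) : ℝ) by norm_num, Real.rpow_natCast]
        have k2 : 8 * C1 * ((n : ℝ) + 2) * G + (n : ℝ) * (512 * C1 * ((n : ℝ) + 2) * G) +
            2 * C3 * ((n : ℝ) + 2) * G ≤ (520 * C1 + 2 * C3) * ((n : ℝ) + 2) ^ 2 * G := by
          have k3 : 0 ≤ C1 * ((n : ℝ) + 2) * G := by positivity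
          have k4 : 0 ≤ C3 * ((n : ℝ) + 2) * G := by positivity
          nlinarith [mul_nonneg hn0 k3, mul_nonneg hn0 k4]
        calc 4 ^ q * ((n : ℝ) + 1) ^ q * (8 * C1 * ((n : ℝ) + 2) * G +
            (n : ℝ) * (512 * C1 * ((n : ℝ) + 2) * G) + 2 * C3 * ((n : ℝ) + 2) * G)
            ≤ 4 ^ q * ((n : ℝ) + 2) ^ 4 * ((520 * C1 + 2 * C3) * ((n : ℝ) + 2) ^ 2 * G) := by
              gcongr
          _ = _ := by ring

/-- The extension inequality in the full range under one-directional smoothness. -/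
theorem dir_main (q a : ℝ) (hq3 : 3 < q) (hq4 : q < 4) (ha1 : (4 - q) / 2 < a) (ha2 : a ≤ 1) :
    ∃ C : ℝ, 0 < C ∧ ∀ (f : ℝ × ℝ → ℂ) (D : ℝ≥0∞), Measurable f → Integrable f →
    (∀ x : ℝ × ℝ, (1 < |x.1| ∨ 1 < |x.2|) → f x = 0) →
    (∀ η : ℝ, ∫⁻ x : ℝ × ℝ, ‖f (x.1 - η, x.2) - f x‖ₑ ^ q ≤ D * ENNReal.ofReal (|η| ^ a)) →
    ∫⁻ x, ‖f x‖ₑ ^ q ≤ D →
    ∫⁻ t : ℝ, Phi q f (t, t) ≤ ENNReal.ofReal C * D := by
  set ρ : ℝ := min (q - 3) (a - (4 - q) / 2) with hρ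
  have hρ0 : 0 < ρ := lt_min (by linarith) (by linarith)
  obtain ⟨C, hC, h⟩ := FR_dyadic q a hq3 hq4 ha1 ha2 ρ (min_le_left _ _) (min_le_right _ _)
  set δ : ℝ := (2 : ℝ) ^ (-ρ) with hδ
  have hδ0 : 0 < δ := by positivity
  have hδ1 : δ < 1 := Real.rpow_lt_one_of_one_lt_of_neg (by norm_num) (by linarith)
  have hδn : ∀ n : ℕ, (2 : ℝ) ^ (-(ρ * n)) = δ ^ n := by
    intro n
    rw [hδ, ← Real.rpow_natCast, ← Real.rpow_mul (by norm_num)]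
    congr 1; ring
  have hsum0 : Summable (fun n : ℕ => ((n : ℝ) + 2) ^ 6 * δ ^ n) := by
    have h1 : Summable (fun n : ℕ => (n : ℝ) ^ 6 * δ ^ n) :=
      summable_pow_mul_geometric_of_norm_lt_one 6 (by rw [Real.norm_of_nonneg hδ0.le]; exact hδ1)
    have h2 := (summable_nat_add_iff 2).2 h1
    have h3 := h2.mul_left (δ ^ 2)⁻¹
    refine h3.congr (fun n => ?_)
    push_cast
    rw [pow_add]
    field_simp
  have hs : Summable (fun n : ℕ => C * (((n : ℝ) + 2) ^ 6 * δ ^ n)) := hsum0.mul_left C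
  set S : ℝ := ∑' n : ℕ, C * (((n : ℝ) + 2) ^ 6 * δ ^ n) with hS
  have hS0 : 0 ≤ S := tsum_nonneg (fun n => by positivity)
  refine ⟨2 * (8 * Real.pi ^ 2 * 4 ^ q) + S, by positivity, ?_⟩
  intro f D hfm hf hfs hD hfD
  have hcover : (univ : Set ℝ) ⊆ Icc (-1 : ℝ) 1 ∪ ⋃ j : ℕ, DR ((2 : ℝ) ^ j) := by
    intro t _
    rcases le_or_gt (|t|) 1 with h1 | h1
    · exact Or.inl (abs_le.1 h1)
    · right
      obtain ⟨n, hn1, hn2⟩ := exists_nat_pow_near h1.le (by norm_num : (1 : ℝ) < 2)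
      refine mem_iUnion.2 ⟨n, hn1, ?_⟩
      rw [pow_succ] at hn2
      linarith
  calc ∫⁻ t : ℝ, Phi q f (t, t) = ∫⁻ t in univ, Phi q f (t, t) := by rw [Measure.restrict_univ]
    _ ≤ ∫⁻ t in Icc (-1 : ℝ) 1 ∪ ⋃ j : ℕ, DR ((2 : ℝ) ^ j), Phi q f (t, t) := lintegral_mono_set hcover
    _ ≤ (∫⁻ t in Icc (-1 : ℝ) 1, Phi q f (t, t)) + ∑' j : ℕ, ∫⁻ t in DR ((2 : ℝ) ^ j), Phi q f (t, t) :=
        (lintegral_union_le _ _ _).trans (add_le_add le_rfl (lintegral_iUnion_le _ _))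
    _ ≤ ENNReal.ofReal (2 * (8 * Real.pi ^ 2 * 4 ^ q)) * D + ENNReal.ofReal S * D := by
        refine add_le_add ?_ ?_
        · calc ∫⁻ t in Icc (-1 : ℝ) 1, Phi q f (t, t)
              ≤ ∫⁻ t in Icc (-1 : ℝ) 1, ENNReal.ofReal (8 * Real.pi ^ 2 * 4 ^ q) * ∫⁻ x, ‖f x‖ₑ ^ q :=
                lintegral_mono (fun t => Phi_le q (by linarith) f hf hfs _)
            _ = ENNReal.ofReal (2 * (8 * Real.pi ^ 2 * 4 ^ q)) * ∫⁻ x, ‖f x‖ₑ ^ q := by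
                rw [lintegral_const, Measure.restrict_apply_univ, Real.volume_Icc]
                have e1 : (1 : ℝ) - -1 = 2 := by norm_num
                rw [e1, mul_right_comm, ← ENNReal.ofReal_mul (by positivity)]
                congr 2
                ring
            _ ≤ _ := mul_le_mul_right hfD _
        · calc ∑' j : ℕ, ∫⁻ t in DR ((2 : ℝ) ^ j), Phi q f (t, t)
              ≤ ∑' j : ℕ, ENNReal.ofReal (C * (((j : ℝ) + 2) ^ 6 * δ ^ j)) * D := by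
                refine ENNReal.tsum_le_tsum (fun j => ?_)
                have h1 := h j f D hfm hf hfs hD hfD
                rw [hδn] at h1
                exact h1
            _ = (∑' j : ℕ, ENNReal.ofReal (C * (((j : ℝ) + 2) ^ 6 * δ ^ j))) * D := ENNReal.tsum_mul_right
            _ = _ := by
                congr 1
                rw [← ENNReal.ofReal_tsum_of_nonneg (fun j => by positivity) hs]
    _ = _ := by
        rw [← add_mul, ← ENNReal.ofReal_add (by positivity) hS0]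

end X92.Ext
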