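import Pool.Agent.X92.Dir8
open MeasureTheory Set Complex ProbabilityTheory
open scoped ENNReal ComplexConjugate NNReal

namespace X92.Ext

theorem dir_final (q a : ℝ) (hq3 : 3 < q) (hq4 : q < 4) (ha : (4 - q) / 2 < a) :
    ∃ C : ℝ, 0 < C ∧ ∀ (f : ℝ × ℝ → ℂ) (D : ℝ≥0∞), AEStronglyMeasurable f →
      (∀ x : ℝ × ℝ, (1 < |x.1| ∨ 1 < |x.2|) → f x = 0) →
      (∀ h : ℝ, |h| ≤ 1 → ∫⁻ x : ℝ × ℝ, ‖f (x.1 + h, x.2) - f x‖ₑ ^ q ≤ D * ENNReal.ofReal (|h| ^ a)) →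
      ∫⁻ ξ : ℝ × ℝ × ℝ, ‖EL 1 f ξ‖ₑ ^ q ≤ ENNReal.ofReal C * (D + ∫⁻ x, ‖f x‖ₑ ^ q) := by
  have hq0 : 0 < q := by linarith
  have hq1 : 1 ≤ q := by linarith
  set a' : ℝ := min a 1 with ha'
  have ha'1 : (4 - q) / 2 < a' := lt_min ha (by linarith)
  have ha'0 : 0 < a' := by linarith
  obtain ⟨C, hC, hmain⟩ := dir_main q a' hq3 hq4 ha'1 (min_le_right _ _)
  refine ⟨C * 2 ^ q, by positivity, ?_⟩
  intro f D hf hfs hfD
  obtain ⟨g, hgm, hgs, hfg, hE⟩ := exists_rep f hf hfs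
  have hEL : ∀ ξ, EL 1 f ξ = EL 1 g ξ := by
    intro ξ
    have := hE 1 one_pos 1 ξ
    simpa [str] using this
  have hN : ∫⁻ x, ‖f x‖ₑ ^ q = ∫⁻ x, ‖g x‖ₑ ^ q := by
    refine lintegral_congr_ae ?_
    filter_upwards [hfg] with x hx
    rw [hx]
  have hgD : ∀ h : ℝ, |h| ≤ 1 → ∫⁻ x : ℝ × ℝ, ‖g (x.1 + h, x.2) - g x‖ₑ ^ q ≤ D * ENNReal.ofReal (|h| ^ a) := by
    intro h hh
    refine le_trans (le_of_eq ?_) (hfD h hh)
    refine lintegral_congr_ae ?_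
    have h1 : (fun x : ℝ × ℝ => f (x.1 - -h, x.2)) =ᵐ[volume] fun x : ℝ × ℝ => g (x.1 - -h, x.2) :=
      (mp_tau (-h)).quasiMeasurePreserving.ae_eq_comp hfg
    filter_upwards [hfg, h1] with x hx hx1
    simp only [sub_neg_eq_add] at hx1
    rw [hx, hx1]
  simp_rw [hEL]
  rw [hN]
  by_cases hfin : ∫⁻ x, ‖g x‖ₑ ^ q = ⊤
  · rw [hfin, add_top, ENNReal.mul_top (ENNReal.ofReal_pos.2 (by positivity)).ne']
    exact le_top
  have hgi : Integrable g := integrable_of_supp q hq1 g hgm.aestronglyMeasurable hgs hfin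
  have h2q : (1 : ℝ≥0∞) ≤ ENNReal.ofReal (2 ^ q) := by
    rw [← ENNReal.ofReal_one]
    exact ENNReal.ofReal_le_ofReal (Real.one_le_rpow (by norm_num) hq0.le)
  have h2e : (2 : ℝ≥0∞) ^ (q - 1) = ENNReal.ofReal ((2 : ℝ) ^ (q - 1)) := by
    rw [← ENNReal.ofReal_rpow_of_pos (by norm_num)]; simp
  have hmod : ∀ η : ℝ, ∫⁻ x : ℝ × ℝ, ‖g (x.1 - η, x.2) - g x‖ₑ ^ q ≤
      (D + ENNReal.ofReal (2 ^ q) * ∫⁻ x, ‖g x‖ₑ ^ q) * ENNReal.ofReal (|η| ^ a') := by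
    intro η
    rcases le_or_gt (|η|) 1 with h1 | h1
    · have h2 := hgD (-η) (by rwa [abs_neg])
      simp only [← sub_eq_add_neg, abs_neg] at h2
      refine h2.trans (mul_le_mul' le_self_add (ENNReal.ofReal_le_ofReal ?_))
      rcases eq_or_lt_of_le (abs_nonneg η) with h0 | h0
      · rw [← h0, Real.zero_rpow (by linarith), Real.zero_rpow ha'0.ne']
      · exact Real.rpow_le_rpow_of_exponent_ge h0 h1 (min_le_left _ _)
    · have hone : (1 : ℝ≥0∞) ≤ ENNReal.ofReal (|η| ^ a') := by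
        rw [← ENNReal.ofReal_one]
        exact ENNReal.ofReal_le_ofReal (Real.one_le_rpow h1.le ha'0.le)
      calc ∫⁻ x : ℝ × ℝ, ‖g (x.1 - η, x.2) - g x‖ₑ ^ q
          ≤ ∫⁻ x : ℝ × ℝ, (2 : ℝ≥0∞) ^ (q - 1) * (‖g (x.1 - η, x.2)‖ₑ ^ q + ‖g x‖ₑ ^ q) := by
            refine lintegral_mono (fun x => ?_)
            exact (ENNReal.rpow_le_rpow enorm_sub_le hq0.le).trans
              (ENNReal.rpow_add_le_mul_rpow_add_rpow _ _ hq1)
        _ = (2 : ℝ≥0∞) ^ (q - 1) * ((∫⁻ x, ‖g x‖ₑ ^ q) + ∫⁻ x, ‖g x‖ₑ ^ q) := by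
            have h9 : (2 : ℝ≥0∞) ^ (q - 1) ≠ ⊤ := by rw [h2e]; exact ENNReal.ofReal_ne_top
            have hm1 : Measurable (fun x : ℝ × ℝ => ‖g (x.1 - η, x.2)‖ₑ ^ q) :=
              (tau_meas η g hgm).enorm.pow_const q
            rw [lintegral_const_mul' _ _ h9, lintegral_add_left hm1,
              tau_lint η (fun x => ‖g x‖ₑ ^ q) (hgm.enorm.pow_const q)]
        _ = ENNReal.ofReal (2 ^ q) * ∫⁻ x, ‖g x‖ₑ ^ q := by
            rw [← two_mul, ← mul_assoc, h2e]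
            congr 1
            have : (2 : ℝ≥0∞) = ENNReal.ofReal 2 := by simp
            rw [this, ← ENNReal.ofReal_mul (by positivity)]
            congr 1
            rw [Real.rpow_sub_one (by norm_num)]
            field_simp
        _ ≤ (D + ENNReal.ofReal (2 ^ q) * ∫⁻ x, ‖g x‖ₑ ^ q) * 1 := by
            rw [mul_one]; exact le_add_self
        _ ≤ _ := mul_le_mul_right hone _
  have hfD2 : ∫⁻ x, ‖g x‖ₑ ^ q ≤ D + ENNReal.ofReal (2 ^ q) * ∫⁻ x, ‖g x‖ₑ ^ q := by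
    calc ∫⁻ x, ‖g x‖ₑ ^ q = 1 * ∫⁻ x, ‖g x‖ₑ ^ q := (one_mul _).symm
      _ ≤ ENNReal.ofReal (2 ^ q) * ∫⁻ x, ‖g x‖ₑ ^ q := mul_le_mul_left h2q _
      _ ≤ _ := le_add_self
  have h3 := hmain g _ hgm hgi hgs hmod hfD2
  rw [norm_EL q 1 g hgm]
  simp only [one_mul]
  refine h3.trans ?_
  rw [ENNReal.ofReal_mul hC.le, mul_assoc]
  refine mul_le_mul_right ?_ _
  rw [mul_add]
  refine add_le_add ?_ le_rfl
  calc D = 1 * D := (one_mul _).symm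
    _ ≤ _ := mul_le_mul_left h2q _

end X92.Ext
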