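import Mathlib
open MeasureTheory Set Complex
open scoped ENNReal ComplexConjugate

namespace X92.Ext

variable {Ξ X : Type*} [MeasurableSpace Ξ] [MeasurableSpace X]

/-- The `T T*` bound for a weighted `L²` norm of an oscillatory integral. -/
theorem tt (ν : Measure Ξ) [SFinite ν] (μ : Measure X) [SFinite μ]
    (e : Ξ → X → ℂ) (he : Measurable (Function.uncurry e)) (h1 : ∀ ξ x, ‖e ξ x‖ ≤ 1)
    (w : Ξ → ℝ) (hw : Integrable w ν) (hw0 : ∀ ξ, 0 ≤ w ξ)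
    (F : X → ℂ) (hF : Integrable F μ) (K : X → X → ℝ)
    (hK : ∀ x x', ‖∫ ξ, (w ξ : ℂ) * (e ξ x * conj (e ξ x')) ∂ν‖ ≤ K x x') :
    ∫⁻ ξ, ‖∫ x, F x * e ξ x ∂μ‖ₑ ^ 2 * ENNReal.ofReal (w ξ) ∂ν ≤
      ∫⁻ x, ∫⁻ x', ‖F x‖ₑ * ‖F x'‖ₑ * ENNReal.ofReal (K x x') ∂μ ∂μ := by
  classical
  set S : Ξ → ℂ := fun ξ => ∫ x, F x * e ξ x ∂μ with hS
  have hSmeas : AEStronglyMeasurable S ν := by
    have h : AEStronglyMeasurable (fun z : Ξ × X => F z.2 * e z.1 z.2) (ν.prod μ) :=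
      (hF.aestronglyMeasurable.comp_snd).mul he.aestronglyMeasurable
    exact h.integral_prod_right'
  set H : Ξ → X × X → ℂ := fun ξ z =>
    (w ξ : ℂ) * ((F z.1 * conj (F z.2)) * (e ξ z.1 * conj (e ξ z.2))) with hH
  have hFF : Integrable (fun z : X × X => F z.1 * conj (F z.2)) (μ.prod μ) := by
    have h2 : Integrable (fun x => conj (F x)) μ := by
      refine (integrable_norm_iff ?_).1 ?_
      · exact Complex.continuous_conj.comp_aestronglyMeasurable hF.aestronglyMeasurable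
      · simpa using hF.norm
    exact hF.mul_prod h2
  have hem : Measurable (fun y : Ξ × (X × X) => e y.1 y.2.1 * conj (e y.1 y.2.2)) := by
    have ha : Measurable (fun y : Ξ × (X × X) => e y.1 y.2.1) :=
      he.comp (measurable_fst.prodMk (measurable_fst.comp measurable_snd))
    have hb : Measurable (fun y : Ξ × (X × X) => e y.1 y.2.2) :=
      he.comp (measurable_fst.prodMk (measurable_snd.comp measurable_snd))
    exact ha.mul (Complex.continuous_conj.measurable.comp hb)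
  have hHint : Integrable (Function.uncurry H) (ν.prod (μ.prod μ)) := by
    have h3 : Integrable (fun y : Ξ × (X × X) => (w y.1 : ℂ) * (F y.2.1 * conj (F y.2.2)))
        (ν.prod (μ.prod μ)) := (hw.ofReal (𝕜 := ℂ)).mul_prod hFF
    have h4 := h3.bdd_mul (c := 1) (g := fun y : Ξ × (X × X) => (w y.1 : ℂ) * (F y.2.1 * conj (F y.2.2)))
      (f := fun y : Ξ × (X × X) => e y.1 y.2.1 * conj (e y.1 y.2.2)) hem.aestronglyMeasurable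
      (Filter.Eventually.of_forall (fun y => by
        rw [norm_mul, RCLike.norm_conj]
        calc _ ≤ (1:ℝ) * 1 := mul_le_mul (h1 _ _) (h1 _ _) (norm_nonneg _) zero_le_one
          _ = 1 := by norm_num))
    refine h4.congr (Filter.Eventually.of_forall (fun y => ?_))
    simp only [Function.uncurry, hH]
    ring
  have hSS : ∀ ξ, (w ξ : ℂ) * (S ξ * conj (S ξ)) = ∫ z, H ξ z ∂(μ.prod μ) := by
    intro ξ
    have h5 : conj (S ξ) = ∫ x, conj (F x * e ξ x) ∂μ := by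
      rw [hS]; exact (integral_conj).symm
    rw [h5]
    simp only [hH]
    rw [integral_const_mul]
    congr 1
    rw [hS]
    rw [← integral_prod_mul (μ := μ) (ν := μ) (fun x => F x * e ξ x) (fun x => conj (F x * e ξ x))]
    congr 1
    ext z
    simp only [map_mul]
    ring
  have hLHS : ∫⁻ ξ, ‖S ξ‖ₑ ^ 2 * ENNReal.ofReal (w ξ) ∂ν = ‖∫ ξ, (w ξ : ℂ) * (S ξ * conj (S ξ)) ∂ν‖ₑ := by
    have h6 : ∀ ξ, (w ξ : ℂ) * (S ξ * conj (S ξ)) = ((‖S ξ‖ ^ 2 * w ξ : ℝ) : ℂ) := by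
      intro ξ
      rw [Complex.mul_conj, Complex.normSq_eq_norm_sq]
      push_cast; ring
    simp_rw [h6]
    have h7 : ∫ ξ, ((‖S ξ‖ ^ 2 * w ξ : ℝ) : ℂ) ∂ν = ((∫ ξ, ‖S ξ‖ ^ 2 * w ξ ∂ν : ℝ) : ℂ) :=
      integral_ofReal
    rw [h7]
    have h8 : Integrable (fun ξ => ‖S ξ‖ ^ 2 * w ξ) ν := by
      refine hw.bdd_mul (c := (∫ x, ‖F x‖ ∂μ) ^ 2) (hSmeas.norm.pow 2) (Filter.Eventually.of_forall (fun ξ => ?_))
      rw [Real.norm_of_nonneg (by positivity)]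
      refine pow_le_pow_left₀ (norm_nonneg _) ?_ 2
      refine (norm_integral_le_integral_norm _).trans ?_
      refine integral_mono_of_nonneg (Filter.Eventually.of_forall (fun x => norm_nonneg _)) hF.norm
        (Filter.Eventually.of_forall (fun x => ?_))
      simp only [norm_mul]
      calc _ ≤ ‖F x‖ * 1 := mul_le_mul_of_nonneg_left (h1 _ _) (norm_nonneg _)
        _ = _ := mul_one _
    have h9 : 0 ≤ ∫ ξ, ‖S ξ‖ ^ 2 * w ξ ∂ν := integral_nonneg (fun ξ => mul_nonneg (by positivity) (hw0 ξ))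
    have h10 : ‖((∫ ξ, ‖S ξ‖ ^ 2 * w ξ ∂ν : ℝ) : ℂ)‖ₑ = ENNReal.ofReal (∫ ξ, ‖S ξ‖ ^ 2 * w ξ ∂ν) := by
      rw [← ofReal_norm, Complex.norm_real, Real.norm_of_nonneg h9]
    rw [h10, ofReal_integral_eq_lintegral_ofReal h8
      (Filter.Eventually.of_forall (fun ξ => mul_nonneg (by positivity) (hw0 ξ)))]
    refine lintegral_congr (fun ξ => ?_)
    rw [ENNReal.ofReal_mul (by positivity), ENNReal.ofReal_pow (norm_nonneg _), ofReal_norm]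
  rw [hLHS]
  have hswap : ∫ ξ, (w ξ : ℂ) * (S ξ * conj (S ξ)) ∂ν =
      ∫ z, (F z.1 * conj (F z.2)) * (∫ ξ, (w ξ : ℂ) * (e ξ z.1 * conj (e ξ z.2)) ∂ν) ∂(μ.prod μ) := by
    simp_rw [hSS]
    rw [integral_integral_swap hHint]
    congr 1
    ext z
    rw [← integral_const_mul]
    congr 1
    ext ξ
    simp only [hH]
    ring
  rw [hswap]
  refine (enorm_integral_le_lintegral_enorm _).trans ?_
  have hKm : AEStronglyMeasurable (fun z : X × X => ∫ ξ, (w ξ : ℂ) * (e ξ z.1 * conj (e ξ z.2)) ∂ν)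
      (μ.prod μ) := by
    have h11 : AEStronglyMeasurable (fun y : (X × X) × Ξ => (w y.2 : ℂ) * (e y.2 y.1.1 * conj (e y.2 y.1.2)))
        ((μ.prod μ).prod ν) := by
      refine AEStronglyMeasurable.mul ?_ ?_
      · exact (Complex.continuous_ofReal.comp_aestronglyMeasurable hw.aestronglyMeasurable).comp_snd
      · exact (hem.comp (measurable_snd.prodMk measurable_fst)).aestronglyMeasurable
    exact h11.integral_prod_right'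
  rw [lintegral_prod]
  swap
  · exact (hFF.aestronglyMeasurable.mul hKm).enorm
  refine lintegral_mono (fun x => lintegral_mono (fun x' => ?_))
  rw [enorm_mul, enorm_mul]
  have h12 : ‖conj (F x')‖ₑ = ‖F x'‖ₑ := by
    rw [← ofReal_norm, ← ofReal_norm, RCLike.norm_conj]
  rw [h12]
  refine mul_le_mul_right ?_ _
  rw [← ofReal_norm]
  exact ENNReal.ofReal_le_ofReal (hK x x')


theorem schur (μ : Measure X) [SFinite μ] (F : X → ℂ) (hF : AEStronglyMeasurable F μ)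
    (K : X → X → ℝ) (hKm : Measurable (Function.uncurry K)) (hsymm : ∀ x x', K x x' = K x' x) :
    ∫⁻ x, ∫⁻ x', ‖F x‖ₑ * ‖F x'‖ₑ * ENNReal.ofReal (K x x') ∂μ ∂μ ≤
      2 * ∫⁻ x, ‖F x‖ₑ ^ 2 * ∫⁻ x', ENNReal.ofReal (K x x') ∂μ ∂μ := by
  have hK2 : Measurable (fun z : X × X => ENNReal.ofReal (K z.1 z.2)) :=
    ENNReal.measurable_ofReal.comp hKm
  have hA : AEMeasurable (fun z : X × X => ‖F z.1‖ₑ ^ 2 * ENNReal.ofReal (K z.1 z.2)) (μ.prod μ) :=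
    ((hF.comp_fst (ν := μ)).enorm.pow_const 2).mul hK2.aemeasurable
  have hB : AEMeasurable (fun z : X × X => ‖F z.2‖ₑ ^ 2 * ENNReal.ofReal (K z.1 z.2)) (μ.prod μ) :=
    ((hF.comp_snd (μ := μ)).enorm.pow_const 2).mul hK2.aemeasurable
  have hAB : AEMeasurable (fun z : X × X => ‖F z.1‖ₑ * ‖F z.2‖ₑ * ENNReal.ofReal (K z.1 z.2)) (μ.prod μ) :=
    ((hF.comp_fst (ν := μ)).enorm.mul (hF.comp_snd (μ := μ)).enorm).mul hK2.aemeasurable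
  have h1 : ∫⁻ x, ∫⁻ x', ‖F x‖ₑ * ‖F x'‖ₑ * ENNReal.ofReal (K x x') ∂μ ∂μ =
      ∫⁻ z, ‖F z.1‖ₑ * ‖F z.2‖ₑ * ENNReal.ofReal (K z.1 z.2) ∂(μ.prod μ) :=
    (lintegral_prod _ hAB).symm
  have h2 : ∫⁻ z, ‖F z.1‖ₑ ^ 2 * ENNReal.ofReal (K z.1 z.2) ∂(μ.prod μ) =
      ∫⁻ x, ‖F x‖ₑ ^ 2 * ∫⁻ x', ENNReal.ofReal (K x x') ∂μ ∂μ := by
    rw [lintegral_prod _ hA]
    refine lintegral_congr (fun x => ?_)
    have hm : Measurable (fun x' => ENNReal.ofReal (K x x')) :=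
      hK2.comp (measurable_const.prodMk measurable_id)
    show ∫⁻ y, ‖F x‖ₑ ^ 2 * ENNReal.ofReal (K x y) ∂μ = _
    rw [lintegral_const_mul _ hm]
  have h3 : ∫⁻ z, ‖F z.2‖ₑ ^ 2 * ENNReal.ofReal (K z.1 z.2) ∂(μ.prod μ) =
      ∫⁻ z, ‖F z.1‖ₑ ^ 2 * ENNReal.ofReal (K z.1 z.2) ∂(μ.prod μ) := by
    rw [← lintegral_prod_swap]
    refine lintegral_congr (fun z => ?_)
    simp only [Prod.fst_swap, Prod.snd_swap]
    rw [hsymm]
  rw [h1, ← h2, two_mul]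
  nth_rewrite 2 [← h3]
  rw [← lintegral_add_left' hA]
  refine lintegral_mono (fun z => ?_)
  rw [← add_mul]
  refine mul_le_mul_left ?_ _
  rcases le_total (‖F z.1‖ₑ) (‖F z.2‖ₑ) with h | h
  · calc ‖F z.1‖ₑ * ‖F z.2‖ₑ ≤ ‖F z.2‖ₑ * ‖F z.2‖ₑ := mul_le_mul_left h _
      _ = ‖F z.2‖ₑ ^ 2 := (sq _).symm
      _ ≤ _ := le_add_self
  · calc ‖F z.1‖ₑ * ‖F z.2‖ₑ ≤ ‖F z.1‖ₑ * ‖F z.1‖ₑ := mul_le_mul_right h _
      _ = ‖F z.1‖ₑ ^ 2 := (sq _).symm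
      _ ≤ _ := le_self_add

theorem gauss1 (ρ : ℝ) (hρ : 0 < ρ) (a : ℝ) :
    ∫ ξ : ℝ, ((Real.exp (-(ξ ^ 2) / ρ ^ 2) : ℝ) : ℂ) * cexp (-(I * ((ξ : ℂ) * (a : ℂ)))) =
      ((Real.sqrt Real.pi * ρ * Real.exp (-(ρ ^ 2 * a ^ 2) / 4) : ℝ) : ℂ) := by
  have hb : 0 < (((1 / ρ ^ 2 : ℝ) : ℂ)).re := by
    rw [Complex.ofReal_re]; positivity
  have h := fourierIntegral_gaussian hb ((-a : ℝ) : ℂ)
  have h2 : ∫ ξ : ℝ, ((Real.exp (-(ξ ^ 2) / ρ ^ 2) : ℝ) : ℂ) * cexp (-(I * ((ξ : ℂ) * (a : ℂ)))) =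
      ∫ x : ℝ, cexp (I * ((-a : ℝ) : ℂ) * x) * cexp (-((1 / ρ ^ 2 : ℝ) : ℂ) * x ^ 2) := by
    congr 1
    ext x
    rw [Complex.ofReal_exp, mul_comm]
    congr 1
    · congr 1; push_cast; ring
    · congr 1; push_cast; ring
  rw [h2, h]
  push_cast
  have h3 : ((Real.pi : ℂ) / (1 / (ρ : ℂ) ^ 2)) = ((Real.pi * ρ ^ 2 : ℝ) : ℂ) := by
    push_cast
    field_simp
  rw [h3]
  have h4 : ((Real.pi * ρ ^ 2 : ℝ) : ℂ) ^ (1 / 2 : ℂ) = ((Real.sqrt Real.pi * ρ : ℝ) : ℂ) := by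
    have : (1 / 2 : ℂ) = ((1 / 2 : ℝ) : ℂ) := by push_cast; ring
    rw [this, ← Complex.ofReal_cpow (by positivity), ← Real.sqrt_eq_rpow,
      Real.sqrt_mul Real.pi_pos.le, Real.sqrt_sq hρ.le]
  rw [h4]
  push_cast
  congr 2
  have hρ' : (ρ : ℂ) ≠ 0 := by exact_mod_cast hρ.ne'
  field_simp

/-- The Gaussian weight on `ℝ × ℝ`. -/
noncomputable def gw (ρ : ℝ) (ξ : ℝ × ℝ) : ℝ := Real.exp (-(ξ.1 ^ 2 + ξ.2 ^ 2) / ρ ^ 2)

theorem gw_eq (ρ : ℝ) (ξ : ℝ × ℝ) :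
    gw ρ ξ = Real.exp (-(ξ.1 ^ 2) / ρ ^ 2) * Real.exp (-(ξ.2 ^ 2) / ρ ^ 2) := by
  rw [gw, ← Real.exp_add]; congr 1; ring

theorem gw_nonneg (ρ : ℝ) (ξ : ℝ × ℝ) : 0 ≤ gw ρ ξ := (Real.exp_pos _).le

theorem integrable_gauss (ρ : ℝ) (hρ : 0 < ρ) :
    Integrable (fun ξ : ℝ => Real.exp (-(ξ ^ 2) / ρ ^ 2)) := by
  have h := integrable_exp_neg_mul_sq (b := 1 / ρ ^ 2) (by positivity)
  refine h.congr (Filter.Eventually.of_forall (fun x => ?_))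
  simp only
  congr 1; ring

theorem integrable_gw (ρ : ℝ) (hρ : 0 < ρ) : Integrable (gw ρ) := by
  have h := (integrable_gauss ρ hρ).mul_prod (integrable_gauss ρ hρ)
  rw [← Measure.volume_eq_prod] at h
  refine h.congr (Filter.Eventually.of_forall (fun x => ?_))
  simp only
  rw [gw_eq]

/-- phase with two frequencies -/
noncomputable def ph (ξ : ℝ × ℝ) (y : ℝ × ℝ) : ℂ := cexp (-(I * ((ξ.1 : ℂ) * (y.1 : ℂ) + (ξ.2 : ℂ) * (y.2 : ℂ))))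

theorem ph_eq (ξ y : ℝ × ℝ) : ph ξ y = cexp (((-(ξ.1 * y.1 + ξ.2 * y.2) : ℝ) : ℂ) * I) := by
  rw [ph]; congr 1; push_cast; ring

theorem norm_ph (ξ y : ℝ × ℝ) : ‖ph ξ y‖ = 1 := by
  rw [ph_eq, Complex.norm_exp_ofReal_mul_I]

theorem ph_add (ξ y z : ℝ × ℝ) : ph ξ (y + z) = ph ξ y * ph ξ z := by
  rw [ph, ph, ph, ← Complex.exp_add]; congr 1
  simp only [Prod.fst_add, Prod.snd_add]; push_cast; ring

theorem conj_ph (ξ y : ℝ × ℝ) : conj (ph ξ y) = ph ξ (-y) := by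
  rw [ph, ph, ← Complex.exp_conj]; congr 1
  simp only [map_neg, map_mul, map_add, Complex.conj_I, Complex.conj_ofReal, Prod.fst_neg, Prod.snd_neg]
  push_cast; ring

theorem continuous_ph : Continuous (fun z : (ℝ × ℝ) × (ℝ × ℝ) => ph z.1 z.2) := by
  unfold ph
  fun_prop

theorem gauss2 (ρ : ℝ) (hρ : 0 < ρ) (y : ℝ × ℝ) :
    ∫ ξ : ℝ × ℝ, ((gw ρ ξ : ℝ) : ℂ) * ph ξ y =
      ((Real.pi * ρ ^ 2 * Real.exp (-(ρ ^ 2 * (y.1 ^ 2 + y.2 ^ 2)) / 4) : ℝ) : ℂ) := by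
  have h1 : ∀ ξ : ℝ × ℝ, ((gw ρ ξ : ℝ) : ℂ) * ph ξ y =
      (((Real.exp (-(ξ.1 ^ 2) / ρ ^ 2) : ℝ) : ℂ) * cexp (-(I * ((ξ.1 : ℂ) * (y.1 : ℂ))))) *
      (((Real.exp (-(ξ.2 ^ 2) / ρ ^ 2) : ℝ) : ℂ) * cexp (-(I * ((ξ.2 : ℂ) * (y.2 : ℂ))))) := by
    intro ξ
    rw [gw_eq, ph]
    have : cexp (-(I * ((ξ.1 : ℂ) * (y.1 : ℂ) + (ξ.2 : ℂ) * (y.2 : ℂ)))) =
        cexp (-(I * ((ξ.1 : ℂ) * (y.1 : ℂ)))) * cexp (-(I * ((ξ.2 : ℂ) * (y.2 : ℂ)))) := by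
      rw [← Complex.exp_add]; congr 1; ring
    rw [this]; push_cast; ring
  simp_rw [h1]
  rw [Measure.volume_eq_prod, integral_prod_mul
    (fun ξ : ℝ => ((Real.exp (-(ξ ^ 2) / ρ ^ 2) : ℝ) : ℂ) * cexp (-(I * ((ξ : ℂ) * (y.1 : ℂ)))))
    (fun ξ : ℝ => ((Real.exp (-(ξ ^ 2) / ρ ^ 2) : ℝ) : ℂ) * cexp (-(I * ((ξ : ℂ) * (y.2 : ℂ))))),
    gauss1 ρ hρ, gauss1 ρ hρ, ← Complex.ofReal_mul]
  congr 1
  have h2 : Real.exp (-(ρ ^ 2 * (y.1 ^ 2 + y.2 ^ 2)) / 4) =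
      Real.exp (-(ρ ^ 2 * y.1 ^ 2) / 4) * Real.exp (-(ρ ^ 2 * y.2 ^ 2) / 4) := by
    rw [← Real.exp_add]; congr 1; ring
  rw [h2]
  have h3 : Real.sqrt Real.pi * Real.sqrt Real.pi = Real.pi := Real.mul_self_sqrt Real.pi_pos.le
  calc _ = (Real.sqrt Real.pi * Real.sqrt Real.pi) * ρ ^ 2 * (Real.exp (-(ρ ^ 2 * y.1 ^ 2) / 4) *
        Real.exp (-(ρ ^ 2 * y.2 ^ 2) / 4)) := by ring
    _ = _ := by rw [h3]

/-- the Gaussian kernel -/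
noncomputable def gk (ρ : ℝ) (y : ℝ × ℝ) : ℝ :=
  Real.pi * ρ ^ 2 * Real.exp (-(ρ ^ 2 * (y.1 ^ 2 + y.2 ^ 2)) / 4)

theorem gk_nonneg (ρ : ℝ) (y : ℝ × ℝ) : 0 ≤ gk ρ y := by unfold gk; positivity

theorem gk_neg (ρ : ℝ) (y : ℝ × ℝ) : gk ρ (-y) = gk ρ y := by
  simp [gk]

theorem continuous_gk (ρ : ℝ) : Continuous (gk ρ) := by unfold gk; fun_prop

theorem ttg (μ : Measure X) [SFinite μ] (ρ : ℝ) (hρ : 0 < ρ) (φ : X → ℝ × ℝ) (hφ : Measurable φ)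
    (F : X → ℂ) (hF : Integrable F μ) :
    ∫⁻ ξ : ℝ × ℝ, ‖∫ x, F x * ph ξ (φ x) ∂μ‖ₑ ^ 2 * ENNReal.ofReal (gw ρ ξ) ≤
      2 * ∫⁻ x, ‖F x‖ₑ ^ 2 * ∫⁻ x', ENNReal.ofReal (gk ρ (φ x - φ x')) ∂μ ∂μ := by
  refine (tt volume μ (fun ξ x => ph ξ (φ x)) ?_ (fun ξ x => (norm_ph _ _).le) (gw ρ)
    (integrable_gw ρ hρ) (gw_nonneg ρ) F hF (fun x x' => gk ρ (φ x - φ x')) ?_).trans ?_
  · have h1 : Measurable (fun z : (ℝ × ℝ) × X => (z.1, φ z.2)) :=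
      measurable_fst.prodMk (hφ.comp measurable_snd)
    have h2 : Measurable (fun z : (ℝ × ℝ) × (ℝ × ℝ) => ph z.1 z.2) := continuous_ph.measurable
    have h3 := h2.comp h1
    simpa only [Function.uncurry_def, Function.comp_def] using h3
  · intro x x'
    have : ∀ ξ : ℝ × ℝ, ((gw ρ ξ : ℝ) : ℂ) * (ph ξ (φ x) * conj (ph ξ (φ x'))) =
        ((gw ρ ξ : ℝ) : ℂ) * ph ξ (φ x - φ x') := by
      intro ξ
      rw [conj_ph, ← ph_add, sub_eq_add_neg]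
    simp_rw [this]
    rw [gauss2 ρ hρ, Complex.norm_real, Real.norm_of_nonneg]
    · rfl
    · exact gk_nonneg ρ _
  · refine schur μ F hF.aestronglyMeasurable _ ?_ ?_
    · have h1 : Measurable (fun z : X × X => φ z.1 - φ z.2) :=
        (hφ.comp measurable_fst).sub (hφ.comp measurable_snd)
      have h2 : Measurable (gk ρ) := (continuous_gk ρ).measurable
      exact h2.comp h1
    · intro x x'
      rw [← gk_neg, neg_sub]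

end X92.Ext
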