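import Pool.Agent.X92.Ext9
open MeasureTheory Set Complex
open scoped ENNReal ComplexConjugate

namespace X92.Ext

theorem EL_le (l : ℝ) (f : ℝ × ℝ → ℂ) (ξ : ℝ × ℝ × ℝ) : ‖EL l f ξ‖ₑ ≤ ∫⁻ x, ‖f x‖ₑ := by
  rw [EL_eq]; exact T_le _ _ _

/-- Averaged extension theorem in the full range `q > 3`, measurable integrable functions. -/
theorem avgStr' (q a b : ℝ) (hq3 : 3 < q) (ha : 0 < a) (hab : a ≤ b) :
    ∃ C : ℝ, 0 < C ∧ ∀ f : ℝ × ℝ → ℂ, Measurable f → Integrable f →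
      (∀ x : ℝ × ℝ, (1 < |x.1| ∨ 1 < |x.2|) → f x = 0) →
      ∫⁻ s in Icc a b, ∫⁻ ξ, ‖EL 1 (fun x => f (str s x)) ξ‖ₑ ^ q ≤ ENNReal.ofReal C * ∫⁻ x, ‖f x‖ₑ ^ q := by
  rcases lt_or_ge q 4 with hq4 | hq4
  · exact avgStr q a b hq3 hq4 ha hab
  obtain ⟨C, hC, h⟩ := avgStr (7 / 2) a b (by norm_num) (by norm_num) ha hab
  refine ⟨(a⁻¹) ^ (q - 7 / 2) * C * 4 ^ q, by positivity, ?_⟩
  intro f hfm hf hsupp
  have h1 := h f hfm hf hsupp
  set m := ∫⁻ x, ‖f x‖ₑ with hm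
  have hmfin : m ≠ ⊤ := hf.2.ne
  have hqr : 0 ≤ q - 7 / 2 := by linarith
  have hpt : ∀ s ∈ Icc a b, ∫⁻ ξ, ‖EL 1 (fun x => f (str s x)) ξ‖ₑ ^ q ≤
      (ENNReal.ofReal (a⁻¹) * m) ^ (q - 7 / 2) * ∫⁻ ξ, ‖EL 1 (fun x => f (str s x)) ξ‖ₑ ^ (7 / 2 : ℝ) := by
    intro s hs
    have hs0 : 0 < s := lt_of_lt_of_le ha hs.1
    have hle : ∀ ξ, ‖EL 1 (fun x => f (str s x)) ξ‖ₑ ≤ ENNReal.ofReal (a⁻¹) * m := by
      intro ξ
      refine (EL_le _ _ _).trans ?_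
      rw [lint_str s hs0.ne' (fun x => ‖f x‖ₑ) hfm.enorm, abs_of_pos (inv_pos.2 hs0)]
      exact mul_le_mul_left (ENNReal.ofReal_le_ofReal (inv_anti₀ ha hs.1)) _
    rw [← lintegral_const_mul' _ _ (ENNReal.rpow_ne_top_of_nonneg hqr (ENNReal.mul_ne_top ENNReal.ofReal_ne_top hmfin))]
    refine lintegral_mono (fun ξ => ?_)
    have e1 : ‖EL 1 (fun x => f (str s x)) ξ‖ₑ ^ q =
        ‖EL 1 (fun x => f (str s x)) ξ‖ₑ ^ (q - 7 / 2) * ‖EL 1 (fun x => f (str s x)) ξ‖ₑ ^ (7 / 2 : ℝ) := by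
      rw [← ENNReal.rpow_add_of_nonneg _ _ hqr (by norm_num)]
      congr 1; ring
    rw [e1]
    exact mul_le_mul_left (ENNReal.rpow_le_rpow (hle ξ) hqr) _
  refine (setLIntegral_mono' measurableSet_Icc hpt).trans ?_
  rw [lintegral_const_mul' _ _ (ENNReal.rpow_ne_top_of_nonneg hqr (ENNReal.mul_ne_top ENNReal.ofReal_ne_top hmfin))]
  refine (mul_le_mul_right h1 _).trans ?_
  have h2 := holder_pack (7 / 2) q (by norm_num) (by linarith) f hf.aestronglyMeasurable hsupp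
  rw [ENNReal.mul_rpow_of_nonneg _ _ hqr]
  calc ENNReal.ofReal a⁻¹ ^ (q - 7 / 2) * m ^ (q - 7 / 2) * (ENNReal.ofReal C * ∫⁻ x, ‖f x‖ₑ ^ (7 / 2 : ℝ))
      = ENNReal.ofReal a⁻¹ ^ (q - 7 / 2) * ENNReal.ofReal C * (m ^ (q - 7 / 2) * ∫⁻ x, ‖f x‖ₑ ^ (7 / 2 : ℝ)) := by ring
    _ ≤ ENNReal.ofReal a⁻¹ ^ (q - 7 / 2) * ENNReal.ofReal C * (ENNReal.ofReal (4 ^ q) * ∫⁻ x, ‖f x‖ₑ ^ q) :=
        mul_le_mul_right h2 _
    _ = _ := by
        rw [ENNReal.ofReal_rpow_of_pos (by positivity), ← mul_assoc, ← ENNReal.ofReal_mul (by positivity),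
          ← ENNReal.ofReal_mul (by positivity)]

theorem integrable_of_supp (q : ℝ) (hq : 1 ≤ q) (f : ℝ × ℝ → ℂ) (hf : AEStronglyMeasurable f)
    (hsupp : ∀ x : ℝ × ℝ, (1 < |x.1| ∨ 1 < |x.2|) → f x = 0) (hfin : ∫⁻ x, ‖f x‖ₑ ^ q ≠ ⊤) :
    Integrable f := by
  refine ⟨hf, ?_⟩
  by_contra hcon
  have htop : ∫⁻ x, ‖f x‖ₑ = ⊤ := by
    rw [HasFiniteIntegral] at hcon
    exact not_lt_top_iff.1 hcon
  have h1 : ∫⁻ x, ‖f x‖ₑ ≤ ENNReal.ofReal 4 + ∫⁻ x, ‖f x‖ₑ ^ q := by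
    have e0 : ∫⁻ x, ‖f x‖ₑ = ∫⁻ x in QQ, ‖f x‖ₑ ^ (1 : ℝ) := by
      rw [← supp_eq f hsupp 1 one_pos]; simp
    rw [e0, supp_eq f hsupp q (by linarith)]
    have h4 : ENNReal.ofReal 4 = ∫⁻ x in QQ, (1 : ℝ≥0∞) := by
      rw [lintegral_const, Measure.restrict_apply_univ, volume_QQ]; simp
    rw [h4, ← lintegral_add_left measurable_const]
    refine lintegral_mono (fun x => ?_)
    rcases le_total (‖f x‖ₑ) 1 with h | h
    · rw [ENNReal.rpow_one]; exact h.trans le_self_add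
    · exact (ENNReal.rpow_le_rpow_of_exponent_le h hq).trans le_add_self
  rw [htop] at h1
  have : ENNReal.ofReal 4 + ∫⁻ x, ‖f x‖ₑ ^ q ≠ ⊤ := ENNReal.add_ne_top.2 ⟨ENNReal.ofReal_ne_top, hfin⟩
  exact this (top_le_iff.1 h1)

/-- A measurable representative. -/
theorem exists_rep (f : ℝ × ℝ → ℂ) (hf : AEStronglyMeasurable f)
    (hsupp : ∀ x : ℝ × ℝ, (1 < |x.1| ∨ 1 < |x.2|) → f x = 0) :
    ∃ g : ℝ × ℝ → ℂ, Measurable g ∧ (∀ x : ℝ × ℝ, (1 < |x.1| ∨ 1 < |x.2|) → g x = 0) ∧ f =ᵐ[volume] g ∧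
      ∀ s : ℝ, 0 < s → ∀ l ξ, EL l (fun x => f (str s x)) ξ = EL l (fun x => g (str s x)) ξ := by
  refine ⟨QQ.indicator (hf.mk f), hf.stronglyMeasurable_mk.measurable.indicator measurableSet_QQ, ?_, ?_, ?_⟩
  · intro x hx
    refine indicator_of_notMem ?_ _
    intro h
    rcases hx with hx | hx
    · exact absurd (abs_le.2 h.1) (not_le.2 hx)
    · exact absurd (abs_le.2 h.2) (not_le.2 hx)
  · filter_upwards [hf.ae_eq_mk] with x hx
    by_cases h : x ∈ QQ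
    · rw [indicator_of_mem h, hx]
    · rw [indicator_of_notMem h]
      refine hsupp x ?_
      by_contra hcon
      push Not at hcon
      exact h ⟨abs_le.1 hcon.1, abs_le.1 hcon.2⟩
  · intro s hs l ξ
    have hae : f =ᵐ[volume] QQ.indicator (hf.mk f) := by
      filter_upwards [hf.ae_eq_mk] with x hx
      by_cases h : x ∈ QQ
      · rw [indicator_of_mem h, hx]
      · rw [indicator_of_notMem h]
        refine hsupp x ?_
        by_contra hcon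
        push Not at hcon
        exact h ⟨abs_le.1 hcon.1, abs_le.1 hcon.2⟩
    have hq : Measure.QuasiMeasurePreserving (str s) (volume : Measure (ℝ × ℝ)) volume := by
      refine ⟨measurable_str s, ?_⟩
      rw [map_str s hs.ne']
      exact Measure.smul_absolutelyContinuous
    have h2 := hq.ae_eq hae
    unfold EL
    refine integral_congr_ae ?_
    filter_upwards [h2] with x hx
    simp only [Function.comp] at hx
    rw [hx]

end X92.Ext
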