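import Pool.Agent.X92.Ext10
open MeasureTheory Set Complex
open scoped ENNReal ComplexConjugate

namespace X92.Ext

/-- the dyadic time region `R ≤ |t| ≤ 2R`. -/
def DR (R : ℝ) : Set ℝ := {t : ℝ | R ≤ |t| ∧ |t| ≤ 2 * R}

theorem measurableSet_DR (R : ℝ) : MeasurableSet (DR R) := by
  have hc : Measurable (fun t : ℝ => |t|) := by fun_prop
  exact (measurableSet_le measurable_const hc).inter (measurableSet_le hc measurable_const)

theorem volume_DR_le (R : ℝ) (hR : 0 < R) : volume (DR R) ≤ ENNReal.ofReal (4 * R) := by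
  have : DR R ⊆ Icc (-(2 * R)) (2 * R) := fun t ht => abs_le.1 ht.2
  refine (measure_mono this).trans (le_of_eq ?_)
  rw [Real.volume_Icc]; congr 1; ring

theorem piece' (q Λ R : ℝ) (hR : 0 < R) (hΛ : 0 ≤ Λ) (f : ℝ × ℝ → ℂ) (hfm : Measurable f) (B : ℝ≥0∞)
    (h : ∫⁻ b, Phi q f b * ENNReal.ofReal (gw R b) ≤ B) :
    ∫⁻ l in Icc (-Λ) Λ, ∫⁻ t in DR R, Phi q f (t, l * t) ≤
      ENNReal.ofReal (1 / R) * (ENNReal.ofReal (Real.exp (4 + 4 * Λ ^ 2)) * B) := by
  have hPm := measurable_Phi q f hfm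
  have hS : MeasurableSet {b : ℝ × ℝ | |b.1| ≤ 2 * R ∧ |b.2| ≤ 2 * Λ * R} := by
    have hc1 : Measurable (fun b : ℝ × ℝ => |b.1|) := by fun_prop
    have hc2 : Measurable (fun b : ℝ × ℝ => |b.2|) := by fun_prop
    exact (measurableSet_le hc1 measurable_const).inter (measurableSet_le hc2 measurable_const)
  have h1 : ∫⁻ b in {b : ℝ × ℝ | |b.1| ≤ 2 * R ∧ |b.2| ≤ 2 * Λ * R}, Phi q f b ≤
      ENNReal.ofReal (Real.exp (4 + 4 * Λ ^ 2)) * B := by
    calc ∫⁻ b in {b : ℝ × ℝ | |b.1| ≤ 2 * R ∧ |b.2| ≤ 2 * Λ * R}, Phi q f b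
        ≤ ∫⁻ b in {b : ℝ × ℝ | |b.1| ≤ 2 * R ∧ |b.2| ≤ 2 * Λ * R},
            ENNReal.ofReal (Real.exp (4 + 4 * Λ ^ 2)) * (Phi q f b * ENNReal.ofReal (gw R b)) := by
          refine setLIntegral_mono' hS (fun b hb => ?_)
          obtain ⟨hb1, hb2⟩ := hb
          have hK : b.1 ^ 2 + b.2 ^ 2 ≤ (4 + 4 * Λ ^ 2) * R ^ 2 := by
            have e1 : b.1 ^ 2 ≤ (2 * R) ^ 2 := by rw [← sq_abs]; gcongr
            have e2 : b.2 ^ 2 ≤ (2 * Λ * R) ^ 2 := by rw [← sq_abs]; gcongr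
            nlinarith
          have h2 := gauss_lower R _ hR b hK
          calc Phi q f b = Phi q f b * 1 := (mul_one _).symm
            _ ≤ Phi q f b * (ENNReal.ofReal (Real.exp (4 + 4 * Λ ^ 2)) * ENNReal.ofReal (gw R b)) :=
              mul_le_mul_right h2 _
            _ = _ := by ring
      _ ≤ ∫⁻ b, ENNReal.ofReal (Real.exp (4 + 4 * Λ ^ 2)) * (Phi q f b * ENNReal.ofReal (gw R b)) :=
          setLIntegral_le_lintegral _ _
      _ = ENNReal.ofReal (Real.exp (4 + 4 * Λ ^ 2)) * ∫⁻ b, Phi q f b * ENNReal.ofReal (gw R b) :=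
          lintegral_const_mul' _ _ ENNReal.ofReal_ne_top
      _ ≤ _ := mul_le_mul_right h _
  have hSt := measurableSet_DR R
  have hm : Measurable (fun z : ℝ × ℝ => Phi q f (z.2, z.1 * z.2)) :=
    hPm.comp (by fun_prop)
  rw [lintegral_lintegral_swap hm.aemeasurable]
  have hSu : MeasurableSet {u : ℝ | |u| ≤ 2 * Λ * R} := by
    have hc : Measurable (fun t : ℝ => |t|) := by fun_prop
    exact measurableSet_le hc measurable_const
  have h2 : ∀ t ∈ DR R, ∫⁻ l in Icc (-Λ) Λ, Phi q f (t, l * t) ≤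
      ENNReal.ofReal (1 / R) * ∫⁻ u in {u : ℝ | |u| ≤ 2 * Λ * R}, Phi q f (t, u) := by
    intro t ht
    have ht0 : t ≠ 0 := by
      intro h0
      have := ht.1
      rw [h0, abs_zero] at this
      linarith
    have h3 : ∫⁻ l in Icc (-Λ) Λ, Phi q f (t, l * t) ≤
        ∫⁻ l, ({u : ℝ | |u| ≤ 2 * Λ * R}.indicator (fun u => Phi q f (t, u))) (l * t) := by
      rw [← lintegral_indicator measurableSet_Icc]
      refine lintegral_mono (fun l => ?_)
      by_cases hl : l ∈ Icc (-Λ) Λ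
      · have h4 : l * t ∈ {u : ℝ | |u| ≤ 2 * Λ * R} := by
          have h5 : |l| ≤ Λ := abs_le.2 hl
          show |l * t| ≤ 2 * Λ * R
          rw [abs_mul]
          calc |l| * |t| ≤ Λ * (2 * R) := by gcongr; exact ht.2
            _ = _ := by ring
        rw [indicator_of_mem hl, indicator_of_mem h4]
      · rw [indicator_of_notMem hl]; exact zero_le
    refine h3.trans ?_
    rw [← lintegral_indicator hSu]
    have hGm : Measurable ({u : ℝ | |u| ≤ 2 * Λ * R}.indicator (fun u => Phi q f (t, u))) :=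
      (hPm.comp (by fun_prop)).indicator hSu
    have h6 : ∫⁻ l, ({u : ℝ | |u| ≤ 2 * Λ * R}.indicator (fun u => Phi q f (t, u))) (l * t) =
        ENNReal.ofReal |t⁻¹| * ∫⁻ u, ({u : ℝ | |u| ≤ 2 * Λ * R}.indicator (fun u => Phi q f (t, u))) u := by
      rw [← lintegral_map hGm (measurable_mul_const t), Real.map_volume_mul_right ht0,
        lintegral_smul_measure, smul_eq_mul]
    rw [h6]
    refine mul_le_mul_left (ENNReal.ofReal_le_ofReal ?_) _
    rw [abs_inv, one_div]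
    exact inv_anti₀ hR ht.1
  refine (setLIntegral_mono' hSt h2).trans ?_
  rw [lintegral_const_mul' _ _ ENNReal.ofReal_ne_top]
  have h7 : ∫⁻ t in DR R, ∫⁻ u in {u : ℝ | |u| ≤ 2 * Λ * R}, Phi q f (t, u) ≤
      ∫⁻ b in {b : ℝ × ℝ | |b.1| ≤ 2 * R ∧ |b.2| ≤ 2 * Λ * R}, Phi q f b := by
    have h8 : ∫⁻ t in DR R, ∫⁻ u in {u : ℝ | |u| ≤ 2 * Λ * R}, Phi q f (t, u) =
        ∫⁻ b in (DR R) ×ˢ {u : ℝ | |u| ≤ 2 * Λ * R}, Phi q f b := by
      rw [Measure.volume_eq_prod, ← Measure.prod_restrict, lintegral_prod _ hPm.aemeasurable]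
    rw [h8]
    refine lintegral_mono_set ?_
    intro b hb
    exact ⟨hb.1.2, hb.2⟩
  exact mul_le_mul_right (h7.trans h1) _

/-- multiplication by `x₂²` -/
def m2 (f : ℝ × ℝ → ℂ) (x : ℝ × ℝ) : ℂ := ((x.2 ^ 2 : ℝ) : ℂ) * f x

theorem m2_supp (f : ℝ × ℝ → ℂ) (hsupp : ∀ x : ℝ × ℝ, (1 < |x.1| ∨ 1 < |x.2|) → f x = 0) :
    ∀ x : ℝ × ℝ, (1 < |x.1| ∨ 1 < |x.2|) → m2 f x = 0 := by
  intro x hx; simp [m2, hsupp x hx]

theorem m2_norm (f : ℝ × ℝ → ℂ) (hsupp : ∀ x : ℝ × ℝ, (1 < |x.1| ∨ 1 < |x.2|) → f x = 0) (x : ℝ × ℝ) :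
    ‖m2 f x‖ ≤ ‖f x‖ := by
  by_cases hx : (1 < |x.1| ∨ 1 < |x.2|)
  · simp [m2, hsupp x hx]
  · push Not at hx
    unfold m2
    rw [norm_mul, Complex.norm_real, Real.norm_of_nonneg (by positivity)]
    have : x.2 ^ 2 ≤ 1 := by rw [← sq_abs]; exact pow_le_one₀ (abs_nonneg _) hx.2
    calc x.2 ^ 2 * ‖f x‖ ≤ 1 * ‖f x‖ := by gcongr
      _ = _ := one_mul _

theorem m2_meas (f : ℝ × ℝ → ℂ) (hf : Measurable f) : Measurable (m2 f) := by
  unfold m2
  exact (Complex.measurable_ofReal.comp (by fun_prop)).mul hf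

theorem m2_int (f : ℝ × ℝ → ℂ) (hfm : Measurable f) (hf : Integrable f)
    (hsupp : ∀ x : ℝ × ℝ, (1 < |x.1| ∨ 1 < |x.2|) → f x = 0) : Integrable (m2 f) :=
  hf.mono (m2_meas f hfm).aestronglyMeasurable (Filter.Eventually.of_forall (m2_norm f hsupp))

theorem T_hasDeriv (f : ℝ × ℝ → ℂ) (hfm : Measurable f) (hf : Integrable f)
    (hsupp : ∀ x : ℝ × ℝ, (1 < |x.1| ∨ 1 < |x.2|) → f x = 0) (p : ℝ × ℝ) (t μ : ℝ) :
    HasDerivAt (fun μ : ℝ => T f p (t, μ * t)) (-(I * t) * T (m2 f) p (t, μ * t)) μ := by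
  have hm : ∀ μ : ℝ, Measurable (fun x : ℝ × ℝ => f x * (ph p x * ph (t, μ * t) (sq2 x))) := by
    intro μ
    refine hfm.mul (Measurable.mul ?_ ?_)
    · exact (continuous_ph.comp (Continuous.prodMk continuous_const continuous_id)).measurable
    · exact (continuous_ph.comp (Continuous.prodMk continuous_const continuous_sq2)).measurable
  have hint : ∀ g : ℝ × ℝ → ℂ, Integrable g → ∀ μ : ℝ, Integrable (fun x => g x * (ph p x * ph (t, μ * t) (sq2 x))) := by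
    intro g hg μ
    have h1 := integrable_mod _ (integrable_mod g hg p (fun x => x) continuous_id) (t, μ * t) sq2 continuous_sq2
    refine h1.congr (Filter.Eventually.of_forall (fun x => ?_))
    simp only
    ring
  have h := hasDerivAt_integral_of_dominated_loc_of_deriv_le (𝕜 := ℝ) (μ := (volume : Measure (ℝ × ℝ)))
    (F := fun μ x => f x * (ph p x * ph (t, μ * t) (sq2 x)))
    (F' := fun μ x => -(I * t) * (m2 f x * (ph p x * ph (t, μ * t) (sq2 x)))) (x₀ := μ)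
    (s := univ) (bound := fun x => |t| * ‖f x‖) Filter.univ_mem
    (Filter.Eventually.of_forall (fun μ => (hm μ).aestronglyMeasurable)) (hint f hf μ)
    ((hint (m2 f) (m2_int f hfm hf hsupp) μ).const_mul _).aestronglyMeasurable
    (Filter.Eventually.of_forall (fun x μ _ => ?_)) (hf.norm.const_mul _)
    (Filter.Eventually.of_forall (fun x μ _ => ?_))
  · have h2 := h.2
    rw [integral_const_mul] at h2
    exact h2
  · rw [norm_mul, norm_mul, norm_mul, norm_ph, norm_ph, mul_one, mul_one, norm_neg, norm_mul, Complex.norm_I,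
      one_mul, Complex.norm_real, Real.norm_eq_abs]
    exact mul_le_mul_of_nonneg_left (m2_norm f hsupp x) (abs_nonneg _)
  · have h3 : HasDerivAt (fun μ : ℝ => ph (t, μ * t) (sq2 x)) (-(I * t) * ((x.2 ^ 2 : ℝ) : ℂ) * ph (t, μ * t) (sq2 x)) μ := by
      unfold ph
      have h4 : HasDerivAt (fun μ : ℝ => -(I * (((t : ℝ) : ℂ) * ((sq2 x).1 : ℂ) + ((μ * t : ℝ) : ℂ) * ((sq2 x).2 : ℂ))))
          (-(I * t) * ((x.2 ^ 2 : ℝ) : ℂ)) μ := by
        have h5 : HasDerivAt (fun μ : ℝ => ((μ * t : ℝ) : ℂ)) ((1 * t : ℝ) : ℂ) μ :=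
          ((hasDerivAt_id μ).mul_const t).ofReal_comp
        have h6 := (((h5.mul_const ((sq2 x).2 : ℂ)).const_add (((t : ℝ) : ℂ) * ((sq2 x).1 : ℂ))).const_mul I).neg
        refine h6.congr_deriv ?_
        simp only [sq2, one_mul]
        ring
      have h7 := h4.cexp
      refine h7.congr_deriv ?_
      simp only
      ring
    have h8 := (h3.const_mul (ph p x)).const_mul (f x)
    refine h8.congr_deriv ?_
    simp only [m2]
    ring

end X92.Ext
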