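import Pool.Agent.X92.Ext11
open MeasureTheory Set Complex
open scoped ENNReal ComplexConjugate

namespace X92.Ext

theorem measurable_Tc {Z : Type*} [MeasurableSpace Z] (f : ℝ × ℝ → ℂ) (hf : Measurable f)
    (a b : Z → ℝ × ℝ) (ha : Measurable a) (hb : Measurable b) : Measurable (fun z => T f (a z) (b z)) := by
  have h := (measurable_T f hf).comp (hb.prodMk ha)
  exact h

theorem loc_diff (f : ℝ × ℝ → ℂ) (hfm : Measurable f) (hf : Integrable f)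
    (hsupp : ∀ x : ℝ × ℝ, (1 < |x.1| ∨ 1 < |x.2|) → f x = 0) (p : ℝ × ℝ) (t α β l μ : ℝ)
    (hl : l ∈ Icc α β) (hμ : μ ∈ Icc α β) :
    ‖T f p (t, l * t)‖ₑ ≤ ‖T f p (t, μ * t)‖ₑ +
      ENNReal.ofReal |t| * ∫⁻ ν in Icc α β, ‖T (m2 f) p (t, ν * t)‖ₑ := by
  have h1 := T_hasDeriv f hfm hf hsupp p t
  have h2 := T_hasDeriv (m2 f) (m2_meas f hfm) (m2_int f hfm hf hsupp) (m2_supp f hsupp) p t
  have hc : Continuous (fun ν : ℝ => -(I * t) * T (m2 f) p (t, ν * t)) :=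
    continuous_const.mul (continuous_iff_continuousAt.2 (fun ν => (h2 ν).continuousAt))
  have h3 := intervalIntegral.integral_eq_sub_of_hasDerivAt (a := μ) (b := l)
    (fun ν _ => h1 ν) (hc.intervalIntegrable _ _)
  have h4 : T f p (t, l * t) = T f p (t, μ * t) + ∫ ν in μ..l, -(I * t) * T (m2 f) p (t, ν * t) := by
    rw [h3]; ring
  rw [h4]
  refine (enorm_add_le _ _).trans (add_le_add le_rfl ?_)
  have h5 : ‖∫ ν in μ..l, -(I * t) * T (m2 f) p (t, ν * t)‖ₑ =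
      ‖∫ ν in uIoc μ l, -(I * t) * T (m2 f) p (t, ν * t)‖ₑ := by
    rw [← ofReal_norm, ← ofReal_norm, intervalIntegral.norm_intervalIntegral_eq]
  rw [h5]
  refine (enorm_integral_le_lintegral_enorm _).trans ?_
  have h6 : ∀ ν : ℝ, ‖-(I * t) * T (m2 f) p (t, ν * t)‖ₑ = ENNReal.ofReal |t| * ‖T (m2 f) p (t, ν * t)‖ₑ := by
    intro ν
    rw [enorm_mul]
    congr 1
    rw [← ofReal_norm, norm_neg, norm_mul, Complex.norm_I, one_mul, Complex.norm_real, Real.norm_eq_abs]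
  simp_rw [h6]
  rw [lintegral_const_mul' _ _ ENNReal.ofReal_ne_top]
  refine mul_le_mul_right (lintegral_mono_set ?_) _
  intro ν hν
  rw [mem_uIoc] at hν
  rcases hν with hν | hν
  · exact ⟨hμ.1.trans hν.1.le, hν.2.trans hl.2⟩
  · exact ⟨hl.1.trans hν.1.le, hν.2.trans hμ.2⟩

theorem jensen4 (h : ℝ → ℂ) (hh : Measurable h) (α β : ℝ) :
    (∫⁻ ν in Icc α β, ‖h ν‖ₑ) ^ (4 : ℝ) ≤
      ENNReal.ofReal (β - α) ^ (3 : ℝ) * ∫⁻ ν in Icc α β, ‖h ν‖ₑ ^ (4 : ℝ) := by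
  have h1 := eLpNorm'_le_eLpNorm'_mul_rpow_measure_univ (p := 1) (q := 4) (μ := volume.restrict (Icc α β))
    one_pos (by norm_num) hh.aestronglyMeasurable
  rw [Measure.restrict_apply_univ, Real.volume_Icc] at h1
  have h2 : eLpNorm' h 1 (volume.restrict (Icc α β)) = ∫⁻ ν in Icc α β, ‖h ν‖ₑ := by
    simp [eLpNorm']
  rw [h2] at h1
  refine (ENNReal.rpow_le_rpow h1 (by norm_num : (0 : ℝ) ≤ 4)).trans (le_of_eq ?_)
  rw [ENNReal.mul_rpow_of_nonneg _ _ (by norm_num), eLpNorm', ← ENNReal.rpow_mul, ← ENNReal.rpow_mul, mul_comm]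
  norm_num

theorem loc4_pt (R : ℝ) (hR : 0 < R) (f : ℝ × ℝ → ℂ) (hfm : Measurable f) (hf : Integrable f)
    (hsupp : ∀ x : ℝ × ℝ, (1 < |x.1| ∨ 1 < |x.2|) → f x = 0) (p : ℝ × ℝ) (t α l : ℝ)
    (hl : l ∈ Icc α (α + 1 / R)) (ht : |t| ≤ 2 * R) :
    ‖T f p (t, l * t)‖ₑ ^ (4 : ℝ) ≤ ENNReal.ofReal (128 * R) *
      ∫⁻ μ in Icc α (α + 1 / R), (‖T f p (t, μ * t)‖ₑ ^ (4 : ℝ) + ‖T (m2 f) p (t, μ * t)‖ₑ ^ (4 : ℝ)) := by
  have hgm : Measurable (fun μ : ℝ => T f p (t, μ * t)) :=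
    measurable_Tc f hfm (fun _ => p) (fun μ => (t, μ * t)) measurable_const (by fun_prop)
  have hhm : Measurable (fun μ : ℝ => T (m2 f) p (t, μ * t)) :=
    measurable_Tc (m2 f) (m2_meas f hfm) (fun _ => p) (fun μ => (t, μ * t)) measurable_const (by fun_prop)
  set A := ‖T f p (t, l * t)‖ₑ ^ (4 : ℝ) with hA
  set H := ∫⁻ μ in Icc α (α + 1 / R), ‖T (m2 f) p (t, μ * t)‖ₑ ^ (4 : ℝ) with hH
  set G := ∫⁻ μ in Icc α (α + 1 / R), ‖T f p (t, μ * t)‖ₑ ^ (4 : ℝ) with hG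
  have hvol : volume (Icc α (α + 1 / R)) = ENNReal.ofReal (1 / R) := by
    rw [Real.volume_Icc]; congr 1; ring
  have hterm : (ENNReal.ofReal |t| * ∫⁻ ν in Icc α (α + 1 / R), ‖T (m2 f) p (t, ν * t)‖ₑ) ^ (4 : ℝ) ≤
      ENNReal.ofReal (16 * R) * H := by
    rw [ENNReal.mul_rpow_of_nonneg _ _ (by norm_num)]
    have h1 := jensen4 _ hhm α (α + 1 / R)
    have e1 : α + 1 / R - α = 1 / R := by ring
    rw [e1] at h1
    refine (mul_le_mul_right h1 _).trans ?_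
    rw [← mul_assoc]
    refine mul_le_mul_left ?_ _
    rw [ENNReal.ofReal_rpow_of_nonneg (abs_nonneg _) (by norm_num), ENNReal.ofReal_rpow_of_nonneg (by positivity) (by norm_num),
      ← ENNReal.ofReal_mul (by positivity)]
    refine ENNReal.ofReal_le_ofReal ?_
    have e2 : |t| ^ (4 : ℝ) ≤ (2 * R) ^ (4 : ℝ) := Real.rpow_le_rpow (abs_nonneg _) ht (by norm_num)
    calc |t| ^ (4 : ℝ) * (1 / R) ^ (3 : ℝ) ≤ (2 * R) ^ (4 : ℝ) * (1 / R) ^ (3 : ℝ) := by gcongr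
      _ = 16 * R := by
        have e3 : (2 * R) ^ (4 : ℝ) = (2 * R) ^ 4 := by
          rw [← Real.rpow_natCast]; norm_num
        have e4 : (1 / R) ^ (3 : ℝ) = (1 / R) ^ 3 := by
          rw [← Real.rpow_natCast]; norm_num
        rw [e3, e4]
        field_simp
        norm_num
  have hpt : ∀ μ ∈ Icc α (α + 1 / R), A ≤ 8 * ‖T f p (t, μ * t)‖ₑ ^ (4 : ℝ) + 8 * (ENNReal.ofReal (16 * R) * H) := by
    intro μ hμ
    have h1 := loc_diff f hfm hf hsupp p t α (α + 1 / R) l μ hl hμ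
    have h2 := ENNReal.rpow_le_rpow h1 (by norm_num : (0 : ℝ) ≤ 4)
    refine h2.trans ?_
    refine (ENNReal.rpow_add_le_mul_rpow_add_rpow _ _ (by norm_num)).trans ?_
    have e3 : (2 : ℝ≥0∞) ^ ((4 : ℝ) - 1) = 8 := by
      have : (4 : ℝ) - 1 = ((3 : ℕ) : ℝ) := by norm_num
      rw [this, ENNReal.rpow_natCast]
      norm_num
    rw [e3, mul_add]
    exact add_le_add le_rfl (mul_le_mul_right hterm _)
  have hint : ENNReal.ofReal (1 / R) * A ≤ 8 * G + ENNReal.ofReal (1 / R) * (8 * (ENNReal.ofReal (16 * R) * H)) := by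
    calc ENNReal.ofReal (1 / R) * A = ∫⁻ μ in Icc α (α + 1 / R), A := by
          rw [lintegral_const, Measure.restrict_apply_univ, hvol, mul_comm]
      _ ≤ ∫⁻ μ in Icc α (α + 1 / R), (8 * ‖T f p (t, μ * t)‖ₑ ^ (4 : ℝ) + 8 * (ENNReal.ofReal (16 * R) * H)) :=
          setLIntegral_mono' measurableSet_Icc hpt
      _ = _ := by
          rw [lintegral_add_right _ measurable_const, lintegral_const_mul _ (hgm.enorm.pow_const _),
            lintegral_const, Measure.restrict_apply_univ, hvol]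
          rw [mul_comm (8 * (ENNReal.ofReal (16 * R) * H))]
  have hRR : ENNReal.ofReal R * ENNReal.ofReal (1 / R) = 1 := by
    rw [← ENNReal.ofReal_mul hR.le, mul_one_div_cancel hR.ne', ENNReal.ofReal_one]
  have h128 : ENNReal.ofReal (128 * R) = 8 * ENNReal.ofReal (16 * R) := by
    have : (8 : ℝ≥0∞) = ENNReal.ofReal 8 := by simp
    rw [this, ← ENNReal.ofReal_mul (by norm_num)]; congr 1; ring
  calc A = ENNReal.ofReal R * (ENNReal.ofReal (1 / R) * A) := by rw [← mul_assoc, hRR, one_mul]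
    _ ≤ ENNReal.ofReal R * (8 * G + ENNReal.ofReal (1 / R) * (8 * (ENNReal.ofReal (16 * R) * H))) :=
        mul_le_mul_right hint _
    _ = ENNReal.ofReal R * (8 * G) + (ENNReal.ofReal R * ENNReal.ofReal (1 / R)) * (8 * (ENNReal.ofReal (16 * R) * H)) := by ring
    _ = (8 * ENNReal.ofReal R) * G + (8 * ENNReal.ofReal (16 * R)) * H := by rw [hRR]; ring
    _ ≤ (8 * ENNReal.ofReal (16 * R)) * G + (8 * ENNReal.ofReal (16 * R)) * H := by
        refine add_le_add (mul_le_mul_left (mul_le_mul_right (ENNReal.ofReal_le_ofReal ?_) _) _) le_rfl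
        linarith
    _ = ENNReal.ofReal (128 * R) * (G + H) := by rw [h128]; ring
    _ = _ := by
        rw [hG, hH, ← lintegral_add_left (hgm.enorm.pow_const _)]

theorem loc4 (R : ℝ) (hR : 0 < R) (f : ℝ × ℝ → ℂ) (hfm : Measurable f) (hf : Integrable f)
    (hsupp : ∀ x : ℝ × ℝ, (1 < |x.1| ∨ 1 < |x.2|) → f x = 0) (α l : ℝ)
    (hl : l ∈ Icc α (α + 1 / R)) :
    ∫⁻ t in DR R, Phi 4 f (t, l * t) ≤ ENNReal.ofReal (128 * R) *
      ∫⁻ μ in Icc α (α + 1 / R), ∫⁻ t in DR R, (Phi 4 f (t, μ * t) + Phi 4 (m2 f) (t, μ * t)) := by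
  have hm2 := m2_meas f hfm
  have hstep : ∀ t ∈ DR R, Phi 4 f (t, l * t) ≤ ENNReal.ofReal (128 * R) *
      ∫⁻ μ in Icc α (α + 1 / R), (Phi 4 f (t, μ * t) + Phi 4 (m2 f) (t, μ * t)) := by
    intro t ht
    have hgm0 : Measurable (fun z : (ℝ × ℝ) × ℝ => T f z.1 (t, z.2 * t)) :=
      measurable_Tc (Z := (ℝ × ℝ) × ℝ) f hfm (fun z : (ℝ × ℝ) × ℝ => z.1)
        (fun z : (ℝ × ℝ) × ℝ => (t, z.2 * t)) measurable_fst (by fun_prop)
    have hgm : Measurable (fun z : (ℝ × ℝ) × ℝ => ‖T f z.1 (t, z.2 * t)‖ₑ ^ (4 : ℝ)) :=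
      hgm0.enorm.pow_const _
    have hhm0 : Measurable (fun z : (ℝ × ℝ) × ℝ => T (m2 f) z.1 (t, z.2 * t)) :=
      measurable_Tc (Z := (ℝ × ℝ) × ℝ) (m2 f) hm2 (fun z : (ℝ × ℝ) × ℝ => z.1)
        (fun z : (ℝ × ℝ) × ℝ => (t, z.2 * t)) measurable_fst (by fun_prop)
    have hhm : Measurable (fun z : (ℝ × ℝ) × ℝ => ‖T (m2 f) z.1 (t, z.2 * t)‖ₑ ^ (4 : ℝ)) :=
      hhm0.enorm.pow_const _
    unfold Phi
    calc ∫⁻ p : ℝ × ℝ, ‖T f p (t, l * t)‖ₑ ^ (4 : ℝ)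
        ≤ ∫⁻ p : ℝ × ℝ, ENNReal.ofReal (128 * R) *
          ∫⁻ μ in Icc α (α + 1 / R), (‖T f p (t, μ * t)‖ₑ ^ (4 : ℝ) + ‖T (m2 f) p (t, μ * t)‖ₑ ^ (4 : ℝ)) :=
          lintegral_mono (fun p => loc4_pt R hR f hfm hf hsupp p t α l hl ht.2)
      _ = ENNReal.ofReal (128 * R) * ∫⁻ p : ℝ × ℝ,
          ∫⁻ μ in Icc α (α + 1 / R), (‖T f p (t, μ * t)‖ₑ ^ (4 : ℝ) + ‖T (m2 f) p (t, μ * t)‖ₑ ^ (4 : ℝ)) :=
          lintegral_const_mul' _ _ ENNReal.ofReal_ne_top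
      _ = ENNReal.ofReal (128 * R) * ∫⁻ μ in Icc α (α + 1 / R), ∫⁻ p : ℝ × ℝ,
          (‖T f p (t, μ * t)‖ₑ ^ (4 : ℝ) + ‖T (m2 f) p (t, μ * t)‖ₑ ^ (4 : ℝ)) := by
          rw [lintegral_lintegral_swap (hgm.add hhm).aemeasurable]
      _ = _ := by
          congr 1
          refine lintegral_congr (fun μ => ?_)
          have hp0 : Measurable (fun p : ℝ × ℝ => T f p (t, μ * t)) :=
            measurable_Tc (Z := ℝ × ℝ) f hfm (fun p : ℝ × ℝ => p) (fun _ : ℝ × ℝ => (t, μ * t))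
              measurable_id measurable_const
          have hp1 : Measurable (fun p : ℝ × ℝ => ‖T f p (t, μ * t)‖ₑ ^ (4 : ℝ)) := hp0.enorm.pow_const _
          exact lintegral_add_left hp1 _
  refine (setLIntegral_mono' (measurableSet_DR R) hstep).trans ?_
  rw [lintegral_const_mul' _ _ ENNReal.ofReal_ne_top]
  refine mul_le_mul_right (le_of_eq ?_) _
  have hm : Measurable (fun z : ℝ × ℝ => Phi 4 f (z.1, z.2 * z.1) + Phi 4 (m2 f) (z.1, z.2 * z.1)) :=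
    ((measurable_Phi 4 f hfm).comp (by fun_prop)).add ((measurable_Phi 4 _ hm2).comp (by fun_prop))
  rw [lintegral_lintegral_swap hm.aemeasurable]

end X92.Ext
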