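import Pool.Agent.X92.Ext12
open MeasureTheory Set Complex Filter
open scoped ENNReal ComplexConjugate NNReal Topology

namespace X92.Ext

theorem lp_fin (r s : ℝ) (hr : 0 < r) (hrs : r ≤ s) (f : ℝ × ℝ → ℂ)
    (hsupp : ∀ x : ℝ × ℝ, (1 < |x.1| ∨ 1 < |x.2|) → f x = 0) (hfin : ∫⁻ x, ‖f x‖ₑ ^ s ≠ ⊤) :
    ∫⁻ x, ‖f x‖ₑ ^ r ≠ ⊤ := by
  have h1 : ∫⁻ x, ‖f x‖ₑ ^ r ≤ ENNReal.ofReal 4 + ∫⁻ x, ‖f x‖ₑ ^ s := by
    rw [supp_eq f hsupp r hr, supp_eq f hsupp s (by linarith)]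
    have h4 : ENNReal.ofReal 4 = ∫⁻ x in QQ, (1 : ℝ≥0∞) := by
      rw [lintegral_const, Measure.restrict_apply_univ, volume_QQ]; simp
    rw [h4, ← lintegral_add_left measurable_const]
    refine lintegral_mono (fun x => ?_)
    rcases le_total (‖f x‖ₑ) 1 with h | h
    · calc ‖f x‖ₑ ^ r ≤ 1 ^ r := ENNReal.rpow_le_rpow h hr.le
        _ = 1 := ENNReal.one_rpow _
        _ ≤ _ := le_self_add
    · exact (ENNReal.rpow_le_rpow_of_exponent_le h hrs).trans le_add_self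
  exact ne_top_of_le_ne_top (ENNReal.add_ne_top.2 ⟨ENNReal.ofReal_ne_top, hfin⟩) h1

/-- Hölder between `L²` and `L⁴` on a time set. -/
theorem holder24 (q : ℝ) (hq2 : 2 ≤ q) (hq4 : q ≤ 4) (f : ℝ × ℝ → ℂ) (hfm : Measurable f) (l : ℝ) (D : Set ℝ) :
    ∫⁻ t in D, Phi q f (t, l * t) ≤ (∫⁻ t in D, Phi 2 f (t, l * t)) ^ ((4 - q) / 2) *
      (∫⁻ t in D, Phi 4 f (t, l * t)) ^ ((q - 2) / 2) := by
  have hm0 : Measurable (fun z : ℝ × (ℝ × ℝ) => T f z.2 (z.1, l * z.1)) :=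
    measurable_Tc (Z := ℝ × (ℝ × ℝ)) f hfm (fun z : ℝ × (ℝ × ℝ) => z.2)
      (fun z : ℝ × (ℝ × ℝ) => (z.1, l * z.1)) measurable_snd (by fun_prop)
  have hconv : ∀ r : ℝ, ∫⁻ t in D, Phi r f (t, l * t) =
      ∫⁻ z, ‖T f z.2 (z.1, l * z.1)‖ₑ ^ r ∂((volume.restrict D).prod (volume : Measure (ℝ × ℝ))) := by
    intro r
    rw [lintegral_prod _ (hm0.enorm.pow_const r).aemeasurable]
    rfl
  rw [hconv q, hconv 2, hconv 4]
  have h := ENNReal.lintegral_mul_norm_pow_le (μ := (volume.restrict D).prod (volume : Measure (ℝ × ℝ)))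
    (hm0.enorm.pow_const (2 : ℝ)).aemeasurable (hm0.enorm.pow_const (4 : ℝ)).aemeasurable
    (p := (4 - q) / 2) (q := (q - 2) / 2) (by linarith) (by linarith) (by ring)
  refine le_trans (le_of_eq ?_) h
  refine lintegral_congr (fun z => ?_)
  rw [← ENNReal.rpow_mul, ← ENNReal.rpow_mul, ← ENNReal.rpow_add_of_nonneg _ _ (by linarith) (by linarith)]
  congr 1; ring

/-- `G_R(μ)` -/
noncomputable def GR (f : ℝ × ℝ → ℂ) (R μ : ℝ) : ℝ≥0∞ :=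
  ∫⁻ t in DR R, (Phi 4 f (t, μ * t) + Phi 4 (m2 f) (t, μ * t))

theorem measurable_GR (f : ℝ × ℝ → ℂ) (hfm : Measurable f) (R : ℝ) : Measurable (GR f R) := by
  have hm2 := m2_meas f hfm
  have hm : Measurable (fun z : ℝ × ℝ => Phi 4 f (z.2, z.1 * z.2) + Phi 4 (m2 f) (z.2, z.1 * z.2)) :=
    ((measurable_Phi 4 f hfm).comp (by fun_prop)).add ((measurable_Phi 4 _ hm2).comp (by fun_prop))
  unfold GR
  exact hm.lintegral_prod_right'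

theorem Phi4_gw (ε : ℝ) (hε : 0 < ε) : ∃ C : ℝ, 0 < C ∧ ∀ R : ℝ, 1 ≤ R → ∀ f : ℝ × ℝ → ℂ, Integrable f →
      (∀ x : ℝ × ℝ, (1 < |x.1| ∨ 1 < |x.2|) → f x = 0) →
      ∫⁻ b, Phi 4 f b * ENNReal.ofReal (gw R b) ≤ ENNReal.ofReal (C * R ^ ε) * ∫⁻ x, ‖f x‖ₑ ^ (4 : ℝ) := by
  refine ⟨32 * Real.pi ^ 2 * (16 * Real.pi * Real.exp 1) ^ 2 * (2 ^ ε / ε) ^ 2, by positivity, ?_⟩
  intro R hR f hf hsupp
  have h := L4 R (by linarith) f hf hsupp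
  have e1 : ∀ z : ℂ, ‖z‖ₑ ^ (4 : ℝ) = ‖z‖ₑ ^ 4 := by
    intro z; rw [← ENNReal.rpow_natCast]; norm_num
  unfold Phi
  simp_rw [e1]
  refine h.trans (mul_le_mul_left (ENNReal.ofReal_le_ofReal ?_) _)
  have hlog := log_bound ε hε R hR
  calc 32 * Real.pi ^ 2 * (16 * Real.pi * Real.exp 1 * Real.log (1 + Real.sqrt R)) ^ 2 =
      32 * Real.pi ^ 2 * (16 * Real.pi * Real.exp 1) ^ 2 * (Real.log (1 + Real.sqrt R)) ^ 2 := by ring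
    _ ≤ 32 * Real.pi ^ 2 * (16 * Real.pi * Real.exp 1) ^ 2 * ((2 ^ ε / ε) ^ 2 * R ^ ε) := by gcongr
    _ = _ := by ring

theorem total_GR (ε Λ : ℝ) (hε : 0 < ε) (hΛ : 0 ≤ Λ) : ∃ C : ℝ, 0 < C ∧ ∀ R : ℝ, 1 ≤ R → ∀ f : ℝ × ℝ → ℂ,
      Measurable f → Integrable f → (∀ x : ℝ × ℝ, (1 < |x.1| ∨ 1 < |x.2|) → f x = 0) →
      ∫⁻ μ in Icc (-Λ) Λ, GR f R μ ≤ ENNReal.ofReal (C * R ^ (ε - 1)) * ∫⁻ x, ‖f x‖ₑ ^ (4 : ℝ) := by
  obtain ⟨C, hC, h⟩ := Phi4_gw ε hε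
  refine ⟨2 * Real.exp (4 + 4 * Λ ^ 2) * C, by positivity, ?_⟩
  intro R hR f hfm hf hsupp
  have hR0 : 0 < R := by linarith
  have hm2 := m2_meas f hfm
  have h1 := piece' 4 Λ R hR0 hΛ f hfm _ (h R hR f hf hsupp)
  have h2 := piece' 4 Λ R hR0 hΛ (m2 f) hm2 _ (h R hR (m2 f) (m2_int f hfm hf hsupp) (m2_supp f hsupp))
  have hle : ∫⁻ x, ‖m2 f x‖ₑ ^ (4 : ℝ) ≤ ∫⁻ x, ‖f x‖ₑ ^ (4 : ℝ) := by
    refine lintegral_mono (fun x => ENNReal.rpow_le_rpow ?_ (by norm_num))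
    rw [← ofReal_norm, ← ofReal_norm]
    exact ENNReal.ofReal_le_ofReal (m2_norm f hsupp x)
  set N := ∫⁻ x, ‖f x‖ₑ ^ (4 : ℝ) with hN
  have hsplit : ∫⁻ μ in Icc (-Λ) Λ, GR f R μ =
      (∫⁻ μ in Icc (-Λ) Λ, ∫⁻ t in DR R, Phi 4 f (t, μ * t)) +
      ∫⁻ μ in Icc (-Λ) Λ, ∫⁻ t in DR R, Phi 4 (m2 f) (t, μ * t) := by
    have ha : Measurable (fun z : ℝ × ℝ => Phi 4 f (z.2, z.1 * z.2)) := (measurable_Phi 4 f hfm).comp (by fun_prop)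
    rw [← lintegral_add_left (ha.lintegral_prod_right')]
    refine lintegral_congr (fun μ => ?_)
    unfold GR
    have hb : Measurable (fun t : ℝ => Phi 4 f (t, μ * t)) := (measurable_Phi 4 f hfm).comp (by fun_prop)
    rw [lintegral_add_left hb]
  rw [hsplit]
  have h3 : ENNReal.ofReal (1 / R) * (ENNReal.ofReal (Real.exp (4 + 4 * Λ ^ 2)) * (ENNReal.ofReal (C * R ^ ε) * N)) =
      ENNReal.ofReal (Real.exp (4 + 4 * Λ ^ 2) * C * R ^ (ε - 1)) * N := by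
    rw [← mul_assoc, ← mul_assoc, ← ENNReal.ofReal_mul (by positivity), ← ENNReal.ofReal_mul (by positivity)]
    congr 2
    rw [Real.rpow_sub hR0, Real.rpow_one]
    ring
  refine (add_le_add h1 (h2.trans (mul_le_mul_right (mul_le_mul_right (mul_le_mul_right hle _) _) _))).trans ?_
  rw [h3, ← two_mul, ← mul_assoc]
  refine mul_le_mul_left (le_of_eq ?_) _
  have : (2 : ℝ≥0∞) = ENNReal.ofReal 2 := by simp
  rw [this, ← ENNReal.ofReal_mul (by norm_num)]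
  congr 1; ring

end X92.Ext
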