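import Pool.Agent.X92.Ext13
open MeasureTheory Set Complex Filter
open scoped ENNReal ComplexConjugate NNReal Topology

namespace X92.Ext

/-- the dyadic interval -/
def Ijk (j : ℕ) (k : ℤ) : Set ℝ := Ico ((k : ℝ) / 2 ^ j) (((k : ℝ) + 1) / 2 ^ j)

theorem mem_Ijk (j : ℕ) (l : ℝ) : l ∈ Ijk j ⌊l * 2 ^ j⌋ := by
  have h2 : (0 : ℝ) < 2 ^ j := by positivity
  refine ⟨?_, ?_⟩
  · rw [div_le_iff₀ h2]; exact Int.floor_le _
  · rw [lt_div_iff₀ h2]; exact Int.lt_floor_add_one _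

theorem disj_Ijk (j : ℕ) : Pairwise (Function.onFun Disjoint (Ijk j)) := by
  intro k k' hkk
  rw [Function.onFun, Set.disjoint_left]
  intro x hx hx'
  have h2 : (0 : ℝ) < 2 ^ j := by positivity
  apply hkk
  have e1 : ⌊x * 2 ^ j⌋ = k := by
    rw [Int.floor_eq_iff]
    exact ⟨by have := hx.1; rwa [div_le_iff₀ h2] at this, by have := hx.2; rwa [lt_div_iff₀ h2] at this⟩
  have e2 : ⌊x * 2 ^ j⌋ = k' := by
    rw [Int.floor_eq_iff]
    exact ⟨by have := hx'.1; rwa [div_le_iff₀ h2] at this, by have := hx'.2; rwa [lt_div_iff₀ h2] at this⟩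
  rw [← e1, e2]

theorem ediam_Ijk (j : ℕ) (k : ℤ) : Metric.ediam (Ijk j k) = ENNReal.ofReal (((2 : ℝ) ^ j)⁻¹) := by
  unfold Ijk
  rw [Real.ediam_Ico]
  congr 1
  ring

/-- the local mass -/
noncomputable def rho (f : ℝ × ℝ → ℂ) (Λ : ℝ) (j : ℕ) : Measure ℝ :=
  (volume.restrict (Icc (-(Λ + 1)) (Λ + 1))).withDensity (GR f (2 ^ j))

theorem rho_sum (f : ℝ × ℝ → ℂ) (Λ : ℝ) (j : ℕ) :
    ∑' k : ℤ, rho f Λ j (Ijk j k) ≤ ∫⁻ μ in Icc (-(Λ + 1)) (Λ + 1), GR f (2 ^ j) μ := by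
  rw [← measure_iUnion (disj_Ijk j) (fun k => measurableSet_Ico)]
  refine (measure_mono (subset_univ _)).trans (le_of_eq ?_)
  unfold rho
  rw [withDensity_apply _ MeasurableSet.univ, Measure.restrict_univ]

theorem I4_le (Λ : ℝ) (f : ℝ × ℝ → ℂ) (hfm : Measurable f) (hf : Integrable f)
    (hsupp : ∀ x : ℝ × ℝ, (1 < |x.1| ∨ 1 < |x.2|) → f x = 0) (j : ℕ) (l : ℝ) (hl : l ∈ Icc (-Λ) Λ) :
    ∫⁻ t in DR (2 ^ j), Phi 4 f (t, l * t) ≤ ENNReal.ofReal (128 * 2 ^ j) * rho f Λ j (Ijk j ⌊l * 2 ^ j⌋) := by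
  have h2 : (0 : ℝ) < 2 ^ j := by positivity
  have h21 : (1 : ℝ) ≤ 2 ^ j := one_le_pow₀ (by norm_num)
  set k := ⌊l * 2 ^ j⌋ with hk
  have hmem := mem_Ijk j l
  rw [← hk] at hmem
  have he : ((k : ℝ) + 1) / 2 ^ j = (k : ℝ) / 2 ^ j + 1 / 2 ^ j := by ring
  have hl2 : l ∈ Icc ((k : ℝ) / 2 ^ j) ((k : ℝ) / 2 ^ j + 1 / 2 ^ j) := by
    rw [← he]; exact ⟨hmem.1, hmem.2.le⟩
  have h := loc4 (2 ^ j) h2 f hfm hf hsupp _ l hl2
  refine h.trans (mul_le_mul_right (le_of_eq ?_) _)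
  unfold rho
  have hms : MeasurableSet (Ijk j k) := measurableSet_Ico
  rw [withDensity_apply _ hms, Measure.restrict_restrict hms]
  have hsub : Ijk j k ∩ Icc (-(Λ + 1)) (Λ + 1) = Ijk j k := by
    refine inter_eq_left.2 (fun x hx => ?_)
    have h1 : 1 / (2 : ℝ) ^ j ≤ 1 := by rw [div_le_one h2]; exact h21
    have h3 := hx.1
    have h4 := hx.2
    have h5 := hmem.1
    have h6 := hmem.2
    rw [he] at h4 h6
    exact ⟨by linarith [hl.1], by linarith [hl.2]⟩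
  rw [hsub]
  unfold Ijk
  rw [he, Measure.restrict_congr_set Ico_ae_eq_Icc]
  rfl

theorem hd_fin (q : ℝ) (hq3 : 3 < q) (hq4 : q < 4) (Λ : ℝ) (hΛ : 0 ≤ Λ) (f : ℝ × ℝ → ℂ) (hfm : Measurable f)
    (hf : Integrable f) (hsupp : ∀ x : ℝ × ℝ, (1 < |x.1| ∨ 1 < |x.2|) → f x = 0)
    (hN : ∫⁻ x, ‖f x‖ₑ ^ (4 : ℝ) ≠ ⊤) (d : ℝ≥0) (hd : (4 - q) / (q - 2) < d) :
    Measure.hausdorffMeasure (d : ℝ) {l : ℝ | l ∈ Icc (-Λ) Λ ∧ ∫⁻ t : ℝ, Phi q f (t, l * t) = ⊤} ≠ ⊤ := by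
  set a : ℝ := (4 - q) / (q - 2) with ha
  have hq2 : 0 < q - 2 := by linarith
  have ha0 : 0 < a := div_pos (by linarith) hq2
  set η : ℝ := ((d : ℝ) - a) / 3 with hη
  have hη0 : 0 < η := by rw [hη]; linarith
  have hd0 : 0 < (d : ℝ) := lt_trans ha0 hd
  obtain ⟨C, hC, hCb⟩ := total_GR η (Λ + 1) hη0 (by linarith)
  set N := ∫⁻ x, ‖f x‖ₑ ^ (4 : ℝ) with hNdef
  set bad : ℕ → ℤ → Prop := fun j k =>
    ENNReal.ofReal (((2 : ℝ) ^ j) ^ (-(a + η))) < ENNReal.ofReal (128 * 2 ^ j) * rho f Λ j (Ijk j k) with hbad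
  classical
  set t : ℕ → ℕ × ℤ → Set ℝ := fun n z => if n ≤ z.1 ∧ bad z.1 z.2 then Ijk z.1 z.2 else ∅ with ht
  set S0 : ℝ≥0∞ := ∑' j : ℕ, ENNReal.ofReal (128 * C * ((2 : ℝ) ^ (-η)) ^ j) * N with hS0
  have hS0fin : S0 ≠ ⊤ := by
    rw [hS0, ENNReal.tsum_mul_right]
    refine ENNReal.mul_ne_top ?_ hN
    have hr0 : (0 : ℝ) < (2 : ℝ) ^ (-η) := by positivity
    have hr1 : (2 : ℝ) ^ (-η) < 1 := Real.rpow_lt_one_of_one_lt_of_neg (by norm_num) (by linarith)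
    have hs : Summable (fun j : ℕ => 128 * C * ((2 : ℝ) ^ (-η)) ^ j) :=
      (summable_geometric_of_lt_one hr0.le hr1).mul_left _
    rw [← ENNReal.ofReal_tsum_of_nonneg (fun j => by positivity) hs]
    exact ENNReal.ofReal_ne_top
  have hsum : ∀ n, ∑' z : ℕ × ℤ, Metric.ediam (t n z) ^ (d : ℝ) ≤ S0 := by
    intro n
    have h1 : ∀ z : ℕ × ℤ, Metric.ediam (t n z) ^ (d : ℝ) ≤
        ENNReal.ofReal (128 * ((2 : ℝ) ^ z.1) ^ (1 + a + η - d)) * rho f Λ z.1 (Ijk z.1 z.2) := by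
      intro z
      have hx : (0 : ℝ) < 2 ^ z.1 := by positivity
      by_cases hz : n ≤ z.1 ∧ bad z.1 z.2
      · rw [ht]
        simp only [hz, and_self, if_true]
        rw [ediam_Ijk, ENNReal.ofReal_rpow_of_pos (by positivity)]
        have hb := hz.2
        simp only [hbad] at hb
        have h3 : (1 : ℝ≥0∞) = ENNReal.ofReal (((2 : ℝ) ^ z.1) ^ (a + η)) * ENNReal.ofReal (((2 : ℝ) ^ z.1) ^ (-(a + η))) := by
          rw [← ENNReal.ofReal_mul (by positivity), ← Real.rpow_add hx]; simp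
        calc ENNReal.ofReal ((((2 : ℝ) ^ z.1)⁻¹) ^ (d : ℝ)) =
            ENNReal.ofReal ((((2 : ℝ) ^ z.1)⁻¹) ^ (d : ℝ)) * 1 := (mul_one _).symm
          _ = ENNReal.ofReal ((((2 : ℝ) ^ z.1)⁻¹) ^ (d : ℝ)) * (ENNReal.ofReal (((2 : ℝ) ^ z.1) ^ (a + η)) * ENNReal.ofReal (((2 : ℝ) ^ z.1) ^ (-(a + η)))) := by
              rw [← h3]
          _ ≤ ENNReal.ofReal ((((2 : ℝ) ^ z.1)⁻¹) ^ (d : ℝ)) * (ENNReal.ofReal (((2 : ℝ) ^ z.1) ^ (a + η)) * (ENNReal.ofReal (128 * 2 ^ z.1) * rho f Λ z.1 (Ijk z.1 z.2))) :=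
              mul_le_mul_right (mul_le_mul_right hb.le _) _
          _ = _ := by
              rw [← mul_assoc, ← mul_assoc, ← ENNReal.ofReal_mul (by positivity), ← ENNReal.ofReal_mul (by positivity)]
              congr 2
              rw [Real.inv_rpow hx.le, ← Real.rpow_neg hx.le]
              have e5 : (1 + a + η - (d : ℝ)) = (-(d : ℝ)) + (a + η) + 1 := by ring
              have e7 : ((2 : ℝ) ^ z.1) ^ (-(d : ℝ) + (a + η) + 1) =
                  ((2 : ℝ) ^ z.1) ^ (-(d : ℝ)) * ((2 : ℝ) ^ z.1) ^ (a + η) * (2 : ℝ) ^ z.1 := by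
                rw [Real.rpow_add hx, Real.rpow_add hx, Real.rpow_one]
              rw [e5, e7]
              ring
      · rw [ht]
        simp only [hz, if_false]
        rw [Metric.ediam_empty, ENNReal.zero_rpow_of_pos hd0]
        exact zero_le
    calc ∑' z : ℕ × ℤ, Metric.ediam (t n z) ^ (d : ℝ)
        ≤ ∑' z : ℕ × ℤ, ENNReal.ofReal (128 * ((2 : ℝ) ^ z.1) ^ (1 + a + η - d)) * rho f Λ z.1 (Ijk z.1 z.2) :=
          ENNReal.tsum_le_tsum h1
      _ = ∑' j : ℕ, ∑' k : ℤ, ENNReal.ofReal (128 * ((2 : ℝ) ^ j) ^ (1 + a + η - d)) * rho f Λ j (Ijk j k) :=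
          ENNReal.tsum_prod (f := fun (j : ℕ) (k : ℤ) => ENNReal.ofReal (128 * ((2 : ℝ) ^ j) ^ (1 + a + η - d)) * rho f Λ j (Ijk j k))
      _ ≤ S0 := by
          rw [hS0]
          refine ENNReal.tsum_le_tsum (fun j => ?_)
          have hx : (0 : ℝ) < 2 ^ j := by positivity
          rw [ENNReal.tsum_mul_left]
          refine (mul_le_mul_right ((rho_sum f Λ j).trans (hCb (2 ^ j) (one_le_pow₀ (by norm_num)) f hfm hf hsupp)) _).trans ?_
          rw [← mul_assoc, ← ENNReal.ofReal_mul (by positivity)]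
          refine mul_le_mul_left (le_of_eq ?_) _
          congr 1
          have e6 : ((2 : ℝ) ^ j) ^ (1 + a + η - (d : ℝ)) * ((2 : ℝ) ^ j) ^ (η - 1) = ((2 : ℝ) ^ (-η)) ^ j := by
            rw [← Real.rpow_add hx, ← Real.rpow_natCast, ← Real.rpow_natCast, ← Real.rpow_mul (by norm_num),
              ← Real.rpow_mul (by norm_num)]
            congr 1
            rw [hη]; ring
          calc 128 * ((2 : ℝ) ^ j) ^ (1 + a + η - (d : ℝ)) * (C * ((2 : ℝ) ^ j) ^ (η - 1)) =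
              128 * C * (((2 : ℝ) ^ j) ^ (1 + a + η - (d : ℝ)) * ((2 : ℝ) ^ j) ^ (η - 1)) := by ring
            _ = _ := by rw [e6]
  have hcov : ∀ n, {l : ℝ | l ∈ Icc (-Λ) Λ ∧ ∫⁻ t : ℝ, Phi q f (t, l * t) = ⊤} ⊆ ⋃ z, t n z := by
    intro n l hl
    obtain ⟨hl1, hl2⟩ := hl
    by_contra hcon
    have hnb : ∀ j, n ≤ j → ¬ bad j ⌊l * 2 ^ j⌋ := by
      intro j hj hb
      apply hcon
      refine mem_iUnion.2 ⟨(j, ⌊l * 2 ^ j⌋), ?_⟩
      rw [ht]
      simp only [hj, hb, and_self, if_true]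
      exact mem_Ijk j l
    apply absurd hl2
    -- finiteness
    have hP2 : ∫⁻ x, ‖f x‖ₑ ^ (2 : ℝ) ≠ ⊤ := lp_fin 2 4 (by norm_num) (by norm_num) f hsupp hN
    have hPq : ∫⁻ x, ‖f x‖ₑ ^ q ≠ ⊤ := lp_fin q 4 (by linarith) hq4.le f hsupp hN
    set P2 : ℝ≥0∞ := ENNReal.ofReal (8 * Real.pi ^ 2 * 4 ^ (2 : ℝ)) * ∫⁻ x, ‖f x‖ₑ ^ (2 : ℝ) with hP2d
    have hP2f : P2 ≠ ⊤ := ENNReal.mul_ne_top ENNReal.ofReal_ne_top hP2
    set Pq : ℝ≥0∞ := ENNReal.ofReal (8 * Real.pi ^ 2 * 4 ^ q) * ∫⁻ x, ‖f x‖ₑ ^ q with hPqd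
    have hPqf : Pq ≠ ⊤ := ENNReal.mul_ne_top ENNReal.ofReal_ne_top hPq
    set K : ℝ≥0∞ := (ENNReal.ofReal 4 * P2) ^ ((4 - q) / 2) with hK
    have hKf : K ≠ ⊤ := ENNReal.rpow_ne_top_of_nonneg (by linarith) (ENNReal.mul_ne_top ENNReal.ofReal_ne_top hP2f)
    set Iq : ℕ → ℝ≥0∞ := fun j => ∫⁻ t in DR (2 ^ j), Phi q f (t, l * t) with hIq
    have hIqf : ∀ j, Iq j ≠ ⊤ := by
      intro j
      have : Iq j ≤ Pq * volume (DR (2 ^ j)) := by
        calc Iq j ≤ ∫⁻ t in DR (2 ^ j), Pq := lintegral_mono (fun t => Phi_le q (by linarith) f hf hsupp _)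
          _ = _ := by rw [lintegral_const, Measure.restrict_apply_univ]
      refine ne_top_of_le_ne_top (ENNReal.mul_ne_top hPqf ?_) this
      exact ne_top_of_le_ne_top ENNReal.ofReal_ne_top (volume_DR_le _ (by positivity))
    set σ : ℝ := η * (q - 2) / 2 with hσ
    have hσ0 : 0 < σ := by rw [hσ]; positivity
    have hIqb : ∀ j, n ≤ j → Iq j ≤ K * ENNReal.ofReal (((2 : ℝ) ^ (-σ)) ^ j) := by
      intro j hj
      have hx : (0 : ℝ) < 2 ^ j := by positivity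
      have h4 : ∫⁻ t in DR (2 ^ j), Phi 4 f (t, l * t) ≤ ENNReal.ofReal (((2 : ℝ) ^ j) ^ (-(a + η))) :=
        (I4_le Λ f hfm hf hsupp j l hl1).trans (not_lt.1 (hnb j hj))
      have h2 : ∫⁻ t in DR (2 ^ j), Phi 2 f (t, l * t) ≤ ENNReal.ofReal (2 ^ j) * (ENNReal.ofReal 4 * P2) := by
        calc ∫⁻ t in DR (2 ^ j), Phi 2 f (t, l * t) ≤ ∫⁻ t in DR (2 ^ j), P2 :=
              lintegral_mono (fun t => Phi_le 2 le_rfl f hf hsupp _)
          _ = P2 * volume (DR (2 ^ j)) := by rw [lintegral_const, Measure.restrict_apply_univ]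
          _ ≤ P2 * ENNReal.ofReal (4 * 2 ^ j) := mul_le_mul_right (volume_DR_le _ hx) _
          _ = _ := by rw [ENNReal.ofReal_mul (by norm_num)]; ring
      refine (holder24 q (by linarith) hq4.le f hfm l (DR (2 ^ j))).trans ?_
      refine (mul_le_mul' (ENNReal.rpow_le_rpow h2 (by linarith)) (ENNReal.rpow_le_rpow h4 (by linarith))).trans ?_
      rw [ENNReal.mul_rpow_of_nonneg _ _ (by linarith), ← hK, ENNReal.ofReal_rpow_of_pos hx,
        ENNReal.ofReal_rpow_of_pos (by positivity)]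
      refine le_of_eq ?_
      calc ENNReal.ofReal (((2 : ℝ) ^ j) ^ ((4 - q) / 2)) * K * ENNReal.ofReal ((((2 : ℝ) ^ j) ^ (-(a + η))) ^ ((q - 2) / 2))
          = K * (ENNReal.ofReal (((2 : ℝ) ^ j) ^ ((4 - q) / 2)) * ENNReal.ofReal ((((2 : ℝ) ^ j) ^ (-(a + η))) ^ ((q - 2) / 2))) := by ring
        _ = _ := by
          congr 1
          rw [← ENNReal.ofReal_mul (by positivity)]
          congr 1
          rw [← Real.rpow_mul hx.le, ← Real.rpow_add hx, ← Real.rpow_natCast, ← Real.rpow_natCast,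
            ← Real.rpow_mul (by norm_num), ← Real.rpow_mul (by norm_num)]
          congr 1
          rw [hσ, ha]
          field_simp
          ring
    have htail : ∑' j, Iq j ≠ ⊤ := by
      have h1 : ∀ j, Iq j ≤ (if j ∈ Finset.range n then Iq j else 0) + K * ENNReal.ofReal (((2 : ℝ) ^ (-σ)) ^ j) := by
        intro j
        by_cases hj : j ∈ Finset.range n
        · rw [if_pos hj]; exact le_self_add
        · rw [if_neg hj, zero_add]
          exact hIqb j (by simpa using hj)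
      refine ne_top_of_le_ne_top ?_ (ENNReal.tsum_le_tsum h1)
      rw [ENNReal.tsum_add]
      refine ENNReal.add_ne_top.2 ⟨?_, ?_⟩
      · rw [tsum_eq_sum (s := Finset.range n) (fun j hj => by rw [if_neg hj])]
        refine (ENNReal.sum_lt_top.2 (fun j hj => ?_)).ne
        rw [if_pos hj]
        exact (hIqf j).lt_top
      · rw [ENNReal.tsum_mul_left]
        refine ENNReal.mul_ne_top hKf ?_
        have hr0 : (0 : ℝ) < (2 : ℝ) ^ (-σ) := by positivity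
        have hr1 : (2 : ℝ) ^ (-σ) < 1 := Real.rpow_lt_one_of_one_lt_of_neg (by norm_num) (by linarith)
        rw [← ENNReal.ofReal_tsum_of_nonneg (fun j => by positivity) (summable_geometric_of_lt_one hr0.le hr1)]
        exact ENNReal.ofReal_ne_top
    have hcover : (univ : Set ℝ) ⊆ Icc (-1 : ℝ) 1 ∪ ⋃ j : ℕ, DR (2 ^ j) := by
      intro t _
      rcases le_or_gt (|t|) 1 with h1 | h1
      · exact Or.inl (abs_le.1 h1)
      · right
        obtain ⟨m, hn1, hn2⟩ := exists_nat_pow_near h1.le (by norm_num : (1 : ℝ) < 2)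
        refine mem_iUnion.2 ⟨m, hn1, ?_⟩
        rw [pow_succ] at hn2
        linarith
    have hle : ∫⁻ t : ℝ, Phi q f (t, l * t) ≤ (∫⁻ t in Icc (-1 : ℝ) 1, Phi q f (t, l * t)) + ∑' j, Iq j := by
      calc ∫⁻ t : ℝ, Phi q f (t, l * t) = ∫⁻ t in univ, Phi q f (t, l * t) := by rw [Measure.restrict_univ]
        _ ≤ ∫⁻ t in Icc (-1 : ℝ) 1 ∪ ⋃ j : ℕ, DR (2 ^ j), Phi q f (t, l * t) := lintegral_mono_set hcover
        _ ≤ _ := (lintegral_union_le _ _ _).trans (add_le_add le_rfl (lintegral_iUnion_le _ _))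
    refine ne_top_of_le_ne_top (ENNReal.add_ne_top.2 ⟨?_, htail⟩) hle
    have : ∫⁻ t in Icc (-1 : ℝ) 1, Phi q f (t, l * t) ≤ Pq * volume (Icc (-1 : ℝ) 1) := by
      calc ∫⁻ t in Icc (-1 : ℝ) 1, Phi q f (t, l * t) ≤ ∫⁻ t in Icc (-1 : ℝ) 1, Pq :=
            lintegral_mono (fun t => Phi_le q (by linarith) f hf hsupp _)
        _ = _ := by rw [lintegral_const, Measure.restrict_apply_univ]
    refine ne_top_of_le_ne_top (ENNReal.mul_ne_top hPqf ?_) this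
    rw [Real.volume_Icc]; exact ENNReal.ofReal_ne_top
  have hfinal := Measure.hausdorffMeasure_le_liminf_tsum (β := ℕ) (ι := fun _ => ℕ × ℤ) (d : ℝ)
    {l : ℝ | l ∈ Icc (-Λ) Λ ∧ ∫⁻ t : ℝ, Phi q f (t, l * t) = ⊤} (l := atTop)
    (fun n => ENNReal.ofReal (((2 : ℝ) ^ n)⁻¹)) ?_ t (Eventually.of_forall (fun n z => ?_))
    (Eventually.of_forall (fun n => hcov n))
  · refine ne_top_of_le_ne_top hS0fin (hfinal.trans ?_)
    refine (liminf_le_liminf (Eventually.of_forall hsum)).trans ?_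
    simp
  · have h1 : Tendsto (fun n : ℕ => ((2 : ℝ) ^ n)⁻¹) atTop (𝓝 0) :=
      tendsto_inv_atTop_zero.comp (tendsto_pow_atTop_atTop_of_one_lt (by norm_num))
    have h2 := ENNReal.tendsto_ofReal h1
    simpa using h2
  · rw [ht]
    by_cases hz : n ≤ z.1 ∧ bad z.1 z.2
    · simp only [hz, and_self, if_true]
      rw [ediam_Ijk]
      refine ENNReal.ofReal_le_ofReal (inv_anti₀ (by positivity) ?_)
      exact pow_le_pow_right₀ (by norm_num) hz.1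
    · simp only [hz, if_false]
      rw [Metric.ediam_empty]
      exact zero_le

end X92.Ext
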