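import Pool.Agent.X92.Ext14
open MeasureTheory Set Complex Filter
open scoped ENNReal ComplexConjugate NNReal Topology

namespace X92.Ext

/-- The pencil average in the full range `q > 3`. -/
theorem avgLam' (q Λ : ℝ) (hq3 : 3 < q) (hΛ : 0 ≤ Λ) :
    ∃ C : ℝ, 0 < C ∧ ∀ f : ℝ × ℝ → ℂ, Measurable f → Integrable f →
      (∀ x : ℝ × ℝ, (1 < |x.1| ∨ 1 < |x.2|) → f x = 0) →
      ∫⁻ l in Icc (-Λ) Λ, ∫⁻ t : ℝ, Phi q f (t, l * t) ≤ ENNReal.ofReal C * ∫⁻ x, ‖f x‖ₑ ^ q := by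
  rcases lt_or_ge q 4 with hq4 | hq4
  · exact avgLam q Λ hq3 hq4 hΛ
  obtain ⟨C, hC, h⟩ := avgLam (7 / 2) Λ (by norm_num) (by norm_num) hΛ
  refine ⟨C * 4 ^ q, by positivity, ?_⟩
  intro f hfm hf hsupp
  have h1 := h f hfm hf hsupp
  set m := ∫⁻ x, ‖f x‖ₑ with hm
  have hmfin : m ≠ ⊤ := hf.2.ne
  have hqr : 0 ≤ q - 7 / 2 := by linarith
  have hmq : m ^ (q - 7 / 2) ≠ ⊤ := ENNReal.rpow_ne_top_of_nonneg hqr hmfin
  have hpt : ∀ b : ℝ × ℝ, Phi q f b ≤ m ^ (q - 7 / 2) * Phi (7 / 2) f b := by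
    intro b
    unfold Phi
    rw [← lintegral_const_mul' _ _ hmq]
    refine lintegral_mono (fun p => ?_)
    have e1 : ‖T f p b‖ₑ ^ q = ‖T f p b‖ₑ ^ (q - 7 / 2) * ‖T f p b‖ₑ ^ (7 / 2 : ℝ) := by
      rw [← ENNReal.rpow_add_of_nonneg _ _ hqr (by norm_num)]
      congr 1; ring
    rw [e1]
    exact mul_le_mul_left (ENNReal.rpow_le_rpow (T_le f p b) hqr) _
  calc ∫⁻ l in Icc (-Λ) Λ, ∫⁻ t : ℝ, Phi q f (t, l * t)
      ≤ ∫⁻ l in Icc (-Λ) Λ, ∫⁻ t : ℝ, m ^ (q - 7 / 2) * Phi (7 / 2) f (t, l * t) :=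
        lintegral_mono (fun l => lintegral_mono (fun t => hpt _))
    _ = m ^ (q - 7 / 2) * ∫⁻ l in Icc (-Λ) Λ, ∫⁻ t : ℝ, Phi (7 / 2) f (t, l * t) := by
        rw [← lintegral_const_mul' _ _ hmq]
        refine lintegral_congr (fun l => ?_)
        rw [lintegral_const_mul' _ _ hmq]
    _ ≤ m ^ (q - 7 / 2) * (ENNReal.ofReal C * ∫⁻ x, ‖f x‖ₑ ^ (7 / 2 : ℝ)) := mul_le_mul_right h1 _
    _ = ENNReal.ofReal C * (m ^ (q - 7 / 2) * ∫⁻ x, ‖f x‖ₑ ^ (7 / 2 : ℝ)) := by ring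
    _ ≤ ENNReal.ofReal C * (ENNReal.ofReal (4 ^ q) * ∫⁻ x, ‖f x‖ₑ ^ q) :=
        mul_le_mul_right (holder_pack (7 / 2) q (by norm_num) (by linarith) f hf.aestronglyMeasurable hsupp) _
    _ = _ := by rw [← mul_assoc, ← ENNReal.ofReal_mul hC.le]

/-- the two-parameter dilation -/
def dil (a c : ℝ) (x : ℝ × ℝ) : ℝ × ℝ := (a * x.1, c * x.2)

theorem measurable_dil (a c : ℝ) : Measurable (dil a c) := by unfold dil; fun_prop

theorem map_dil (a c : ℝ) (ha : a ≠ 0) (hc : c ≠ 0) :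
    Measure.map (dil a c) (volume : Measure (ℝ × ℝ)) =
      ENNReal.ofReal |(a * c)⁻¹| • (volume : Measure (ℝ × ℝ)) := by
  have h1 : dil a c = Prod.map (fun y => a * y) (fun y => c * y) := by ext x <;> simp [dil]
  rw [h1, Measure.volume_eq_prod, ← Measure.map_prod_map _ _ (measurable_const_mul a) (measurable_const_mul c),
    Real.map_volume_mul_left ha, Real.map_volume_mul_left hc, Measure.prod_smul_right, Measure.prod_smul_left,
    smul_smul]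
  congr 1
  rw [← ENNReal.ofReal_mul (abs_nonneg _), ← abs_mul, mul_inv, mul_comm]

theorem lint_dil (a c : ℝ) (ha : a ≠ 0) (hc : c ≠ 0) (g : ℝ × ℝ → ℝ≥0∞) (hg : Measurable g) :
    ∫⁻ x, g (dil a c x) = ENNReal.ofReal |(a * c)⁻¹| * ∫⁻ x, g x := by
  rw [← lintegral_map hg (measurable_dil a c), map_dil a c ha hc, lintegral_smul_measure, smul_eq_mul]

theorem int_dil (a c : ℝ) (ha : a ≠ 0) (hc : c ≠ 0) (g : ℝ × ℝ → ℂ) (hg : Measurable g) :
    ∫ x, g (dil a c x) = |(a * c)⁻¹| • ∫ x, g x := by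
  rw [← integral_map (measurable_dil a c).aemeasurable hg.aestronglyMeasurable, map_dil a c ha hc,
    integral_smul_measure, ENNReal.toReal_ofReal (abs_nonneg _)]

theorem T_dil (a c : ℝ) (ha : a ≠ 0) (hc : c ≠ 0) (f : ℝ × ℝ → ℂ) (hf : Measurable f) (p b : ℝ × ℝ) :
    T (fun x => f (dil a c x)) p b =
      |(a * c)⁻¹| • T f (dil a⁻¹ c⁻¹ p) (dil (a⁻¹ ^ 2) (c⁻¹ ^ 2) b) := by
  unfold T
  have hm : Measurable (fun x : ℝ × ℝ => f x * (ph (dil a⁻¹ c⁻¹ p) x * ph (dil (a⁻¹ ^ 2) (c⁻¹ ^ 2) b) (sq2 x))) := by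
    refine hf.mul (Measurable.mul ?_ ?_)
    · exact (continuous_ph.comp (Continuous.prodMk continuous_const continuous_id)).measurable
    · exact (continuous_ph.comp (Continuous.prodMk continuous_const continuous_sq2)).measurable
  rw [← int_dil a c ha hc _ hm]
  congr 1
  ext x
  have h1 : ph (dil a⁻¹ c⁻¹ p) (dil a c x) = ph p x := by
    rw [ph_eq, ph_eq]
    congr 3
    simp only [dil]
    field_simp
  have h2 : ph (dil (a⁻¹ ^ 2) (c⁻¹ ^ 2) b) (sq2 (dil a c x)) = ph b (sq2 x) := by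
    rw [ph_eq, ph_eq]
    congr 3
    simp only [dil, sq2]
    field_simp
  rw [h1, h2]

/-- `Φ` of a dilated function -/
theorem Phi_dil (q a c : ℝ) (hq : 0 < q) (ha : 0 < a) (hc : 0 < c) (f : ℝ × ℝ → ℂ) (hf : Measurable f) (b : ℝ × ℝ) :
    Phi q (fun x => f (dil a c x)) b =
      ENNReal.ofReal ((a * c) ^ (1 - q)) * Phi q f (dil (a⁻¹ ^ 2) (c⁻¹ ^ 2) b) := by
  unfold Phi
  have hac : 0 < a * c := mul_pos ha hc
  have h1 : ∀ p : ℝ × ℝ, ‖T (fun x => f (dil a c x)) p b‖ₑ ^ q =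
      ENNReal.ofReal ((a * c) ^ (-q)) * ‖T f (dil a⁻¹ c⁻¹ p) (dil (a⁻¹ ^ 2) (c⁻¹ ^ 2) b)‖ₑ ^ q := by
    intro p
    rw [T_dil a c ha.ne' hc.ne' f hf, enorm_smul, ENNReal.mul_rpow_of_nonneg _ _ hq.le]
    congr 1
    rw [← ofReal_norm, Real.norm_eq_abs, abs_abs, abs_of_pos (inv_pos.2 hac),
      ENNReal.ofReal_rpow_of_pos (inv_pos.2 hac), Real.inv_rpow hac.le, Real.rpow_neg hac.le]
  simp_rw [h1]
  rw [lintegral_const_mul' _ _ ENNReal.ofReal_ne_top]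
  have hg0 : Measurable (fun p : ℝ × ℝ => T f p (dil (a⁻¹ ^ 2) (c⁻¹ ^ 2) b)) :=
    measurable_Tc (Z := ℝ × ℝ) f hf (fun p : ℝ × ℝ => p) (fun _ : ℝ × ℝ => dil (a⁻¹ ^ 2) (c⁻¹ ^ 2) b)
      measurable_id measurable_const
  have hg : Measurable (fun p : ℝ × ℝ => ‖T f p (dil (a⁻¹ ^ 2) (c⁻¹ ^ 2) b)‖ₑ ^ q) := hg0.enorm.pow_const q
  rw [lint_dil a⁻¹ c⁻¹ (inv_ne_zero ha.ne') (inv_ne_zero hc.ne') _ hg, ← mul_assoc,
    ← ENNReal.ofReal_mul (by positivity)]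
  congr 2
  have e1 : (a⁻¹ * c⁻¹)⁻¹ = a * c := by field_simp
  rw [e1, abs_of_pos hac]
  have : (1 : ℝ) - q = -q + 1 := by ring
  rw [this, Real.rpow_add hac, Real.rpow_one]

/-- Multiplication by the Fourier transform of an integrable function. -/
theorem mult_bound (q : ℝ) (hq : 1 < q) (m : ℝ × ℝ → ℂ) (hm : Integrable m) (g : ℝ × ℝ → ℂ) (hgm : Measurable g)
    (hg : Integrable g) (b : ℝ × ℝ) :
    Phi q (fun x => (∫ η, m η * ph η x) * g x) b ≤ (∫⁻ η, ‖m η‖ₑ) ^ q * Phi q g b := by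
  have hmf : ∫⁻ η, ‖m η‖ₑ ≠ ⊤ := hm.2.ne
  -- the identity
  have hid : ∀ p : ℝ × ℝ, T (fun x => (∫ η, m η * ph η x) * g x) p b = ∫ η, m η * T g (p + η) b := by
    intro p
    unfold T
    have hG : Integrable (fun x => g x * (ph p x * ph b (sq2 x))) := by
      have h1 := integrable_mod _ (integrable_mod g hg p (fun x => x) continuous_id) b sq2 continuous_sq2
      refine h1.congr (Eventually.of_forall (fun x => ?_))
      simp only
      ring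
    have hprod : Integrable (Function.uncurry (fun (x η : ℝ × ℝ) => (g x * (ph p x * ph b (sq2 x))) * m η * ph η x))
        ((volume : Measure (ℝ × ℝ)).prod volume) := by
      have h1 := hG.mul_prod hm
      have hc : Continuous (fun z : (ℝ × ℝ) × (ℝ × ℝ) => ph z.2 z.1) :=
        continuous_ph.comp (by fun_prop : Continuous (fun z : (ℝ × ℝ) × (ℝ × ℝ) => (z.2, z.1)))
      have h2 := h1.bdd_mul (c := 1) hc.aestronglyMeasurable (Eventually.of_forall (fun z => (norm_ph _ _).le))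
      refine h2.congr (Eventually.of_forall (fun z => ?_))
      simp only [Function.uncurry]
      ring
    calc ∫ x, (∫ η, m η * ph η x) * g x * (ph p x * ph b (sq2 x))
        = ∫ x, ∫ η, (g x * (ph p x * ph b (sq2 x))) * m η * ph η x := by
          congr 1; ext x
          rw [mul_assoc, mul_comm, ← integral_const_mul]
          congr 1; ext η; ring
      _ = ∫ η, ∫ x, (g x * (ph p x * ph b (sq2 x))) * m η * ph η x := integral_integral_swap hprod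
      _ = _ := by
          congr 1; ext η
          rw [← integral_const_mul]
          congr 1; ext x
          have : ph (p + η) x = ph p x * ph η x := by
            rw [ph_eq, ph_eq, ph_eq, ← Complex.exp_add]
            congr 1
            simp only [Prod.fst_add, Prod.snd_add]
            push_cast; ring
          rw [this]; ring
  have hgT0 : Measurable (fun z : (ℝ × ℝ) × (ℝ × ℝ) => T g (z.1 + z.2) b) :=
    measurable_Tc (Z := (ℝ × ℝ) × (ℝ × ℝ)) g hgm (fun z : (ℝ × ℝ) × (ℝ × ℝ) => z.1 + z.2)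
      (fun _ : (ℝ × ℝ) × (ℝ × ℝ) => b) (measurable_fst.add measurable_snd) measurable_const
  have hgT1 : Measurable (fun p : ℝ × ℝ => T g p b) :=
    measurable_Tc (Z := ℝ × ℝ) g hgm (fun p : ℝ × ℝ => p) (fun _ : ℝ × ℝ => b) measurable_id measurable_const
  have hq0 : 0 < q := by linarith
  have hpt : ∀ p : ℝ × ℝ, ‖T (fun x => (∫ η, m η * ph η x) * g x) p b‖ₑ ^ q ≤
      (∫⁻ η, ‖m η‖ₑ) ^ (q - 1) * ∫⁻ η, ‖m η‖ₑ * ‖T g (p + η) b‖ₑ ^ q := by
    intro p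
    rw [hid p]
    have hTp : Measurable (fun η : ℝ × ℝ => T g (p + η) b) :=
      measurable_Tc (Z := ℝ × ℝ) g hgm (fun η : ℝ × ℝ => p + η) (fun _ : ℝ × ℝ => b)
        (measurable_const.add measurable_id) measurable_const
    have h1 : ‖∫ η, m η * T g (p + η) b‖ₑ ≤ ∫⁻ η, ‖m η‖ₑ ^ (1 - 1 / q) * (‖m η‖ₑ * ‖T g (p + η) b‖ₑ ^ q) ^ (1 / q) := by
      refine (enorm_integral_le_lintegral_enorm _).trans (le_of_eq ?_)
      refine lintegral_congr (fun η => ?_)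
      have hinv : 0 ≤ 1 / q := by positivity
      have hinv2 : 0 ≤ 1 - 1 / q := by
        have : 1 / q ≤ 1 := by rw [div_le_one hq0]; linarith
        linarith
      rw [enorm_mul, ENNReal.mul_rpow_of_nonneg _ _ hinv, ← ENNReal.rpow_mul, ← mul_assoc,
        ← ENNReal.rpow_add_of_nonneg _ _ hinv2 hinv]
      have e1 : 1 - 1 / q + 1 / q = 1 := by ring
      have e2 : q * (1 / q) = 1 := by field_simp
      rw [e1, e2, ENNReal.rpow_one, ENNReal.rpow_one]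
    have h2 := ENNReal.lintegral_mul_norm_pow_le (μ := (volume : Measure (ℝ × ℝ)))
      (f := fun η => ‖m η‖ₑ) (g := fun η => ‖m η‖ₑ * ‖T g (p + η) b‖ₑ ^ q)
      hm.aestronglyMeasurable.enorm (hm.aestronglyMeasurable.enorm.mul (hTp.enorm.pow_const q).aemeasurable)
      (p := 1 - 1 / q) (q := 1 / q)
      (by
        have : 1 / q ≤ 1 := by rw [div_le_one hq0]; linarith
        linarith) (by positivity) (by ring)
    have h3 := ENNReal.rpow_le_rpow (h1.trans h2) hq0.le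
    refine h3.trans (le_of_eq ?_)
    rw [ENNReal.mul_rpow_of_nonneg _ _ hq0.le, ← ENNReal.rpow_mul, ← ENNReal.rpow_mul]
    have e1 : (1 - 1 / q) * q = q - 1 := by field_simp
    have e2 : 1 / q * q = 1 := by field_simp
    rw [e1, e2, ENNReal.rpow_one]
  have hmq : (∫⁻ η, ‖m η‖ₑ) ^ (q - 1) ≠ ⊤ := ENNReal.rpow_ne_top_of_nonneg (by linarith) hmf
  have hshift : ∀ η : ℝ × ℝ, ∫⁻ p : ℝ × ℝ, ‖m η‖ₑ * ‖T g (p + η) b‖ₑ ^ q = ‖m η‖ₑ * Phi q g b := by
    intro η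
    have hTη0 : Measurable (fun p : ℝ × ℝ => T g (p + η) b) :=
      measurable_Tc (Z := ℝ × ℝ) g hgm (fun p : ℝ × ℝ => p + η) (fun _ : ℝ × ℝ => b)
        (measurable_id.add measurable_const) measurable_const
    have hTη : Measurable (fun p : ℝ × ℝ => ‖T g (p + η) b‖ₑ ^ q) := hTη0.enorm.pow_const q
    rw [lintegral_const_mul _ hTη]
    congr 1
    exact lintegral_add_right_eq_self (fun p : ℝ × ℝ => ‖T g p b‖ₑ ^ q) η
  calc Phi q (fun x => (∫ η, m η * ph η x) * g x) b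
      ≤ ∫⁻ p : ℝ × ℝ, (∫⁻ η, ‖m η‖ₑ) ^ (q - 1) * ∫⁻ η, ‖m η‖ₑ * ‖T g (p + η) b‖ₑ ^ q := lintegral_mono hpt
    _ = (∫⁻ η, ‖m η‖ₑ) ^ (q - 1) * ∫⁻ p : ℝ × ℝ, ∫⁻ η, ‖m η‖ₑ * ‖T g (p + η) b‖ₑ ^ q :=
        lintegral_const_mul' _ _ hmq
    _ = (∫⁻ η, ‖m η‖ₑ) ^ (q - 1) * ∫⁻ η : ℝ × ℝ, ∫⁻ p : ℝ × ℝ, ‖m η‖ₑ * ‖T g (p + η) b‖ₑ ^ q := by
        congr 1
        refine lintegral_lintegral_swap ?_
        exact (hm.aestronglyMeasurable.comp_snd).enorm.mul (hgT0.enorm.pow_const q).aemeasurable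
    _ = (∫⁻ η, ‖m η‖ₑ) ^ (q - 1) * ((∫⁻ η, ‖m η‖ₑ) * Phi q g b) := by
        congr 1
        simp_rw [hshift]
        rw [lintegral_mul_const'' _ hm.aestronglyMeasurable.enorm]
    _ = _ := by
        rw [← mul_assoc]
        congr 1
        have e3 : (∫⁻ η, ‖m η‖ₑ) ^ q = (∫⁻ η, ‖m η‖ₑ) ^ ((q - 1) + 1) := by congr 1; ring
        rw [e3, ENNReal.rpow_add_of_nonneg _ _ (by linarith) (by norm_num), ENNReal.rpow_one]

end X92.Ext
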