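import Pool.Agent.X92.Ext15
open MeasureTheory Set Complex Filter
open scoped ENNReal ComplexConjugate NNReal Topology

namespace X92.Ext

/-- the truncated structured function -/
noncomputable def f0 (α δ : ℝ) (F : ℝ → ℂ) : ℝ × ℝ → ℂ :=
  (Icc (δ / 2) 1 ×ˢ Icc (δ / 2) 1).indicator (fun x => F (x.1 ^ α * x.2))

theorem f0_meas (α δ : ℝ) (F : ℝ → ℂ) (hF : Measurable F) : Measurable (f0 α δ F) := by
  unfold f0
  refine Measurable.indicator ?_ (measurableSet_Icc.prod measurableSet_Icc)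
  exact hF.comp ((measurable_fst.pow_const α).mul measurable_snd)

theorem f0_supp (α δ : ℝ) (hδ : 0 < δ) (F : ℝ → ℂ) :
    ∀ x : ℝ × ℝ, (1 < |x.1| ∨ 1 < |x.2|) → f0 α δ F x = 0 := by
  intro x hx
  unfold f0
  refine indicator_of_notMem ?_ _
  intro h
  rcases hx with hx | hx
  · have := h.1.1
    have := h.1.2
    rw [abs_of_nonneg (by linarith)] at hx
    linarith
  · have := h.2.1
    have := h.2.2
    rw [abs_of_nonneg (by linarith)] at hx
    linarith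

theorem f0_norm (q α δ : ℝ) (hq : 0 < q) (hδ : 0 < δ) (hδ1 : δ ≤ 1) (F : ℝ → ℂ) (hF : Measurable F) :
    ∫⁻ x, ‖f0 α δ F x‖ₑ ^ q ≤ ENNReal.ofReal ((δ / 2) ^ (-|α|)) * ∫⁻ y in Ioi (0 : ℝ), ‖F y‖ₑ ^ q := by
  set G : ℝ → ℝ≥0∞ := (Ioi (0 : ℝ)).indicator (fun y => ‖F y‖ₑ ^ q) with hG
  have hGm : Measurable G := (hF.enorm.pow_const q).indicator measurableSet_Ioi
  have h1 : ∀ x : ℝ × ℝ, ‖f0 α δ F x‖ₑ ^ q ≤
      (Icc (δ / 2) 1).indicator (fun x1 => G (x1 ^ α * x.2)) x.1 := by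
    intro x
    unfold f0
    by_cases hx : x ∈ (Icc (δ / 2) 1 ×ˢ Icc (δ / 2) 1 : Set (ℝ × ℝ))
    · rw [indicator_of_mem hx, indicator_of_mem hx.1]
      have hx1 : 0 < x.1 := by have := hx.1.1; linarith
      have hx2 : 0 < x.2 := by have := hx.2.1; linarith
      have hy : x.1 ^ α * x.2 ∈ Ioi (0 : ℝ) := mul_pos (Real.rpow_pos_of_pos hx1 α) hx2
      rw [hG, indicator_of_mem hy]
    · rw [indicator_of_notMem hx]
      simp [hq]
  have hm2 : Measurable (fun x : ℝ × ℝ => (Icc (δ / 2) 1).indicator (fun x1 => G (x1 ^ α * x.2)) x.1) := by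
    have : (fun x : ℝ × ℝ => (Icc (δ / 2) 1).indicator (fun x1 => G (x1 ^ α * x.2)) x.1) =
        {x : ℝ × ℝ | x.1 ∈ Icc (δ / 2) 1}.indicator (fun x => G (x.1 ^ α * x.2)) := by
      ext x
      by_cases hx : x.1 ∈ Icc (δ / 2) 1
      · rw [indicator_of_mem hx, indicator_of_mem (show x ∈ {x : ℝ × ℝ | x.1 ∈ Icc (δ / 2) 1} from hx)]
      · rw [indicator_of_notMem hx, indicator_of_notMem (show x ∉ {x : ℝ × ℝ | x.1 ∈ Icc (δ / 2) 1} from hx)]
    rw [this]
    refine Measurable.indicator ?_ (measurable_fst measurableSet_Icc)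
    exact hGm.comp ((measurable_fst.pow_const α).mul measurable_snd)
  refine (lintegral_mono h1).trans ?_
  rw [Measure.volume_eq_prod, lintegral_prod _ hm2.aemeasurable]
  have h2 : ∀ x1 : ℝ, ∫⁻ x2 : ℝ, (Icc (δ / 2) 1).indicator (fun x1 => G (x1 ^ α * x2)) x1 ≤
      (Icc (δ / 2) 1).indicator (fun _ => ENNReal.ofReal ((δ / 2) ^ (-|α|)) * ∫⁻ y, G y) x1 := by
    intro x1
    by_cases hx : x1 ∈ Icc (δ / 2) 1
    · have hx1 : 0 < x1 := by have := hx.1; linarith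
      simp only [indicator_of_mem hx]
      have hpos : 0 < x1 ^ α := Real.rpow_pos_of_pos hx1 α
      rw [← lintegral_map hGm (measurable_const_mul (x1 ^ α)), Real.map_volume_mul_left hpos.ne',
        lintegral_smul_measure, smul_eq_mul]
      refine mul_le_mul_left (ENNReal.ofReal_le_ofReal ?_) _
      rw [abs_of_pos (inv_pos.2 hpos), ← Real.rpow_neg hx1.le]
      rcases le_total 0 α with h | h
      · rw [abs_of_nonneg h]
        exact Real.rpow_le_rpow_of_nonpos (by linarith) hx.1 (by linarith)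
      · rw [abs_of_nonpos h, neg_neg]
        calc x1 ^ (-α) ≤ 1 := Real.rpow_le_one hx1.le hx.2 (by linarith)
          _ ≤ (δ / 2) ^ α := Real.one_le_rpow_of_pos_of_le_one_of_nonpos (by linarith) (by linarith) h
    · simp only [indicator_of_notMem hx]
      simp
  refine (lintegral_mono h2).trans ?_
  rw [lintegral_indicator measurableSet_Icc, lintegral_const, Measure.restrict_apply_univ, Real.volume_Icc]
  have h3 : ∫⁻ y, G y = ∫⁻ y in Ioi (0 : ℝ), ‖F y‖ₑ ^ q := by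
    rw [hG, lintegral_indicator measurableSet_Ioi]
  rw [h3]
  calc ENNReal.ofReal ((δ / 2) ^ (-|α|)) * (∫⁻ y in Ioi (0 : ℝ), ‖F y‖ₑ ^ q) * ENNReal.ofReal (1 - δ / 2)
      ≤ ENNReal.ofReal ((δ / 2) ^ (-|α|)) * (∫⁻ y in Ioi (0 : ℝ), ‖F y‖ₑ ^ q) * 1 := by
        refine mul_le_mul_right ?_ _
        rw [← ENNReal.ofReal_one]
        exact ENNReal.ofReal_le_ofReal (by linarith)
    _ = _ := mul_one _

/-- Functions constant along power curves, times a cutoff. -/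
theorem power_curves (q α δ : ℝ) (hq3 : 3 < q) (hα : α ≠ -1) (hδ : 0 < δ) (hδ1 : δ ≤ 1 / 2)
    (m : ℝ × ℝ → ℂ) (hm : Integrable m)
    (hχ : ∀ x : ℝ × ℝ, ¬ (x.1 ∈ Icc δ (1 / 2) ∧ x.2 ∈ Icc δ (1 / 2)) → ∫ η, m η * ph η x = 0) :
    ∃ C : ℝ, 0 < C ∧ ∀ F : ℝ → ℂ, Measurable F →
      ∫⁻ ξ, ‖EL 1 (fun x => (∫ η, m η * ph η x) * F (x.1 ^ α * x.2)) ξ‖ₑ ^ q ≤
        ENNReal.ofReal C * ∫⁻ y in Ioi (0 : ℝ), ‖F y‖ₑ ^ q := by
  have hq0 : 0 < q := by linarith
  set β : ℝ := 2 * α + 2 with hβ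
  have hβ0 : β ≠ 0 := by
    intro h
    apply hα
    rw [hβ] at h
    linarith
  set s1 : ℝ := 2 ^ (1 / (1 + |α|)) with hs1
  have ha1 : 0 < 1 + |α| := by positivity
  have hs1_gt : 1 < s1 := Real.one_lt_rpow (by norm_num) (by positivity)
  have hs1_le : s1 ≤ 2 := by
    calc s1 ≤ (2 : ℝ) ^ (1 : ℝ) := by
          refine Real.rpow_le_rpow_of_exponent_le (by norm_num) ?_
          rw [div_le_one ha1]
          linarith [abs_nonneg α]
      _ = 2 := Real.rpow_one 2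
  have hs1a : s1 ^ |α| ≤ 2 := by
    rw [hs1, ← Real.rpow_mul (by norm_num)]
    calc (2 : ℝ) ^ (1 / (1 + |α|) * |α|) ≤ (2 : ℝ) ^ (1 : ℝ) := by
          refine Real.rpow_le_rpow_of_exponent_le (by norm_num) ?_
          rw [div_mul_eq_mul_div, one_mul, div_le_one ha1]
          linarith
      _ = 2 := Real.rpow_one 2
  set Λ : ℝ := max 1 (s1 ^ β) with hΛ
  have hΛ0 : 0 ≤ Λ := le_trans zero_le_one (le_max_left _ _)
  obtain ⟨C, hC, h⟩ := avgLam' q Λ hq3 hΛ0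
  set V : ℝ := |s1 ^ β - 1| with hV
  have hVpos : 0 < V := by
    rw [hV, abs_pos, sub_ne_zero]
    rcases lt_or_gt_of_ne hβ0 with hβn | hβp
    · exact (Real.rpow_lt_one_of_one_lt_of_neg hs1_gt hβn).ne
    · exact (Real.one_lt_rpow hs1_gt hβp).ne'
  set C1 : ℝ := s1 ^ (|1 - α| * (q - 1)) with hC1
  have hC1pos : 0 < C1 := by positivity
  set M : ℝ≥0∞ := (∫⁻ η, ‖m η‖ₑ) ^ q with hM
  have hMf : M ≠ ⊤ := ENNReal.rpow_ne_top_of_nonneg hq0.le hm.2.ne
  refine ⟨(1 + M.toReal) * (C1 * 4) * C * (δ / 2) ^ (-|α|) / V, by positivity, ?_⟩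
  intro F hF
  set χ : ℝ × ℝ → ℂ := fun x => ∫ η, m η * ph η x with hχd
  set f : ℝ × ℝ → ℂ := fun x => χ x * F (x.1 ^ α * x.2) with hf
  by_cases hFfin : ∫⁻ y in Ioi (0 : ℝ), ‖F y‖ₑ ^ q = ⊤
  · rw [hFfin, ENNReal.mul_top (ENNReal.ofReal_pos.2 (by positivity)).ne']
    exact le_top
  have hf0m := f0_meas α δ F hF
  have hf0s := f0_supp α δ hδ F
  have hf0n := f0_norm q α δ hq0 hδ (by linarith) F hF
  have hf0fin : ∫⁻ x, ‖f0 α δ F x‖ₑ ^ q ≠ ⊤ :=
    ne_top_of_le_ne_top (ENNReal.mul_ne_top ENNReal.ofReal_ne_top hFfin) hf0n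
  have hf0i : Integrable (f0 α δ F) := integrable_of_supp q (by linarith) _ hf0m.aestronglyMeasurable hf0s hf0fin
  have havg := h (f0 α δ F) hf0m hf0i hf0s
  have hχm : Measurable χ := by
    have hc : Continuous χ := by
      refine continuous_of_dominated (bound := fun η => ‖m η‖) ?_ ?_ hm.norm ?_
      · intro x
        refine hm.aestronglyMeasurable.mul ?_
        exact (continuous_ph.comp (by fun_prop : Continuous (fun η : ℝ × ℝ => (η, x)))).aestronglyMeasurable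
      · intro x
        refine Eventually.of_forall (fun η => ?_)
        rw [norm_mul, norm_ph, mul_one]
      · refine Eventually.of_forall (fun η => ?_)
        exact continuous_const.mul (continuous_ph.comp (by fun_prop : Continuous (fun x : ℝ × ℝ => (η, x))))
    exact hc.measurable
  have hfm : Measurable f := hχm.mul (hF.comp ((measurable_fst.pow_const α).mul measurable_snd))
  -- pointwise in `s`
  have hkey : ∀ s ∈ Icc (1 : ℝ) s1, ∫⁻ t : ℝ, Phi q f (t, 1 * t) ≤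
      (M * ENNReal.ofReal (C1 * 4)) * ∫⁻ t : ℝ, Phi q (f0 α δ F) (t, s ^ β * t) := by
    intro s hs
    have hs0 : 0 < s := by linarith [hs.1]
    have hsa : 0 < s ^ (-α) := Real.rpow_pos_of_pos hs0 _
    have hslow : 1 / 2 ≤ s ^ (-α) ∧ s ^ (-α) ≤ 2 := by
      have hb1 : s ^ |α| ≤ 2 := (Real.rpow_le_rpow hs0.le hs.2 (abs_nonneg _)).trans hs1a
      constructor
      · have h1 : s ^ (-|α|) ≤ s ^ (-α) := Real.rpow_le_rpow_of_exponent_le hs.1 (neg_le_neg (le_abs_self α))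
        refine le_trans ?_ h1
        rw [Real.rpow_neg hs0.le, one_div]
        exact inv_anti₀ (Real.rpow_pos_of_pos hs0 _) hb1
      · exact (Real.rpow_le_rpow_of_exponent_le hs.1 (neg_le_abs α)).trans hb1
    have hfeq : f = fun x => χ x * (f0 α δ F) (dil s (s ^ (-α)) x) := by
      ext x
      by_cases hx : x.1 ∈ Icc δ (1 / 2) ∧ x.2 ∈ Icc δ (1 / 2)
      · have hx1 : 0 < x.1 := by linarith [hx.1.1]
        have hmem : dil s (s ^ (-α)) x ∈ (Icc (δ / 2) 1 ×ˢ Icc (δ / 2) 1 : Set (ℝ × ℝ)) := by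
          have hs2 : s ≤ 2 := hs.2.trans hs1_le
          refine ⟨⟨?_, ?_⟩, ⟨?_, ?_⟩⟩
          · show δ / 2 ≤ s * x.1
            nlinarith [hx.1.1, hs.1]
          · show s * x.1 ≤ 1
            nlinarith [hx.1.2, hs.1]
          · show δ / 2 ≤ s ^ (-α) * x.2
            nlinarith [hx.2.1, hslow.1]
          · show s ^ (-α) * x.2 ≤ 1
            nlinarith [hx.2.2, hx.2.1, hslow.2]
        rw [hf]
        simp only [f0]
        rw [indicator_of_mem hmem]
        congr 2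
        simp only [dil]
        rw [Real.mul_rpow hs0.le hx1.le]
        have : s ^ α * s ^ (-α) = 1 := by rw [← Real.rpow_add hs0]; simp
        calc x.1 ^ α * x.2 = (s ^ α * s ^ (-α)) * (x.1 ^ α * x.2) := by rw [this, one_mul]
          _ = _ := by ring
      · have : χ x = 0 := hχ x hx
        rw [hf]
        simp only [this, zero_mul]
    have hgm : Measurable (fun x => (f0 α δ F) (dil s (s ^ (-α)) x)) := hf0m.comp (measurable_dil _ _)
    have hgi : Integrable (fun x => (f0 α δ F) (dil s (s ^ (-α)) x)) := by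
      refine ⟨hgm.aestronglyMeasurable, ?_⟩
      rw [HasFiniteIntegral, lint_dil s (s ^ (-α)) hs0.ne' hsa.ne' (fun x => ‖f0 α δ F x‖ₑ) hf0m.enorm]
      exact ENNReal.mul_lt_top ENNReal.ofReal_lt_top hf0i.2
    have hPhi : ∀ t : ℝ, Phi q f (t, 1 * t) ≤ M * (ENNReal.ofReal C1 * Phi q (f0 α δ F) (dil (s⁻¹ ^ 2) ((s ^ (-α))⁻¹ ^ 2) (t, t))) := by
      intro t
      rw [hfeq, one_mul]
      refine (mult_bound q (by linarith) m hm _ hgm hgi (t, t)).trans ?_
      rw [← hM, Phi_dil q s (s ^ (-α)) hq0 hs0 hsa (f0 α δ F) hf0m]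
      refine mul_le_mul_right (mul_le_mul_left (ENNReal.ofReal_le_ofReal ?_) _) _
      have e1 : s * s ^ (-α) = s ^ (1 - α) := by
        rw [sub_eq_add_neg, Real.rpow_add hs0, Real.rpow_one]
      rw [e1, ← Real.rpow_mul hs0.le, hC1]
      calc s ^ ((1 - α) * (1 - q)) ≤ s ^ (|1 - α| * (q - 1)) := by
            refine Real.rpow_le_rpow_of_exponent_le hs.1 ?_
            have h1 : -(1 - α) ≤ |1 - α| := neg_le_abs _
            have h2 : 0 ≤ q - 1 := by linarith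
            nlinarith
        _ ≤ s1 ^ (|1 - α| * (q - 1)) := by
            refine Real.rpow_le_rpow hs0.le hs.2 ?_
            have h2 : 0 ≤ q - 1 := by linarith
            positivity
    have hscale : ∫⁻ t : ℝ, Phi q (f0 α δ F) (dil (s⁻¹ ^ 2) ((s ^ (-α))⁻¹ ^ 2) (t, t)) =
        ENNReal.ofReal (s ^ 2) * ∫⁻ t : ℝ, Phi q (f0 α δ F) (t, s ^ β * t) := by
      have hGm : Measurable (fun t : ℝ => Phi q (f0 α δ F) (t, s ^ β * t)) :=
        (measurable_Phi q _ hf0m).comp (by fun_prop)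
      have e1 : ∀ t : ℝ, Phi q (f0 α δ F) (dil (s⁻¹ ^ 2) ((s ^ (-α))⁻¹ ^ 2) (t, t)) =
          (fun t : ℝ => Phi q (f0 α δ F) (t, s ^ β * t)) ((s⁻¹ ^ 2) * t) := by
        intro t
        simp only [dil]
        congr 2
        have e2 : (s ^ (-α))⁻¹ = s ^ α := by rw [Real.rpow_neg hs0.le, inv_inv]
        have e3 : s ^ β = (s ^ α) ^ 2 * s ^ 2 := by
          rw [hβ, Real.rpow_add hs0, two_mul, Real.rpow_add hs0, ← sq]
          congr 1
          exact_mod_cast Real.rpow_natCast s 2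
        rw [e2, e3]
        field_simp
      simp_rw [e1]
      rw [← lintegral_map hGm (measurable_const_mul (s⁻¹ ^ 2)),
        Real.map_volume_mul_left (by positivity), lintegral_smul_measure, smul_eq_mul]
      congr 2
      rw [inv_pow, inv_inv, abs_of_pos (by positivity)]
    calc ∫⁻ t : ℝ, Phi q f (t, 1 * t)
        ≤ ∫⁻ t : ℝ, M * (ENNReal.ofReal C1 * Phi q (f0 α δ F) (dil (s⁻¹ ^ 2) ((s ^ (-α))⁻¹ ^ 2) (t, t))) :=
          lintegral_mono hPhi
      _ = M * (ENNReal.ofReal C1 * ∫⁻ t : ℝ, Phi q (f0 α δ F) (dil (s⁻¹ ^ 2) ((s ^ (-α))⁻¹ ^ 2) (t, t))) := by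
          rw [lintegral_const_mul' _ _ hMf, lintegral_const_mul' _ _ ENNReal.ofReal_ne_top]
      _ = M * (ENNReal.ofReal C1 * (ENNReal.ofReal (s ^ 2) * ∫⁻ t : ℝ, Phi q (f0 α δ F) (t, s ^ β * t))) := by
          rw [hscale]
      _ ≤ M * (ENNReal.ofReal C1 * (ENNReal.ofReal 4 * ∫⁻ t : ℝ, Phi q (f0 α δ F) (t, s ^ β * t))) := by
          refine mul_le_mul_right (mul_le_mul_right (mul_le_mul_left (ENNReal.ofReal_le_ofReal ?_) _) _) _
          have : s ≤ 2 := hs.2.trans hs1_le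
          nlinarith
      _ = _ := by
          rw [ENNReal.ofReal_mul hC1pos.le]; ring
  -- average over `l`
  set N := ∫⁻ t : ℝ, Phi q f (t, 1 * t) with hN
  have hJ : ∀ l ∈ uIcc (1 : ℝ) (s1 ^ β), N ≤ (M * ENNReal.ofReal (C1 * 4)) * ∫⁻ t : ℝ, Phi q (f0 α δ F) (t, l * t) := by
    intro l hl
    have hs1p : (0 : ℝ) < s1 := by linarith
    have hl0 : 0 < l := by
      have h1 : 0 < min (1 : ℝ) (s1 ^ β) := lt_min one_pos (Real.rpow_pos_of_pos hs1p _)
      exact lt_of_lt_of_le h1 hl.1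
    have hsl : l ^ (1 / β) ∈ Icc (1 : ℝ) s1 := by
      rcases lt_or_gt_of_ne hβ0 with hβn | hβp
      · have h1 : s1 ^ β ≤ 1 := Real.rpow_le_one_of_one_le_of_nonpos hs1_gt.le hβn.le
        rw [uIcc_of_ge h1] at hl
        constructor
        · exact Real.one_le_rpow_of_pos_of_le_one_of_nonpos hl0 hl.2 (by
            rw [one_div]; exact (inv_lt_zero.2 hβn).le)
        · have h2 : l ^ (1 / β) ≤ (s1 ^ β) ^ (1 / β) :=
            Real.rpow_le_rpow_of_nonpos (Real.rpow_pos_of_pos hs1p _) hl.1 (by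
              rw [one_div]; exact (inv_lt_zero.2 hβn).le)
          rwa [← Real.rpow_mul hs1p.le, mul_one_div_cancel hβ0, Real.rpow_one] at h2
      · have h1 : 1 ≤ s1 ^ β := Real.one_le_rpow hs1_gt.le hβp.le
        rw [uIcc_of_le h1] at hl
        constructor
        · exact Real.one_le_rpow hl.1 (by positivity)
        · have h2 : l ^ (1 / β) ≤ (s1 ^ β) ^ (1 / β) := Real.rpow_le_rpow hl0.le hl.2 (by positivity)
          rwa [← Real.rpow_mul hs1p.le, mul_one_div_cancel hβ0, Real.rpow_one] at h2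
    have h3 := hkey _ hsl
    have e1 : (l ^ (1 / β)) ^ β = l := by
      rw [← Real.rpow_mul hl0.le, one_div, inv_mul_cancel₀ hβ0, Real.rpow_one]
    rwa [e1] at h3
  have hVol : volume (uIcc (1 : ℝ) (s1 ^ β)) = ENNReal.ofReal V := by
    rw [Real.volume_interval]
  have hsub : uIcc (1 : ℝ) (s1 ^ β) ⊆ Icc (-Λ) Λ := by
    intro l hl
    have h1 : l ≤ Λ := hl.2
    have h2 : 0 < min (1 : ℝ) (s1 ^ β) := lt_min one_pos (Real.rpow_pos_of_pos (by linarith) _)
    exact ⟨by have := hl.1; linarith [hl.1], h1⟩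
  have hmain : ENNReal.ofReal V * N ≤ (M * ENNReal.ofReal (C1 * 4)) *
      (ENNReal.ofReal C * (ENNReal.ofReal ((δ / 2) ^ (-|α|)) * ∫⁻ y in Ioi (0 : ℝ), ‖F y‖ₑ ^ q)) := by
    calc ENNReal.ofReal V * N = ∫⁻ _l in uIcc (1 : ℝ) (s1 ^ β), N := by
          rw [lintegral_const, Measure.restrict_apply_univ, hVol, mul_comm]
      _ ≤ ∫⁻ l in uIcc (1 : ℝ) (s1 ^ β), (M * ENNReal.ofReal (C1 * 4)) * ∫⁻ t : ℝ, Phi q (f0 α δ F) (t, l * t) :=
          setLIntegral_mono' measurableSet_uIcc hJ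
      _ = (M * ENNReal.ofReal (C1 * 4)) * ∫⁻ l in uIcc (1 : ℝ) (s1 ^ β), ∫⁻ t : ℝ, Phi q (f0 α δ F) (t, l * t) :=
          lintegral_const_mul' _ _ (ENNReal.mul_ne_top hMf ENNReal.ofReal_ne_top)
      _ ≤ (M * ENNReal.ofReal (C1 * 4)) * ∫⁻ l in Icc (-Λ) Λ, ∫⁻ t : ℝ, Phi q (f0 α δ F) (t, l * t) :=
          mul_le_mul_right (lintegral_mono_set hsub) _
      _ ≤ (M * ENNReal.ofReal (C1 * 4)) * (ENNReal.ofReal C * ∫⁻ x, ‖f0 α δ F x‖ₑ ^ q) := mul_le_mul_right havg _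
      _ ≤ _ := mul_le_mul_right (mul_le_mul_right hf0n _) _
  have hMle : M ≤ ENNReal.ofReal (1 + M.toReal) := by
    rw [← ENNReal.ofReal_toReal hMf]
    refine ENNReal.ofReal_le_ofReal ?_
    rw [ENNReal.toReal_ofReal ENNReal.toReal_nonneg]
    linarith
  have hNorm : ∫⁻ ξ, ‖EL 1 f ξ‖ₑ ^ q = N := norm_EL q 1 f hfm
  rw [hNorm]
  have hV1 : ENNReal.ofReal (1 / V) * ENNReal.ofReal V = 1 := by
    rw [← ENNReal.ofReal_mul (by positivity), one_div_mul_cancel hVpos.ne', ENNReal.ofReal_one]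
  calc N = ENNReal.ofReal (1 / V) * (ENNReal.ofReal V * N) := by rw [← mul_assoc, hV1, one_mul]
    _ ≤ ENNReal.ofReal (1 / V) * ((M * ENNReal.ofReal (C1 * 4)) *
      (ENNReal.ofReal C * (ENNReal.ofReal ((δ / 2) ^ (-|α|)) * ∫⁻ y in Ioi (0 : ℝ), ‖F y‖ₑ ^ q))) :=
        mul_le_mul_right hmain _
    _ ≤ ENNReal.ofReal (1 / V) * ((ENNReal.ofReal (1 + M.toReal) * ENNReal.ofReal (C1 * 4)) *
      (ENNReal.ofReal C * (ENNReal.ofReal ((δ / 2) ^ (-|α|)) * ∫⁻ y in Ioi (0 : ℝ), ‖F y‖ₑ ^ q))) :=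
        mul_le_mul_right (mul_le_mul_left (mul_le_mul_left hMle _) _) _
    _ = _ := by
        rw [← mul_assoc (ENNReal.ofReal C), ← mul_assoc (ENNReal.ofReal (1 + M.toReal) * _), ← mul_assoc (ENNReal.ofReal (1 / V)),
          ← ENNReal.ofReal_mul (by positivity), ← ENNReal.ofReal_mul (by positivity),
          ← ENNReal.ofReal_mul (by positivity), ← ENNReal.ofReal_mul (by positivity)]
        congr 2
        ring

end X92.Ext
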