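import Pool.Agent.X92.Ext1
open MeasureTheory Set Complex
open scoped ENNReal ComplexConjugate

namespace X92.Ext

theorem integrable_gk (ρ : ℝ) (hρ : 0 < ρ) : Integrable (gk ρ) := by
  have h1 : Integrable (fun y : ℝ => Real.exp (-(ρ ^ 2 / 4) * y ^ 2)) :=
    integrable_exp_neg_mul_sq (by positivity)
  have h2 := (h1.mul_prod h1).const_mul (Real.pi * ρ ^ 2)
  rw [← Measure.volume_eq_prod] at h2
  refine h2.congr (Filter.Eventually.of_forall (fun y => ?_))
  simp only [gk]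
  rw [← Real.exp_add]
  congr 2
  ring

theorem integral_gk (ρ : ℝ) (hρ : 0 < ρ) : ∫ y, gk ρ y = 4 * Real.pi ^ 2 := by
  have h1 : ∀ y : ℝ × ℝ, gk ρ y = (Real.pi * ρ ^ 2) * (Real.exp (-(ρ ^ 2 / 4) * y.1 ^ 2) *
      Real.exp (-(ρ ^ 2 / 4) * y.2 ^ 2)) := by
    intro y
    rw [gk, ← Real.exp_add]
    congr 2
    ring
  simp_rw [h1]
  rw [integral_const_mul, Measure.volume_eq_prod, integral_prod_mul
    (fun y : ℝ => Real.exp (-(ρ ^ 2 / 4) * y ^ 2)) (fun y : ℝ => Real.exp (-(ρ ^ 2 / 4) * y ^ 2)),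
    integral_gaussian]
  have h2 : Real.sqrt (Real.pi / (ρ ^ 2 / 4)) * Real.sqrt (Real.pi / (ρ ^ 2 / 4)) =
      Real.pi / (ρ ^ 2 / 4) := Real.mul_self_sqrt (by positivity)
  rw [h2]
  field_simp

theorem lintegral_gk (ρ : ℝ) (hρ : 0 < ρ) (x : ℝ × ℝ) :
    ∫⁻ x', ENNReal.ofReal (gk ρ (x - x')) = ENNReal.ofReal (4 * Real.pi ^ 2) := by
  rw [lintegral_sub_left_eq_self (fun y => ENNReal.ofReal (gk ρ y)) x,
    ← ofReal_integral_eq_lintegral_ofReal (integrable_gk ρ hρ)
      (Filter.Eventually.of_forall (gk_nonneg ρ)), integral_gk ρ hρ]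

theorem measurable_ft {X : Type*} [MeasurableSpace X] (μ : Measure X) [SFinite μ] (φ : X → ℝ × ℝ)
    (hφ : Measurable φ) (G : X → ℂ) (hG : AEStronglyMeasurable G μ) :
    AEStronglyMeasurable (fun p : ℝ × ℝ => ∫ v, G v * ph p (φ v) ∂μ) := by
  have h1 : Measurable (fun z : (ℝ × ℝ) × X => (z.1, φ z.2)) :=
    measurable_fst.prodMk (hφ.comp measurable_snd)
  have h2 : Measurable (fun z : (ℝ × ℝ) × (ℝ × ℝ) => ph z.1 z.2) := continuous_ph.measurable
  have h3 := (h2.comp h1).aestronglyMeasurable (μ := (volume : Measure (ℝ × ℝ)).prod μ)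
  have h : AEStronglyMeasurable (fun z : (ℝ × ℝ) × X => G z.2 * ph z.1 (φ z.2))
      ((volume : Measure (ℝ × ℝ)).prod μ) := (hG.comp_snd).mul h3
  exact h.integral_prod_right'

/-- The Plancherel inequality, with a non-sharp constant. -/
theorem planch (G : ℝ × ℝ → ℂ) (hG : Integrable G) :
    ∫⁻ p : ℝ × ℝ, ‖∫ v, G v * ph p v‖ₑ ^ 2 ≤ ENNReal.ofReal (8 * Real.pi ^ 2) * ∫⁻ v, ‖G v‖ₑ ^ 2 := by
  have hb : ∀ n : ℕ, ∫⁻ p : ℝ × ℝ, ‖∫ v, G v * ph p v‖ₑ ^ 2 * ENNReal.ofReal (gw ((n : ℝ) + 1) p) ≤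
      ENNReal.ofReal (8 * Real.pi ^ 2) * ∫⁻ v, ‖G v‖ₑ ^ 2 := by
    intro n
    refine (ttg volume ((n : ℝ) + 1) (by positivity) (fun v => v) measurable_id G hG).trans ?_
    simp_rw [lintegral_gk _ (by positivity : (0 : ℝ) < (n : ℝ) + 1)]
    rw [lintegral_mul_const' _ _ ENNReal.ofReal_ne_top, ← mul_assoc, mul_comm, ← mul_assoc]
    refine mul_le_mul_left ?_ _
    rw [mul_comm]
    have : (2 : ℝ≥0∞) = ENNReal.ofReal 2 := by simp
    rw [this, ← ENNReal.ofReal_mul (by norm_num)]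
    refine ENNReal.ofReal_le_ofReal ?_
    nlinarith [Real.pi_pos]
  have hmeas := measurable_ft volume (fun v => v) measurable_id G hG.aestronglyMeasurable
  have ht : Filter.Tendsto (fun n : ℕ => ∫⁻ p : ℝ × ℝ, ‖∫ v, G v * ph p v‖ₑ ^ 2 *
      ENNReal.ofReal (gw ((n : ℝ) + 1) p)) Filter.atTop
      (nhds (∫⁻ p : ℝ × ℝ, ‖∫ v, G v * ph p v‖ₑ ^ 2 * 1)) := by
    refine lintegral_tendsto_of_tendsto_of_monotone ?_ ?_ ?_
    · intro n
      refine (hmeas.enorm.pow_const 2).mul ?_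
      exact (integrable_gw _ (by positivity)).aestronglyMeasurable.aemeasurable.ennreal_ofReal
    · refine Filter.Eventually.of_forall (fun p n m hnm => ?_)
      refine mul_le_mul_right ?_ _
      refine ENNReal.ofReal_le_ofReal ?_
      unfold gw
      refine Real.exp_le_exp.2 ?_
      rw [neg_div, neg_div, neg_le_neg_iff]
      have : (n : ℝ) ≤ m := by exact_mod_cast hnm
      gcongr
    · refine Filter.Eventually.of_forall (fun p => ?_)
      refine ENNReal.Tendsto.const_mul ?_ (Or.inl one_ne_zero)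
      have h1 : Filter.Tendsto (fun n : ℕ => gw ((n : ℝ) + 1) p) Filter.atTop (nhds 1) := by
        unfold gw
        have h2 : Filter.Tendsto (fun n : ℕ => -(p.1 ^ 2 + p.2 ^ 2) / ((n : ℝ) + 1) ^ 2) Filter.atTop (nhds 0) := by
          refine Filter.Tendsto.div_atTop (a := -(p.1 ^ 2 + p.2 ^ 2)) tendsto_const_nhds ?_
          refine (Filter.tendsto_pow_atTop (by norm_num)).comp ?_
          exact Filter.tendsto_atTop_add_const_right _ _ tendsto_natCast_atTop_atTop
        have h3 := (Real.continuous_exp.tendsto 0).comp h2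
        simpa [Function.comp_def] using h3
      have := ENNReal.tendsto_ofReal h1
      simpa using this
  simp only [mul_one] at ht
  exact le_of_tendsto' ht hb


/-- `(x₁², x₂²)` -/
def sq2 (x : ℝ × ℝ) : ℝ × ℝ := (x.1 ^ 2, x.2 ^ 2)

theorem continuous_sq2 : Continuous sq2 := by unfold sq2; fun_prop

/-- The extension operator of the surface `(x₁, x₂, x₁², x₂²)` in `ℝ⁴`. -/
noncomputable def T (f : ℝ × ℝ → ℂ) (p b : ℝ × ℝ) : ℂ := ∫ x, f x * (ph p x * ph b (sq2 x))

/-- The autocorrelation. -/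
noncomputable def GG (f : ℝ × ℝ → ℂ) (b v : ℝ × ℝ) : ℂ :=
  ∫ x, (f x * f (v - x)) * ph b (sq2 x + sq2 (v - x))

theorem integrable_mod (f : ℝ × ℝ → ℂ) (hf : Integrable f) (b : ℝ × ℝ) (φ : ℝ × ℝ → ℝ × ℝ)
    (hφ : Continuous φ) : Integrable (fun x => f x * ph b (φ x)) := by
  have hc : Continuous (fun x => ph b (φ x)) :=
    continuous_ph.comp (continuous_const.prodMk hφ)
  have h := hf.bdd_mul (c := 1) (f := fun x => ph b (φ x)) hc.aestronglyMeasurable
    (Filter.Eventually.of_forall (fun x => (norm_ph _ _).le))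
  refine h.congr (Filter.Eventually.of_forall (fun x => ?_))
  simp only
  ring

theorem conv_int (g : ℝ × ℝ → ℂ) (hg : Integrable g) :
    Integrable (fun v : ℝ × ℝ => ∫ x, g x * g (v - x)) ∧
      ∫ v, ∫ x, g x * g (v - x) = (∫ x, g x) ^ 2 := by
  have h1 := hg.integrable_convolution (ContinuousLinearMap.mul ℝ ℂ) hg
  have h2 := integral_convolution (ContinuousLinearMap.mul ℝ ℂ) hg hg
  simp only [convolution_def, ContinuousLinearMap.mul_apply'] at h2
  constructor
  · exact h1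
  · rw [h2, sq]

theorem GG_integrable (f : ℝ × ℝ → ℂ) (hf : Integrable f) (b : ℝ × ℝ) : Integrable (GG f b) := by
  have h := (conv_int _ (integrable_mod f hf b sq2 continuous_sq2)).1
  refine h.congr (Filter.Eventually.of_forall (fun v => ?_))
  simp only [GG]
  congr 1
  ext x
  rw [ph_add]
  ring

theorem T_sq (f : ℝ × ℝ → ℂ) (hf : Integrable f) (p b : ℝ × ℝ) :
    (T f p b) ^ 2 = ∫ v, GG f b v * ph p v := by
  have h0 : Integrable (fun x => f x * (ph p x * ph b (sq2 x))) := by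
    have h1 := integrable_mod _ (integrable_mod f hf p (fun x => x) continuous_id) b sq2 continuous_sq2
    refine h1.congr (Filter.Eventually.of_forall (fun x => ?_))
    simp only
    ring
  have h := (conv_int _ h0).2
  rw [T, ← h]
  congr 1
  ext v
  rw [GG, ← integral_mul_const]
  congr 1
  ext x
  have h3 : ph p v = ph p x * ph p (v - x) := by
    rw [← ph_add]; congr 1; abel
  rw [ph_add, h3]
  ring

end X92.Ext
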