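import Pool.Agent.X92.Ext2
open MeasureTheory Set Complex
open scoped ENNReal ComplexConjugate

namespace X92.Ext

/-- One-dimensional kernel. -/
noncomputable def q1 (R a k : ℝ) : ℝ := Real.sqrt Real.pi * R * Real.exp (-(R ^ 2 * ((a - k) * (a + k)) ^ 2))

theorem q1_nonneg (R a k : ℝ) (hR : 0 ≤ R) : 0 ≤ q1 R a k := by unfold q1; positivity

theorem lint_two_gauss (A c a : ℝ) (hA : 0 ≤ A) (hc : 0 < c) :
    ∫⁻ k : ℝ, ENNReal.ofReal (A * (Real.exp (-c * (a - k) ^ 2) + Real.exp (-c * (a + k) ^ 2))) =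
      ENNReal.ofReal (A * (2 * Real.sqrt (Real.pi / c))) := by
  have h0 : Integrable (fun y : ℝ => Real.exp (-c * y ^ 2)) := integrable_exp_neg_mul_sq hc
  have h1 : Integrable (fun k : ℝ => Real.exp (-c * (a - k) ^ 2)) := h0.comp_sub_left a
  have h2 : Integrable (fun k : ℝ => Real.exp (-c * (a + k) ^ 2)) := by
    have := h0.comp_add_left a
    exact this
  have h12 : Integrable (fun k : ℝ => A * (Real.exp (-c * (a - k) ^ 2) + Real.exp (-c * (a + k) ^ 2))) :=
    (h1.add h2).const_mul A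
  rw [← ofReal_integral_eq_lintegral_ofReal h12
    (Filter.Eventually.of_forall (fun k => by positivity))]
  congr 1
  rw [integral_const_mul]
  congr 1
  rw [integral_add h1 h2, integral_sub_left_eq_self (fun y : ℝ => Real.exp (-c * y ^ 2)),
    integral_add_left_eq_self (fun y : ℝ => Real.exp (-c * y ^ 2)), integral_gaussian]
  ring

theorem q1_le_A (R a k : ℝ) (hR : 0 ≤ R) :
    q1 R a k ≤ (Real.sqrt Real.pi * R) * (Real.exp (-(R ^ 2 * a ^ 2) * (a - k) ^ 2) +
      Real.exp (-(R ^ 2 * a ^ 2) * (a + k) ^ 2)) := by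
  unfold q1
  refine mul_le_mul_of_nonneg_left ?_ (by positivity)
  rcases le_total (|a - k|) (|a + k|) with h | h
  · have h1 : |a| ≤ |a + k| := by
      have : |(a - k) + (a + k)| ≤ |a - k| + |a + k| := abs_add_le _ _
      have h2 : (a - k) + (a + k) = 2 * a := by ring
      rw [h2, abs_mul, abs_two] at this
      linarith
    have h3 : a ^ 2 ≤ (a + k) ^ 2 := by rw [← sq_abs a, ← sq_abs (a + k)]; gcongr
    have h4 : Real.exp (-(R ^ 2 * ((a - k) * (a + k)) ^ 2)) ≤ Real.exp (-(R ^ 2 * a ^ 2) * (a - k) ^ 2) := by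
      refine Real.exp_le_exp.2 ?_
      have : 0 ≤ R ^ 2 * (a - k) ^ 2 * ((a + k) ^ 2 - a ^ 2) := by
        have := sub_nonneg.2 h3
        positivity
      nlinarith
    have := Real.exp_pos (-(R ^ 2 * a ^ 2) * (a + k) ^ 2)
    linarith
  · have h1 : |a| ≤ |a - k| := by
      have : |(a - k) + (a + k)| ≤ |a - k| + |a + k| := abs_add_le _ _
      have h2 : (a - k) + (a + k) = 2 * a := by ring
      rw [h2, abs_mul, abs_two] at this
      linarith
    have h3 : a ^ 2 ≤ (a - k) ^ 2 := by rw [← sq_abs a, ← sq_abs (a - k)]; gcongr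
    have h4 : Real.exp (-(R ^ 2 * ((a - k) * (a + k)) ^ 2)) ≤ Real.exp (-(R ^ 2 * a ^ 2) * (a + k) ^ 2) := by
      refine Real.exp_le_exp.2 ?_
      have : 0 ≤ R ^ 2 * (a + k) ^ 2 * ((a - k) ^ 2 - a ^ 2) := by
        have := sub_nonneg.2 h3
        positivity
      nlinarith
    have := Real.exp_pos (-(R ^ 2 * a ^ 2) * (a - k) ^ 2)
    linarith

theorem q1_le_B (R a k : ℝ) (hR : 0 ≤ R) :
    q1 R a k ≤ (Real.sqrt Real.pi * R * Real.exp 1) * (Real.exp (-(2 * R) * (a - k) ^ 2) +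
      Real.exp (-(2 * R) * (a + k) ^ 2)) := by
  have key : ∀ z w : ℝ, |z| ≤ |w| → Real.exp (-(R ^ 2 * (z * w) ^ 2)) ≤ Real.exp 1 * Real.exp (-(2 * R) * z ^ 2) := by
    intro z w hzw
    rw [← Real.exp_add]
    refine Real.exp_le_exp.2 ?_
    have h3 : z ^ 2 ≤ w ^ 2 := by rw [← sq_abs z, ← sq_abs w]; gcongr
    have h4 : R ^ 2 * (z ^ 2) ^ 2 ≤ R ^ 2 * (z * w) ^ 2 := by
      have : (z * w) ^ 2 = z ^ 2 * w ^ 2 := by ring
      rw [this]
      have : (z ^ 2) ^ 2 = z ^ 2 * z ^ 2 := by ring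
      rw [this]
      gcongr
    nlinarith [sq_nonneg (R * z ^ 2 - 1)]
  unfold q1
  rw [mul_assoc (Real.sqrt Real.pi * R)]
  refine mul_le_mul_of_nonneg_left ?_ (by positivity)
  rw [mul_add (Real.exp 1)]
  rcases le_total (|a - k|) (|a + k|) with h | h
  · have h1 := key _ _ h
    have : 0 < Real.exp 1 * Real.exp (-(2 * R) * (a + k) ^ 2) := by positivity
    linarith
  · have h1 := key _ _ h
    rw [mul_comm (a + k)] at h1
    have : 0 < Real.exp 1 * Real.exp (-(2 * R) * (a - k) ^ 2) := by positivity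
    linarith

/-- The one-dimensional weight. -/
noncomputable def kap (R a : ℝ) : ℝ := (4 * Real.pi * Real.exp 1) / (|a| + 1 / Real.sqrt R)

theorem kap_nonneg (R a : ℝ) : 0 ≤ kap R a := by unfold kap; positivity

theorem j_bound (R : ℝ) (hR : 0 < R) (a : ℝ) :
    ∫⁻ k : ℝ, ENNReal.ofReal (q1 R a k) ≤ ENNReal.ofReal (kap R a) := by
  have hs : 0 < Real.sqrt R := Real.sqrt_pos.2 hR
  have he : 1 ≤ Real.exp 1 := by
    have := Real.add_one_le_exp (1:ℝ); linarith
  rcases le_or_gt (|a|) (1 / Real.sqrt R) with h | h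
  · refine (lintegral_mono (fun k => ENNReal.ofReal_le_ofReal (q1_le_B R a k hR.le))).trans ?_
    rw [lint_two_gauss _ _ _ (by positivity) (by positivity)]
    refine ENNReal.ofReal_le_ofReal ?_
    unfold kap
    rw [le_div_iff₀ (by positivity)]
    have h1 : |a| + 1 / Real.sqrt R ≤ 2 / Real.sqrt R := by
      have : 2 / Real.sqrt R = 1 / Real.sqrt R + 1 / Real.sqrt R := by ring
      linarith
    have h2 : Real.sqrt (Real.pi / (2 * R)) ≤ Real.sqrt Real.pi / Real.sqrt R := by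
      rw [← Real.sqrt_div Real.pi_pos.le]
      refine Real.sqrt_le_sqrt ?_
      gcongr
      linarith
    calc Real.sqrt Real.pi * R * Real.exp 1 * (2 * Real.sqrt (Real.pi / (2 * R))) * (|a| + 1 / Real.sqrt R)
        ≤ Real.sqrt Real.pi * R * Real.exp 1 * (2 * (Real.sqrt Real.pi / Real.sqrt R)) * (2 / Real.sqrt R) := by
          gcongr
      _ = 4 * (Real.sqrt Real.pi * Real.sqrt Real.pi) * Real.exp 1 * (R / (Real.sqrt R * Real.sqrt R)) := by
          field_simp
          ring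
      _ = 4 * Real.pi * Real.exp 1 := by
          rw [Real.mul_self_sqrt Real.pi_pos.le, Real.mul_self_sqrt hR.le, div_self hR.ne', mul_one]
  · have ha : 0 < |a| := lt_trans (by positivity) h
    have ha2 : 0 < a ^ 2 := by rw [← sq_abs]; positivity
    refine (lintegral_mono (fun k => ENNReal.ofReal_le_ofReal (q1_le_A R a k hR.le))).trans ?_
    rw [lint_two_gauss _ _ _ (by positivity) (by positivity)]
    refine ENNReal.ofReal_le_ofReal ?_
    unfold kap
    rw [le_div_iff₀ (by positivity)]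
    have h2 : Real.sqrt (Real.pi / (R ^ 2 * a ^ 2)) = Real.sqrt Real.pi / (R * |a|) := by
      rw [Real.sqrt_div Real.pi_pos.le, ← sq_abs a, ← mul_pow, Real.sqrt_sq (by positivity)]
    rw [h2]
    calc Real.sqrt Real.pi * R * (2 * (Real.sqrt Real.pi / (R * |a|))) * (|a| + 1 / Real.sqrt R)
        ≤ Real.sqrt Real.pi * R * (2 * (Real.sqrt Real.pi / (R * |a|))) * (|a| + |a|) := by gcongr
      _ = 4 * (Real.sqrt Real.pi * Real.sqrt Real.pi) := by
          field_simp
          ring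
      _ = 4 * Real.pi * 1 := by rw [Real.mul_self_sqrt Real.pi_pos.le]; ring
      _ ≤ 4 * Real.pi * Real.exp 1 := by gcongr

theorem gk_eq (R : ℝ) (v x x' : ℝ × ℝ) :
    gk R ((sq2 x + sq2 (v - x)) - (sq2 x' + sq2 (v - x'))) =
      q1 R (x.1 - v.1 / 2) (x'.1 - v.1 / 2) * q1 R (x.2 - v.2 / 2) (x'.2 - v.2 / 2) := by
  unfold gk q1 sq2
  simp only [Prod.fst_sub, Prod.snd_sub, Prod.fst_add, Prod.snd_add]
  have h3 : Real.sqrt Real.pi * Real.sqrt Real.pi = Real.pi := Real.mul_self_sqrt Real.pi_pos.le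
  have h4 : ∀ A B E1 E2 E : ℝ, E = E1 * E2 → Real.pi * R ^ 2 * E = (Real.sqrt Real.pi * R * E1) * (Real.sqrt Real.pi * R * E2) := by
    intro A B E1 E2 E hE
    rw [hE]
    nth_rewrite 1 [← h3]
    ring
  refine h4 0 0 _ _ _ ?_
  rw [← Real.exp_add]
  congr 1
  ring

theorem continuous_q1 (R a : ℝ) : Continuous (q1 R a) := by unfold q1; fun_prop

theorem lint_gk_le (R : ℝ) (hR : 0 < R) (v x : ℝ × ℝ) :
    ∫⁻ x', ENNReal.ofReal (gk R ((sq2 x + sq2 (v - x)) - (sq2 x' + sq2 (v - x')))) ≤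
      ENNReal.ofReal (kap R (x.1 - v.1 / 2) * kap R (x.2 - v.2 / 2)) := by
  simp_rw [gk_eq]
  simp_rw [ENNReal.ofReal_mul (q1_nonneg R _ _ hR.le)]
  have hm1 : Measurable (fun y : ℝ => ENNReal.ofReal (q1 R (x.1 - v.1 / 2) (y - v.1 / 2))) :=
    ENNReal.measurable_ofReal.comp ((continuous_q1 _ _).measurable.comp (measurable_id.sub_const _))
  have hm2 : Measurable (fun y : ℝ => ENNReal.ofReal (q1 R (x.2 - v.2 / 2) (y - v.2 / 2))) :=
    ENNReal.measurable_ofReal.comp ((continuous_q1 _ _).measurable.comp (measurable_id.sub_const _))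
  rw [Measure.volume_eq_prod, lintegral_prod_mul hm1.aemeasurable hm2.aemeasurable,
    lintegral_sub_right_eq_self (fun y : ℝ => ENNReal.ofReal (q1 R (x.1 - v.1 / 2) y)) (v.1 / 2),
    lintegral_sub_right_eq_self (fun y : ℝ => ENNReal.ofReal (q1 R (x.2 - v.2 / 2) y)) (v.2 / 2),
    ENNReal.ofReal_mul (kap_nonneg _ _)]
  exact mul_le_mul' (j_bound R hR _) (j_bound R hR _)

end X92.Ext
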