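import Pool.Agent.X92.Ext3
open MeasureTheory Set Complex
open scoped ENNReal ComplexConjugate

namespace X92.Ext

theorem stepC (R : ℝ) (hR : 0 < R) (f : ℝ × ℝ → ℂ) (v : ℝ × ℝ) :
    ∫⁻ b, ‖GG f b v‖ₑ ^ 2 * ENNReal.ofReal (gw R b) ≤
      2 * ∫⁻ x, ‖f x * f (v - x)‖ₑ ^ 2 *
        ENNReal.ofReal (kap R (x.1 - v.1 / 2) * kap R (x.2 - v.2 / 2)) := by
  by_cases hint : Integrable (fun x => f x * f (v - x))
  · have hφ : Measurable (fun x : ℝ × ℝ => sq2 x + sq2 (v - x)) := by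
      unfold sq2; fun_prop
    refine (ttg volume R hR (fun x => sq2 x + sq2 (v - x)) hφ (fun x => f x * f (v - x)) hint).trans ?_
    refine mul_le_mul_right ?_ _
    refine lintegral_mono (fun x => ?_)
    exact mul_le_mul_right (lint_gk_le R hR v x) _
  · have h0 : ∀ b, GG f b v = 0 := by
      intro b
      refine integral_undef ?_
      intro hcon
      apply hint
      have hc : Continuous (fun x : ℝ × ℝ => ph b (-(sq2 x + sq2 (v - x)))) := by
        refine continuous_ph.comp (continuous_const.prodMk ?_)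
        unfold sq2
        fun_prop
      have h := hcon.bdd_mul (c := 1) (f := fun x => ph b (-(sq2 x + sq2 (v - x)))) hc.aestronglyMeasurable
        (Filter.Eventually.of_forall (fun x => (norm_ph _ _).le))
      refine h.congr (Filter.Eventually.of_forall (fun x => ?_))
      simp only
      have h5 : ph b (-(sq2 x + sq2 (v - x))) * ph b (sq2 x + sq2 (v - x)) = 1 := by
        rw [← ph_add]; simp [ph]
      calc _ = (ph b (-(sq2 x + sq2 (v - x))) * ph b (sq2 x + sq2 (v - x))) * (f x * f (v - x)) := by ring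
        _ = _ := by rw [h5, one_mul]
    simp [h0]

/-- truncated weight -/
noncomputable def kt (R : ℝ) : ℝ → ℝ := (Icc (-2 : ℝ) 2).indicator (fun z => kap R (z / 2))

theorem kt_nonneg (R z : ℝ) : 0 ≤ kt R z := by
  unfold kt
  exact indicator_nonneg (fun _ _ => kap_nonneg _ _) _

theorem kt_neg (R z : ℝ) : kt R (-z) = kt R z := by
  unfold kt
  by_cases h : z ∈ Icc (-2 : ℝ) 2
  · have h2 : -z ∈ Icc (-2 : ℝ) 2 := ⟨by linarith [h.2], by linarith [h.1]⟩
    rw [indicator_of_mem h, indicator_of_mem h2]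
    unfold kap
    rw [neg_div, abs_neg]
  · have h2 : -z ∉ Icc (-2 : ℝ) 2 := by
      intro h3
      exact h ⟨by linarith [h3.2], by linarith [h3.1]⟩
    rw [indicator_of_notMem h, indicator_of_notMem h2]

theorem continuous_kap (R : ℝ) (hR : 0 < R) : Continuous (kap R) := by
  unfold kap
  refine continuous_const.div (by fun_prop) (fun a => ?_)
  have : 0 < Real.sqrt R := Real.sqrt_pos.2 hR
  positivity

theorem measurable_kt (R : ℝ) (hR : 0 < R) : Measurable (kt R) := by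
  unfold kt
  exact ((continuous_kap R hR).measurable.comp (measurable_id.div_const 2)).indicator measurableSet_Icc

theorem half_int (R : ℝ) (hR : 0 < R) : ∫ z in (0 : ℝ)..2, kap R (z / 2) =
    8 * Real.pi * Real.exp 1 * Real.log (1 + Real.sqrt R) := by
  have hs : 0 < Real.sqrt R := Real.sqrt_pos.2 hR
  have h1 : ∫ z in (0 : ℝ)..2, kap R (z / 2) =
      ∫ z in (0 : ℝ)..2, (4 * Real.pi * Real.exp 1) * (1 / (z / 2 + 1 / Real.sqrt R)) := by
    refine intervalIntegral.integral_congr (fun z hz => ?_)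
    rw [uIcc_of_le (by norm_num)] at hz
    simp only [kap]
    rw [abs_of_nonneg (by linarith [hz.1])]
    ring
  rw [h1, intervalIntegral.integral_const_mul]
  have h2 : ∫ z in (0 : ℝ)..2, (1 / (z / 2 + 1 / Real.sqrt R)) =
      2 * Real.log (2 / 2 + 1 / Real.sqrt R) - 2 * Real.log (0 / 2 + 1 / Real.sqrt R) := by
    refine intervalIntegral.integral_eq_sub_of_hasDerivAt (f := fun z => 2 * Real.log (z / 2 + 1 / Real.sqrt R)) ?_ ?_
    · intro z hz
      rw [uIcc_of_le (by norm_num)] at hz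
      have h3 : z / 2 + 1 / Real.sqrt R ≠ 0 := by
        have : 0 < 1 / Real.sqrt R := by positivity
        have := hz.1
        positivity
      have h4 : HasDerivAt (fun z : ℝ => z / 2 + 1 / Real.sqrt R) (1 / 2) z := by
        have := ((hasDerivAt_id z).div_const 2).add_const (1 / Real.sqrt R)
        simpa using this
      have h5 := (h4.log h3).const_mul 2
      have h6 : 2 * (1 / 2 / (z / 2 + 1 / Real.sqrt R)) = 1 / (z / 2 + 1 / Real.sqrt R) := by ring
      rw [h6] at h5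
      exact h5
    · refine ContinuousOn.intervalIntegrable ?_
      refine ContinuousOn.div continuousOn_const (by fun_prop) (fun z hz => ?_)
      rw [uIcc_of_le (by norm_num)] at hz
      have : 0 < 1 / Real.sqrt R := by positivity
      have := hz.1
      positivity
  rw [h2, ← mul_sub, ← Real.log_div]
  · have : (2 / 2 + 1 / Real.sqrt R) / (0 / 2 + 1 / Real.sqrt R) = 1 + Real.sqrt R := by
      field_simp
      ring
    rw [this]; ring
  · positivity
  · have : 0 < 1 / Real.sqrt R := by positivity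
    rw [zero_div, zero_add]; exact this.ne'

theorem lint_kt (R : ℝ) (hR : 0 < R) :
    ∫⁻ z, ENNReal.ofReal (kt R z) = ENNReal.ofReal (16 * Real.pi * Real.exp 1 * Real.log (1 + Real.sqrt R)) := by
  have hc : Continuous (fun z : ℝ => kap R (z / 2)) := (continuous_kap R hR).comp (by fun_prop)
  have hint : IntegrableOn (fun z => kap R (z / 2)) (Icc (-2 : ℝ) 2) :=
    hc.continuousOn.integrableOn_Icc
  have hint2 : Integrable (kt R) := hint.integrable_indicator measurableSet_Icc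
  rw [← ofReal_integral_eq_lintegral_ofReal hint2 (Filter.Eventually.of_forall (kt_nonneg R))]
  congr 1
  unfold kt
  rw [integral_indicator measurableSet_Icc, integral_Icc_eq_integral_Ioc,
    ← intervalIntegral.integral_of_le (by norm_num),
    ← intervalIntegral.integral_add_adjacent_intervals (b := 0) (hc.intervalIntegrable _ _) (hc.intervalIntegrable _ _),
    half_int R hR]
  have h2 : ∫ z in (-2 : ℝ)..0, kap R (z / 2) = ∫ z in (0 : ℝ)..2, kap R (z / 2) := by
    have h3 := intervalIntegral.integral_comp_neg (a := (0:ℝ)) (b := 2) (fun z => kap R (z / 2))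
    rw [neg_zero] at h3
    rw [← h3]
    refine intervalIntegral.integral_congr (fun z _ => ?_)
    simp only [kap]
    rw [neg_div, abs_neg]
  rw [h2, half_int R hR]
  ring


theorem stepE (R : ℝ) (hR : 0 < R) (f : ℝ × ℝ → ℂ) (hf : AEStronglyMeasurable f)
    (hsupp : ∀ x : ℝ × ℝ, (1 < |x.1| ∨ 1 < |x.2|) → f x = 0) :
    ∫⁻ v : ℝ × ℝ, ∫⁻ x : ℝ × ℝ, ‖f x * f (v - x)‖ₑ ^ 2 *
        ENNReal.ofReal (kap R (x.1 - v.1 / 2) * kap R (x.2 - v.2 / 2)) ≤
      2 * (ENNReal.ofReal ((16 * Real.pi * Real.exp 1 * Real.log (1 + Real.sqrt R)) ^ 2) *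
        ∫⁻ x, ‖f x‖ₑ ^ 4) := by
  have hkc := continuous_kap R hR
  have hm0 : Measurable (fun z : (ℝ × ℝ) × (ℝ × ℝ) =>
      ENNReal.ofReal (kap R (z.2.1 - z.1.1 / 2) * kap R (z.2.2 - z.1.2 / 2))) := by
    refine ENNReal.measurable_ofReal.comp (Continuous.measurable ?_)
    exact (hkc.comp (by fun_prop)).mul (hkc.comp (by fun_prop))
  have hm1 : AEStronglyMeasurable (fun z : (ℝ × ℝ) × (ℝ × ℝ) => f z.2 * f (z.1 - z.2))
      ((volume : Measure (ℝ × ℝ)).prod volume) :=
    hf.convolution_integrand (ContinuousLinearMap.mul ℝ ℂ) hf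
  have hm2 : AEMeasurable (fun z : (ℝ × ℝ) × (ℝ × ℝ) => ‖f z.2 * f (z.1 - z.2)‖ₑ ^ 2 *
      ENNReal.ofReal (kap R (z.2.1 - z.1.1 / 2) * kap R (z.2.2 - z.1.2 / 2)))
      ((volume : Measure (ℝ × ℝ)).prod volume) := (hm1.enorm.pow_const 2).mul hm0.aemeasurable
  rw [lintegral_lintegral_swap hm2]
  have h1 : ∀ x : ℝ × ℝ, ∫⁻ v : ℝ × ℝ, ‖f x * f (v - x)‖ₑ ^ 2 *
      ENNReal.ofReal (kap R (x.1 - v.1 / 2) * kap R (x.2 - v.2 / 2)) =
      ∫⁻ y : ℝ × ℝ, ‖f x * f y‖ₑ ^ 2 *
      ENNReal.ofReal (kap R ((x.1 - y.1) / 2) * kap R ((x.2 - y.2) / 2)) := by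
    intro x
    rw [← lintegral_add_left_eq_self (fun v : ℝ × ℝ => ‖f x * f (v - x)‖ₑ ^ 2 *
      ENNReal.ofReal (kap R (x.1 - v.1 / 2) * kap R (x.2 - v.2 / 2))) x]
    refine lintegral_congr (fun y => ?_)
    have e1 : x + y - x = y := by abel
    have e2 : x.1 - (x + y).1 / 2 = (x.1 - y.1) / 2 := by simp only [Prod.fst_add]; ring
    have e3 : x.2 - (x + y).2 / 2 = (x.2 - y.2) / 2 := by simp only [Prod.snd_add]; ring
    rw [e1, e2, e3]
  simp_rw [h1]
  set F : ℝ × ℝ → ℂ := fun x => ((‖f x‖ ^ 2 : ℝ) : ℂ) with hF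
  have hFm : AEStronglyMeasurable F :=
    Complex.continuous_ofReal.comp_aestronglyMeasurable (hf.norm.pow 2)
  have hFn : ∀ x, ‖F x‖ₑ = ‖f x‖ₑ ^ 2 := by
    intro x
    rw [← ofReal_norm, ← ofReal_norm, hF]
    simp only [Complex.norm_real, norm_pow, norm_norm]
    rw [ENNReal.ofReal_pow (norm_nonneg _)]
  have h2 : ∀ x y : ℝ × ℝ, ‖f x * f y‖ₑ ^ 2 *
      ENNReal.ofReal (kap R ((x.1 - y.1) / 2) * kap R ((x.2 - y.2) / 2)) ≤
      ‖F x‖ₑ * ‖F y‖ₑ * ENNReal.ofReal (kt R (x.1 - y.1) * kt R (x.2 - y.2)) := by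
    intro x y
    by_cases hx : 1 < |x.1| ∨ 1 < |x.2|
    · simp [hsupp x hx]
    by_cases hy : 1 < |y.1| ∨ 1 < |y.2|
    · simp [hsupp y hy]
    push Not at hx hy
    have a1 := abs_le.1 hx.1
    have a2 := abs_le.1 hx.2
    have a3 := abs_le.1 hy.1
    have a4 := abs_le.1 hy.2
    have m1 : x.1 - y.1 ∈ Icc (-2 : ℝ) 2 := ⟨by linarith [a1.1, a3.2], by linarith [a1.2, a3.1]⟩
    have m2 : x.2 - y.2 ∈ Icc (-2 : ℝ) 2 := ⟨by linarith [a2.1, a4.2], by linarith [a2.2, a4.1]⟩
    unfold kt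
    rw [indicator_of_mem m1, indicator_of_mem m2, enorm_mul, mul_pow, hFn, hFn]
  have hktm := measurable_kt R hR
  have hKm : Measurable (Function.uncurry (fun x y : ℝ × ℝ => kt R (x.1 - y.1) * kt R (x.2 - y.2))) := by
    have g1 : Measurable (fun z : (ℝ × ℝ) × (ℝ × ℝ) => kt R (z.1.1 - z.2.1)) :=
      hktm.comp (by fun_prop)
    have g2 : Measurable (fun z : (ℝ × ℝ) × (ℝ × ℝ) => kt R (z.1.2 - z.2.2)) :=
      hktm.comp (by fun_prop)
    have g3 := g1.mul g2
    simpa only [Function.uncurry_def, Pi.mul_def] using g3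
  refine (lintegral_mono (fun x => lintegral_mono (fun y => h2 x y))).trans ?_
  refine (schur volume F hFm (fun x y => kt R (x.1 - y.1) * kt R (x.2 - y.2)) hKm ?_).trans ?_
  · intro x y
    have e1 : x.1 - y.1 = -(y.1 - x.1) := by ring
    have e2 : x.2 - y.2 = -(y.2 - x.2) := by ring
    rw [e1, e2, kt_neg, kt_neg]
  · refine mul_le_mul_right ?_ _
    have h3 : ∀ x : ℝ × ℝ, ∫⁻ y : ℝ × ℝ, ENNReal.ofReal (kt R (x.1 - y.1) * kt R (x.2 - y.2)) =
        ENNReal.ofReal ((16 * Real.pi * Real.exp 1 * Real.log (1 + Real.sqrt R)) ^ 2) := by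
      intro x
      simp_rw [ENNReal.ofReal_mul (kt_nonneg R _)]
      have g1 : Measurable (fun y : ℝ => ENNReal.ofReal (kt R (x.1 - y))) :=
        ENNReal.measurable_ofReal.comp (hktm.comp (by fun_prop))
      have g2 : Measurable (fun y : ℝ => ENNReal.ofReal (kt R (x.2 - y))) :=
        ENNReal.measurable_ofReal.comp (hktm.comp (by fun_prop))
      rw [Measure.volume_eq_prod, lintegral_prod_mul g1.aemeasurable g2.aemeasurable,
        lintegral_sub_left_eq_self (fun y : ℝ => ENNReal.ofReal (kt R y)) x.1,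
        lintegral_sub_left_eq_self (fun y : ℝ => ENNReal.ofReal (kt R y)) x.2, lint_kt R hR, ← sq,
        ENNReal.ofReal_pow]
      have : 0 ≤ Real.log (1 + Real.sqrt R) := Real.log_nonneg (by linarith [Real.sqrt_nonneg R])
      positivity
    simp_rw [h3, hFn]
    rw [lintegral_mul_const' _ _ ENNReal.ofReal_ne_top, mul_comm]
    refine mul_le_mul_right ?_ _
    refine lintegral_mono (fun x => ?_)
    rw [← pow_mul]

/-- The logarithmic `L⁴` estimate. -/
theorem L4 (R : ℝ) (hR : 0 < R) (f : ℝ × ℝ → ℂ) (hf : Integrable f)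
    (hsupp : ∀ x : ℝ × ℝ, (1 < |x.1| ∨ 1 < |x.2|) → f x = 0) :
    ∫⁻ b : ℝ × ℝ, (∫⁻ p : ℝ × ℝ, ‖T f p b‖ₑ ^ 4) * ENNReal.ofReal (gw R b) ≤
      ENNReal.ofReal (32 * Real.pi ^ 2 *
        (16 * Real.pi * Real.exp 1 * Real.log (1 + Real.sqrt R)) ^ 2) * ∫⁻ x, ‖f x‖ₑ ^ 4 := by
  have hA : ∀ b : ℝ × ℝ, ∫⁻ p : ℝ × ℝ, ‖T f p b‖ₑ ^ 4 ≤
      ENNReal.ofReal (8 * Real.pi ^ 2) * ∫⁻ v, ‖GG f b v‖ₑ ^ 2 := by
    intro b
    refine le_trans (le_of_eq ?_) (planch (GG f b) (GG_integrable f hf b))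
    refine lintegral_congr (fun p => ?_)
    rw [← T_sq f hf p b, enorm_pow, ← pow_mul]
  have hm : AEMeasurable (fun z : (ℝ × ℝ) × (ℝ × ℝ) => ‖GG f z.1 z.2‖ₑ ^ 2 * ENNReal.ofReal (gw R z.1))
      ((volume : Measure (ℝ × ℝ)).prod volume) := by
    have h1 : AEStronglyMeasurable (fun z : (ℝ × ℝ) × (ℝ × ℝ) => GG f z.1 z.2)
        ((volume : Measure (ℝ × ℝ)).prod volume) := by
      have h2 : AEStronglyMeasurable (fun y : ((ℝ × ℝ) × (ℝ × ℝ)) × (ℝ × ℝ) =>
          (f y.2 * f (y.1.2 - y.2)) * ph y.1.1 (sq2 y.2 + sq2 (y.1.2 - y.2)))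
          (((volume : Measure (ℝ × ℝ)).prod volume).prod volume) := by
        refine AEStronglyMeasurable.mul ?_ ?_
        · have h3 : AEStronglyMeasurable (fun z : (ℝ × ℝ) × (ℝ × ℝ) => f z.2 * f (z.1 - z.2))
            ((volume : Measure (ℝ × ℝ)).prod volume) :=
            hf.aestronglyMeasurable.convolution_integrand (ContinuousLinearMap.mul ℝ ℂ) hf.aestronglyMeasurable
          have hq : Measure.QuasiMeasurePreserving
              (fun y : ((ℝ × ℝ) × (ℝ × ℝ)) × (ℝ × ℝ) => (y.1.2, y.2))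
              (((volume : Measure (ℝ × ℝ)).prod volume).prod volume)
              ((volume : Measure (ℝ × ℝ)).prod volume) := by
            have h5 := (measurePreserving_prodAssoc (volume : Measure (ℝ × ℝ)) (volume : Measure (ℝ × ℝ))
              (volume : Measure (ℝ × ℝ))).quasiMeasurePreserving
            have h6 := (Measure.quasiMeasurePreserving_snd (μ := (volume : Measure (ℝ × ℝ)))
              (ν := (volume : Measure (ℝ × ℝ)).prod (volume : Measure (ℝ × ℝ)))).comp h5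
            exact h6
          exact h3.comp_quasiMeasurePreserving hq
        · have hc : Continuous (fun y : ((ℝ × ℝ) × (ℝ × ℝ)) × (ℝ × ℝ) =>
            ph y.1.1 (sq2 y.2 + sq2 (y.1.2 - y.2))) := by
            have hc1 : Continuous (fun y : ((ℝ × ℝ) × (ℝ × ℝ)) × (ℝ × ℝ) =>
                (y.1.1, sq2 y.2 + sq2 (y.1.2 - y.2))) := by
              unfold sq2
              fun_prop
            exact continuous_ph.comp hc1
          exact hc.aestronglyMeasurable
      exact h2.integral_prod_right'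
    refine (h1.enorm.pow_const 2).mul ?_
    exact ((integrable_gw R hR).aestronglyMeasurable.aemeasurable.ennreal_ofReal).comp_quasiMeasurePreserving
      Measure.quasiMeasurePreserving_fst
  calc ∫⁻ b : ℝ × ℝ, (∫⁻ p : ℝ × ℝ, ‖T f p b‖ₑ ^ 4) * ENNReal.ofReal (gw R b)
      ≤ ∫⁻ b : ℝ × ℝ, (ENNReal.ofReal (8 * Real.pi ^ 2) * ∫⁻ v, ‖GG f b v‖ₑ ^ 2) * ENNReal.ofReal (gw R b) :=
        lintegral_mono (fun b => mul_le_mul_left (hA b) _)
    _ = ENNReal.ofReal (8 * Real.pi ^ 2) * ∫⁻ b : ℝ × ℝ, ∫⁻ v, ‖GG f b v‖ₑ ^ 2 * ENNReal.ofReal (gw R b) := by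
        rw [← lintegral_const_mul' _ _ ENNReal.ofReal_ne_top]
        refine lintegral_congr (fun b => ?_)
        rw [lintegral_mul_const' _ _ ENNReal.ofReal_ne_top, mul_assoc]
    _ = ENNReal.ofReal (8 * Real.pi ^ 2) * ∫⁻ v : ℝ × ℝ, ∫⁻ b : ℝ × ℝ, ‖GG f b v‖ₑ ^ 2 * ENNReal.ofReal (gw R b) := by
        rw [lintegral_lintegral_swap hm]
    _ ≤ ENNReal.ofReal (8 * Real.pi ^ 2) * ∫⁻ v : ℝ × ℝ, 2 * ∫⁻ x, ‖f x * f (v - x)‖ₑ ^ 2 *
        ENNReal.ofReal (kap R (x.1 - v.1 / 2) * kap R (x.2 - v.2 / 2)) :=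
        mul_le_mul_right (lintegral_mono (fun v => stepC R hR f v)) _
    _ ≤ ENNReal.ofReal (8 * Real.pi ^ 2) * (2 * (2 * (ENNReal.ofReal ((16 * Real.pi * Real.exp 1 *
        Real.log (1 + Real.sqrt R)) ^ 2) * ∫⁻ x, ‖f x‖ₑ ^ 4))) := by
        refine mul_le_mul_right ?_ _
        rw [lintegral_const_mul' _ _ (by norm_num)]
        exact mul_le_mul_right (stepE R hR f hf.aestronglyMeasurable hsupp) _
    _ = _ := by
        have h4 : (2 : ℝ≥0∞) = ENNReal.ofReal 2 := by simp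
        rw [h4, ← mul_assoc, ← mul_assoc, ← mul_assoc, ← ENNReal.ofReal_mul (by positivity),
          ← ENNReal.ofReal_mul (by positivity), ← ENNReal.ofReal_mul (by positivity)]
        congr 2
        ring

end X92.Ext
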