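import Mathlib
open MeasureTheory Set Complex
open scoped ENNReal

namespace X92.Ext

theorem low_int (q : ℝ) (hq : 2 < q) (a : ℝ) (ha : 0 ≤ a) :
    ∫⁻ t in Ioi (0 : ℝ), (Iio a).indicator (fun t : ℝ => ENNReal.ofReal (t ^ (q - 3))) t =
      ENNReal.ofReal (a ^ (q - 2) / (q - 2)) := by
  rw [lintegral_indicator measurableSet_Iio, Measure.restrict_restrict measurableSet_Iio]
  have h1 : Iio a ∩ Ioi 0 = Ioo 0 a := by ext t; simp [and_comm]
  rw [h1, Measure.restrict_congr_set Ioo_ae_eq_Ioc]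
  have hint : IntegrableOn (fun t : ℝ => t ^ (q - 3)) (Ioc 0 a) := by
    have := intervalIntegral.intervalIntegrable_rpow' (a := 0) (b := a) (r := q - 3) (by linarith)
    rwa [intervalIntegrable_iff_integrableOn_Ioc_of_le ha] at this
  rw [← ofReal_integral_eq_lintegral_ofReal hint]
  · congr 1
    rw [← intervalIntegral.integral_of_le ha, integral_rpow (Or.inl (by linarith))]
    have e1 : q - 3 + 1 = q - 2 := by ring
    rw [e1, Real.zero_rpow (by linarith), sub_zero]
  · refine (ae_restrict_iff' measurableSet_Ioc).2 (Filter.Eventually.of_forall (fun t ht => ?_))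
    exact Real.rpow_nonneg ht.1.le _

theorem high_int (q : ℝ) (hq : q < 4) (a : ℝ) (ha : 0 < a) :
    ∫⁻ t in Ioi (0 : ℝ), (Ici a).indicator (fun t : ℝ => ENNReal.ofReal (t ^ (q - 5))) t =
      ENNReal.ofReal (a ^ (q - 4) / (4 - q)) := by
  rw [lintegral_indicator measurableSet_Ici, Measure.restrict_restrict measurableSet_Ici]
  have h1 : Ici a ∩ Ioi 0 = Ici a := by
    ext t; simp only [mem_inter_iff, mem_Ici, mem_Ioi]
    exact ⟨fun h => h.1, fun h => ⟨h, lt_of_lt_of_le ha h⟩⟩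
  rw [h1, ← restrict_Ioi_eq_restrict_Ici]
  have hint : IntegrableOn (fun t : ℝ => t ^ (q - 5)) (Ioi a) :=
    integrableOn_Ioi_rpow_of_lt (by linarith) ha
  rw [← ofReal_integral_eq_lintegral_ofReal hint]
  · congr 1
    rw [integral_Ioi_rpow_of_lt (by linarith) ha]
    have e1 : q - 5 + 1 = q - 4 := by ring
    rw [e1]
    have h2 : q - 4 ≠ 0 := by linarith
    have h3 : 4 - q ≠ 0 := by linarith
    field_simp
    ring
  · refine (ae_restrict_iff' measurableSet_Ioi).2 (Filter.Eventually.of_forall (fun t ht => ?_))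
    exact Real.rpow_nonneg (ha.le.trans (le_of_lt ht)) _

theorem marcin {X Y : Type*} [MeasurableSpace X] [MeasurableSpace Y] (μ : Measure X) [SFinite μ]
    (ν : Measure Y) (q : ℝ) (hq2 : 2 < q) (hq4 : q < 4) (A2 A4 : ℝ≥0∞) (c : ℝ) (hc : 0 < c)
    (f : X → ℂ) (hf : Measurable f) (Tf : Y → ℂ) (hTf : AEStronglyMeasurable Tf ν)
    (U V : ℝ → Y → ℂ) (hsum : ∀ t > 0, ∀ y, Tf y = U t y + V t y)
    (hUm : ∀ t > 0, AEStronglyMeasurable (U t) ν) (hVm : ∀ t > 0, AEStronglyMeasurable (V t) ν)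
    (hU : ∀ t > 0, ∫⁻ y, ‖U t y‖ₑ ^ 2 ∂ν ≤
      A2 * ∫⁻ x, ({x | c * t < ‖f x‖}.indicator (fun x => ‖f x‖ₑ ^ 2) x) ∂μ)
    (hV : ∀ t > 0, ∫⁻ y, ‖V t y‖ₑ ^ 4 ∂ν ≤
      A4 * ∫⁻ x, ({x | ‖f x‖ ≤ c * t}.indicator (fun x => ‖f x‖ₑ ^ 4) x) ∂μ) :
    ∫⁻ y, ‖Tf y‖ₑ ^ q ∂ν ≤
      ENNReal.ofReal q * (4 * A2 * ENNReal.ofReal (c ^ (2 - q) / (q - 2)) +
        16 * A4 * ENNReal.ofReal (c ^ (4 - q) / (4 - q))) * ∫⁻ x, ‖f x‖ₑ ^ q ∂μ := by
  have hq0 : 0 < q := by linarith
  have h0 : ∫⁻ y, ‖Tf y‖ₑ ^ q ∂ν = ∫⁻ y, ENNReal.ofReal (‖Tf y‖ ^ q) ∂ν := by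
    refine lintegral_congr (fun y => ?_)
    rw [← ofReal_norm, ENNReal.ofReal_rpow_of_nonneg (norm_nonneg _) hq0.le]
  rw [h0, lintegral_rpow_eq_lintegral_meas_lt_mul ν (Filter.Eventually.of_forall (fun y => norm_nonneg _))
    hTf.norm.aemeasurable hq0]
  rw [mul_assoc (ENNReal.ofReal q)]
  refine mul_le_mul_right ?_ _
  -- the level set bound
  have hlev : ∀ t ∈ Ioi (0 : ℝ), ν {a | t < ‖Tf a‖} * ENNReal.ofReal (t ^ (q - 1)) ≤
      (∫⁻ x, (4 * A2 * ‖f x‖ₑ ^ 2) * (Iio (‖f x‖ / c)).indicator (fun t : ℝ => ENNReal.ofReal (t ^ (q - 3))) t ∂μ) +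
      (∫⁻ x, (16 * A4 * ‖f x‖ₑ ^ 4) * (Ici (‖f x‖ / c)).indicator (fun t : ℝ => ENNReal.ofReal (t ^ (q - 5))) t ∂μ) := by
    intro t ht
    have ht0 : (0 : ℝ) < t := ht
    have hsub : {a | t < ‖Tf a‖} ⊆ {a | ENNReal.ofReal ((t / 2) ^ 2) ≤ ‖U t a‖ₑ ^ 2} ∪
        {a | ENNReal.ofReal ((t / 2) ^ 4) ≤ ‖V t a‖ₑ ^ 4} := by
      intro a ha
      have ha' : t < ‖Tf a‖ := ha
      by_contra hcon
      simp only [mem_union, mem_ofPred_eq, not_or, not_le] at hcon
      obtain ⟨c1, c2⟩ := hcon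
      have d1 : ‖U t a‖ < t / 2 := by
        by_contra hh
        push Not at hh
        apply absurd c1 (not_lt.2 _)
        rw [← ofReal_norm, ← ENNReal.ofReal_pow (norm_nonneg _)]
        exact ENNReal.ofReal_le_ofReal (pow_le_pow_left₀ (by positivity) hh 2)
      have d2 : ‖V t a‖ < t / 2 := by
        by_contra hh
        push Not at hh
        apply absurd c2 (not_lt.2 _)
        rw [← ofReal_norm, ← ENNReal.ofReal_pow (norm_nonneg _)]
        exact ENNReal.ofReal_le_ofReal (pow_le_pow_left₀ (by positivity) hh 4)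
      have d3 : ‖Tf a‖ ≤ ‖U t a‖ + ‖V t a‖ := by rw [hsum t ht0 a]; exact norm_add_le _ _
      linarith
    have hm : ν {a | t < ‖Tf a‖} ≤ (∫⁻ y, ‖U t y‖ₑ ^ 2 ∂ν) / ENNReal.ofReal ((t / 2) ^ 2) +
        (∫⁻ y, ‖V t y‖ₑ ^ 4 ∂ν) / ENNReal.ofReal ((t / 2) ^ 4) := by
      refine (measure_mono hsub).trans ((measure_union_le _ _).trans (add_le_add ?_ ?_))
      · refine meas_ge_le_lintegral_div ((hUm t ht0).enorm.pow_const 2) ?_ ENNReal.ofReal_ne_top
        exact (ENNReal.ofReal_pos.2 (by positivity)).ne'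
      · refine meas_ge_le_lintegral_div ((hVm t ht0).enorm.pow_const 4) ?_ ENNReal.ofReal_ne_top
        exact (ENNReal.ofReal_pos.2 (by positivity)).ne'
    refine (mul_le_mul_left hm _).trans ?_
    rw [add_mul]
    refine add_le_add ?_ ?_
    · have e1 : (∫⁻ y, ‖U t y‖ₑ ^ 2 ∂ν) / ENNReal.ofReal ((t / 2) ^ 2) * ENNReal.ofReal (t ^ (q - 1)) =
          (∫⁻ y, ‖U t y‖ₑ ^ 2 ∂ν) * (4 * ENNReal.ofReal (t ^ (q - 3))) := by
        rw [div_eq_mul_inv, mul_assoc]
        congr 1
        rw [← ENNReal.ofReal_inv_of_pos (by positivity), ← ENNReal.ofReal_mul (by positivity)]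
        have h4 : (4 : ℝ≥0∞) = ENNReal.ofReal 4 := by simp
        rw [h4, ← ENNReal.ofReal_mul (by norm_num)]
        congr 1
        have : t ^ (q - 1) = t ^ 2 * t ^ (q - 3) := by
          rw [← Real.rpow_natCast t 2, ← Real.rpow_add ht0]
          congr 1; push_cast; ring
        rw [this]
        field_simp
        norm_num
      rw [e1]
      refine (mul_le_mul_left (hU t ht0) _).trans (le_of_eq ?_)
      have e2 : ∀ x, (4 * A2 * ‖f x‖ₑ ^ 2) * (Iio (‖f x‖ / c)).indicator (fun t : ℝ => ENNReal.ofReal (t ^ (q - 3))) t =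
          ({x | c * t < ‖f x‖}.indicator (fun x => ‖f x‖ₑ ^ 2) x) * (A2 * (4 * ENNReal.ofReal (t ^ (q - 3)))) := by
        intro x
        by_cases hx : c * t < ‖f x‖
        · have hx2 : t ∈ Iio (‖f x‖ / c) := by
            rw [mem_Iio, lt_div_iff₀ hc]; linarith
          rw [indicator_of_mem hx2, indicator_of_mem (show x ∈ {x | c * t < ‖f x‖} from hx)]
          ring
        · have hx2 : t ∉ Iio (‖f x‖ / c) := by
            rw [mem_Iio, lt_div_iff₀ hc]; intro h; apply hx; linarith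
          rw [indicator_of_notMem hx2, indicator_of_notMem (show x ∉ {x | c * t < ‖f x‖} from hx)]
          simp
      simp_rw [e2]
      rw [lintegral_mul_const]
      · ring
      · exact (hf.enorm.pow_const 2).indicator (measurableSet_lt measurable_const hf.norm)
    · have e1 : (∫⁻ y, ‖V t y‖ₑ ^ 4 ∂ν) / ENNReal.ofReal ((t / 2) ^ 4) * ENNReal.ofReal (t ^ (q - 1)) =
          (∫⁻ y, ‖V t y‖ₑ ^ 4 ∂ν) * (16 * ENNReal.ofReal (t ^ (q - 5))) := by
        rw [div_eq_mul_inv, mul_assoc]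
        congr 1
        rw [← ENNReal.ofReal_inv_of_pos (by positivity), ← ENNReal.ofReal_mul (by positivity)]
        have h4 : (16 : ℝ≥0∞) = ENNReal.ofReal 16 := by simp
        rw [h4, ← ENNReal.ofReal_mul (by norm_num)]
        congr 1
        have : t ^ (q - 1) = t ^ 4 * t ^ (q - 5) := by
          rw [← Real.rpow_natCast t 4, ← Real.rpow_add ht0]
          congr 1; push_cast; ring
        rw [this]
        field_simp
        norm_num
      rw [e1]
      refine (mul_le_mul_left (hV t ht0) _).trans (le_of_eq ?_)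
      have e2 : ∀ x, (16 * A4 * ‖f x‖ₑ ^ 4) * (Ici (‖f x‖ / c)).indicator (fun t : ℝ => ENNReal.ofReal (t ^ (q - 5))) t =
          ({x | ‖f x‖ ≤ c * t}.indicator (fun x => ‖f x‖ₑ ^ 4) x) * (A4 * (16 * ENNReal.ofReal (t ^ (q - 5)))) := by
        intro x
        by_cases hx : ‖f x‖ ≤ c * t
        · have hx2 : t ∈ Ici (‖f x‖ / c) := by
            rw [mem_Ici, div_le_iff₀ hc]; linarith
          rw [indicator_of_mem hx2, indicator_of_mem (show x ∈ {x | ‖f x‖ ≤ c * t} from hx)]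
          ring
        · have hx2 : t ∉ Ici (‖f x‖ / c) := by
            rw [mem_Ici, div_le_iff₀ hc]; intro h; apply hx; linarith
          rw [indicator_of_notMem hx2, indicator_of_notMem (show x ∉ {x | ‖f x‖ ≤ c * t} from hx)]
          simp
      simp_rw [e2]
      rw [lintegral_mul_const]
      · ring
      · exact (hf.enorm.pow_const 4).indicator (measurableSet_le hf.norm measurable_const)
  have hmlow : Measurable (fun z : ℝ × X => (4 * A2 * ‖f z.2‖ₑ ^ 2) *
      (Iio (‖f z.2‖ / c)).indicator (fun t : ℝ => ENNReal.ofReal (t ^ (q - 3))) z.1) := by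
    refine Measurable.mul ?_ ?_
    · exact ((hf.comp measurable_snd).enorm.pow_const 2).const_mul _
    · have : (fun z : ℝ × X => (Iio (‖f z.2‖ / c)).indicator (fun t : ℝ => ENNReal.ofReal (t ^ (q - 3))) z.1) =
          {z : ℝ × X | z.1 < ‖f z.2‖ / c}.indicator (fun z => ENNReal.ofReal (z.1 ^ (q - 3))) := by
        ext z
        by_cases hz : z.1 < ‖f z.2‖ / c
        · rw [indicator_of_mem (show z.1 ∈ Iio (‖f z.2‖ / c) from hz),
            indicator_of_mem (show z ∈ {z : ℝ × X | z.1 < ‖f z.2‖ / c} from hz)]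
        · rw [indicator_of_notMem (show z.1 ∉ Iio (‖f z.2‖ / c) from hz),
            indicator_of_notMem (show z ∉ {z : ℝ × X | z.1 < ‖f z.2‖ / c} from hz)]
      rw [this]
      refine Measurable.indicator ?_ ?_
      · exact ENNReal.measurable_ofReal.comp (measurable_fst.pow_const _)
      · exact measurableSet_lt measurable_fst ((hf.comp measurable_snd).norm.div_const c)
  have hmhigh : Measurable (fun z : ℝ × X => (16 * A4 * ‖f z.2‖ₑ ^ 4) *
      (Ici (‖f z.2‖ / c)).indicator (fun t : ℝ => ENNReal.ofReal (t ^ (q - 5))) z.1) := by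
    refine Measurable.mul ?_ ?_
    · exact ((hf.comp measurable_snd).enorm.pow_const 4).const_mul _
    · have : (fun z : ℝ × X => (Ici (‖f z.2‖ / c)).indicator (fun t : ℝ => ENNReal.ofReal (t ^ (q - 5))) z.1) =
          {z : ℝ × X | ‖f z.2‖ / c ≤ z.1}.indicator (fun z => ENNReal.ofReal (z.1 ^ (q - 5))) := by
        ext z
        by_cases hz : ‖f z.2‖ / c ≤ z.1
        · rw [indicator_of_mem (show z.1 ∈ Ici (‖f z.2‖ / c) from hz),
            indicator_of_mem (show z ∈ {z : ℝ × X | ‖f z.2‖ / c ≤ z.1} from hz)]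
        · rw [indicator_of_notMem (show z.1 ∉ Ici (‖f z.2‖ / c) from hz),
            indicator_of_notMem (show z ∉ {z : ℝ × X | ‖f z.2‖ / c ≤ z.1} from hz)]
      rw [this]
      refine Measurable.indicator ?_ ?_
      · exact ENNReal.measurable_ofReal.comp (measurable_fst.pow_const _)
      · exact measurableSet_le ((hf.comp measurable_snd).norm.div_const c) measurable_fst
  refine (setLIntegral_mono' measurableSet_Ioi hlev).trans ?_
  rw [lintegral_add_left (hmlow.lintegral_prod_right'), add_mul]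
  refine add_le_add ?_ ?_
  · rw [lintegral_lintegral_swap hmlow.aemeasurable, ← lintegral_const_mul _ ((hf.enorm.pow_const q))]
    refine lintegral_mono (fun x => ?_)
    dsimp only
    rw [lintegral_const_mul]
    swap
    · exact (ENNReal.measurable_ofReal.comp (measurable_id.pow_const _)).indicator measurableSet_Iio
    rw [low_int q hq2 _ (by positivity), mul_assoc, mul_assoc (4 * A2)]
    refine mul_le_mul_right (le_of_eq ?_) _
    rw [← ofReal_norm, ← ENNReal.ofReal_pow (norm_nonneg _), ENNReal.ofReal_rpow_of_nonneg (norm_nonneg _) hq0.le,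
      ← ENNReal.ofReal_mul (by positivity), ← ENNReal.ofReal_mul (by
        have : 0 < q - 2 := by linarith
        positivity)]
    congr 1
    rcases eq_or_lt_of_le (norm_nonneg (f x)) with h | h
    · rw [← h, Real.zero_rpow hq0.ne']; simp
    · rw [Real.div_rpow h.le hc.le]
      have e3 : ‖f x‖ ^ q = ‖f x‖ ^ 2 * ‖f x‖ ^ (q - 2) := by
        rw [← Real.rpow_natCast (‖f x‖) 2, ← Real.rpow_add h]
        congr 1; push_cast; ring
      have e4 : c ^ (2 - q) = (c ^ (q - 2))⁻¹ := by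
        rw [← Real.rpow_neg hc.le]; congr 1; ring
      rw [e3, e4]
      ring
  · rw [lintegral_lintegral_swap hmhigh.aemeasurable, ← lintegral_const_mul _ ((hf.enorm.pow_const q))]
    refine lintegral_mono (fun x => ?_)
    dsimp only
    rcases eq_or_lt_of_le (norm_nonneg (f x)) with h | h
    · have : f x = 0 := norm_eq_zero.1 h.symm
      simp [this]
    rw [lintegral_const_mul]
    swap
    · exact (ENNReal.measurable_ofReal.comp (measurable_id.pow_const _)).indicator measurableSet_Ici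
    rw [high_int q hq4 _ (by positivity), mul_assoc, mul_assoc (16 * A4)]
    refine mul_le_mul_right (le_of_eq ?_) _
    rw [← ofReal_norm, ← ENNReal.ofReal_pow (norm_nonneg _), ENNReal.ofReal_rpow_of_nonneg (norm_nonneg _) hq0.le,
      ← ENNReal.ofReal_mul (by positivity), ← ENNReal.ofReal_mul (by
        have : 0 < 4 - q := by linarith
        positivity)]
    congr 1
    rw [Real.div_rpow h.le hc.le]
    have e3 : ‖f x‖ ^ q = ‖f x‖ ^ 4 * ‖f x‖ ^ (q - 4) := by
      rw [← Real.rpow_natCast (‖f x‖) 4, ← Real.rpow_add h]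
      congr 1; push_cast; ring
    have e4 : c ^ (4 - q) = (c ^ (q - 4))⁻¹ := by
      rw [← Real.rpow_neg hc.le]; congr 1; ring
    rw [e3, e4]
    ring

end X92.Ext
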