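import Pool.Agent.X92.Ext4
import Pool.Agent.X92.Ext5
open MeasureTheory Set Complex
open scoped ENNReal ComplexConjugate

namespace X92.Ext

theorem measurable_T (f : ℝ × ℝ → ℂ) (hf : Measurable f) :
    Measurable (fun z : (ℝ × ℝ) × (ℝ × ℝ) => T f z.2 z.1) := by
  have h1 : Measurable (fun y : ((ℝ × ℝ) × (ℝ × ℝ)) × (ℝ × ℝ) =>
      f y.2 * (ph y.1.2 y.2 * ph y.1.1 (sq2 y.2))) := by
    refine (hf.comp measurable_snd).mul (Measurable.mul ?_ ?_)
    · have hc : Continuous (fun y : ((ℝ × ℝ) × (ℝ × ℝ)) × (ℝ × ℝ) => (y.1.2, y.2)) := by fun_prop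
      exact (continuous_ph.comp hc).measurable
    · have hc : Continuous (fun y : ((ℝ × ℝ) × (ℝ × ℝ)) × (ℝ × ℝ) => (y.1.1, sq2 y.2)) := by
        unfold sq2
        fun_prop
      exact (continuous_ph.comp hc).measurable
  exact (h1.stronglyMeasurable.integral_prod_right').measurable

theorem L2 (R : ℝ) (hR : 0 < R) (f : ℝ × ℝ → ℂ) (hf : Integrable f) :
    ∫⁻ b : ℝ × ℝ, (∫⁻ p : ℝ × ℝ, ‖T f p b‖ₑ ^ 2) * ENNReal.ofReal (gw R b) ≤
      ENNReal.ofReal (8 * Real.pi ^ 3 * R ^ 2) * ∫⁻ x, ‖f x‖ₑ ^ 2 := by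
  have hA : ∀ b : ℝ × ℝ, ∫⁻ p : ℝ × ℝ, ‖T f p b‖ₑ ^ 2 ≤
      ENNReal.ofReal (8 * Real.pi ^ 2) * ∫⁻ x, ‖f x‖ₑ ^ 2 := by
    intro b
    have h := planch _ (integrable_mod f hf b sq2 continuous_sq2)
    have e1 : ∀ p, ∫ v, (f v * ph b (sq2 v)) * ph p v = T f p b := by
      intro p
      rw [T]
      congr 1
      ext x
      ring
    simp_rw [e1] at h
    refine h.trans (le_of_eq ?_)
    congr 1
    refine lintegral_congr (fun x => ?_)
    rw [enorm_mul]
    have : ‖ph b (sq2 x)‖ₑ = 1 := by rw [← ofReal_norm, norm_ph]; simp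
    rw [this, mul_one]
  refine (lintegral_mono (fun b => mul_le_mul_left (hA b) _)).trans ?_
  have hgm : Measurable (fun b => ENNReal.ofReal (gw R b)) := by
    unfold gw
    fun_prop
  rw [lintegral_const_mul _ hgm]
  have hg : ∫⁻ b, ENNReal.ofReal (gw R b) = ENNReal.ofReal (Real.pi * R ^ 2) := by
    rw [← ofReal_integral_eq_lintegral_ofReal (integrable_gw R hR)
      (Filter.Eventually.of_forall (gw_nonneg R))]
    congr 1
    have h := gauss2 R hR 0
    simp only [Prod.fst_zero, Prod.snd_zero] at h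
    have h2 : ∀ ξ : ℝ × ℝ, ((gw R ξ : ℝ) : ℂ) * ph ξ 0 = ((gw R ξ : ℝ) : ℂ) := by
      intro ξ; simp [ph]
    simp_rw [h2] at h
    have h3 : ∫ ξ : ℝ × ℝ, ((gw R ξ : ℝ) : ℂ) = ((∫ ξ : ℝ × ℝ, gw R ξ : ℝ) : ℂ) := integral_ofReal
    rw [h3] at h
    have h4 := Complex.ofReal_injective h
    rw [h4]
    simp
  rw [hg, mul_assoc, mul_comm (∫⁻ x, ‖f x‖ₑ ^ 2), ← mul_assoc, ← ENNReal.ofReal_mul (by positivity)]
  refine le_of_eq ?_
  congr 2
  ring

/-- The measure `e^{-|b|²/R²} db ⊗ dp`. -/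
noncomputable def nu (R : ℝ) : Measure ((ℝ × ℝ) × (ℝ × ℝ)) :=
  ((volume : Measure (ℝ × ℝ)).withDensity (fun b => ENNReal.ofReal (gw R b))).prod volume

theorem lint_nu (R : ℝ) (g : (ℝ × ℝ) × (ℝ × ℝ) → ℝ≥0∞) (hg : Measurable g) :
    ∫⁻ z, g z ∂(nu R) = ∫⁻ b : ℝ × ℝ, (∫⁻ p : ℝ × ℝ, g (b, p)) * ENNReal.ofReal (gw R b) := by
  have hgm : Measurable (fun b => ENNReal.ofReal (gw R b)) := by
    unfold gw
    fun_prop
  unfold nu
  rw [lintegral_prod _ hg.aemeasurable]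
  rw [lintegral_withDensity_eq_lintegral_mul _ hgm hg.lintegral_prod_right']
  refine lintegral_congr (fun b => ?_)
  simp only [Pi.mul_apply]
  rw [mul_comm]

theorem log_bound (ε : ℝ) (hε : 0 < ε) (R : ℝ) (hR : 1 ≤ R) :
    (Real.log (1 + Real.sqrt R)) ^ 2 ≤ (2 ^ ε / ε) ^ 2 * R ^ ε := by
  have hs : 1 ≤ Real.sqrt R := by rw [Real.one_le_sqrt]; exact hR
  have h0 : 0 ≤ Real.log (1 + Real.sqrt R) := Real.log_nonneg (by linarith)
  have h1 : Real.log (1 + Real.sqrt R) ≤ (1 + Real.sqrt R) ^ ε / ε :=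
    Real.log_le_rpow_div (by linarith) hε
  have h2 : (1 + Real.sqrt R) ^ ε ≤ (2 * Real.sqrt R) ^ ε :=
    Real.rpow_le_rpow (by linarith) (by linarith) hε.le
  have h3 : (2 * Real.sqrt R) ^ ε = 2 ^ ε * R ^ (ε / 2) := by
    rw [Real.mul_rpow (by norm_num) (by positivity), Real.sqrt_eq_rpow, ← Real.rpow_mul (by linarith)]
    congr 2
    ring
  have h4 : Real.log (1 + Real.sqrt R) ≤ (2 ^ ε / ε) * R ^ (ε / 2) := by
    calc _ ≤ _ := h1
      _ ≤ (2 ^ ε * R ^ (ε / 2)) / ε := by rw [← h3]; gcongr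
      _ = _ := by ring
  calc _ ≤ ((2 ^ ε / ε) * R ^ (ε / 2)) ^ 2 := pow_le_pow_left₀ h0 h4 2
    _ = (2 ^ ε / ε) ^ 2 * (R ^ (ε / 2)) ^ 2 := by ring
    _ = _ := by
      congr 1
      rw [← Real.rpow_natCast, ← Real.rpow_mul (by linarith)]
      congr 1
      push_cast
      ring

/-- Core estimate: the full conjectured range, on average in `b`. -/
theorem core (q ε : ℝ) (hq2 : 2 < q) (hq4 : q < 4) (hε : 0 < ε) :
    ∃ C : ℝ, 0 < C ∧ ∀ R : ℝ, 1 ≤ R → ∀ f : ℝ × ℝ → ℂ, Measurable f → Integrable f →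
      (∀ x : ℝ × ℝ, (1 < |x.1| ∨ 1 < |x.2|) → f x = 0) →
      ∫⁻ b : ℝ × ℝ, (∫⁻ p : ℝ × ℝ, ‖T f p b‖ₑ ^ q) * ENNReal.ofReal (gw R b) ≤
        ENNReal.ofReal (C * R ^ (4 - q + ε)) * ∫⁻ x, ‖f x‖ₑ ^ q := by
  set C : ℝ := q * (4 * (8 * Real.pi ^ 3) / (q - 2) +
    16 * (32 * Real.pi ^ 2 * (16 * Real.pi * Real.exp 1) ^ 2 * (2 ^ ε / ε) ^ 2) / (4 - q)) with hC
  have hq2' : 0 < q - 2 := by linarith
  have hq4' : 0 < 4 - q := by linarith
  have hq0 : 0 < q := by linarith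
  refine ⟨C, by positivity, ?_⟩
  intro R hR f hfm hf hsupp
  have hR0 : 0 < R := by linarith
  set A2 : ℝ≥0∞ := ENNReal.ofReal (8 * Real.pi ^ 3 * R ^ 2) with hA2
  set A4 : ℝ≥0∞ := ENNReal.ofReal (32 * Real.pi ^ 2 *
        (16 * Real.pi * Real.exp 1 * Real.log (1 + Real.sqrt R)) ^ 2) with hA4
  have hS1 : ∀ t : ℝ, MeasurableSet {x | R * t < ‖f x‖} := fun t =>
    measurableSet_lt measurable_const hfm.norm
  have hS2 : ∀ t : ℝ, MeasurableSet {x | ‖f x‖ ≤ R * t} := fun t =>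
    measurableSet_le hfm.norm measurable_const
  have key := marcin (X := ℝ × ℝ) (Y := (ℝ × ℝ) × (ℝ × ℝ)) volume (nu R) q hq2 hq4 A2 A4 R hR0 f hfm
    (fun z => T f z.2 z.1) (measurable_T f hfm).aestronglyMeasurable
    (fun t z => T ({x | R * t < ‖f x‖}.indicator f) z.2 z.1)
    (fun t z => T ({x | ‖f x‖ ≤ R * t}.indicator f) z.2 z.1) ?_ ?_ ?_ ?_ ?_
  · have e1 := lint_nu R (fun z => ‖T f z.2 z.1‖ₑ ^ q) ((measurable_T f hfm).enorm.pow_const q)
    rw [e1] at key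
    refine key.trans ?_
    refine mul_le_mul_left ?_ _
    have h4 : (4 : ℝ≥0∞) = ENNReal.ofReal 4 := by simp
    have h16 : (16 : ℝ≥0∞) = ENNReal.ofReal 16 := by simp
    rw [h4, h16, hA2, hA4, ← ENNReal.ofReal_mul (by positivity), ← ENNReal.ofReal_mul (by positivity),
      ← ENNReal.ofReal_mul (by positivity), ← ENNReal.ofReal_mul (by positivity),
      ← ENNReal.ofReal_add (by positivity) (by positivity), ← ENNReal.ofReal_mul (by positivity)]
    refine ENNReal.ofReal_le_ofReal ?_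
    have hlog := log_bound ε hε R hR
    have hR1 : 1 ≤ R ^ ε := Real.one_le_rpow hR hε.le
    have e2 : R ^ (4 - q + ε) = R ^ (4 - q) * R ^ ε := Real.rpow_add hR0 _ _
    have e3 : R ^ (2 - q) * R ^ 2 = R ^ (4 - q) := by
      rw [← Real.rpow_natCast R 2, ← Real.rpow_add hR0]; congr 1; push_cast; ring
    rw [e2, hC, mul_assoc q]
    refine mul_le_mul_of_nonneg_left ?_ hq0.le
    rw [add_mul]
    refine add_le_add ?_ ?_
    · calc 4 * (8 * Real.pi ^ 3 * R ^ 2) * (R ^ (2 - q) / (q - 2)) =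
          4 * (8 * Real.pi ^ 3) / (q - 2) * (R ^ (2 - q) * R ^ 2 * 1) := by ring
        _ ≤ 4 * (8 * Real.pi ^ 3) / (q - 2) * (R ^ (2 - q) * R ^ 2 * R ^ ε) := by gcongr
        _ = _ := by rw [e3]
    · calc 16 * (32 * Real.pi ^ 2 * (16 * Real.pi * Real.exp 1 * Real.log (1 + Real.sqrt R)) ^ 2) *
            (R ^ (4 - q) / (4 - q)) =
          (16 * (32 * Real.pi ^ 2 * (16 * Real.pi * Real.exp 1) ^ 2) / (4 - q) * R ^ (4 - q)) *
            (Real.log (1 + Real.sqrt R)) ^ 2 := by ring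
        _ ≤ (16 * (32 * Real.pi ^ 2 * (16 * Real.pi * Real.exp 1) ^ 2) / (4 - q) * R ^ (4 - q)) *
            ((2 ^ ε / ε) ^ 2 * R ^ ε) := by gcongr
        _ = _ := by ring
  · intro t ht z
    simp only [T]
    rw [← integral_add]
    · congr 1
      ext x
      by_cases hx : R * t < ‖f x‖
      · rw [indicator_of_mem (show x ∈ {x | R * t < ‖f x‖} from hx),
          indicator_of_notMem (show x ∉ {x | ‖f x‖ ≤ R * t} from not_le.2 hx)]
        ring
      · rw [indicator_of_notMem (show x ∉ {x | R * t < ‖f x‖} from hx),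
          indicator_of_mem (show x ∈ {x | ‖f x‖ ≤ R * t} from not_lt.1 hx)]
        ring
    · have h1 := integrable_mod _ (integrable_mod _ (hf.indicator (hS1 t)) z.2 (fun x => x) continuous_id)
        z.1 sq2 continuous_sq2
      refine h1.congr (Filter.Eventually.of_forall (fun x => ?_))
      simp only
      ring
    · have h1 := integrable_mod _ (integrable_mod _ (hf.indicator (hS2 t)) z.2 (fun x => x) continuous_id)
        z.1 sq2 continuous_sq2
      refine h1.congr (Filter.Eventually.of_forall (fun x => ?_))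
      simp only
      ring
  · intro t ht
    exact (measurable_T _ (hfm.indicator (hS1 t))).aestronglyMeasurable
  · intro t ht
    exact (measurable_T _ (hfm.indicator (hS2 t))).aestronglyMeasurable
  · intro t ht
    rw [lint_nu R (fun z => ‖T ({x | R * t < ‖f x‖}.indicator f) z.2 z.1‖ₑ ^ 2)
      ((measurable_T _ (hfm.indicator (hS1 t))).enorm.pow_const 2)]
    refine (L2 R hR0 _ (hf.indicator (hS1 t))).trans (le_of_eq ?_)
    congr 1
    refine lintegral_congr (fun x => ?_)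
    by_cases hx : x ∈ {x | R * t < ‖f x‖}
    · rw [indicator_of_mem hx, indicator_of_mem hx]
    · rw [indicator_of_notMem hx, indicator_of_notMem hx]; simp
  · intro t ht
    rw [lint_nu R (fun z => ‖T ({x | ‖f x‖ ≤ R * t}.indicator f) z.2 z.1‖ₑ ^ 4)
      ((measurable_T _ (hfm.indicator (hS2 t))).enorm.pow_const 4)]
    refine (L4 R hR0 _ (hf.indicator (hS2 t)) ?_).trans (le_of_eq ?_)
    · intro x hx
      by_cases hx2 : x ∈ {x | ‖f x‖ ≤ R * t}
      · rw [indicator_of_mem hx2]; exact hsupp x hx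
      · rw [indicator_of_notMem hx2]
    congr 1
    refine lintegral_congr (fun x => ?_)
    by_cases hx : x ∈ {x | ‖f x‖ ≤ R * t}
    · rw [indicator_of_mem hx, indicator_of_mem hx]
    · rw [indicator_of_notMem hx, indicator_of_notMem hx]; simp

end X92.Ext
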