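import Pool.Agent.X92.Ext6
open MeasureTheory Set Complex
open scoped ENNReal ComplexConjugate

namespace X92.Ext

/-- `Φ(b) = ‖T f(·, b)‖_q^q`. -/
noncomputable def Phi (q : ℝ) (f : ℝ × ℝ → ℂ) (b : ℝ × ℝ) : ℝ≥0∞ := ∫⁻ p : ℝ × ℝ, ‖T f p b‖ₑ ^ q

theorem measurable_Phi (q : ℝ) (f : ℝ × ℝ → ℂ) (hf : Measurable f) : Measurable (Phi q f) := by
  unfold Phi
  exact ((measurable_T f hf).enorm.pow_const q).lintegral_prod_right'

theorem gauss_lower (R K : ℝ) (hR : 0 < R) (b : ℝ × ℝ) (hb : b.1 ^ 2 + b.2 ^ 2 ≤ K * R ^ 2) :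
    1 ≤ ENNReal.ofReal (Real.exp K) * ENNReal.ofReal (gw R b) := by
  rw [← ENNReal.ofReal_mul (Real.exp_pos _).le, gw, ← Real.exp_add]
  refine ENNReal.one_le_ofReal.2 (Real.one_le_exp ?_)
  have : (b.1 ^ 2 + b.2 ^ 2) / R ^ 2 ≤ K := by
    rw [div_le_iff₀ (by positivity)]; exact hb
  rw [neg_div]
  linarith

/-- The region integral. -/
theorem region (q ε Λ : ℝ) (hq2 : 2 < q) (hq4 : q < 4) (hε : 0 < ε) (hΛ : 0 ≤ Λ) :
    ∃ C : ℝ, 0 < C ∧ ∀ R : ℝ, 1 ≤ R → ∀ f : ℝ × ℝ → ℂ, Measurable f → Integrable f →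
      (∀ x : ℝ × ℝ, (1 < |x.1| ∨ 1 < |x.2|) → f x = 0) →
      ∫⁻ b in {b : ℝ × ℝ | |b.1| ≤ 2 * R ∧ |b.2| ≤ 2 * Λ * R}, Phi q f b ≤
        ENNReal.ofReal (C * R ^ (4 - q + ε)) * ∫⁻ x, ‖f x‖ₑ ^ q := by
  obtain ⟨C, hC, h⟩ := core q ε hq2 hq4 hε
  refine ⟨Real.exp (4 + 4 * Λ ^ 2) * C, by positivity, ?_⟩
  intro R hR f hfm hf hsupp
  have hR0 : 0 < R := by linarith
  have h1 := h R hR f hfm hf hsupp
  have hS : MeasurableSet {b : ℝ × ℝ | |b.1| ≤ 2 * R ∧ |b.2| ≤ 2 * Λ * R} := by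
    have hc1 : Measurable (fun b : ℝ × ℝ => |b.1|) := by fun_prop
    have hc2 : Measurable (fun b : ℝ × ℝ => |b.2|) := by fun_prop
    exact (measurableSet_le hc1 measurable_const).inter (measurableSet_le hc2 measurable_const)
  calc ∫⁻ b in {b : ℝ × ℝ | |b.1| ≤ 2 * R ∧ |b.2| ≤ 2 * Λ * R}, Phi q f b
      ≤ ∫⁻ b in {b : ℝ × ℝ | |b.1| ≤ 2 * R ∧ |b.2| ≤ 2 * Λ * R},
          ENNReal.ofReal (Real.exp (4 + 4 * Λ ^ 2)) * (Phi q f b * ENNReal.ofReal (gw R b)) := by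
        refine setLIntegral_mono' hS (fun b hb => ?_)
        obtain ⟨hb1, hb2⟩ := hb
        have hK : b.1 ^ 2 + b.2 ^ 2 ≤ (4 + 4 * Λ ^ 2) * R ^ 2 := by
          have e1 : b.1 ^ 2 ≤ (2 * R) ^ 2 := by rw [← sq_abs]; gcongr
          have e2 : b.2 ^ 2 ≤ (2 * Λ * R) ^ 2 := by rw [← sq_abs]; gcongr
          nlinarith
        have h2 := gauss_lower R _ hR0 b hK
        calc Phi q f b = Phi q f b * 1 := (mul_one _).symm
          _ ≤ Phi q f b * (ENNReal.ofReal (Real.exp (4 + 4 * Λ ^ 2)) * ENNReal.ofReal (gw R b)) :=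
            mul_le_mul_right h2 _
          _ = _ := by ring
    _ ≤ ∫⁻ b, ENNReal.ofReal (Real.exp (4 + 4 * Λ ^ 2)) * (Phi q f b * ENNReal.ofReal (gw R b)) :=
        setLIntegral_le_lintegral _ _
    _ = ENNReal.ofReal (Real.exp (4 + 4 * Λ ^ 2)) * ∫⁻ b, Phi q f b * ENNReal.ofReal (gw R b) :=
        lintegral_const_mul' _ _ ENNReal.ofReal_ne_top
    _ ≤ ENNReal.ofReal (Real.exp (4 + 4 * Λ ^ 2)) * (ENNReal.ofReal (C * R ^ (4 - q + ε)) * ∫⁻ x, ‖f x‖ₑ ^ q) :=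
        mul_le_mul_right h1 _
    _ = _ := by
        rw [← mul_assoc, ← ENNReal.ofReal_mul (Real.exp_pos _).le, mul_assoc]

/-- The piece `R ≤ |t| ≤ 2R`, averaged over the parameter `l`. -/
theorem piece (q ε Λ : ℝ) (hq2 : 2 < q) (hq4 : q < 4) (hε : 0 < ε) (hΛ : 0 ≤ Λ) :
    ∃ C : ℝ, 0 < C ∧ ∀ R : ℝ, 1 ≤ R → ∀ f : ℝ × ℝ → ℂ, Measurable f → Integrable f →
      (∀ x : ℝ × ℝ, (1 < |x.1| ∨ 1 < |x.2|) → f x = 0) →
      ∫⁻ l in Icc (-Λ) Λ, ∫⁻ t in {t : ℝ | R ≤ |t| ∧ |t| ≤ 2 * R}, Phi q f (t, l * t) ≤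
        ENNReal.ofReal (C * R ^ (3 - q + ε)) * ∫⁻ x, ‖f x‖ₑ ^ q := by
  obtain ⟨C, hC, h⟩ := region q ε Λ hq2 hq4 hε hΛ
  refine ⟨C, hC, ?_⟩
  intro R hR f hfm hf hsupp
  have hR0 : 0 < R := by linarith
  have h1 := h R hR f hfm hf hsupp
  have hPm := measurable_Phi q f hfm
  have hSt : MeasurableSet {t : ℝ | R ≤ |t| ∧ |t| ≤ 2 * R} := by
    have hc : Measurable (fun t : ℝ => |t|) := by fun_prop
    exact (measurableSet_le measurable_const hc).inter (measurableSet_le hc measurable_const)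
  have hm : Measurable (fun z : ℝ × ℝ => Phi q f (z.2, z.1 * z.2)) :=
    hPm.comp (by fun_prop)
  rw [lintegral_lintegral_swap hm.aemeasurable]
  have h2 : ∀ t ∈ {t : ℝ | R ≤ |t| ∧ |t| ≤ 2 * R}, ∫⁻ l in Icc (-Λ) Λ, Phi q f (t, l * t) ≤
      ENNReal.ofReal (1 / R) * ∫⁻ u in {u : ℝ | |u| ≤ 2 * Λ * R}, Phi q f (t, u) := by
    intro t ht
    have ht0 : t ≠ 0 := by
      intro h0
      have := ht.1
      rw [h0, abs_zero] at this
      linarith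
    have hSu : MeasurableSet {u : ℝ | |u| ≤ 2 * Λ * R} := by
      have hc : Measurable (fun t : ℝ => |t|) := by fun_prop
      exact measurableSet_le hc measurable_const
    have h3 : ∫⁻ l in Icc (-Λ) Λ, Phi q f (t, l * t) ≤
        ∫⁻ l, ({u : ℝ | |u| ≤ 2 * Λ * R}.indicator (fun u => Phi q f (t, u))) (l * t) := by
      rw [← lintegral_indicator measurableSet_Icc]
      refine lintegral_mono (fun l => ?_)
      by_cases hl : l ∈ Icc (-Λ) Λ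
      · have h4 : l * t ∈ {u : ℝ | |u| ≤ 2 * Λ * R} := by
          have h5 : |l| ≤ Λ := abs_le.2 hl
          show |l * t| ≤ 2 * Λ * R
          rw [abs_mul]
          calc |l| * |t| ≤ Λ * (2 * R) := by gcongr; exact ht.2
            _ = _ := by ring
        rw [indicator_of_mem hl, indicator_of_mem h4]
      · rw [indicator_of_notMem hl]; exact zero_le
    refine h3.trans ?_
    rw [← lintegral_indicator hSu]
    have hGm : Measurable ({u : ℝ | |u| ≤ 2 * Λ * R}.indicator (fun u => Phi q f (t, u))) :=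
      (hPm.comp (by fun_prop)).indicator hSu
    have h6 : ∫⁻ l, ({u : ℝ | |u| ≤ 2 * Λ * R}.indicator (fun u => Phi q f (t, u))) (l * t) =
        ENNReal.ofReal |t⁻¹| * ∫⁻ u, ({u : ℝ | |u| ≤ 2 * Λ * R}.indicator (fun u => Phi q f (t, u))) u := by
      rw [← lintegral_map hGm (measurable_mul_const t), Real.map_volume_mul_right ht0,
        lintegral_smul_measure, smul_eq_mul]
    rw [h6]
    refine mul_le_mul_left (ENNReal.ofReal_le_ofReal ?_) _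
    rw [abs_inv, one_div]
    exact inv_anti₀ hR0 ht.1
  refine (setLIntegral_mono' hSt h2).trans ?_
  rw [lintegral_const_mul' _ _ ENNReal.ofReal_ne_top]
  have h7 : ∫⁻ t in {t : ℝ | R ≤ |t| ∧ |t| ≤ 2 * R}, ∫⁻ u in {u : ℝ | |u| ≤ 2 * Λ * R}, Phi q f (t, u) ≤
      ∫⁻ b in {b : ℝ × ℝ | |b.1| ≤ 2 * R ∧ |b.2| ≤ 2 * Λ * R}, Phi q f b := by
    have hSu : MeasurableSet {u : ℝ | |u| ≤ 2 * Λ * R} := by
      have hc : Measurable (fun t : ℝ => |t|) := by fun_prop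
      exact measurableSet_le hc measurable_const
    have h8 : ∫⁻ t in {t : ℝ | R ≤ |t| ∧ |t| ≤ 2 * R}, ∫⁻ u in {u : ℝ | |u| ≤ 2 * Λ * R}, Phi q f (t, u) =
        ∫⁻ b in {t : ℝ | R ≤ |t| ∧ |t| ≤ 2 * R} ×ˢ {u : ℝ | |u| ≤ 2 * Λ * R}, Phi q f b := by
      rw [Measure.volume_eq_prod, ← Measure.prod_restrict, lintegral_prod _ hPm.aemeasurable]
    rw [h8]
    refine lintegral_mono_set ?_
    intro b hb
    exact ⟨hb.1.2, hb.2⟩
  refine (mul_le_mul_right (h7.trans h1) _).trans (le_of_eq ?_)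
  rw [← mul_assoc, ← ENNReal.ofReal_mul (by positivity)]
  congr 2
  have e1 : 4 - q + ε = (3 - q + ε) + 1 := by ring
  rw [e1, Real.rpow_add hR0, Real.rpow_one]
  field_simp

end X92.Ext
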