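import Pool.Agent.X92.Ext7
open MeasureTheory Set Complex
open scoped ENNReal ComplexConjugate

namespace X92.Ext

/-- The square `[-1,1]²`. -/
def QQ : Set (ℝ × ℝ) := Icc (-1 : ℝ) 1 ×ˢ Icc (-1 : ℝ) 1

theorem measurableSet_QQ : MeasurableSet QQ := measurableSet_Icc.prod measurableSet_Icc

theorem volume_QQ : volume QQ = 4 := by
  unfold QQ
  rw [Measure.volume_eq_prod, Measure.prod_prod, Real.volume_Icc]
  norm_num

theorem supp_eq (f : ℝ × ℝ → ℂ) (hsupp : ∀ x : ℝ × ℝ, (1 < |x.1| ∨ 1 < |x.2|) → f x = 0) (r : ℝ) (hr : 0 < r) :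
    ∫⁻ x, ‖f x‖ₑ ^ r = ∫⁻ x in QQ, ‖f x‖ₑ ^ r := by
  rw [← lintegral_indicator measurableSet_QQ]
  refine lintegral_congr (fun x => ?_)
  by_cases hx : x ∈ QQ
  · rw [indicator_of_mem hx]
  · rw [indicator_of_notMem hx]
    have : (1 < |x.1| ∨ 1 < |x.2|) := by
      by_contra hcon
      push Not at hcon
      apply hx
      exact ⟨abs_le.1 hcon.1, abs_le.1 hcon.2⟩
    rw [hsupp x this]
    simp [hr]

theorem holder_pack (r q : ℝ) (hr : 1 ≤ r) (hrq : r ≤ q) (f : ℝ × ℝ → ℂ) (hf : AEStronglyMeasurable f)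
    (hsupp : ∀ x : ℝ × ℝ, (1 < |x.1| ∨ 1 < |x.2|) → f x = 0) :
    (∫⁻ x, ‖f x‖ₑ) ^ (q - r) * ∫⁻ x, ‖f x‖ₑ ^ r ≤ ENNReal.ofReal (4 ^ q) * ∫⁻ x, ‖f x‖ₑ ^ q := by
  have hr0 : 0 < r := by linarith
  have hq0 : 0 < q := by linarith
  have e0 : ∫⁻ x, ‖f x‖ₑ = ∫⁻ x in QQ, ‖f x‖ₑ ^ (1 : ℝ) := by
    rw [← supp_eq f hsupp 1 one_pos]; simp
  rw [e0, supp_eq f hsupp r hr0, supp_eq f hsupp q hq0]
  set μ := (volume : Measure (ℝ × ℝ)).restrict QQ with hμ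
  have hμu : μ univ = 4 := by rw [hμ, Measure.restrict_apply_univ, volume_QQ]
  have hf' : AEStronglyMeasurable f μ := hf.restrict
  set N := eLpNorm' f q μ with hN
  have hNq : ∫⁻ x, ‖f x‖ₑ ^ q ∂μ = N ^ q := by
    rw [hN, eLpNorm', ← ENNReal.rpow_mul, one_div, inv_mul_cancel₀ hq0.ne', ENNReal.rpow_one]
  have h1 : ∫⁻ x, ‖f x‖ₑ ^ (1 : ℝ) ∂μ ≤ N * 4 ^ (1 - 1 / q) := by
    have h := eLpNorm'_le_eLpNorm'_mul_rpow_measure_univ (p := 1) (q := q) one_pos (by linarith) hf'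
    rw [hμu] at h
    rw [hN]
    simpa [eLpNorm'] using h
  have hr1 : ∫⁻ x, ‖f x‖ₑ ^ r ∂μ ≤ (N * 4 ^ (1 / r - 1 / q)) ^ r := by
    have h := eLpNorm'_le_eLpNorm'_mul_rpow_measure_univ (p := r) (q := q) hr0 hrq hf'
    rw [hμu] at h
    have h2 : ∫⁻ x, ‖f x‖ₑ ^ r ∂μ = (eLpNorm' f r μ) ^ r := by
      rw [eLpNorm', ← ENNReal.rpow_mul, one_div, inv_mul_cancel₀ hr0.ne', ENNReal.rpow_one]
    rw [h2]
    exact ENNReal.rpow_le_rpow h hr0.le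
  rw [hNq]
  have hqr : 0 ≤ q - r := by linarith
  refine (mul_le_mul' (ENNReal.rpow_le_rpow h1 hqr) hr1).trans ?_
  rw [ENNReal.mul_rpow_of_nonneg _ _ hqr, ENNReal.mul_rpow_of_nonneg _ _ hr0.le, ← ENNReal.rpow_mul,
    ← ENNReal.rpow_mul]
  have e1 : N ^ (q - r) * N ^ r = N ^ q := by
    rw [← ENNReal.rpow_add_of_nonneg _ _ hqr hr0.le]; congr 1; ring
  have e2 : (4 : ℝ≥0∞) ^ ((1 - 1 / q) * (q - r)) * 4 ^ ((1 / r - 1 / q) * r) ≤ ENNReal.ofReal (4 ^ q) := by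
    rw [← ENNReal.rpow_add _ _ (by norm_num) (by norm_num)]
    have h4 : (4 : ℝ≥0∞) = ENNReal.ofReal 4 := by simp
    rw [h4, ENNReal.ofReal_rpow_of_pos (by norm_num)]
    refine ENNReal.ofReal_le_ofReal (Real.rpow_le_rpow_of_exponent_le (by norm_num) ?_)
    have h5 : (1 - 1 / q) * (q - r) + (1 / r - 1 / q) * r = q - r := by
      field_simp
      ring
    rw [h5]; linarith
  calc _ = (4 : ℝ≥0∞) ^ ((1 - 1 / q) * (q - r)) * 4 ^ ((1 / r - 1 / q) * r) * (N ^ (q - r) * N ^ r) := by ring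
    _ ≤ _ := by rw [e1]; exact mul_le_mul_left e2 _

theorem T_le (f : ℝ × ℝ → ℂ) (p b : ℝ × ℝ) : ‖T f p b‖ₑ ≤ ∫⁻ x, ‖f x‖ₑ := by
  refine (enorm_integral_le_lintegral_enorm _).trans (le_of_eq ?_)
  refine lintegral_congr (fun x => ?_)
  rw [enorm_mul, enorm_mul]
  have h1 : ‖ph p x‖ₑ = 1 := by rw [← ofReal_norm, norm_ph]; simp
  have h2 : ‖ph b (sq2 x)‖ₑ = 1 := by rw [← ofReal_norm, norm_ph]; simp
  rw [h1, h2, mul_one, mul_one]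

theorem T_L2 (f : ℝ × ℝ → ℂ) (hf : Integrable f) (b : ℝ × ℝ) :
    ∫⁻ p : ℝ × ℝ, ‖T f p b‖ₑ ^ 2 ≤ ENNReal.ofReal (8 * Real.pi ^ 2) * ∫⁻ x, ‖f x‖ₑ ^ 2 := by
  have h := planch _ (integrable_mod f hf b sq2 continuous_sq2)
  have e1 : ∀ p, ∫ v, (f v * ph b (sq2 v)) * ph p v = T f p b := by
    intro p
    rw [T]
    congr 1
    ext x
    ring
  simp_rw [e1] at h
  refine h.trans (le_of_eq ?_)
  congr 1
  refine lintegral_congr (fun x => ?_)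
  rw [enorm_mul]
  have : ‖ph b (sq2 x)‖ₑ = 1 := by rw [← ofReal_norm, norm_ph]; simp
  rw [this, mul_one]

theorem Phi_le (q : ℝ) (hq : 2 ≤ q) (f : ℝ × ℝ → ℂ) (hf : Integrable f)
    (hsupp : ∀ x : ℝ × ℝ, (1 < |x.1| ∨ 1 < |x.2|) → f x = 0) (b : ℝ × ℝ) :
    Phi q f b ≤ ENNReal.ofReal (8 * Real.pi ^ 2 * 4 ^ q) * ∫⁻ x, ‖f x‖ₑ ^ q := by
  have hfin : ∫⁻ x, ‖f x‖ₑ ≠ ⊤ := hf.2.ne
  have h1 : Phi q f b ≤ (∫⁻ x, ‖f x‖ₑ) ^ (q - 2) * ∫⁻ p : ℝ × ℝ, ‖T f p b‖ₑ ^ 2 := by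
    unfold Phi
    rw [← lintegral_const_mul' _ _ (ENNReal.rpow_ne_top_of_nonneg (by linarith) hfin)]
    refine lintegral_mono (fun p => ?_)
    have e1 : ‖T f p b‖ₑ ^ q = ‖T f p b‖ₑ ^ (q - 2) * ‖T f p b‖ₑ ^ 2 := by
      rw [← ENNReal.rpow_natCast, ← ENNReal.rpow_add_of_nonneg _ _ (by linarith) (by norm_num)]
      congr 1; push_cast; ring
    rw [e1]
    exact mul_le_mul_left (ENNReal.rpow_le_rpow (T_le f p b) (by linarith)) _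
  refine h1.trans ((mul_le_mul_right (T_L2 f hf b) _).trans ?_)
  have h2 := holder_pack 2 q (by norm_num) hq f hf.aestronglyMeasurable hsupp
  have e2 : ∀ x, ‖f x‖ₑ ^ (2 : ℝ) = ‖f x‖ₑ ^ 2 := by
    intro x; rw [← ENNReal.rpow_natCast]; norm_num
  simp_rw [e2] at h2
  calc (∫⁻ x, ‖f x‖ₑ) ^ (q - 2) * (ENNReal.ofReal (8 * Real.pi ^ 2) * ∫⁻ x, ‖f x‖ₑ ^ 2)
      = ENNReal.ofReal (8 * Real.pi ^ 2) * ((∫⁻ x, ‖f x‖ₑ) ^ (q - 2) * ∫⁻ x, ‖f x‖ₑ ^ 2) := by ring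
    _ ≤ ENNReal.ofReal (8 * Real.pi ^ 2) * (ENNReal.ofReal (4 ^ q) * ∫⁻ x, ‖f x‖ₑ ^ q) := mul_le_mul_right h2 _
    _ = _ := by rw [← mul_assoc, ← ENNReal.ofReal_mul (by positivity)]

/-- The averaged extension estimate over the pencil `t (x₁² + l x₂²)`, `|l| ≤ Λ`. -/
theorem avgLam (q Λ : ℝ) (hq3 : 3 < q) (hq4 : q < 4) (hΛ : 0 ≤ Λ) :
    ∃ C : ℝ, 0 < C ∧ ∀ f : ℝ × ℝ → ℂ, Measurable f → Integrable f →
      (∀ x : ℝ × ℝ, (1 < |x.1| ∨ 1 < |x.2|) → f x = 0) →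
      ∫⁻ l in Icc (-Λ) Λ, ∫⁻ t : ℝ, Phi q f (t, l * t) ≤ ENNReal.ofReal C * ∫⁻ x, ‖f x‖ₑ ^ q := by
  obtain ⟨C, hC, h⟩ := piece q ((q - 3) / 2) Λ (by linarith) hq4 (by linarith) hΛ
  have he : 3 - q + (q - 3) / 2 = -((q - 3) / 2) := by ring
  rw [he] at h
  set δ : ℝ := (2 : ℝ) ^ (-((q - 3) / 2)) with hδ
  have hδ0 : 0 < δ := by positivity
  have hδ1 : δ < 1 := Real.rpow_lt_one_of_one_lt_of_neg (by norm_num) (by linarith)
  refine ⟨4 * Λ * (8 * Real.pi ^ 2 * 4 ^ q) + C * (1 - δ)⁻¹, ?_, ?_⟩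
  · have : 0 < (1 - δ)⁻¹ := inv_pos.2 (by linarith)
    positivity
  intro f hfm hf hsupp
  set N := ∫⁻ x, ‖f x‖ₑ ^ q with hN
  have hPm := measurable_Phi q f hfm
  have hm : Measurable (fun z : ℝ × ℝ => Phi q f (z.2, z.1 * z.2)) := hPm.comp (by fun_prop)
  set D : ℕ → Set ℝ := fun j => {t : ℝ | (2 : ℝ) ^ j ≤ |t| ∧ |t| ≤ 2 * (2 : ℝ) ^ j} with hD
  have hcover : (univ : Set ℝ) ⊆ Icc (-1 : ℝ) 1 ∪ ⋃ j, D j := by
    intro t _
    rcases le_or_gt (|t|) 1 with h1 | h1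
    · exact Or.inl (abs_le.1 h1)
    · right
      obtain ⟨n, hn1, hn2⟩ := exists_nat_pow_near h1.le (by norm_num : (1 : ℝ) < 2)
      refine mem_iUnion.2 ⟨n, hn1, ?_⟩
      rw [pow_succ] at hn2
      linarith
  have hstep : ∀ l : ℝ, ∫⁻ t : ℝ, Phi q f (t, l * t) ≤
      (∫⁻ t in Icc (-1 : ℝ) 1, Phi q f (t, l * t)) + ∑' j, ∫⁻ t in D j, Phi q f (t, l * t) := by
    intro l
    calc ∫⁻ t : ℝ, Phi q f (t, l * t) = ∫⁻ t in univ, Phi q f (t, l * t) := by rw [Measure.restrict_univ]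
      _ ≤ ∫⁻ t in Icc (-1 : ℝ) 1 ∪ ⋃ j, D j, Phi q f (t, l * t) := lintegral_mono_set hcover
      _ ≤ _ := (lintegral_union_le _ _ _).trans (add_le_add le_rfl (lintegral_iUnion_le _ _))
  refine (lintegral_mono (fun l => hstep l)).trans ?_
  have hmj : ∀ S : Set ℝ, Measurable (fun l : ℝ => ∫⁻ t in S, Phi q f (t, l * t)) := by
    intro S
    exact hm.lintegral_prod_right'
  rw [lintegral_add_left (hmj _), lintegral_tsum (fun j => (hmj _).aemeasurable)]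
  have hlow : ∫⁻ l in Icc (-Λ) Λ, ∫⁻ t in Icc (-1 : ℝ) 1, Phi q f (t, l * t) ≤
      ENNReal.ofReal (4 * Λ * (8 * Real.pi ^ 2 * 4 ^ q)) * N := by
    calc ∫⁻ l in Icc (-Λ) Λ, ∫⁻ t in Icc (-1 : ℝ) 1, Phi q f (t, l * t)
        ≤ ∫⁻ l in Icc (-Λ) Λ, ∫⁻ t in Icc (-1 : ℝ) 1, ENNReal.ofReal (8 * Real.pi ^ 2 * 4 ^ q) * N :=
          lintegral_mono (fun l => lintegral_mono (fun t => Phi_le q (by linarith) f hf hsupp _))
      _ = _ := by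
          rw [lintegral_const, lintegral_const, Measure.restrict_apply_univ, Measure.restrict_apply_univ,
            Real.volume_Icc, Real.volume_Icc]
          have e1 : (1 : ℝ) - -1 = 2 := by norm_num
          have e2 : Λ - -Λ = 2 * Λ := by ring
          rw [e1, e2]
          calc ENNReal.ofReal (8 * Real.pi ^ 2 * 4 ^ q) * N * ENNReal.ofReal 2 * ENNReal.ofReal (2 * Λ) =
              (ENNReal.ofReal (2 * Λ) * ENNReal.ofReal 2 * ENNReal.ofReal (8 * Real.pi ^ 2 * 4 ^ q)) * N := by ring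
            _ = _ := by
              rw [← ENNReal.ofReal_mul (by positivity), ← ENNReal.ofReal_mul (by positivity)]
              congr 2
              ring
  have hhigh : ∑' j, ∫⁻ l in Icc (-Λ) Λ, ∫⁻ t in D j, Phi q f (t, l * t) ≤
      ENNReal.ofReal (C * (1 - δ)⁻¹) * N := by
    calc ∑' j, ∫⁻ l in Icc (-Λ) Λ, ∫⁻ t in D j, Phi q f (t, l * t)
        ≤ ∑' j : ℕ, ENNReal.ofReal (C * δ ^ j) * N := by
          refine ENNReal.tsum_le_tsum (fun j => ?_)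
          have h1 := h ((2 : ℝ) ^ j) (one_le_pow₀ (by norm_num)) f hfm hf hsupp
          have e1 : ((2 : ℝ) ^ j) ^ (-((q - 3) / 2)) = δ ^ j := by
            rw [hδ, ← Real.rpow_natCast, ← Real.rpow_natCast, ← Real.rpow_mul (by norm_num),
              ← Real.rpow_mul (by norm_num), mul_comm]
          rw [e1] at h1
          exact h1
      _ = (∑' j : ℕ, ENNReal.ofReal (C * δ ^ j)) * N := ENNReal.tsum_mul_right
      _ = ENNReal.ofReal (C * (1 - δ)⁻¹) * N := by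
          congr 1
          have hs : Summable (fun j : ℕ => C * δ ^ j) := (summable_geometric_of_lt_one hδ0.le hδ1).mul_left C
          rw [← ENNReal.ofReal_tsum_of_nonneg (fun j => by positivity) hs, tsum_mul_left,
            tsum_geometric_of_lt_one hδ0.le hδ1]
  refine (add_le_add hlow hhigh).trans (le_of_eq ?_)
  rw [← add_mul, ← ENNReal.ofReal_add (by positivity)]
  have : 0 < (1 - δ)⁻¹ := inv_pos.2 (by linarith)
  positivity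

end X92.Ext
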