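import Pool.Agent.X92.Ext8
open MeasureTheory Set Complex
open scoped ENNReal ComplexConjugate

namespace X92.Ext

/-- The Fourier extension operator of the surface `x₃ = x₁² + l x₂²` (`l = 1`: the paraboloid). -/
noncomputable def EL (l : ℝ) (f : ℝ × ℝ → ℂ) (ξ : ℝ × ℝ × ℝ) : ℂ :=
  ∫ x : ℝ × ℝ, cexp (-(I * ((x.1 * ξ.1 + x.2 * ξ.2.1 + (x.1 ^ 2 + l * x.2 ^ 2) * ξ.2.2 : ℝ) : ℂ))) * f x

theorem EL_eq (l : ℝ) (f : ℝ × ℝ → ℂ) (ξ : ℝ × ℝ × ℝ) :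
    EL l f ξ = T f (ξ.1, ξ.2.1) (ξ.2.2, l * ξ.2.2) := by
  unfold EL T
  congr 1
  ext x
  rw [mul_comm, ph, ph, ← Complex.exp_add]
  congr 2
  simp only [sq2]
  push_cast
  ring

/-- the map `(x₁, x₂) ↦ (x₁, s x₂)` -/
def str (s : ℝ) (x : ℝ × ℝ) : ℝ × ℝ := (x.1, s * x.2)

theorem measurable_str (s : ℝ) : Measurable (str s) := by unfold str; fun_prop

theorem map_str (s : ℝ) (hs : s ≠ 0) :
    Measure.map (str s) (volume : Measure (ℝ × ℝ)) = ENNReal.ofReal |s⁻¹| • (volume : Measure (ℝ × ℝ)) := by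
  have h1 : str s = Prod.map id (fun y => s * y) := by ext x <;> simp [str]
  rw [h1, Measure.volume_eq_prod, ← Measure.map_prod_map _ _ measurable_id (measurable_const_mul s),
    Measure.map_id, Real.map_volume_mul_left hs, Measure.prod_smul_right]

theorem lint_str (s : ℝ) (hs : s ≠ 0) (g : ℝ × ℝ → ℝ≥0∞) (hg : Measurable g) :
    ∫⁻ x, g (str s x) = ENNReal.ofReal |s⁻¹| * ∫⁻ x, g x := by
  rw [← lintegral_map hg (measurable_str s), map_str s hs, lintegral_smul_measure, smul_eq_mul]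

theorem int_str (s : ℝ) (hs : s ≠ 0) (g : ℝ × ℝ → ℂ) (hg : Measurable g) :
    ∫ x, g (str s x) = |s⁻¹| • ∫ x, g x := by
  rw [← integral_map (measurable_str s).aemeasurable hg.aestronglyMeasurable, map_str s hs,
    integral_smul_measure, ENNReal.toReal_ofReal (abs_nonneg _)]

theorem E_str (s : ℝ) (hs : 0 < s) (f : ℝ × ℝ → ℂ) (hf : Measurable f) (ξ : ℝ × ℝ × ℝ) :
    EL 1 (fun x => f (str s x)) ξ = |s⁻¹| • T f (ξ.1, s⁻¹ * ξ.2.1) (ξ.2.2, (s⁻¹) ^ 2 * ξ.2.2) := by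
  rw [EL_eq]
  unfold T
  have hm : Measurable (fun x : ℝ × ℝ => f x * (ph (ξ.1, s⁻¹ * ξ.2.1) x *
      ph (ξ.2.2, (s⁻¹) ^ 2 * ξ.2.2) (sq2 x))) := by
    refine hf.mul (Measurable.mul ?_ ?_)
    · exact (continuous_ph.comp (Continuous.prodMk continuous_const continuous_id)).measurable
    · exact (continuous_ph.comp (Continuous.prodMk continuous_const continuous_sq2)).measurable
  rw [← int_str s hs.ne' _ hm]
  congr 1
  ext x
  have h1 : ph (ξ.1, s⁻¹ * ξ.2.1) (str s x) = ph (ξ.1, ξ.2.1) x := by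
    rw [ph_eq, ph_eq]
    congr 3
    simp only [str]
    field_simp
  have h2 : ph (ξ.2.2, (s⁻¹) ^ 2 * ξ.2.2) (sq2 (str s x)) = ph (ξ.2.2, 1 * ξ.2.2) (sq2 x) := by
    rw [ph_eq, ph_eq]
    congr 3
    simp only [str, sq2]
    field_simp
  rw [h1, h2]

theorem lint_three (F : ℝ × ℝ × ℝ → ℝ≥0∞) (hF : Measurable F) :
    ∫⁻ ξ, F ξ = ∫⁻ t : ℝ, ∫⁻ p : ℝ × ℝ, F (p.1, p.2, t) := by
  have h1 := (volume_preserving_prodAssoc (α₁ := ℝ) (β₁ := ℝ) (γ₁ := ℝ)).lintegral_comp hF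
  rw [← h1]
  have hm : Measurable (fun z : (ℝ × ℝ) × ℝ => F (MeasurableEquiv.prodAssoc z)) :=
    hF.comp MeasurableEquiv.prodAssoc.measurable
  have h2 : ∫⁻ z : (ℝ × ℝ) × ℝ, F (MeasurableEquiv.prodAssoc z) =
      ∫⁻ t : ℝ, ∫⁻ p : ℝ × ℝ, F (MeasurableEquiv.prodAssoc (p, t)) := by
    rw [Measure.volume_eq_prod (ℝ × ℝ) ℝ]
    exact lintegral_prod_symm' _ hm
  rw [h2]
  rfl

theorem norm_EL (q l : ℝ) (f : ℝ × ℝ → ℂ) (hf : Measurable f) :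
    ∫⁻ ξ, ‖EL l f ξ‖ₑ ^ q = ∫⁻ t : ℝ, Phi q f (t, l * t) := by
  have hm : Measurable (fun ξ : ℝ × ℝ × ℝ => ‖EL l f ξ‖ₑ ^ q) := by
    simp_rw [EL_eq]
    exact (((measurable_T f hf).comp (by fun_prop : Measurable (fun ξ : ℝ × ℝ × ℝ =>
      (((ξ.2.2, l * ξ.2.2) : ℝ × ℝ), ((ξ.1, ξ.2.1) : ℝ × ℝ))))).enorm).pow_const q
  rw [lint_three _ hm]
  refine lintegral_congr (fun t => ?_)
  unfold Phi
  refine lintegral_congr (fun p => ?_)
  rw [EL_eq]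

theorem norm_str (q s : ℝ) (hq : 0 < q) (hs : 0 < s) (f : ℝ × ℝ → ℂ) (hf : Measurable f) :
    ∫⁻ ξ, ‖EL 1 (fun x => f (str s x)) ξ‖ₑ ^ q =
      ENNReal.ofReal (s ^ (1 - q)) * ∫⁻ t : ℝ, Phi q f (t, (s⁻¹) ^ 2 * t) := by
  have hfs : Measurable (fun x => f (str s x)) := hf.comp (measurable_str s)
  have hm : Measurable (fun ξ : ℝ × ℝ × ℝ => ‖EL 1 (fun x => f (str s x)) ξ‖ₑ ^ q) := by
    simp_rw [EL_eq]
    exact (((measurable_T _ hfs).comp (by fun_prop : Measurable (fun ξ : ℝ × ℝ × ℝ =>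
      (((ξ.2.2, 1 * ξ.2.2) : ℝ × ℝ), ((ξ.1, ξ.2.1) : ℝ × ℝ))))).enorm).pow_const q
  rw [lint_three _ hm, ← lintegral_const_mul' _ _ ENNReal.ofReal_ne_top]
  refine lintegral_congr (fun t => ?_)
  unfold Phi
  have h1 : ∀ p : ℝ × ℝ, ‖EL 1 (fun x => f (str s x)) (p.1, p.2, t)‖ₑ ^ q =
      ENNReal.ofReal (s ^ (-q)) * ‖T f (str s⁻¹ p) (t, (s⁻¹) ^ 2 * t)‖ₑ ^ q := by
    intro p
    rw [E_str s hs f hf]
    simp only
    rw [enorm_smul, ENNReal.mul_rpow_of_nonneg _ _ hq.le]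
    congr 1
    rw [← ofReal_norm, Real.norm_eq_abs, abs_abs, abs_of_pos (inv_pos.2 hs),
      ENNReal.ofReal_rpow_of_pos (inv_pos.2 hs), Real.inv_rpow hs.le, Real.rpow_neg hs.le]
  simp_rw [h1]
  rw [lintegral_const_mul' _ _ ENNReal.ofReal_ne_top]
  have hg : Measurable (fun p : ℝ × ℝ => ‖T f p (t, (s⁻¹) ^ 2 * t)‖ₑ ^ q) :=
    (((measurable_T f hf).comp (by fun_prop : Measurable (fun p : ℝ × ℝ =>
      (((t, (s⁻¹) ^ 2 * t) : ℝ × ℝ), p)))).enorm).pow_const q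
  rw [lint_str s⁻¹ (inv_ne_zero hs.ne') _ hg, ← mul_assoc, ← ENNReal.ofReal_mul (by positivity)]
  congr 2
  rw [inv_inv, abs_of_pos hs]
  have : (1 : ℝ) - q = -q + 1 := by ring
  rw [this, Real.rpow_add hs, Real.rpow_one]

theorem meas_H (q : ℝ) (f : ℝ × ℝ → ℂ) (hf : Measurable f) :
    Measurable (fun l : ℝ => ∫⁻ t : ℝ, Phi q f (t, l * t)) := by
  have hm : Measurable (fun z : ℝ × ℝ => Phi q f (z.2, z.1 * z.2)) := (measurable_Phi q f hf).comp (by fun_prop)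
  exact hm.lintegral_prod_right'

/-- Averaged extension theorem in the range `3 < q < 4`, measurable functions. -/
theorem avgStr (q a b : ℝ) (hq3 : 3 < q) (hq4 : q < 4) (ha : 0 < a) (hab : a ≤ b) :
    ∃ C : ℝ, 0 < C ∧ ∀ f : ℝ × ℝ → ℂ, Measurable f → Integrable f →
      (∀ x : ℝ × ℝ, (1 < |x.1| ∨ 1 < |x.2|) → f x = 0) →
      ∫⁻ s in Icc a b, ∫⁻ ξ, ‖EL 1 (fun x => f (str s x)) ξ‖ₑ ^ q ≤ ENNReal.ofReal C * ∫⁻ x, ‖f x‖ₑ ^ q := by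
  obtain ⟨C, hC, h⟩ := avgLam q ((a⁻¹) ^ 2) hq3 hq4 (by positivity)
  have hb : 0 < b := lt_of_lt_of_le ha hab
  refine ⟨a ^ (1 - q) * (b ^ 3 / 2) * C, by positivity, ?_⟩
  intro f hfm hf hsupp
  have h1 := h f hfm hf hsupp
  set H : ℝ → ℝ≥0∞ := fun l => ∫⁻ t : ℝ, Phi q f (t, l * t) with hH
  have hHm : Measurable H := meas_H q f hfm
  have hinj : InjOn (fun s : ℝ => (s⁻¹) ^ 2) (Icc a b) := by
    intro s hs t ht hst
    have hs0 : 0 < s := lt_of_lt_of_le ha hs.1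
    have ht0 : 0 < t := lt_of_lt_of_le ha ht.1
    have : s⁻¹ = t⁻¹ := by
      have h2 : (s⁻¹) ^ 2 = (t⁻¹) ^ 2 := hst
      exact (sq_eq_sq₀ (by positivity) (by positivity)).1 h2
    exact inv_injective this
  have hder : ∀ s ∈ Icc a b, HasDerivWithinAt (fun s : ℝ => (s⁻¹) ^ 2) (-2 / s ^ 3) (Icc a b) s := by
    intro s hs
    have hs0 : s ≠ 0 := (lt_of_lt_of_le ha hs.1).ne'
    have h2 := ((hasDerivAt_inv hs0).pow 2).hasDerivWithinAt (s := Icc a b)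
    refine h2.congr_deriv ?_
    simp only [Nat.cast_ofNat, Nat.add_one_sub_one, pow_one]
    field_simp
  have hcv := lintegral_image_eq_lintegral_abs_deriv_mul measurableSet_Icc hder hinj H
  have himg : (fun s : ℝ => (s⁻¹) ^ 2) '' Icc a b ⊆ Icc (-(a⁻¹) ^ 2) ((a⁻¹) ^ 2) := by
    rintro _ ⟨s, hs, rfl⟩
    have hs0 : 0 < s := lt_of_lt_of_le ha hs.1
    have h3 : s⁻¹ ≤ a⁻¹ := inv_anti₀ ha hs.1
    have h4 : (s⁻¹) ^ 2 ≤ (a⁻¹) ^ 2 := by gcongr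
    refine ⟨?_, h4⟩
    have : 0 ≤ (s⁻¹) ^ 2 := by positivity
    have : 0 ≤ (a⁻¹) ^ 2 := by positivity
    simp only
    linarith
  calc ∫⁻ s in Icc a b, ∫⁻ ξ, ‖EL 1 (fun x => f (str s x)) ξ‖ₑ ^ q
      ≤ ∫⁻ s in Icc a b, (ENNReal.ofReal (a ^ (1 - q)) * ENNReal.ofReal (b ^ 3 / 2)) *
          (ENNReal.ofReal |-2 / s ^ 3| * H ((s⁻¹) ^ 2)) := by
        refine setLIntegral_mono' measurableSet_Icc (fun s hs => ?_)
        have hs0 : 0 < s := lt_of_lt_of_le ha hs.1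
        rw [norm_str q s (by linarith) hs0 f hfm]
        have e1 : ENNReal.ofReal (s ^ (1 - q)) ≤ ENNReal.ofReal (a ^ (1 - q)) :=
          ENNReal.ofReal_le_ofReal (Real.rpow_le_rpow_of_nonpos ha hs.1 (by linarith))
        have e2 : 1 ≤ ENNReal.ofReal (b ^ 3 / 2) * ENNReal.ofReal |-2 / s ^ 3| := by
          rw [← ENNReal.ofReal_mul (by positivity)]
          refine ENNReal.one_le_ofReal.2 ?_
          rw [abs_div, abs_neg, abs_two, abs_of_pos (by positivity : 0 < s ^ 3)]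
          have : s ^ 3 ≤ b ^ 3 := pow_le_pow_left₀ hs0.le hs.2 3
          rw [div_mul_div_comm, le_div_iff₀ (by positivity)]
          linarith
        calc ENNReal.ofReal (s ^ (1 - q)) * H ((s⁻¹) ^ 2)
            ≤ ENNReal.ofReal (a ^ (1 - q)) * H ((s⁻¹) ^ 2) := mul_le_mul_left e1 _
          _ = ENNReal.ofReal (a ^ (1 - q)) * (1 * H ((s⁻¹) ^ 2)) := by rw [one_mul]
          _ ≤ ENNReal.ofReal (a ^ (1 - q)) * ((ENNReal.ofReal (b ^ 3 / 2) * ENNReal.ofReal |-2 / s ^ 3|) *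
              H ((s⁻¹) ^ 2)) := mul_le_mul_right (mul_le_mul_left e2 _) _
          _ = _ := by ring
    _ = (ENNReal.ofReal (a ^ (1 - q)) * ENNReal.ofReal (b ^ 3 / 2)) *
        ∫⁻ s in Icc a b, (ENNReal.ofReal |-2 / s ^ 3| * H ((s⁻¹) ^ 2)) :=
        lintegral_const_mul' _ _ (ENNReal.mul_ne_top ENNReal.ofReal_ne_top ENNReal.ofReal_ne_top)
    _ = (ENNReal.ofReal (a ^ (1 - q)) * ENNReal.ofReal (b ^ 3 / 2)) *
        ∫⁻ l in (fun s : ℝ => (s⁻¹) ^ 2) '' Icc a b, H l := by rw [hcv]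
    _ ≤ (ENNReal.ofReal (a ^ (1 - q)) * ENNReal.ofReal (b ^ 3 / 2)) *
        ∫⁻ l in Icc (-(a⁻¹) ^ 2) ((a⁻¹) ^ 2), H l := mul_le_mul_right (lintegral_mono_set himg) _
    _ ≤ (ENNReal.ofReal (a ^ (1 - q)) * ENNReal.ofReal (b ^ 3 / 2)) *
        (ENNReal.ofReal C * ∫⁻ x, ‖f x‖ₑ ^ q) := mul_le_mul_right h1 _
    _ = _ := by
        rw [← mul_assoc, ← ENNReal.ofReal_mul (by positivity), ← ENNReal.ofReal_mul (by positivity)]

end X92.Ext
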