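import Mathlib
open Set Filter Topology Finset

namespace X92.GV

/-- partial sums -/
noncomputable def ps (y : ℕ → ℝ) (n : ℕ) : ℝ := ∑ i ∈ range n, y i

lemma ps_succ (y : ℕ → ℝ) (n : ℕ) : ps y (n + 1) = ps y n + y n := by
  unfold ps; rw [sum_range_succ]

@[simp] lemma ps_zero (y : ℕ → ℝ) : ps y 0 = 0 := by simp [ps]

lemma ps_nonneg {y : ℕ → ℝ} (h0 : ∀ i, 0 ≤ y i) (n : ℕ) : 0 ≤ ps y n :=
  sum_nonneg (fun i _ => h0 i)

lemma ps_mono {y : ℕ → ℝ} (h0 : ∀ i, 0 ≤ y i) {m n : ℕ} (h : m ≤ n) : ps y m ≤ ps y n :=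
  sum_le_sum_of_subset_of_nonneg (range_mono h) (fun i _ _ => h0 i)

lemma ps_avg {y : ℕ → ℝ} (ha : Antitone y) {p n : ℕ} (h : p ≤ n) :
    (p : ℝ) * ps y n ≤ n * ps y p := by
  induction n, h using Nat.le_induction with
  | base => rfl
  | succ n hpn ih =>
    have h1 : (p : ℝ) * y n ≤ ps y p := by
      unfold ps
      have := card_nsmul_le_sum (range p) y (y n) (fun i hi => ha (by
        rw [Finset.mem_range] at hi; omega))
      simpa using this
    rw [ps_succ]
    push_cast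
    nlinarith

lemma ps_double {y : ℕ → ℝ} (ha : Antitone y) (n : ℕ) : ps y (2 * n) ≤ 2 * ps y n := by
  rcases Nat.eq_zero_or_pos n with rfl | hn
  · simp
  · have := ps_avg ha (show n ≤ 2 * n by omega)
    have hn' : (0 : ℝ) < n := by exact_mod_cast hn
    push_cast at this
    have h2 : (n : ℝ) * ps y (2 * n) ≤ n * (2 * ps y n) := by linarith
    exact le_of_mul_le_mul_left h2 hn'

/-- Abel domination -/
lemma dom {a x z : ℕ → ℝ} {N : ℕ} (ha : ∀ i j, i ≤ j → j < N → a j ≤ a i) (ha0 : ∀ i < N, 0 ≤ a i)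
    (h : ∀ n ≤ N, ps x n ≤ ps z n) :
    ∑ i ∈ range N, a i * x i ≤ ∑ i ∈ range N, a i * z i := by
  have key : ∀ n, n < N → a n * (ps z (n + 1) - ps x (n + 1)) ≤
      ∑ i ∈ range (n + 1), a i * (z i - x i) := by
    intro n
    induction n with
    | zero => intro _; simp [ps]
    | succ n ih =>
      intro hn
      have h1 := ih (by omega)
      rw [sum_range_succ, ps_succ z (n + 1), ps_succ x (n + 1)]
      have h2 : a (n + 1) * (ps z (n + 1) - ps x (n + 1)) ≤ a n * (ps z (n + 1) - ps x (n + 1)) := by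
        apply mul_le_mul_of_nonneg_right (ha _ _ (by omega) hn)
        linarith [h (n + 1) (by omega)]
      nlinarith
  rcases N with _ | N
  · simp
  · have h1 := key N (by omega)
    have h2 : 0 ≤ a N * (ps z (N + 1) - ps x (N + 1)) :=
      mul_nonneg (ha0 N (by omega)) (by linarith [h (N + 1) le_rfl])
    have h3 : ∑ i ∈ range (N + 1), a i * (z i - x i)
        = ∑ i ∈ range (N + 1), a i * z i - ∑ i ∈ range (N + 1), a i * x i := by
      rw [← sum_sub_distrib]; apply sum_congr rfl; intro i _; ring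
    linarith

/-- fractional comparison -/
lemma frac_le {y b : ℕ → ℝ} (ha : Antitone y) (h0 : ∀ i, 0 ≤ y i) {T : Finset ℕ} {q : ℕ}
    (hb0 : ∀ i ∈ T, 0 ≤ b i) (hb1 : ∀ i ∈ T, b i ≤ 1) (hb : ∑ i ∈ T, b i ≤ q) :
    ∑ i ∈ T, b i * y i ≤ ps y q := by
  have h1 : ∑ i ∈ T, b i * (y i - y q) ≤ ∑ i ∈ range q, (y i - y q) := by
    calc ∑ i ∈ T, b i * (y i - y q) ≤ ∑ i ∈ T, (if i < q then y i - y q else 0) := by
          apply sum_le_sum
          intro i hi
          split_ifs with h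
          · have : 0 ≤ y i - y q := by linarith [ha h.le]
            calc b i * (y i - y q) ≤ 1 * (y i - y q) := by gcongr; exact hb1 i hi
              _ = _ := one_mul _
          · have : y i - y q ≤ 0 := by linarith [ha (not_lt.1 h)]
            nlinarith [hb0 i hi]
      _ = ∑ i ∈ T.filter (· < q), (y i - y q) := (sum_filter _ _).symm
      _ ≤ ∑ i ∈ range q, (y i - y q) := by
          apply sum_le_sum_of_subset_of_nonneg
          · intro i hi; rw [mem_filter] at hi; rw [Finset.mem_range]; exact hi.2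
          · intro i hi _; rw [Finset.mem_range] at hi; linarith [ha hi.le]
  have h2 : ∑ i ∈ T, b i * (y i - y q) = ∑ i ∈ T, b i * y i - (∑ i ∈ T, b i) * y q := by
    rw [sum_mul, ← sum_sub_distrib]; apply sum_congr rfl; intro i _; ring
  have h3 : ∑ i ∈ range q, (y i - y q) = ps y q - q * y q := by
    unfold ps; rw [sum_sub_distrib]; simp
  rw [h2, h3] at h1
  have := h0 q
  nlinarith

lemma sum_finset_le {y : ℕ → ℝ} (ha : Antitone y) (h0 : ∀ i, 0 ≤ y i) (T : Finset ℕ) :
    ∑ i ∈ T, y i ≤ ps y T.card := by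
  have := frac_le (b := fun _ => 1) ha h0 (T := T) (q := T.card) (by simp) (by simp) (by simp)
  simpa using this

lemma near_linear {y : ℕ → ℝ} (ha : Antitone y) (h0 : ∀ i, 0 ≤ y i) {n : ℕ} {δ : ℝ} (hn : 0 < n)
    (hd : (2 - δ) * ps y n ≤ ps y (2 * n)) {p : ℕ} (hp : p ≤ n) :
    ps y p ≤ (p / n + δ) * ps y n := by
  have hn' : (0 : ℝ) < n := by exact_mod_cast hn
  have hpn : (p : ℝ) ≤ n := by exact_mod_cast hp
  have e1 : ps y (2 * n) - ps y n ≤ n * y n := by
    unfold ps
    rw [two_mul, sum_range_add_sub_sum_range]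
    have := sum_le_card_nsmul (range n) (fun i => y (n + i)) (y n) (fun i _ => ha (by omega))
    simpa using this
  have e2 : ((n : ℝ) - p) * y n ≤ ps y n - ps y p := by
    obtain ⟨k, rfl⟩ := Nat.exists_eq_add_of_le hp
    unfold ps
    rw [sum_range_add_sub_sum_range]
    have := card_nsmul_le_sum (range k) (fun i => y (p + i)) (y (p + k)) (fun i hi => ha (by
      rw [Finset.mem_range] at hi; omega))
    simp only [card_range, nsmul_eq_mul] at this
    push_cast
    linarith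
  have e3 : (1 - δ) * ps y n ≤ n * y n := by linarith
  have e4 : (1 - (p / n : ℝ)) * ((1 - δ) * ps y n) ≤ ((n : ℝ) - p) * y n := by
    have h5 : 0 ≤ 1 - (p / n : ℝ) := by
      rw [sub_nonneg, div_le_one hn']; exact hpn
    calc (1 - (p / n : ℝ)) * ((1 - δ) * ps y n) ≤ (1 - (p / n : ℝ)) * (n * y n) := by gcongr
      _ = ((n : ℝ) - p) * y n := by field_simp
  have h6 : 0 ≤ ps y n := ps_nonneg h0 n
  have h7 : 0 ≤ (p / n : ℝ) := by positivity
  rcases le_total 0 δ with hδ | hδ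
  · nlinarith [mul_nonneg (mul_nonneg h7 hδ) h6]
  · -- δ ≤ 0 forces `ps y n = 0`-type degeneracy
    have h8 := ps_double ha n
    have h9 : -δ * ps y n ≤ 0 := by nlinarith
    have h10 : δ * ps y n = 0 := le_antisymm (by nlinarith) (by nlinarith)
    nlinarith [mul_nonneg h7 h6]

/-- the doubling condition forces superlinear gain -/
lemma gain {y z : ℕ → ℝ} (hy : Antitone y) (hz : Antitone z) (hy0 : ∀ i, 0 < y i)
    (hcond : ∀ c > 0, ∃ δ > 0, ∃ n₀ : ℕ, ∀ n ≥ n₀, c * ps y n ≤ ps z n →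
      ps y (2 * n) ≤ (2 - δ) * ps y n) {c A : ℝ} (hc : 0 < c) (hA : 1 ≤ A) :
    ∃ K : ℕ, 2 ≤ K ∧ ∃ n₀ : ℕ, ∀ n ≥ n₀, c * ps y n ≤ ps z n → A * ps y n ≤ K * ps y (n / K) := by
  obtain ⟨δ, hδ, n₁, h1⟩ := hcond (c / (2 * A)) (by positivity)
  have hy0' : ∀ i, 0 ≤ y i := fun i => (hy0 i).le
  -- make `δ ≤ 1`
  set d := min δ 1 with hd
  have hd0 : 0 < d := lt_min hδ one_pos
  have hd1 : d ≤ 1 := min_le_right _ _
  have hlim : Tendsto (fun M : ℕ => 2 * A * (1 - d / 2) ^ (M + 1)) atTop (𝓝 (2 * A * 0)) := by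
    apply Tendsto.const_mul
    exact (tendsto_pow_atTop_nhds_zero_of_lt_one (by linarith) (by linarith)).comp
      (tendsto_add_atTop_nat 1)
  rw [mul_zero] at hlim
  obtain ⟨M, hM, hM1⟩ := ((hlim.eventually_lt_const one_pos).and (eventually_ge_atTop 1)).exists
  refine ⟨2 ^ M, ?_, 2 ^ M * (n₁ + 1), fun n hn hgood => ?_⟩
  · calc 2 = 2 ^ 1 := by norm_num
      _ ≤ 2 ^ M := Nat.pow_le_pow_right (by norm_num) hM1
  by_contra hlt
  push Not at hlt
  set q := n / 2 ^ M with hq
  have hqn₁ : n₁ + 1 ≤ q := by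
    rw [hq, Nat.le_div_iff_mul_le (by positivity), mul_comm]; exact hn
  have hq0 : 0 < q := by omega
  have hle : 2 ^ M * q ≤ n := Nat.mul_div_le n (2 ^ M)
  have hlt2 : n < 2 ^ M * (q + 1) := Nat.lt_mul_div_succ n (by positivity)
  have hlt3 : n ≤ 2 ^ (M + 1) * q := by
    calc n ≤ 2 ^ M * (q + 1) := hlt2.le
      _ ≤ 2 ^ M * (2 * q) := by gcongr; omega
      _ = 2 ^ (M + 1) * q := by ring
  have hn0 : 0 < n := by
    have : 0 < 2 ^ M * q := by positivity
    omega
  have hnR : (0 : ℝ) < n := by exact_mod_cast hn0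
  have hqR : (0 : ℝ) < q := by exact_mod_cast hq0
  have hG : 0 < ps y n := sum_pos (fun i _ => hy0 i) (by simpa using hn0.ne')
  have hlt3R : (n : ℝ) ≤ 2 * (2 ^ M * q) := by
    have : (n : ℝ) ≤ ((2 ^ (M + 1) * q : ℕ) : ℝ) := by exact_mod_cast hlt3
    push_cast at this
    rw [pow_succ] at this; linarith
  have hltR : 2 ^ M * ps y q < A * ps y n := by
    have := hlt
    push_cast at this
    exact this
  -- every `p` in `[q, n]` is good
  have hp : ∀ p : ℕ, q ≤ p → p ≤ n → ps y (2 * p) ≤ (2 - d) * ps y p := by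
    intro p hqp hpn
    have hpR : (q : ℝ) ≤ p := by exact_mod_cast hqp
    have hp0 : (0 : ℝ) < p := lt_of_lt_of_le hqR hpR
    have a1 := ps_avg hy hqp
    have a2 := ps_avg hz hpn
    -- G(p) ≤ 2A p G(n) / n
    have a3 : n * ps y p ≤ 2 * A * p * ps y n := by
      have b1 : (q : ℝ) * (2 ^ M * ps y p) ≤ p * (A * ps y n) := by
        calc (q : ℝ) * (2 ^ M * ps y p) = 2 ^ M * (q * ps y p) := by ring
          _ ≤ 2 ^ M * (p * ps y q) := by gcongr
          _ = p * (2 ^ M * ps y q) := by ring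
          _ ≤ p * (A * ps y n) := by gcongr
      have b2 : 0 ≤ ps y p := ps_nonneg hy0' p
      calc n * ps y p ≤ (2 * (2 ^ M * q)) * ps y p := by gcongr
        _ = 2 * (q * (2 ^ M * ps y p)) := by ring
        _ ≤ 2 * (p * (A * ps y n)) := by gcongr
        _ = _ := by ring
    have a4 : c / (2 * A) * ps y p ≤ ps z p := by
      have b3 : (p : ℝ) * (c * ps y n) ≤ n * ps z p := by
        calc (p : ℝ) * (c * ps y n) ≤ p * ps z n := by gcongr
          _ ≤ _ := a2
      have b4 : n * (c / (2 * A) * ps y p) ≤ n * ps z p := by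
        calc n * (c / (2 * A) * ps y p) = c / (2 * A) * (n * ps y p) := by ring
          _ ≤ c / (2 * A) * (2 * A * p * ps y n) := by gcongr
          _ = p * (c * ps y n) := by field_simp
          _ ≤ _ := b3
      exact le_of_mul_le_mul_left b4 hnR
    have a5 := h1 p (by omega) a4
    have b5 : 0 ≤ ps y p := ps_nonneg hy0' p
    calc ps y (2 * p) ≤ (2 - δ) * ps y p := a5
      _ ≤ (2 - d) * ps y p := by gcongr; exact min_le_left _ _
  have hiter : ∀ j : ℕ, j ≤ M + 1 → ps y (2 ^ j * q) ≤ (2 - d) ^ j * ps y q := by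
    intro j
    induction j with
    | zero => intro _; simp
    | succ j ih =>
      intro hj
      have c1 := ih (by omega)
      have c2 : q ≤ 2 ^ j * q := Nat.le_mul_of_pos_left q (by positivity)
      have c3 : 2 ^ j * q ≤ n := by
        refine le_trans ?_ hle
        gcongr
        · norm_num
        · omega
      have c4 := hp _ c2 c3
      have c5 : 0 ≤ 2 - d := by linarith
      calc ps y (2 ^ (j + 1) * q) = ps y (2 * (2 ^ j * q)) := by congr 1; ring
        _ ≤ (2 - d) * ps y (2 ^ j * q) := c4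
        _ ≤ (2 - d) * ((2 - d) ^ j * ps y q) := by gcongr
        _ = _ := by ring
  have hfin := hiter (M + 1) le_rfl
  have hmono := ps_mono hy0' hlt3
  have e : (2 - d) ^ (M + 1) = 2 * 2 ^ M * (1 - d / 2) ^ (M + 1) := by
    rw [show (2 : ℝ) - d = 2 * (1 - d / 2) by ring, mul_pow, pow_succ (2 : ℝ)]; ring
  have hpos : 0 < (1 - d / 2) ^ (M + 1) := pow_pos (by linarith) _
  have : ps y n < ps y n := by
    calc ps y n ≤ (2 - d) ^ (M + 1) * ps y q := hmono.trans hfin
      _ = 2 * (1 - d / 2) ^ (M + 1) * (2 ^ M * ps y q) := by rw [e]; ring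
      _ ≤ 2 * (1 - d / 2) ^ (M + 1) * (A * ps y n) := by gcongr
      _ = (2 * A * (1 - d / 2) ^ (M + 1)) * ps y n := by ring
      _ < 1 * ps y n := by gcongr
      _ = ps y n := one_mul _
  exact lt_irrefl _ this

end X92.GV
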