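import Mathlib
open Finset

namespace X92.GV

lemma surv_count {M : ℕ} (F0 : Finset ℕ) (R : ℕ → Prop)
    (h : ∀ i1 ∈ F0, ∀ i2 ∈ F0, R i1 → R i2 → i1 = i2) :
    (M : ℝ) - 1 ≤ ∑ r ∈ range M, (open Classical in
      if (∀ i' ∈ F0, i' % M = r → ¬ R i') then (1 : ℝ) else 0) := by
  classical
  by_cases hex : ∃ i' ∈ F0, R i'
  · obtain ⟨i', hi', hR⟩ := hex
    have : ∀ r ∈ range M, (if r = i' % M then (0 : ℝ) else 1) ≤
        (if (∀ i' ∈ F0, i' % M = r → ¬ R i') then (1 : ℝ) else 0) := by
      intro r _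
      split_ifs with h1 h2 h2
      · norm_num
      · norm_num
      · norm_num
      · exfalso
        apply h2
        intro i'' hi'' hr hR''
        have := h i'' hi'' i' hi' hR'' hR
        subst this
        exact h1 hr.symm
    refine le_trans ?_ (sum_le_sum this)
    have e : ∑ r ∈ range M, (if r = i' % M then (0 : ℝ) else 1)
        = ∑ r ∈ range M, (1 - (if r = i' % M then (1 : ℝ) else 0)) := by
      apply sum_congr rfl; intro r _; split_ifs <;> norm_num
    rw [e, sum_sub_distrib]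
    have e2 : ∑ r ∈ range M, (if r = i' % M then (1 : ℝ) else 0) ≤ 1 := by
      rw [sum_ite_eq']
      split_ifs <;> norm_num
    simp only [sum_const, card_range, nsmul_eq_mul, mul_one]
    linarith
  · push Not at hex
    have : ∀ r ∈ range M, (1 : ℝ) ≤
        (if (∀ i' ∈ F0, i' % M = r → ¬ R i') then (1 : ℝ) else 0) := by
      intro r _
      rw [if_pos (fun i' hi' _ => hex i' hi')]
    have h2 := sum_le_sum this
    simp only [sum_const, card_range, nsmul_eq_mul, mul_one] at h2
    linarith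

/-- selection of subfamilies from nested families -/
theorem select {M : ℕ} (hM : 1 ≤ M) (k : ℕ) : ∀ (F : ℕ → Finset ℕ) (ω : ℕ → ℕ → ℝ)
    (_ : ∀ j i, 0 ≤ ω j i) (ov : ℕ → ℕ → ℕ → ℕ → Prop)
    (_ : ∀ j' j, j' < j → ∀ i ∈ F j, ∀ i1 ∈ F j', ∀ i2 ∈ F j',
      ov j' i1 j i → ov j' i2 j i → i1 = i2),
    ∃ S : ℕ → Finset ℕ, (∀ j, S j ⊆ F j) ∧ (∀ j, ∀ i ∈ S j, ∀ i' ∈ S j, i % M = i' % M) ∧
      (∀ j' j, j' < j → j < k → ∀ i' ∈ S j', ∀ i ∈ S j, ¬ ov j' i' j i) ∧
      ∑ j ∈ range k, (1 / M : ℝ) * (1 - 1 / M) ^ j * ∑ i ∈ F j, ω j i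
        ≤ ∑ j ∈ range k, ∑ i ∈ S j, ω j i := by
  classical
  have hMR : (1 : ℝ) ≤ M := by exact_mod_cast hM
  have hq0 : (0 : ℝ) ≤ 1 - 1 / M := by
    rw [sub_nonneg, div_le_one (by linarith)]; exact hMR
  induction k with
  | zero =>
    intro F ω _ ov _
    exact ⟨fun _ => ∅, by simp, by simp, by simp, by simp⟩
  | succ k ih =>
    intro F ω hω ov hov
    set G : ℕ → ℕ → Finset ℕ := fun r j =>
      (F (j + 1)).filter (fun i => ∀ i' ∈ F 0, i' % M = r → ¬ ov 0 i' (j + 1) i) with hG
    set tot : ℕ → ℝ := fun r => ∑ i ∈ (F 0).filter (fun i => i % M = r), ω 0 i +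
      ∑ j ∈ range k, (1 / M : ℝ) * (1 - 1 / M) ^ j * ∑ i ∈ G r j, ω (j + 1) i with htot
    set target : ℝ := ∑ j ∈ range (k + 1), (1 / M : ℝ) * (1 - 1 / M) ^ j * ∑ i ∈ F j, ω j i
      with htarget
    have hsum : ∑ _r ∈ range M, target ≤ ∑ r ∈ range M, tot r := by
      have e1 : ∑ r ∈ range M, ∑ i ∈ (F 0).filter (fun i => i % M = r), ω 0 i
          = ∑ i ∈ F 0, ω 0 i := by
        apply sum_fiberwise_of_maps_to
        intro i _
        exact mem_range.2 (Nat.mod_lt _ (by omega))
      have e2 : ∀ j, ((M : ℝ) - 1) * ∑ i ∈ F (j + 1), ω (j + 1) i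
          ≤ ∑ r ∈ range M, ∑ i ∈ G r j, ω (j + 1) i := by
        intro j
        have : ∑ r ∈ range M, ∑ i ∈ G r j, ω (j + 1) i
            = ∑ i ∈ F (j + 1), ω (j + 1) i * ∑ r ∈ range M,
              (if (∀ i' ∈ F 0, i' % M = r → ¬ ov 0 i' (j + 1) i) then (1 : ℝ) else 0) := by
          simp only [hG, sum_filter, mul_sum]
          rw [sum_comm]
          apply sum_congr rfl
          intro i _
          apply sum_congr rfl
          intro r _
          split_ifs <;> simp
        rw [this, mul_sum]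
        apply sum_le_sum
        intro i hi
        rw [mul_comm]
        apply mul_le_mul_of_nonneg_left _ (hω _ _)
        exact surv_count (F 0) (fun i' => ov 0 i' (j + 1) i)
          (fun i1 h1 i2 h2 => hov 0 (j + 1) (by omega) i hi i1 h1 i2 h2)
      have e3 : ∑ r ∈ range M, tot r = ∑ i ∈ F 0, ω 0 i +
          ∑ j ∈ range k, (1 / M : ℝ) * (1 - 1 / M) ^ j * ∑ r ∈ range M, ∑ i ∈ G r j, ω (j + 1) i := by
        simp only [htot, sum_add_distrib, e1]
        congr 1
        rw [sum_comm]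
        apply sum_congr rfl
        intro j _
        rw [mul_sum]
      rw [e3]
      simp only [sum_const, card_range, nsmul_eq_mul, htarget]
      rw [sum_range_succ', mul_add, add_comm]
      apply add_le_add
      · simp only [pow_zero, mul_one]
        rw [← mul_assoc, mul_one_div_cancel (by linarith), one_mul]
      · rw [mul_sum]
        apply sum_le_sum
        intro j _
        have h1 : 0 ≤ (1 / M : ℝ) * (1 - 1 / M) ^ j := by positivity
        calc (M : ℝ) * ((1 / M : ℝ) * (1 - 1 / M) ^ (j + 1) * ∑ i ∈ F (j + 1), ω (j + 1) i)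
            = (1 / M : ℝ) * (1 - 1 / M) ^ j * (((M : ℝ) - 1) * ∑ i ∈ F (j + 1), ω (j + 1) i) := by
              rw [pow_succ]; field_simp
          _ ≤ _ := mul_le_mul_of_nonneg_left (e2 j) h1
    obtain ⟨r, _, hr⟩ := exists_le_of_sum_le (nonempty_range_iff.2 (by omega)) hsum
    obtain ⟨S', h1, h2, h3, h4⟩ := ih (G r) (fun j => ω (j + 1)) (fun j i => hω _ _)
      (fun j' i' j i => ov (j' + 1) i' (j + 1) i) (by
        intro j' j hj i hi i1 hi1 i2 hi2
        exact hov (j' + 1) (j + 1) (by omega) i (mem_filter.1 hi).1 i1 (mem_filter.1 hi1).1 i2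
          (mem_filter.1 hi2).1)
    refine ⟨fun j => Nat.casesOn j ((F 0).filter (fun i => i % M = r)) (fun j => S' j),
      ?_, ?_, ?_, ?_⟩
    · intro j
      rcases j with _ | j
      · exact filter_subset _ _
      · exact (h1 j).trans (filter_subset _ _)
    · intro j
      rcases j with _ | j
      · intro i hi i' hi'
        rw [(mem_filter.1 hi).2, (mem_filter.1 hi').2]
      · exact h2 j
    · intro j' j hj hjk i' hi' i hi
      rcases j with _ | j
      · omega
      rcases j' with _ | j'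
      · have h5 := (mem_filter.1 (h1 j hi)).2
        exact h5 i' (mem_filter.1 hi').1 (mem_filter.1 hi').2
      · exact h3 j' j (by omega) (by omega) i' hi' i hi
    · refine hr.trans ?_
      rw [sum_range_succ']
      simp only [htot]
      rw [add_comm]
      exact add_le_add_left h4 _

end X92.GV
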