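import Pool.Agent.X92.GV1
import Pool.Agent.X92.GV2
open Set Filter Topology Finset

namespace X92.GV

/-- A `Λ`-sequence: positive, non-decreasing, with divergent sum of reciprocals
(`Λ i` is the term `λ_{i+1}`). -/
structure IsLam (Λ : ℕ → ℝ) : Prop where
  pos : ∀ i, 0 < Λ i
  mono : Monotone Λ
  div : ¬ Summable (fun i => 1 / Λ i)

/-- `s i, t i` (`i < n`) are the endpoints of non-overlapping closed subintervals of `[a,b]`. -/
def Fam (a b : ℝ) {n : ℕ} (s t : Fin n → ℝ) : Prop :=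
  (∀ i, a ≤ s i ∧ s i ≤ t i ∧ t i ≤ b) ∧ ∀ i j, i ≠ j → t i ≤ s j ∨ t j ≤ s i

/-- The Waterman `Λ`-variation of `f` on `[a,b]`. -/
noncomputable def Var (a b : ℝ) (Λ : ℕ → ℝ) (f : ℝ → ℝ) : ENNReal :=
  ⨆ (n : ℕ) (s : Fin n → ℝ) (t : Fin n → ℝ) (_ : Fam a b s t),
    ENNReal.ofReal (∑ i : Fin n, |f (t i) - f (s i)| / Λ i)

/-- The class `ΛBV` on `[a,b]`. -/
def BV (a b : ℝ) (Λ : ℕ → ℝ) : Set (ℝ → ℝ) := {f | Var a b Λ f < ⊤}

/-- The class `ΛBV_c` of functions continuous in `Λ`-variation on `[a,b]`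
(`fun i => Λ (i + m)` is the tail sequence `Λ_{(m)}`). -/
def BVc (a b : ℝ) (Λ : ℕ → ℝ) : Set (ℝ → ℝ) :=
  {f | f ∈ BV a b Λ ∧ Tendsto (fun m : ℕ => Var a b (fun i => Λ (i + m)) f) atTop (𝓝 0)}

/-- real-valued bound for the variation -/
def Bdd (a b : ℝ) (Λ : ℕ → ℝ) (f : ℝ → ℝ) (V : ℝ) : Prop :=
  ∀ (n : ℕ) (s t : Fin n → ℝ), Fam a b s t → ∑ i : Fin n, |f (t i) - f (s i)| / Λ i ≤ V

lemma Var_le {a b : ℝ} {Λ : ℕ → ℝ} {f : ℝ → ℝ} {V : ℝ} (h : Bdd a b Λ f V) :
    Var a b Λ f ≤ ENNReal.ofReal V := by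
  unfold Var
  refine iSup_le fun n => iSup_le fun s => iSup_le fun t => iSup_le fun hF => ?_
  exact ENNReal.ofReal_le_ofReal (h n s t hF)

lemma le_Var {a b : ℝ} {Λ : ℕ → ℝ} {f : ℝ → ℝ} {n : ℕ} {s t : Fin n → ℝ} (hF : Fam a b s t) :
    ENNReal.ofReal (∑ i : Fin n, |f (t i) - f (s i)| / Λ i) ≤ Var a b Λ f := by
  unfold Var
  exact le_iSup_of_le n (le_iSup_of_le s (le_iSup_of_le t (le_iSup_of_le hF le_rfl)))

lemma mem_BV_iff {a b : ℝ} {Λ : ℕ → ℝ} {f : ℝ → ℝ} :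
    f ∈ BV a b Λ ↔ ∃ V : ℝ, Bdd a b Λ f V := by
  constructor
  · intro h
    refine ⟨(Var a b Λ f).toReal, fun n s t hF => ?_⟩
    have h1 := le_Var (Λ := Λ) (f := f) hF
    exact (ENNReal.ofReal_le_iff_le_toReal (ne_of_lt h)).1 h1
  · rintro ⟨V, hV⟩
    exact (Var_le hV).trans_lt ENNReal.ofReal_lt_top

lemma Bdd.nonneg {a b : ℝ} {Λ : ℕ → ℝ} {f : ℝ → ℝ} {V : ℝ} (h : Bdd a b Λ f V) : 0 ≤ V := by
  have := h 0 (fun i => a) (fun i => a) ⟨fun i => i.elim0, fun i => i.elim0⟩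
  simpa using this

/-- sums with arbitrary injective ranks -/
lemma Bdd.assign {a b : ℝ} (hab : a ≤ b) {Λ : ℕ → ℝ} {f : ℝ → ℝ} {V : ℝ} (h : Bdd a b Λ f V)
    {ι : Type*} (T : Finset ι) (s t : ι → ℝ) (r : ι → ℕ) (hr : Set.InjOn r T)
    (hin : ∀ i ∈ T, a ≤ s i ∧ s i ≤ t i ∧ t i ≤ b)
    (hov : ∀ i ∈ T, ∀ j ∈ T, i ≠ j → t i ≤ s j ∨ t j ≤ s i) :
    ∑ i ∈ T, |f (t i) - f (s i)| / Λ (r i) ≤ V := by
  classical
  set n := T.sup r + 1 with hn
  have hlt : ∀ i ∈ T, r i < n := fun i hi => Nat.lt_succ_of_le (le_sup (f := r) hi)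
  set s' : ℕ → ℝ := fun k => if h : ∃ i ∈ T, r i = k then s h.choose else a with hs'
  set t' : ℕ → ℝ := fun k => if h : ∃ i ∈ T, r i = k then t h.choose else a with ht'
  have hval : ∀ i ∈ T, s' (r i) = s i ∧ t' (r i) = t i := by
    intro i hi
    have hex : ∃ j ∈ T, r j = r i := ⟨i, hi, rfl⟩
    have : hex.choose = i := hr hex.choose_spec.1 hi hex.choose_spec.2
    simp only [hs', ht', dif_pos hex, this, and_self]
  have hval0 : ∀ k, (¬ ∃ i ∈ T, r i = k) → s' k = a ∧ t' k = a := by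
    intro k hk
    simp only [hs', ht', dif_neg hk, and_self]
  have hF : Fam a b (fun k : Fin n => s' k) (fun k : Fin n => t' k) := by
    constructor
    · intro k
      by_cases hk : ∃ i ∈ T, r i = k
      · obtain ⟨i, hi, hik⟩ := hk
        simp only [← hik, (hval i hi).1, (hval i hi).2]
        exact hin i hi
      · simp only [(hval0 k hk).1, (hval0 k hk).2]
        exact ⟨le_rfl, le_rfl, hab⟩
    · intro k l hkl
      by_cases hk : ∃ i ∈ T, r i = k
      · obtain ⟨i, hi, hik⟩ := hk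
        by_cases hl : ∃ j ∈ T, r j = l
        · obtain ⟨j, hj, hjl⟩ := hl
          simp only [← hik, ← hjl, (hval i hi).1, (hval i hi).2, (hval j hj).1, (hval j hj).2]
          apply hov i hi j hj
          rintro rfl
          exact hkl (Fin.ext (hik.symm.trans hjl))
        · simp only [← hik, (hval i hi).1, (hval i hi).2, (hval0 l hl).1, (hval0 l hl).2]
          right; exact (hin i hi).1
      · simp only [(hval0 k hk).1, (hval0 k hk).2]
        by_cases hl : ∃ j ∈ T, r j = l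
        · obtain ⟨j, hj, hjl⟩ := hl
          simp only [← hjl, (hval j hj).1, (hval j hj).2]
          left; exact (hin j hj).1
        · simp only [(hval0 l hl).1, (hval0 l hl).2]
          left; exact le_rfl
  have h1 := h n _ _ hF
  rw [Fin.sum_univ_eq_sum_range (fun k => |f (t' k) - f (s' k)| / Λ k) n] at h1
  refine le_trans ?_ h1
  have h2 : ∑ i ∈ T, |f (t i) - f (s i)| / Λ (r i)
      = ∑ k ∈ T.image r, |f (t' k) - f (s' k)| / Λ k := by
    rw [sum_image (fun i hi j hj hij => hr hi hj hij)]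
    apply sum_congr rfl
    intro i hi
    rw [(hval i hi).1, (hval i hi).2]
  rw [h2]
  apply le_of_eq
  apply sum_subset
  · intro k hk
    rw [Finset.mem_image] at hk
    obtain ⟨i, hi, rfl⟩ := hk
    exact Finset.mem_range.2 (hlt i hi)
  · intro k _ hk
    have : ¬ ∃ i ∈ T, r i = k := by
      rintro ⟨i, hi, rfl⟩
      exact hk (Finset.mem_image_of_mem r hi)
    rw [(hval0 k this).1, (hval0 k this).2]
    simp

/-- sorted enumeration of a finite set -/
lemma exists_sorted {ι : Type*} [Nonempty ι] (T : Finset ι) (v : ι → ℝ) :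
    ∃ e : ℕ → ι, (∀ k < T.card, e k ∈ T) ∧ (∀ k < T.card, ∀ l < T.card, e k = e l → k = l) ∧
      (∀ k l, k ≤ l → l < T.card → v (e l) ≤ v (e k)) ∧
      (∀ g : ι → ℝ, ∑ i ∈ T, g i = ∑ k ∈ range T.card, g (e k)) := by
  classical
  let e0 : Fin T.card ≃ T := T.equivFin.symm
  let σ := Tuple.sort (fun k : Fin T.card => - v (e0 k))
  have hσ : Monotone ((fun k : Fin T.card => - v (e0 k)) ∘ σ) := Tuple.monotone_sort _
  let e1 : Fin T.card ≃ T := σ.trans e0
  let e : ℕ → ι := fun k => if h : k < T.card then (e1 ⟨k, h⟩ : ι) else Classical.arbitrary ι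
  have he : ∀ k (h : k < T.card), e k = (e1 ⟨k, h⟩ : ι) := fun k h => dif_pos h
  refine ⟨e, ?_, ?_, ?_, ?_⟩
  · intro k hk
    rw [he k hk]; exact (e1 ⟨k, hk⟩).2
  · intro k hk l hl hkl
    rw [he k hk, he l hl] at hkl
    have := e1.injective (Subtype.ext hkl)
    exact congrArg Fin.val this
  · intro k l hkl hl
    have hk : k < T.card := by omega
    rw [he k hk, he l hl]
    have := hσ (show (⟨k, hk⟩ : Fin T.card) ≤ ⟨l, hl⟩ from hkl)
    simp only [Function.comp_apply] at this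
    change v (e0 (σ ⟨l, hl⟩)) ≤ v (e0 (σ ⟨k, hk⟩))
    linarith
  · intro g
    rw [← Fin.sum_univ_eq_sum_range (fun k => g (e k)), ← sum_coe_sort T g]
    rw [← Equiv.sum_comp e1 (fun i : T => g i)]
    apply sum_congr rfl
    intro k _
    rw [he k k.2]

lemma recip_anti {Λ : ℕ → ℝ} (h : IsLam Λ) : Antitone (fun i => 1 / Λ i) := by
  intro i j hij
  exact one_div_le_one_div_of_le (h.pos i) (h.mono hij)

lemma recip_pos {Λ : ℕ → ℝ} (h : IsLam Λ) (i : ℕ) : 0 < 1 / Λ i := one_div_pos.2 (h.pos i)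

lemma ps_tendsto {Λ : ℕ → ℝ} (h : IsLam Λ) : Tendsto (ps (fun i => 1 / Λ i)) atTop atTop := by
  have := not_summable_iff_tendsto_nat_atTop_of_nonneg (fun i => (recip_pos h i).le) |>.1 h.div
  exact this

/-- rearrangement: sorted sums dominate -/
lemma sorted_dom {ι : Type*} {z : ℕ → ℝ} (hz : Antitone z) (hz0 : ∀ i, 0 ≤ z i) {N : ℕ}
    {e : ℕ → ι} {v : ι → ℝ} {r : ι → ℕ} (hv0 : ∀ k < N, 0 ≤ v (e k))
    (hsort : ∀ k l, k ≤ l → l < N → v (e l) ≤ v (e k))
    (hinj : ∀ k < N, ∀ l < N, r (e k) = r (e l) → k = l) :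
    ∑ k ∈ range N, v (e k) * z (r (e k)) ≤ ∑ k ∈ range N, v (e k) * z k := by
  classical
  apply dom (a := fun k => v (e k)) (x := fun k => z (r (e k))) (z := z) hsort hv0
  intro n hn
  have hi : Set.InjOn (fun k => r (e k)) (Finset.range n : Set ℕ) := by
    intro k hk l hl hkl
    rw [coe_range, Set.mem_Iio] at hk hl
    exact hinj k (by omega) l (by omega) hkl
  have : ps (fun k => z (r (e k))) n = ∑ i ∈ (Finset.range n).image (fun k => r (e k)), z i := by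
    unfold ps
    rw [sum_image (fun i hi' j hj' hij => hi hi' hj' hij)]
  rw [this]
  refine (sum_finset_le hz hz0 _).trans ?_
  apply ps_mono hz0
  exact card_image_le.trans (by simp)

end X92.GV
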