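import Pool.Agent.X92.GV3
open Set Filter Topology Finset

namespace X92.GV

variable {a b : ℝ} {Γ Λ : ℕ → ℝ} {f : ℝ → ℝ} {V : ℝ}

lemma sum_div_block (g : ℕ → ℝ) {K : ℕ} (hK : 0 < K) (n : ℕ) :
    ∑ i ∈ Finset.range (K * n), g (i / K) = K * ∑ q ∈ Finset.range n, g q := by
  induction n with
  | zero => simp
  | succ n ih =>
    rw [show K * (n + 1) = K * n + K by ring, sum_range_add, ih, sum_range_succ, mul_add]
    congr 1
    have : ∀ x ∈ Finset.range K, g ((K * n + x) / K) = g n := by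
      intro x hx
      rw [Finset.mem_range] at hx
      rw [Nat.mul_add_div hK, Nat.div_eq_of_lt hx, add_zero]
    rw [sum_congr rfl this]
    simp

/-- `ΓBV ⊆ ΛBV` under the `O`-condition -/
lemma bdd_of_O (hab : a ≤ b) (hΓ : IsLam Γ) (hΛ : IsLam Λ) {C : ℝ}
    (hC : ∀ n, ps (fun i => 1 / Λ i) n ≤ C * ps (fun i => 1 / Γ i) n) (h : Bdd a b Γ f V) :
    Bdd a b Λ f (C * V) := by
  have hV := h.nonneg
  have hC0 : 0 ≤ C := by
    have := hC 1
    simp only [ps, Finset.sum_range_one] at this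
    by_contra hneg
    push Not at hneg
    nlinarith [recip_pos hΓ 0, recip_pos hΛ 0]
  intro n s t hF
  rcases n with _ | n
  · simp; positivity
  obtain ⟨e, he1, he2, he3, he4⟩ := exists_sorted (univ : Finset (Fin (n + 1)))
    (fun i => |f (t i) - f (s i)|)
  rw [card_univ, Fintype.card_fin] at he1 he2 he3 he4
  rw [he4 (fun i => |f (t i) - f (s i)| / Λ i)]
  have h1 := sorted_dom (recip_anti hΛ) (fun i => (recip_pos hΛ i).le) (N := n + 1) (e := e)
    (v := fun i => |f (t i) - f (s i)|) (r := fun i => (i : ℕ)) (fun k _ => abs_nonneg _) he3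
    (fun k hk l hl hkl => he2 k hk l hl (Fin.ext hkl))
  have h2 := dom (a := fun k => |f (t (e k)) - f (s (e k))|) (x := fun i => 1 / Λ i)
    (z := fun i => C * (1 / Γ i)) (N := n + 1) he3 (fun k _ => abs_nonneg _) (fun m _ => by
      have : ps (fun i => C * (1 / Γ i)) m = C * ps (fun i => 1 / Γ i) m := by
        unfold ps; rw [mul_sum]
      rw [this]; exact hC m)
  have h3 := h.assign hab (Finset.range (n + 1)) (fun k => s (e k)) (fun k => t (e k)) id
    (fun i _ j _ hij => hij) (fun i _ => hF.1 _) (fun i hi j hj hij => hF.2 _ _ (fun h' =>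
      hij (he2 i (Finset.mem_range.1 hi) j (Finset.mem_range.1 hj) h')))
  have e1 : ∑ k ∈ Finset.range (n + 1), |f (t (e k)) - f (s (e k))| / Λ (e k)
      = ∑ k ∈ Finset.range (n + 1), |f (t (e k)) - f (s (e k))| * (1 / Λ (e k)) := by
    apply sum_congr rfl; intro k _; rw [mul_one_div]
  have e2 : ∑ k ∈ Finset.range (n + 1), |f (t (e k)) - f (s (e k))| * (C * (1 / Γ k))
      = C * ∑ k ∈ Finset.range (n + 1), |f (t (e k)) - f (s (e k))| / Γ (id k) := by
    rw [mul_sum]; apply sum_congr rfl; intro k _; simp only [id]; ring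
  rw [e1]
  calc _ ≤ _ := h1
    _ ≤ _ := h2
    _ = _ := e2
    _ ≤ C * V := by gcongr

/-- fine families carrying a definite weight -/
lemma fine (hab : a ≤ b) (hΓ : IsLam Γ) (hΛ : IsLam Λ) (h : Bdd a b Γ f V) {D c ε : ℝ} {K : ℕ}
    (hD : 0 < D) (hc : c * V ≤ ε / 4) (hε : 0 < ε)
    (hdom : ∀ᶠ m : ℕ in atTop, ∀ n, ps (fun i => 1 / Λ (i + m)) n
      ≤ D * ps (fun i => 1 / Γ (i / K)) n + c * ps (fun i => 1 / Γ i) n)
    (hlim : Tendsto (fun m : ℕ => 1 / Λ m) atTop (𝓝 0))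
    (hc0 : 0 ≤ c)
    (hbad : ∀ m : ℕ, ∃ (n : ℕ) (s t : Fin n → ℝ), Fam a b s t ∧
      ε < ∑ i : Fin n, |f (t i) - f (s i)| / Λ (i + m)) {τ : ℝ} (hτ : 0 < τ) (P : Finset ℝ) :
    ∃ q : ℕ × (ℕ → ℝ) × (ℕ → ℝ),
      (∀ i < q.1, a ≤ q.2.1 i ∧ q.2.1 i ≤ q.2.2 i ∧ q.2.2 i ≤ b) ∧
      (∀ i < q.1, ∀ j < q.1, i ≠ j → q.2.2 i ≤ q.2.1 j ∨ q.2.2 j ≤ q.2.1 i) ∧
      (∀ i < q.1, ∀ p ∈ P, ¬ (q.2.1 i < p ∧ p < q.2.2 i)) ∧
      (∀ i < q.1, |f (q.2.2 i) - f (q.2.1 i)| ≤ τ) ∧
      ε / (4 * D) ≤ ∑ i ∈ Finset.range q.1, |f (q.2.2 i) - f (q.2.1 i)| * (1 / Γ (i / K)) := by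
  classical
  have hV := h.nonneg
  obtain ⟨B, hB⟩ := ((ps_tendsto hΓ).eventually_gt_atTop (V / τ)).exists
  set Vm := V * Γ 0 with hVm
  have hΓ0 := hΓ.pos 0
  have hlim2 : Tendsto (fun m : ℕ => ((B : ℝ) + P.card) * Vm * (1 / Λ m)) atTop (𝓝 0) := by
    have := hlim.const_mul (((B : ℝ) + P.card) * Vm)
    simpa using this
  obtain ⟨m, hm1, hm2⟩ := (hdom.and (hlim2.eventually_lt_const (show (0 : ℝ) < ε / 2 by
    positivity))).exists
  obtain ⟨n, s, t, hF, hsum⟩ := hbad m
  have hn : n ≠ 0 := by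
    rintro rfl
    simp at hsum
    linarith
  have hne : Nonempty (Fin n) := ⟨⟨0, Nat.pos_of_ne_zero hn⟩⟩
  set v : Fin n → ℝ := fun i => |f (t i) - f (s i)| with hv
  have hv0 : ∀ i, 0 ≤ v i := fun i => abs_nonneg _
  have hvm : ∀ i, v i ≤ Vm := by
    intro i
    have := h.assign hab {i} s t (fun _ => 0) (by simp) (fun j _ => hF.1 j)
      (fun j _ k _ hjk => hF.2 j k hjk)
    rw [sum_singleton, div_le_iff₀ hΓ0] at this
    exact this
  have hz : Antitone (fun i => 1 / Λ i) := recip_anti hΛ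
  have hzm : ∀ i : ℕ, 1 / Λ (i + m) ≤ 1 / Λ m := fun i => hz (by omega)
  have hzp : ∀ i : ℕ, 0 < 1 / Λ i := recip_pos hΛ
  set Good : Finset (Fin n) := univ.filter (fun i => v i ≤ τ ∧ s i < t i ∧
    ∀ p ∈ P, ¬ (s i < p ∧ p < t i)) with hGood
  set Big : Finset (Fin n) := univ.filter (fun i => τ < v i) with hBig
  set Cr : Finset (Fin n) := univ.filter (fun i => ∃ p ∈ P, s i < p ∧ p < t i) with hCr
  have hBigc : (Big.card : ℝ) ≤ B := by
    obtain ⟨e, he1, he2, he3, he4⟩ := exists_sorted Big v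
    have h3 := h.assign hab (Finset.range Big.card) (fun k => s (e k)) (fun k => t (e k)) id
      (fun i _ j _ hij => hij) (fun i _ => hF.1 _) (fun i hi j hj hij => hF.2 _ _ (fun h' =>
        hij (he2 i (Finset.mem_range.1 hi) j (Finset.mem_range.1 hj) h')))
    have h4 : τ * ps (fun i => 1 / Γ i) Big.card ≤ V := by
      refine le_trans ?_ h3
      unfold ps
      rw [mul_sum]
      apply sum_le_sum
      intro k hk
      rw [mul_one_div]
      have := (mem_filter.1 (he1 k (Finset.mem_range.1 hk))).2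
      simp only [id]
      apply div_le_div_of_nonneg_right this.le (hΓ.pos k).le
    have h5 : Big.card ≤ B := by
      by_contra hlt
      push Not at hlt
      have h6 := ps_mono (fun i => (recip_pos hΓ i).le) hlt.le
      have h7 : V < τ * ps (fun i => 1 / Γ i) B := by
        rw [div_lt_iff₀ hτ] at hB; linarith
      nlinarith
    exact_mod_cast h5
  have hCrc : (Cr.card : ℝ) ≤ P.card := by
    have hch : ∀ i ∈ Cr, ∃ p ∈ P, s i < p ∧ p < t i := fun i hi => (mem_filter.1 hi).2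
    choose! g hg1 hg2 using hch
    have := card_le_card_of_injOn g hg1 (by
      intro i hi j hj hij
      by_contra hne'
      have a1 := hg2 i hi
      have a2 := hg2 j hj
      rw [hij] at a1
      rcases hF.2 i j hne' with h8 | h8
      · linarith [a1.1, a1.2, a2.1, a2.2]
      · linarith [a1.1, a1.2, a2.1, a2.2])
    exact_mod_cast this
  have hsplit : ∑ i : Fin n, v i / Λ (i + m) ≤ ∑ i ∈ Good, v i / Λ (i + m)
      + (∑ i ∈ Big, v i / Λ (i + m) + ∑ i ∈ Cr, v i / Λ (i + m)) := by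
    simp only [hGood, hBig, hCr, sum_filter]
    rw [← sum_add_distrib, ← sum_add_distrib]
    apply sum_le_sum
    intro i _
    have h9 : 0 ≤ v i / Λ (i + m) := div_nonneg (hv0 i) (hΛ.pos _).le
    by_cases c1 : τ < v i
    · rw [if_pos c1]
      have : 0 ≤ (if v i ≤ τ ∧ s i < t i ∧ ∀ p ∈ P, ¬ (s i < p ∧ p < t i) then v i / Λ (i + m) else 0) := by
        split_ifs <;> [exact h9; exact le_rfl]
      have : 0 ≤ (if ∃ p ∈ P, s i < p ∧ p < t i then v i / Λ (i + m) else 0) := by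
        split_ifs <;> [exact h9; exact le_rfl]
      linarith
    · by_cases c2 : ∃ p ∈ P, s i < p ∧ p < t i
      · rw [if_neg c1, if_pos c2]
        have : 0 ≤ (if v i ≤ τ ∧ s i < t i ∧ ∀ p ∈ P, ¬ (s i < p ∧ p < t i) then v i / Λ (i + m) else 0) := by
          split_ifs <;> [exact h9; exact le_rfl]
        linarith
      · rw [if_neg c1, if_neg c2]
        rcases (hF.1 i).2.1.eq_or_lt with h10 | h10
        · have : v i = 0 := by simp only [hv, h10, sub_self, abs_zero]
          rw [this]; simp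
        · rw [if_pos]
          · simp
          · refine ⟨not_lt.1 c1, h10, fun p hp hcon => c2 ⟨p, hp, hcon⟩⟩
  have hterm : ∀ i : Fin n, v i / Λ (i + m) ≤ Vm * (1 / Λ m) := by
    intro i
    rw [← mul_one_div]
    exact mul_le_mul (hvm i) (hzm i) (hzp _).le (by rw [hVm]; positivity)
  have hb1 : ∑ i ∈ Big, v i / Λ (i + m) ≤ B * (Vm * (1 / Λ m)) := by
    refine (sum_le_card_nsmul _ _ _ (fun i _ => hterm i)).trans ?_
    rw [nsmul_eq_mul]
    apply mul_le_mul_of_nonneg_right hBigc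
    have := hzp m
    rw [hVm]; positivity
  have hb2 : ∑ i ∈ Cr, v i / Λ (i + m) ≤ P.card * (Vm * (1 / Λ m)) := by
    refine (sum_le_card_nsmul _ _ _ (fun i _ => hterm i)).trans ?_
    rw [nsmul_eq_mul]
    apply mul_le_mul_of_nonneg_right hCrc
    have := hzp m
    rw [hVm]; positivity
  have hgood : ε / 2 ≤ ∑ i ∈ Good, v i / Λ (i + m) := by
    have : (B : ℝ) * (Vm * (1 / Λ m)) + P.card * (Vm * (1 / Λ m)) < ε / 2 := by
      calc _ = ((B : ℝ) + P.card) * Vm * (1 / Λ m) := by ring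
        _ < ε / 2 := hm2
    linarith
  obtain ⟨e, he1, he2, he3, he4⟩ := exists_sorted Good v
  set N := Good.card with hN
  refine ⟨(N, fun k => s (e k), fun k => t (e k)), fun i _ => hF.1 _, ?_, ?_, ?_, ?_⟩
  · intro i hi j hj hij
    exact hF.2 _ _ (fun h' => hij (he2 i hi j hj h'))
  · intro i hi
    exact (mem_filter.1 (he1 i hi)).2.2.2
  · intro i hi
    exact (mem_filter.1 (he1 i hi)).2.1
  · have h1 : ∑ i ∈ Good, v i / Λ (i + m) ≤ ∑ k ∈ Finset.range N, v (e k) * (1 / Λ (k + m)) := by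
      rw [he4]
      have := sorted_dom (z := fun i => 1 / Λ (i + m)) (fun i j hij => hz (by omega))
        (fun i => (hzp _).le) (N := N) (e := e) (v := v) (r := fun i => (i : ℕ))
        (fun k _ => hv0 _) he3 (fun k hk l hl hkl => he2 k hk l hl (Fin.ext hkl))
      refine le_trans (le_of_eq ?_) this
      apply sum_congr rfl; intro k _; rw [mul_one_div]
    have h2 := dom (a := fun k => v (e k)) (x := fun i => 1 / Λ (i + m))
      (z := fun i => D * (1 / Γ (i / K)) + c * (1 / Γ i)) (N := N) he3 (fun k _ => hv0 _)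
      (fun j _ => by
        have : ps (fun i => D * (1 / Γ (i / K)) + c * (1 / Γ i)) j
            = D * ps (fun i => 1 / Γ (i / K)) j + c * ps (fun i => 1 / Γ i) j := by
          unfold ps; rw [sum_add_distrib, mul_sum, mul_sum]
        rw [this]; exact hm1 j)
    have h3 := h.assign hab (Finset.range N) (fun k => s (e k)) (fun k => t (e k)) id
      (fun i _ j _ hij => hij) (fun i _ => hF.1 _) (fun i hi j hj hij => hF.2 _ _ (fun h' =>
        hij (he2 i (Finset.mem_range.1 hi) j (Finset.mem_range.1 hj) h')))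
    have e1 : ∑ k ∈ Finset.range N, v (e k) * (D * (1 / Γ (k / K)) + c * (1 / Γ k))
        = D * (∑ k ∈ Finset.range N, v (e k) * (1 / Γ (k / K)))
          + c * ∑ k ∈ Finset.range N, v (e k) / Γ (id k) := by
      rw [mul_sum, mul_sum, ← sum_add_distrib]
      apply sum_congr rfl; intro k _; simp only [id]; ring
    have h4 : ε / 2 ≤ D * (∑ k ∈ Finset.range N, v (e k) * (1 / Γ (k / K))) + c * V := by
      calc ε / 2 ≤ _ := hgood
        _ ≤ _ := h1
        _ ≤ _ := h2
        _ = _ := e1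
        _ ≤ _ := by gcongr
    rw [div_le_iff₀ (by positivity)]
    change ε ≤ (∑ k ∈ Finset.range N, v (e k) * (1 / Γ (k / K))) * (4 * D)
    linarith

end X92.GV
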