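import Pool.Agent.X92.GV4
open Set Filter Topology Finset

namespace X92.GV

variable {a b : ℝ} {Γ Λ : ℕ → ℝ} {f : ℝ → ℝ} {V : ℝ}

lemma recip_lim (hΓ : IsLam Γ) (hΛ : IsLam Λ) {C : ℝ} (hC0 : 0 < C)
    (hC : ∀ n, ps (fun i => 1 / Λ i) n ≤ C * ps (fun i => 1 / Γ i) n)
    (hcond : ∀ c > 0, ∃ δ > 0, ∃ n₀ : ℕ, ∀ n ≥ n₀,
      c * ps (fun i => 1 / Γ i) n ≤ ps (fun i => 1 / Λ i) n →
      ps (fun i => 1 / Γ i) (2 * n) ≤ (2 - δ) * ps (fun i => 1 / Γ i) n) :
    Tendsto (fun m : ℕ => 1 / Λ m) atTop (𝓝 0) := by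
  have hz := recip_anti hΛ
  have hy := recip_anti hΓ
  have key : ∀ ℓ > 0, ∃ i, 1 / Λ i < ℓ := by
    by_contra hcon
    push Not at hcon
    obtain ⟨ℓ, hℓ, hcon⟩ := hcon
    have hy0 : 0 < 1 / Γ 0 := recip_pos hΓ 0
    have hupper : ∀ n : ℕ, ps (fun i => 1 / Γ i) n ≤ n * (1 / Γ 0) := by
      intro n
      have := sum_le_card_nsmul (Finset.range n) (fun i => 1 / Γ i) (1 / Γ 0)
        (fun i _ => hy (Nat.zero_le i))
      simpa [ps] using this
    have hlower : ∀ n : ℕ, n * ℓ ≤ ps (fun i => 1 / Λ i) n := by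
      intro n
      have := card_nsmul_le_sum (Finset.range n) (fun i => 1 / Λ i) ℓ (fun i _ => hcon i)
      simpa [ps] using this
    set A := max 1 (C * (1 / Γ 0) / ℓ + 1) with hA
    obtain ⟨K, hK, n₀, hg⟩ := gain hy hz (fun i => recip_pos hΓ i) hcond
      (c := ℓ / (1 / Γ 0)) (A := A) (by positivity) (le_max_left _ _)
    set n := max n₀ 1 with hn
    have hΓ0 := (hΓ.pos 0).ne'
    have hn1 : (0 : ℝ) < n := by
      have : 1 ≤ n := le_max_right _ _
      exact_mod_cast this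
    have h1 := hg n (le_max_left _ _) (by
      calc ℓ / (1 / Γ 0) * ps (fun i => 1 / Γ i) n ≤ ℓ / (1 / Γ 0) * (n * (1 / Γ 0)) := by
            gcongr; exact hupper n
        _ = n * ℓ := by field_simp
        _ ≤ _ := hlower n)
    have h2 : (K : ℝ) * ps (fun i => 1 / Γ i) (n / K) ≤ n * (1 / Γ 0) := by
      calc (K : ℝ) * ps (fun i => 1 / Γ i) (n / K) ≤ K * (((n / K : ℕ) : ℝ) * (1 / Γ 0)) := by
            gcongr; exact hupper _
        _ = ((K * (n / K) : ℕ) : ℝ) * (1 / Γ 0) := by push_cast; ring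
        _ ≤ n * (1 / Γ 0) := by
            gcongr
            exact Nat.mul_div_le n K
    have h3 : n * ℓ ≤ C * ps (fun i => 1 / Γ i) n := (hlower n).trans (hC n)
    have h4 : A * (n * ℓ) ≤ C * (n * (1 / Γ 0)) := by
      calc A * (n * ℓ) ≤ A * (C * ps (fun i => 1 / Γ i) n) := by gcongr
        _ = C * (A * ps (fun i => 1 / Γ i) n) := by ring
        _ ≤ C * (n * (1 / Γ 0)) := by
          apply mul_le_mul_of_nonneg_left (h1.trans h2) hC0.le
    have h5 : A * ℓ ≤ C * (1 / Γ 0) := by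
      have : n * (A * ℓ) ≤ n * (C * (1 / Γ 0)) := by linarith
      exact le_of_mul_le_mul_left this hn1
    have h6 : C * (1 / Γ 0) / ℓ + 1 ≤ A := le_max_right _ _
    have h7 : (C * (1 / Γ 0) / ℓ + 1) * ℓ ≤ A * ℓ := by gcongr
    have h8 : (C * (1 / Γ 0) / ℓ + 1) * ℓ = C * (1 / Γ 0) + ℓ := by field_simp
    linarith
  rw [Metric.tendsto_atTop]
  intro ε hε
  obtain ⟨i, hi⟩ := key ε hε
  refine ⟨i, fun n hn => ?_⟩
  rw [Real.dist_eq, sub_zero, abs_of_pos (recip_pos hΛ n)]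
  exact (hz hn).trans_lt hi

/-- domination of the partial sums of the tails -/
lemma dominate (hΓ : IsLam Γ) (hΛ : IsLam Λ) {C : ℝ} (hC0 : 0 < C)
    (hC : ∀ n, ps (fun i => 1 / Λ i) n ≤ C * ps (fun i => 1 / Γ i) n)
    {c A : ℝ} (hc : 0 < c) (hA : 0 < A) {K n₀ : ℕ} (hK : 2 ≤ K)
    (hg : ∀ n ≥ n₀, c * ps (fun i => 1 / Γ i) n ≤ ps (fun i => 1 / Λ i) n →
      A * ps (fun i => 1 / Γ i) n ≤ K * ps (fun i => 1 / Γ i) (n / K))
    (hlim : Tendsto (fun m : ℕ => 1 / Λ m) atTop (𝓝 0)) :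
    ∀ᶠ m : ℕ in atTop, ∀ n, ps (fun i => 1 / Λ (i + m)) n
      ≤ (C / A) * ps (fun i => 1 / Γ (i / K)) n + c * ps (fun i => 1 / Γ i) n := by
  have hz := recip_anti hΛ
  have hy := recip_anti hΓ
  have hy0 : 0 < 1 / Γ 0 := recip_pos hΓ 0
  have hlim2 : Tendsto (fun m : ℕ => (n₀ : ℝ) * (1 / Λ m)) atTop (𝓝 0) := by
    have := hlim.const_mul (n₀ : ℝ)
    simpa using this
  filter_upwards [hlim2.eventually_lt_const (show (0 : ℝ) < c * (1 / Γ 0) by positivity)] with m hm n
  have hw0 : 0 ≤ ps (fun i => 1 / Γ (i / K)) n := ps_nonneg (fun i => (recip_pos hΓ _).le) n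
  have hyn : 0 ≤ ps (fun i => 1 / Γ i) n := ps_nonneg (fun i => (recip_pos hΓ _).le) n
  have hshift : ps (fun i => 1 / Λ (i + m)) n ≤ ps (fun i => 1 / Λ i) n := by
    unfold ps
    apply sum_le_sum
    intro i _
    exact hz (by omega)
  have hCA : 0 < C / A := by positivity
  rcases Nat.eq_zero_or_pos n with rfl | hn
  · simp
  rcases lt_or_ge n n₀ with h | h
  · have h1 : ps (fun i => 1 / Λ (i + m)) n ≤ n * (1 / Λ m) := by
      have := sum_le_card_nsmul (Finset.range n) (fun i => 1 / Λ (i + m)) (1 / Λ m)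
        (fun i _ => hz (by omega))
      simpa [ps] using this
    have h2 : (n : ℝ) * (1 / Λ m) ≤ n₀ * (1 / Λ m) := by
      have : (n : ℝ) ≤ n₀ := by exact_mod_cast h.le
      apply mul_le_mul_of_nonneg_right this (recip_pos hΛ m).le
    have h3 : 1 / Γ 0 ≤ ps (fun i => 1 / Γ i) n := by
      have := ps_mono (fun i => (recip_pos hΓ i).le) (show 1 ≤ n from hn)
      simpa [ps] using this
    have h4 : c * (1 / Γ 0) ≤ c * ps (fun i => 1 / Γ i) n := by gcongr
    have h5 := mul_nonneg hCA.le hw0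
    linarith
  · rcases le_or_gt (c * ps (fun i => 1 / Γ i) n) (ps (fun i => 1 / Λ i) n) with hgd | hgd
    · have h1 := hg n h hgd
      have h2 : (K : ℝ) * ps (fun i => 1 / Γ i) (n / K) ≤ ps (fun i => 1 / Γ (i / K)) n := by
        have := sum_div_block (fun i => 1 / Γ i) (show 0 < K by omega) (n / K)
        unfold ps
        rw [← this]
        apply sum_le_sum_of_subset_of_nonneg
        · exact Finset.range_mono (Nat.mul_div_le n K)
        · intro i _ _; exact (recip_pos hΓ _).le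
      have h3 : C * ps (fun i => 1 / Γ i) n ≤ (C / A) * ps (fun i => 1 / Γ (i / K)) n := by
        calc C * ps (fun i => 1 / Γ i) n = (C / A) * (A * ps (fun i => 1 / Γ i) n) := by
              field_simp
          _ ≤ (C / A) * ps (fun i => 1 / Γ (i / K)) n := by
              apply mul_le_mul_of_nonneg_left (h1.trans h2) hCA.le
      have h4 := mul_nonneg hc.le hyn
      linarith [hC n]
    · have h5 := mul_nonneg hCA.le hw0
      linarith

lemma loss (hΓ : IsLam Γ) {K : ℕ} (hK : 0 < K) (N O : ℕ) :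
    ∑ i ∈ Finset.range N, (1 / Γ (i / K) - 1 / Γ (O + i / K)) ≤ K * ps (fun i => 1 / Γ i) O := by
  have hy := recip_anti hΓ
  have h0 : ∀ q, 0 ≤ 1 / Γ q - 1 / Γ (O + q) := fun q => by
    have := hy (show q ≤ O + q by omega)
    simp only at this
    linarith
  calc ∑ i ∈ Finset.range N, (1 / Γ (i / K) - 1 / Γ (O + i / K))
      ≤ ∑ i ∈ Finset.range (K * N), (1 / Γ (i / K) - 1 / Γ (O + i / K)) := by
        apply sum_le_sum_of_subset_of_nonneg
        · exact Finset.range_mono (Nat.le_mul_of_pos_left N hK)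
        · intro i _ _; exact h0 _
    _ = K * ∑ q ∈ Finset.range N, (1 / Γ q - 1 / Γ (O + q)) :=
        sum_div_block (fun q => 1 / Γ q - 1 / Γ (O + q)) hK N
    _ ≤ K * ps (fun i => 1 / Γ i) O := by
        apply mul_le_mul_of_nonneg_left _ (by positivity)
        rw [sum_sub_distrib]
        have h1 : ∑ q ∈ Finset.range N, 1 / Γ (O + q)
            = ps (fun i => 1 / Γ i) (O + N) - ps (fun i => 1 / Γ i) O := by
          unfold ps; rw [sum_range_add_sub_sum_range]
        have h2 : ps (fun i => 1 / Γ i) N ≤ ps (fun i => 1 / Γ i) (O + N) :=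
          ps_mono (fun i => (recip_pos hΓ i).le) (by omega)
        rw [h1]
        unfold ps at h2 ⊢
        linarith

/-- the combinatorial core -/
lemma core (hab : a ≤ b) (hΓ : IsLam Γ) (h : Bdd a b Γ f V) {K : ℕ} (hK : 2 ≤ K) {η : ℝ}
    (hη : 0 < η)
    (hfine : ∀ τ : ℝ, 0 < τ → ∀ P : Finset ℝ, ∃ q : ℕ × (ℕ → ℝ) × (ℕ → ℝ),
      (∀ i < q.1, a ≤ q.2.1 i ∧ q.2.1 i ≤ q.2.2 i ∧ q.2.2 i ≤ b) ∧
      (∀ i < q.1, ∀ j < q.1, i ≠ j → q.2.2 i ≤ q.2.1 j ∨ q.2.2 j ≤ q.2.1 i) ∧
      (∀ i < q.1, ∀ p ∈ P, ¬ (q.2.1 i < p ∧ p < q.2.2 i)) ∧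
      (∀ i < q.1, |f (q.2.2 i) - f (q.2.1 i)| ≤ τ) ∧
      η ≤ ∑ i ∈ Finset.range q.1, |f (q.2.2 i) - f (q.2.1 i)| * (1 / Γ (i / K))) :
    η / 12 ≤ V := by
  classical
  have hy0 : ∀ i, 0 ≤ 1 / Γ i := fun i => (recip_pos hΓ i).le
  have hKR : (2 : ℝ) ≤ K := by exact_mod_cast hK
  -- choose families depending on offset and point set
  set τ : ℕ → ℝ := fun O => η / (2 * (K * ps (fun i => 1 / Γ i) O + 1)) with hτ
  have hps : ∀ O, 0 ≤ ps (fun i => 1 / Γ i) O := fun O => ps_nonneg hy0 O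
  have hτ0 : ∀ O, 0 < τ O := fun O => by
    have := hps O
    simp only [hτ]; positivity
  have hch : ∀ (O : ℕ) (P : Finset ℝ), ∃ q : ℕ × (ℕ → ℝ) × (ℕ → ℝ),
      (∀ i < q.1, a ≤ q.2.1 i ∧ q.2.1 i ≤ q.2.2 i ∧ q.2.2 i ≤ b) ∧
      (∀ i < q.1, ∀ j < q.1, i ≠ j → q.2.2 i ≤ q.2.1 j ∨ q.2.2 j ≤ q.2.1 i) ∧
      (∀ i < q.1, ∀ p ∈ P, ¬ (q.2.1 i < p ∧ p < q.2.2 i)) ∧
      (∀ i < q.1, |f (q.2.2 i) - f (q.2.1 i)| ≤ τ O) ∧
      η ≤ ∑ i ∈ Finset.range q.1, |f (q.2.2 i) - f (q.2.1 i)| * (1 / Γ (i / K)) :=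
    fun O P => hfine (τ O) (hτ0 O) P
  choose Q hQ1 hQ2 hQ3 hQ4 hQ5 using hch
  let st : ℕ → ℕ × Finset ℝ := fun j => Nat.rec (0, ∅) (fun _ x =>
    (x.1 + (Q x.1 x.2).1, x.2 ∪ ((Finset.range (Q x.1 x.2).1).image (Q x.1 x.2).2.1 ∪
      (Finset.range (Q x.1 x.2).1).image (Q x.1 x.2).2.2))) j
  have hst : ∀ j, st (j + 1) = ((st j).1 + (Q (st j).1 (st j).2).1,
      (st j).2 ∪ ((Finset.range (Q (st j).1 (st j).2).1).image (Q (st j).1 (st j).2).2.1 ∪
      (Finset.range (Q (st j).1 (st j).2).1).image (Q (st j).1 (st j).2).2.2)) := fun j => rfl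
  set O : ℕ → ℕ := fun j => (st j).1 with hO
  set P : ℕ → Finset ℝ := fun j => (st j).2 with hP
  set N : ℕ → ℕ := fun j => (Q (O j) (P j)).1 with hN
  set s : ℕ → ℕ → ℝ := fun j => (Q (O j) (P j)).2.1 with hs
  set t : ℕ → ℕ → ℝ := fun j => (Q (O j) (P j)).2.2 with ht
  have hOs : ∀ j, O (j + 1) = O j + N j := fun j => by simp only [hO, hN, hst, hP]
  have hPs : ∀ j, P (j + 1) = P j ∪ ((Finset.range (N j)).image (s j) ∪
      (Finset.range (N j)).image (t j)) := fun j => by simp only [hP, hN, hs, ht, hst, hO]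
  have hOm : ∀ j' j, j' < j → O j' + N j' ≤ O j := by
    intro j' j hj
    induction j, hj using Nat.le_induction with
    | base => rw [← hOs]
    | succ j _ ih => rw [hOs]; omega
  have hPm : ∀ j' j, j' < j → (∀ i < N j', s j' i ∈ P j) ∧ ∀ i < N j', t j' i ∈ P j := by
    intro j' j hj
    induction j, hj using Nat.le_induction with
    | base =>
      rw [hPs]
      constructor
      · intro i hi
        exact Finset.mem_union_right _ (Finset.mem_union_left _
          (Finset.mem_image_of_mem _ (Finset.mem_range.2 hi)))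
      · intro i hi
        exact Finset.mem_union_right _ (Finset.mem_union_right _
          (Finset.mem_image_of_mem _ (Finset.mem_range.2 hi)))
    | succ j _ ih =>
      rw [hPs]
      exact ⟨fun i hi => Finset.mem_union_left _ (ih.1 i hi),
        fun i hi => Finset.mem_union_left _ (ih.2 i hi)⟩
  set v : ℕ → ℕ → ℝ := fun j i => |f (t j i) - f (s j i)| with hv
  have hv0 : ∀ j i, 0 ≤ v j i := fun j i => abs_nonneg _
  -- weights
  have hω : ∀ j, η / 2 ≤ ∑ i ∈ Finset.range (N j), v j i * (1 / Γ (O j + i / K)) := by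
    intro j
    have h1 : η ≤ ∑ i ∈ Finset.range (N j), v j i * (1 / Γ (i / K)) := hQ5 (O j) (P j)
    have h2 : ∑ i ∈ Finset.range (N j), v j i * (1 / Γ (i / K))
        - ∑ i ∈ Finset.range (N j), v j i * (1 / Γ (O j + i / K)) ≤ η / 2 := by
      rw [← sum_sub_distrib]
      calc ∑ i ∈ Finset.range (N j), (v j i * (1 / Γ (i / K)) - v j i * (1 / Γ (O j + i / K)))
          ≤ ∑ i ∈ Finset.range (N j), τ (O j) * (1 / Γ (i / K) - 1 / Γ (O j + i / K)) := by
            apply sum_le_sum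
            intro i hi
            rw [← mul_sub]
            apply mul_le_mul_of_nonneg_right (hQ4 (O j) (P j) i (Finset.mem_range.1 hi))
            have := recip_anti hΓ (show i / K ≤ O j + i / K by omega)
            simp only at this
            linarith
        _ = τ (O j) * ∑ i ∈ Finset.range (N j), (1 / Γ (i / K) - 1 / Γ (O j + i / K)) := by
            rw [mul_sum]
        _ ≤ τ (O j) * (K * ps (fun i => 1 / Γ i) (O j)) := by
            apply mul_le_mul_of_nonneg_left (loss hΓ (by omega) _ _) (hτ0 _).le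
        _ ≤ η / 2 := by
            simp only [hτ]
            have := hps (O j)
            rw [div_mul_eq_mul_div, div_le_div_iff₀ (by positivity) (by norm_num)]
            nlinarith [mul_nonneg (by positivity : (0 : ℝ) ≤ K) this]
    linarith
  obtain ⟨S, hS1, hS2, hS3, hS4⟩ := select (M := K) (by omega) (K / 2)
    (fun j => Finset.range (N j)) (fun j i => v j i * (1 / Γ (O j + i / K)))
    (fun j i => mul_nonneg (hv0 j i) (hy0 _))
    (fun j' i' j i => s j' i' < t j i ∧ s j i < t j' i') (by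
      intro j' j hj i hi i1 hi1 i2 hi2 h1 h2
      rw [Finset.mem_range] at hi hi1 hi2
      by_contra hne
      have hm := hPm j' j hj
      rcases hQ2 (O j') (P j') i1 hi1 i2 hi2 hne with h3 | h3
      · apply hQ3 (O j) (P j) i hi (t j' i1) (hm.2 i1 hi1)
        exact ⟨h1.2, lt_of_le_of_lt h3 h2.1⟩
      · apply hQ3 (O j) (P j) i hi (t j' i2) (hm.2 i2 hi2)
        exact ⟨h2.2, lt_of_le_of_lt h3 h1.1⟩)
  -- the union of the selected families
  have hassign := h.assign hab ((Finset.range (K / 2)).sigma S) (fun x => s x.1 x.2)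
    (fun x => t x.1 x.2) (fun x => O x.1 + x.2 / K) (by
      rintro ⟨j, i⟩ hji ⟨j', i'⟩ hji' heq
      rw [Finset.mem_coe, Finset.mem_sigma] at hji hji'
      have heq0 : O j + i / K = O j' + i' / K := heq
      have hi := Finset.mem_range.1 (hS1 j hji.2)
      have hi' := Finset.mem_range.1 (hS1 j' hji'.2)
      have hd : i / K ≤ i := Nat.div_le_self i K
      have hd' : i' / K ≤ i' := Nat.div_le_self i' K
      rcases lt_trichotomy j j' with hlt | heq' | hlt
      · have h20 := hOm j j' hlt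
        have hi0 : i < N j := hi
        have h21 : O j + i / K < O j' :=
          lt_of_lt_of_le (Nat.add_lt_add_left (lt_of_le_of_lt hd hi0) _) h20
        exact absurd heq0 (ne_of_lt (lt_of_lt_of_le h21 (Nat.le_add_right _ _)))
      · subst heq'
        have h5 := hS2 j i hji.2 i' hji'.2
        have h6 : i / K = i' / K := by omega
        have h7 : i = i' := by
          rw [← Nat.div_add_mod i K, ← Nat.div_add_mod i' K, h5, h6]
        rw [h7]
      · have h20 := hOm j' j hlt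
        have hi0 : i' < N j' := hi'
        have h21 : O j' + i' / K < O j :=
          lt_of_lt_of_le (Nat.add_lt_add_left (lt_of_le_of_lt hd' hi0) _) h20
        exact absurd heq0.symm (ne_of_lt (lt_of_lt_of_le h21 (Nat.le_add_right _ _)))) (by
      rintro ⟨j, i⟩ hji
      rw [Finset.mem_sigma] at hji
      exact hQ1 (O j) (P j) i (Finset.mem_range.1 (hS1 j hji.2))) (by
      rintro ⟨j, i⟩ hji ⟨j', i'⟩ hji' hne
      rw [Finset.mem_sigma] at hji hji'
      have hi := Finset.mem_range.1 (hS1 j hji.2)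
      have hi' := Finset.mem_range.1 (hS1 j' hji'.2)
      rcases lt_trichotomy j j' with hlt | heq' | hlt
      · have := hS3 j j' hlt (Finset.mem_range.1 hji'.1) i hji.2 i' hji'.2
        rw [not_and_or, not_lt, not_lt] at this
        simp only
        tauto
      · subst heq'
        apply hQ2 (O j) (P j) i hi i' hi'
        rintro rfl
        exact hne rfl
      · have := hS3 j' j hlt (Finset.mem_range.1 hji.1) i' hji'.2 i hji.2
        rw [not_and_or, not_lt, not_lt] at this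
        simp only
        tauto)
  rw [Finset.sum_sigma] at hassign
  have h8 : ∑ j ∈ Finset.range (K / 2), ∑ i ∈ S j, v j i * (1 / Γ (O j + i / K)) ≤ V := by
    refine le_trans (le_of_eq ?_) hassign
    apply sum_congr rfl; intro j _
    apply sum_congr rfl; intro i _
    rw [mul_one_div]
  have h9 : ∀ j ∈ Finset.range (K / 2), (1 / K : ℝ) * (1 / 2) * (η / 2)
      ≤ (1 / K : ℝ) * (1 - 1 / K) ^ j * ∑ i ∈ Finset.range (N j), v j i * (1 / Γ (O j + i / K)) := by
    intro j hj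
    rw [Finset.mem_range] at hj
    have hB := one_add_mul_le_pow (show (-2 : ℝ) ≤ -(1 / K) by
      have : (1 : ℝ) / K ≤ 1 := by rw [div_le_one (by linarith)]; linarith
      linarith) j
    have hjK : (j : ℝ) * (1 / K) ≤ 1 / 2 := by
      have : 2 * j ≤ K := by omega
      have h2 : (2 : ℝ) * j ≤ K := by exact_mod_cast this
      rw [mul_one_div, div_le_div_iff₀ (by linarith) (by norm_num)]
      linarith
    have h10 : (1 / 2 : ℝ) ≤ (1 - 1 / K) ^ j := by
      have e : (1 : ℝ) + -(1 / K) = 1 - 1 / K := by ring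
      rw [e] at hB
      linarith
    have h11 := hω j
    have h12 : (0 : ℝ) < 1 / K := by positivity
    gcongr
  have h13 := sum_le_sum h9
  simp only [sum_const, card_range, nsmul_eq_mul] at h13
  have h14 : (1 / 3 : ℝ) ≤ ((K / 2 : ℕ) : ℝ) * (1 / K) := by
    have : K ≤ 3 * (K / 2) := by omega
    have h2 : (K : ℝ) ≤ 3 * ((K / 2 : ℕ) : ℝ) := by exact_mod_cast this
    rw [mul_one_div, div_le_div_iff₀ (by norm_num) (by linarith)]
    linarith
  have h15 : η / 12 ≤ ((K / 2 : ℕ) : ℝ) * ((1 / K : ℝ) * (1 / 2) * (η / 2)) := by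
    have : ((K / 2 : ℕ) : ℝ) * ((1 / K : ℝ) * (1 / 2) * (η / 2))
        = (((K / 2 : ℕ) : ℝ) * (1 / K)) * (η / 4) := by ring
    rw [this]
    nlinarith
  linarith

theorem suff (hab : a ≤ b) (hΓ : IsLam Γ) (hΛ : IsLam Λ) {C : ℝ}
    (hC : ∀ n, ps (fun i => 1 / Λ i) n ≤ C * ps (fun i => 1 / Γ i) n)
    (hcond : ∀ c > 0, ∃ δ > 0, ∃ n₀ : ℕ, ∀ n ≥ n₀,
      c * ps (fun i => 1 / Γ i) n ≤ ps (fun i => 1 / Λ i) n →
      ps (fun i => 1 / Γ i) (2 * n) ≤ (2 - δ) * ps (fun i => 1 / Γ i) n)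
    (hf : f ∈ BV a b Γ) : f ∈ BVc a b Λ := by
  obtain ⟨V, h⟩ := mem_BV_iff.1 hf
  have hV := h.nonneg
  have hC0 : 0 < C := by
    have := hC 1
    simp only [ps, Finset.sum_range_one] at this
    by_contra hneg
    push Not at hneg
    nlinarith [recip_pos hΓ 0, recip_pos hΛ 0]
  have hlim := recip_lim hΓ hΛ hC0 hC hcond
  refine ⟨mem_BV_iff.2 ⟨_, bdd_of_O hab hΓ hΛ hC h⟩, ?_⟩
  have key : ∀ ε : ℝ, 0 < ε → ∃ m : ℕ, Bdd a b (fun i => Λ (i + m)) f ε := by
    intro ε hε
    by_contra hcon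
    push Not at hcon
    have hbad : ∀ m : ℕ, ∃ (n : ℕ) (s t : Fin n → ℝ), Fam a b s t ∧
        ε < ∑ i : Fin n, |f (t i) - f (s i)| / Λ (i + m) := by
      intro m
      have := hcon m
      unfold Bdd at this
      push Not at this
      exact this
    set c := ε / (4 * (V + 1)) with hc
    have hc0 : 0 < c := by positivity
    have hcV : c * V ≤ ε / 4 := by
      rw [hc, div_mul_eq_mul_div, div_le_div_iff₀ (by positivity) (by norm_num)]
      nlinarith
    set A := max 1 (48 * C * (V + 1) / ε) with hA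
    have hA1 : 1 ≤ A := le_max_left _ _
    have hA2 : 48 * C * (V + 1) / ε ≤ A := le_max_right _ _
    obtain ⟨K, hK, n₀, hg⟩ := gain (recip_anti hΓ) (recip_anti hΛ) (fun i => recip_pos hΓ i) hcond
      hc0 hA1
    have hdom := dominate hΓ hΛ hC0 hC hc0 (by linarith) hK hg hlim
    have hD : 0 < C / A := by positivity
    have hres := core hab hΓ h hK (η := ε / (4 * (C / A))) (by positivity)
      (fun τ hτ P => fine hab hΓ hΛ h hD hcV hε hdom hlim hc0.le hbad hτ P)
    have : V + 1 ≤ ε / (4 * (C / A)) / 12 := by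
      have e : ε / (4 * (C / A)) / 12 = A * (ε / (48 * C)) := by field_simp; ring
      rw [e]
      calc V + 1 = (48 * C * (V + 1) / ε) * (ε / (48 * C)) := by field_simp
        _ ≤ A * (ε / (48 * C)) := by gcongr
    linarith
  rw [ENNReal.tendsto_atTop_zero]
  intro ε hε
  by_cases htop : ε = ⊤
  · exact ⟨0, fun n _ => by rw [htop]; exact le_top⟩
  have hε' : 0 < ε.toReal := ENNReal.toReal_pos hε.ne' htop
  obtain ⟨m, hm⟩ := key ε.toReal hε'
  refine ⟨m, fun n hn => ?_⟩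
  rw [← ENNReal.ofReal_toReal htop]
  apply Var_le
  intro k s t hF
  refine le_trans ?_ (hm k s t hF)
  apply sum_le_sum
  intro i _
  apply div_le_div_of_nonneg_left (abs_nonneg _) (hΛ.pos _) (hΛ.mono (by omega))

end X92.GV
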