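import Pool.Agent.X92.GV3
open Set Filter Topology Finset MeasureTheory

namespace X92.GV

/-- distance to the nearest integer -/
noncomputable def psi (x : ℝ) : ℝ := |x - round x|

lemma psi_nonneg (x : ℝ) : 0 ≤ psi x := abs_nonneg _
lemma psi_le (x : ℝ) : psi x ≤ 1 / 2 := abs_sub_round x

lemma psi_sub_le (x y : ℝ) : psi x - psi y ≤ |x - y| := by
  unfold psi
  have h1 : |x - round x| ≤ |x - round y| := round_le x (round y)
  have h2 : |x - round y| ≤ |x - y| + |y - round y| := abs_sub_le _ _ _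
  linarith

lemma psi_lip (x y : ℝ) : |psi x - psi y| ≤ |x - y| := by
  rw [abs_le]
  constructor
  · have := psi_sub_le y x
    rw [abs_sub_comm] at this
    linarith
  · exact psi_sub_le x y

lemma psi_diff (x y : ℝ) : |psi x - psi y| ≤ 1 / 2 := by
  rw [abs_le]
  constructor <;> linarith [psi_nonneg x, psi_nonneg y, psi_le x, psi_le y]

lemma psi_nat (j : ℕ) : psi j = 0 := by
  unfold psi; simp

lemma psi_half (j : ℕ) : psi (j + 1 / 2) = 1 / 2 := by
  unfold psi
  have : round ((j : ℝ) + 1 / 2) = (j : ℤ) + 1 := by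
    rw [round_eq]
    rw [show (j : ℝ) + 1 / 2 + 1 / 2 = ((j + 1 : ℤ) : ℝ) by push_cast; ring]
    exact Int.floor_intCast _
  rw [this]
  push_cast
  rw [show (j : ℝ) + 1 / 2 - (j + 1) = -(1 / 2) by ring, abs_neg, abs_of_pos (by norm_num)]

/-- data of a lacunary sum of zigzags -/
structure Zig (h : ℕ → ℝ) (n : ℕ → ℕ) : Prop where
  npos : ∀ k, 0 < n k
  hpos : ∀ k, 0 < h k
  H1 : ∀ k, h (k + 1) ≤ h k / 16
  H2 : ∀ k, 16 * (h k * n k) ≤ h (k + 1) * n (k + 1)

variable {h : ℕ → ℝ} {n : ℕ → ℕ}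

lemma Zig.h_le (z : Zig h n) (k j : ℕ) : h (k + j) ≤ h k * (1 / 16) ^ j := by
  induction j with
  | zero => simp
  | succ j ih =>
    have := z.H1 (k + j)
    rw [← add_assoc, pow_succ]
    linarith

lemma Zig.summ (z : Zig h n) (k : ℕ) : Summable (fun j => h (k + j)) :=
  Summable.of_nonneg_of_le (fun j => (z.hpos _).le) (z.h_le k)
    ((summable_geometric_of_lt_one (by norm_num) (by norm_num)).mul_left _)

lemma Zig.tsum_le (z : Zig h n) (k : ℕ) : ∑' j, h (k + j) ≤ 16 / 15 * h k := by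
  have := (z.summ k).tsum_le_tsum (z.h_le k)
    ((summable_geometric_of_lt_one (by norm_num) (by norm_num)).mul_left _)
  rw [tsum_mul_left, tsum_geometric_of_lt_one (by norm_num) (by norm_num)] at this
  refine this.trans (le_of_eq ?_)
  norm_num
  ring

lemma Zig.low (z : Zig h n) (k : ℕ) : ∑ j ∈ Finset.range k, h j * n j ≤ h k * n k / 15 := by
  induction k with
  | zero =>
    have := z.hpos 0
    simp
    positivity
  | succ k ih =>
    rw [sum_range_succ]
    have := z.H2 k
    linarith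

noncomputable def F (h : ℕ → ℝ) (n : ℕ → ℕ) (x : ℝ) : ℝ := ∑' k, h k * psi (n k * x)

lemma Zig.summF (z : Zig h n) (x : ℝ) : Summable (fun k => h k * psi (n k * x)) := by
  have hs : Summable h := by simpa using z.summ 0
  refine Summable.of_nonneg_of_le (fun k => mul_nonneg (z.hpos k).le (psi_nonneg _)) (fun k => ?_) hs
  have h1 := psi_le (n k * x)
  have h2 := z.hpos k
  nlinarith

/-- the decomposition of a difference -/
lemma Zig.diff (z : Zig h n) (k : ℕ) (x y : ℝ) :
    ∃ r : ℝ, |r| ≤ 8 / 15 * h k ∧ F h n x - F h n y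
      = ∑ j ∈ Finset.range k, h j * (psi (n j * x) - psi (n j * y)) + r := by
  refine ⟨∑' j, h (j + k) * psi (n (j + k) * x) - ∑' j, h (j + k) * psi (n (j + k) * y), ?_, ?_⟩
  · have s1 : Summable (fun j => h (j + k) * psi (n (j + k) * x)) :=
      (summable_nat_add_iff k).2 (z.summF x)
    have s2 : Summable (fun j => h (j + k) * psi (n (j + k) * y)) :=
      (summable_nat_add_iff k).2 (z.summF y)
    rw [← s1.tsum_sub s2]
    have s3 : Summable (fun j => h (k + j) * (1 / 2)) := (z.summ k).mul_right _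
    have hb : ∀ j, ‖h (j + k) * psi (n (j + k) * x) - h (j + k) * psi (n (j + k) * y)‖
        ≤ h (k + j) * (1 / 2) := by
      intro j
      rw [← mul_sub, Real.norm_eq_abs, abs_mul, abs_of_pos (z.hpos _), add_comm j k]
      exact mul_le_mul_of_nonneg_left (psi_diff _ _) (z.hpos _).le
    have := tsum_of_norm_bounded s3.hasSum hb
    rw [Real.norm_eq_abs] at this
    refine this.trans ?_
    rw [tsum_mul_right]
    linarith [z.tsum_le k]
  · unfold F
    rw [← (z.summF x).sum_add_tsum_nat_add k, ← (z.summF y).sum_add_tsum_nat_add k]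
    simp only [mul_sub, sum_sub_distrib]
    ring

lemma Zig.ub0 (z : Zig h n) (x y : ℝ) : |F h n x - F h n y| ≤ h 0 := by
  obtain ⟨r, hr, e⟩ := z.diff 0 x y
  rw [e]
  simp only [Finset.range_zero, Finset.sum_empty, zero_add]
  linarith [z.hpos 0]

lemma Zig.lowdiff (z : Zig h n) (k : ℕ) (x y : ℝ) :
    |∑ j ∈ Finset.range k, h j * (psi (n j * x) - psi (n j * y))| ≤ (h k * n k / 15) * |x - y| := by
  refine (abs_sum_le_sum_abs _ _).trans ?_
  calc ∑ j ∈ Finset.range k, |h j * (psi (n j * x) - psi (n j * y))|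
      ≤ ∑ j ∈ Finset.range k, h j * n j * |x - y| := by
        apply sum_le_sum
        intro j _
        rw [abs_mul, abs_of_pos (z.hpos j), mul_assoc]
        apply mul_le_mul_of_nonneg_left _ (z.hpos j).le
        refine (psi_lip _ _).trans (le_of_eq ?_)
        rw [← mul_sub, abs_mul, Nat.abs_cast]
    _ = (∑ j ∈ Finset.range k, h j * n j) * |x - y| := by rw [sum_mul]
    _ ≤ _ := mul_le_mul_of_nonneg_right (z.low k) (abs_nonneg _)

lemma Zig.ub (z : Zig h n) (k : ℕ) (x y : ℝ) :
    |F h n x - F h n y| ≤ 2 * (h k * (n k * |x - y|)) + h (k + 1) := by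
  obtain ⟨r, hr, e⟩ := z.diff (k + 1) x y
  rw [e, sum_range_succ]
  have h1 := z.lowdiff k x y
  have h2 : |h k * (psi (n k * x) - psi (n k * y))| ≤ h k * (n k * |x - y|) := by
    rw [abs_mul, abs_of_pos (z.hpos k)]
    apply mul_le_mul_of_nonneg_left _ (z.hpos k).le
    refine (psi_lip _ _).trans (le_of_eq ?_)
    rw [← mul_sub, abs_mul, Nat.abs_cast]
  have h3 : 0 ≤ h k * (n k * |x - y|) := by
    have := z.hpos k
    positivity
  have h4 := z.hpos (k + 1)
  have h5 := abs_add_le (∑ j ∈ Finset.range k, h j * (psi (n j * x) - psi (n j * y))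
    + h k * (psi (n k * x) - psi (n k * y))) r
  have h6 := abs_add_le (∑ j ∈ Finset.range k, h j * (psi (n j * x) - psi (n j * y)))
    (h k * (psi (n k * x) - psi (n k * y)))
  have h7 : h k * n k / 15 * |x - y| = (h k * (n k * |x - y|)) / 15 := by ring
  rw [h7] at h1
  linarith

lemma Zig.lb (z : Zig h n) (k j : ℕ) :
    h k / 4 ≤ |F h n ((j + 1 / 2) / n k) - F h n (j / n k)| := by
  have hn : (0 : ℝ) < n k := by exact_mod_cast z.npos k
  obtain ⟨r, hr, e⟩ := z.diff (k + 1) ((j + 1 / 2) / n k) (j / n k)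
  rw [e, sum_range_succ]
  have h1 := z.lowdiff k ((j + 1 / 2) / n k) (j / n k)
  have h2 : |((j : ℝ) + 1 / 2) / n k - j / n k| = 1 / (2 * n k) := by
    rw [← sub_div, show (j : ℝ) + 1 / 2 - j = 1 / 2 by ring, abs_of_pos (by positivity)]
    field_simp
  rw [h2] at h1
  have h3 : h k * n k / 15 * (1 / (2 * n k)) = h k / 30 := by field_simp; ring
  rw [h3] at h1
  have h4 : (n k : ℝ) * ((j + 1 / 2) / n k) = j + 1 / 2 := by field_simp
  have h5 : (n k : ℝ) * (j / n k) = j := by field_simp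
  rw [h4, h5, psi_half, psi_nat, sub_zero]
  have h6 := z.H1 k
  have h7 := abs_le.1 h1
  have h8 := abs_le.1 hr
  refine le_trans ?_ (le_abs_self _)
  have := z.hpos k
  linarith [h7.1, h8.1]

lemma Zig.n_ge (z : Zig h n) (k : ℕ) : 4 ^ k ≤ n k := by
  induction k with
  | zero => exact z.npos 0
  | succ k ih =>
    have h1 := z.H2 k
    have h2 := z.H1 k
    have h3 := z.hpos k
    have h4 := z.hpos (k + 1)
    have hn : (0 : ℝ) < n k := by exact_mod_cast z.npos k
    have hn' : (0 : ℝ) < n (k + 1) := by exact_mod_cast z.npos (k + 1)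
    have h5 : (4 : ℝ) * n k ≤ n (k + 1) := by
      have : h (k + 1) * (4 * n k) ≤ h (k + 1) * n (k + 1) := by nlinarith
      exact le_of_mul_le_mul_left this h4
    have h6 : 4 * n k ≤ n (k + 1) := by exact_mod_cast h5
    calc 4 ^ (k + 1) = 4 * 4 ^ k := by ring
      _ ≤ 4 * n k := by gcongr
      _ ≤ _ := h6

/-- total length of a nonoverlapping family -/
lemma length_le {a b : ℝ} (hab : a ≤ b) {N : ℕ} {s t : Fin N → ℝ} (hF : Fam a b s t) :
    ∑ i, (t i - s i) ≤ b - a := by
  have h1 : volume (⋃ i ∈ (univ : Finset (Fin N)), Ioo (s i) (t i))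
      = ∑ i ∈ (univ : Finset (Fin N)), volume (Ioo (s i) (t i)) := by
    apply measure_biUnion_finset
    · intro i _ j _ hij
      rw [Function.onFun, Set.disjoint_left]
      intro x hx hx'
      rcases hF.2 i j hij with h | h
      · linarith [hx.2, hx'.1]
      · linarith [hx.1, hx'.2]
    · intro i _; exact measurableSet_Ioo
  have h2 : volume (⋃ i ∈ (univ : Finset (Fin N)), Ioo (s i) (t i)) ≤ volume (Icc a b) := by
    apply measure_mono
    intro x hx
    simp only [mem_iUnion] at hx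
    obtain ⟨i, _, hx⟩ := hx
    exact ⟨by linarith [(hF.1 i).1, hx.1], by linarith [(hF.1 i).2.2, hx.2]⟩
  rw [h1, Real.volume_Icc] at h2
  simp only [Real.volume_Ioo] at h2
  rw [← ENNReal.ofReal_sum_of_nonneg (fun i _ => by linarith [(hF.1 i).2.1])] at h2
  exact (ENNReal.ofReal_le_ofReal_iff (by linarith)).1 h2

end X92.GV
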