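import Pool.Agent.X92.GV6
open Set Filter Topology Finset MeasureTheory

namespace X92.GV

variable {h : ℕ → ℝ} {n : ℕ → ℕ}

lemma zig_sum {y : ℕ → ℝ} (hy : Antitone y) (hy0 : ∀ i, 0 ≤ y i) (z : Zig h n)
    (Hq : ∀ k, ∀ q ≤ n k, h k * ps y q ≤ q / n k + (1 / 4) ^ k) {N : ℕ} {v ℓ : ℕ → ℝ}
    (hℓ0 : ∀ i, 0 ≤ ℓ i) (hℓ1 : ∑ i ∈ Finset.range N, ℓ i ≤ 1)
    (hU0 : ∀ i, v i ≤ h 0) (hUk : ∀ i k, v i ≤ 2 * (h k * (n k * ℓ i)) + h (k + 1))
    (hz : ∀ i, ℓ i = 0 → v i = 0) : ∑ i ∈ Finset.range N, v i * y i ≤ 50 := by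
  classical
  set Pos := (Finset.range N).filter (fun i => 0 < ℓ i) with hPos
  have hex : ∀ i ∈ Pos, ∃ k, 1 ≤ n k * ℓ i := by
    intro i hi
    have hi0 := (mem_filter.1 hi).2
    obtain ⟨k, hk⟩ := pow_unbounded_of_one_lt (1 / ℓ i) (by norm_num : (1 : ℝ) < 4)
    refine ⟨k, ?_⟩
    rw [div_lt_iff₀ hi0] at hk
    have : (4 : ℝ) ^ k ≤ n k := by exact_mod_cast z.n_ge k
    nlinarith
  set κ : ℕ → ℕ := fun i => if h : ∃ k, 1 ≤ n k * ℓ i then Nat.find h else 0 with hκ
  have hκ1 : ∀ i ∈ Pos, 1 ≤ n (κ i) * ℓ i := by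
    intro i hi
    have := Nat.find_spec (hex i hi)
    simp only [hκ, dif_pos (hex i hi)]
    exact this
  have hκ2 : ∀ i ∈ Pos, ∀ k < κ i, n k * ℓ i < 1 := by
    intro i hi k hk
    simp only [hκ, dif_pos (hex i hi)] at hk
    exact not_le.1 (Nat.find_min (hex i hi) hk)
  set Kmax := Pos.sup κ + 1 with hKmax
  have hmaps : ∀ i ∈ Pos, κ i ∈ Finset.range Kmax := fun i hi =>
    Finset.mem_range.2 (Nat.lt_succ_of_le (le_sup (f := κ) hi))
  have e1 : ∑ i ∈ Finset.range N, v i * y i = ∑ i ∈ Pos, v i * y i := by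
    symm
    apply sum_subset (filter_subset _ _)
    intro i hi hni
    have : ℓ i = 0 := by
      by_contra hne
      exact hni (mem_filter.2 ⟨hi, lt_of_le_of_ne (hℓ0 i) (Ne.symm hne)⟩)
    rw [hz i this, zero_mul]
  set T : ℕ → Finset ℕ := fun k => Pos.filter (fun i => κ i = k) with hT
  set θ : ℕ → ℝ := fun k => ∑ i ∈ T k, ℓ i with hθ
  have hθ0 : ∀ k, 0 ≤ θ k := fun k => sum_nonneg (fun i _ => hℓ0 i)
  have hPosℓ : ∑ i ∈ Pos, ℓ i ≤ 1 :=
    le_trans (sum_le_sum_of_subset_of_nonneg (filter_subset _ _) (fun i _ _ => hℓ0 i)) hℓ1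
  have e2 : ∑ k ∈ Finset.range Kmax, θ k = ∑ i ∈ Pos, ℓ i :=
    sum_fiberwise_of_maps_to hmaps _
  have hθ1 : ∀ k, θ k ≤ 1 := fun k =>
    le_trans (sum_le_sum_of_subset_of_nonneg (filter_subset _ _) (fun i _ _ => hℓ0 i)) hPosℓ
  have e3 : ∑ i ∈ Pos, v i * y i = ∑ k ∈ Finset.range Kmax, ∑ i ∈ T k, v i * y i :=
    (sum_fiberwise_of_maps_to hmaps _).symm
  -- cardinality of the classes
  have hcard : ∀ k, ((T k).card : ℝ) ≤ n k * θ k := by
    intro k
    calc ((T k).card : ℝ) = ∑ i ∈ T k, (1 : ℝ) := by simp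
      _ ≤ ∑ i ∈ T k, n k * ℓ i := by
          apply sum_le_sum
          intro i hi
          have h1 := mem_filter.1 hi
          have h2 := hκ1 i h1.1
          rw [h1.2] at h2
          exact h2
      _ = n k * θ k := by rw [hθ, mul_sum]
  have hcard' : ∀ k, (T k).card ≤ n k := by
    intro k
    have h1 := hcard k
    have h2 : (n k : ℝ) * θ k ≤ n k * 1 := by
      apply mul_le_mul_of_nonneg_left (hθ1 k) (by positivity)
    have : ((T k).card : ℝ) ≤ n k := by linarith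
    exact_mod_cast this
  have hcy : ∀ k, h k * ∑ i ∈ T k, y i ≤ θ k + (1 / 4) ^ k := by
    intro k
    have hnk : (0 : ℝ) < n k := by exact_mod_cast z.npos k
    have h1 := sum_finset_le hy hy0 (T k)
    have h2 := Hq k _ (hcard' k)
    have h3 : ((T k).card : ℝ) / n k ≤ θ k := by
      rw [div_le_iff₀ hnk]; linarith [hcard k]
    have h4 : h k * ∑ i ∈ T k, y i ≤ h k * ps y (T k).card :=
      mul_le_mul_of_nonneg_left h1 (z.hpos k).le
    linarith
  have hbound : ∀ k ∈ Finset.range Kmax, ∑ i ∈ T k, v i * y i ≤ 3 * θ k + 24 * (1 / 4) ^ k := by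
    intro k _
    rcases k with _ | k
    · have h1 : ∑ i ∈ T 0, v i * y i ≤ h 0 * ∑ i ∈ T 0, y i := by
        rw [mul_sum]
        exact sum_le_sum (fun i _ => mul_le_mul_of_nonneg_right (hU0 i) (hy0 i))
      have h2 := hcy 0
      have := hθ0 0
      simp only [pow_zero] at h2 ⊢
      linarith
    · have hnk : (0 : ℝ) < n k := by exact_mod_cast z.npos k
      set q := ⌈(n k : ℝ) * θ (k + 1)⌉₊ with hq
      have hq1 : (n k : ℝ) * θ (k + 1) ≤ q := Nat.le_ceil _
      have hq2 : (q : ℝ) < n k * θ (k + 1) + 1 :=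
        Nat.ceil_lt_add_one (mul_nonneg hnk.le (hθ0 _))
      have hq3 : q ≤ n k := by
        rw [hq]
        apply Nat.ceil_le.2
        calc (n k : ℝ) * θ (k + 1) ≤ n k * 1 :=
              mul_le_mul_of_nonneg_left (hθ1 _) hnk.le
          _ = n k := mul_one _
      have h1 : ∑ i ∈ T (k + 1), (n k * ℓ i) * y i ≤ ps y q := by
        apply frac_le hy hy0
        · intro i _; exact mul_nonneg hnk.le (hℓ0 i)
        · intro i hi
          have h2 := mem_filter.1 hi
          exact (hκ2 i h2.1 k (by rw [h2.2]; omega)).le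
        · rw [← mul_sum]; exact hq1
      have h2 : h k * ps y q ≤ θ (k + 1) + 2 * (1 / 4) ^ k := by
        have h3 := Hq k q hq3
        have h4 : (q : ℝ) / n k ≤ θ (k + 1) + 1 / n k := by
          rw [div_le_iff₀ hnk, add_mul, div_mul_cancel₀ _ hnk.ne']
          linarith
        have h5 : (1 : ℝ) / n k ≤ (1 / 4) ^ k := by
          rw [one_div_pow]
          apply one_div_le_one_div_of_le (by positivity)
          exact_mod_cast z.n_ge k
        linarith
      have h6 : ∑ i ∈ T (k + 1), v i * y i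
          ≤ 2 * (h k * ∑ i ∈ T (k + 1), (n k * ℓ i) * y i) + h (k + 1) * ∑ i ∈ T (k + 1), y i := by
        rw [mul_sum, mul_sum, mul_sum, ← sum_add_distrib]
        apply sum_le_sum
        intro i _
        calc v i * y i ≤ (2 * (h k * (n k * ℓ i)) + h (k + 1)) * y i :=
              mul_le_mul_of_nonneg_right (hUk i k) (hy0 i)
          _ = _ := by ring
      have h7 : h k * ∑ i ∈ T (k + 1), (n k * ℓ i) * y i ≤ h k * ps y q :=
        mul_le_mul_of_nonneg_left h1 (z.hpos k).le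
      have h8 := hcy (k + 1)
      have h9 : (1 / 4 : ℝ) ^ k = 4 * (1 / 4) ^ (k + 1) := by rw [pow_succ]; ring
      have h10 : (0 : ℝ) ≤ (1 / 4) ^ (k + 1) := by positivity
      rw [h9] at h2
      linarith
  rw [e1, e3]
  refine (sum_le_sum hbound).trans ?_
  rw [sum_add_distrib, ← mul_sum, ← mul_sum, e2]
  have hgeo : ∑ k ∈ Finset.range Kmax, (1 / 4 : ℝ) ^ k ≤ 4 / 3 := by
    have hs : Summable (fun k : ℕ => (1 / 4 : ℝ) ^ k) :=
      summable_geometric_of_lt_one (by norm_num) (by norm_num)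
    have := hs.sum_le_tsum (Finset.range Kmax) (fun k _ => by positivity)
    rw [tsum_geometric_of_lt_one (by norm_num) (by norm_num)] at this
    norm_num at this ⊢
    exact this
  linarith

theorem zig_bdd {a b : ℝ} (hab : a < b) {Γ : ℕ → ℝ} (hΓ : IsLam Γ) (z : Zig h n)
    (Hq : ∀ k, ∀ q ≤ n k, h k * ps (fun i => 1 / Γ i) q ≤ q / n k + (1 / 4) ^ k) :
    Bdd a b Γ (fun x => F h n ((x - a) / (b - a))) 50 := by
  intro N s t hF
  have hba : 0 < b - a := by linarith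
  set f : ℝ → ℝ := fun x => F h n ((x - a) / (b - a)) with hf
  set ℓ : ℕ → ℝ := fun i => if hi : i < N then (t ⟨i, hi⟩ - s ⟨i, hi⟩) / (b - a) else 0 with hℓ
  set v : ℕ → ℝ := fun i => if hi : i < N then |f (t ⟨i, hi⟩) - f (s ⟨i, hi⟩)| else 0 with hv
  have e : ∑ i : Fin N, |f (t i) - f (s i)| / Γ i = ∑ i ∈ Finset.range N, v i * (1 / Γ i) := by
    rw [← Fin.sum_univ_eq_sum_range (fun i => v i * (1 / Γ i))]
    apply sum_congr rfl
    intro i _
    simp only [hv, dif_pos i.2, Fin.eta]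
    ring
  rw [e]
  have habs : ∀ i (hi : i < N), |(t ⟨i, hi⟩ - a) / (b - a) - (s ⟨i, hi⟩ - a) / (b - a)| = ℓ i := by
    intro i hi
    simp only [hℓ, dif_pos hi]
    rw [← sub_div, show t ⟨i, hi⟩ - a - (s ⟨i, hi⟩ - a) = t ⟨i, hi⟩ - s ⟨i, hi⟩ by ring,
      abs_of_nonneg]
    apply div_nonneg _ hba.le
    linarith [(hF.1 ⟨i, hi⟩).2.1]
  apply zig_sum (recip_anti hΓ) (fun i => (recip_pos hΓ i).le) z Hq (ℓ := ℓ)
  · intro i
    simp only [hℓ]
    split_ifs with hi
    · apply div_nonneg _ hba.le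
      linarith [(hF.1 ⟨i, hi⟩).2.1]
    · exact le_rfl
  · rw [← Fin.sum_univ_eq_sum_range (fun i => ℓ i)]
    have : ∑ i : Fin N, ℓ i = (∑ i : Fin N, (t i - s i)) / (b - a) := by
      rw [sum_div]
      apply sum_congr rfl
      intro i _
      simp only [hℓ, dif_pos i.2, Fin.eta]
    rw [this, div_le_one hba]
    exact length_le hab.le hF
  · intro i
    simp only [hv]
    split_ifs with hi
    · exact z.ub0 _ _
    · exact (z.hpos 0).le
  · intro i k
    by_cases hi : i < N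
    · simp only [hv, dif_pos hi]
      rw [← habs i hi]
      exact z.ub k _ _
    · have h1 : v i = 0 := by simp only [hv, dif_neg hi]
      have h2 : ℓ i = 0 := by simp only [hℓ, dif_neg hi]
      rw [h1, h2]
      have := z.hpos (k + 1)
      simp only [mul_zero, zero_add]
      exact this.le
  · intro i hi0
    by_cases hi : i < N
    · have h1 := habs i hi
      rw [hi0, abs_eq_zero, sub_eq_zero] at h1
      simp only [hv, dif_pos hi, hf]
      rw [h1]
      simp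
    · simp only [hv, dif_neg hi]

/-- the lower bound at scale `k` -/
theorem zig_lower {a b : ℝ} (hab : a < b) (z : Zig h n) (Λ : ℕ → ℝ) (hΛ : ∀ i, 0 < Λ i) (k : ℕ) :
    ∃ s t : Fin (n k) → ℝ, Fam a b s t ∧ h k / 4 * ps (fun i => 1 / Λ i) (n k) ≤
      ∑ i : Fin (n k), |F h n ((t i - a) / (b - a)) - F h n ((s i - a) / (b - a))| / Λ i := by
  have hba : 0 < b - a := by linarith
  have hn : (0 : ℝ) < n k := by exact_mod_cast z.npos k
  refine ⟨fun i => a + (b - a) * ((i : ℕ) / n k), fun i => a + (b - a) * (((i : ℕ) + 1 / 2) / n k),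
    ⟨?_, ?_⟩, ?_⟩
  · intro i
    have hi : ((i : ℕ) : ℝ) + 1 ≤ n k := by exact_mod_cast i.2
    refine ⟨?_, ?_, ?_⟩
    · have : 0 ≤ (b - a) * (((i : ℕ) : ℝ) / n k) := by positivity
      linarith
    · have : ((i : ℕ) : ℝ) / n k ≤ (((i : ℕ) : ℝ) + 1 / 2) / n k := by gcongr; linarith
      have := mul_le_mul_of_nonneg_left this hba.le
      linarith
    · have : (((i : ℕ) : ℝ) + 1 / 2) / n k ≤ 1 := by rw [div_le_one hn]; linarith
      have := mul_le_mul_of_nonneg_left this hba.le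
      linarith
  · intro i j hij
    have hne : (i : ℕ) ≠ j := fun hh => hij (Fin.ext hh)
    rcases lt_or_gt_of_ne hne with hlt | hlt
    · left
      have h1 : ((i : ℕ) : ℝ) + 1 ≤ (j : ℕ) := by exact_mod_cast hlt
      have : (((i : ℕ) : ℝ) + 1 / 2) / n k ≤ ((j : ℕ) : ℝ) / n k := by gcongr; linarith
      have := mul_le_mul_of_nonneg_left this hba.le
      linarith
    · right
      have h1 : ((j : ℕ) : ℝ) + 1 ≤ (i : ℕ) := by exact_mod_cast hlt
      have : (((j : ℕ) : ℝ) + 1 / 2) / n k ≤ ((i : ℕ) : ℝ) / n k := by gcongr; linarith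
      have := mul_le_mul_of_nonneg_left this hba.le
      linarith
  · have e1 : ∀ x : ℝ, (a + (b - a) * x - a) / (b - a) = x := by
      intro x; rw [add_sub_cancel_left, mul_div_cancel_left₀ _ hba.ne']
    unfold ps
    rw [mul_sum, ← Fin.sum_univ_eq_sum_range (fun i => h k / 4 * (1 / Λ i))]
    apply sum_le_sum
    intro i _
    rw [e1, e1, mul_one_div]
    exact div_le_div_of_nonneg_right (z.lb k i) (hΛ i).le

/-- existence of suitable sequences -/
lemma exists_zig {A : ℕ → ℕ → Prop} (hA : ∀ k, ∃ᶠ m in atTop, A k m) {ρ : ℕ → ℝ} (hρ : ∀ k, 0 < ρ k)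
    {y : ℕ → ℝ} (hy0 : ∀ i, 0 < y i) (hyi : Tendsto (ps y) atTop atTop)
    (hyo : Tendsto (fun m : ℕ => ps y m / m) atTop (𝓝 0)) :
    ∃ n : ℕ → ℕ, (∀ k, A k (n k)) ∧ Zig (fun k => ρ k / ps y (n k)) n := by
  have hpos : ∀ m : ℕ, 0 < m → 0 < ps y m := fun m hm =>
    sum_pos (fun i _ => hy0 i) (by simpa using hm.ne')
  obtain ⟨n0, hn0, hn0'⟩ := ((hA 0).and_eventually (eventually_gt_atTop 0)).exists
  have hstep : ∀ k m : ℕ, ∃ m' : ℕ, 0 < m → (A (k + 1) m' ∧ 0 < m' ∧
      ρ (k + 1) / ps y m' ≤ ρ k / ps y m / 16 ∧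
      16 * (ρ k / ps y m * m) ≤ ρ (k + 1) / ps y m' * m') := by
    intro k m
    rcases Nat.eq_zero_or_pos m with rfl | hm
    · exact ⟨0, fun h => absurd h (lt_irrefl _)⟩
    have hm' := hpos m hm
    have hmR : (0 : ℝ) < m := by exact_mod_cast hm
    set X := ρ k / ps y m / 16 with hX
    have hX0 : 0 < X := by have := hρ k; positivity
    set Y := 16 * (ρ k / ps y m * m) with hY
    have hY0 : 0 < Y := by have := hρ k; positivity
    have ev1 : ∀ᶠ m' in atTop, ρ (k + 1) / X < ps y m' := hyi.eventually_gt_atTop _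
    have ev2 : ∀ᶠ m' : ℕ in atTop, ps y m' / m' < ρ (k + 1) / Y :=
      hyo.eventually_lt_const (div_pos (hρ _) hY0)
    obtain ⟨m', h1, h2, h3, h4⟩ := ((hA (k + 1)).and_eventually
      (ev1.and (ev2.and (eventually_gt_atTop 0)))).exists
    refine ⟨m', fun _ => ⟨h1, h4, ?_, ?_⟩⟩
    · rw [div_lt_iff₀ hX0] at h2
      rw [div_le_iff₀ (hpos m' h4)]
      linarith
    · have hm4 : (0 : ℝ) < m' := by exact_mod_cast h4
      rw [div_lt_div_iff₀ hm4 hY0] at h3
      rw [div_mul_eq_mul_div, le_div_iff₀ (hpos m' h4)]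
      linarith
  choose g hg using hstep
  let n : ℕ → ℕ := fun k => Nat.rec n0 (fun k m => g k m) k
  have hn : ∀ k, n (k + 1) = g k (n k) := fun k => rfl
  have hnpos : ∀ k, 0 < n k := by
    intro k
    induction k with
    | zero => exact hn0'
    | succ k ih => rw [hn]; exact (hg k (n k) ih).2.1
  refine ⟨n, ?_, ⟨hnpos, fun k => div_pos (hρ k) (hpos _ (hnpos k)), ?_, ?_⟩⟩
  · intro k
    rcases k with _ | k
    · exact hn0
    · rw [hn]; exact (hg k (n k) (hnpos k)).1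
  · intro k
    simp only [hn]
    exact (hg k (n k) (hnpos k)).2.2.1
  · intro k
    simp only [hn]
    exact (hg k (n k) (hnpos k)).2.2.2

end X92.GV
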