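import Pool.Agent.X92.GV5
import Pool.Agent.X92.GV7
open Set Filter Topology Finset MeasureTheory

namespace X92.GV

variable {a b : ℝ} {Γ Λ : ℕ → ℝ}

lemma ps_upper {Γ : ℕ → ℝ} (hΓ : IsLam Γ) (n : ℕ) :
    ps (fun i => 1 / Γ i) n ≤ n * (1 / Γ 0) := by
  have := sum_le_card_nsmul (Finset.range n) (fun i => 1 / Γ i) (1 / Γ 0)
    (fun i _ => recip_anti hΓ (Nat.zero_le i))
  simpa [ps] using this

lemma ps_lower {y : ℕ → ℝ} {ℓ : ℝ} (h : ∀ i, ℓ ≤ y i) (n : ℕ) : n * ℓ ≤ ps y n := by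
  have := card_nsmul_le_sum (Finset.range n) y ℓ (fun i _ => h i)
  simpa [ps] using this

lemma tendsto_recip {Γ : ℕ → ℝ} (hΓ : IsLam Γ) (h : ∀ ℓ > 0, ∃ i, 1 / Γ i < ℓ) :
    Tendsto (fun i : ℕ => 1 / Γ i) atTop (𝓝 0) := by
  rw [Metric.tendsto_atTop]
  intro ε hε
  obtain ⟨i, hi⟩ := h ε hε
  refine ⟨i, fun n hn => ?_⟩
  rw [Real.dist_eq, sub_zero, abs_of_pos (recip_pos hΓ n)]
  exact (recip_anti hΓ hn).trans_lt hi

lemma cesaro {y : ℕ → ℝ} (h : Tendsto y atTop (𝓝 0)) :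
    Tendsto (fun m : ℕ => ps y m / m) atTop (𝓝 0) := by
  refine h.cesaro.congr (fun m => ?_)
  unfold ps
  rw [inv_mul_eq_div]

lemma id_BV (hab : a < b) (hΓ : IsLam Γ) : (fun x : ℝ => x) ∈ BV a b Γ := by
  refine mem_BV_iff.2 ⟨(b - a) / Γ 0, fun n s t hF => ?_⟩
  calc ∑ i, |t i - s i| / Γ i ≤ ∑ i, (t i - s i) / Γ 0 := by
        apply sum_le_sum
        intro i _
        rw [abs_of_nonneg (by linarith [(hF.1 i).2.1])]
        apply div_le_div_of_nonneg_left (by linarith [(hF.1 i).2.1]) (hΓ.pos 0)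
          (hΓ.mono (Nat.zero_le _))
    _ = (∑ i, (t i - s i)) / Γ 0 := by rw [sum_div]
    _ ≤ (b - a) / Γ 0 := div_le_div_of_nonneg_right (length_le hab.le hF) (hΓ.pos 0).le

/-- necessity of the `O`-condition -/
theorem nec1 (hab : a < b) (hΓ : IsLam Γ) (hΛ : IsLam Λ)
    (hinc : ∀ f : ℝ → ℝ, f ∈ BV a b Γ → f ∈ BVc a b Λ) :
    ∃ C : ℝ, ∀ n, ps (fun i => 1 / Λ i) n ≤ C * ps (fun i => 1 / Γ i) n := by
  by_contra hcon
  push Not at hcon
  have hy0 : ∀ i, 0 < 1 / Γ i := recip_pos hΓ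
  have hz0 : ∀ i, 0 < 1 / Λ i := recip_pos hΛ
  have hylim : Tendsto (fun i : ℕ => 1 / Γ i) atTop (𝓝 0) := by
    apply tendsto_recip hΓ
    by_contra hc
    push Not at hc
    obtain ⟨ℓ, hℓ, hc⟩ := hc
    obtain ⟨n, hn⟩ := hcon ((1 / Λ 0) / ℓ)
    have h1 := ps_upper hΛ n
    have h2 := ps_lower hc n
    have h3 : (1 / Λ 0) / ℓ * (n * ℓ) ≤ (1 / Λ 0) / ℓ * ps (fun i => 1 / Γ i) n := by
      have := hz0 0
      gcongr
    have h4 : (1 / Λ 0) / ℓ * (n * ℓ) = n * (1 / Λ 0) := by field_simp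
    linarith
  have hfreq : ∀ k : ℕ, ∃ᶠ m in atTop,
      (16 : ℝ) ^ k * ps (fun i => 1 / Γ i) m ≤ ps (fun i => 1 / Λ i) m := by
    intro k
    by_contra hnf
    rw [not_frequently, eventually_atTop] at hnf
    obtain ⟨n₀, hn₀⟩ := hnf
    have hG1 : 0 < ps (fun i => 1 / Γ i) 1 := by simpa [ps] using hΓ.pos 0
    obtain ⟨n, hn⟩ := hcon (max (16 ^ k) (ps (fun i => 1 / Λ i) n₀ / ps (fun i => 1 / Γ i) 1))
    rcases lt_or_ge n n₀ with h | h
    · rcases Nat.eq_zero_or_pos n with rfl | hn0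
      · simp at hn
      have h1 := ps_mono (fun i => (hz0 i).le) h.le
      have h2 := ps_mono (fun i => (hy0 i).le) (show 1 ≤ n from hn0)
      have h3 : ps (fun i => 1 / Λ i) n₀ / ps (fun i => 1 / Γ i) 1 * ps (fun i => 1 / Γ i) n
          ≤ max (16 ^ k) (ps (fun i => 1 / Λ i) n₀ / ps (fun i => 1 / Γ i) 1)
            * ps (fun i => 1 / Γ i) n := by
        apply mul_le_mul_of_nonneg_right (le_max_right _ _)
        linarith
      have h4 : ps (fun i => 1 / Λ i) n₀ ≤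
          ps (fun i => 1 / Λ i) n₀ / ps (fun i => 1 / Γ i) 1 * ps (fun i => 1 / Γ i) n := by
        have h5 : 0 ≤ ps (fun i => 1 / Λ i) n₀ := ps_nonneg (fun i => (hz0 i).le) _
        calc ps (fun i => 1 / Λ i) n₀ = ps (fun i => 1 / Λ i) n₀ / ps (fun i => 1 / Γ i) 1
              * ps (fun i => 1 / Γ i) 1 := by field_simp
          _ ≤ _ := mul_le_mul_of_nonneg_left h2 (by positivity)
      linarith
    · have h1 := hn₀ n h
      push Not at h1
      have h2 : (16 : ℝ) ^ k * ps (fun i => 1 / Γ i) n ≤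
          max (16 ^ k) (ps (fun i => 1 / Λ i) n₀ / ps (fun i => 1 / Γ i) 1)
            * ps (fun i => 1 / Γ i) n :=
        mul_le_mul_of_nonneg_right (le_max_left _ _) (ps_nonneg (fun i => (hy0 i).le) _)
      linarith
  obtain ⟨n, hn, z⟩ := exists_zig hfreq (ρ := fun k => (1 / 4 : ℝ) ^ k) (fun k => by positivity)
    hy0 (ps_tendsto hΓ) (cesaro hylim)
  have hps : ∀ k, 0 < ps (fun i => 1 / Γ i) (n k) := fun k =>
    sum_pos (fun i _ => hy0 i) (by simpa using (z.npos k).ne')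
  have hf := (hinc _ (mem_BV_iff.2 ⟨50, zig_bdd hab hΓ z (fun k q hq => by
    have h1 := ps_mono (fun i => (hy0 i).le) hq
    have h2 : (1 / 4 : ℝ) ^ k / ps (fun i => 1 / Γ i) (n k) * ps (fun i => 1 / Γ i) q
        ≤ (1 / 4 : ℝ) ^ k / ps (fun i => 1 / Γ i) (n k) * ps (fun i => 1 / Γ i) (n k) := by
      have := hps k
      gcongr
    rw [div_mul_cancel₀ _ (hps k).ne'] at h2
    have h3 : (0 : ℝ) ≤ q / n k := by positivity
    linarith)⟩)).1
  obtain ⟨V, hV⟩ := mem_BV_iff.1 hf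
  obtain ⟨k, hk⟩ := pow_unbounded_of_one_lt (4 * V) (by norm_num : (1 : ℝ) < 4)
  obtain ⟨s, t, hF, hst⟩ := zig_lower hab z Λ hΛ.pos k
  have h1 := hst.trans (hV _ s t hF)
  have h2 := hn k
  have h3 : (1 / 4 : ℝ) ^ k / ps (fun i => 1 / Γ i) (n k) / 4 * ((16 : ℝ) ^ k * ps (fun i => 1 / Γ i) (n k))
      ≤ (1 / 4 : ℝ) ^ k / ps (fun i => 1 / Γ i) (n k) / 4 * ps (fun i => 1 / Λ i) (n k) := by
    have := hps k
    gcongr
  have h4 : (1 / 4 : ℝ) ^ k / ps (fun i => 1 / Γ i) (n k) / 4 * ((16 : ℝ) ^ k * ps (fun i => 1 / Γ i) (n k))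
      = 4 ^ k / 4 := by
    have := (hps k).ne'
    have e : (1 / 4 : ℝ) ^ k * 16 ^ k = 4 ^ k := by rw [← mul_pow]; norm_num
    rw [← e]
    field_simp
  linarith

/-- necessity of the doubling condition -/
theorem nec2 (hab : a < b) (hΓ : IsLam Γ) (hΛ : IsLam Λ)
    (hinc : ∀ f : ℝ → ℝ, f ∈ BV a b Γ → f ∈ BVc a b Λ) :
    ∀ c > 0, ∃ δ > 0, ∃ n₀ : ℕ, ∀ n ≥ n₀,
      c * ps (fun i => 1 / Γ i) n ≤ ps (fun i => 1 / Λ i) n →
      ps (fun i => 1 / Γ i) (2 * n) ≤ (2 - δ) * ps (fun i => 1 / Γ i) n := by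
  by_contra hcon
  push Not at hcon
  obtain ⟨c, hc, hcon⟩ := hcon
  have hy0 : ∀ i, 0 < 1 / Γ i := recip_pos hΓ
  have hz0 : ∀ i, 0 < 1 / Λ i := recip_pos hΛ
  have hba : 0 < b - a := by linarith
  -- `λ → ∞`
  have hzlim : Tendsto (fun i : ℕ => 1 / Λ i) atTop (𝓝 0) := by
    apply tendsto_recip hΛ
    intro ℓ hℓ
    have h1 := (hinc _ (id_BV hab hΓ)).2
    rw [ENNReal.tendsto_atTop_zero] at h1
    obtain ⟨m, hm⟩ := h1 (ENNReal.ofReal ((b - a) * ℓ / 2)) (by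
      rw [gt_iff_lt, ENNReal.ofReal_pos]; positivity)
    have h2 := hm m le_rfl
    have hF : Fam a b (fun _ : Fin 1 => a) (fun _ : Fin 1 => b) := by
      refine ⟨fun _ => ⟨le_rfl, hab.le, le_rfl⟩, fun i j hij => ?_⟩
      exact absurd (Subsingleton.elim i j) hij
    have h3 := (le_Var (Λ := fun i => Λ (i + m)) (f := fun x : ℝ => x) hF).trans h2
    rw [ENNReal.ofReal_le_ofReal_iff (by positivity)] at h3
    simp only [Fin.sum_univ_one, Fin.val_zero, zero_add] at h3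
    rw [abs_of_pos hba] at h3
    refine ⟨m, ?_⟩
    have h4 : (b - a) * (1 / Λ m) ≤ (b - a) * (ℓ / 2) := by
      rw [mul_one_div]; linarith
    have h5 := le_of_mul_le_mul_left h4 hba
    linarith
  have hylim : Tendsto (fun i : ℕ => 1 / Γ i) atTop (𝓝 0) := by
    apply tendsto_recip hΓ
    by_contra hcc
    push Not at hcc
    obtain ⟨ℓ, hℓ, hcc⟩ := hcc
    have h1 := cesaro hzlim
    obtain ⟨n₁, hn₁⟩ := eventually_atTop.1 (h1.eventually_lt_const (show (0 : ℝ) < c * ℓ by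
      positivity))
    obtain ⟨n, hn, hn2, _⟩ := hcon 1 one_pos (max n₁ 1)
    have h2 := hn₁ n (le_trans (le_max_left _ _) hn)
    have hn0 : (0 : ℝ) < n := by
      have : 1 ≤ n := le_trans (le_max_right _ _) hn
      exact_mod_cast this
    rw [div_lt_iff₀ hn0] at h2
    have h3 := ps_lower hcc n
    have h4 : c * (n * ℓ) ≤ c * ps (fun i => 1 / Γ i) n := by gcongr
    nlinarith
  have hfreq : ∀ k : ℕ, ∃ᶠ m in atTop,
      (c * ps (fun i => 1 / Γ i) m ≤ ps (fun i => 1 / Λ i) m ∧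
        (2 - (1 / 4 : ℝ) ^ k) * ps (fun i => 1 / Γ i) m ≤ ps (fun i => 1 / Γ i) (2 * m)) := by
    intro k
    rw [frequently_atTop]
    intro n₀
    obtain ⟨n, hn, h1, h2⟩ := hcon ((1 / 4 : ℝ) ^ k) (by positivity) n₀
    exact ⟨n, hn, h1, h2.le⟩
  obtain ⟨n, hn, z⟩ := exists_zig hfreq (ρ := fun _ => (1 : ℝ)) (fun k => one_pos)
    hy0 (ps_tendsto hΓ) (cesaro hylim)
  have hps : ∀ k, 0 < ps (fun i => 1 / Γ i) (n k) := fun k =>
    sum_pos (fun i _ => hy0 i) (by simpa using (z.npos k).ne')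
  have hf := (hinc _ (mem_BV_iff.2 ⟨50, zig_bdd hab hΓ z (fun k q hq => by
    have h1 := near_linear (recip_anti hΓ) (fun i => (hy0 i).le) (z.npos k) (hn k).2 hq
    rw [one_div_mul_eq_div, div_le_iff₀ (hps k)]
    exact h1)⟩)).2
  rw [ENNReal.tendsto_atTop_zero] at hf
  obtain ⟨m, hm⟩ := hf (ENNReal.ofReal (c / 16)) (by
    rw [gt_iff_lt, ENNReal.ofReal_pos]; positivity)
  have hm := hm m le_rfl
  -- heights tend to zero
  have hev : ∃ k, 1 / ps (fun i => 1 / Γ i) (n k) * ps (fun i => 1 / Λ i) m < c / 2 := by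
    have hL : 0 ≤ ps (fun i => 1 / Λ i) m := ps_nonneg (fun i => (hz0 i).le) _
    have hn_top : Tendsto n atTop atTop := by
      apply tendsto_atTop_mono (fun k => z.n_ge k)
      exact tendsto_pow_atTop_atTop_of_one_lt (by norm_num)
    have h1 := (ps_tendsto hΓ).comp hn_top
    obtain ⟨k, hk⟩ := (h1.eventually_gt_atTop (ps (fun i => 1 / Λ i) m / (c / 2))).exists
    refine ⟨k, ?_⟩
    simp only [Function.comp_apply] at hk
    rw [div_lt_iff₀ (by positivity)] at hk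
    rw [one_div_mul_eq_div, div_lt_iff₀ (hps k)]
    linarith
  obtain ⟨k, hk⟩ := hev
  obtain ⟨s, t, hF, hst⟩ := zig_lower hab z (fun i => Λ (i + m)) (fun i => hΛ.pos _) k
  have h1 := (le_Var (Λ := fun i => Λ (i + m)) (f := fun x => F (fun k => (1 : ℝ) / ps (fun i => 1 / Γ i) (n k)) n ((x - a) / (b - a))) hF).trans hm
  rw [ENNReal.ofReal_le_ofReal_iff (by positivity)] at h1
  have h2 := hst.trans h1
  have h3 : ps (fun i => 1 / Λ i) (n k) - ps (fun i => 1 / Λ i) m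
      ≤ ps (fun i => 1 / Λ (i + m)) (n k) := by
    have e : ps (fun i => 1 / Λ (i + m)) (n k)
        = ps (fun i => 1 / Λ i) (m + n k) - ps (fun i => 1 / Λ i) m := by
      unfold ps
      rw [sum_range_add_sub_sum_range]
      apply sum_congr rfl
      intro i _
      rw [add_comm]
    have h4 := ps_mono (fun i => (hz0 i).le) (show n k ≤ m + n k by omega)
    linarith
  have h5 := (hn k).1
  have h6 : 1 / ps (fun i => 1 / Γ i) (n k) / 4 * (c * ps (fun i => 1 / Γ i) (n k)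
      - ps (fun i => 1 / Λ i) m) ≤ c / 16 := by
    refine le_trans ?_ h2
    have := hps k
    apply mul_le_mul_of_nonneg_left (by linarith) (by positivity)
  have h7 : 1 / ps (fun i => 1 / Γ i) (n k) / 4 * (c * ps (fun i => 1 / Γ i) (n k)
      - ps (fun i => 1 / Λ i) m)
      = c / 4 - (1 / ps (fun i => 1 / Γ i) (n k) * ps (fun i => 1 / Λ i) m) / 4 := by
    have := (hps k).ne'
    field_simp
  rw [h7] at h6
  linarith

theorem main (hab : a < b) (hΓ : IsLam Γ) (hΛ : IsLam Λ) :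
    BV a b Γ ⊆ BVc a b Λ ↔
      (∃ C : ℝ, ∀ n, ps (fun i => 1 / Λ i) n ≤ C * ps (fun i => 1 / Γ i) n) ∧
      (∀ c > 0, ∃ δ > 0, ∃ n₀ : ℕ, ∀ n ≥ n₀,
        c * ps (fun i => 1 / Γ i) n ≤ ps (fun i => 1 / Λ i) n →
        ps (fun i => 1 / Γ i) (2 * n) ≤ (2 - δ) * ps (fun i => 1 / Γ i) n) := by
  constructor
  · intro h
    exact ⟨nec1 hab hΓ hΛ h, nec2 hab hΓ hΛ h⟩
  · rintro ⟨⟨C, hC⟩, hcond⟩ f hf
    exact suff hab.le hΓ hΛ hC hcond hf

end X92.GV
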