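import Mathlib
open MeasureTheory Set Filter Topology
open scoped Pointwise

namespace X92.HD

/-- the first binary digit of the fractional part -/
noncomputable def dg (y : ℝ) : ℝ := if (1 / 2 : ℝ) ≤ Int.fract y then 1 else 0

/-- the standard map of `[0,1)` into the Cantor set: binary digits are doubled and read in
base three -/
noncomputable def cs (x : ℝ) : ℝ := ∑' k : ℕ, 2 * dg (2 ^ k * x) / 3 ^ (k + 1)

lemma dg_nonneg (y : ℝ) : 0 ≤ dg y := by unfold dg; split_ifs <;> norm_num
lemma dg_le (y : ℝ) : dg y ≤ 1 := by unfold dg; split_ifs <;> norm_num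
lemma measurable_dg : Measurable dg := by
  unfold dg
  exact Measurable.ite (measurableSet_le measurable_const measurable_fract) measurable_const
    measurable_const

lemma dg_nat_add (n : ℕ) (y : ℝ) : dg (n + y) = dg y := by
  unfold dg; rw [Int.fract_natCast_add]

lemma term_nonneg (x : ℝ) (k : ℕ) : 0 ≤ 2 * dg (2 ^ k * x) / 3 ^ (k + 1) := by
  have := dg_nonneg (2 ^ k * x); positivity

lemma term_le (x : ℝ) (k : ℕ) : 2 * dg (2 ^ k * x) / 3 ^ (k + 1) ≤ (2 / 3) * (1 / 3 : ℝ) ^ k := by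
  have h := dg_le (2 ^ k * x)
  have e : (2 / 3) * (1 / 3 : ℝ) ^ k = 2 * 1 / 3 ^ (k + 1) := by
    rw [pow_succ, one_div, inv_pow]; field_simp
  rw [e]
  gcongr

lemma summ_geo : Summable (fun k : ℕ => (2 / 3) * (1 / 3 : ℝ) ^ k) :=
  (summable_geometric_of_lt_one (by norm_num) (by norm_num)).mul_left _

lemma summ (x : ℝ) : Summable (fun k : ℕ => 2 * dg (2 ^ k * x) / 3 ^ (k + 1)) :=
  Summable.of_nonneg_of_le (term_nonneg x) (term_le x) summ_geo

lemma cs_nonneg (x : ℝ) : 0 ≤ cs x := tsum_nonneg (term_nonneg x)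

lemma cs_le (x : ℝ) : cs x ≤ 1 := by
  have h := (summ x).tsum_le_tsum (term_le x) summ_geo
  rw [tsum_mul_left, tsum_geometric_of_lt_one (by norm_num) (by norm_num)] at h
  unfold cs
  linarith [h, show (2 / 3 : ℝ) * (1 - 1 / 3)⁻¹ = 1 by norm_num]

lemma measurable_cs : Measurable cs := by
  refine measurable_of_tendsto_metrizable
    (f := fun n x => ∑ k ∈ Finset.range n, 2 * dg (2 ^ k * x) / 3 ^ (k + 1)) ?_ ?_
  · intro n
    refine Finset.measurable_fun_sum _ (fun k _ => ?_)
    exact ((measurable_dg.comp (measurable_const.mul measurable_id)).const_mul 2).div_const _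
  · rw [tendsto_pi_nhds]
    intro x
    exact (summ x).hasSum.tendsto_sum_nat

lemma cs_half (x : ℝ) (h : dg (x / 2) = 0) : cs (x / 2) = cs x / 3 := by
  have e := (summ (x / 2)).tsum_eq_zero_add
  unfold cs
  rw [e]
  simp only [pow_zero, one_mul, h, mul_zero, zero_div, zero_add]
  rw [← tsum_div_const]
  congr 1
  ext k
  rw [show (2 : ℝ) ^ (k + 1) * (x / 2) = 2 ^ k * x by ring]
  rw [pow_succ (3 : ℝ) (k + 1)]
  field_simp

lemma cs_half' (x : ℝ) (h : dg ((1 + x) / 2) = 1) : cs ((1 + x) / 2) = (2 + cs x) / 3 := by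
  have e := (summ ((1 + x) / 2)).tsum_eq_zero_add
  unfold cs
  rw [e]
  simp only [pow_zero, one_mul, h]
  rw [add_div (2 : ℝ), ← tsum_div_const]
  congr 1
  · norm_num
  congr 1
  ext k
  rw [show (2 : ℝ) ^ (k + 1) * ((1 + x) / 2) = ((2 ^ k : ℕ) : ℝ) + 2 ^ k * x by push_cast; ring,
    dg_nat_add]
  rw [pow_succ (3 : ℝ) (k + 1)]
  field_simp

lemma dg_lo {x : ℝ} (hx : x ∈ Ico (0 : ℝ) 1) : dg (x / 2) = 0 := by
  unfold dg
  rw [Int.fract_eq_self.2 ⟨by linarith [hx.1], by linarith [hx.2]⟩, if_neg]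
  linarith [hx.2]

lemma dg_hi {x : ℝ} (hx : x ∈ Ico (0 : ℝ) 1) : dg ((1 + x) / 2) = 1 := by
  unfold dg
  rw [Int.fract_eq_self.2 ⟨by linarith [hx.1], by linarith [hx.2]⟩, if_pos]
  linarith [hx.1]

lemma cs_mem_pre (n : ℕ) : ∀ x ∈ Ico (0 : ℝ) 1, cs x ∈ preCantorSet n := by
  induction n with
  | zero => intro x _; exact ⟨cs_nonneg x, cs_le x⟩
  | succ n ih =>
    intro x hx
    rw [preCantorSet_succ]
    rcases lt_or_ge x (1 / 2) with h | h
    · left
      have hy : 2 * x ∈ Ico (0 : ℝ) 1 := ⟨by linarith [hx.1], by linarith⟩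
      refine ⟨cs (2 * x), ih _ hy, ?_⟩
      have := cs_half (2 * x) (dg_lo hy)
      rw [show 2 * x / 2 = x by ring] at this
      exact this.symm
    · right
      have hy : 2 * x - 1 ∈ Ico (0 : ℝ) 1 := ⟨by linarith, by linarith [hx.2]⟩
      refine ⟨cs (2 * x - 1), ih _ hy, ?_⟩
      have := cs_half' (2 * x - 1) (dg_hi hy)
      rw [show (1 + (2 * x - 1)) / 2 = x by ring] at this
      exact this.symm

lemma cs_mem {x : ℝ} (hx : x ∈ Ico (0 : ℝ) 1) : cs x ∈ cantorSet :=
  mem_iInter.2 (fun n => cs_mem_pre n x hx)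

/-- the Cantor set is Lebesgue null -/
lemma volume_cantorSet : volume cantorSet = 0 := by
  have h1 : volume cantorSet ≤ 1 := by
    refine (measure_mono cantorSet_subset_unitInterval).trans ?_
    simp
  have h2 : volume cantorSet ≤ ENNReal.ofReal (2 / 3) * volume cantorSet := by
    conv_lhs => rw [cantorSet_eq_union_halves]
    refine (measure_union_le _ _).trans ?_
    have e1 : volume ((fun x : ℝ => x / 3) '' cantorSet) = ENNReal.ofReal (1 / 3) * volume cantorSet := by
      have : (fun x : ℝ => x / 3) '' cantorSet = (1 / 3 : ℝ) • cantorSet := by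
        ext y; simp only [mem_image, Set.mem_smul_set, smul_eq_mul]
        constructor
        · rintro ⟨x, hx, rfl⟩; exact ⟨x, hx, by ring⟩
        · rintro ⟨x, hx, rfl⟩; exact ⟨x, hx, by ring⟩
      rw [this, Measure.addHaar_smul]
      simp [abs_of_pos]
    have e2 : volume ((fun x : ℝ => (2 + x) / 3) '' cantorSet)
        = ENNReal.ofReal (1 / 3) * volume cantorSet := by
      have : (fun x : ℝ => (2 + x) / 3) '' cantorSet
          = (fun y => (2 / 3 : ℝ) + y) '' ((fun x : ℝ => x / 3) '' cantorSet) := by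
        rw [image_image]
        congr 1
        ext x; ring
      rw [this, ← e1, image_add_left, measure_preimage_add]
    refine (add_le_add (le_of_eq e1) (le_of_eq e2)).trans (le_of_eq ?_)
    rw [← add_mul, ← ENNReal.ofReal_add (by norm_num) (by norm_num)]
    norm_num
  by_contra hne
  have hfin : volume cantorSet ≠ ⊤ := ne_top_of_le_ne_top ENNReal.one_ne_top h1
  have h3 : (volume cantorSet).toReal ≤ (2 / 3) * (volume cantorSet).toReal := by
    have := ENNReal.toReal_mono (ENNReal.mul_ne_top ENNReal.ofReal_ne_top hfin) h2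
    rwa [ENNReal.toReal_mul, ENNReal.toReal_ofReal (by norm_num)] at this
  have h4 : 0 < (volume cantorSet).toReal := ENNReal.toReal_pos hne hfin
  linarith

/-- truncated logarithm `log max(|t|, δ)` -/
noncomputable def L (δ t : ℝ) : ℝ := Real.log (max |t| δ)

lemma L_ge {δ t : ℝ} (hδ : 0 < δ) : Real.log δ ≤ L δ t :=
  Real.log_le_log hδ (le_max_right _ _)

/-- if `|t| ≤ c |s|` with `c ≥ 1` then `L s ≥ L t - log c` -/
lemma L_scale {δ s t c : ℝ} (hδ : 0 < δ) (hc : 1 ≤ c) (h : |t| ≤ c * |s|) :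
    L δ t - Real.log c ≤ L δ s := by
  unfold L
  have hc0 : 0 < c := by linarith
  rw [sub_le_iff_le_add, ← Real.log_mul (lt_max_of_lt_right hδ).ne' hc0.ne']
  apply Real.log_le_log (lt_max_of_lt_right hδ)
  apply max_le
  · calc |t| ≤ c * |s| := h
      _ ≤ max |s| δ * c := by rw [mul_comm]; gcongr; exact le_max_left _ _
  · calc δ = δ * 1 := (mul_one _).symm
      _ ≤ max |s| δ * c := by gcongr; exact le_max_right _ _

lemma L_cont {δ : ℝ} (hδ : 0 < δ) : Continuous (L δ) := by
  unfold L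
  apply Continuous.log (by fun_prop)
  intro x; exact (lt_max_of_lt_right hδ).ne'

lemma intble_of {g : ℝ → ℝ} (hg : Continuous g) {a b : ℝ} :
    IntervalIntegrable (fun x => g (cs x)) volume a b := by
  obtain ⟨B, hB⟩ := isCompact_Icc.exists_bound_of_continuousOn (s := Icc (0 : ℝ) 1)
    hg.continuousOn
  rw [intervalIntegrable_iff]
  refine Measure.integrableOn_of_bounded (M := B) (by simp) ?_ ?_
  · exact (hg.measurable.comp measurable_cs).aestronglyMeasurable
  · filter_upwards with x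
    exact hB _ ⟨cs_nonneg x, cs_le x⟩

lemma ae_Ico : ∀ᵐ x : ℝ, x ∈ uIoc (0 : ℝ) 1 → x ∈ Ico (0 : ℝ) 1 := by
  have : ∀ᵐ x : ℝ, x ≠ 1 := by
    rw [ae_iff]; simp
  filter_upwards [this] with x hx h
  rw [uIoc_of_le zero_le_one] at h
  exact ⟨h.1.le, lt_of_le_of_ne h.2 hx⟩

lemma selfsim {g : ℝ → ℝ} (hg : Continuous g) :
    ∫ x in (0 : ℝ)..1, g (cs x) = (1 / 2) * (∫ x in (0 : ℝ)..1, g (cs x / 3))
      + (1 / 2) * ∫ x in (0 : ℝ)..1, g ((2 + cs x) / 3) := by
  have e1 : ∫ x in (0 : ℝ)..1, g (cs x / 3) = ∫ x in (0 : ℝ)..1, g (cs (x / 2)) := by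
    apply intervalIntegral.integral_congr_ae
    filter_upwards [ae_Ico] with x hx h
    rw [cs_half x (dg_lo (hx h))]
  have e2 : ∫ x in (0 : ℝ)..1, g ((2 + cs x) / 3) = ∫ x in (0 : ℝ)..1, g (cs (1 / 2 + x / 2)) := by
    apply intervalIntegral.integral_congr_ae
    filter_upwards [ae_Ico] with x hx h
    rw [show 1 / 2 + x / 2 = (1 + x) / 2 by ring, cs_half' x (dg_hi (hx h))]
  rw [e1, e2, intervalIntegral.integral_comp_div (fun x => g (cs x)) (by norm_num),
    intervalIntegral.integral_comp_add_div (fun x => g (cs x)) (by norm_num),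
    ← intervalIntegral.integral_add_adjacent_intervals (a := 0) (b := 1 / 2) (c := 1)
      (intble_of hg) (intble_of hg)]
  norm_num
  ring

/-- the truncated potential -/
noncomputable def T (δ t : ℝ) : ℝ := ∫ x in (0 : ℝ)..1, L δ (t - cs x)

lemma L_int {δ : ℝ} (hδ : 0 < δ) {g : ℝ → ℝ} (hg : Continuous g) :
    IntervalIntegrable (fun x => L δ (g (cs x))) volume 0 1 :=
  intble_of (g := fun y => L δ (g y)) ((L_cont hδ).comp hg)

lemma const_le_int {f : ℝ → ℝ} {c : ℝ} (hf : IntervalIntegrable f volume 0 1) (h : ∀ x, c ≤ f x) :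
    c ≤ ∫ x in (0 : ℝ)..1, f x := by
  have := intervalIntegral.integral_mono_on (a := 0) (b := 1) zero_le_one
    (intervalIntegrable_const (c := c)) hf (fun x _ => h x)
  simpa using this

lemma T_step {δ m : ℝ} (hδ : 0 < δ) (hm : ∀ t, m ≤ T δ t) (t : ℝ) :
    (1 / 2) * m - (1 / 2) * Real.log 18 ≤ T δ t := by
  have hc1 : Continuous (fun y : ℝ => t - y) := by fun_prop
  have e : T δ t = (1 / 2) * (∫ x in (0 : ℝ)..1, L δ (t - cs x / 3))
      + (1 / 2) * ∫ x in (0 : ℝ)..1, L δ (t - (2 + cs x) / 3) :=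
    selfsim (g := fun y => L δ (t - y)) ((L_cont hδ).comp hc1)
  have hl : Real.log 18 = Real.log 3 + Real.log 6 := by
    rw [← Real.log_mul (by norm_num) (by norm_num)]; norm_num
  have i1 : IntervalIntegrable (fun x => L δ (t - cs x / 3)) volume 0 1 :=
    L_int hδ (g := fun y => t - y / 3) (by fun_prop)
  have i2 : IntervalIntegrable (fun x => L δ (t - (2 + cs x) / 3)) volume 0 1 :=
    L_int hδ (g := fun y => t - (2 + y) / 3) (by fun_prop)
  have i3 : IntervalIntegrable (fun x => L δ (3 * t - cs x)) volume 0 1 :=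
    L_int hδ (g := fun y => 3 * t - y) (by fun_prop)
  have i4 : IntervalIntegrable (fun x => L δ (3 * t - 2 - cs x)) volume 0 1 :=
    L_int hδ (g := fun y => 3 * t - 2 - y) (by fun_prop)
  have big : ∀ y : ℝ, 1 / 6 ≤ |y| → - Real.log 6 ≤ L δ y := by
    intro y hy
    have : - Real.log 6 = Real.log (1 / 6) := by rw [one_div, Real.log_inv]
    rw [this]
    exact Real.log_le_log (by norm_num) (hy.trans (le_max_left _ _))
  rcases le_total t (1 / 2) with h | h
  · have h2 : - Real.log 6 ≤ ∫ x in (0 : ℝ)..1, L δ (t - (2 + cs x) / 3) := by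
      apply const_le_int i2
      intro x
      apply big
      rw [abs_sub_comm]
      refine le_trans ?_ (le_abs_self _)
      linarith [cs_nonneg x]
    have h1 : T δ (3 * t) - Real.log 3 ≤ ∫ x in (0 : ℝ)..1, L δ (t - cs x / 3) := by
      have := intervalIntegral.integral_mono_on (a := 0) (b := 1) zero_le_one
        (i3.sub (intervalIntegrable_const (c := Real.log 3))) i1 (fun x _ => by
          apply L_scale hδ (by norm_num : (1 : ℝ) ≤ 3)
          rw [show 3 * t - cs x = 3 * (t - cs x / 3) by ring, abs_mul]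
          simp)
      rw [intervalIntegral.integral_sub i3 intervalIntegrable_const] at this
      simpa [T] using this
    linarith [hm (3 * t)]
  · have h2 : - Real.log 6 ≤ ∫ x in (0 : ℝ)..1, L δ (t - cs x / 3) := by
      apply const_le_int i1
      intro x
      apply big
      refine le_trans ?_ (le_abs_self _)
      linarith [cs_le x]
    have h1 : T δ (3 * t - 2) - Real.log 3 ≤ ∫ x in (0 : ℝ)..1, L δ (t - (2 + cs x) / 3) := by
      have := intervalIntegral.integral_mono_on (a := 0) (b := 1) zero_le_one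
        (i4.sub (intervalIntegrable_const (c := Real.log 3))) i2 (fun x _ => by
          apply L_scale hδ (by norm_num : (1 : ℝ) ≤ 3)
          rw [show 3 * t - 2 - cs x = 3 * (t - (2 + cs x) / 3) by ring, abs_mul]
          simp)
      rw [intervalIntegral.integral_sub i4 intervalIntegrable_const] at this
      simpa [T] using this
    linarith [hm (3 * t - 2)]

theorem T_ge {δ : ℝ} (hδ : 0 < δ) (t : ℝ) : - Real.log 18 ≤ T δ t := by
  have hb : BddBelow (range (T δ)) := by
    refine ⟨Real.log δ, ?_⟩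
    rintro _ ⟨t, rfl⟩
    exact const_le_int (L_int hδ (g := fun y => t - y) (by fun_prop)) (fun x => L_ge hδ)
  have h1 : ∀ t, (⨅ t, T δ t) ≤ T δ t := fun t => ciInf_le hb t
  have h2 : (1 / 2) * (⨅ t, T δ t) - (1 / 2) * Real.log 18 ≤ ⨅ t, T δ t :=
    le_ciInf (fun t => T_step hδ h1 t)
  linarith [h1 t]

end X92.HD
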