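import Pool.Agent.X92.HD1
open MeasureTheory Set Filter Topology Complex Metric

namespace X92.HD

/-- the Cantor set transported to the unit circle -/
def K1 : Set ℂ := {w | ‖w‖ = 1 ∧ w.re ≤ 0 ∧ 2 * w.im ∈ cantorSet}

lemma isClosed_K1 : IsClosed K1 := by
  unfold K1
  refine (isClosed_eq continuous_norm continuous_const).inter
    ((isClosed_le Complex.continuous_re continuous_const).inter ?_)
  exact isClosed_cantorSet.preimage (by fun_prop)

noncomputable def xi (x : ℝ) : ℂ := ((-√(1 - (cs x / 2) ^ 2) : ℝ) : ℂ) + ((cs x / 2 : ℝ) : ℂ) * I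

lemma xi_re (x : ℝ) : (xi x).re = -√(1 - (cs x / 2) ^ 2) := by simp [xi]
lemma xi_im (x : ℝ) : (xi x).im = cs x / 2 := by simp [xi]

lemma xi_norm (x : ℝ) : ‖xi x‖ = 1 := by
  have h1 := cs_nonneg x
  have h2 := cs_le x
  have : ‖xi x‖ ^ 2 = 1 := by
    rw [← Complex.normSq_eq_norm_sq, normSq_apply, xi_re, xi_im, neg_mul_neg,
      Real.mul_self_sqrt (by nlinarith)]
    ring
  exact (pow_eq_one_iff_of_nonneg (norm_nonneg _) two_ne_zero).1 this

lemma xi_mem {x : ℝ} (hx : x ∈ Ico (0 : ℝ) 1) : xi x ∈ K1 := by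
  refine ⟨xi_norm x, ?_, ?_⟩
  · rw [xi_re]; linarith [Real.sqrt_nonneg (1 - (cs x / 2) ^ 2)]
  · rw [xi_im, show 2 * (cs x / 2) = cs x by ring]; exact cs_mem hx

lemma measurable_xi : Measurable xi := by
  have := measurable_cs
  unfold xi
  fun_prop

/-- the logarithmic potential -/
noncomputable def V (w : ℂ) : ℝ := ∫ x in Ico (0 : ℝ) 1, Real.log ‖w - xi x‖

instance : IsProbabilityMeasure (volume.restrict (Ico (0 : ℝ) 1)) :=
  ⟨by simp⟩

lemma log_int {w : ℂ} {δ : ℝ} (hδ : 0 < δ) (h : ∀ x ∈ Ico (0 : ℝ) 1, δ ≤ ‖w - xi x‖) :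
    Integrable (fun x => Real.log ‖w - xi x‖) (volume.restrict (Ico (0 : ℝ) 1)) := by
  have hm := measurable_xi
  refine Integrable.of_bound (C := |Real.log δ| + |Real.log (‖w‖ + 1)|) ?_ ?_
  · exact (Real.measurable_log.comp ((measurable_const.sub hm).norm)).aestronglyMeasurable
  · filter_upwards [ae_restrict_mem measurableSet_Ico] with x hx
    have h1 := Real.log_le_log hδ (h x hx)
    have h2 : Real.log ‖w - xi x‖ ≤ Real.log (‖w‖ + 1) := by
      apply Real.log_le_log (hδ.trans_le (h x hx))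
      refine (norm_sub_le _ _).trans ?_
      rw [xi_norm]
    rw [Real.norm_eq_abs, abs_le]
    constructor
    · linarith [neg_abs_le (Real.log δ), abs_nonneg (Real.log (‖w‖ + 1))]
    · linarith [le_abs_self (Real.log (‖w‖ + 1)), abs_nonneg (Real.log δ)]

lemma exists_gap {w : ℂ} (hw : w ∉ K1) : ∃ δ > 0, ∀ x ∈ Ico (0 : ℝ) 1, δ ≤ ‖w - xi x‖ := by
  obtain ⟨δ, hδ, h⟩ := Metric.isOpen_iff.1 isClosed_K1.isOpen_compl w hw
  refine ⟨δ, hδ, fun x hx => ?_⟩
  by_contra hlt
  push Not at hlt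
  have : xi x ∈ ball w δ := by
    rw [mem_ball, dist_comm, dist_eq_norm]; exact hlt
  exact h this (xi_mem hx)

lemma T_eq (δ t : ℝ) : T δ t = ∫ x in Ico (0 : ℝ) 1, L δ (t - cs x) := by
  unfold T
  rw [intervalIntegral.integral_of_le zero_le_one, integral_Ico_eq_integral_Ioc]

lemma log36 : Real.log 36 ≤ 4 := by
  rw [Real.log_le_iff_le_exp (by norm_num)]
  have h := Real.exp_one_gt_d9
  have : Real.exp 4 = (Real.exp 1) ^ 4 := by rw [← Real.exp_nat_mul]; norm_num
  rw [this]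
  have h3 : (2.7 : ℝ) ^ 4 ≤ (Real.exp 1) ^ 4 := by
    apply pow_le_pow_left₀ (by norm_num); linarith
  refine le_trans (by norm_num) h3

theorem V_ge {w : ℂ} (hw : w ∉ K1) : -4 ≤ V w := by
  obtain ⟨δ, hδ, h⟩ := exists_gap hw
  have hi : Integrable (fun x => L (2 * δ) (2 * w.im - cs x)) (volume.restrict (Ico (0 : ℝ) 1)) := by
    have := L_int (δ := 2 * δ) (by positivity) (g := fun y => 2 * w.im - y) (by fun_prop)
    rw [intervalIntegrable_iff_integrableOn_Ico_of_le zero_le_one] at this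
    exact this
  have h1 : ∫ x in Ico (0 : ℝ) 1, (L (2 * δ) (2 * w.im - cs x) - Real.log 2) ≤ V w := by
    apply integral_mono_ae (hi.sub (integrable_const _)) (log_int hδ h)
    filter_upwards [ae_restrict_mem measurableSet_Ico] with x hx
    have h2 : max |2 * w.im - cs x| (2 * δ) ≤ 2 * ‖w - xi x‖ := by
      apply max_le
      · have := Complex.abs_im_le_norm (w - xi x)
        rw [sub_im, xi_im] at this
        rw [show 2 * w.im - cs x = 2 * (w.im - cs x / 2) by ring, abs_mul]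
        simpa using this
      · linarith [h x hx]
    have h3 : 0 < ‖w - xi x‖ := hδ.trans_le (h x hx)
    change L (2 * δ) (2 * w.im - cs x) - Real.log 2 ≤ Real.log ‖w - xi x‖
    unfold L
    rw [sub_le_iff_le_add, ← Real.log_mul h3.ne' (by norm_num), mul_comm ‖w - xi x‖]
    exact Real.log_le_log (lt_max_of_lt_right (by positivity)) h2
  rw [integral_sub hi (integrable_const _), ← T_eq] at h1
  simp only [integral_const, probReal_univ, smul_eq_mul, one_mul] at h1
  have h4 := T_ge (δ := 2 * δ) (by positivity) (2 * w.im)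
  have h5 : Real.log 36 = Real.log 18 + Real.log 2 := by
    rw [← Real.log_mul (by norm_num) (by norm_num)]; norm_num
  linarith [log36]

/-- local holomorphic completion of the potential -/
noncomputable def H (w0 w : ℂ) : ℂ := ∫ x in Ico (0 : ℝ) 1, Complex.log (1 + (w - w0) / (w0 - xi x))

lemma H_aux {w0 w ξ : ℂ} {r : ℝ} (hr : 0 < r) (h : r ≤ ‖w0 - ξ‖) (_hw : ‖w - w0‖ < r) :
    ‖(w - w0) / (w0 - ξ)‖ ≤ ‖w - w0‖ / r := by
  rw [norm_div]
  gcongr

lemma H_diff {w0 : ℂ} {r : ℝ} (hr : 0 < r) (h : ∀ x ∈ Ico (0 : ℝ) 1, r ≤ ‖w0 - xi x‖) :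
    DifferentiableOn ℂ (H w0) (ball w0 r) := by
  intro w hw
  rw [mem_ball, dist_eq_norm] at hw
  have hm := measurable_xi
  set ε := (r - ‖w - w0‖) / 2 with hε
  have hε0 : 0 < ε := by rw [hε]; linarith
  have hmeas : ∀ w' : ℂ, AEStronglyMeasurable (fun x => Complex.log (1 + (w' - w0) / (w0 - xi x)))
      (volume.restrict (Ico (0 : ℝ) 1)) := by
    intro w'
    exact (Complex.measurable_log.comp (by fun_prop)).aestronglyMeasurable
  have key := hasDerivAt_integral_of_dominated_loc_of_deriv_le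
    (μ := volume.restrict (Ico (0 : ℝ) 1))
    (F := fun w' x => Complex.log (1 + (w' - w0) / (w0 - xi x)))
    (F' := fun w' x => (1 / (w0 - xi x)) / (1 + (w' - w0) / (w0 - xi x)))
    (x₀ := w) (s := ball w ε) (bound := fun _ => 1 / ε) (ball_mem_nhds w hε0)
    (Eventually.of_forall hmeas) ?_ ?_ ?_ (integrable_const _) ?_
  · exact key.2.differentiableAt.differentiableWithinAt
  · refine Integrable.of_bound (C := ‖w - w0‖ / r + (‖w - w0‖ / r) ^ 2 * (1 - ‖w - w0‖ / r)⁻¹ / 2)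
      (hmeas w) ?_
    filter_upwards [ae_restrict_mem measurableSet_Ico] with x hx
    have h1 := H_aux hr (h x hx) hw
    have h2 : ‖w - w0‖ / r < 1 := by rw [div_lt_one hr]; exact hw
    refine (Complex.norm_log_one_add_le (h1.trans_lt h2)).trans ?_
    rw [add_comm]
    have : (1 - ‖(w - w0) / (w0 - xi x)‖)⁻¹ ≤ (1 - ‖w - w0‖ / r)⁻¹ := by
      apply inv_anti₀ (by linarith) (by linarith)
    gcongr
    exact inv_nonneg.2 (by linarith)
  · exact (by fun_prop : Measurable (fun x => (1 / (w0 - xi x)) / (1 + (w - w0) / (w0 - xi x)))).aestronglyMeasurable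
  · filter_upwards [ae_restrict_mem measurableSet_Ico] with x hx w' hw'
    rw [mem_ball, dist_eq_norm] at hw'
    have h0 : 0 < ‖w0 - xi x‖ := hr.trans_le (h x hx)
    have hne : w0 - xi x ≠ 0 := norm_pos_iff.1 h0
    have hge : ε ≤ ‖w' - xi x‖ := by
      have t1 : ‖w0 - xi x‖ ≤ ‖w0 - w‖ + ‖w - w'‖ + ‖w' - xi x‖ := by
        calc ‖w0 - xi x‖ = ‖(w0 - w) + (w - w') + (w' - xi x)‖ := by congr 1; ring
          _ ≤ _ := norm_add₃_le
      rw [norm_sub_rev w0 w, norm_sub_rev w w'] at t1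
      have := h x hx
      have : ε + ε = r - ‖w - w0‖ := by rw [hε]; ring
      linarith
    have e : (1 / (w0 - xi x)) / (1 + (w' - w0) / (w0 - xi x)) = 1 / (w' - xi x) := by
      have hne2 : w' - xi x ≠ 0 := norm_pos_iff.1 (hε0.trans_le hge)
      have : 1 + (w' - w0) / (w0 - xi x) = (w' - xi x) / (w0 - xi x) := by
        field_simp; ring
      rw [this]
      field_simp
    rw [e, norm_div, norm_one]
    gcongr
  · filter_upwards [ae_restrict_mem measurableSet_Ico] with x hx w' hw'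
    rw [mem_ball, dist_eq_norm] at hw'
    have hlt : ‖w' - w0‖ < r := by
      calc ‖w' - w0‖ = ‖(w' - w) + (w - w0)‖ := by congr 1; ring
        _ ≤ ‖w' - w‖ + ‖w - w0‖ := norm_add_le _ _
        _ < r := by
          have : ε + ε = r - ‖w - w0‖ := by rw [hε]; ring
          linarith
    have h1 := H_aux hr (h x hx) hlt
    have h2 : ‖w' - w0‖ / r < 1 := by rw [div_lt_one hr]; exact hlt
    have hs : 1 + (w' - w0) / (w0 - xi x) ∈ slitPlane :=
      Complex.mem_slitPlane_of_norm_lt_one (h1.trans_lt h2)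
    have hd : HasDerivAt (fun w' : ℂ => 1 + (w' - w0) / (w0 - xi x)) (1 / (w0 - xi x)) w' :=
      (((hasDerivAt_id w').sub_const w0).div_const _).const_add 1
    exact hd.clog hs

lemma V_eq {w0 : ℂ} {r : ℝ} (hr : 0 < r) (h : ∀ x ∈ Ico (0 : ℝ) 1, r ≤ ‖w0 - xi x‖) {w : ℂ}
    (hw : ‖w - w0‖ < r) : V w = V w0 + (H w0 w).re := by
  have hm := measurable_xi
  have hge : ∀ x ∈ Ico (0 : ℝ) 1, r - ‖w - w0‖ ≤ ‖w - xi x‖ := by
    intro x hx
    have t1 : ‖w0 - xi x‖ ≤ ‖w0 - w‖ + ‖w - xi x‖ := by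
      calc ‖w0 - xi x‖ = ‖(w0 - w) + (w - xi x)‖ := by congr 1; ring
        _ ≤ _ := norm_add_le _ _
    rw [norm_sub_rev w0 w] at t1
    linarith [h x hx]
  have i1 := log_int (w := w) (δ := r - ‖w - w0‖) (by linarith) hge
  have i0 := log_int (w := w0) hr h
  have iH : Integrable (fun x => Complex.log (1 + (w - w0) / (w0 - xi x)))
      (volume.restrict (Ico (0 : ℝ) 1)) := by
    refine Integrable.of_bound (C := ‖w - w0‖ / r + (‖w - w0‖ / r) ^ 2 * (1 - ‖w - w0‖ / r)⁻¹ / 2)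
      ((Complex.measurable_log.comp (by fun_prop)).aestronglyMeasurable) ?_
    filter_upwards [ae_restrict_mem measurableSet_Ico] with x hx
    have h1 := H_aux hr (h x hx) hw
    have h2 : ‖w - w0‖ / r < 1 := by rw [div_lt_one hr]; exact hw
    refine (Complex.norm_log_one_add_le (h1.trans_lt h2)).trans ?_
    rw [add_comm]
    have : (1 - ‖(w - w0) / (w0 - xi x)‖)⁻¹ ≤ (1 - ‖w - w0‖ / r)⁻¹ := by
      apply inv_anti₀ (by linarith) (by linarith)
    gcongr
    exact inv_nonneg.2 (by linarith)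
  have e : (H w0 w).re = ∫ x in Ico (0 : ℝ) 1, (Real.log ‖w - xi x‖ - Real.log ‖w0 - xi x‖) := by
    unfold H
    rw [← RCLike.re_eq_complex_re, ← integral_re iH]
    apply integral_congr_ae
    filter_upwards [ae_restrict_mem measurableSet_Ico] with x hx
    have h0 : 0 < ‖w0 - xi x‖ := hr.trans_le (h x hx)
    have hne : w0 - xi x ≠ 0 := norm_pos_iff.1 h0
    have h3 : 0 < ‖w - xi x‖ := lt_of_lt_of_le (by linarith) (hge x hx)
    rw [RCLike.re_eq_complex_re, Complex.log_re]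
    have : 1 + (w - w0) / (w0 - xi x) = (w - xi x) / (w0 - xi x) := by
      field_simp; ring
    rw [this, norm_div, Real.log_div h3.ne' h0.ne']
  rw [e, integral_sub i1 i0]
  unfold V
  ring

theorem V_harmonicAt {w0 : ℂ} (hw : w0 ∉ K1) : InnerProductSpace.HarmonicAt V w0 := by
  obtain ⟨r, hr, h⟩ := exists_gap hw
  have h1 : AnalyticAt ℂ (H w0) w0 :=
    (H_diff hr h).analyticAt (ball_mem_nhds w0 hr)
  have h2 := (InnerProductSpace.harmonicAt_const (V w0)).add (h1.harmonicAt_re)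
  rw [InnerProductSpace.harmonicAt_congr_nhds (f₂ := (fun _ => V w0) + fun z => (H w0 z).re)]
  · exact h2
  · filter_upwards [ball_mem_nhds w0 hr] with w hw
    rw [mem_ball, dist_eq_norm] at hw
    exact V_eq hr h hw

lemma gap0 : ∀ x ∈ Ico (0 : ℝ) 1, (1 : ℝ) ≤ ‖(0 : ℂ) - xi x‖ := by
  intro x _; rw [zero_sub, norm_neg, xi_norm]

lemma V_zero : V 0 = 0 := by
  unfold V
  have : ∀ x, Real.log ‖(0 : ℂ) - xi x‖ = 0 := by
    intro x; rw [zero_sub, norm_neg, xi_norm, Real.log_one]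
  simp only [this, integral_zero]

lemma G_diff : DifferentiableOn ℂ (H 0) (ball 0 1) := H_diff one_pos gap0

lemma V_eq_G {w : ℂ} (hw : ‖w‖ < 1) : V w = (H 0 w).re := by
  have := V_eq one_pos gap0 (w := w) (by simpa using hw)
  rw [this, V_zero, zero_add]

lemma G_norm {w : ℂ} (hw : ‖w‖ ≤ 1 / 2) : ‖H 0 w‖ ≤ 2 * ‖w‖ := by
  unfold H
  have := norm_integral_le_of_norm_le_const (μ := volume.restrict (Ico (0 : ℝ) 1))
    (f := fun x => Complex.log (1 + (w - 0) / (0 - xi x))) (C := 2 * ‖w‖) (by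
      filter_upwards with x
      have h1 : ‖(w - 0) / (0 - xi x)‖ = ‖w‖ := by
        rw [norm_div, sub_zero, zero_sub, norm_neg, xi_norm, div_one]
      have := Complex.norm_log_one_add_half_le_self (z := (w - 0) / (0 - xi x)) (by rw [h1]; exact hw)
      rw [h1] at this
      linarith [norm_nonneg w])
  simpa using this

lemma V_small {w : ℂ} (hw : ‖w‖ ≤ 1 / 2) : -(2 * ‖w‖) ≤ V w := by
  rw [V_eq_G (by linarith)]
  have h1 := Complex.abs_re_le_norm (H 0 w)
  have h2 := G_norm hw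
  have := (abs_le.1 h1).1
  linarith

lemma V_large {w : ℂ} (hw : 2 ≤ ‖w‖) : Real.log ‖w‖ - Real.log 2 ≤ V w := by
  have hg : ∀ x ∈ Ico (0 : ℝ) 1, ‖w‖ / 2 ≤ ‖w - xi x‖ := by
    intro x _
    have := norm_sub_norm_le w (xi x)
    rw [xi_norm] at this
    linarith
  have h1 : ∫ x in Ico (0 : ℝ) 1, Real.log (‖w‖ / 2) ≤ V w := by
    apply integral_mono_ae (integrable_const _) (log_int (by linarith : 0 < ‖w‖ / 2) hg)
    filter_upwards [ae_restrict_mem measurableSet_Ico] with x hx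
    exact Real.log_le_log (by linarith) (hg x hx)
  simp only [integral_const, probReal_univ, smul_eq_mul, one_mul] at h1
  rwa [Real.log_div (by linarith) (by norm_num)] at h1

end X92.HD
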