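import Pool.Agent.X92.HD2
open MeasureTheory Set Filter Topology Complex Metric InnerProductSpace

namespace X92.HD

/-- the domain -/
def D (N : ℕ) : Set ℂ := {z : ℂ | ∀ n : ℕ, (z / 2 ^ n) ^ N ∉ K1}

noncomputable def term (N n : ℕ) (z : ℂ) : ℝ := (4 ^ n / N : ℝ) * V ((z / 2 ^ n) ^ N)

noncomputable def W (N : ℕ) (z : ℂ) : ℝ := ∑' n, term N n z

lemma V_comp_harmonicAt {p : ℂ → ℂ} {z0 : ℂ} (hp : AnalyticAt ℂ p z0) (h : p z0 ∉ K1) :
    HarmonicAt (fun z => V (p z)) z0 := by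
  obtain ⟨r, hr, hg⟩ := exists_gap h
  have h1 : AnalyticAt ℂ (H (p z0)) (p z0) :=
    (H_diff hr hg).analyticAt (ball_mem_nhds _ hr)
  have h2 : AnalyticAt ℂ (fun z => H (p z0) (p z)) z0 := h1.comp hp
  have h3 := (harmonicAt_const (V (p z0)) (x := z0)).add (h2.harmonicAt_re)
  rw [harmonicAt_congr_nhds (f₂ := (fun _ => V (p z0)) + fun z => (H (p z0) (p z)).re)]
  · exact h3
  · filter_upwards [hp.continuousAt.preimage_mem_nhds (ball_mem_nhds (p z0) hr)] with w hw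
    rw [mem_preimage, mem_ball, dist_eq_norm] at hw
    exact V_eq hr hg hw

lemma pow_bound {N : ℕ} (hN : 3 ≤ N) {z : ℂ} {m : ℕ} (hz : ‖z‖ < 2 ^ m) (k : ℕ) :
    ‖(z / 2 ^ (m + 1 + k)) ^ N‖ ≤ (1 / 8 : ℝ) ^ (k + 1) := by
  have h1 : ‖z / 2 ^ (m + 1 + k)‖ ≤ (1 / 2 : ℝ) ^ (k + 1) := by
    rw [norm_div, norm_pow, Complex.norm_ofNat, div_le_iff₀ (by positivity)]
    have e : (1 / 2 : ℝ) ^ (k + 1) * 2 ^ (m + 1 + k) = 2 ^ m := by
      rw [show m + 1 + k = (k + 1) + m by ring, pow_add (2 : ℝ) (k + 1) m, ← mul_assoc, ← mul_pow]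
      norm_num
    rw [e]
    exact hz.le
  rw [norm_pow]
  calc ‖z / 2 ^ (m + 1 + k)‖ ^ N ≤ ((1 / 2 : ℝ) ^ (k + 1)) ^ N := by gcongr
    _ ≤ ((1 / 2 : ℝ) ^ (k + 1)) ^ 3 := by
      apply pow_le_pow_of_le_one (by positivity) _ hN
      exact pow_le_one₀ (by norm_num) (by norm_num)
    _ = (1 / 8 : ℝ) ^ (k + 1) := by
      rw [← pow_mul, mul_comm, pow_mul]; norm_num

lemma pow8 (k : ℕ) : (1 / 8 : ℝ) ^ (k + 1) ≤ 1 / 2 := by
  calc (1 / 8 : ℝ) ^ (k + 1) ≤ (1 / 8 : ℝ) ^ 1 :=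
        pow_le_pow_of_le_one (by norm_num) (by norm_num) (by omega)
    _ ≤ 1 / 2 := by norm_num

noncomputable def F (N m k : ℕ) (z : ℂ) : ℂ :=
  ((4 ^ (m + 1 + k) / N : ℝ) : ℂ) * H 0 ((z / 2 ^ (m + 1 + k)) ^ N)

lemma term_eq {N : ℕ} (hN : 3 ≤ N) {z : ℂ} {m : ℕ} (hz : ‖z‖ < 2 ^ m) (k : ℕ) :
    term N (m + 1 + k) z = (F N m k z).re := by
  unfold term F
  rw [Complex.re_ofReal_mul, V_eq_G]
  exact (pow_bound hN hz k).trans_lt (lt_of_le_of_lt (pow8 k) (by norm_num))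

lemma F_bound {N : ℕ} (hN : 3 ≤ N) {z : ℂ} {m : ℕ} (hz : ‖z‖ < 2 ^ m) (k : ℕ) :
    ‖F N m k z‖ ≤ (2 * 4 ^ m) * (1 / 2 : ℝ) ^ (k + 1) := by
  have hN0 : (1 : ℝ) ≤ N := by exact_mod_cast (by omega : 1 ≤ N)
  have h1 := pow_bound hN hz k
  have h2 := G_norm (h1.trans (pow8 k))
  unfold F
  rw [norm_mul, Complex.norm_real, Real.norm_of_nonneg (by positivity)]
  calc (4 ^ (m + 1 + k) / N : ℝ) * ‖H 0 ((z / 2 ^ (m + 1 + k)) ^ N)‖
      ≤ (4 ^ (m + 1 + k) : ℝ) * (2 * (1 / 8 : ℝ) ^ (k + 1)) := by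
        apply mul_le_mul _ (h2.trans (by gcongr)) (norm_nonneg _) (by positivity)
        exact div_le_self (by positivity) hN0
    _ = (2 * 4 ^ m) * (1 / 2 : ℝ) ^ (k + 1) := by
        rw [show m + 1 + k = m + (k + 1) by ring, pow_add]
        have : (4 : ℝ) ^ (k + 1) * (1 / 8 : ℝ) ^ (k + 1) = (1 / 2 : ℝ) ^ (k + 1) := by
          rw [← mul_pow]; norm_num
        rw [← this]; ring

lemma summ_bd (m : ℕ) : Summable (fun k : ℕ => (2 * 4 ^ m) * (1 / 2 : ℝ) ^ (k + 1)) :=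
  (((summable_nat_add_iff 1).2 (summable_geometric_of_lt_one (r := (1 / 2 : ℝ)) (by norm_num)
    (by norm_num)))).mul_left _

lemma exists_pow_gt (z : ℂ) : ∃ m : ℕ, ‖z‖ < 2 ^ m := pow_unbounded_of_one_lt _ (by norm_num)

lemma summ_F {N : ℕ} (hN : 3 ≤ N) {z : ℂ} {m : ℕ} (hz : ‖z‖ < 2 ^ m) :
    Summable (fun k => F N m k z) :=
  Summable.of_norm_bounded (summ_bd m) (fun k => F_bound hN hz k)

lemma summ_term {N : ℕ} (hN : 3 ≤ N) (z : ℂ) : Summable (fun n => term N n z) := by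
  obtain ⟨m, hm⟩ := exists_pow_gt z
  rw [← summable_nat_add_iff (m + 1)]
  have h1 : Summable (fun k => (F N m k z).re) := by
    have := (Complex.hasSum_re (summ_F hN hm).hasSum).summable
    exact this
  refine h1.congr (fun k => ?_)
  rw [← term_eq hN hm k, add_comm k]

lemma W_eq {N : ℕ} (hN : 3 ≤ N) {z : ℂ} {m : ℕ} (hz : ‖z‖ < 2 ^ m) :
    W N z = ∑ n ∈ Finset.range (m + 1), term N n z + (∑' k, F N m k z).re := by
  unfold W
  rw [← (summ_term hN z).sum_add_tsum_nat_add (m + 1)]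
  congr 1
  rw [Complex.re_tsum (summ_F hN hz)]
  apply tsum_congr
  intro k
  rw [← term_eq hN hz k, add_comm k]

lemma tail_diff {N : ℕ} (hN : 3 ≤ N) (m : ℕ) :
    DifferentiableOn ℂ (fun z => ∑' k, F N m k z) (ball 0 (2 ^ m)) := by
  apply differentiableOn_tsum_of_summable_norm (summ_bd m) _ isOpen_ball
  · intro k z hz
    rw [mem_ball_zero_iff] at hz
    exact F_bound hN hz k
  · intro k z hz
    rw [mem_ball_zero_iff] at hz
    have h1 : ‖(z / 2 ^ (m + 1 + k)) ^ N‖ < 1 :=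
      (pow_bound hN hz k).trans_lt (lt_of_le_of_lt (pow8 k) (by norm_num))
    have h2 : DifferentiableAt ℂ (H 0) ((z / 2 ^ (m + 1 + k)) ^ N) :=
      G_diff.differentiableAt (isOpen_ball.mem_nhds (by rw [mem_ball_zero_iff]; exact h1))
    have h3 : DifferentiableAt ℂ (fun z : ℂ => (z / 2 ^ (m + 1 + k)) ^ N) z := by fun_prop
    have h4 : DifferentiableAt ℂ (fun z : ℂ => H 0 ((z / 2 ^ (m + 1 + k)) ^ N)) z :=
      DifferentiableAt.comp (g := H 0) (f := fun z : ℂ => (z / 2 ^ (m + 1 + k)) ^ N) z h2 h3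
    exact (h4.const_mul _).differentiableWithinAt

lemma sum_harmonicAt {f : ℕ → ℂ → ℝ} {z0 : ℂ} (h : ∀ n, HarmonicAt (f n) z0) (k : ℕ) :
    HarmonicAt (fun z => ∑ n ∈ Finset.range k, f n z) z0 := by
  induction k with
  | zero => simp
  | succ k ih =>
    have := ih.add (h k)
    simp only [Finset.sum_range_succ]
    exact this

theorem W_harmonic {N : ℕ} (hN : 3 ≤ N) : HarmonicOnNhd (W N) (D N) := by
  intro z0 hz0
  obtain ⟨m, hm⟩ := exists_pow_gt z0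
  have h1 : AnalyticAt ℂ (fun z => ∑' k, F N m k z) z0 :=
    (tail_diff hN m).analyticAt (isOpen_ball.mem_nhds (by rw [mem_ball_zero_iff]; exact hm))
  have h2 : ∀ n, HarmonicAt (term N n) z0 := by
    intro n
    have h3 : HarmonicAt (fun z : ℂ => V ((z / 2 ^ n) ^ N)) z0 := by
      apply V_comp_harmonicAt (p := fun z : ℂ => (z / 2 ^ n) ^ N) _ (hz0 n)
      fun_prop
    exact h3.const_smul (c := (4 ^ n / N : ℝ))
  have h4 := (sum_harmonicAt h2 (m + 1)).add h1.harmonicAt_re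
  rw [harmonicAt_congr_nhds (f₂ := (fun z => ∑ n ∈ Finset.range (m + 1), term N n z)
    + fun z => (∑' k, F N m k z).re)]
  · exact h4
  · filter_upwards [isOpen_ball.mem_nhds (show z0 ∈ ball 0 (2 ^ m) by
      rw [mem_ball_zero_iff]; exact hm)] with z hz
    rw [mem_ball_zero_iff] at hz
    exact W_eq hN hz

/-- lower bound for the terms with large index -/
lemma term_ge {N : ℕ} (hN : 3 ≤ N) {z : ℂ} (hz : z ∈ D N) {m : ℕ} (hm : ‖z‖ < 2 ^ (m + 1))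
    (j : ℕ) : -((32 / N) * 4 ^ m * (1 / 2 : ℝ) ^ j) ≤ term N (m + j) z := by
  have hN0 : (0 : ℝ) < N := by exact_mod_cast (by omega : 0 < N)
  have hV := V_ge (hz (m + j))
  unfold term
  have hp : (0 : ℝ) < 4 ^ m / N := by positivity
  rcases j with _ | _ | j
  · simp only [add_zero, pow_zero, mul_one] at hV ⊢
    have : -((32 / N : ℝ) * 4 ^ m) = (4 ^ m / N) * (-32) := by ring
    rw [this]
    apply mul_le_mul_of_nonneg_left _ hp.le
    linarith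
  · simp only [zero_add, pow_one] at hV ⊢
    have : -((32 / N : ℝ) * 4 ^ m * (1 / 2)) = (4 ^ (m + 1) / N) * (-4) := by rw [pow_succ]; ring
    rw [this]
    exact mul_le_mul_of_nonneg_left hV (by positivity)
  · have h1 := pow_bound hN hm j
    rw [show m + 1 + 1 + j = m + (j + 1 + 1) by ring] at h1
    have h2 := V_small (h1.trans (pow8 j))
    have : -((32 / N : ℝ) * 4 ^ m * (1 / 2) ^ (j + 1 + 1))
        ≤ (4 ^ (m + (j + 1 + 1)) / N) * (-(2 * (1 / 8 : ℝ) ^ (j + 1))) := by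
      rw [pow_add (4 : ℝ) m]
      have e : (4 : ℝ) ^ (j + 1 + 1) * (1 / 8 : ℝ) ^ (j + 1) = 8 * (1 / 2 : ℝ) ^ (j + 1 + 1) := by
        rw [pow_succ (4 : ℝ) (j + 1), mul_right_comm, ← mul_pow, pow_succ (1 / 2 : ℝ) (j + 1)]
        norm_num
        ring
      have e2 : (4 ^ m * 4 ^ (j + 1 + 1) / N : ℝ) * (-(2 * (1 / 8 : ℝ) ^ (j + 1)))
          = -((2 / N : ℝ) * 4 ^ m * (8 * (1 / 2) ^ (j + 1 + 1))) := by rw [← e]; ring
      rw [e2]
      have : 0 ≤ (1 / N : ℝ) * 4 ^ m * (1 / 2) ^ (j + 1 + 1) := by positivity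
      have e3 : ((32 / N : ℝ) * 4 ^ m * (1 / 2) ^ (j + 1 + 1))
          = 32 * ((1 / N : ℝ) * 4 ^ m * (1 / 2) ^ (j + 1 + 1)) := by ring
      have e4 : ((2 / N : ℝ) * 4 ^ m * (8 * (1 / 2) ^ (j + 1 + 1)))
          = 16 * ((1 / N : ℝ) * 4 ^ m * (1 / 2) ^ (j + 1 + 1)) := by ring
      rw [e3, e4]
      linarith
    refine this.trans ?_
    apply mul_le_mul_of_nonneg_left _ (by positivity)
    linarith

/-- nonnegativity of the terms with small index -/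
lemma term_nonneg_lo {N : ℕ} (hN : 3 ≤ N) {z : ℂ} {m n : ℕ} (hm : 2 ^ m ≤ ‖z‖) (hn : n < m) :
    (4 ^ n / 2 : ℝ) * Real.log 2 ≤ term N n z := by
  have hN0 : (0 : ℝ) < N := by exact_mod_cast (by omega : 0 < N)
  have h1 : (2 : ℝ) ≤ ‖z / 2 ^ n‖ := by
    rw [norm_div, norm_pow, Complex.norm_ofNat, le_div_iff₀ (by positivity)]
    calc (2 : ℝ) * 2 ^ n = 2 ^ (n + 1) := by ring
      _ ≤ 2 ^ m := pow_le_pow_right₀ (by norm_num) hn
      _ ≤ ‖z‖ := hm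
  have h2 : (2 : ℝ) ^ N ≤ ‖(z / 2 ^ n) ^ N‖ := by
    rw [norm_pow]; gcongr
  have h3 : (2 : ℝ) ≤ 2 ^ N := by
    calc (2 : ℝ) = 2 ^ 1 := by norm_num
      _ ≤ 2 ^ N := pow_le_pow_right₀ (by norm_num) (by omega)
  have h4 := V_large (h3.trans h2)
  have h5 : (N : ℝ) * Real.log 2 ≤ Real.log ‖(z / 2 ^ n) ^ N‖ := by
    rw [← Real.log_pow]
    exact Real.log_le_log (by positivity) h2
  have hl := Real.log_pos (by norm_num : (1 : ℝ) < 2)
  have h6 : (N / 2 : ℝ) * Real.log 2 ≤ V ((z / 2 ^ n) ^ N) := by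
    have : (2 : ℝ) ≤ N := by exact_mod_cast (by omega : 2 ≤ N)
    nlinarith
  unfold term
  calc (4 ^ n / 2 : ℝ) * Real.log 2 = (4 ^ n / N) * ((N / 2 : ℝ) * Real.log 2) := by
        field_simp
    _ ≤ _ := mul_le_mul_of_nonneg_left h6 (by positivity)

lemma W_lower {N : ℕ} (hN : 3 ≤ N) {z : ℂ} (hz : z ∈ D N) {m : ℕ} (hm : ‖z‖ < 2 ^ (m + 1)) :
    ∑ n ∈ Finset.range m, term N n z - 64 / N * 4 ^ m ≤ W N z := by
  unfold W
  rw [← (summ_term hN z).sum_add_tsum_nat_add m]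
  have hs : Summable (fun j : ℕ => -((32 / N : ℝ) * 4 ^ m * (1 / 2 : ℝ) ^ j)) :=
    ((summable_geometric_of_lt_one (r := (1 / 2 : ℝ)) (by norm_num) (by norm_num)).mul_left _).neg
  have h1 : ∑' j : ℕ, -((32 / N : ℝ) * 4 ^ m * (1 / 2 : ℝ) ^ j) ≤ ∑' j, term N (j + m) z := by
    apply hs.tsum_le_tsum _ ((summable_nat_add_iff m).2 (summ_term hN z))
    intro j
    rw [add_comm j m]
    exact term_ge hN hz hm j
  rw [tsum_neg, tsum_mul_left, tsum_geometric_of_lt_one (by norm_num) (by norm_num)] at h1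
  have : (32 / N : ℝ) * 4 ^ m * (1 - 1 / 2)⁻¹ = 64 / N * 4 ^ m := by
    rw [show (1 - 1 / 2 : ℝ)⁻¹ = 2 by norm_num]; ring
  rw [this] at h1
  linarith

/-- `|z|²` is dominated by a harmonic function -/
theorem growth {N : ℕ} (hN : 1000 ≤ N) {z : ℂ} (hz : z ∈ D N) : ‖z‖ ^ 2 ≤ 200 * W N z + 20 := by
  have hN3 : 3 ≤ N := by omega
  have hN0 : (1000 : ℝ) ≤ N := by exact_mod_cast hN
  have hN1 : (64 : ℝ) / N ≤ 64 / 1000 := by gcongr
  rcases lt_or_ge ‖z‖ 2 with h | h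
  · have := W_lower hN3 hz (m := 0) (by simpa using h)
    simp only [Finset.range_zero, Finset.sum_empty, pow_zero, mul_one, zero_sub] at this
    nlinarith [norm_nonneg z]
  · obtain ⟨m, hm1, hm2⟩ := exists_nat_pow_near (x := ‖z‖) (y := 2) (by linarith) (by norm_num)
    have hm0 : m ≠ 0 := by
      rintro rfl
      simp at hm2
      linarith
    obtain ⟨k, rfl⟩ := Nat.exists_eq_succ_of_ne_zero hm0
    have h1 := W_lower hN3 hz hm2
    have h2 : (4 ^ k / 2 : ℝ) * Real.log 2 ≤ ∑ n ∈ Finset.range (k + 1), term N n z := by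
      refine (term_nonneg_lo hN3 hm1 (Nat.lt_succ_self k)).trans ?_
      apply Finset.single_le_sum (f := fun n => term N n z) (fun n hn => ?_)
        (Finset.mem_range.2 (Nat.lt_succ_self k))
      rw [Finset.mem_range] at hn
      refine le_trans ?_ (term_nonneg_lo hN3 hm1 hn)
      have := Real.log_pos (by norm_num : (1 : ℝ) < 2)
      positivity
    have hl := Real.log_two_gt_d9
    have h4 : (0 : ℝ) < 4 ^ k := by positivity
    have h5 : (64 : ℝ) / N * 4 ^ (k + 1) ≤ 64 / 1000 * 4 ^ (k + 1) := by gcongr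
    have h6 : (4 : ℝ) ^ (k + 1) = 4 * 4 ^ k := by ring
    have h7 : ‖z‖ ^ 2 ≤ 16 * 4 ^ k := by
      calc ‖z‖ ^ 2 ≤ (2 ^ (k + 1 + 1)) ^ 2 := by
            have := norm_nonneg z
            have h9 : ‖z‖ ≤ 2 ^ (k + 1 + 1) := hm2.le
            exact pow_le_pow_left₀ this h9 2
        _ = 16 * 4 ^ k := by
            rw [← pow_mul, mul_comm, pow_mul, pow_succ, pow_succ]; norm_num; ring
    have h8 : (4 ^ k / 2 : ℝ) * 0.69 ≤ (4 ^ k / 2 : ℝ) * Real.log 2 := by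
      apply mul_le_mul_of_nonneg_left _ (by positivity)
      norm_num at hl ⊢
      linarith
    change ∑ n ∈ Finset.range (k + 1), term N n z - 64 / N * 4 ^ (k + 1) ≤ W N z at h1
    rw [h6] at h1 h5
    linarith

end X92.HD
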