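import Mathlib
open MeasureTheory Set Filter Topology Complex Metric InnerProductSpace

namespace X92.HD

lemma harnack {u : ℂ → ℝ} {c w : ℂ} {R : ℝ} (hR : 0 < R) (hu : HarmonicOnNhd u (closedBall c R))
    (hpos : ∀ z ∈ closedBall c R, 0 ≤ u z) (hw : ‖w - c‖ ≤ R / 2) : u w ≤ 4 * u c := by
  have hwb : w ∈ ball c R := by rw [mem_ball, dist_eq_norm]; linarith
  rw [← hu.circleAverage_poissonKernel_smul hwb]
  have h1 : Real.circleAverage u c R = u c := by
    have := InnerProductSpace.HarmonicOnNhd.circleAverage_eq (f := u) (c := c) (R := R) (by rwa [abs_of_pos hR])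
    exact this
  have hne : ∀ z ∈ sphere c R, R / 2 ≤ ‖z - w‖ := by
    intro z hz
    rw [mem_sphere, dist_eq_norm] at hz
    have : ‖z - c‖ ≤ ‖z - w‖ + ‖w - c‖ := by
      calc ‖z - c‖ = ‖(z - w) + (w - c)‖ := by congr 1; ring
        _ ≤ _ := norm_add_le _ _
    linarith
  have hcu : ContinuousOn u (sphere c R) := hu.continuousOn.mono sphere_subset_closedBall
  have hcp : ContinuousOn (poissonKernel c w) (sphere c R) := by
    unfold poissonKernel
    apply ContinuousOn.div (by fun_prop) (by fun_prop)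
    intro z hz
    have := hne z hz
    rw [show z - c - (w - c) = z - w by ring]
    have : 0 < ‖z - w‖ := by linarith
    positivity
  have habs : |R| = R := abs_of_pos hR
  have h2 : Real.circleAverage (poissonKernel c w • u) c R
      ≤ Real.circleAverage ((4 : ℝ) • u) c R := by
    apply Real.circleAverage_mono
    · apply ContinuousOn.circleIntegrable'
      rw [habs]
      exact hcp.smul hcu
    · apply ContinuousOn.circleIntegrable'
      rw [habs]
      exact hcu.const_smul (4 : ℝ)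
    · intro z hz
      rw [habs] at hz
      simp only [Pi.smul_apply', Pi.smul_apply, smul_eq_mul]
      have h3 := hne z hz
      have h4 : poissonKernel c w z ≤ 4 := by
        unfold poissonKernel
        rw [show z - c - (w - c) = z - w by ring]
        have h5 : 0 < ‖z - w‖ := by linarith
        rw [div_le_iff₀ (by positivity)]
        rw [mem_sphere, dist_eq_norm] at hz
        rw [hz]
        nlinarith [norm_nonneg (w - c)]
      exact mul_le_mul_of_nonneg_right h4 (hpos z (sphere_subset_closedBall hz))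
  refine h2.trans (le_of_eq ?_)
  rw [Real.circleAverage_smul, h1, smul_eq_mul]

/-- Harnack chains -/
lemma harnack_chain {u : ℂ → ℝ} {D : Set ℂ} (hu : HarmonicOnNhd u D) (hpos : ∀ z ∈ D, 0 ≤ u z)
    (p : ℕ → ℂ) (R : ℕ → ℝ) (K : ℕ) (hR : ∀ k < K, 0 < R k)
    (hD : ∀ k < K, closedBall (p k) (R k) ⊆ D)
    (hstep : ∀ k < K, ‖p (k + 1) - p k‖ ≤ R k / 2) : u (p K) ≤ 4 ^ K * u (p 0) := by
  induction K with
  | zero => simp
  | succ K ih =>
    have h1 := ih (fun k hk => hR k (by omega)) (fun k hk => hD k (by omega))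
      (fun k hk => hstep k (by omega))
    have h2 := harnack (hR K (by omega)) (hu.mono (hD K (by omega)))
      (fun z hz => hpos z (hD K (by omega) hz)) (hstep K (by omega))
    calc u (p (K + 1)) ≤ 4 * u (p K) := h2
      _ ≤ 4 * (4 ^ K * u (p 0)) := by gcongr
      _ = 4 ^ (K + 1) * u (p 0) := by ring

/-- Harnack on a circle inside an annulus `{ρ < |z| < 2ρ}` -/
lemma harnack_circle {u : ℂ → ℝ} {D : Set ℂ} (hu : HarmonicOnNhd u D) (hpos : ∀ z ∈ D, 0 ≤ u z)
    {ρ : ℝ} (hρ : 0 < ρ) (hA : ∀ z : ℂ, ρ < ‖z‖ → ‖z‖ < 2 * ρ → z ∈ D) {θ : ℝ}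
    (hθ : |θ| ≤ 7) : u (circleMap 0 (3 / 2 * ρ) θ) ≤ 4 ^ 100 * u (circleMap 0 (3 / 2 * ρ) 0)
      ∧ u (circleMap 0 (3 / 2 * ρ) 0) ≤ 4 ^ 100 * u (circleMap 0 (3 / 2 * ρ) θ) := by
  have hdist : ∀ a b : ℝ, ‖circleMap 0 (3 / 2 * ρ) a - circleMap 0 (3 / 2 * ρ) b‖
      ≤ 3 / 2 * ρ * |a - b| := by
    intro a b
    simp only [circleMap, zero_add]
    rw [← mul_sub, norm_mul, Complex.norm_real, Real.norm_of_nonneg (by positivity)]
    gcongr
    have e : Complex.exp (a * I) - Complex.exp (b * I)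
        = Complex.exp (b * I) * (Complex.exp (I * ((a - b : ℝ) : ℂ)) - 1) := by
      rw [mul_sub, ← Complex.exp_add]
      push_cast
      ring_nf
    rw [e, norm_mul, Complex.norm_exp_ofReal_mul_I, one_mul]
    exact Real.norm_exp_I_mul_ofReal_sub_one_le
  have hball : ∀ a : ℝ, closedBall (circleMap 0 (3 / 2 * ρ) a) (ρ / 3) ⊆ D := by
    intro a z hz
    rw [mem_closedBall, dist_eq_norm] at hz
    have hn : ‖circleMap 0 (3 / 2 * ρ) a‖ = 3 / 2 * ρ := by
      rw [norm_circleMap_zero, abs_of_pos (by positivity)]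
    apply hA
    · have := norm_sub_norm_le (circleMap 0 (3 / 2 * ρ) a) z
      rw [norm_sub_rev] at this
      linarith
    · have := norm_sub_norm_le z (circleMap 0 (3 / 2 * ρ) a)
      linarith
  have hchain : ∀ a b : ℝ, |a - b| ≤ 7 → u (circleMap 0 (3 / 2 * ρ) a)
      ≤ 4 ^ 100 * u (circleMap 0 (3 / 2 * ρ) b) := by
    intro a b hab
    have := harnack_chain hu hpos (fun k => circleMap 0 (3 / 2 * ρ) (b + (k : ℝ) / 100 * (a - b)))
      (fun _ => ρ / 3) 100 (fun _ _ => by positivity) (fun k _ => hball _) (fun k _ => by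
        refine (hdist _ _).trans ?_
        have : b + ((k + 1 : ℕ) : ℝ) / 100 * (a - b) - (b + (k : ℝ) / 100 * (a - b))
            = (a - b) / 100 := by push_cast; ring
        rw [this, abs_div, abs_of_pos (by norm_num : (0 : ℝ) < 100)]
        nlinarith)
    simpa using this
  exact ⟨hchain θ 0 (by simpa using hθ), hchain 0 θ (by simpa using hθ)⟩

/-- Harnack along a ray, under a dilation-invariant safety distance -/
lemma harnack_ray {D : Set ℂ} {κ : ℝ} (hκ : 0 < κ)
    (hray : ∀ t : ℝ, 0 < t → closedBall (t : ℂ) (κ * t) ⊆ D) :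
    ∃ C : ℝ, 0 ≤ C ∧ ∀ u : ℂ → ℝ, HarmonicOnNhd u D → (∀ z ∈ D, 0 ≤ u z) →
      ∀ t : ℝ, 0 < t → u ((2 * t : ℝ) : ℂ) ≤ C * u (t : ℂ) := by
  obtain ⟨K, hK⟩ := exists_nat_gt (2 / κ)
  have hK0 : (0 : ℝ) < K := lt_trans (by positivity) hK
  refine ⟨4 ^ K, by positivity, fun u hu hpos t ht => ?_⟩
  have := harnack_chain hu hpos (fun k => ((t + (k : ℝ) / K * t : ℝ) : ℂ))
      (fun k => κ * (t + (k : ℝ) / K * t)) K (fun k _ => by positivity)
      (fun k _ => hray _ (by positivity)) (fun k _ => by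
        rw [← Complex.ofReal_sub, Complex.norm_real, Real.norm_eq_abs]
        have e : t + ((k + 1 : ℕ) : ℝ) / K * t - (t + (k : ℝ) / K * t) = t / K := by
          push_cast; field_simp; ring
        rw [e, abs_of_pos (by positivity)]
        have h1 : t / K ≤ κ * t / 2 := by
          rw [div_le_div_iff₀ hK0 (by norm_num)]
          have : 2 < K * κ := by rwa [div_lt_iff₀ hκ] at hK
          nlinarith
        have h2 : κ * t / 2 ≤ κ * (t + (k : ℝ) / K * t) / 2 := by
          have : 0 ≤ (k : ℝ) / K * t := by positivity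
          gcongr
          linarith
        linarith)
  simp only [CharP.cast_eq_zero, zero_div, zero_mul, add_zero] at this
  rw [div_self hK0.ne', one_mul, ← two_mul] at this
  exact this

end X92.HD
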