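import Mathlib
open MeasureTheory Set Filter Topology Complex Metric InnerProductSpace

namespace X92.HD

/-- the circular integral of `u` over `|z| = r` -/
noncomputable def M (u : ℂ → ℝ) (r : ℝ) : ℝ := ∫ θ in (0 : ℝ)..2 * Real.pi, u (circleMap 0 r θ)

lemma fderiv_eq_re {u : ℂ → ℝ} (z v : ℂ) :
    fderiv ℝ u z v = ((((fderiv ℝ u z 1 : ℝ) : ℂ) - I * ((fderiv ℝ u z I : ℝ) : ℂ)) * v).re := by
  have : v = v.re • (1 : ℂ) + v.im • I := by
    simp [Complex.re_add_im]
  conv_lhs => rw [this]
  rw [map_add, map_smul, map_smul]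
  simp [mul_comm]

/-- the circular integrals of a harmonic function on an annulus are affine in `log r` -/
theorem M_affine {u : ℂ → ℝ} {ρ₁ ρ₂ : ℝ} (h0 : 0 ≤ ρ₁)
    (hu : HarmonicOnNhd u {z : ℂ | ρ₁ < ‖z‖ ∧ ‖z‖ < ρ₂}) :
    ∃ c : ℝ, ∀ r R : ℝ, ρ₁ < r → r ≤ R → R < ρ₂ → M u R - M u r = c * Real.log (R / r) := by
  set g : ℂ → ℂ := fun z => ((fderiv ℝ u z 1 : ℝ) : ℂ) - I * ((fderiv ℝ u z I : ℝ) : ℂ) with hg
  set A : Set ℂ := {z : ℂ | ρ₁ < ‖z‖ ∧ ‖z‖ < ρ₂} with hA
  have hgan : ∀ z ∈ A, AnalyticAt ℂ g z := fun z hz =>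
    HarmonicAt.analyticAt_complex_partial (hu z hz)
  have hgc : ContinuousOn g A := fun z hz => (hgan z hz).continuousAt.continuousWithinAt
  rcases lt_or_ge ρ₁ ρ₂ with h12 | h12
  swap
  · exact ⟨0, fun r R h1 h2 h3 => by exfalso; linarith⟩
  set t0 := (ρ₁ + ρ₂) / 2 with ht0
  set c0 : ℂ := ∮ z in C(0, t0), g z with hc0
  have hconst : ∀ r R : ℝ, ρ₁ < r → r ≤ R → R < ρ₂ → (∮ z in C(0, R), g z) = ∮ z in C(0, r), g z := by
    intro r R h1 h2 h3
    apply Complex.circleIntegral_eq_of_differentiable_on_annulus_off_countable (by linarith) h2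
      Set.countable_empty
    · apply hgc.mono
      intro z hz
      rw [Set.mem_sdiff, mem_closedBall, mem_ball, dist_zero_right, not_lt] at hz
      exact ⟨by linarith [hz.2], by linarith [hz.1]⟩
    · intro z hz
      have hz' := hz.1
      rw [Set.mem_sdiff, mem_closedBall, mem_ball, dist_zero_right, not_le] at hz'
      exact (hgan z ⟨by linarith [hz'.2], by linarith [hz'.1]⟩).differentiableAt
  have hc : ∀ t : ℝ, ρ₁ < t → t < ρ₂ → (∮ z in C(0, t), g z) = c0 := by
    intro t h1 h2
    rcases le_total t t0 with h | h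
    · exact (hconst t t0 h1 h (by rw [ht0]; linarith)).symm
    · exact hconst t0 t (by rw [ht0]; linarith) h h2
  have hinner : ∀ t : ℝ, ρ₁ < t → t < ρ₂ →
      ∫ θ in (0 : ℝ)..2 * Real.pi, (g (circleMap 0 t θ) * Complex.exp (θ * I)).re = c0.im / t := by
    intro t h1 h2
    have ht : 0 < t := by linarith
    have hint : IntervalIntegrable (fun θ : ℝ => g (circleMap 0 t θ) * Complex.exp (θ * I)) volume 0
        (2 * Real.pi) := by
      apply Continuous.intervalIntegrable
      apply Continuous.mul _ (by fun_prop)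
      apply hgc.comp_continuous (continuous_circleMap 0 t)
      intro θ
      simp only [hA, Set.mem_ofPred_eq, norm_circleMap_zero, abs_of_pos ht]
      exact ⟨h1, h2⟩
    have e1 : ∫ θ in (0 : ℝ)..2 * Real.pi, (g (circleMap 0 t θ) * Complex.exp (θ * I)).re
        = (∫ θ in (0 : ℝ)..2 * Real.pi, g (circleMap 0 t θ) * Complex.exp (θ * I)).re :=
      intervalIntegral.intervalIntegral_re hint
    have e2 := hc t h1 h2
    rw [circleIntegral] at e2
    have e3 : ∫ θ in (0 : ℝ)..2 * Real.pi, deriv (circleMap 0 t) θ • g (circleMap 0 t θ)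
        = (t * I) * ∫ θ in (0 : ℝ)..2 * Real.pi, g (circleMap 0 t θ) * Complex.exp (θ * I) := by
      rw [← intervalIntegral.integral_const_mul]
      congr 1
      ext θ
      rw [deriv_circleMap, smul_eq_mul]
      simp only [circleMap, zero_add]
      ring
    rw [e3] at e2
    rw [e1, ← e2]
    generalize (∫ θ in (0 : ℝ)..2 * Real.pi, g (circleMap 0 t θ) * Complex.exp (θ * I)) = J
    rw [show ((t : ℂ) * I * J).im = t * J.re by simp]
    field_simp
  refine ⟨c0.im, fun r R h1 h2 h3 => ?_⟩
  have hr : 0 < r := by linarith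
  have hR : 0 < R := by linarith
  set Φ : ℝ → ℝ → ℝ := fun θ t => (g (circleMap 0 t θ) * Complex.exp (θ * I)).re with hΦ
  have hcont : ContinuousOn (Function.uncurry Φ) (univ ×ˢ uIcc r R) := by
    apply Complex.continuous_re.comp_continuousOn
    apply ContinuousOn.mul
    · apply hgc.comp
      · apply Continuous.continuousOn
        simp only [circleMap]
        fun_prop
      · rintro ⟨θ, t⟩ ⟨_, ht⟩
        rw [uIcc_of_le h2] at ht
        simp only [hA, Set.mem_ofPred_eq, norm_circleMap_zero]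
        have ht' : r ≤ t ∧ t ≤ R := ht
        rw [abs_of_pos (by linarith)]
        exact ⟨by linarith, by linarith⟩
    · apply Continuous.continuousOn
      fun_prop
  have hftc : ∀ θ : ℝ, u (circleMap 0 R θ) - u (circleMap 0 r θ) = ∫ t in r..R, Φ θ t := by
    intro θ
    symm
    apply intervalIntegral.integral_eq_sub_of_hasDerivAt (f := fun t => u (circleMap 0 t θ))
    · intro t ht
      rw [uIcc_of_le h2] at ht
      have hmem : circleMap 0 t θ ∈ A := by
        simp only [hA, Set.mem_ofPred_eq, norm_circleMap_zero]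
        rw [abs_of_pos (by linarith [ht.1])]
        exact ⟨by linarith [ht.1], by linarith [ht.2]⟩
      have hd : HasFDerivAt u (fderiv ℝ u (circleMap 0 t θ)) (circleMap 0 t θ) :=
        ((hu _ hmem).1.differentiableAt (by norm_num)).hasFDerivAt
      have hc1 : HasDerivAt (fun t : ℝ => circleMap 0 t θ) (Complex.exp (θ * I)) t := by
        simp only [circleMap, zero_add]
        have := (Complex.ofRealCLM.hasDerivAt (x := t)).mul_const (Complex.exp (θ * I))
        simpa using this
      have := hd.comp_hasDerivAt t hc1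
      rw [fderiv_eq_re] at this
      exact this
    · apply ContinuousOn.intervalIntegrable
      exact hcont.comp (f := fun t => (θ, t)) (s := uIcc r R) (by fun_prop) (by
        intro t ht
        exact ⟨mem_univ _, ht⟩)
  have hui : ∀ t : ℝ, ρ₁ < t → t < ρ₂ →
      IntervalIntegrable (fun θ : ℝ => u (circleMap 0 t θ)) volume 0 (2 * Real.pi) := by
    intro t ht1 ht2
    apply Continuous.intervalIntegrable
    apply hu.continuousOn.comp_continuous (continuous_circleMap 0 t)
    intro θ
    change ρ₁ < ‖circleMap 0 t θ‖ ∧ ‖circleMap 0 t θ‖ < ρ₂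
    rw [norm_circleMap_zero, abs_of_pos (by linarith)]
    exact ⟨ht1, ht2⟩
  unfold M
  rw [← intervalIntegral.integral_sub (hui R (by linarith) h3) (hui r h1 (by linarith))]
  simp only [hftc]
  rw [MeasureTheory.intervalIntegral_intervalIntegral_swap]
  · have : ∫ t in r..R, ∫ θ in (0 : ℝ)..2 * Real.pi, Φ θ t = ∫ t in r..R, c0.im * t⁻¹ := by
      apply intervalIntegral.integral_congr
      intro t ht
      rw [uIcc_of_le h2] at ht
      simp only [hΦ]
      rw [hinner t (by linarith [ht.1]) (by linarith [ht.2])]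
      rw [div_eq_mul_inv]
    rw [this, intervalIntegral.integral_const_mul, integral_inv_of_pos hr hR]
  · have h5 : IntegrableOn (Function.uncurry Φ) (uIcc 0 (2 * Real.pi) ×ˢ uIcc r R) := by
      apply ContinuousOn.integrableOn_compact
      · exact isCompact_uIcc.prod isCompact_uIcc
      · exact hcont.mono (prod_mono (subset_univ _) subset_rfl)
    exact h5.mono_set (prod_mono uIoc_subset_uIcc uIoc_subset_uIcc)

end X92.HD
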