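import Pool.Agent.X92.HD6
open MeasureTheory Set Filter Topology Complex Metric InnerProductSpace

namespace X92.HD

/-- an `L²`-bounded sequence converging to zero a.e. has integrals converging to zero -/
lemma vitali {h : ℕ → ℝ → ℂ} {γ : ℂ} {B : ℝ} (hm : ∀ j, Continuous (h j))
    (h0 : ∀ᵐ θ ∂(volume.restrict (Ioc 0 (2 * Real.pi))), Tendsto (fun j => h j θ) atTop (𝓝 0))
    (hB : ∀ j, ∫ θ in Ioc 0 (2 * Real.pi), ‖h j θ‖ ^ 2 ≤ B)
    (hγ : ∀ j, ∫ θ in Ioc 0 (2 * Real.pi), h j θ = γ) : γ = 0 := by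
  set μ := volume.restrict (Ioc (0 : ℝ) (2 * Real.pi)) with hμ
  have hfin : IsFiniteMeasure μ := by rw [hμ]; exact inferInstance
  have hInt : ∀ (g : ℝ → ℝ), Continuous g → Integrable g μ := by
    intro g hg
    exact (hg.integrableOn_Icc (μ := volume)).mono_set Ioc_subset_Icc_self
  have key : ∀ T : ℝ, 0 < T → ‖γ‖ ≤ B / T := by
    intro T hT
    have h1 : Tendsto (fun j => ∫ θ, min ‖h j θ‖ T ∂μ) atTop (𝓝 (∫ _, (0 : ℝ) ∂μ)) := by
      apply tendsto_integral_of_dominated_convergence (fun _ => T)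
      · intro j
        exact ((hm j).norm.min continuous_const).aestronglyMeasurable
      · exact integrable_const _
      · intro j
        filter_upwards with θ
        rw [Real.norm_of_nonneg (le_min (norm_nonneg _) hT.le)]
        exact min_le_right _ _
      · filter_upwards [h0] with θ hθ
        have := (hθ.norm).min (tendsto_const_nhds (x := T))
        rw [norm_zero, min_eq_left hT.le] at this
        exact this
    rw [integral_zero] at h1
    have h2 : ∀ j, ‖γ‖ ≤ (∫ θ, min ‖h j θ‖ T ∂μ) + B / T := by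
      intro j
      rw [← hγ j]
      refine (norm_integral_le_integral_norm _).trans ?_
      have hcj := hm j
      have hc2 : Continuous (fun θ => ‖h j θ‖ ^ 2 / T) := by fun_prop
      have h3 : ∫ θ, ‖h j θ‖ ∂μ ≤ ∫ θ, (min ‖h j θ‖ T + ‖h j θ‖ ^ 2 / T) ∂μ := by
        apply integral_mono (hInt _ (hm j).norm)
        · apply (hInt _ ((hm j).norm.min continuous_const)).add
          exact hInt _ hc2
        · intro θ
          change ‖h j θ‖ ≤ min ‖h j θ‖ T + ‖h j θ‖ ^ 2 / T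
          rcases le_total ‖h j θ‖ T with h' | h'
          · rw [min_eq_left h']
            have : 0 ≤ ‖h j θ‖ ^ 2 / T := by positivity
            linarith
          · rw [min_eq_right h']
            have : ‖h j θ‖ ≤ ‖h j θ‖ ^ 2 / T := by
              rw [le_div_iff₀ hT]
              nlinarith [norm_nonneg (h j θ)]
            linarith
      refine h3.trans ?_
      rw [integral_add (hInt _ ((hm j).norm.min continuous_const))
        (hInt _ hc2), integral_div]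
      gcongr
      exact hB j
    have h4 := ge_of_tendsto (h1.add_const (B / T)) (Eventually.of_forall h2)
    simpa using h4
  have hB0 : 0 ≤ B := le_trans (integral_nonneg (fun θ => by positivity)) (hB 0)
  have : ‖γ‖ ≤ 0 := by
    apply le_of_forall_pos_le_add
    intro ε hε
    have := key ((B + 1) / ε) (by positivity)
    refine this.trans ?_
    rw [zero_add, div_div_eq_mul_div, div_le_iff₀ (by positivity)]
    nlinarith
  exact norm_le_zero_iff.1 this

lemma M_bdd {u : ℂ → ℝ} {ρ₁ ρ₂ : ℝ} (h0 : 0 < ρ₁) (_h12 : ρ₁ < ρ₂)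
    (hu : HarmonicOnNhd u {z : ℂ | ρ₁ < ‖z‖ ∧ ‖z‖ < ρ₂}) :
    ∃ B : ℝ, ∀ r : ℝ, ρ₁ < r → r < ρ₂ → M u r ≤ B := by
  obtain ⟨c, hc⟩ := M_affine h0.le hu
  set t := (ρ₁ + ρ₂) / 2 with ht
  refine ⟨|M u t| + |c| * Real.log (ρ₂ / ρ₁), fun r h1 h2 => ?_⟩
  have hr : 0 < r := h0.trans h1
  have ht0 : 0 < t := by rw [ht]; linarith
  have hlog : ∀ a b : ℝ, ρ₁ < a → a ≤ b → b < ρ₂ → |c * Real.log (b / a)| ≤ |c| * Real.log (ρ₂ / ρ₁) := by
    intro a b ha hab hb
    have ha0 : 0 < a := h0.trans ha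
    rw [abs_mul]
    have h3 : 0 ≤ Real.log (b / a) := Real.log_nonneg (by rw [le_div_iff₀ ha0]; linarith)
    rw [abs_of_nonneg h3]
    apply mul_le_mul_of_nonneg_left _ (abs_nonneg c)
    apply Real.log_le_log (div_pos (by linarith) ha0)
    have : 0 ≤ ρ₂ := by linarith
    gcongr
  rcases le_total r t with h | h
  · have e := hc r t h1 h (by rw [ht]; linarith)
    have e2 := hlog r t h1 h (by rw [ht]; linarith)
    rw [← e, abs_le] at e2
    linarith [le_abs_self (M u t), e2.1]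
  · have e := hc t r (by rw [ht]; linarith) h h2
    have e2 := hlog t r (by rw [ht]; linarith) h h2
    rw [← e, abs_le] at e2
    linarith [le_abs_self (M u t), e2.2]

lemma annulus_const {g : ℂ → ℂ} {ρ₁ ρ₂ : ℝ} (h0 : 0 < ρ₁)
    (hg : DifferentiableOn ℂ g {z : ℂ | ρ₁ < ‖z‖ ∧ ‖z‖ < ρ₂}) {r R : ℝ} (h1 : ρ₁ < r) (h2 : r < ρ₂)
    (h3 : ρ₁ < R) (h4 : R < ρ₂) : (∮ z in C(0, r), g z) = ∮ z in C(0, R), g z := by
  have hopen : IsOpen {z : ℂ | ρ₁ < ‖z‖ ∧ ‖z‖ < ρ₂} :=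
    (isOpen_lt continuous_const continuous_norm).inter (isOpen_lt continuous_norm continuous_const)
  have main : ∀ r R : ℝ, ρ₁ < r → r ≤ R → R < ρ₂ → (∮ z in C(0, R), g z) = ∮ z in C(0, r), g z := by
    intro r R h1 h2 h3
    apply Complex.circleIntegral_eq_of_differentiable_on_annulus_off_countable (by linarith) h2
      Set.countable_empty
    · apply hg.continuousOn.mono
      intro z hz
      rw [Set.mem_sdiff, mem_closedBall, mem_ball, dist_zero_right, not_lt] at hz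
      exact ⟨by linarith [hz.2], by linarith [hz.1]⟩
    · intro z hz
      have hz' := hz.1
      rw [Set.mem_sdiff, mem_closedBall, mem_ball, dist_zero_right, not_le] at hz'
      exact hg.differentiableAt (hopen.mem_nhds ⟨by linarith [hz'.2], by linarith [hz'.1]⟩)
  rcases le_total r R with h | h
  · exact (main r R h1 h h4).symm
  · exact main R r h3 h h2

/-- circle integrals do not change when crossing the circle `|z| = ρ` -/
theorem crossing {g : ℂ → ℂ} {u : ℂ → ℝ} {ρ : ℝ} (hρ : 0 < ρ)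
    (hg1 : DifferentiableOn ℂ g {z : ℂ | ρ / 2 < ‖z‖ ∧ ‖z‖ < ρ})
    (hg2 : DifferentiableOn ℂ g {z : ℂ | ρ < ‖z‖ ∧ ‖z‖ < 2 * ρ})
    (hu1 : HarmonicOnNhd u {z : ℂ | ρ / 2 < ‖z‖ ∧ ‖z‖ < ρ})
    (hu2 : HarmonicOnNhd u {z : ℂ | ρ < ‖z‖ ∧ ‖z‖ < 2 * ρ})
    (hb1 : ∀ z : ℂ, ρ / 2 < ‖z‖ → ‖z‖ < ρ → ‖g z‖ ^ 2 ≤ u z)
    (hb2 : ∀ z : ℂ, ρ < ‖z‖ → ‖z‖ < 2 * ρ → ‖g z‖ ^ 2 ≤ u z)
    (hae : ∀ᵐ θ : ℝ, ContinuousAt g (circleMap 0 ρ θ)) {r R : ℝ}
    (h1 : ρ / 2 < r) (h2 : r < ρ) (h3 : ρ < R) (h4 : R < 2 * ρ) :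
    (∮ z in C(0, r), g z) = ∮ z in C(0, R), g z := by
  obtain ⟨B1, hB1⟩ := M_bdd (by linarith) (by linarith) hu1
  obtain ⟨B2, hB2⟩ := M_bdd hρ (by linarith) hu2
  set a : ℕ → ℝ := fun j => ρ * (1 - 1 / ((j : ℝ) + 3)) with ha
  set b : ℕ → ℝ := fun j => ρ * (1 + 1 / ((j : ℝ) + 3)) with hb
  have hj : ∀ j : ℕ, 0 < 1 / ((j : ℝ) + 3) ∧ 1 / ((j : ℝ) + 3) < 1 / 2 := by
    intro j
    have : (0 : ℝ) ≤ j := by positivity
    refine ⟨by positivity, ?_⟩
    apply one_div_lt_one_div_of_lt (by norm_num) (by linarith)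
  have ha1 : ∀ j, ρ / 2 < a j ∧ a j < ρ := by
    intro j
    have := hj j
    simp only [ha]
    constructor <;> nlinarith
  have hb1' : ∀ j, ρ < b j ∧ b j < 2 * ρ := by
    intro j
    have := hj j
    simp only [hb]
    constructor <;> nlinarith
  have hlim : Tendsto (fun j : ℕ => 1 / ((j : ℝ) + 3)) atTop (𝓝 0) := by
    have := (tendsto_one_div_add_atTop_nhds_zero_nat (𝕜 := ℝ)).comp (tendsto_add_atTop_nat 2)
    refine this.congr (fun j => ?_)
    simp only [Function.comp_apply]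
    push_cast
    ring_nf
  have halim : Tendsto a atTop (𝓝 ρ) := by
    have := (hlim.const_sub 1).const_mul ρ
    rw [sub_zero, mul_one] at this
    exact this
  have hblim : Tendsto b atTop (𝓝 ρ) := by
    have := (hlim.const_add 1).const_mul ρ
    rw [add_zero, mul_one] at this
    exact this
  set Φ : ℝ → ℝ → ℂ := fun t θ => deriv (circleMap 0 t) θ • g (circleMap 0 t θ) with hΦ
  have hcont1 : ∀ t, ρ / 2 < t → t < ρ → Continuous (Φ t) := by
    intro t ht1 ht2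
    simp only [hΦ, deriv_circleMap, smul_eq_mul]
    refine Continuous.mul (f := fun θ => circleMap 0 t θ * I) (by fun_prop) ?_
    apply hg1.continuousOn.comp_continuous (continuous_circleMap 0 t)
    intro θ
    change ρ / 2 < ‖circleMap 0 t θ‖ ∧ ‖circleMap 0 t θ‖ < ρ
    rw [norm_circleMap_zero, abs_of_pos (by linarith)]
    exact ⟨ht1, ht2⟩
  have hcont2 : ∀ t, ρ < t → t < 2 * ρ → Continuous (Φ t) := by
    intro t ht1 ht2
    simp only [hΦ, deriv_circleMap, smul_eq_mul]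
    refine Continuous.mul (f := fun θ => circleMap 0 t θ * I) (by fun_prop) ?_
    apply hg2.continuousOn.comp_continuous (continuous_circleMap 0 t)
    intro θ
    change ρ < ‖circleMap 0 t θ‖ ∧ ‖circleMap 0 t θ‖ < 2 * ρ
    rw [norm_circleMap_zero, abs_of_pos (by linarith)]
    exact ⟨ht1, ht2⟩
  have hnorm : ∀ t : ℝ, 0 < t → t < 2 * ρ → ∀ θ, ‖g (circleMap 0 t θ)‖ ^ 2 ≤ u (circleMap 0 t θ) →
      ‖Φ t θ‖ ^ 2 ≤ (2 * ρ) ^ 2 * u (circleMap 0 t θ) := by
    intro t ht0 ht θ hgu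
    simp only [hΦ, deriv_circleMap, smul_eq_mul]
    rw [norm_mul, norm_mul, norm_circleMap_zero, Complex.norm_I, mul_one, mul_pow, abs_of_pos ht0]
    have : t ^ 2 ≤ (2 * ρ) ^ 2 := by gcongr
    calc t ^ 2 * ‖g (circleMap 0 t θ)‖ ^ 2 ≤ (2 * ρ) ^ 2 * ‖g (circleMap 0 t θ)‖ ^ 2 := by gcongr
      _ ≤ _ := by gcongr
  have hInt : ∀ (g : ℝ → ℝ), Continuous g → Integrable g (volume.restrict (Ioc 0 (2 * Real.pi))) := by
    intro g hg
    exact (hg.integrableOn_Icc (μ := volume)).mono_set Ioc_subset_Icc_self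
  have hIntC : ∀ (g : ℝ → ℂ), Continuous g → Integrable g (volume.restrict (Ioc 0 (2 * Real.pi))) := by
    intro g hg
    exact (hg.integrableOn_Icc (μ := volume)).mono_set Ioc_subset_Icc_self
  have hucont1 : ∀ t, ρ / 2 < t → t < ρ → Continuous (fun θ => u (circleMap 0 t θ)) := by
    intro t ht1 ht2
    apply hu1.continuousOn.comp_continuous (continuous_circleMap 0 t)
    intro θ
    change ρ / 2 < ‖circleMap 0 t θ‖ ∧ ‖circleMap 0 t θ‖ < ρ
    rw [norm_circleMap_zero, abs_of_pos (by linarith)]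
    exact ⟨ht1, ht2⟩
  have hucont2 : ∀ t, ρ < t → t < 2 * ρ → Continuous (fun θ => u (circleMap 0 t θ)) := by
    intro t ht1 ht2
    apply hu2.continuousOn.comp_continuous (continuous_circleMap 0 t)
    intro θ
    change ρ < ‖circleMap 0 t θ‖ ∧ ‖circleMap 0 t θ‖ < 2 * ρ
    rw [norm_circleMap_zero, abs_of_pos (by linarith)]
    exact ⟨ht1, ht2⟩
  have hMint : ∀ t, ∫ θ in Ioc 0 (2 * Real.pi), u (circleMap 0 t θ) = M u t := by
    intro t
    unfold M
    rw [intervalIntegral.integral_of_le (by positivity)]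
  have hzero := vitali (h := fun j θ => Φ (b j) θ - Φ (a j) θ)
    (γ := (∮ z in C(0, R), g z) - ∮ z in C(0, r), g z)
    (B := 2 * (2 * ρ) ^ 2 * (B1 + B2))
    (fun j => (hcont2 _ (hb1' j).1 (hb1' j).2).sub (hcont1 _ (ha1 j).1 (ha1 j).2)) ?_ ?_ ?_
  · exact (sub_eq_zero.1 hzero).symm
  · apply ae_restrict_of_ae
    filter_upwards [hae] with θ hθ
    have hc : ∀ c : ℕ → ℝ, Tendsto c atTop (𝓝 ρ) → Tendsto (fun j => Φ (c j) θ) atTop (𝓝 (Φ ρ θ)) := by
      intro c hc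
      have h5 : Tendsto (fun j => circleMap 0 (c j) θ) atTop (𝓝 (circleMap 0 ρ θ)) := by
        have : Continuous (fun t : ℝ => circleMap 0 t θ) := by
          simp only [circleMap]; fun_prop
        exact (this.tendsto ρ).comp hc
      simp only [hΦ, deriv_circleMap]
      exact (h5.mul_const I).smul (hθ.tendsto.comp h5)
    have := (hc b hblim).sub (hc a halim)
    simpa using this
  · intro j
    have e : ∀ θ, ‖Φ (b j) θ - Φ (a j) θ‖ ^ 2
        ≤ 2 * (2 * ρ) ^ 2 * u (circleMap 0 (b j) θ) + 2 * (2 * ρ) ^ 2 * u (circleMap 0 (a j) θ) := by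
      intro θ
      have p1 : ‖Φ (b j) θ‖ ^ 2 ≤ (2 * ρ) ^ 2 * u (circleMap 0 (b j) θ) := by
        apply hnorm _ (by linarith [(hb1' j).1]) (hb1' j).2
        have hn : ‖circleMap 0 (b j) θ‖ = b j := by
          rw [norm_circleMap_zero, abs_of_pos (by linarith [(hb1' j).1])]
        exact hb2 _ (by rw [hn]; exact (hb1' j).1) (by rw [hn]; exact (hb1' j).2)
      have p2 : ‖Φ (a j) θ‖ ^ 2 ≤ (2 * ρ) ^ 2 * u (circleMap 0 (a j) θ) := by
        apply hnorm _ (by linarith [(ha1 j).1]) (by linarith [(ha1 j).2])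
        have hn : ‖circleMap 0 (a j) θ‖ = a j := by
          rw [norm_circleMap_zero, abs_of_pos (by linarith [(ha1 j).1])]
        exact hb1 _ (by rw [hn]; exact (ha1 j).1) (by rw [hn]; exact (ha1 j).2)
      have p3 : ‖Φ (b j) θ - Φ (a j) θ‖ ≤ ‖Φ (b j) θ‖ + ‖Φ (a j) θ‖ := norm_sub_le _ _
      have p4 : ‖Φ (b j) θ - Φ (a j) θ‖ ^ 2 ≤ (‖Φ (b j) θ‖ + ‖Φ (a j) θ‖) ^ 2 := by gcongr
      nlinarith [sq_nonneg (‖Φ (b j) θ‖ - ‖Φ (a j) θ‖)]
    have hc1 := hucont1 _ (ha1 j).1 (ha1 j).2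
    have hc2 := hucont2 _ (hb1' j).1 (hb1' j).2
    have := integral_mono (μ := volume.restrict (Ioc 0 (2 * Real.pi)))
      (hInt _ ((((hcont2 _ (hb1' j).1 (hb1' j).2).sub (hcont1 _ (ha1 j).1 (ha1 j).2)).norm).pow 2))
      (hInt _ ((hc2.const_mul (2 * (2 * ρ) ^ 2)).add (hc1.const_mul (2 * (2 * ρ) ^ 2)))) e
    refine this.trans ?_
    change (∫ x in Ioc 0 (2 * Real.pi), (2 * (2 * ρ) ^ 2 * u (circleMap 0 (b j) x)
      + 2 * (2 * ρ) ^ 2 * u (circleMap 0 (a j) x))) ≤ _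
    rw [integral_add (hInt _ (hc2.const_mul _)) (hInt _ (hc1.const_mul _)), integral_const_mul,
      integral_const_mul, hMint, hMint]
    have q1 := hB1 _ (ha1 j).1 (ha1 j).2
    have q2 := hB2 _ (hb1' j).1 (hb1' j).2
    have : (0 : ℝ) ≤ 2 * (2 * ρ) ^ 2 := by positivity
    nlinarith
  · intro j
    change (∫ x in Ioc 0 (2 * Real.pi), (Φ (b j) x - Φ (a j) x)) = _
    rw [integral_sub (hIntC _ (hcont2 _ (hb1' j).1 (hb1' j).2))
      (hIntC _ (hcont1 _ (ha1 j).1 (ha1 j).2)),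
      ← intervalIntegral.integral_of_le (by positivity),
      ← intervalIntegral.integral_of_le (by positivity)]
    have e1 := annulus_const hρ hg2 h3 h4 (hb1' j).1 (hb1' j).2
    have e2 := annulus_const (by linarith) hg1 h1 h2 (ha1 j).1 (ha1 j).2
    rw [e1, e2]
    rfl

end X92.HD
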