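import Pool.Agent.X92.HD3
open MeasureTheory Set Filter Topology Complex Metric InnerProductSpace

namespace X92.HD

lemma mem_D_of_norm {N : ℕ} (hN : N ≠ 0) {z : ℂ} (h : ∀ n : ℕ, ‖z‖ ≠ 2 ^ n) : z ∈ D N := by
  intro n hn
  have h1 := hn.1
  rw [norm_pow, pow_eq_one_iff_of_nonneg (norm_nonneg _) hN, norm_div, norm_pow,
    Complex.norm_ofNat, div_eq_one_iff_eq (by positivity)] at h1
  exact h n h1

lemma pow_gap {x : ℝ} {n : ℕ} (h1 : 2 ^ n < x) (h2 : x < 2 ^ (n + 1)) (m : ℕ) : x ≠ 2 ^ m := by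
  rintro rfl
  have h3 : n < m := (pow_lt_pow_iff_right₀ (by norm_num : (1 : ℝ) < 2)).1 h1
  have h4 : m < n + 1 := (pow_lt_pow_iff_right₀ (by norm_num : (1 : ℝ) < 2)).1 h2
  omega

lemma lt_gap {x : ℝ} (h1 : x < 1) (m : ℕ) : x ≠ 2 ^ m := by
  rintro rfl
  have : (1 : ℝ) ≤ 2 ^ m := one_le_pow₀ (by norm_num)
  linarith

lemma mem_D_annulus {N : ℕ} (hN : N ≠ 0) {z : ℂ} {n : ℕ} (h1 : 2 ^ n < ‖z‖)
    (h2 : ‖z‖ < 2 ^ (n + 1)) : z ∈ D N := mem_D_of_norm hN (pow_gap h1 h2)

lemma mem_D_disc {N : ℕ} (hN : N ≠ 0) {z : ℂ} (h1 : ‖z‖ < 1) : z ∈ D N :=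
  mem_D_of_norm hN (lt_gap h1)

lemma isOpen_D {N : ℕ} (hN : N ≠ 0) : IsOpen (D N) := by
  rw [isOpen_iff_mem_nhds]
  intro z hz
  obtain ⟨m, hm⟩ := exists_pow_gt z
  have h1 : ∀ᶠ w in 𝓝 z, ‖w‖ < 2 ^ m :=
    continuous_norm.continuousAt.eventually_lt continuousAt_const hm
  have h2 : ∀ᶠ w in 𝓝 z, ∀ n ∈ Finset.range m, (w / 2 ^ n) ^ N ∉ K1 := by
    rw [Finset.eventually_all]
    intro n _
    have hc : Continuous (fun w : ℂ => (w / 2 ^ n) ^ N) := by fun_prop
    exact (isClosed_K1.isOpen_compl.preimage hc).mem_nhds (hz n)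
  filter_upwards [h1, h2] with w hw1 hw2
  intro n
  rcases lt_or_ge n m with h | h
  · exact hw2 n (Finset.mem_range.2 h)
  · intro hK
    have h3 := hK.1
    rw [norm_pow, pow_eq_one_iff_of_nonneg (norm_nonneg _) hN, norm_div, norm_pow,
      Complex.norm_ofNat, div_eq_one_iff_eq (by positivity)] at h3
    have : (2 : ℝ) ^ m ≤ 2 ^ n := pow_le_pow_right₀ (by norm_num) h
    linarith

lemma not_K1_of_re {w : ℂ} (h : 0 < w.re) : w ∉ K1 := fun hK => by
  have := hK.2.1
  linarith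

lemma ray_ball (N : ℕ) : ∃ κ : ℝ, 0 < κ ∧ ∀ t : ℝ, 0 < t → closedBall (t : ℂ) (κ * t) ⊆ D N := by
  have h1 : ∀ᶠ ζ in 𝓝 (0 : ℂ), 0 < ((1 + ζ) ^ N).re := by
    have hc : ContinuousAt (fun ζ : ℂ => ((1 + ζ) ^ N).re) 0 := by
      have : Continuous (fun ζ : ℂ => ((1 + ζ) ^ N).re) := by fun_prop
      exact this.continuousAt
    apply hc.eventually_const_lt
    simp
  rw [Metric.eventually_nhds_iff] at h1
  obtain ⟨ε, hε, h⟩ := h1
  refine ⟨ε / 2, by positivity, fun t ht z hz n => ?_⟩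
  rw [mem_closedBall, dist_eq_norm] at hz
  apply not_K1_of_re
  have ht' : (t : ℂ) ≠ 0 := by exact_mod_cast ht.ne'
  have h2 : 0 < ((1 + (z - t) / t) ^ N).re := by
    apply h
    rw [dist_zero_right, norm_div, Complex.norm_real, Real.norm_of_nonneg ht.le, div_lt_iff₀ ht]
    nlinarith
  have e : (z / 2 ^ n) ^ N = (((t / 2 ^ n) ^ N : ℝ) : ℂ) * (1 + (z - t) / t) ^ N := by
    push_cast
    rw [← mul_pow]
    congr 1
    field_simp
    ring
  rw [e, Complex.re_ofReal_mul]
  positivity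

lemma ray_mem (N : ℕ) {t : ℝ} (ht : 0 < t) : (t : ℂ) ∈ D N := by
  obtain ⟨κ, hκ, h⟩ := ray_ball N
  exact h t ht (mem_closedBall_self (by positivity))

lemma isPreconnected_D {N : ℕ} (hN : N ≠ 0) : IsPreconnected (D N) := by
  apply isPreconnected_of_forall ((1 / 2 : ℝ) : ℂ)
  have hball : ball (0 : ℂ) 1 ⊆ D N := fun z hz => mem_D_disc hN (by simpa using hz)
  have hhalf : ((1 / 2 : ℝ) : ℂ) ∈ ball (0 : ℂ) 1 := by
    rw [mem_ball_zero_iff, Complex.norm_real, Real.norm_of_nonneg (by norm_num)]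
    norm_num
  intro z hz
  rcases lt_or_ge ‖z‖ 1 with h1 | h1
  · exact ⟨ball 0 1, hball, hhalf, by simpa using h1, (convex_ball _ _).isPreconnected⟩
  · -- positive ray
    have hz0 : z ≠ 0 := by rintro rfl; simp at h1; linarith
    set P : Set ℂ := (fun t : ℝ => (t : ℂ)) '' Ioi 0 with hP
    have hPc : IsPreconnected P :=
      isPreconnected_Ioi.image _ Complex.continuous_ofReal.continuousOn
    have hPD : P ⊆ D N := by rintro _ ⟨t, ht, rfl⟩; exact ray_mem N ht
    obtain ⟨m, hm1, hm2⟩ := exists_nat_pow_near (x := ‖z‖) (y := 2) h1 (by norm_num)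
    -- choose a scaling factor moving `z` off the circle
    obtain ⟨τ, hτ0, hτ1, hτ⟩ : ∃ τ : ℝ, 0 < τ ∧ τ < 1 ∧ ∀ s : ℝ, τ ≤ s → s < 1 → ∀ n : ℕ, s * ‖z‖ ≠ 2 ^ n := by
      rcases hm1.eq_or_lt with h | h
      · refine ⟨3 / 4, by norm_num, by norm_num, fun s hs1 hs2 n => ?_⟩
        rw [← h]
        rcases m with _ | m
        · simp only [pow_zero, mul_one]
          exact lt_gap hs2 n
        · apply pow_gap (n := m)
          · rw [pow_succ]; have : (0 : ℝ) < 2 ^ m := by positivity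
            nlinarith
          · have : (0 : ℝ) < 2 ^ (m + 1) := by positivity
            nlinarith
      · refine ⟨(2 ^ m / ‖z‖ + 1) / 2, by positivity, ?_, fun s hs1 hs2 n => ?_⟩
        · have : 2 ^ m / ‖z‖ < 1 := by rw [div_lt_one (by linarith)]; exact h
          linarith
        · have h2 : 2 ^ m / ‖z‖ < 1 := by rw [div_lt_one (by linarith)]; exact h
          have h3 : 2 ^ m / ‖z‖ < s := by linarith
          rw [div_lt_iff₀ (by linarith)] at h3
          apply pow_gap h3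
          calc s * ‖z‖ ≤ 1 * ‖z‖ := by gcongr
            _ < 2 ^ (m + 1) := by simpa using hm2
    set S : Set ℂ := (fun s : ℝ => (s : ℂ) * z) '' Icc τ 1 with hS
    have hSc : IsPreconnected S :=
      isPreconnected_Icc.image _ (by fun_prop)
    have hSD : S ⊆ D N := by
      rintro _ ⟨s, hs, rfl⟩
      rcases hs.2.eq_or_lt with h | h
      · simp only [h, Complex.ofReal_one, one_mul]; exact hz
      · apply mem_D_of_norm hN
        intro n
        rw [norm_mul, Complex.norm_real, Real.norm_of_nonneg (by linarith [hs.1])]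
        exact hτ s hs.1 h n
    set C : Set ℂ := sphere 0 (τ * ‖z‖) with hC
    have hCc : IsPreconnected C :=
      isPreconnected_sphere (by rw [Complex.rank_real_complex]; norm_num) _ _
    have hCD : C ⊆ D N := by
      intro w hw
      apply mem_D_of_norm hN
      rw [hC, mem_sphere_zero_iff_norm] at hw
      intro n
      rw [hw]
      exact hτ τ le_rfl hτ1 n
    have hzn : 0 < ‖z‖ := by linarith
    refine ⟨(P ∪ C) ∪ S, union_subset (union_subset hPD hCD) hSD, ?_, ?_, ?_⟩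
    · left; left
      exact ⟨1 / 2, by simp, rfl⟩
    · right
      exact ⟨1, ⟨hτ1.le, le_rfl⟩, by simp⟩
    · apply IsPreconnected.union ((τ : ℂ) * z)
      · right
        rw [hC, mem_sphere_zero_iff_norm, norm_mul, Complex.norm_real, Real.norm_of_nonneg hτ0.le]
      · exact ⟨τ, ⟨le_rfl, hτ1.le⟩, rfl⟩
      · apply IsPreconnected.union (((τ * ‖z‖ : ℝ)) : ℂ) _ _ hPc hCc
        · exact ⟨τ * ‖z‖, by simp only [mem_Ioi]; positivity, rfl⟩
        · rw [hC, mem_sphere_zero_iff_norm, Complex.norm_real, Real.norm_of_nonneg (by positivity)]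
      · exact hSc

lemma null_image {g : ℝ → ℝ} (hg : DifferentiableOn ℝ g cantorSet) : volume (g '' cantorSet) = 0 :=
  MeasureTheory.addHaar_image_eq_zero_of_differentiableOn_of_addHaar_eq_zero volume hg
    volume_cantorSet

lemma ae_circle {N : ℕ} (hN : N ≠ 0) (n : ℕ) : ∀ᵐ θ : ℝ, circleMap 0 (2 ^ n) θ ∈ D N := by
  rw [ae_iff]
  have hN0 : (N : ℝ) ≠ 0 := by exact_mod_cast hN
  have hsub : {θ : ℝ | ¬ circleMap 0 (2 ^ n) θ ∈ D N} ⊆
      (⋃ k : ℤ, (fun s : ℝ => (2 * k * Real.pi + Real.arcsin (s / 2)) / N) '' cantorSet) ∪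
      (⋃ k : ℤ, (fun s : ℝ => ((2 * k + 1) * Real.pi - Real.arcsin (s / 2)) / N) '' cantorSet) := by
    intro θ hθ
    simp only [Set.mem_ofPred_eq, D, not_forall, not_not] at hθ
    obtain ⟨m, hm⟩ := hθ
    have h1 := hm.1
    rw [norm_pow, pow_eq_one_iff_of_nonneg (norm_nonneg _) hN, norm_div, norm_pow,
      Complex.norm_ofNat, div_eq_one_iff_eq (by positivity), norm_circleMap_zero,
      abs_of_pos (by positivity)] at h1
    have h2 : (circleMap 0 (2 ^ n) θ / 2 ^ m) ^ N = Complex.exp (((N * θ : ℝ) : ℂ) * I) := by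
      have h3 : ((2 : ℂ) ^ m) = 2 ^ n := by exact_mod_cast h1.symm
      rw [h3]
      simp only [circleMap, zero_add]
      push_cast
      rw [mul_div_cancel_left₀ _ (pow_ne_zero _ two_ne_zero), ← Complex.exp_nat_mul]
      ring_nf
    have h4 := hm.2.2
    rw [h2, Complex.exp_ofReal_mul_I_im] at h4
    set s := 2 * Real.sin (N * θ) with hs
    have h5 : Real.sin (Real.arcsin (s / 2)) = Real.sin (N * θ) := by
      rw [Real.sin_arcsin]
      · rw [hs]; ring
      · rw [hs]; linarith [Real.neg_one_le_sin (N * θ)]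
      · rw [hs]; linarith [Real.sin_le_one (N * θ)]
    rw [Real.sin_eq_sin_iff] at h5
    obtain ⟨k, hk | hk⟩ := h5
    · left
      rw [mem_iUnion]
      refine ⟨k, s, h4, ?_⟩
      simp only []
      rw [div_eq_iff hN0]
      linarith
    · right
      rw [mem_iUnion]
      refine ⟨k, s, h4, ?_⟩
      simp only []
      rw [div_eq_iff hN0]
      linarith
  refine measure_mono_null hsub ?_
  have hd : ∀ s ∈ cantorSet, DifferentiableAt ℝ (fun s : ℝ => Real.arcsin (s / 2)) s := by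
    intro s hs
    have h6 := cantorSet_subset_unitInterval hs
    have h7 : DifferentiableAt ℝ Real.arcsin (s / 2) :=
      Real.differentiableAt_arcsin.2 ⟨by linarith [h6.1], by linarith [h6.2]⟩
    exact DifferentiableAt.comp (g := Real.arcsin) (f := fun s : ℝ => s / 2) s h7 (by fun_prop)
  rw [measure_union_null_iff]
  constructor
  · rw [measure_iUnion_null_iff]
    intro k
    apply null_image
    intro s hs
    apply DifferentiableAt.differentiableWithinAt
    exact ((hd s hs).const_add _).div_const _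
  · rw [measure_iUnion_null_iff]
    intro k
    apply null_image
    intro s hs
    apply DifferentiableAt.differentiableWithinAt
    exact ((hd s hs).const_sub _).div_const _

end X92.HD
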