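import Pool.Agent.X92.HD5
import Pool.Agent.X92.HD7
import Pool.Agent.X92.HD8
open MeasureTheory Set Filter Topology Complex Metric InnerProductSpace

namespace X92.HD

lemma M_growth {N : ℕ} (hN : N ≠ 0) : ∃ C : ℝ, 1 ≤ C ∧ ∀ u : ℂ → ℝ, HarmonicOnNhd u (D N) →
    (∀ z ∈ D N, 0 ≤ u z) → ∃ A : ℝ, 0 ≤ A ∧ ∀ n : ℕ, M u (3 / 2 * 2 ^ n) ≤ A * C ^ n := by
  obtain ⟨κ, hκ, hray⟩ := ray_ball N
  obtain ⟨C₁, hC₁, hC⟩ := harnack_ray hκ hray
  refine ⟨max C₁ 1, le_max_right _ _, fun u hu hpos => ?_⟩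
  have hgrow : ∀ n : ℕ, u ((3 / 2 * 2 ^ n : ℝ) : ℂ) ≤ (max C₁ 1) ^ n * u ((3 / 2 : ℝ) : ℂ) := by
    intro n
    induction n with
    | zero => simp
    | succ n ih =>
      have h1 := hC u hu hpos (3 / 2 * 2 ^ n) (by positivity)
      have h2 : 0 ≤ u ((3 / 2 * 2 ^ n : ℝ) : ℂ) := hpos _ (ray_mem N (by positivity))
      rw [show (3 / 2 * 2 ^ (n + 1) : ℝ) = 2 * (3 / 2 * 2 ^ n) by ring]
      calc u ((2 * (3 / 2 * 2 ^ n) : ℝ) : ℂ) ≤ C₁ * u ((3 / 2 * 2 ^ n : ℝ) : ℂ) := h1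
        _ ≤ max C₁ 1 * u ((3 / 2 * 2 ^ n : ℝ) : ℂ) := by gcongr; exact le_max_left _ _
        _ ≤ max C₁ 1 * ((max C₁ 1) ^ n * u ((3 / 2 : ℝ) : ℂ)) := by gcongr
        _ = _ := by ring
  have hu0 : 0 ≤ u ((3 / 2 : ℝ) : ℂ) := hpos _ (ray_mem N (by norm_num))
  refine ⟨2 * Real.pi * (4 ^ 100 * u ((3 / 2 : ℝ) : ℂ)), by positivity, fun n => ?_⟩
  have hA : ∀ z : ℂ, (2 : ℝ) ^ n < ‖z‖ → ‖z‖ < 2 * 2 ^ n → z ∈ D N := by
    intro z h1 h2
    apply mem_D_annulus hN h1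
    rw [pow_succ]; linarith
  have hcirc : ∀ θ ∈ Icc (0 : ℝ) (2 * Real.pi), u (circleMap 0 (3 / 2 * 2 ^ n) θ)
      ≤ 4 ^ 100 * ((max C₁ 1) ^ n * u ((3 / 2 : ℝ) : ℂ)) := by
    intro θ hθ
    have h3 := (harnack_circle hu hpos (ρ := 2 ^ n) (by positivity) hA (θ := θ) (by
      rw [abs_of_nonneg hθ.1]
      have := Real.pi_lt_d2
      linarith [hθ.2])).1
    refine h3.trans ?_
    have e : circleMap 0 (3 / 2 * 2 ^ n) 0 = ((3 / 2 * 2 ^ n : ℝ) : ℂ) := by
      simp [circleMap]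
    rw [e]
    gcongr
    exact hgrow n
  have hcont : Continuous (fun θ => u (circleMap 0 (3 / 2 * 2 ^ n) θ)) := by
    apply hu.continuousOn.comp_continuous (continuous_circleMap 0 _)
    intro θ
    have h4 : ‖circleMap 0 (3 / 2 * 2 ^ n) θ‖ = 3 / 2 * 2 ^ n := by
      rw [norm_circleMap_zero, abs_of_pos (by positivity)]
    have : (0 : ℝ) < 2 ^ n := by positivity
    apply hA
    · rw [h4]; linarith
    · rw [h4]; linarith
  unfold M
  have := intervalIntegral.integral_mono_on (μ := volume) (a := 0) (b := 2 * Real.pi)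
    (by positivity) (hcont.intervalIntegrable _ _) (intervalIntegrable_const) hcirc
  refine this.trans (le_of_eq ?_)
  rw [intervalIntegral.integral_const, sub_zero, smul_eq_mul]
  ring

/-- the coefficient integrals -/
noncomputable def I (f : ℂ → ℂ) (k : ℕ) (R : ℝ) : ℂ := ∮ z in C(0, R), (z ^ (k + 1))⁻¹ * f z

lemma I_cross {N : ℕ} (hN : N ≠ 0) {f : ℂ → ℂ} {u : ℂ → ℝ} (hf : DifferentiableOn ℂ f (D N))
    (hu : HarmonicOnNhd u (D N)) (hb : ∀ z ∈ D N, ‖f z‖ ^ 2 ≤ u z) (k n : ℕ) :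
    I f k (3 / 4 * 2 ^ n) = I f k (3 / 2 * 2 ^ n) := by
  have hp : (0 : ℝ) < 2 ^ n := by positivity
  have hopen := isOpen_D hN
  have hA1 : ∀ z : ℂ, (2 : ℝ) ^ n / 2 < ‖z‖ → ‖z‖ < 2 ^ n → z ∈ D N := by
    intro z h1 h2
    rcases n with _ | n
    · exact mem_D_disc hN (by simpa using h2)
    · apply mem_D_annulus hN _ h2
      rw [pow_succ] at h1; linarith
  have hA2 : ∀ z : ℂ, (2 : ℝ) ^ n < ‖z‖ → ‖z‖ < 2 * 2 ^ n → z ∈ D N := by
    intro z h1 h2
    apply mem_D_annulus hN h1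
    rw [pow_succ]; linarith
  have hdiff : ∀ z ∈ D N, z ≠ 0 → DifferentiableAt ℂ (fun z => (z ^ (k + 1))⁻¹ * f z) z := by
    intro z hz hz0
    apply DifferentiableAt.mul
    · exact (differentiableAt_id.pow _).inv (pow_ne_zero _ hz0)
    · exact hf.differentiableAt (hopen.mem_nhds hz)
  have hne : ∀ z : ℂ, (2 : ℝ) ^ n / 2 < ‖z‖ → z ≠ 0 := by
    rintro z h1 rfl
    rw [norm_zero] at h1
    linarith
  set c : ℝ := (((2 : ℝ) ^ n / 2) ^ (2 * (k + 1)))⁻¹ with hc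
  have hc0 : 0 < c := by positivity
  have hbound : ∀ z ∈ D N, (2 : ℝ) ^ n / 2 < ‖z‖ → ‖(z ^ (k + 1))⁻¹ * f z‖ ^ 2 ≤ (c • u) z := by
    intro z hz h1
    have hz0 : 0 < ‖z‖ := by linarith
    simp only [Pi.smul_apply, smul_eq_mul]
    rw [norm_mul, norm_inv, norm_pow, mul_pow]
    have h2 : (‖z‖ ^ (k + 1))⁻¹ ^ 2 ≤ c := by
      rw [hc, inv_pow, ← pow_mul, mul_comm (k + 1) 2]
      apply inv_anti₀ (by positivity)
      gcongr
    have h3 := hb z hz
    calc (‖z‖ ^ (k + 1))⁻¹ ^ 2 * ‖f z‖ ^ 2 ≤ c * ‖f z‖ ^ 2 := by gcongr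
      _ ≤ c * u z := by gcongr
  have h1u : HarmonicOnNhd (c • u) (D N) := hu.const_smul
  unfold I
  apply crossing (ρ := 2 ^ n) hp (u := c • u)
  · intro z hz
    exact (hdiff z (hA1 z hz.1 hz.2) (hne z hz.1)).differentiableWithinAt
  · intro z hz
    exact (hdiff z (hA2 z hz.1 hz.2) (hne z (by linarith [hz.1]))).differentiableWithinAt
  · exact h1u.mono (fun z hz => hA1 z hz.1 hz.2)
  · exact h1u.mono (fun z hz => hA2 z hz.1 hz.2)
  · intro z h1 h2
    exact hbound z (hA1 z h1 h2) h1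
  · intro z h1 h2
    exact hbound z (hA2 z h1 h2) (by linarith)
  · filter_upwards [ae_circle hN n] with θ hθ
    apply (hdiff _ hθ _).continuousAt
    intro h0
    have := congrArg norm h0
    rw [norm_circleMap_zero, norm_zero, abs_of_pos hp] at this
    linarith
  · linarith
  · linarith
  · linarith
  · linarith

lemma I_eq {N : ℕ} (hN : N ≠ 0) {f : ℂ → ℂ} {u : ℂ → ℝ} (hf : DifferentiableOn ℂ f (D N))
    (hu : HarmonicOnNhd u (D N)) (hb : ∀ z ∈ D N, ‖f z‖ ^ 2 ≤ u z) (k n : ℕ) :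
    I f k (3 / 4) = I f k (3 / 2 * 2 ^ n) := by
  have h : ∀ n : ℕ, I f k (3 / 4) = I f k (3 / 4 * 2 ^ n) := by
    intro n
    induction n with
    | zero => simp
    | succ n ih =>
      rw [ih, I_cross hN hf hu hb k n]
      congr 1
      ring
  rw [h n, I_cross hN hf hu hb k n]

lemma I_bound {N : ℕ} (hN : N ≠ 0) {f : ℂ → ℂ} {u : ℂ → ℝ} (hf : DifferentiableOn ℂ f (D N))
    (hu : HarmonicOnNhd u (D N)) (hb : ∀ z ∈ D N, ‖f z‖ ^ 2 ≤ u z) (k n : ℕ) :
    ‖I f k (3 / 2 * 2 ^ n)‖ ≤ ((1 / 2 : ℝ) ^ k) ^ n * (2 * Real.pi + M u (3 / 2 * 2 ^ n)) := by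
  have hp : (0 : ℝ) < 2 ^ n := by positivity
  set R : ℝ := 3 / 2 * 2 ^ n with hR
  have hR0 : 0 < R := by positivity
  have hmem : ∀ θ : ℝ, circleMap 0 R θ ∈ D N := by
    intro θ
    have h4 : ‖circleMap 0 R θ‖ = 3 / 2 * 2 ^ n := by
      rw [norm_circleMap_zero, abs_of_pos hR0]
    apply mem_D_annulus hN (n := n)
    · rw [h4]; linarith
    · rw [h4, pow_succ]; linarith
  have hcf : Continuous (fun θ => f (circleMap 0 R θ)) :=
    hf.continuousOn.comp_continuous (continuous_circleMap 0 _) hmem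
  have hcu : Continuous (fun θ => u (circleMap 0 R θ)) :=
    hu.continuousOn.comp_continuous (continuous_circleMap 0 _) hmem
  unfold I
  rw [circleIntegral]
  have h1 : ‖∫ θ in (0 : ℝ)..2 * Real.pi, deriv (circleMap 0 R) θ •
      ((circleMap 0 R θ ^ (k + 1))⁻¹ * f (circleMap 0 R θ))‖
      ≤ ∫ θ in (0 : ℝ)..2 * Real.pi, (R ^ k)⁻¹ * (1 + u (circleMap 0 R θ)) := by
    apply intervalIntegral.norm_integral_le_of_norm_le (by positivity)
    · filter_upwards with θ _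
      rw [deriv_circleMap, smul_eq_mul, norm_mul, norm_mul, norm_mul, norm_inv, norm_pow,
        norm_circleMap_zero, Complex.norm_I, abs_of_pos hR0, mul_one, ← mul_assoc]
      have e : R * (R ^ (k + 1))⁻¹ = (R ^ k)⁻¹ := by
        rw [pow_succ]; field_simp
      rw [e]
      have h2 := hb _ (hmem θ)
      have h3 : ‖f (circleMap 0 R θ)‖ ≤ 1 + u (circleMap 0 R θ) := by
        nlinarith [sq_nonneg (‖f (circleMap 0 R θ)‖ - 1), norm_nonneg (f (circleMap 0 R θ))]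
      gcongr
    · exact (continuous_const.mul (continuous_const.add hcu)).intervalIntegrable _ _
  refine h1.trans ?_
  rw [intervalIntegral.integral_const_mul, intervalIntegral.integral_add
    (intervalIntegrable_const) (hcu.intervalIntegrable _ _), intervalIntegral.integral_const,
    sub_zero, smul_eq_mul, mul_one]
  change (R ^ k)⁻¹ * (2 * Real.pi + M u R) ≤ _
  have hM : 0 ≤ M u R := by
    unfold M
    apply intervalIntegral.integral_nonneg (by positivity)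
    intro θ _
    exact le_trans (by positivity) (hb _ (hmem θ))
  have h5 : (R ^ k)⁻¹ ≤ ((1 / 2 : ℝ) ^ k) ^ n := by
    rw [← pow_mul, mul_comm, pow_mul, one_div, inv_pow, inv_pow]
    apply inv_anti₀ (by positivity)
    gcongr
    rw [hR]; linarith
  gcongr

theorem I_zero {N : ℕ} (hN : N ≠ 0) : ∃ k₀ : ℕ, ∀ (f : ℂ → ℂ) (u : ℂ → ℝ),
    DifferentiableOn ℂ f (D N) → HarmonicOnNhd u (D N) → (∀ z ∈ D N, ‖f z‖ ^ 2 ≤ u z) →
    ∀ k : ℕ, k₀ ≤ k → I f k (3 / 4) = 0 := by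
  obtain ⟨C, hC1, hC⟩ := M_growth hN
  obtain ⟨k₀, hk₀⟩ := pow_unbounded_of_one_lt C (by norm_num : (1 : ℝ) < 2)
  refine ⟨k₀, fun f u hf hu hb k hk => ?_⟩
  have hpos : ∀ z ∈ D N, 0 ≤ u z := fun z hz => le_trans (by positivity) (hb z hz)
  obtain ⟨A, hA0, hA⟩ := hC u hu hpos
  have hq : C * (1 / 2 : ℝ) ^ k < 1 := by
    have h1 : (2 : ℝ) ^ k₀ ≤ 2 ^ k := pow_le_pow_right₀ (by norm_num) hk
    rw [one_div, inv_pow, ← div_eq_mul_inv, div_lt_one (by positivity)]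
    linarith
  have hq0 : 0 ≤ C * (1 / 2 : ℝ) ^ k := by positivity
  have hbd : ∀ n : ℕ, ‖I f k (3 / 4)‖ ≤ (2 * Real.pi + A) * (C * (1 / 2 : ℝ) ^ k) ^ n := by
    intro n
    rw [I_eq hN hf hu hb k n]
    refine (I_bound hN hf hu hb k n).trans ?_
    have h2 := hA n
    have h3 : 1 ≤ C ^ n := one_le_pow₀ hC1
    have h4 : 2 * Real.pi + M u (3 / 2 * 2 ^ n) ≤ (2 * Real.pi + A) * C ^ n := by
      have : 0 < Real.pi := Real.pi_pos
      nlinarith
    calc ((1 / 2 : ℝ) ^ k) ^ n * (2 * Real.pi + M u (3 / 2 * 2 ^ n))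
        ≤ ((1 / 2 : ℝ) ^ k) ^ n * ((2 * Real.pi + A) * C ^ n) := by gcongr
      _ = _ := by rw [mul_pow]; ring
  have hlim : Tendsto (fun n : ℕ => (2 * Real.pi + A) * (C * (1 / 2 : ℝ) ^ k) ^ n) atTop (𝓝 0) := by
    have := (tendsto_pow_atTop_nhds_zero_of_lt_one hq0 hq).const_mul (2 * Real.pi + A)
    simpa using this
  have := ge_of_tendsto' hlim hbd
  exact norm_le_zero_iff.1 this

theorem poly {N : ℕ} (hN : N ≠ 0) : ∃ k₀ : ℕ, ∀ (f : ℂ → ℂ) (u : ℂ → ℝ),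
    DifferentiableOn ℂ f (D N) → HarmonicOnNhd u (D N) → (∀ z ∈ D N, ‖f z‖ ^ 2 ≤ u z) →
    ∃ c : ℕ → ℂ, ∀ z ∈ D N, f z = ∑ k ∈ Finset.range k₀, c k * z ^ k := by
  obtain ⟨k₀, hk₀⟩ := I_zero hN
  refine ⟨k₀, fun f u hf hu hb => ?_⟩
  set c : ℕ → ℂ := fun k => (2 * Real.pi * Complex.I : ℂ)⁻¹ * I f k (3 / 4) with hc
  refine ⟨c, ?_⟩
  have hopen := isOpen_D hN
  have hd : DifferentiableOn ℂ f (closedBall 0 ((3 / 4 : NNReal) : ℝ)) := by
    apply hf.mono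
    intro z hz
    apply mem_D_disc hN
    rw [mem_closedBall_zero_iff] at hz
    refine hz.trans_lt ?_
    norm_num
  have hps := hd.hasFPowerSeriesOnBall (by norm_num : (0 : NNReal) < 3 / 4)
  have hloc : ∀ w : ℂ, ‖w‖ < 3 / 4 → f w = ∑ k ∈ Finset.range k₀, c k * w ^ k := by
    intro w hw
    have hmem : w ∈ Metric.eball (0 : ℂ) ((3 / 4 : NNReal) : ENNReal) := by
      rw [Metric.eball_coe, mem_ball_zero_iff]
      simpa using hw
    have hs := hps.hasSum hmem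
    have hterm : ∀ k : ℕ, (cauchyPowerSeries f 0 ((3 / 4 : NNReal) : ℝ) k fun _ => w) = c k * w ^ k := by
      intro k
      rw [cauchyPowerSeries_apply]
      have e : (∮ z in C(0, ((3 / 4 : NNReal) : ℝ)), (w / (z - 0)) ^ k • (z - 0)⁻¹ • f z)
          = w ^ k * I f k (3 / 4) := by
        unfold I
        rw [← circleIntegral.integral_const_mul]
        have : ((3 / 4 : NNReal) : ℝ) = 3 / 4 := by norm_num
        rw [this]
        congr 1
        ext z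
        simp only [sub_zero, smul_eq_mul, div_pow, pow_succ, mul_inv]
        ring
      rw [e, hc, smul_eq_mul]
      ring
    simp only [hterm, zero_add] at hs
    have hs2 : HasSum (fun k => c k * w ^ k) (∑ k ∈ Finset.range k₀, c k * w ^ k) := by
      apply hasSum_sum_of_ne_finset_zero
      intro k hk
      rw [Finset.mem_range, not_lt] at hk
      have : c k = 0 := by
        simp only [hc]
        rw [hk₀ f u hf hu hb k hk, mul_zero]
      rw [this, zero_mul]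
    exact hs.unique hs2
  have h0 : (0 : ℂ) ∈ D N := mem_D_disc hN (by simp)
  have hEq : EqOn f (fun z => ∑ k ∈ Finset.range k₀, c k * z ^ k) (D N) := by
    apply AnalyticOnNhd.eqOn_of_preconnected_of_eventuallyEq (hf.analyticOnNhd hopen) _
      (isPreconnected_D hN) h0
    · filter_upwards [ball_mem_nhds (0 : ℂ) (by norm_num : (0 : ℝ) < 3 / 4)] with w hw
      rw [mem_ball_zero_iff] at hw
      exact hloc w hw
    · have : Differentiable ℂ (fun z : ℂ => ∑ k ∈ Finset.range k₀, c k * z ^ k) := by fun_prop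
      exact (this.differentiableOn).analyticOnNhd hopen
  exact fun z hz => hEq hz

end X92.HD
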