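import Pool.Agent.H147R3.PE.W2
set_option autoImplicit false
open MeasureTheory Set Complex
open scoped ENNReal

namespace X92.Mom

open Pool.Agent.H147R3.PE

theorem tsum_pow (r δ : ℝ) (hr : 1 < r) (hδ : 0 < δ) : ∃ C : ℝ≥0∞, C ≠ ⊤ ∧ ∀ a : ℕ → ℝ≥0∞,
    (∑' k, a k) ^ r ≤ C * ∑' k : ℕ, ENNReal.ofReal ((2 : ℝ) ^ (δ * k)) * a k ^ r := by
  have hr0 : 0 < r := by linarith
  set r' : ℝ := r / (r - 1) with hr'
  have hr'0 : 0 < r' := div_pos hr0 (by linarith)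
  have hpq : r'.HolderConjugate r := by
    rw [Real.holderConjugate_iff]
    constructor
    · rw [hr', lt_div_iff₀ (by linarith)]
      linarith
    · rw [hr', inv_div]
      field_simp
      ring
  have hgeo : ∑' k : ℕ, (ENNReal.ofReal ((2 : ℝ) ^ (-(δ * k / r)))) ^ r' ≠ ⊤ := by
    have h1 : ∀ k : ℕ, (ENNReal.ofReal ((2 : ℝ) ^ (-(δ * k / r)))) ^ r' =
        ENNReal.ofReal (((2 : ℝ) ^ (-(δ / r * r'))) ^ k) := by
      intro k
      rw [ENNReal.ofReal_rpow_of_pos (by positivity), ← Real.rpow_mul (by norm_num), ← Real.rpow_natCast,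
        ← Real.rpow_mul (by norm_num)]
      congr 2
      ring
    simp_rw [h1]
    have h2 : (2 : ℝ) ^ (-(δ / r * r')) < 1 :=
      Real.rpow_lt_one_of_one_lt_of_neg (by norm_num) (by have : 0 < δ / r * r' := by positivity
                                                          linarith)
    have h3 : Summable (fun k : ℕ => ((2 : ℝ) ^ (-(δ / r * r'))) ^ k) :=
      summable_geometric_of_lt_one (by positivity) h2
    rw [← ENNReal.ofReal_tsum_of_nonneg (fun k => by positivity) h3]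
    exact ENNReal.ofReal_ne_top
  refine ⟨(∑' k : ℕ, (ENNReal.ofReal ((2 : ℝ) ^ (-(δ * k / r)))) ^ r') ^ (1 / r' * r),
    ENNReal.rpow_ne_top_of_nonneg (by positivity) hgeo, ?_⟩
  intro a
  have h := ENNReal.lintegral_mul_le_Lp_mul_Lq (Measure.count : Measure ℕ) hpq
    (f := fun k => ENNReal.ofReal ((2 : ℝ) ^ (-(δ * k / r))))
    (g := fun k => ENNReal.ofReal ((2 : ℝ) ^ (δ * k / r)) * a k)
    (measurable_of_countable _).aemeasurable (measurable_of_countable _).aemeasurable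
  rw [lintegral_count, lintegral_count, lintegral_count] at h
  have e1 : ∀ k : ℕ, ((fun k : ℕ => ENNReal.ofReal ((2 : ℝ) ^ (-(δ * k / r)))) *
      (fun k : ℕ => ENNReal.ofReal ((2 : ℝ) ^ (δ * k / r)) * a k)) k = a k := by
    intro k
    simp only [Pi.mul_apply]
    rw [← mul_assoc, ← ENNReal.ofReal_mul (by positivity), ← Real.rpow_add (by norm_num), neg_add_cancel,
      Real.rpow_zero, ENNReal.ofReal_one, one_mul]
  have e2 : ∀ k : ℕ, (ENNReal.ofReal ((2 : ℝ) ^ (δ * k / r)) * a k) ^ r =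
      ENNReal.ofReal ((2 : ℝ) ^ (δ * k)) * a k ^ r := by
    intro k
    rw [ENNReal.mul_rpow_of_nonneg _ _ hr0.le, ENNReal.ofReal_rpow_of_pos (by positivity),
      ← Real.rpow_mul (by norm_num), div_mul_cancel₀ _ hr0.ne']
  simp only [e1, e2] at h
  refine (ENNReal.rpow_le_rpow h hr0.le).trans (le_of_eq ?_)
  rw [ENNReal.mul_rpow_of_nonneg _ _ hr0.le, ← ENNReal.rpow_mul, ← ENNReal.rpow_mul, one_div_mul_cancel hr0.ne',
    ENNReal.rpow_one]

theorem vol_bound {f : ℝ × ℝ → ℂ} (hf : S2 f) (s q ε : ℝ) (hs : 0 < s) (hq : 0 < q) (hε : 0 < ε)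
    (hN : ∫⁻ x, ‖f x‖ₑ ^ q ≤ ENNReal.ofReal (s ^ q)) (k : ℕ) :
    ENNReal.ofReal ((2 : ℝ) ^ k * s) ^ q * volume (EE f s k) ^ (1 + ε) ≤
      ENNReal.ofReal (4 ^ (1 + ε) * 2 ^ (q * (1 + ε)) * (2 : ℝ) ^ (-(q * ε * k))) * ENNReal.ofReal (s ^ q) := by
  have h2 : (1 : ℝ) ≤ 2 ^ (q * (1 + ε)) := Real.one_le_rpow (by norm_num) (by positivity)
  have h4 : (1 : ℝ) ≤ 4 ^ (1 + ε) := Real.one_le_rpow (by norm_num) (by linarith)
  rw [ENNReal.ofReal_rpow_of_pos (by positivity), ← ENNReal.ofReal_mul (by positivity)]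
  cases k with
  | zero =>
    have h1 : volume (EE f s 0) ^ (1 + ε) ≤ ENNReal.ofReal (4 ^ (1 + ε)) := by
      refine (ENNReal.rpow_le_rpow (EE_vol0 f s 0) (by linarith)).trans (le_of_eq ?_)
      rw [← ENNReal.ofReal_rpow_of_pos (by norm_num)]
      simp
    refine (mul_le_mul' le_rfl h1).trans ?_
    rw [← ENNReal.ofReal_mul (by positivity)]
    refine ENNReal.ofReal_le_ofReal ?_
    simp only [pow_zero, one_mul, CharP.cast_eq_zero, mul_zero, neg_zero, Real.rpow_zero, mul_one]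
    have h5 : 0 < s ^ q := by positivity
    have h6 : 0 < (4 : ℝ) ^ (1 + ε) := by positivity
    calc s ^ q * 4 ^ (1 + ε) = 4 ^ (1 + ε) * 1 * s ^ q := by ring
      _ ≤ _ := by gcongr
  | succ k =>
    have h1 : volume (EE f s (k + 1)) ^ (1 + ε) ≤ ENNReal.ofReal ((((2 : ℝ) ^ k) ^ (-q)) ^ (1 + ε)) := by
      refine (ENNReal.rpow_le_rpow (EE_vol hf s hs q hq hN k) (by linarith)).trans (le_of_eq ?_)
      rw [ENNReal.ofReal_rpow_of_pos (by positivity)]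
    refine (mul_le_mul' le_rfl h1).trans ?_
    rw [← ENNReal.ofReal_mul (by positivity)]
    refine ENNReal.ofReal_le_ofReal ?_
    rw [Real.mul_rpow (by positivity) hs.le, ← Real.rpow_natCast 2 (k + 1), ← Real.rpow_mul (by norm_num),
      ← Real.rpow_natCast 2 k, ← Real.rpow_mul (by norm_num), ← Real.rpow_mul (by norm_num)]
    have e1 : (2 : ℝ) ^ (((k + 1 : ℕ) : ℝ) * q) * s ^ q * 2 ^ ((k : ℝ) * (-q * (1 + ε))) =
        2 ^ (q * (1 + ε)) * (2 : ℝ) ^ (-(q * ε * ((k + 1 : ℕ) : ℝ))) * s ^ q := by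
      rw [mul_right_comm, ← Real.rpow_add (by norm_num), ← Real.rpow_add (by norm_num)]
      congr 2
      push_cast
      ring
    rw [e1]
    have h5 : 0 < s ^ q := by positivity
    have h6 : 0 < (2 : ℝ) ^ (q * (1 + ε)) := by positivity
    calc 2 ^ (q * (1 + ε)) * (2 : ℝ) ^ (-(q * ε * ((k + 1 : ℕ) : ℝ))) * s ^ q
        = 1 * 2 ^ (q * (1 + ε)) * (2 : ℝ) ^ (-(q * ε * ((k + 1 : ℕ) : ℝ))) * s ^ q := by ring
      _ ≤ _ := by gcongr

theorem J_meas (γ q : ℝ) {f : ℝ × ℝ → ℂ} (hf : Measurable f) :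
    Measurable (fun l : ℝ => ∫⁻ ξ : ℝ × ℝ × ℝ, wt γ ξ.2.2 * ‖ext (dil l f) ξ‖ₑ ^ q) := by
  have h1 : Measurable (fun z : ℝ × (ℝ × ℝ × ℝ) => wt γ z.2.2.2 * ‖ext (dil z.1 f) z.2‖ₑ ^ q) := by
    refine Measurable.mul ?_ ?_
    · exact (wt_meas γ).comp (measurable_snd.comp (measurable_snd.comp measurable_snd))
    · exact (ext_meas hf).enorm.pow_const q
  exact h1.lintegral_prod_right'

theorem mom (α γ p q A L : ℝ) (hA : 0 ≤ A) (hα1 : α ≤ 1) (hγ0 : 0 ≤ γ) (hp : 1 < p)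
    (hpα : p * (1 + γ) < 1 + α) (hq : 2 + 2 / p < q) (hL : 1 ≤ L) :
    ∃ K : ℝ≥0∞, K ≠ ⊤ ∧ ∀ μ : Measure ℝ, Fro μ A α → ∀ f : ℝ × ℝ → ℂ, S2 f →
      ∫⁻ l in Icc 1 L, (∫⁻ ξ : ℝ × ℝ × ℝ, wt γ ξ.2.2 * ‖ext (dil l f) ξ‖ₑ ^ q) ^ p ∂μ ≤
        K * (∫⁻ x, ‖f x‖ₑ ^ q) ^ p := by
  have hp0 : 0 < p := by linarith
  have h2p : 0 < 2 / p := by positivity
  have hq2 : 2 < q := by linarith
  have hq0 : 0 < q := by linarith
  set ε : ℝ := q - (2 + 2 / p) with hε
  have hε0 : 0 < ε := by linarith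
  obtain ⟨K0, hK0, hlev⟩ := levelp α γ p q A L hA hα1 hγ0 hp hpα hq hL
  obtain ⟨C1, hC1, hs1⟩ := tsum_pow q (q * ε / 4) (by linarith) (by positivity)
  obtain ⟨C2, hC2, hs2⟩ := tsum_pow p (p * q * ε / 4) hp (by positivity)
  set c : ℝ := 4 ^ (1 + ε) * 2 ^ (q * (1 + ε)) with hc
  have hc0 : 0 < c := by positivity
  set G : ℝ≥0∞ := ∑' k : ℕ, ENNReal.ofReal ((2 : ℝ) ^ (-(p * q * ε / 2 * k))) with hG
  have hGt : G ≠ ⊤ := by
    have h1 : ∀ k : ℕ, (2 : ℝ) ^ (-(p * q * ε / 2 * k)) = ((2 : ℝ) ^ (-(p * q * ε / 2))) ^ k := by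
      intro k
      rw [← Real.rpow_natCast, ← Real.rpow_mul (by norm_num)]
      congr 1; ring
    rw [hG]
    simp_rw [h1]
    have h2 : (2 : ℝ) ^ (-(p * q * ε / 2)) < 1 :=
      Real.rpow_lt_one_of_one_lt_of_neg (by norm_num) (by have : 0 < p * q * ε / 2 := by positivity
                                                          linarith)
    have h3 : Summable (fun k : ℕ => ((2 : ℝ) ^ (-(p * q * ε / 2))) ^ k) :=
      summable_geometric_of_lt_one (by positivity) h2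
    rw [← ENNReal.ofReal_tsum_of_nonneg (fun k => by positivity) h3]
    exact ENNReal.ofReal_ne_top
  set KK : ℝ≥0∞ := C1 ^ p * C2 * (K0 * ENNReal.ofReal c ^ p * G) with hKK
  have hKKt : KK ≠ ⊤ := by
    refine ENNReal.mul_ne_top (ENNReal.mul_ne_top (ENNReal.rpow_ne_top_of_nonneg hp0.le hC1) hC2) ?_
    exact ENNReal.mul_ne_top (ENNReal.mul_ne_top hK0 (ENNReal.rpow_ne_top_of_nonneg hp0.le ENNReal.ofReal_ne_top)) hGt
  -- the estimate with a parameter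
  have key : ∀ μ : Measure ℝ, Fro μ A α → ∀ f : ℝ × ℝ → ℂ, S2 f → ∀ s : ℝ, 0 < s →
      ∫⁻ x, ‖f x‖ₑ ^ q ≤ ENNReal.ofReal (s ^ q) →
      ∫⁻ l in Icc 1 L, (∫⁻ ξ : ℝ × ℝ × ℝ, wt γ ξ.2.2 * ‖ext (dil l f) ξ‖ₑ ^ q) ^ p ∂μ ≤
        KK * ENNReal.ofReal (s ^ q) ^ p := by
    intro μ hμ f hf s hs hN
    have hint : ∫⁻ x, ‖f x‖ₑ ≠ ⊤ := by
      have h1 : ∀ x, ‖f x‖ₑ ≤ QQ.indicator (fun _ => (1 : ℝ≥0∞)) x + ‖f x‖ₑ ^ q := by
        intro x
        by_cases hx : x ∈ QQ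
        · rw [indicator_of_mem hx]
          rcases le_total ‖f x‖ₑ 1 with h | h
          · exact h.trans le_self_add
          · refine le_trans ?_ le_add_self
            calc ‖f x‖ₑ = ‖f x‖ₑ ^ (1 : ℝ) := (ENNReal.rpow_one _).symm
              _ ≤ _ := ENNReal.rpow_le_rpow_of_exponent_le h (by linarith)
        · rw [hf.zero x hx]; simp
      refine ne_top_of_le_ne_top ?_ (lintegral_mono h1)
      rw [lintegral_add_right _ (hf.meas.enorm.pow_const q), lintegral_indicator QQ_meas, setLIntegral_one, QQ_vol]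
      exact ENNReal.add_ne_top.2 ⟨by simp, ne_top_of_le_ne_top ENNReal.ofReal_ne_top hN⟩
    set J : ℕ → ℝ → ℝ≥0∞ := fun k l => ∫⁻ ξ : ℝ × ℝ × ℝ, wt γ ξ.2.2 * ‖ext (dil l (pc f s k)) ξ‖ₑ ^ q with hJ
    have hpt : ∀ l ∈ Icc 1 L, (∫⁻ ξ : ℝ × ℝ × ℝ, wt γ ξ.2.2 * ‖ext (dil l f) ξ‖ₑ ^ q) ^ p ≤
        C1 ^ p * C2 * ∑' k : ℕ, ENNReal.ofReal ((2 : ℝ) ^ (p * q * ε / 2 * k)) * J k l ^ p := by
      intro l hl
      have g1 : ∫⁻ ξ : ℝ × ℝ × ℝ, wt γ ξ.2.2 * ‖ext (dil l f) ξ‖ₑ ^ q ≤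
          C1 * ∑' k : ℕ, ENNReal.ofReal ((2 : ℝ) ^ (q * ε / 4 * k)) * J k l := by
        calc ∫⁻ ξ : ℝ × ℝ × ℝ, wt γ ξ.2.2 * ‖ext (dil l f) ξ‖ₑ ^ q
            ≤ ∫⁻ ξ : ℝ × ℝ × ℝ, C1 * ∑' k : ℕ, ENNReal.ofReal ((2 : ℝ) ^ (q * ε / 4 * k)) *
                (wt γ ξ.2.2 * ‖ext (dil l (pc f s k)) ξ‖ₑ ^ q) := by
              refine lintegral_mono (fun ξ => ?_)
              have g2 := (ENNReal.rpow_le_rpow (ext_sum hf hint s hs l hl.1 ξ) hq0.le).trans
                (hs1 (fun k => ‖ext (dil l (pc f s k)) ξ‖ₑ))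
              calc wt γ ξ.2.2 * ‖ext (dil l f) ξ‖ₑ ^ q
                  ≤ wt γ ξ.2.2 * (C1 * ∑' k : ℕ, ENNReal.ofReal ((2 : ℝ) ^ (q * ε / 4 * k)) *
                    ‖ext (dil l (pc f s k)) ξ‖ₑ ^ q) := mul_le_mul' le_rfl g2
                _ = C1 * (wt γ ξ.2.2 * ∑' k : ℕ, ENNReal.ofReal ((2 : ℝ) ^ (q * ε / 4 * k)) *
                    ‖ext (dil l (pc f s k)) ξ‖ₑ ^ q) := by ring
                _ = _ := by
                  rw [← ENNReal.tsum_mul_left]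
                  refine congrArg _ (tsum_congr (fun k => ?_))
                  ring
          _ = C1 * ∑' k : ℕ, ENNReal.ofReal ((2 : ℝ) ^ (q * ε / 4 * k)) * J k l := by
              rw [lintegral_const_mul' _ _ hC1, lintegral_tsum]
              · refine congrArg _ (tsum_congr (fun k => ?_))
                rw [lintegral_const_mul' _ _ ENNReal.ofReal_ne_top]
              · intro k
                refine (Measurable.const_mul ?_ _).aemeasurable
                exact ((wt_meas γ).comp (measurable_snd.comp measurable_snd)).mul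
                  ((ext_meas1 (pc_BS2 hf s hs k).meas l).enorm.pow_const q)
      calc (∫⁻ ξ : ℝ × ℝ × ℝ, wt γ ξ.2.2 * ‖ext (dil l f) ξ‖ₑ ^ q) ^ p
          ≤ (C1 * ∑' k : ℕ, ENNReal.ofReal ((2 : ℝ) ^ (q * ε / 4 * k)) * J k l) ^ p :=
            ENNReal.rpow_le_rpow g1 hp0.le
        _ = C1 ^ p * (∑' k : ℕ, ENNReal.ofReal ((2 : ℝ) ^ (q * ε / 4 * k)) * J k l) ^ p :=
            ENNReal.mul_rpow_of_nonneg _ _ hp0.le
        _ ≤ C1 ^ p * (C2 * ∑' k : ℕ, ENNReal.ofReal ((2 : ℝ) ^ (p * q * ε / 4 * k)) *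
            (ENNReal.ofReal ((2 : ℝ) ^ (q * ε / 4 * k)) * J k l) ^ p) := mul_le_mul' le_rfl (hs2 _)
        _ = _ := by
            rw [← mul_assoc]
            refine congrArg (fun z => C1 ^ p * C2 * z) (tsum_congr (fun k => ?_))
            rw [ENNReal.mul_rpow_of_nonneg _ _ hp0.le, ← mul_assoc, ENNReal.ofReal_rpow_of_pos (by positivity),
              ← Real.rpow_mul (by norm_num), ← ENNReal.ofReal_mul (by positivity), ← Real.rpow_add (by norm_num)]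
            congr 3
            ring
    calc ∫⁻ l in Icc 1 L, (∫⁻ ξ : ℝ × ℝ × ℝ, wt γ ξ.2.2 * ‖ext (dil l f) ξ‖ₑ ^ q) ^ p ∂μ
        ≤ ∫⁻ l in Icc 1 L, C1 ^ p * C2 *
            ∑' k : ℕ, ENNReal.ofReal ((2 : ℝ) ^ (p * q * ε / 2 * k)) * J k l ^ p ∂μ :=
          setLIntegral_mono' measurableSet_Icc hpt
      _ = C1 ^ p * C2 * ∑' k : ℕ, ENNReal.ofReal ((2 : ℝ) ^ (p * q * ε / 2 * k)) *
            ∫⁻ l in Icc 1 L, J k l ^ p ∂μ := by
          rw [lintegral_const_mul' _ _ (ENNReal.mul_ne_top (ENNReal.rpow_ne_top_of_nonneg hp0.le hC1) hC2),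
            lintegral_tsum]
          · refine congrArg _ (tsum_congr (fun k => ?_))
            rw [lintegral_const_mul' _ _ ENNReal.ofReal_ne_top]
          · intro k
            refine (Measurable.const_mul ?_ _).aemeasurable
            exact (J_meas γ q (pc_BS2 hf s hs k).meas).pow_const p
      _ ≤ C1 ^ p * C2 * ∑' k : ℕ, (K0 * ENNReal.ofReal c ^ p * ENNReal.ofReal (s ^ q) ^ p) *
            ENNReal.ofReal ((2 : ℝ) ^ (-(p * q * ε / 2 * k))) := by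
          refine mul_le_mul' le_rfl (ENNReal.tsum_le_tsum (fun k => ?_))
          have g3 := hlev μ hμ ((2 : ℝ) ^ k * s) (pc f s k) (pc_BS2 hf s hs k) (EE f s k) (EE_meas hf s k)
            (fun x hx => indicator_of_notMem hx _) (EE_vol0 f s k)
          have g4 := vol_bound hf s q ε hs hq0 hε0 hN k
          calc ENNReal.ofReal ((2 : ℝ) ^ (p * q * ε / 2 * k)) * ∫⁻ l in Icc 1 L, J k l ^ p ∂μ
              ≤ ENNReal.ofReal ((2 : ℝ) ^ (p * q * ε / 2 * k)) * (K0 *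
                (ENNReal.ofReal (4 ^ (1 + ε) * 2 ^ (q * (1 + ε)) * (2 : ℝ) ^ (-(q * ε * k))) *
                  ENNReal.ofReal (s ^ q)) ^ p) :=
                mul_le_mul' le_rfl (g3.trans (mul_le_mul' le_rfl (ENNReal.rpow_le_rpow g4 hp0.le)))
            _ = _ := by
                rw [← hc, ENNReal.ofReal_mul hc0.le, ENNReal.mul_rpow_of_nonneg _ _ hp0.le,
                  ENNReal.mul_rpow_of_nonneg _ _ hp0.le,
                  ENNReal.ofReal_rpow_of_pos (p := p) (x := (2 : ℝ) ^ (-(q * ε * k))) (by positivity),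
                  ← Real.rpow_mul (by norm_num)]
                have e5 : ENNReal.ofReal ((2 : ℝ) ^ (p * q * ε / 2 * k)) *
                    ENNReal.ofReal ((2 : ℝ) ^ (-(q * ε * k) * p)) =
                    ENNReal.ofReal ((2 : ℝ) ^ (-(p * q * ε / 2 * k))) := by
                  rw [← ENNReal.ofReal_mul (by positivity), ← Real.rpow_add (by norm_num)]
                  congr 2
                  ring
                rw [← e5]
                ring
      _ = _ := by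
          rw [ENNReal.tsum_mul_left, ← hG, hKK]
          ring
  refine ⟨KK + 1, ENNReal.add_ne_top.2 ⟨hKKt, by simp⟩, ?_⟩
  intro μ hμ f hf
  by_cases hfin : ∫⁻ x, ‖f x‖ₑ ^ q = ⊤
  · rw [hfin, ENNReal.top_rpow_of_pos hp0, ENNReal.mul_top (by simp)]
    exact le_top
  by_cases hzero : ∫⁻ x, ‖f x‖ₑ ^ q = 0
  · have h0 : f =ᵐ[volume] 0 := by
      rw [lintegral_eq_zero_iff (hf.meas.enorm.pow_const q)] at hzero
      filter_upwards [hzero] with x hx
      have h1 : ‖f x‖ₑ ^ q = 0 := hx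
      rw [ENNReal.rpow_eq_zero_iff] at h1
      rcases h1 with h1 | h1
      · exact enorm_eq_zero.1 h1.1
      · linarith [h1.2]
    have h1 : ∫⁻ x, ‖f x‖ₑ = 0 := by
      rw [lintegral_eq_zero_iff hf.meas.enorm]
      filter_upwards [h0] with x hx
      rw [hx]; simp
    have h2 : ∀ l ∈ Icc 1 L, (∫⁻ ξ : ℝ × ℝ × ℝ, wt γ ξ.2.2 * ‖ext (dil l f) ξ‖ₑ ^ q) ^ p ≤ 0 := by
      intro l hl
      have h3 : ∀ ξ : ℝ × ℝ × ℝ, ‖ext (dil l f) ξ‖ₑ = 0 := by
        intro ξ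
        refine le_antisymm ?_ (zero_le)
        unfold Pool.Agent.H147R3.PE.ext
        refine (enorm_integral_le_lintegral_enorm _).trans ?_
        rw [← h1]
        refine le_trans (le_of_eq ?_) (dil_lint (fun x => ‖f x‖ₑ) hf.meas.enorm l hl.1)
        apply lintegral_congr
        intro x
        have e : -I * (x.1 * ξ.1 + x.2 * ξ.2.1 + (x.1 ^ 2 + x.2 ^ 2) * ξ.2.2 : ℂ) =
            ((-(x.1 * ξ.1 + x.2 * ξ.2.1 + (x.1 ^ 2 + x.2 ^ 2) * ξ.2.2) : ℝ) : ℂ) * I := by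
          push_cast
          ring
        rw [enorm_mul, ← ofReal_norm, e, Complex.norm_exp_ofReal_mul_I, ENNReal.ofReal_one, one_mul]
        rfl
      simp_rw [h3]
      simp [hq0, hp0]
    refine (setLIntegral_mono' measurableSet_Icc h2).trans ?_
    simp
  · have hpos : 0 < (∫⁻ x, ‖f x‖ₑ ^ q).toReal := ENNReal.toReal_pos hzero hfin
    set s : ℝ := (∫⁻ x, ‖f x‖ₑ ^ q).toReal ^ (1 / q) with hs
    have hs0 : 0 < s := Real.rpow_pos_of_pos hpos _
    have hsq : ENNReal.ofReal (s ^ q) = ∫⁻ x, ‖f x‖ₑ ^ q := by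
      rw [hs, ← Real.rpow_mul hpos.le, one_div_mul_cancel hq0.ne', Real.rpow_one, ENNReal.ofReal_toReal hfin]
    have h1 := key μ hμ f hf s hs0 (le_of_eq hsq.symm)
    rw [hsq] at h1
    exact h1.trans (mul_le_mul' le_self_add le_rfl)

end X92.Mom
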