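import Pool.Agent.X92.Mom1
import Pool.Agent.X92.Ext15
set_option autoImplicit false
open MeasureTheory Set
open scoped ENNReal

namespace X92.Mom

open Pool.Agent.H147R3.PE (S2 wt Fro dil wt_meas ext_meas1 ext_meas)

/-- the extension operator -/
noncomputable abbrev EX (f : ℝ × ℝ → ℂ) (ξ : ℝ × ℝ × ℝ) : ℂ := Pool.Agent.H147R3.PE.ext f ξ

/-- lower moments on finite measures -/
theorem low_moment (μ : Measure ℝ) (M : ℝ≥0∞) (hM : μ univ ≤ M) (X : ℝ → ℝ≥0∞) (hX : AEMeasurable X μ)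
    (p p0 : ℝ) (hp : 0 < p) (hp0 : p < p0) :
    ∫⁻ s, X s ^ p ∂μ ≤ (∫⁻ s, X s ^ p0 ∂μ) ^ (p / p0) * M ^ (1 - p / p0) := by
  have h0 : 0 < p0 := by linarith
  set r : ℝ := p0 / p with hr
  have hr1 : 1 < r := by rw [hr, lt_div_iff₀ hp]; linarith
  have hpq : r.HolderConjugate (r / (r - 1)) := Real.HolderConjugate.conjExponent hr1
  have h := ENNReal.lintegral_mul_le_Lp_mul_Lq μ hpq (f := fun s => X s ^ p) (g := fun _ => 1)
    (hX.pow_const p) aemeasurable_const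
  simp only [Pi.mul_apply, mul_one, ENNReal.one_rpow] at h
  rw [lintegral_const, one_mul] at h
  have e1 : ∀ s, (X s ^ p) ^ r = X s ^ p0 := by
    intro s
    rw [← ENNReal.rpow_mul, hr, mul_div_cancel₀ _ hp.ne']
  simp_rw [e1] at h
  have e2 : 1 / r = p / p0 := by rw [hr, one_div_div]
  have e3 : 1 / (r / (r - 1)) = 1 - p / p0 := by
    rw [one_div_div, sub_div, div_self (by linarith), ← e2]
  rw [e2, e3] at h
  have h3 : 0 ≤ 1 - p / p0 := by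
    rw [sub_nonneg, div_le_one h0]; linarith
  exact h.trans (mul_le_mul' le_rfl (ENNReal.rpow_le_rpow hM h3))

theorem EX_scale (R a l : ℝ) (hR : 0 < R) (g : ℝ × ℝ → ℂ) (hg : Measurable g) (ξ : ℝ × ℝ × ℝ) :
    EX (dil (a * l) g) ξ =
      (R ^ 2 : ℝ) • EX (dil l (fun x => g (R * x.1, a * R * x.2))) (R * ξ.1, R * ξ.2.1, R ^ 2 * ξ.2.2) := by
  have hm : Measurable (fun x : ℝ × ℝ => Complex.exp (-Complex.I * (x.1 * ξ.1 + x.2 * ξ.2.1 +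
      (x.1 ^ 2 + x.2 ^ 2) * ξ.2.2)) * g (x.1, a * l * x.2)) := by
    refine Measurable.mul (by fun_prop) ?_
    exact hg.comp (by fun_prop)
  have h := X92.Ext.int_dil R R hR.ne' hR.ne' _ hm
  unfold EX Pool.Agent.H147R3.PE.ext
  have e : ∫ x : ℝ × ℝ, Complex.exp (-Complex.I * (x.1 * (R * ξ.1 : ℝ) + x.2 * (R * ξ.2.1 : ℝ) +
      (x.1 ^ 2 + x.2 ^ 2) * (R ^ 2 * ξ.2.2 : ℝ))) * dil l (fun x => g (R * x.1, a * R * x.2)) x =
      |(R * R)⁻¹| • ∫ x : ℝ × ℝ, Complex.exp (-Complex.I * (x.1 * ξ.1 + x.2 * ξ.2.1 +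
      (x.1 ^ 2 + x.2 ^ 2) * ξ.2.2)) * g (x.1, a * l * x.2) := by
    rw [← h]
    congr 1
    ext x
    unfold dil X92.Ext.dil
    simp only
    congr 2
    · push_cast
      ring
    · rw [show a * R * (l * x.2) = a * l * (R * x.2) from by ring]
  rw [e, smul_smul]
  have e2 : R ^ 2 * |(R * R)⁻¹| = 1 := by
    rw [abs_of_pos (by positivity)]
    field_simp
  rw [e2, one_smul]
  rfl

theorem lint_dil3 (R : ℝ) (hR : 0 < R) (F : ℝ × ℝ × ℝ → ℝ≥0∞) (hF : Measurable F) :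
    ∫⁻ ξ : ℝ × ℝ × ℝ, F (R * ξ.1, R * ξ.2.1, R ^ 2 * ξ.2.2) = ENNReal.ofReal ((R ^ 4)⁻¹) * ∫⁻ ξ, F ξ := by
  have h1 : Measure.map (fun ξ : ℝ × ℝ × ℝ => (R * ξ.1, R * ξ.2.1, R ^ 2 * ξ.2.2)) volume =
      ENNReal.ofReal ((R ^ 4)⁻¹) • (volume : Measure (ℝ × ℝ × ℝ)) := by
    have e : (fun ξ : ℝ × ℝ × ℝ => (R * ξ.1, R * ξ.2.1, R ^ 2 * ξ.2.2)) =
        Prod.map (fun y => R * y) (X92.Ext.dil R (R ^ 2)) := by
      ext x <;> simp [X92.Ext.dil]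
    rw [e, Measure.volume_eq_prod, ← Measure.map_prod_map _ _ (measurable_const_mul R) (X92.Ext.measurable_dil R _),
      Real.map_volume_mul_left hR.ne', X92.Ext.map_dil R (R ^ 2) hR.ne' (by positivity),
      Measure.prod_smul_right, Measure.prod_smul_left, smul_smul]
    congr 1
    rw [← ENNReal.ofReal_mul (abs_nonneg _), abs_of_pos (by positivity), abs_of_pos (by positivity)]
    congr 1
    field_simp
  have hm : Measurable (fun ξ : ℝ × ℝ × ℝ => (R * ξ.1, R * ξ.2.1, R ^ 2 * ξ.2.2)) := by fun_prop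
  rw [← lintegral_map hF hm, h1, lintegral_smul_measure, smul_eq_mul]

/-- All moments, all intervals. -/
theorem mom2 (α γ p q A a b : ℝ) (hA : 0 ≤ A) (hα1 : α ≤ 1) (hγ0 : 0 ≤ γ) (hγα : γ < α) (hp : 0 < p)
    (hpα : p * (1 + γ) < 1 + α) (hq : 2 + 2 * (1 + γ) / (1 + α) < q) (ha : 0 < a) (hab : a ≤ b) :
    ∃ C : ℝ, 0 < C ∧ ∀ μ : Measure ℝ, Fro μ A α → ∀ g : ℝ × ℝ → ℂ, S2 g →
      ∫⁻ s in Icc a b, (∫⁻ ξ : ℝ × ℝ × ℝ, wt γ ξ.2.2 * ‖EX (dil s g) ξ‖ₑ ^ q) ^ p ∂μ ≤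
        ENNReal.ofReal C * (∫⁻ x, ‖g x‖ₑ ^ q) ^ p := by
  set ρ : ℝ := (1 + α) / (1 + γ) with hρ
  have hγ1 : 0 < 1 + γ := by linarith
  have hα1' : 0 < 1 + α := by linarith
  have hρ1 : 1 < ρ := by rw [hρ, lt_div_iff₀ hγ1]; linarith
  have hpρ : p < ρ := by rw [hρ, lt_div_iff₀ hγ1]; exact hpα
  have h2ρ : 2 * (1 + γ) / (1 + α) = 2 / ρ := by
    rw [hρ]; field_simp
  rw [h2ρ] at hq
  have h2ρ0 : 0 < 2 / ρ := by positivity
  have hq2 : 0 < q - 2 := by linarith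
  have hqρ : 2 / (q - 2) < ρ := by
    rw [div_lt_iff₀ hq2]
    have h1 : 2 / ρ < q - 2 := by linarith
    rw [div_lt_iff₀ (by linarith)] at h1
    linarith
  set p0 : ℝ := (max p (max 1 (2 / (q - 2))) + ρ) / 2 with hp0
  have hm1 : max p (max 1 (2 / (q - 2))) < ρ := max_lt hpρ (max_lt hρ1 hqρ)
  have hp0ρ : p0 < ρ := by rw [hp0]; linarith
  have hp0m : max p (max 1 (2 / (q - 2))) < p0 := by rw [hp0]; linarith
  have hp0p : p < p0 := lt_of_le_of_lt (le_max_left _ _) hp0m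
  have hp01 : 1 < p0 := lt_of_le_of_lt ((le_max_left _ _).trans (le_max_right _ _)) hp0m
  have hp0q : 2 / (q - 2) < p0 := lt_of_le_of_lt ((le_max_right _ _).trans (le_max_right _ _)) hp0m
  have hp00 : 0 < p0 := by linarith
  have hq0 : 2 + 2 / p0 < q := by
    rw [div_lt_iff₀ hq2] at hp0q
    have h1 : 2 / p0 < q - 2 := by
      rw [div_lt_iff₀ hp00]; linarith
    linarith
  have hp0α : p0 * (1 + γ) < 1 + α := by
    rw [hρ, lt_div_iff₀ hγ1] at hp0ρ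
    exact hp0ρ
  have hqpos : 0 < q := by linarith
  have hL : 1 ≤ b / a := by rw [one_le_div ha]; exact hab
  set A' : ℝ := A * a ^ α with hA'
  have hA'0 : 0 ≤ A' := by positivity
  obtain ⟨K, hK, hmom⟩ := mom α γ p0 q A' (b / a) hA'0 hα1 hγ0 hp01 hp0α hq0 hL
  set R : ℝ := max 1 (1 / a) with hR
  have hR1 : 1 ≤ R := le_max_left _ _
  have hR0 : 0 < R := by linarith
  have hRa : 1 ≤ a * R := by
    have : 1 / a ≤ R := le_max_right _ _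
    rw [div_le_iff₀ ha] at this
    linarith
  set M : ℝ≥0∞ := ENNReal.ofReal (A * (b - a + 1) ^ α) with hM
  -- the constant
  set K1 : ℝ≥0∞ := ENNReal.ofReal (R ^ (2 * q)) ^ p0 * (K * ENNReal.ofReal (a⁻¹) ^ p0) with hK1
  have hK1t : K1 ≠ ⊤ := by
    refine ENNReal.mul_ne_top (ENNReal.rpow_ne_top_of_nonneg hp00.le ENNReal.ofReal_ne_top) ?_
    exact ENNReal.mul_ne_top hK (ENNReal.rpow_ne_top_of_nonneg hp00.le ENNReal.ofReal_ne_top)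
  have hpp : 0 ≤ 1 - p / p0 := by rw [sub_nonneg, div_le_one hp00]; exact hp0p.le
  set C0 : ℝ≥0∞ := K1 ^ (p / p0) * M ^ (1 - p / p0) with hC0
  have hC0t : C0 ≠ ⊤ := ENNReal.mul_ne_top (ENNReal.rpow_ne_top_of_nonneg (by positivity) hK1t)
    (ENNReal.rpow_ne_top_of_nonneg hpp ENNReal.ofReal_ne_top)
  refine ⟨C0.toReal + 1, by positivity, ?_⟩
  intro μ hμ g hg
  set X : ℝ → ℝ≥0∞ := fun s => ∫⁻ ξ : ℝ × ℝ × ℝ, wt γ ξ.2.2 * ‖EX (dil s g) ξ‖ₑ ^ q with hX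
  have hXm : Measurable X := J_meas γ q hg.meas
  set G : ℝ × ℝ → ℂ := fun x => g (R * x.1, a * R * x.2) with hG
  have hGS : S2 G := by
    refine ⟨hg.meas.comp (by fun_prop), ?_, ?_⟩
    · intro x hx
      refine hg.supp1 _ ?_
      simp only
      rw [abs_mul, abs_of_pos hR0]
      nlinarith [abs_nonneg x.1]
    · intro x hx
      refine hg.supp2 _ ?_
      simp only
      rw [abs_mul, abs_of_pos (by positivity : 0 < a * R)]
      nlinarith [abs_nonneg x.2]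
  have hGn : ∫⁻ x, ‖G x‖ₑ ^ q ≤ ENNReal.ofReal (a⁻¹) * ∫⁻ x, ‖g x‖ₑ ^ q := by
    have h1 := X92.Ext.lint_dil R (a * R) hR0.ne' (by positivity) (fun x => ‖g x‖ₑ ^ q)
      (hg.meas.enorm.pow_const q)
    have h2 : ∫⁻ x, ‖G x‖ₑ ^ q = ∫⁻ x, (fun x => ‖g x‖ₑ ^ q) (X92.Ext.dil R (a * R) x) := rfl
    rw [h2, h1]
    refine mul_le_mul' (ENNReal.ofReal_le_ofReal ?_) le_rfl
    rw [abs_of_pos (by positivity)]
    refine inv_anti₀ ha ?_
    nlinarith [mul_pos ha hR0]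
  -- comparison
  have hXl : ∀ l : ℝ, X (a * l) ≤ ENNReal.ofReal (R ^ (2 * q)) *
      ∫⁻ ξ : ℝ × ℝ × ℝ, wt γ ξ.2.2 * ‖EX (dil l G) ξ‖ₑ ^ q := by
    intro l
    have h1 : ∀ ξ : ℝ × ℝ × ℝ, wt γ ξ.2.2 * ‖EX (dil (a * l) g) ξ‖ₑ ^ q ≤
        ENNReal.ofReal (R ^ (2 * q)) * (fun ξ : ℝ × ℝ × ℝ => wt γ ξ.2.2 * ‖EX (dil l G) ξ‖ₑ ^ q)
          (R * ξ.1, R * ξ.2.1, R ^ 2 * ξ.2.2) := by
      intro ξ
      rw [EX_scale R a l hR0 g hg.meas ξ, enorm_smul, ENNReal.mul_rpow_of_nonneg _ _ hqpos.le]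
      have h3 : ‖R ^ 2‖ₑ ^ q = ENNReal.ofReal (R ^ (2 * q)) := by
        rw [Real.enorm_of_nonneg (by positivity), ENNReal.ofReal_rpow_of_pos (by positivity),
          ← Real.rpow_natCast, ← Real.rpow_mul hR0.le]
        norm_num
      have h4 : wt γ ξ.2.2 ≤ wt γ (R ^ 2 * ξ.2.2) := by
        unfold wt
        refine ENNReal.ofReal_le_ofReal (Real.rpow_le_rpow (by positivity) ?_ hγ0)
        rw [abs_mul, abs_of_pos (by positivity : 0 < R ^ 2)]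
        have : 1 ≤ R ^ 2 := by nlinarith
        nlinarith [abs_nonneg ξ.2.2]
      rw [h3]
      calc wt γ ξ.2.2 * (ENNReal.ofReal (R ^ (2 * q)) * ‖EX (dil l G) (R * ξ.1, R * ξ.2.1, R ^ 2 * ξ.2.2)‖ₑ ^ q)
          = ENNReal.ofReal (R ^ (2 * q)) * (wt γ ξ.2.2 * ‖EX (dil l G) (R * ξ.1, R * ξ.2.1, R ^ 2 * ξ.2.2)‖ₑ ^ q) := by
            ring
        _ ≤ _ := mul_le_mul' le_rfl (mul_le_mul' h4 le_rfl)
    have hm : Measurable (fun ξ : ℝ × ℝ × ℝ => wt γ ξ.2.2 * ‖EX (dil l G) ξ‖ₑ ^ q) :=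
      ((wt_meas γ).comp (measurable_snd.comp measurable_snd)).mul ((ext_meas1 hGS.meas l).enorm.pow_const q)
    calc X (a * l) ≤ ∫⁻ ξ : ℝ × ℝ × ℝ, ENNReal.ofReal (R ^ (2 * q)) *
          (fun ξ : ℝ × ℝ × ℝ => wt γ ξ.2.2 * ‖EX (dil l G) ξ‖ₑ ^ q) (R * ξ.1, R * ξ.2.1, R ^ 2 * ξ.2.2) :=
          lintegral_mono h1
      _ = ENNReal.ofReal (R ^ (2 * q)) * (ENNReal.ofReal ((R ^ 4)⁻¹) *
          ∫⁻ ξ : ℝ × ℝ × ℝ, wt γ ξ.2.2 * ‖EX (dil l G) ξ‖ₑ ^ q) := by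
          rw [lintegral_const_mul' _ _ ENNReal.ofReal_ne_top, lint_dil3 R hR0 _ hm]
      _ ≤ _ := by
          refine mul_le_mul' le_rfl ?_
          calc ENNReal.ofReal ((R ^ 4)⁻¹) * ∫⁻ ξ : ℝ × ℝ × ℝ, wt γ ξ.2.2 * ‖EX (dil l G) ξ‖ₑ ^ q
              ≤ 1 * ∫⁻ ξ : ℝ × ℝ × ℝ, wt γ ξ.2.2 * ‖EX (dil l G) ξ‖ₑ ^ q := by
                refine mul_le_mul' ?_ le_rfl
                rw [← ENNReal.ofReal_one]
                exact ENNReal.ofReal_le_ofReal (inv_le_one_of_one_le₀ (one_le_pow₀ hR1))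
            _ = _ := one_mul _
  -- the pushed measure
  set ν : Measure ℝ := μ.map (fun s => a⁻¹ * s) with hν
  have hFν : Fro ν A' α := by
    intro x r hr
    rw [hν, Measure.map_apply (measurable_const_mul _) measurableSet_Icc]
    have h1 : (fun s => a⁻¹ * s) ⁻¹' Icc x (x + r) ⊆ Icc (a * x) (a * x + a * r) := by
      intro s hs
      have h2 : x ≤ a⁻¹ * s := hs.1
      have h3 : a⁻¹ * s ≤ x + r := hs.2
      rw [inv_mul_eq_div, le_div_iff₀ ha] at h2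
      rw [inv_mul_eq_div, div_le_iff₀ ha] at h3
      exact ⟨by linarith, by linarith⟩
    refine (measure_mono h1).trans ((hμ (a * x) (a * r) (by positivity)).trans (le_of_eq ?_))
    rw [hA', Real.mul_rpow ha.le hr.le]
    congr 1
    ring
  have hmain : ∫⁻ s in Icc a b, X s ^ p0 ∂μ ≤ K1 * (∫⁻ x, ‖g x‖ₑ ^ q) ^ p0 := by
    have h1 : ∫⁻ s in Icc a b, X s ^ p0 ∂μ = ∫⁻ l in Icc 1 (b / a), X (a * l) ^ p0 ∂ν := by
      have hXa : Measurable (fun l => X (a * l) ^ p0) := (hXm.comp (measurable_const_mul a)).pow_const p0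
      rw [hν, setLIntegral_map measurableSet_Icc hXa (measurable_const_mul _)]
      have h2 : (fun s => a⁻¹ * s) ⁻¹' Icc 1 (b / a) = Icc a b := by
        ext s
        simp only [mem_preimage, mem_Icc]
        rw [inv_mul_eq_div, le_div_iff₀ ha, div_le_div_iff_of_pos_right ha, one_mul]
      rw [h2]
      refine lintegral_congr (fun s => ?_)
      rw [mul_inv_cancel_left₀ ha.ne']
    rw [h1]
    calc ∫⁻ l in Icc 1 (b / a), X (a * l) ^ p0 ∂ν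
        ≤ ∫⁻ l in Icc 1 (b / a), ENNReal.ofReal (R ^ (2 * q)) ^ p0 *
          (∫⁻ ξ : ℝ × ℝ × ℝ, wt γ ξ.2.2 * ‖EX (dil l G) ξ‖ₑ ^ q) ^ p0 ∂ν := by
          refine lintegral_mono (fun l => ?_)
          rw [← ENNReal.mul_rpow_of_nonneg _ _ hp00.le]
          exact ENNReal.rpow_le_rpow (hXl l) hp00.le
      _ = ENNReal.ofReal (R ^ (2 * q)) ^ p0 * ∫⁻ l in Icc 1 (b / a),
          (∫⁻ ξ : ℝ × ℝ × ℝ, wt γ ξ.2.2 * ‖EX (dil l G) ξ‖ₑ ^ q) ^ p0 ∂ν :=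
          lintegral_const_mul' _ _ (ENNReal.rpow_ne_top_of_nonneg hp00.le ENNReal.ofReal_ne_top)
      _ ≤ ENNReal.ofReal (R ^ (2 * q)) ^ p0 * (K * (ENNReal.ofReal (a⁻¹) * ∫⁻ x, ‖g x‖ₑ ^ q) ^ p0) :=
          mul_le_mul' le_rfl ((hmom ν hFν G hGS).trans (mul_le_mul' le_rfl
            (ENNReal.rpow_le_rpow hGn hp00.le)))
      _ = _ := by
          rw [ENNReal.mul_rpow_of_nonneg _ _ hp00.le, hK1]
          ring
  have hMu : (μ.restrict (Icc a b)) univ ≤ M := by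
    rw [Measure.restrict_apply_univ]
    refine (measure_mono ?_).trans (hμ a (b - a + 1) (by linarith))
    exact Icc_subset_Icc le_rfl (by linarith)
  have h5 := low_moment (μ.restrict (Icc a b)) M hMu X hXm.aemeasurable p p0 hp hp0p
  calc ∫⁻ s in Icc a b, X s ^ p ∂μ
      ≤ (∫⁻ s in Icc a b, X s ^ p0 ∂μ) ^ (p / p0) * M ^ (1 - p / p0) := h5
    _ ≤ (K1 * (∫⁻ x, ‖g x‖ₑ ^ q) ^ p0) ^ (p / p0) * M ^ (1 - p / p0) :=
        mul_le_mul' (ENNReal.rpow_le_rpow hmain (by positivity)) le_rfl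
    _ = C0 * (∫⁻ x, ‖g x‖ₑ ^ q) ^ p := by
        rw [ENNReal.mul_rpow_of_nonneg _ _ (by positivity), ← ENNReal.rpow_mul, mul_div_cancel₀ _ hp00.ne', hC0]
        ring
    _ ≤ _ := by
        refine mul_le_mul' ?_ le_rfl
        calc C0 = ENNReal.ofReal C0.toReal := (ENNReal.ofReal_toReal hC0t).symm
          _ ≤ _ := ENNReal.ofReal_le_ofReal (by linarith)

end X92.Mom
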