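import Mathlib

set_option autoImplicit false

/-!
# Velocity jump processes on the line and their martingale problems
-/

namespace Pool.Agent.X92.PD

open MeasureTheory ProbabilityTheory InformationTheory Set Filter Topology

/-- the normalised target measure `π(dx) ∝ exp(-U(x)) dx` -/
noncomputable def target (U : ℝ → ℝ) : Measure ℝ :=
  (ENNReal.ofReal (∫ y, Real.exp (-U y)))⁻¹ •
    (volume : Measure ℝ).withDensity (fun x => ENNReal.ofReal (Real.exp (-U x)))

/-- the uniform law on `{-1, 1}` -/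
noncomputable def coin : Measure ℝ :=
  (2 : ENNReal)⁻¹ • Measure.dirac (-1 : ℝ) + (2 : ENNReal)⁻¹ • Measure.dirac (1 : ℝ)

/-- generator of the one dimensional Zig-Zag process -/
noncomputable def zzGen (U : ℝ → ℝ) (γ : ℝ) (f : ℝ → ℝ → ℝ) (x v : ℝ) : ℝ :=
  v * deriv (fun y => f y v) x + (max (v * deriv U x) 0 + γ) * (f x (-v) - f x v)

/-- generator of the one dimensional Bouncy Particle Sampler (in dimension one the reflection
is `v ↦ -v`), refreshment from `N(0,1)` at rate `γ` -/
noncomputable def bpsGen (U : ℝ → ℝ) (γ : ℝ) (f : ℝ → ℝ → ℝ) (x v : ℝ) : ℝ :=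
  v * deriv (fun y => f y v) x + max (v * deriv U x) 0 * (f x (-v) - f x v) +
    γ * ((∫ w, f x w ∂(gaussianReal 0 1)) - f x v)

/-- admissible test functions: bounded, continuous, continuously differentiable in the position,
with bounded measurable image under the generator -/
def Test (L : (ℝ → ℝ → ℝ) → ℝ → ℝ → ℝ) (f : ℝ → ℝ → ℝ) : Prop :=
  Continuous (Function.uncurry f) ∧ (∀ v, ContDiff ℝ 1 (fun x => f x v)) ∧
    (∃ C, ∀ x v, |f x v| ≤ C) ∧ (∃ C, ∀ x v, |L f x v| ≤ C) ∧
    Measurable (Function.uncurry (L f))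

/-- the past of the process up to time `s` -/
def past {Ω : Type} (X V : ℝ → Ω → ℝ) (s : ℝ) : MeasurableSpace Ω :=
  ⨆ r ∈ Icc (0 : ℝ) s, MeasurableSpace.comap (fun ω => (X r ω, V r ω)) inferInstance

/-- `(X, V)` is a velocity jump process with velocities in `S` and generator `L`, on the
probability space `(Ω, P)` -/
structure IsProc {Ω : Type} [MeasurableSpace Ω] (P : Measure Ω) (S : Set ℝ)
    (L : (ℝ → ℝ → ℝ) → ℝ → ℝ → ℝ) (X V : ℝ → Ω → ℝ) : Prop where
  measX : ∀ t, Measurable (X t)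
  measV : Measurable (fun p : ℝ × Ω => V p.1 p.2)
  vel : ∀ ω t, 0 ≤ t → V t ω ∈ S
  /-- the velocity is right continuous and piecewise constant -/
  const : ∀ ω t, 0 ≤ t → ∀ᶠ s in 𝓝[>] t, V s ω = V t ω
  left : ∀ ω t, 0 < t → ∃ v, ∀ᶠ s in 𝓝[<] t, V s ω = v
  /-- `dX/dt = V` -/
  path : ∀ ω t, 0 ≤ t → IntervalIntegrable (fun s => V s ω) volume 0 t ∧
    X t ω = X 0 ω + ∫ s in (0 : ℝ)..t, V s ω
  /-- the martingale problem for the generator `L` -/
  mart : ∀ f, Test L f → ∀ s t, 0 ≤ s → s ≤ t → ∀ A, MeasurableSet[past X V s] A →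
    ∫ ω in A, (f (X t ω) (V t ω) - f (X s ω) (V s ω) -
      ∫ r in s..t, L f (X r ω) (V r ω)) ∂P = 0

/-- exponential tails of a law on positions and velocities -/
def ExpTails (p : Measure (ℝ × ℝ)) : Prop :=
  ∃ a > 0, Integrable (fun z : ℝ × ℝ => Real.exp (a * |z.1|)) p

/-- an elementary lower bound of the relative entropy -/
theorem le_klDiv {α : Type*} [MeasurableSpace α] (p μ : Measure α) [IsProbabilityMeasure p]
    [IsProbabilityMeasure μ] (B : Set α) (hB : MeasurableSet B) :
    p B ≤ klDiv p μ + 2 * μ B := by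
  by_cases hac : p ≪ μ
  swap
  · rw [klDiv_of_not_ac hac]
    simp
  rw [klDiv_eq_lintegral_klFun_of_ac hac]
  have key : ∀ x : ℝ, 0 ≤ x → x ≤ klFun x + 2 := by
    intro x hx
    rw [klFun_apply]
    rcases hx.eq_or_lt with h | h
    · subst h; norm_num
    · have h1 := Real.add_one_le_exp (-(Real.log x - 1))
      have h2 : Real.exp (-(Real.log x - 1)) = Real.exp 1 / x := by
        rw [show -(Real.log x - 1) = 1 - Real.log x by ring, Real.exp_sub, Real.exp_log h]
      rw [h2] at h1
      have h3 : x * (-(Real.log x - 1) + 1) ≤ Real.exp 1 := by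
        have := mul_le_mul_of_nonneg_left h1 h.le
        rwa [mul_div_cancel₀ _ h.ne'] at this
      have h4 := Real.exp_one_lt_d9
      nlinarith
  have h1 : p B = ∫⁻ x in B, p.rnDeriv μ x ∂μ := (Measure.setLIntegral_rnDeriv hac B).symm
  rw [h1]
  calc ∫⁻ x in B, p.rnDeriv μ x ∂μ
      ≤ ∫⁻ x in B, (ENNReal.ofReal (klFun (p.rnDeriv μ x).toReal) + 2) ∂μ := by
        refine lintegral_mono_ae ?_
        have hfin : ∀ᵐ x ∂μ.restrict B, p.rnDeriv μ x < ⊤ :=
          ae_restrict_of_ae (Measure.rnDeriv_lt_top p μ)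
        filter_upwards [hfin] with x hx
        have h := key (p.rnDeriv μ x).toReal ENNReal.toReal_nonneg
        have h2 : p.rnDeriv μ x = ENNReal.ofReal (p.rnDeriv μ x).toReal :=
          (ENNReal.ofReal_toReal hx.ne).symm
        calc p.rnDeriv μ x = ENNReal.ofReal (p.rnDeriv μ x).toReal := h2
          _ ≤ ENNReal.ofReal (klFun (p.rnDeriv μ x).toReal + 2) := ENNReal.ofReal_le_ofReal h
          _ ≤ ENNReal.ofReal (klFun (p.rnDeriv μ x).toReal) + ENNReal.ofReal 2 :=
            ENNReal.ofReal_add_le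
          _ = _ := by norm_num
    _ = ∫⁻ x in B, ENNReal.ofReal (klFun (p.rnDeriv μ x).toReal) ∂μ + 2 * μ B := by
        rw [lintegral_add_right _ measurable_const]
        simp
    _ ≤ _ := by
        gcongr
        exact Measure.restrict_le_self

end Pool.Agent.X92.PD
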