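import Pool.Agent.X92.PD1

set_option autoImplicit false

/-!
# Slow decay of the relative entropy from a slow tail
-/

namespace Pool.Agent.X92.PD

open MeasureTheory ProbabilityTheory InformationTheory Set Filter Topology

theorem slow (μ : Measure (ℝ × ℝ)) [IsProbabilityMeasure μ] (p : ℝ → Measure (ℝ × ℝ))
    (hp : ∀ t, IsProbabilityMeasure (p t)) (C κ K a c lam : ℝ) (hC : 0 ≤ C) (hc : 0 < c)
    (hK : 0 ≤ K)
    (hμ : ∀ s, 0 ≤ s → μ {z | s < z.1} ≤ ENNReal.ofReal (C * Real.exp (-κ * s)))
    (hpt : ∀ t R, 0 ≤ t → 0 ≤ R →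
      ENNReal.ofReal (c * Real.exp (-a * R)) ≤ p t {z | R - K * t < z.1})
    (h1 : a * (K + 1) < κ) (h2 : a * (K + 1) < lam) (C₀ : ℝ) :
    ∃ t, 0 ≤ t ∧ ENNReal.ofReal (C₀ * Real.exp (-lam * t)) < klDiv (p t) μ := by
  by_contra hcon
  push Not at hcon
  set b := a * (K + 1) with hb
  have key : ∀ t : ℝ, 0 ≤ t →
      c ≤ |C₀| * Real.exp (-(lam - b) * t) + 2 * C * Real.exp (-(κ - b) * t) := by
    intro t ht
    haveI := hp t
    have e1 := le_klDiv (p t) μ {z | t < z.1} (measurableSet_lt measurable_const measurable_fst)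
    have e2 := hpt t ((K + 1) * t) ht (by positivity)
    rw [show (K + 1) * t - K * t = t by ring] at e2
    have e3 := hcon t ht
    have e4 := hμ t ht
    have e5 : ENNReal.ofReal (c * Real.exp (-a * ((K + 1) * t))) ≤
        ENNReal.ofReal (|C₀| * Real.exp (-lam * t) + 2 * (C * Real.exp (-κ * t))) := by
      calc ENNReal.ofReal (c * Real.exp (-a * ((K + 1) * t))) ≤ p t {z | t < z.1} := e2
        _ ≤ klDiv (p t) μ + 2 * μ {z | t < z.1} := e1
        _ ≤ ENNReal.ofReal (|C₀| * Real.exp (-lam * t)) +
            ENNReal.ofReal (2 * (C * Real.exp (-κ * t))) := by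
            refine add_le_add (e3.trans (ENNReal.ofReal_le_ofReal ?_)) ?_
            · exact mul_le_mul_of_nonneg_right (le_abs_self _) (Real.exp_pos _).le
            · rw [ENNReal.ofReal_mul (by norm_num)]
              rw [show ENNReal.ofReal 2 = 2 by norm_num]
              gcongr
        _ = _ := (ENNReal.ofReal_add (by positivity) (by positivity)).symm
    have e6 := (ENNReal.ofReal_le_ofReal_iff (by positivity)).1 e5
    have e7 := mul_le_mul_of_nonneg_right e6 (Real.exp_pos (b * t)).le
    have f1 : c * Real.exp (-a * ((K + 1) * t)) * Real.exp (b * t) = c := by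
      rw [mul_assoc, ← Real.exp_add, hb, show -a * ((K + 1) * t) + a * (K + 1) * t = 0 by ring,
        Real.exp_zero, mul_one]
    have f2 : (|C₀| * Real.exp (-lam * t) + 2 * (C * Real.exp (-κ * t))) * Real.exp (b * t) =
        |C₀| * Real.exp (-(lam - b) * t) + 2 * C * Real.exp (-(κ - b) * t) := by
      rw [show -(lam - b) * t = -lam * t + b * t by ring,
        show -(κ - b) * t = -κ * t + b * t by ring, Real.exp_add, Real.exp_add]
      ring
    rw [f1, f2] at e7
    exact e7
  have lim : Tendsto (fun t : ℝ => |C₀| * Real.exp (-(lam - b) * t) +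
      2 * C * Real.exp (-(κ - b) * t)) atTop (𝓝 (|C₀| * 0 + 2 * C * 0)) := by
    refine Tendsto.add (Tendsto.const_mul _ ?_) (Tendsto.const_mul _ ?_)
    · refine Real.tendsto_exp_atBot.comp ?_
      exact Tendsto.const_mul_atTop_of_neg (by linarith) tendsto_id
    · refine Real.tendsto_exp_atBot.comp ?_
      exact Tendsto.const_mul_atTop_of_neg (by linarith) tendsto_id
  have := ge_of_tendsto lim ((eventually_ge_atTop (0 : ℝ)).mono key)
  simp at this
  linarith

/-- the exponential law times a velocity law -/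
noncomputable def start (a : ℝ) (ν : Measure ℝ) : Measure (ℝ × ℝ) := (expMeasure a).prod ν

theorem tail_exp {a : ℝ} (ha : 0 < a) {R : ℝ} (hR : 0 ≤ R) :
    (expMeasure a) (Ioi R) = ENNReal.ofReal (Real.exp (-a * R)) := by
  haveI : IsProbabilityMeasure (expMeasure a) := isProbabilityMeasure_expMeasure ha
  have h1 := cdf_expMeasure_eq ha R
  rw [if_pos hR, cdf_eq_real] at h1
  have h2 : (expMeasure a).real (Ioi R) = Real.exp (-a * R) := by
    have := probReal_compl_eq_one_sub (μ := expMeasure a) (measurableSet_Iic (a := R))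
    rw [compl_Iic, h1] at this
    rw [this]
    ring_nf
  rw [← h2, ofReal_measureReal]

theorem tail_start {a : ℝ} (ha : 0 < a) (ν : Measure ℝ) [IsProbabilityMeasure ν] {R : ℝ}
    (hR : 0 ≤ R) : start a ν {z | R < z.1} = ENNReal.ofReal (Real.exp (-a * R)) := by
  haveI : IsProbabilityMeasure (expMeasure a) := isProbabilityMeasure_expMeasure ha
  have : {z : ℝ × ℝ | R < z.1} = Ioi R ×ˢ univ := by ext z; simp
  rw [this, start, Measure.prod_prod, tail_exp ha hR]
  simp

theorem integrable_exp_law {a : ℝ} (ha : 0 < a) (g : ℝ → ℝ) (hg : Measurable g)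
    (h : IntegrableOn (fun x => g x * Real.exp (-(a * x))) (Ioi 0)) :
    Integrable g (expMeasure a) := by
  unfold expMeasure gammaMeasure
  rw [integrable_withDensity_iff_integrable_smul₀']
  · have e : (fun x => (gammaPDF 1 a x).toReal • g x) =
        Set.indicator (Ici 0) (fun x => a * (g x * Real.exp (-(a * x)))) := by
      funext x
      by_cases hx : 0 ≤ x
      · rw [indicator_of_mem (mem_Ici.2 hx), gammaPDF, gammaPDFReal, if_pos hx,
          ENNReal.toReal_ofReal (by positivity)]
        simp
        ring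
      · rw [indicator_of_notMem (by simpa using hx), gammaPDF, gammaPDFReal, if_neg hx]
        simp
    rw [e, integrable_indicator_iff measurableSet_Ici, integrableOn_Ici_iff_integrableOn_Ioi]
    exact h.const_mul a
  · exact (measurable_gammaPDFReal 1 a).ennreal_ofReal.aemeasurable
  · exact Eventually.of_forall fun x => ENNReal.ofReal_lt_top

theorem expTails_start {a : ℝ} (ha : 0 < a) (ν : Measure ℝ) [IsProbabilityMeasure ν] :
    ExpTails (start a ν) := by
  haveI : IsProbabilityMeasure (expMeasure a) := isProbabilityMeasure_expMeasure ha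
  refine ⟨a / 2, by positivity, ?_⟩
  have : Integrable (fun x : ℝ => Real.exp (a / 2 * |x|)) (expMeasure a) := by
    refine integrable_exp_law ha _ (by fun_prop) ?_
    have h := exp_neg_integrableOn_Ioi 0 (b := a / 2) (by positivity)
    refine h.congr_fun ?_ measurableSet_Ioi
    intro x hx
    have hx' : (0 : ℝ) < x := hx
    show Real.exp (-(a / 2) * x) = Real.exp (a / 2 * |x|) * Real.exp (-(a * x))
    rw [← Real.exp_add, abs_of_pos hx']
    congr 1
    ring
  exact this.comp_fst ν

end Pool.Agent.X92.PD
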