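import Pool.Agent.X92.PD2

set_option autoImplicit false

/-!
# The target measure and the initial law
-/

namespace Pool.Agent.X92.PD

open MeasureTheory ProbabilityTheory InformationTheory Set Filter Topology

section

variable {U : ℝ → ℝ}

theorem Z_pos (hI : Integrable (fun x => Real.exp (-U x))) : 0 < ∫ y, Real.exp (-U y) := by
  rw [integral_pos_iff_support_of_nonneg (fun x => (Real.exp_pos _).le) hI]
  have : Function.support (fun x => Real.exp (-U x)) = univ := by
    ext x; simp [Real.exp_ne_zero]
  rw [this]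
  simp

theorem isProb_target (hI : Integrable (fun x => Real.exp (-U x))) :
    IsProbabilityMeasure (target U) := by
  constructor
  have hZ := Z_pos hI
  rw [target, Measure.smul_apply, withDensity_apply _ MeasurableSet.univ,
    Measure.restrict_univ, ← ofReal_integral_eq_lintegral_ofReal hI
      (Eventually.of_forall fun x => (Real.exp_pos _).le), smul_eq_mul]
  exact ENNReal.inv_mul_cancel (by simpa using hZ) ENNReal.ofReal_ne_top

theorem tail_target (hI : Integrable (fun x => Real.exp (-U x))) {κ : ℝ} (hκ : 0 < κ)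
    (hE : Integrable (fun x => Real.exp (κ * |x| - U x))) :
    ∃ C, 0 ≤ C ∧ ∀ s : ℝ, (target U) (Ioi s) ≤ ENNReal.ofReal (C * Real.exp (-κ * s)) := by
  have hZ := Z_pos hI
  refine ⟨(∫ y, Real.exp (-U y))⁻¹ * ∫ x, Real.exp (κ * |x| - U x), by positivity, ?_⟩
  intro s
  rw [target, Measure.smul_apply, withDensity_apply _ measurableSet_Ioi, smul_eq_mul]
  have h1 : ∫⁻ x in Ioi s, ENNReal.ofReal (Real.exp (-U x)) ≤
      ENNReal.ofReal ((∫ x, Real.exp (κ * |x| - U x)) * Real.exp (-κ * s)) := by
    calc ∫⁻ x in Ioi s, ENNReal.ofReal (Real.exp (-U x))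
        ≤ ∫⁻ x in Ioi s, ENNReal.ofReal (Real.exp (κ * |x| - U x) * Real.exp (-κ * s)) := by
          refine setLIntegral_mono' measurableSet_Ioi ?_
          intro x hx
          refine ENNReal.ofReal_le_ofReal ?_
          rw [← Real.exp_add]
          refine Real.exp_le_exp.2 ?_
          have hx' : s < x := hx
          have := le_abs_self x
          nlinarith
      _ ≤ ∫⁻ x, ENNReal.ofReal (Real.exp (κ * |x| - U x) * Real.exp (-κ * s)) :=
          setLIntegral_le_lintegral _ _
      _ = ENNReal.ofReal (∫ x, Real.exp (κ * |x| - U x) * Real.exp (-κ * s)) := by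
          rw [← ofReal_integral_eq_lintegral_ofReal (hE.mul_const _)
            (Eventually.of_forall fun x => by positivity)]
      _ = _ := by rw [integral_mul_const]
  calc (ENNReal.ofReal (∫ y, Real.exp (-U y)))⁻¹ * ∫⁻ x in Ioi s, ENNReal.ofReal (Real.exp (-U x))
      ≤ (ENNReal.ofReal (∫ y, Real.exp (-U y)))⁻¹ *
        ENNReal.ofReal ((∫ x, Real.exp (κ * |x| - U x)) * Real.exp (-κ * s)) := by gcongr
    _ = _ := by
      rw [← ENNReal.ofReal_inv_of_pos hZ, ← ENNReal.ofReal_mul (by positivity), mul_assoc]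

theorem growth (hU : ContDiff ℝ 2 U) {M : ℝ} (hM : ∀ x, |deriv (deriv U) x| ≤ M) :
    ∃ A, 0 ≤ A ∧ ∀ x, |U x| ≤ A * (1 + x ^ 2) := by
  have hM0 : 0 ≤ M := (abs_nonneg _).trans (hM 0)
  have d1 : Differentiable ℝ U := hU.differentiable (by norm_num)
  have hU' : ContDiff ℝ 1 (deriv U) := by
    have h : ContDiff ℝ (1 + 1) U := by
      have e : ((1 : WithTop ℕ∞) + 1) = 2 := by norm_num
      rw [e]; exact hU
    exact (contDiff_succ_iff_deriv.1 h).2.2
  have d2 : Differentiable ℝ (deriv U) := hU'.differentiable (by norm_num)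
  have g1 : ∀ x, |deriv U x| ≤ |deriv U 0| + M * |x| := by
    intro x
    have := Convex.norm_image_sub_le_of_norm_deriv_le (f := deriv U) (s := univ) (C := M)
      (fun x _ => d2 x) (fun x _ => hM x) convex_univ (mem_univ 0) (mem_univ x)
    rw [Real.norm_eq_abs, Real.norm_eq_abs, sub_zero] at this
    have h2 := abs_sub_abs_le_abs_sub (deriv U x) (deriv U 0)
    linarith
  have g2 : ∀ x, |U x| ≤ |U 0| + (|deriv U 0| + M * |x|) * |x| := by
    intro x
    have := Convex.norm_image_sub_le_of_norm_deriv_le (f := U) (s := uIcc 0 x)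
      (C := |deriv U 0| + M * |x|) (fun y _ => d1 y) (fun y hy => by
        refine (g1 y).trans ?_
        have : |y| ≤ |x| := by
          rcases mem_uIcc.1 hy with h | h
          · exact abs_le_abs_of_nonneg h.1 h.2
          · rw [abs_of_nonpos h.2, abs_of_nonpos (h.1.trans h.2)]; linarith [h.1]
        nlinarith) (convex_uIcc 0 x) left_mem_uIcc right_mem_uIcc
    rw [Real.norm_eq_abs, Real.norm_eq_abs, sub_zero] at this
    have h2 := abs_sub_abs_le_abs_sub (U x) (U 0)
    linarith
  refine ⟨|U 0| + |deriv U 0| + M, by positivity, ?_⟩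
  intro x
  refine (g2 x).trans ?_
  have e : |x| ^ 2 = x ^ 2 := sq_abs x
  have h1 : |x| ≤ 1 + x ^ 2 := by nlinarith [sq_nonneg (|x| - 1), abs_nonneg x]
  nlinarith [abs_nonneg (U 0), abs_nonneg (deriv U 0), sq_nonneg x,
    mul_le_mul_of_nonneg_left h1 (abs_nonneg (deriv U 0)),
    mul_nonneg (abs_nonneg (U 0)) (sq_nonneg x)]

theorem kl_fin (hU : ContDiff ℝ 2 U) {M : ℝ} (hM : ∀ x, |deriv (deriv U) x| ≤ M)
    (hI : Integrable (fun x => Real.exp (-U x))) {a : ℝ} (ha : 0 < a) (ν : Measure ℝ)
    [IsProbabilityMeasure ν] : klDiv (start a ν) ((target U).prod ν) ≠ ⊤ := by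
  haveI : IsProbabilityMeasure (expMeasure a) := isProbabilityMeasure_expMeasure ha
  haveI := isProb_target hI
  have hZ := Z_pos hI
  have hUc : Continuous U := hU.continuous
  rw [start, ← Measure.compProd_const, ← Measure.compProd_const, klDiv_compProd_left]
  set Z := ∫ y, Real.exp (-U y) with hZd
  set G : ℝ → ENNReal := fun x => ENNReal.ofReal (Z * Real.exp (U x)) * gammaPDF 1 a x with hG
  have hGm : Measurable G :=
    (by fun_prop : Measurable fun x => ENNReal.ofReal (Z * Real.exp (U x))).mul
      (measurable_gammaPDFReal 1 a).ennreal_ofReal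
  have hrep : expMeasure a = (target U).withDensity G := by
    rw [target, withDensity_smul_measure, ← withDensity_mul _ (by fun_prop) hGm,
      ← withDensity_smul _ (by fun_prop : Measurable _)]
    unfold expMeasure gammaMeasure
    congr 1
    funext x
    simp only [Pi.smul_apply, Pi.mul_apply, smul_eq_mul, hG]
    rw [← ENNReal.ofReal_inv_of_pos hZ, ← mul_assoc, ← mul_assoc, ← ENNReal.ofReal_mul (by positivity),
      ← ENNReal.ofReal_mul (by positivity)]
    have : Z⁻¹ * Real.exp (-U x) * (Z * Real.exp (U x)) = 1 := by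
      rw [Real.exp_neg]
      field_simp
    rw [this]
    simp
  have hac : expMeasure a ≪ target U := by
    rw [hrep]
    exact withDensity_absolutelyContinuous _ _
  refine klDiv_ne_top hac ?_
  obtain ⟨A, hA0, hA⟩ := growth hU hM
  have hint : Integrable (fun x => Real.log Z + U x + Real.log a - a * x) (expMeasure a) := by
    refine integrable_exp_law ha _ (by fun_prop) ?_
    set D := |Real.log Z| + A + |Real.log a| + a with hD
    have hdom : IntegrableOn (fun x : ℝ => D * ((1 + x ^ 2) * Real.exp (-(a * x)))) (Ioi 0) := by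
      refine Integrable.const_mul ?_ _
      have i1 : IntegrableOn (fun x : ℝ => x ^ (0 : ℝ) * Real.exp (-a * x ^ (1 : ℝ))) (Ioi 0) :=
        integrableOn_rpow_mul_exp_neg_mul_rpow (by norm_num) (by norm_num) ha
      have i2 : IntegrableOn (fun x : ℝ => x ^ (2 : ℝ) * Real.exp (-a * x ^ (1 : ℝ))) (Ioi 0) :=
        integrableOn_rpow_mul_exp_neg_mul_rpow (by norm_num) (by norm_num) ha
      refine (i1.add i2).congr_fun ?_ measurableSet_Ioi
      intro x hx
      simp only [Pi.add_apply, Real.rpow_zero, Real.rpow_one, Real.rpow_two]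
      rw [show -a * x = -(a * x) by ring]
      ring
    refine Integrable.mono' hdom (by fun_prop) ?_
    refine (ae_restrict_iff' measurableSet_Ioi).2 (Eventually.of_forall fun x hx => ?_)
    have hx' : (0 : ℝ) < x := hx
    rw [Real.norm_eq_abs, abs_mul, abs_of_pos (Real.exp_pos _), ← mul_assoc]
    refine mul_le_mul_of_nonneg_right ?_ (Real.exp_pos _).le
    have t1 := abs_sub (Real.log Z + U x + Real.log a) (a * x)
    have t2 := abs_add_le (Real.log Z + U x) (Real.log a)
    have t3 := abs_add_le (Real.log Z) (U x)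
    have t4 : |a * x| = a * x := abs_of_pos (by positivity)
    have t5 := hA x
    have t6 : x ≤ 1 + x ^ 2 := by nlinarith [sq_nonneg (x - 1)]
    have t7 : a * x ≤ a * (1 + x ^ 2) := mul_le_mul_of_nonneg_left t6 ha.le
    have t8 : |Real.log Z| ≤ |Real.log Z| * (1 + x ^ 2) := by nlinarith [abs_nonneg (Real.log Z), mul_nonneg (abs_nonneg (Real.log Z)) (sq_nonneg x)]
    have t9 : |Real.log a| ≤ |Real.log a| * (1 + x ^ 2) := by nlinarith [abs_nonneg (Real.log a), mul_nonneg (abs_nonneg (Real.log a)) (sq_nonneg x)]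
    rw [hD]
    nlinarith
  refine hint.congr ?_
  have h1 : (expMeasure a).rnDeriv (target U) =ᵐ[target U] G := by
    conv_lhs => rw [hrep]
    exact Measure.rnDeriv_withDensity _ hGm
  have h2 := hac.ae_le h1
  have h3 : ∀ᵐ x ∂(expMeasure a), x ∈ Ioi (0 : ℝ) := by
    have := tail_exp ha le_rfl (a := a)
    rw [mul_zero, Real.exp_zero, ENNReal.ofReal_one] at this
    exact (prob_compl_eq_zero_iff measurableSet_Ioi).2 this
  filter_upwards [h2, h3] with x hx hx0
  have hx0' : (0 : ℝ) < x := hx0
  rw [llr, hx, hG]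
  simp only
  rw [ENNReal.toReal_mul, ENNReal.toReal_ofReal (by positivity), gammaPDF, gammaPDFReal,
    if_pos hx0'.le, ENNReal.toReal_ofReal (by positivity)]
  simp only [Real.rpow_one, Real.Gamma_one, div_one, sub_self, Real.rpow_zero, mul_one]
  rw [Real.log_mul (by positivity) (by positivity), Real.log_mul (by positivity) (by positivity),
    Real.log_mul (by positivity) (by positivity), Real.log_exp, Real.log_exp]
  ring

end

end Pool.Agent.X92.PD
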