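import Pool.Agent.X92.PD3

set_option autoImplicit false

/-!
# Finite speed for the Zig-Zag process; a linear integral equation
-/

namespace Pool.Agent.X92.PD

open MeasureTheory ProbabilityTheory InformationTheory Set Filter Topology

theorem isProb_coin : IsProbabilityMeasure coin := by
  constructor
  rw [coin]
  simp [ENNReal.inv_two_add_inv_two]

section

variable {Ω : Type} [MeasurableSpace Ω] {P : Measure Ω} {S : Set ℝ}
  {L : (ℝ → ℝ → ℝ) → ℝ → ℝ → ℝ} {X V : ℝ → Ω → ℝ}

theorem IsProc.measPair (h : IsProc P S L X V) (t : ℝ) :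
    Measurable (fun ω => (X t ω, V t ω)) :=
  (h.measX t).prodMk (h.measV.comp measurable_prodMk_left)

theorem law_start (h : IsProc P S L X V) {p₀ : Measure (ℝ × ℝ)}
    (h0 : P.map (fun ω => (X 0 ω, V 0 ω)) = p₀) (R : ℝ) :
    P {ω | R < X 0 ω} = p₀ {z | R < z.1} := by
  rw [← h0, Measure.map_apply (h.measPair 0) (measurableSet_lt measurable_const measurable_fst)]
  rfl

theorem zz_tail {U : ℝ → ℝ} {γ a : ℝ} (ha : 0 < a)
    (h : IsProc P {-1, 1} (zzGen U γ) X V)
    (h0 : P.map (fun ω => (X 0 ω, V 0 ω)) = start a coin) (t R : ℝ) (ht : 0 ≤ t) (hR : 0 ≤ R) :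
    ENNReal.ofReal (1 * Real.exp (-a * R)) ≤
      P.map (fun ω => (X t ω, V t ω)) {z | R - 1 * t < z.1} := by
  haveI := isProb_coin
  rw [Measure.map_apply (h.measPair t) (measurableSet_lt measurable_const measurable_fst), one_mul,
    ← tail_start ha coin hR, ← law_start h h0]
  refine measure_mono ?_
  intro ω hω
  have hω' : R < X 0 ω := hω
  show R - 1 * t < X t ω
  obtain ⟨hi, he⟩ := h.path ω t ht
  have h1 : ∫ s in (0 : ℝ)..t, (-1 : ℝ) ≤ ∫ s in (0 : ℝ)..t, V s ω := by
    refine intervalIntegral.integral_mono_on ht intervalIntegrable_const hi ?_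
    intro s hs
    rcases h.vel ω s hs.1 with h2 | h2
    · rw [h2]
    · rw [h2]; norm_num
  rw [intervalIntegral.integral_const, smul_eq_mul] at h1
  rw [he]
  linarith

end

/-- a bounded solution of a homogeneous linear integral equation vanishes -/
theorem ode (w : ℝ → ℝ) (γ C : ℝ) (hm : Measurable w) (hb : ∀ t, |w t| ≤ C)
    (h : ∀ t, 0 ≤ t → w t = -γ * ∫ r in (0 : ℝ)..t, w r) (t : ℝ) (ht : 0 ≤ t) : w t = 0 := by
  have hii : ∀ x y : ℝ, IntervalIntegrable w volume x y := by
    intro x y
    refine (intervalIntegrable_const (c := C)).mono_fun' hm.aestronglyMeasurable ?_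
    exact Eventually.of_forall fun s => hb s
  have hWc : Continuous (fun x => ∫ r in (0 : ℝ)..x, w r) :=
    intervalIntegral.continuous_primitive hii 0
  have hwc : ContinuousOn w (Ici 0) := by
    refine (hWc.const_smul (-γ)).continuousOn.congr ?_
    intro x hx
    exact h x hx
  have hd : ∀ x ∈ Ico (0 : ℝ) t, HasDerivWithinAt
      (fun y => Real.exp (γ * y) * ∫ r in (0 : ℝ)..y, w r) 0 (Ici x) x := by
    intro x hx
    have e1 : HasDerivWithinAt (fun y => ∫ r in (0 : ℝ)..y, w r) (w x) (Ici x) x := by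
      refine intervalIntegral.integral_hasDerivWithinAt_right (hii 0 x) (t := Ioi x)
        hm.stronglyMeasurable.stronglyMeasurableAtFilter ?_
      exact ((hwc x hx.1).mono (fun y hy => hx.1.trans (le_of_lt hy)))
    have e2 : HasDerivWithinAt (fun y => Real.exp (γ * y)) (Real.exp (γ * x) * γ) (Ici x) x := by
      have := ((hasDerivAt_id x).const_mul γ).exp
      simpa using this.hasDerivWithinAt
    have e3 := e2.mul e1
    refine e3.congr_deriv ?_
    have := h x hx.1
    rw [this]
    ring
  have hc : ContinuousOn (fun y => Real.exp (γ * y) * ∫ r in (0 : ℝ)..y, w r) (Icc 0 t) :=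
    ((by fun_prop : Continuous fun y => Real.exp (γ * y)).mul hWc).continuousOn
  have := constant_of_has_deriv_right_zero hc hd t ⟨ht, le_rfl⟩
  simp only [intervalIntegral.integral_same, mul_zero] at this
  have h2 : ∫ r in (0 : ℝ)..t, w r = 0 := by
    rcases mul_eq_zero.1 this with h3 | h3
    · exact absurd h3 (Real.exp_ne_zero _)
    · exact h3
  rw [h t ht, h2, mul_zero]

end Pool.Agent.X92.PD
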