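import Pool.Agent.X92.PD4

set_option autoImplicit false

/-!
# The Bouncy Particle Sampler has finite mean speed from every set of starting positions
-/

namespace Pool.Agent.X92.PD

open MeasureTheory ProbabilityTheory InformationTheory Set Filter Topology

/-- truncated speed -/
noncomputable def tr (n : ℕ) (v : ℝ) : ℝ := min |v| (n : ℝ)

theorem tr_nonneg (n : ℕ) (v : ℝ) : 0 ≤ tr n v := le_min (abs_nonneg _) (Nat.cast_nonneg _)

theorem tr_le (n : ℕ) (v : ℝ) : tr n v ≤ n := min_le_right _ _

theorem tr_abs (n : ℕ) (v : ℝ) : |tr n v| ≤ n := by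
  rw [abs_of_nonneg (tr_nonneg n v)]; exact tr_le n v

theorem tr_cont (n : ℕ) : Continuous (tr n) := by unfold tr; fun_prop

/-- mean truncated speed -/
noncomputable def cn (n : ℕ) : ℝ := ∫ w, tr n w ∂(gaussianReal 0 1)

theorem cn_le (n : ℕ) : cn n ≤ 1 := by
  have h2 : ∫ w, w ^ 2 ∂(gaussianReal 0 1) = 1 := by
    have h := variance_of_integral_eq_zero (μ := gaussianReal 0 1) (X := fun x : ℝ => x)
      (by fun_prop) (by simpa using integral_id_gaussianReal (μ := 0) (v := 1))
    have h3 : Var[fun x : ℝ => x; gaussianReal 0 1] = 1 := by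
      simpa using variance_id_gaussianReal (μ := 0) (v := 1)
    rw [h3] at h
    simpa using h.symm
  have hi : Integrable (fun w : ℝ => w ^ 2) (gaussianReal 0 1) := by
    have := (memLp_id_gaussianReal (μ := 0) (v := 1) 2).integrable_sq
    simpa using this
  have : cn n ≤ ∫ w, (1 + w ^ 2) / 2 ∂(gaussianReal 0 1) := by
    refine integral_mono_of_nonneg (Eventually.of_forall fun w => tr_nonneg n w)
      (((integrable_const 1).add hi).div_const 2) (Eventually.of_forall fun w => ?_)
    show tr n w ≤ (1 + w ^ 2) / 2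
    have h4 : tr n w ≤ |w| := min_le_left _ _
    nlinarith [sq_nonneg (|w| - 1), sq_abs w]
  refine this.trans ?_
  rw [integral_div, integral_add (integrable_const 1) hi, h2]
  simp

theorem gen_tr (U : ℝ → ℝ) (γ : ℝ) (n : ℕ) (x v : ℝ) :
    bpsGen U γ (fun _ v => tr n v) x v = γ * (cn n - tr n v) := by
  unfold bpsGen
  have : tr n (-v) = tr n v := by simp [tr]
  dsimp only
  rw [this]
  simp [cn]

theorem test_tr (U : ℝ → ℝ) (γ : ℝ) (n : ℕ) : Test (bpsGen U γ) (fun _ v => tr n v) := by
  refine ⟨?_, fun v => contDiff_const, ⟨n, fun x v => tr_abs n v⟩,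
    ⟨|γ| * (|cn n| + n), fun x v => ?_⟩, ?_⟩
  · exact (tr_cont n).comp continuous_snd
  · rw [gen_tr, abs_mul]
    refine mul_le_mul_of_nonneg_left ?_ (abs_nonneg _)
    exact (abs_sub _ _).trans (add_le_add le_rfl (tr_abs n v))
  · have : Function.uncurry (bpsGen U γ (fun _ v => tr n v)) =
        fun p : ℝ × ℝ => γ * (cn n - tr n p.2) := by
      funext p
      exact gen_tr U γ n p.1 p.2
    rw [this]
    have := (tr_cont n).measurable
    fun_prop

section

variable {Ω : Type} [MeasurableSpace Ω] {P : Measure Ω} [IsProbabilityMeasure P]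
  {X V : ℝ → Ω → ℝ} {U : ℝ → ℝ} {γ a : ℝ}

theorem meas_A (R : ℝ) : MeasurableSet[past X V 0] {ω | R < X 0 ω} := by
  have h : MeasurableSpace.comap (fun ω => (X 0 ω, V 0 ω)) inferInstance ≤ past X V 0 :=
    le_iSup₂ (f := fun (r : ℝ) (_ : r ∈ Icc (0 : ℝ) 0) =>
      MeasurableSpace.comap (fun ω => (X r ω, V r ω)) inferInstance) 0 ⟨le_rfl, le_rfl⟩
  refine h _ ⟨{z | R < z.1}, measurableSet_lt measurable_const measurable_fst, rfl⟩

theorem mean_tr (h : IsProc P univ (bpsGen U γ) X V)
    (h0 : P.map (fun ω => (X 0 ω, V 0 ω)) = start a (gaussianReal 0 1)) (ha : 0 < a)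
    (R : ℝ) (n : ℕ) (t : ℝ) (ht : 0 ≤ t) :
    ∫ ω in {ω | R < X 0 ω}, tr n (V t ω) ∂P = cn n * P.real {ω | R < X 0 ω} := by
  haveI : IsProbabilityMeasure (expMeasure a) := isProbabilityMeasure_expMeasure ha
  set A := {ω | R < X 0 ω} with hA
  have hAm : MeasurableSet A := measurableSet_lt measurable_const (h.measX 0)
  have hVm : ∀ s, Measurable (V s) := fun s => h.measV.comp measurable_prodMk_left
  have hfm : Measurable (fun p : ℝ × Ω => tr n (V p.1 p.2)) := (tr_cont n).measurable.comp h.measV
  set u : ℝ → ℝ := fun t => ∫ ω in A, tr n (V t ω) ∂P with hu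
  have hum : Measurable u := (hfm.stronglyMeasurable.integral_prod_right' (ν := P.restrict A)).measurable
  have hint : ∀ s, Integrable (fun ω => tr n (V s ω)) (P.restrict A) := fun s =>
    Integrable.of_bound ((tr_cont n).measurable.comp (hVm s)).aestronglyMeasurable n
      (Eventually.of_forall fun ω => tr_abs n _)
  have hub : ∀ s, |u s| ≤ n := by
    intro s
    have h1 := norm_integral_le_of_norm_le_const (μ := P.restrict A) (C := n)
      (f := fun ω => tr n (V s ω)) (Eventually.of_forall fun ω => tr_abs n _)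
    rw [Real.norm_eq_abs] at h1
    refine h1.trans ?_
    have h2 : (P.restrict A).real univ ≤ 1 := by
      rw [measureReal_restrict_apply MeasurableSet.univ]
      exact measureReal_le_one
    nlinarith [Nat.cast_nonneg (α := ℝ) n]
  -- initial value
  have hu0 : u 0 = cn n * P.real A := by
    have e1 : u 0 = ∫ z in {z : ℝ × ℝ | R < z.1}, tr n z.2
        ∂(P.map (fun ω => (X 0 ω, V 0 ω))) := by
      have hmap := setIntegral_map (μ := P) (g := fun ω => (X 0 ω, V 0 ω))
        (f := fun z : ℝ × ℝ => tr n z.2) (s := {z : ℝ × ℝ | R < z.1})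
        (measurableSet_lt measurable_const measurable_fst)
        ((tr_cont n).comp continuous_snd).aestronglyMeasurable (h.measPair 0).aemeasurable
      exact hmap.symm
    have e2 : {z : ℝ × ℝ | R < z.1} = Ioi R ×ˢ univ := by ext z; simp
    have e3 : P.real A = (start a (gaussianReal 0 1)).real {z | R < z.1} := by
      rw [measureReal_def, measureReal_def, law_start h h0]
    rw [e1, h0, e3, e2, start]
    have e4 := setIntegral_prod_mul (μ := expMeasure a) (ν := gaussianReal 0 1)
      (fun _ => (1 : ℝ)) (fun v => tr n v) (Ioi R) univ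
    simp only [one_mul] at e4
    rw [e4, measureReal_prod_prod]
    simp [cn]
    ring
  set w : ℝ → ℝ := fun s => u s - cn n * P.real A with hw
  have hwm : Measurable w := hum.sub_const _
  have hwb : ∀ s, |w s| ≤ n + |cn n * P.real A| := by
    intro s
    exact (abs_sub _ _).trans (add_le_add (hub s) le_rfl)
  have heq : ∀ s, 0 ≤ s → w s = -γ * ∫ r in (0 : ℝ)..s, w r := by
    intro s hs
    have m := h.mart _ (test_tr U γ n) 0 s le_rfl hs A (meas_A R)
    simp only [gen_tr] at m
    have hg : Measurable (fun p : ℝ × Ω => γ * (cn n - tr n (V p.1 p.2))) := by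
      exact (measurable_const.sub hfm).const_mul γ
    have hgb : ∀ p : ℝ × Ω, ‖γ * (cn n - tr n (V p.1 p.2))‖ ≤ |γ| * (|cn n| + n) := by
      intro p
      rw [Real.norm_eq_abs, abs_mul]
      exact mul_le_mul_of_nonneg_left ((abs_sub _ _).trans (add_le_add le_rfl (tr_abs n _)))
        (abs_nonneg _)
    have hprod : Integrable (Function.uncurry fun (ω : Ω) (r : ℝ) =>
        γ * (cn n - tr n (V r ω))) ((P.restrict A).prod (volume.restrict (Ioc 0 s))) := by
      refine Integrable.of_bound (hg.comp measurable_swap).aestronglyMeasurable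
        (|γ| * (|cn n| + n)) (Eventually.of_forall fun p => ?_)
      exact hgb (p.2, p.1)
    have swap : ∫ ω in A, (∫ r in (0 : ℝ)..s, γ * (cn n - tr n (V r ω))) ∂P =
        ∫ r in (0 : ℝ)..s, (-γ * w r) := by
      simp only [intervalIntegral.integral_of_le hs]
      rw [integral_integral_swap hprod]
      refine integral_congr_ae (Eventually.of_forall fun r => ?_)
      show ∫ ω in A, γ * (cn n - tr n (V r ω)) ∂P = -γ * w r
      rw [integral_const_mul, integral_sub (integrable_const _) (hint r)]
      simp only [integral_const, smul_eq_mul, measureReal_restrict_apply MeasurableSet.univ,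
        univ_inter, hw, hu]
      ring
    have i3 : Integrable (fun ω => ∫ r in (0 : ℝ)..s, γ * (cn n - tr n (V r ω)))
        (P.restrict A) := by
      simp only [intervalIntegral.integral_of_le hs]
      exact hprod.integral_prod_left
    rw [integral_sub (f := fun ω => tr n (V s ω) - tr n (V 0 ω)) ((hint s).sub (hint 0)) i3,
      integral_sub (hint s) (hint 0), swap] at m
    have m2 : u s - u 0 - ∫ r in (0 : ℝ)..s, (-γ * w r) = 0 := m
    rw [intervalIntegral.integral_const_mul, hu0] at m2
    show u s - cn n * P.real A = _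
    linarith
  have := ode w γ _ hwm hwb heq t ht
  have h5 : u t - cn n * P.real A = 0 := this
  show u t = _
  linarith

theorem mean_speed (h : IsProc P univ (bpsGen U γ) X V)
    (h0 : P.map (fun ω => (X 0 ω, V 0 ω)) = start a (gaussianReal 0 1)) (ha : 0 < a)
    (R : ℝ) (t : ℝ) (ht : 0 ≤ t) :
    ∫⁻ ω in {ω | R < X 0 ω}, ENNReal.ofReal |V t ω| ∂P ≤ P {ω | R < X 0 ω} := by
  have hVm : ∀ s, Measurable (V s) := fun s => h.measV.comp measurable_prodMk_left
  have e1 : ∀ ω, ENNReal.ofReal |V t ω| ≤ ⨆ n : ℕ, ENNReal.ofReal (tr n (V t ω)) := by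
    intro ω
    obtain ⟨n, hn⟩ := exists_nat_ge |V t ω|
    refine le_trans (le_of_eq ?_) (le_iSup _ n)
    rw [tr, min_eq_left hn]
  refine (lintegral_mono e1).trans ?_
  rw [lintegral_iSup]
  · refine iSup_le fun n => ?_
    have h1 := mean_tr h h0 ha R n t ht
    rw [← ofReal_integral_eq_lintegral_ofReal, h1]
    · rw [← ofReal_measureReal (μ := P) (s := {ω | R < X 0 ω})]
      refine ENNReal.ofReal_le_ofReal ?_
      nlinarith [cn_le n, measureReal_nonneg (μ := P) (s := {ω | R < X 0 ω})]
    · exact Integrable.of_bound ((tr_cont n).measurable.comp (hVm t)).aestronglyMeasurable n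
        (Eventually.of_forall fun ω => tr_abs n _)
    · exact Eventually.of_forall fun ω => tr_nonneg n _
  · intro n
    exact ((tr_cont n).measurable.comp (hVm t)).ennreal_ofReal
  · intro i j hij ω
    refine ENNReal.ofReal_le_ofReal ?_
    exact min_le_min le_rfl (by exact_mod_cast hij)

theorem bps_tail (h : IsProc P univ (bpsGen U γ) X V)
    (h0 : P.map (fun ω => (X 0 ω, V 0 ω)) = start a (gaussianReal 0 1)) (ha : 0 < a)
    (t R : ℝ) (ht : 0 ≤ t) (hR : 0 ≤ R) :
    ENNReal.ofReal (1 / 2 * Real.exp (-a * R)) ≤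
      P.map (fun ω => (X t ω, V t ω)) {z | R - 2 * t < z.1} := by
  rw [Measure.map_apply (h.measPair t) (measurableSet_lt measurable_const measurable_fst)]
  set A := {ω | R < X 0 ω} with hA
  have hAm : MeasurableSet A := measurableSet_lt measurable_const (h.measX 0)
  have hPA : P A = ENNReal.ofReal (Real.exp (-a * R)) := by
    rw [hA, law_start h h0, tail_start ha _ hR]
  have hhalf : ENNReal.ofReal (1 / 2 * Real.exp (-a * R)) = P A / 2 := by
    rw [hPA, show 1 / 2 * Real.exp (-a * R) = Real.exp (-a * R) / 2 by ring,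
      ENNReal.ofReal_div_of_pos (by norm_num)]
    norm_num
  rw [hhalf]
  rcases ht.eq_or_lt with h00 | htpos
  · subst h00
    refine (ENNReal.half_le_self).trans (measure_mono ?_)
    intro ω hω
    show R - 2 * 0 < X 0 ω
    have : R < X 0 ω := hω
    linarith
  set g : Ω → ENNReal := fun ω => ∫⁻ s in Ioc (0 : ℝ) t, ENNReal.ofReal |V s ω| with hg
  have hVabs : Measurable (fun p : Ω × ℝ => ENNReal.ofReal |V p.2 p.1|) :=
    ((continuous_abs.measurable.comp h.measV).comp measurable_swap).ennreal_ofReal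
  have hgm : Measurable g := hVabs.lintegral_prod_right'
  have hG : ∫⁻ ω in A, g ω ∂P ≤ ENNReal.ofReal t * P A := by
    rw [hg, lintegral_lintegral_swap hVabs.aemeasurable]
    calc ∫⁻ s in Ioc (0 : ℝ) t, ∫⁻ ω in A, ENNReal.ofReal |V s ω| ∂P
        ≤ ∫⁻ _ in Ioc (0 : ℝ) t, P A := by
          refine setLIntegral_mono' measurableSet_Ioc ?_
          intro s hs
          exact mean_speed h h0 ha R s hs.1.le
      _ = _ := by
          rw [setLIntegral_const, Real.volume_Ioc, sub_zero, mul_comm]
  have hmk := mul_meas_ge_le_lintegral (μ := P.restrict A) hgm (ENNReal.ofReal (2 * t))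
  rw [Measure.restrict_apply (measurableSet_le measurable_const hgm)] at hmk
  have hbad : P ({ω | ENNReal.ofReal (2 * t) ≤ g ω} ∩ A) ≤ P A / 2 := by
    have h3 := hmk.trans hG
    have h4 : ENNReal.ofReal (2 * t) = ENNReal.ofReal t * 2 := by
      rw [mul_comm, ENNReal.ofReal_mul htpos.le]
      norm_num
    have h3' : ENNReal.ofReal t * (2 * P ({ω | ENNReal.ofReal (2 * t) ≤ g ω} ∩ A)) ≤
        ENNReal.ofReal t * P A := by
      rw [← mul_assoc, ← h4]
      exact h3
    have h5 := (ENNReal.mul_le_mul_iff_right (by simpa using htpos) ENNReal.ofReal_ne_top).1 h3'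
    rw [ENNReal.le_div_iff_mul_le (Or.inl (by norm_num)) (Or.inl (by norm_num)), mul_comm]
    exact h5
  have hsub : A \ {ω | ENNReal.ofReal (2 * t) ≤ g ω} ⊆
      (fun ω => (X t ω, V t ω)) ⁻¹' {z | R - 2 * t < z.1} := by
    rintro ω ⟨hω1, hω2⟩
    have hω1' : R < X 0 ω := hω1
    have hω2' : g ω < ENNReal.ofReal (2 * t) := by
      rw [mem_ofPred_eq, not_le] at hω2
      exact hω2
    show R - 2 * t < X t ω
    obtain ⟨hi, he⟩ := h.path ω t ht
    have hi2 : IntegrableOn (fun s => V s ω) (Ioc 0 t) := hi.1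
    have e1 : ENNReal.ofReal (∫ s in (0 : ℝ)..t, |V s ω|) = g ω := by
      rw [intervalIntegral.integral_of_le ht, hg]
      simp only
      rw [← ofReal_integral_eq_lintegral_ofReal hi2.abs
        (Eventually.of_forall fun s => abs_nonneg _)]
    rw [← e1] at hω2'
    have e2 := (ENNReal.ofReal_lt_ofReal_iff (by positivity)).1 hω2'
    have e3 : |∫ s in (0 : ℝ)..t, V s ω| ≤ ∫ s in (0 : ℝ)..t, |V s ω| :=
      intervalIntegral.abs_integral_le_integral_abs ht
    have e4 := neg_abs_le (∫ s in (0 : ℝ)..t, V s ω)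
    rw [he]
    linarith
  calc P A / 2 = P A - P A / 2 := (ENNReal.sub_half (measure_ne_top P A)).symm
    _ ≤ P A - P ({ω | ENNReal.ofReal (2 * t) ≤ g ω} ∩ A) := tsub_le_tsub_left hbad _
    _ = P (A \ {ω | ENNReal.ofReal (2 * t) ≤ g ω}) := by
        rw [← measure_diff (inter_subset_right)
          ((measurableSet_le measurable_const hgm).inter hAm).nullMeasurableSet
          (measure_ne_top _ _)]
        congr 1
        ext ω
        simp only [Set.mem_sdiff, mem_inter_iff]
        tauto
    _ ≤ _ := measure_mono hsub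

end

end Pool.Agent.X92.PD
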