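import Mathlib

/-! Lacunary power series of order `ρ` and lower order `0` -/

set_option autoImplicit false

namespace Pool.Agent.X92.Pf

open Filter Topology Real

/-- the radii `4, e^4, e^(e^4), ...` -/
noncomputable def R : ℕ → ℝ
  | 0 => 4
  | n + 1 => Real.exp (R n)

/-- the exponents -/
noncomputable def d (ρ : ℝ) (n : ℕ) : ℕ := ⌈(R n) ^ ρ⌉₊

lemma exp_ge {x : ℝ} (hx : 4 ≤ x) : 2 * x + 1 ≤ Real.exp x := by
  have h1 : 1 + x / 2 ≤ Real.exp (x / 2) := by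
    have := Real.add_one_le_exp (x / 2); linarith
  have h2 : Real.exp x = Real.exp (x / 2) * Real.exp (x / 2) := by
    rw [← Real.exp_add]; congr 1; ring
  rw [h2]
  nlinarith

lemma R_ge (n : ℕ) : 4 ≤ R n := by
  induction n with
  | zero => simp [R]
  | succ n ih =>
    show 4 ≤ Real.exp (R n)
    have := exp_ge ih
    linarith

lemma R_pos (n : ℕ) : 0 < R n := by linarith [R_ge n]

lemma R_succ (n : ℕ) : R (n + 1) = Real.exp (R n) := rfl

lemma R_two (n : ℕ) : 2 * R n + 1 ≤ R (n + 1) := exp_ge (R_ge n)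

lemma R_pow (n k : ℕ) : 2 ^ k * R n ≤ R (n + k) := by
  induction k with
  | zero => simp
  | succ k ih =>
    have h := R_two (n + k)
    have e : n + (k + 1) = (n + k) + 1 := by ring
    rw [e, pow_succ]
    nlinarith [R_pos (n + k)]

lemma R_mono : StrictMono R := by
  apply strictMono_nat_of_lt_succ
  intro n
  have := R_two n
  linarith [R_pos n]

lemma R_lin (n : ℕ) : (n : ℝ) + 1 ≤ R n := by
  induction n with
  | zero => simp [R]
  | succ n ih =>
    have := R_two n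
    push_cast
    linarith [R_ge n]

lemma R_tendsto : Tendsto R atTop atTop := by
  apply tendsto_atTop_mono (fun n => ?_) (tendsto_natCast_atTop_atTop (R := ℝ))
  linarith [R_lin n]

variable {ρ : ℝ}

lemma d_ge (n : ℕ) : (R n) ^ ρ ≤ d ρ n := Nat.le_ceil _

lemma d_lt (n : ℕ) : (d ρ n : ℝ) < (R n) ^ ρ + 1 :=
  Nat.ceil_lt_add_one (Real.rpow_nonneg (R_pos n).le _)

lemma d_one (n : ℕ) : 1 ≤ d ρ n := by
  have h : 0 < (R n) ^ ρ := Real.rpow_pos_of_pos (R_pos n) _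
  exact Nat.ceil_pos.2 h

lemma d_mono (hρ : 0 < ρ) : Monotone (d ρ) := by
  intro a b h
  apply Nat.ceil_mono
  exact Real.rpow_le_rpow (R_pos a).le (R_mono.monotone h) hρ.le

/-- the terms -/
noncomputable def tm (ρ : ℝ) (n : ℕ) (z : ℂ) : ℂ := (z / (R n : ℂ)) ^ d ρ n

lemma norm_tm (n : ℕ) (z : ℂ) : ‖tm ρ n z‖ = (‖z‖ / R n) ^ d ρ n := by
  unfold tm
  rw [norm_pow, norm_div, Complex.norm_real, Real.norm_eq_abs, abs_of_pos (R_pos n)]

/-- a bound for the terms of index `≥ N` when `r < R N` -/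
lemma tm_tail {r : ℝ} (hr : 0 ≤ r) {N : ℕ} (hN : r ≤ R N) (k : ℕ) :
    (r / R (N + k)) ^ d ρ (N + k) ≤ (1 / 2) ^ k := by
  have h1 : r / R (N + k) ≤ (1 / 2) ^ k := by
    rw [div_le_iff₀ (R_pos _)]
    have h2 := R_pow N k
    have h3 : (1 / 2 : ℝ) ^ k * (2 ^ k * R N) = R N := by
      rw [← mul_assoc, ← mul_pow]; norm_num
    calc r ≤ R N := hN
      _ = (1 / 2 : ℝ) ^ k * (2 ^ k * R N) := h3.symm
      _ ≤ (1 / 2) ^ k * R (N + k) := mul_le_mul_of_nonneg_left h2 (by positivity)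
  have h0 : 0 ≤ r / R (N + k) := div_nonneg hr (R_pos _).le
  have h4 : r / R (N + k) ≤ 1 := h1.trans (pow_le_one₀ (by norm_num) (by norm_num))
  calc (r / R (N + k)) ^ d ρ (N + k) ≤ (r / R (N + k)) ^ 1 :=
        pow_le_pow_of_le_one h0 h4 (d_one _)
    _ = r / R (N + k) := pow_one _
    _ ≤ _ := h1

/-- the majorant -/
noncomputable def Phi (ρ : ℝ) (r : ℝ) : ℝ := ∑' n, (r / R n) ^ d ρ n

lemma exists_N (r : ℝ) : ∃ N, r ≤ R N := by
  obtain ⟨N, hN⟩ := (R_tendsto.eventually_ge_atTop r).exists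
  exact ⟨N, hN⟩

lemma summ_tail {r : ℝ} (hr : 0 ≤ r) {N : ℕ} (hN : r ≤ R N) :
    Summable (fun k => (r / R (N + k)) ^ d ρ (N + k)) := by
  refine Summable.of_nonneg_of_le (fun k => ?_) (fun k => tm_tail hr hN k)
    (summable_geometric_of_lt_one (by norm_num) (by norm_num : (1 / 2 : ℝ) < 1))
  exact pow_nonneg (div_nonneg hr (R_pos _).le) _

lemma summ {r : ℝ} (hr : 0 ≤ r) : Summable (fun n => (r / R n) ^ d ρ n) := by
  obtain ⟨N, hN⟩ := exists_N r
  have h := summ_tail (ρ := ρ) hr hN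
  rw [← summable_nat_add_iff N]
  simpa only [add_comm] using h

lemma tail_le {r : ℝ} (hr : 0 ≤ r) {N : ℕ} (hN : r ≤ R N) :
    ∑' k, (r / R (N + k)) ^ d ρ (N + k) ≤ 2 := by
  have h := (summ_tail (ρ := ρ) hr hN).tsum_le_tsum (fun k => tm_tail hr hN k)
    (summable_geometric_of_lt_one (by norm_num) (by norm_num : (1 / 2 : ℝ) < 1))
  rwa [tsum_geometric_two] at h

/-- head and tail -/
lemma Phi_le (hρ : 0 < ρ) {r : ℝ} (hr : 1 ≤ r) {N : ℕ} (hN : r ≤ R (N + 1)) :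
    Phi ρ r ≤ (N + 1) * r ^ d ρ N + 2 := by
  have hr0 : 0 ≤ r := by linarith
  unfold Phi
  rw [← (summ (ρ := ρ) hr0).sum_add_tsum_nat_add (N + 1)]
  have h1 : ∑' k, (r / R (k + (N + 1))) ^ d ρ (k + (N + 1)) ≤ 2 := by
    have := tail_le (ρ := ρ) hr0 hN
    simpa only [add_comm] using this
  have h2 : ∑ k ∈ Finset.range (N + 1), (r / R k) ^ d ρ k ≤
      ∑ k ∈ Finset.range (N + 1), r ^ d ρ N := by
    apply Finset.sum_le_sum
    intro k hk
    have hk' : k ≤ N := by simpa [Nat.lt_succ_iff] using hk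
    have h3 : r / R k ≤ r := div_le_self hr0 (by linarith [R_ge k])
    calc (r / R k) ^ d ρ k ≤ r ^ d ρ k := pow_le_pow_left₀ (div_nonneg hr0 (R_pos k).le) h3 _
      _ ≤ r ^ d ρ N := pow_le_pow_right₀ hr (d_mono hρ hk')
  rw [Finset.sum_const, Finset.card_range, nsmul_eq_mul] at h2
  push_cast at h2
  linarith

/-- **the function** -/
noncomputable def F (ρ : ℝ) (z : ℂ) : ℂ := 1 + ∑' n, tm ρ n z

lemma summ_tm (z : ℂ) : Summable (fun n => tm ρ n z) := by
  apply Summable.of_norm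
  simp_rw [norm_tm]
  exact summ (norm_nonneg z)

lemma F_zero : F ρ 0 = 1 := by
  unfold F tm
  have : ∀ n, ((0 : ℂ) / (R n : ℂ)) ^ d ρ n = 0 := by
    intro n
    rw [zero_div, zero_pow (by have := d_one (ρ := ρ) n; omega)]
  simp_rw [this]
  rw [tsum_zero, add_zero]

lemma F_le (z : ℂ) : ‖F ρ z‖ ≤ 1 + Phi ρ ‖z‖ := by
  unfold F Phi
  refine (norm_add_le _ _).trans ?_
  rw [norm_one]
  have h : ‖∑' n, tm ρ n z‖ ≤ ∑' n, ‖tm ρ n z‖ := norm_tsum_le_tsum_norm (by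
    simp_rw [norm_tm]; exact summ (norm_nonneg z))
  simp_rw [norm_tm] at h
  linarith

lemma F_diff : Differentiable ℂ (F ρ) := by
  intro z
  obtain ⟨N, hN⟩ := exists_N (‖z‖ + 1)
  have hu : Summable (fun n => ((‖z‖ + 1) / R n) ^ d ρ n) := summ (by positivity)
  have h := Complex.differentiableOn_tsum_of_summable_norm (F := fun n z => tm ρ n z) hu
    (U := Metric.ball (0 : ℂ) (‖z‖ + 1)) (fun n => by
      unfold tm
      exact (((differentiable_id.div_const _).pow _)).differentiableOn)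
    Metric.isOpen_ball (fun n w hw => by
      rw [norm_tm]
      have hw' : ‖w‖ < ‖z‖ + 1 := by simpa using hw
      exact pow_le_pow_left₀ (div_nonneg (norm_nonneg _) (R_pos n).le)
        (div_le_div_of_nonneg_right hw'.le (R_pos n).le) _)
  have h2 := h.differentiableAt (x := z) (Metric.isOpen_ball.mem_nhds (by simp))
  exact h2.const_add 1

/-- lower bound where one term dominates -/
lemma F_ge (hρ : 0 < ρ) (n : ℕ) (hn : 1 ≤ n)
    (h : 3 + (n : ℝ) * (4 * R n) ^ d ρ (n - 1) ≤ 4 ^ d ρ n / 2) (z : ℂ) (hz : ‖z‖ = 4 * R n) :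
    4 ^ d ρ n / 2 ≤ ‖F ρ z‖ := by
  obtain ⟨m, rfl⟩ : ∃ m, n = m + 1 := ⟨n - 1, by omega⟩
  simp only [Nat.add_sub_cancel] at h
  set r : ℝ := 4 * R (m + 1) with hr
  have hR := R_ge (m + 1)
  have hr1 : 1 ≤ r := by rw [hr]; linarith
  have hr0 : 0 ≤ r := by linarith
  have hrN : r ≤ R (m + 1 + 1) := by
    rw [hr, R_succ (m + 1)]
    have h1 : 1 + R (m + 1) / 2 ≤ Real.exp (R (m + 1) / 2) := by
      have := Real.add_one_le_exp (R (m + 1) / 2); linarith
    have h2 : Real.exp (R (m + 1)) = Real.exp (R (m + 1) / 2) * Real.exp (R (m + 1) / 2) := by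
      rw [← Real.exp_add]; congr 1; ring
    have h3 : 16 ≤ R (m + 1) := by
      rw [R_succ]
      have h4 : Real.exp 4 ≤ Real.exp (R m) := Real.exp_le_exp.2 (R_ge m)
      have h5 : (2.7 : ℝ) ^ 4 ≤ Real.exp 4 := by
        have : Real.exp 4 = Real.exp 1 ^ 4 := by rw [← Real.exp_nat_mul]; norm_num
        rw [this]
        exact pow_le_pow_left₀ (by norm_num) (by linarith [Real.exp_one_gt_d9]) 4
      have h6 : (16 : ℝ) ≤ 2.7 ^ 4 := by norm_num
      linarith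
    rw [h2]
    nlinarith
  -- the rest
  have hsum := (summ_tm (ρ := ρ) z).sum_add_tsum_nat_add (m + 2)
  have htail : ‖∑' k, tm ρ (k + (m + 2)) z‖ ≤ 2 := by
    have h1 : ∀ k, ‖tm ρ (k + (m + 2)) z‖ = (r / R ((m + 2) + k)) ^ d ρ ((m + 2) + k) := by
      intro k
      rw [norm_tm, hz, add_comm]
    refine (norm_tsum_le_tsum_norm ?_).trans ?_
    · simp_rw [h1]; exact summ_tail hr0 hrN
    · simp_rw [h1]; exact tail_le hr0 hrN
  have hhead : ‖∑ k ∈ Finset.range (m + 1), tm ρ k z‖ ≤ ((m + 1 : ℕ) : ℝ) * r ^ d ρ m := by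
    refine (norm_sum_le _ _).trans ?_
    have : ∑ k ∈ Finset.range (m + 1), ‖tm ρ k z‖ ≤ ∑ k ∈ Finset.range (m + 1), r ^ d ρ m := by
      apply Finset.sum_le_sum
      intro k hk
      have hk' : k ≤ m := by simpa [Nat.lt_succ_iff] using hk
      rw [norm_tm, hz]
      have h3 : r / R k ≤ r := div_le_self hr0 (by linarith [R_ge k])
      calc (r / R k) ^ d ρ k ≤ r ^ d ρ k := pow_le_pow_left₀ (div_nonneg hr0 (R_pos k).le) h3 _
        _ ≤ r ^ d ρ m := pow_le_pow_right₀ hr1 (d_mono hρ hk')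
    rwa [Finset.sum_const, Finset.card_range, nsmul_eq_mul] at this
  have hmain : ‖tm ρ (m + 1) z‖ = 4 ^ d ρ (m + 1) := by
    rw [norm_tm, hz]
    congr 1
    rw [hr]
    field_simp
  have hF : F ρ z = tm ρ (m + 1) z + (1 + ∑ k ∈ Finset.range (m + 1), tm ρ k z +
      ∑' k, tm ρ (k + (m + 2)) z) := by
    unfold F
    rw [← hsum, Finset.sum_range_succ]
    ring
  have h7 : ‖1 + ∑ k ∈ Finset.range (m + 1), tm ρ k z + ∑' k, tm ρ (k + (m + 2)) z‖ ≤
      1 + ((m + 1 : ℕ) : ℝ) * r ^ d ρ m + 2 := by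
    refine (norm_add_le _ _).trans (add_le_add ((norm_add_le _ _).trans ?_) htail)
    rw [norm_one]
    linarith
  have h8 : ‖tm ρ (m + 1) z‖ - ‖1 + ∑ k ∈ Finset.range (m + 1), tm ρ k z +
      ∑' k, tm ρ (k + (m + 2)) z‖ ≤ ‖F ρ z‖ := by
    rw [hF]
    have := norm_sub_le (tm ρ (m + 1) z + (1 + ∑ k ∈ Finset.range (m + 1), tm ρ k z +
      ∑' k, tm ρ (k + (m + 2)) z)) (1 + ∑ k ∈ Finset.range (m + 1), tm ρ k z +
      ∑' k, tm ρ (k + (m + 2)) z)
    rw [add_sub_cancel_right] at this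
    linarith
  rw [hmain] at h8
  push_cast at h h7 h8
  linarith

end Pool.Agent.X92.Pf
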