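import Pool.Agent.X92.Pf1

/-! Nevanlinna functions of entire functions -/

set_option autoImplicit false

namespace Pool.Agent.X92.Pf

open Filter Topology Real ValueDistribution MeromorphicOn

lemma mero {f : ℂ → ℂ} (hf : Differentiable ℂ f) : Meromorphic f := by
  intro z
  exact (hf.analyticAt z).meromorphicAt

/-- no poles -/
lemma log_top {f : ℂ → ℂ} (hf : Differentiable ℂ f) : logCounting f ⊤ = 0 := by
  rw [logCounting_top]
  have h : 0 ≤ divisor f Set.univ := AnalyticOnNhd.divisor_nonneg (fun z _ => hf.analyticAt z)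
  have h2 : (divisor f Set.univ)⁻ = 0 := negPart_eq_zero.2 h
  rw [h2, map_zero]

/-- Jensen -/
lemma log_zero {f : ℂ → ℂ} (hf : Differentiable ℂ f) (h0 : f 0 = 1) {r : ℝ} (hr : r ≠ 0) :
    logCounting f 0 r = circleAverage (Real.log ‖f ·‖) 0 r := by
  have h := logCounting_zero_sub_logCounting_top_eq_circleAverage_sub_const (mero hf) hr
  rw [log_top hf, sub_zero, AnalyticAt.meromorphicTrailingCoeffAt_of_ne_zero (hf.analyticAt 0)
    (by rw [h0]; exact one_ne_zero), h0, norm_one, Real.log_one, sub_zero] at h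
  exact h

lemma char_eq {f : ℂ → ℂ} (hf : Differentiable ℂ f) (r : ℝ) :
    characteristic f ⊤ r = circleAverage (log⁺ ‖f ·‖) 0 r := by
  unfold characteristic
  rw [Pi.add_apply, log_top hf, proximity_top]
  simp

lemma ci_log {f : ℂ → ℂ} (hf : Differentiable ℂ f) (r : ℝ) :
    CircleIntegrable (Real.log ‖f ·‖) 0 r :=
  MeromorphicOn.circleIntegrable_log_norm (fun z _ => mero hf z)

lemma ci_plog {f : ℂ → ℂ} (hf : Differentiable ℂ f) (r : ℝ) :
    CircleIntegrable (log⁺ ‖f ·‖) 0 r :=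
  MeromorphicOn.circleIntegrable_posLog_norm (fun z _ => mero hf z)

lemma log_le_char {f : ℂ → ℂ} (hf : Differentiable ℂ f) (h0 : f 0 = 1) {r : ℝ} (hr : r ≠ 0) :
    logCounting f 0 r ≤ characteristic f ⊤ r := by
  rw [log_zero hf h0 hr, char_eq hf]
  exact circleAverage_mono (ci_log hf r) (ci_plog hf r) (fun z _ => by
    show Real.log ‖f z‖ ≤ log⁺ ‖f z‖
    rw [posLog_def]; exact le_max_right _ _)

lemma log_eq_char {f : ℂ → ℂ} (hf : Differentiable ℂ f) (h0 : f 0 = 1) {r : ℝ} (hr : 0 < r)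
    (h1 : ∀ z : ℂ, ‖z‖ = r → 1 ≤ ‖f z‖) :
    logCounting f 0 r = characteristic f ⊤ r := by
  rw [log_zero hf h0 hr.ne', char_eq hf]
  apply circleAverage_congr_sphere
  intro z hz
  have hz' : ‖z‖ = r := by simpa [abs_of_pos hr] using hz
  show Real.log ‖f z‖ = max 0 (Real.log ‖f z‖)
  rw [max_eq_right]
  exact Real.log_nonneg (by rw [← hz'] at h1; exact h1 z rfl)

lemma char_nonneg {f : ℂ → ℂ} (hf : Differentiable ℂ f) (r : ℝ) : 0 ≤ characteristic f ⊤ r := by
  rw [char_eq hf]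
  apply circleAverage_nonneg_of_nonneg
  intro z _
  exact posLog_nonneg

lemma char_ge {f : ℂ → ℂ} (hf : Differentiable ℂ f) {r A : ℝ} (hr : 0 < r) (hA : 0 < A)
    (h1 : ∀ z : ℂ, ‖z‖ = r → A ≤ ‖f z‖) : Real.log A ≤ characteristic f ⊤ r := by
  rw [char_eq hf, ← circleAverage_const (Real.log A) 0 r]
  apply circleAverage_mono (circleIntegrable_const _ _ _) (ci_plog hf r)
  intro z hz
  have hz' : ‖z‖ = r := by simpa [abs_of_pos hr] using hz
  show Real.log A ≤ log⁺ ‖f z‖
  rw [posLog_def]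
  exact (Real.log_le_log hA (h1 z hz')).trans (le_max_right _ _)

lemma char_le {f : ℂ → ℂ} (hf : Differentiable ℂ f) {r A : ℝ} (hr : 0 < r) (hA : 1 ≤ A)
    (h1 : ∀ z : ℂ, ‖z‖ = r → ‖f z‖ ≤ A) : characteristic f ⊤ r ≤ Real.log A := by
  rw [char_eq hf, ← circleAverage_const (Real.log A) 0 r]
  apply circleAverage_mono (ci_plog hf r) (circleIntegrable_const _ _ _)
  intro z hz
  have hz' : ‖z‖ = r := by simpa [abs_of_pos hr] using hz
  show log⁺ ‖f z‖ ≤ Real.log A
  rw [posLog_def]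
  apply max_le (Real.log_nonneg hA)
  rcases eq_or_lt_of_le (norm_nonneg (f z)) with h | h
  · rw [← h]
    show Real.log 0 ≤ Real.log A
    rw [Real.log_zero]; exact Real.log_nonneg hA
  · exact Real.log_le_log h (h1 z hz')

end Pool.Agent.X92.Pf
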