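import Pool.Agent.X92.Pf2

/-! Bounds for the characteristic of the lacunary series -/

set_option autoImplicit false

namespace Pool.Agent.X92.Pf

open Filter Topology Real ValueDistribution

variable {ρ : ℝ}

/-- the characteristic -/
noncomputable def T (ρ : ℝ) (r : ℝ) : ℝ := characteristic (F ρ) ⊤ r

lemma exists_idx {r : ℝ} (hr : 4 ≤ r) : ∃ N, R N ≤ r ∧ r < R (N + 1) := by
  have hex : ∃ n, r < R n := (R_tendsto.eventually_gt_atTop r).exists
  classical
  let n := Nat.find hex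
  have hn : r < R n := Nat.find_spec hex
  have hn0 : n ≠ 0 := by
    intro h
    rw [h] at hn
    have : R 0 = 4 := rfl
    linarith
  obtain ⟨m, hm⟩ := Nat.exists_eq_succ_of_ne_zero hn0
  refine ⟨m, ?_, by rw [← Nat.succ_eq_add_one, ← hm]; exact hn⟩
  have := Nat.find_min hex (m := m) (by show m < n; omega)
  exact not_lt.1 this

/-- upper bound for all radii -/
lemma T_upper (hρ : 0 < ρ) {r : ℝ} (hr : 4 ≤ r) : T ρ r ≤ 5 * r ^ ρ * Real.log r := by
  obtain ⟨N, h1, h2⟩ := exists_idx hr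
  have hr0 : 0 < r := by linarith
  have hr1 : 1 ≤ r := by linarith
  have hrp : 1 ≤ r ^ ρ := Real.one_le_rpow hr1 hρ.le
  have hlog : 1 ≤ Real.log r := by
    rw [Real.le_log_iff_exp_le hr0]
    linarith [Real.exp_one_lt_d9]
  have hd : (d ρ N : ℝ) ≤ r ^ ρ + 1 :=
    (d_lt N).le.trans (by
      have := Real.rpow_le_rpow (R_pos N).le h1 hρ.le
      linarith)
  have hpw : r ^ d ρ N ≤ r ^ (r ^ ρ + 1) := by
    rw [← Real.rpow_natCast]
    exact Real.rpow_le_rpow_of_exponent_le hr1 hd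
  have hN : (N : ℝ) + 1 ≤ r := (R_lin N).trans h1
  have hPhi := Phi_le hρ hr1 h2.le
  have hB : 1 ≤ r ^ (r ^ ρ + 2) := Real.one_le_rpow hr1 (by linarith)
  have hA : 1 + Phi ρ r ≤ 4 * r ^ (r ^ ρ + 2) := by
    have e : r ^ (r ^ ρ + 2) = r * r ^ (r ^ ρ + 1) := by
      rw [show r ^ ρ + 2 = 1 + (r ^ ρ + 1) by ring, Real.rpow_add hr0, Real.rpow_one]
    have h3 : ((N : ℝ) + 1) * r ^ d ρ N ≤ r * r ^ (r ^ ρ + 1) :=
      mul_le_mul hN hpw (by positivity) hr0.le
    rw [← e] at h3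
    linarith
  have hT : T ρ r ≤ Real.log (4 * r ^ (r ^ ρ + 2)) := by
    apply char_le F_diff hr0 (by linarith)
    intro z hz
    have := F_le (ρ := ρ) z
    rw [hz] at this
    linarith
  have hlog4 : Real.log 4 ≤ Real.log r := Real.log_le_log (by norm_num) hr
  rw [Real.log_mul (by norm_num) (by positivity), Real.log_rpow hr0] at hT
  have h5 : (r ^ ρ + 2) * Real.log r + Real.log r ≤ 5 * r ^ ρ * Real.log r := by
    have : (r ^ ρ + 3) ≤ 5 * r ^ ρ := by linarith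
    nlinarith
  linarith

/-- upper bound just before a new term becomes dominant -/
lemma T_low_upper (hρ : 0 < ρ) (hρ1 : ρ ≤ 1) (n : ℕ) :
    T ρ (R (n + 1)) ≤ (R n + 2) ^ 2 := by
  set y := R n with hy
  have hy4 : 4 ≤ y := R_ge n
  have hr1 : 1 ≤ R (n + 1) := by linarith [R_ge (n + 1)]
  have hPhi := Phi_le hρ hr1 (le_refl (R (n + 1)))
  have hd : (d ρ n : ℝ) ≤ y + 1 := (d_lt n).le.trans (by
    have : (R n) ^ ρ ≤ (R n) ^ (1 : ℝ) := Real.rpow_le_rpow_of_exponent_le (by linarith) hρ1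
    rw [Real.rpow_one] at this
    linarith)
  have hpw : R (n + 1) ^ d ρ n ≤ Real.exp (y * (y + 1)) := by
    rw [R_succ, ← Real.exp_nat_mul]
    apply Real.exp_le_exp.2
    rw [mul_comm]
    exact mul_le_mul_of_nonneg_left hd (by linarith)
  have hn : (n : ℝ) + 1 ≤ y := R_lin n
  have hA : 1 + Phi ρ (R (n + 1)) ≤ Real.exp ((y + 2) ^ 2) := by
    have h1 : ((n : ℝ) + 1) * R (n + 1) ^ d ρ n ≤ y * Real.exp (y * (y + 1)) :=
      mul_le_mul hn hpw (by positivity) (by linarith)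
    have h2 : 1 ≤ Real.exp (y * (y + 1)) := Real.one_le_exp (by positivity)
    have h3 : y + 3 ≤ Real.exp (y + 2) := by
      have := Real.add_one_le_exp (y + 2); linarith
    calc 1 + Phi ρ (R (n + 1)) ≤ 3 + y * Real.exp (y * (y + 1)) := by linarith
      _ ≤ (y + 3) * Real.exp (y * (y + 1)) := by nlinarith
      _ ≤ Real.exp (y + 2) * Real.exp (y * (y + 1)) :=
          mul_le_mul_of_nonneg_right h3 (by positivity)
      _ = Real.exp (y + 2 + y * (y + 1)) := by rw [← Real.exp_add]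
      _ ≤ Real.exp ((y + 2) ^ 2) := by
          apply Real.exp_le_exp.2; nlinarith
  have hT : T ρ (R (n + 1)) ≤ Real.log (Real.exp ((y + 2) ^ 2)) := by
    apply char_le F_diff (R_pos _) (Real.one_le_exp (by positivity))
    intro z hz
    have := F_le (ρ := ρ) z
    rw [hz] at this
    linarith
  rwa [Real.log_exp] at hT

/-- the condition for dominance -/
lemma dom (hρ : 0 < ρ) (hρ1 : ρ ≤ 1) (n : ℕ)
    (h : (R n + 2) ^ 2 + 1 ≤ Real.exp (ρ * R n)) (z : ℂ) (hz : ‖z‖ = 4 * R (n + 1)) :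
    4 ^ d ρ (n + 1) / 2 ≤ ‖F ρ z‖ := by
  set y := R n with hy
  have hy4 : 4 ≤ y := R_ge n
  apply F_ge hρ (n + 1) (by omega) _ z hz
  simp only [Nat.add_sub_cancel]
  have hd : (d ρ n : ℝ) ≤ y + 1 := (d_lt n).le.trans (by
    have : (R n) ^ ρ ≤ (R n) ^ (1 : ℝ) := Real.rpow_le_rpow_of_exponent_le (by linarith) hρ1
    rw [Real.rpow_one] at this
    linarith)
  have h4 : (4 : ℝ) ≤ Real.exp 2 := by
    have e : Real.exp 2 = Real.exp 1 * Real.exp 1 := by rw [← Real.exp_add]; norm_num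
    rw [e]
    nlinarith [Real.exp_one_gt_d9]
  have h41 : Real.exp 1 ≤ 4 := by linarith [Real.exp_one_lt_d9]
  have hb : 4 * R (n + 1) ≤ Real.exp (y + 2) := by
    rw [R_succ, Real.exp_add, mul_comm]
    exact mul_le_mul_of_nonneg_left h4 (Real.exp_pos _).le
  have hpw : (4 * R (n + 1)) ^ d ρ n ≤ Real.exp ((y + 2) * (y + 1)) := by
    calc (4 * R (n + 1)) ^ d ρ n ≤ Real.exp (y + 2) ^ d ρ n :=
          pow_le_pow_left₀ (by linarith [R_pos (n + 1)]) hb _
      _ = Real.exp ((d ρ n : ℝ) * (y + 2)) := by rw [← Real.exp_nat_mul]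
      _ ≤ Real.exp ((y + 2) * (y + 1)) := by
          apply Real.exp_le_exp.2
          rw [mul_comm]
          exact mul_le_mul_of_nonneg_left hd (by linarith)
  have hn : ((n + 1 : ℕ) : ℝ) ≤ y := by push_cast; exact R_lin n
  have hL : 3 + ((n + 1 : ℕ) : ℝ) * (4 * R (n + 1)) ^ d ρ n ≤ Real.exp ((y + 2) ^ 2) := by
    have h1 : ((n + 1 : ℕ) : ℝ) * (4 * R (n + 1)) ^ d ρ n ≤ y * Real.exp ((y + 2) * (y + 1)) :=
      mul_le_mul hn hpw (pow_nonneg (by linarith [R_pos (n + 1)]) _) (by linarith)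
    have h2 : 1 ≤ Real.exp ((y + 2) * (y + 1)) := Real.one_le_exp (by positivity)
    have h3 : y + 3 ≤ Real.exp (y + 2) := by
      have := Real.add_one_le_exp (y + 2); linarith
    calc 3 + ((n + 1 : ℕ) : ℝ) * (4 * R (n + 1)) ^ d ρ n
        ≤ 3 + y * Real.exp ((y + 2) * (y + 1)) := by linarith
      _ ≤ (y + 3) * Real.exp ((y + 2) * (y + 1)) := by nlinarith
      _ ≤ Real.exp (y + 2) * Real.exp ((y + 2) * (y + 1)) :=
          mul_le_mul_of_nonneg_right h3 (by positivity)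
      _ = Real.exp ((y + 2) ^ 2) := by rw [← Real.exp_add]; congr 1; ring
  have hd2 : Real.exp (ρ * y) ≤ d ρ (n + 1) := by
    have := d_ge (ρ := ρ) (n + 1)
    rw [R_succ, ← Real.exp_mul, mul_comm] at this
    exact this
  have hRr : Real.exp ((y + 2) ^ 2) ≤ 4 ^ d ρ (n + 1) / 2 := by
    have h1 : Real.exp (d ρ (n + 1) : ℝ) ≤ 4 ^ d ρ (n + 1) := by
      have : Real.exp (d ρ (n + 1) : ℝ) = Real.exp 1 ^ d ρ (n + 1) := by
        rw [← Real.exp_nat_mul]; ring_nf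
      rw [this]
      exact pow_le_pow_left₀ (Real.exp_pos _).le h41 _
    have h2 : Real.exp ((y + 2) ^ 2 + 1) ≤ Real.exp (d ρ (n + 1) : ℝ) :=
      Real.exp_le_exp.2 (h.trans hd2)
    rw [Real.exp_add] at h2
    have h3 : (2 : ℝ) ≤ Real.exp 1 := by linarith [Real.exp_one_gt_d9]
    have h5 : Real.exp ((y + 2) ^ 2) * 2 ≤ Real.exp ((y + 2) ^ 2) * Real.exp 1 :=
      mul_le_mul_of_nonneg_left h3 (Real.exp_pos _).le
    linarith
  exact hL.trans hRr

lemma dom_ev (hρ : 0 < ρ) : ∀ᶠ n : ℕ in atTop, (R n + 2) ^ 2 + 1 ≤ Real.exp (ρ * R n) := by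
  have h1 : ∀ᶠ y : ℝ in atTop, (y + 2) ^ 2 + 1 ≤ Real.exp (ρ * y) := by
    have ha : Tendsto (fun y : ℝ => y ^ 2 / Real.exp (ρ * y)) atTop (𝓝 0) := by
      have := isLittleO_pow_exp_pos_mul_atTop 2 hρ
      exact this.tendsto_div_nhds_zero
    have hb : ∀ᶠ y : ℝ in atTop, y ^ 2 / Real.exp (ρ * y) < 1 / 4 :=
      ha.eventually (gt_mem_nhds (by norm_num))
    filter_upwards [hb, eventually_ge_atTop (4 : ℝ)] with y h2 h3
    rw [div_lt_iff₀ (Real.exp_pos _)] at h2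
    nlinarith
  exact R_tendsto.eventually h1

/-- lower bound -/
lemma T_lower (hρ : 0 < ρ) (hρ1 : ρ ≤ 1) (n : ℕ)
    (h : (R n + 2) ^ 2 + 1 ≤ Real.exp (ρ * R n)) :
    Real.exp (ρ * R n) / 2 ≤ T ρ (4 * R (n + 1)) := by
  have h1 := char_ge (F_diff (ρ := ρ)) (r := 4 * R (n + 1)) (A := 4 ^ d ρ (n + 1) / 2)
    (by linarith [R_pos (n + 1)]) (by positivity) (fun z hz => dom hρ hρ1 n h z hz)
  rw [Real.log_div (by positivity) (by norm_num), Real.log_pow] at h1
  have h2 : Real.exp (ρ * R n) ≤ d ρ (n + 1) := by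
    have := d_ge (ρ := ρ) (n + 1)
    rw [R_succ, ← Real.exp_mul, mul_comm] at this
    exact this
  have h3 : (1 : ℝ) ≤ d ρ (n + 1) := by exact_mod_cast d_one (n + 1)
  have h4 : Real.log 4 = 2 * Real.log 2 := by
    rw [show (4 : ℝ) = 2 ^ 2 by norm_num, Real.log_pow]; norm_num
  have h5 : 1 / 2 < Real.log 2 := by linarith [Real.log_two_gt_d9]
  have h6 : (d ρ (n + 1) : ℝ) * Real.log 2 ≤ T ρ (4 * R (n + 1)) := by
    unfold T
    refine le_trans ?_ h1
    rw [h4]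
    nlinarith
  nlinarith

lemma ratio_one (hρ : 0 < ρ) (hρ1 : ρ ≤ 1) (n : ℕ)
    (h : (R n + 2) ^ 2 + 1 ≤ Real.exp (ρ * R n)) :
    (logCounting (F ρ) 0 (4 * R (n + 1)) + logCounting (F ρ) ⊤ (4 * R (n + 1))) /
      characteristic (F ρ) ⊤ (4 * R (n + 1)) = 1 := by
  have hT : 0 < characteristic (F ρ) ⊤ (4 * R (n + 1)) :=
    lt_of_lt_of_le (by positivity) (T_lower hρ hρ1 n h)
  have h1 : logCounting (F ρ) 0 (4 * R (n + 1)) = characteristic (F ρ) ⊤ (4 * R (n + 1)) := by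
    apply log_eq_char F_diff F_zero (by linarith [R_pos (n + 1)])
    intro z hz
    refine le_trans ?_ (dom hρ hρ1 n h z hz)
    have : (4 : ℝ) ^ 1 ≤ 4 ^ d ρ (n + 1) := pow_le_pow_right₀ (by norm_num) (d_one _)
    linarith
  rw [log_top F_diff, h1, Pi.zero_apply, add_zero, div_self hT.ne']

lemma ratio_le (r : ℝ) (hr : r ≠ 0) :
    (logCounting (F ρ) 0 r + logCounting (F ρ) ⊤ r) / characteristic (F ρ) ⊤ r ≤ 1 := by
  rw [log_top F_diff, Pi.zero_apply, add_zero]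
  exact div_le_one_of_le₀ (log_le_char F_diff F_zero hr) (char_nonneg F_diff r)

end Pool.Agent.X92.Pf
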