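import Pool.Agent.X92.Pf3

/-! Orders -/

set_option autoImplicit false

namespace Pool.Agent.X92.Pf

open Filter Topology Real ValueDistribution

variable {ρ : ℝ}

lemma log_ratio_tendsto : Tendsto (fun r : ℝ => Real.log (Real.log r) / Real.log r) atTop (𝓝 0) := by
  have h1 : Tendsto (fun x : ℝ => Real.log x / x) atTop (𝓝 0) := by
    have := Real.isLittleO_log_id_atTop.tendsto_div_nhds_zero
    exact this
  exact h1.comp Real.tendsto_log_atTop

/-- upper bound for the order -/
lemma order_le (hρ : 0 < ρ) :
    limsup (fun r : ℝ => ((Real.log (T ρ r) / Real.log r : ℝ) : EReal)) atTop ≤ (ρ : EReal) := by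
  have hlim : Tendsto (fun r : ℝ => (Real.log 5 / Real.log r + ρ) +
      Real.log (Real.log r) / Real.log r) atTop (𝓝 ρ) := by
    have h1 : Tendsto (fun r : ℝ => Real.log 5 / Real.log r) atTop (𝓝 0) :=
      tendsto_const_nhds.div_atTop Real.tendsto_log_atTop
    have := (h1.add_const ρ).add log_ratio_tendsto
    simpa using this
  have hlim' : Tendsto (fun r : ℝ => (((Real.log 5 / Real.log r + ρ) +
      Real.log (Real.log r) / Real.log r : ℝ) : EReal)) atTop (𝓝 (ρ : EReal)) :=
    (continuous_coe_real_ereal.tendsto ρ).comp hlim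
  rw [← hlim'.limsup_eq]
  refine limsup_le_limsup ?_
  · filter_upwards [eventually_ge_atTop (4 : ℝ)] with r hr
    apply EReal.coe_le_coe_iff.2
    have hr0 : 0 < r := by linarith
    have hlog : 1 ≤ Real.log r := by
      rw [Real.le_log_iff_exp_le hr0]
      linarith [Real.exp_one_lt_d9]
    have hrp : 1 ≤ r ^ ρ := Real.one_le_rpow (by linarith) hρ.le
    have h := T_upper hρ hr
    have h2 : Real.log (T ρ r) ≤ Real.log (5 * r ^ ρ * Real.log r) := by
      rcases le_or_gt (T ρ r) 1 with h3 | h3
      · have h4 : Real.log (T ρ r) ≤ 0 := by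
          rcases eq_or_lt_of_le (char_nonneg (F_diff (ρ := ρ)) r) with h5 | h5
          · unfold T; rw [← h5, Real.log_zero]
          · exact Real.log_nonpos (char_nonneg (F_diff (ρ := ρ)) r) h3
        refine h4.trans (Real.log_nonneg ?_)
        nlinarith
      · exact Real.log_le_log (by linarith) h
    have e : Real.log (5 * r ^ ρ * Real.log r) =
        Real.log 5 + ρ * Real.log r + Real.log (Real.log r) := by
      rw [Real.log_mul (by positivity) (by linarith), Real.log_mul (by norm_num) (by positivity),
        Real.log_rpow hr0]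
    rw [e] at h2
    have h3 : (Real.log 5 / Real.log r + ρ) + Real.log (Real.log r) / Real.log r =
        (Real.log 5 + ρ * Real.log r + Real.log (Real.log r)) / Real.log r := by
      field_simp
    rw [h3]
    exact div_le_div_of_nonneg_right h2 (by linarith)

lemma seq_tendsto : Tendsto (fun n => 4 * R (n + 1)) atTop atTop := by
  apply Tendsto.const_mul_atTop (by norm_num)
  exact (tendsto_add_atTop_iff_nat 1).2 R_tendsto

/-- lower bound for the order -/
lemma order_ge (hρ : 0 < ρ) (hρ1 : ρ ≤ 1) :
    (ρ : EReal) ≤ limsup (fun r : ℝ => ((Real.log (T ρ r) / Real.log r : ℝ) : EReal)) atTop := by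
  have hlim : Tendsto (fun y : ℝ => (ρ * y - Real.log 2) / (Real.log 4 + y)) atTop (𝓝 ρ) := by
    have h1 : Tendsto (fun y : ℝ => Real.log 4 + y) atTop atTop :=
      tendsto_atTop_add_const_left _ _ tendsto_id
    have h2 : Tendsto (fun y : ℝ => ρ - (ρ * Real.log 4 + Real.log 2) / (Real.log 4 + y))
        atTop (𝓝 (ρ - 0)) := tendsto_const_nhds.sub (tendsto_const_nhds.div_atTop h1)
    rw [sub_zero] at h2
    refine h2.congr' ?_
    filter_upwards [eventually_ge_atTop (1 : ℝ)] with y hy
    have : 0 < Real.log 4 := Real.log_pos (by norm_num)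
    have h3 : Real.log 4 + y ≠ 0 := by linarith
    field_simp
    ring
  have hlim' : Tendsto (fun n : ℕ => (((ρ * R n - Real.log 2) / (Real.log 4 + R n) : ℝ) : EReal))
      atTop (𝓝 (ρ : EReal)) :=
    (continuous_coe_real_ereal.tendsto ρ).comp (hlim.comp R_tendsto)
  rw [← hlim'.limsup_eq]
  calc limsup (fun n : ℕ => (((ρ * R n - Real.log 2) / (Real.log 4 + R n) : ℝ) : EReal)) atTop
      ≤ limsup ((fun r : ℝ => ((Real.log (T ρ r) / Real.log r : ℝ) : EReal)) ∘
          fun n => 4 * R (n + 1)) atTop := by
        refine limsup_le_limsup ?_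
        · filter_upwards [dom_ev hρ] with n hn
          apply EReal.coe_le_coe_iff.2
          have h1 := T_lower hρ hρ1 n hn
          have h2 : Real.log (4 * R (n + 1)) = Real.log 4 + R n := by
            rw [Real.log_mul (by norm_num) (R_pos _).ne', R_succ, Real.log_exp]
          have h3 : ρ * R n - Real.log 2 ≤ Real.log (T ρ (4 * R (n + 1))) := by
            have := Real.log_le_log (by positivity) h1
            rwa [Real.log_div (by positivity) (by norm_num), Real.log_exp] at this
          rw [h2]
          apply div_le_div_of_nonneg_right h3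
          have : 0 < Real.log 4 := Real.log_pos (by norm_num)
          linarith [R_pos n]
    _ = limsup (fun r : ℝ => ((Real.log (T ρ r) / Real.log r : ℝ) : EReal))
          (map (fun n => 4 * R (n + 1)) atTop) := by
        rw [limsup, limsup, map_map]
    _ ≤ _ := limsup_le_limsup_of_le seq_tendsto

/-- the characteristic tends to infinity -/
lemma T_large (hρ : 0 < ρ) (hρ1 : ρ ≤ 1) : ∀ᶠ r : ℝ in atTop, 1 ≤ T ρ r := by
  obtain ⟨n, hn⟩ := (dom_ev hρ).exists
  filter_upwards [eventually_ge_atTop (4 * R (n + 1))] with r hr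
  have h1 := T_lower hρ hρ1 n hn
  have h2 : (2 : ℝ) ≤ Real.exp (ρ * R n) := by nlinarith [R_ge n]
  have h3 := characteristic_monotoneOn (mero (F_diff (ρ := ρ)))
    (show 4 * R (n + 1) ∈ Set.Ioi (0 : ℝ) by
      show 0 < 4 * R (n + 1)
      linarith [R_pos (n + 1)])
    (show r ∈ Set.Ioi (0 : ℝ) by
      show 0 < r
      linarith [R_pos (n + 1)]) hr
  have h4 : T ρ (4 * R (n + 1)) ≤ T ρ r := h3
  linarith

/-- the lower order is zero -/
lemma lower_eq (hρ : 0 < ρ) (hρ1 : ρ ≤ 1) :
    liminf (fun r : ℝ => ((Real.log (T ρ r) / Real.log r : ℝ) : EReal)) atTop = 0 := by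
  apply le_antisymm
  · have hlim : Tendsto (fun y : ℝ => 2 * (Real.log (y + 2) / y)) atTop (𝓝 0) := by
      have h1 : Tendsto (fun y : ℝ => Real.log y / y) atTop (𝓝 0) :=
        Real.isLittleO_log_id_atTop.tendsto_div_nhds_zero
      have h2 : Tendsto (fun y : ℝ => y + 2) atTop atTop :=
        tendsto_atTop_add_const_right _ _ tendsto_id
      have h3 := h1.comp h2
      have h4 : Tendsto (fun y : ℝ => 1 + 2 / y) atTop (𝓝 (1 + 0)) :=
        tendsto_const_nhds.add (tendsto_const_nhds.div_atTop tendsto_id)
      have h5 := (h3.mul h4).const_mul 2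
      simp only [zero_mul, mul_zero] at h5
      refine h5.congr' ?_
      filter_upwards [eventually_ge_atTop (1 : ℝ)] with y hy
      have h6 : y ≠ 0 := by linarith
      have h7 : y + 2 ≠ 0 := by linarith
      simp only [Function.comp_apply]
      field_simp
    have hlim' : Tendsto (fun n : ℕ => ((2 * (Real.log (R n + 2) / R n) : ℝ) : EReal))
        atTop (𝓝 ((0 : ℝ) : EReal)) :=
      (continuous_coe_real_ereal.tendsto 0).comp (hlim.comp R_tendsto)
    have hR1 : Tendsto (fun n => R (n + 1)) atTop atTop := (tendsto_add_atTop_iff_nat 1).2 R_tendsto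
    calc liminf (fun r : ℝ => ((Real.log (T ρ r) / Real.log r : ℝ) : EReal)) atTop
        ≤ liminf (fun r : ℝ => ((Real.log (T ρ r) / Real.log r : ℝ) : EReal))
            (map (fun n => R (n + 1)) atTop) := liminf_le_liminf_of_le hR1
      _ = liminf ((fun r : ℝ => ((Real.log (T ρ r) / Real.log r : ℝ) : EReal)) ∘
            fun n => R (n + 1)) atTop := by
          rw [liminf, liminf, map_map]
      _ ≤ liminf (fun n : ℕ => ((2 * (Real.log (R n + 2) / R n) : ℝ) : EReal)) atTop := by
          refine liminf_le_liminf ?_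
          · have hR2 := hR1.eventually (T_large hρ hρ1)
            filter_upwards [hR2] with n hn
            apply EReal.coe_le_coe_iff.2
            have h1 := T_low_upper hρ hρ1 n
            have h2 := Real.log_le_log (by linarith) h1
            rw [Real.log_pow] at h2
            show Real.log (T ρ (R (n + 1))) / Real.log (R (n + 1)) ≤ _
            rw [R_succ n, Real.log_exp, ← R_succ n]
            have h3 : 2 * (Real.log (R n + 2) / R n) = (2 * Real.log (R n + 2)) / R n := by ring
            rw [h3]
            apply div_le_div_of_nonneg_right _ (R_pos n).le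
            exact_mod_cast h2
      _ = 0 := by rw [hlim'.liminf_eq]; rfl
  · apply le_liminf_of_le
    · isBoundedDefault
    · filter_upwards [T_large hρ hρ1, eventually_ge_atTop (1 : ℝ)] with r h1 h2
      have : (0 : ℝ) ≤ Real.log (T ρ r) / Real.log r :=
        div_nonneg (Real.log_nonneg h1) (Real.log_nonneg h2)
      exact_mod_cast this

/-- the limit superior of the question -/
lemma ratio_eq (hρ : 0 < ρ) (hρ1 : ρ ≤ 1) :
    limsup (fun r : ℝ => (((logCounting (F ρ) 0 r + logCounting (F ρ) ⊤ r) /
      characteristic (F ρ) ⊤ r : ℝ) : EReal)) atTop = 1 := by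
  apply le_antisymm
  · apply limsup_le_of_le
    · isBoundedDefault
    · filter_upwards [eventually_gt_atTop (0 : ℝ)] with r hr
      have := ratio_le (ρ := ρ) r hr.ne'
      exact_mod_cast this
  · apply le_limsup_of_frequently_le
    · have h1 : ∃ᶠ r in map (fun n => 4 * R (n + 1)) atTop, (1 : EReal) ≤
          (((logCounting (F ρ) 0 r + logCounting (F ρ) ⊤ r) /
            characteristic (F ρ) ⊤ r : ℝ) : EReal) := by
        rw [frequently_map]
        apply Eventually.frequently
        filter_upwards [dom_ev hρ] with n hn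
        rw [ratio_one hρ hρ1 n hn]
        simp
      exact h1.filter_mono seq_tendsto
    · isBoundedDefault

end Pool.Agent.X92.Pf
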