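import Mathlib
set_option autoImplicit false
open MeasureTheory Set Complex
open scoped ENNReal ComplexConjugate

namespace X92.Sec

/-- the two-dimensional Gaussian with a complex quadratic form -/
noncomputable def gq (α β γ : ℂ) (p : ℝ × ℝ) : ℂ :=
  cexp (-(α * (p.1 : ℂ) ^ 2 + 2 * β * p.1 * p.2 + γ * (p.2 : ℂ) ^ 2))

theorem schur_re (α β γ : ℂ) (hα : 0 < α.re) (hd : β.re ^ 2 < α.re * γ.re) :
    0 < (γ - β ^ 2 / α).re := by
  have hn : 0 < Complex.normSq α := Complex.normSq_pos.2 (fun h => by rw [h] at hα; simp at hα)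
  have h1 : (γ - β ^ 2 / α).re = (γ.re * Complex.normSq α -
      ((β.re ^ 2 - β.im ^ 2) * α.re + 2 * β.re * β.im * α.im)) / Complex.normSq α := by
    rw [Complex.sub_re, Complex.div_re, eq_div_iff hn.ne', sub_mul, add_mul, div_mul_cancel₀ _ hn.ne',
      div_mul_cancel₀ _ hn.ne', sq β, Complex.mul_re, Complex.mul_im]
    ring
  rw [h1]
  refine div_pos ?_ hn
  rw [Complex.normSq_apply]
  have h2 : 0 ≤ (β.re * α.im - β.im * α.re) ^ 2 := sq_nonneg _
  have h3 : 0 < (α.re * γ.re - β.re ^ 2) * (α.re ^ 2 + α.im ^ 2) := by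
    refine mul_pos (by linarith) (by positivity)
  have h4 : 0 < α.re * (γ.re * (α.re * α.re + α.im * α.im) -
      ((β.re ^ 2 - β.im ^ 2) * α.re + 2 * β.re * β.im * α.im)) := by
    nlinarith
  exact (mul_pos_iff_of_pos_left hα).1 h4

theorem gq_norm (α β γ : ℂ) (p : ℝ × ℝ) :
    ‖gq α β γ p‖ = Real.exp (-(α.re * p.1 ^ 2 + 2 * β.re * p.1 * p.2 + γ.re * p.2 ^ 2)) := by
  unfold gq
  rw [Complex.norm_exp]
  congr 1
  have e : -(α * (p.1 : ℂ) ^ 2 + 2 * β * p.1 * p.2 + γ * (p.2 : ℂ) ^ 2) =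
      -(α * ((p.1 ^ 2 : ℝ) : ℂ) + β * ((2 * p.1 * p.2 : ℝ) : ℂ) + γ * ((p.2 ^ 2 : ℝ) : ℂ)) := by
    push_cast; ring
  rw [e, Complex.neg_re, Complex.add_re, Complex.add_re, Complex.re_mul_ofReal, Complex.re_mul_ofReal,
    Complex.re_mul_ofReal]
  ring

theorem gq_cont (α β γ : ℂ) : Continuous (gq α β γ) := by
  unfold gq
  fun_prop

theorem real_inner (a b c : ℝ) (ha : 0 < a) (y : ℝ) :
    ∫ x : ℝ, Real.exp (-(a * x ^ 2 + 2 * b * x * y + c * y ^ 2)) =
      Real.sqrt (Real.pi / a) * Real.exp (-(c - b ^ 2 / a) * y ^ 2) := by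
  have h1 : ∀ x : ℝ, Real.exp (-(a * x ^ 2 + 2 * b * x * y + c * y ^ 2)) =
      Real.exp (-a * (x + b * y / a) ^ 2) * Real.exp (-(c - b ^ 2 / a) * y ^ 2) := by
    intro x
    rw [← Real.exp_add]
    congr 1
    field_simp
    ring
  simp_rw [h1]
  rw [integral_mul_const, integral_add_right_eq_self (fun x => Real.exp (-a * x ^ 2)), integral_gaussian]

theorem gq_integrable (α β γ : ℂ) (hα : 0 < α.re) (hd : β.re ^ 2 < α.re * γ.re) :
    Integrable (gq α β γ) := by
  rw [Measure.volume_eq_prod, integrable_prod_iff' (gq_cont α β γ).aestronglyMeasurable]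
  constructor
  · refine Filter.Eventually.of_forall (fun y => ?_)
    have h := integrable_cexp_quadratic hα (-(2 * β * y)) (-(γ * (y : ℂ) ^ 2))
    refine h.congr (Filter.Eventually.of_forall (fun x => ?_))
    unfold gq
    simp only
    congr 1
    ring
  · have h1 : ∀ y : ℝ, ∫ x : ℝ, ‖gq α β γ (x, y)‖ =
        Real.sqrt (Real.pi / α.re) * Real.exp (-(γ.re - β.re ^ 2 / α.re) * y ^ 2) := by
      intro y
      rw [← real_inner α.re β.re γ.re hα y]
      refine integral_congr_ae (Filter.Eventually.of_forall (fun x => ?_))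
      simp only
      rw [gq_norm]
    simp_rw [h1]
    refine (integrable_exp_neg_mul_sq ?_).const_mul _
    rw [sub_pos, div_lt_iff₀ hα]
    linarith

theorem gq_integral (α β γ : ℂ) (hα : 0 < α.re) (hd : β.re ^ 2 < α.re * γ.re) :
    ∫ p, gq α β γ p = (Real.pi / α) ^ (1 / 2 : ℂ) * (Real.pi / (γ - β ^ 2 / α)) ^ (1 / 2 : ℂ) := by
  have hint := gq_integrable α β γ hα hd
  rw [Measure.volume_eq_prod] at hint ⊢
  rw [integral_prod_symm _ hint]
  have h1 : ∀ y : ℝ, ∫ x : ℝ, gq α β γ (x, y) =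
      (Real.pi / α) ^ (1 / 2 : ℂ) * cexp (-(γ - β ^ 2 / α) * (y : ℂ) ^ 2) := by
    intro y
    have hα' : (-α).re < 0 := by rw [Complex.neg_re]; linarith
    have h := integral_cexp_quadratic hα' (-(2 * β * y)) (-(γ * (y : ℂ) ^ 2))
    have hα0 : α ≠ 0 := fun h => by rw [h] at hα; simp at hα
    rw [neg_neg] at h
    have e1 : -(γ * (y : ℂ) ^ 2) - (-(2 * β * y)) ^ 2 / (4 * -α) = -(γ - β ^ 2 / α) * (y : ℂ) ^ 2 := by
      field_simp
      ring
    rw [e1] at h
    rw [← h]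
    refine integral_congr_ae (Filter.Eventually.of_forall (fun x => ?_))
    unfold gq
    simp only
    congr 1
    ring
  simp_rw [h1]
  rw [integral_const_mul, integral_gaussian_complex (schur_re α β γ hα hd)]

theorem half_sq (z : ℂ) : (z ^ (1 / 2 : ℂ)) ^ 2 = z := by
  rw [← Complex.cpow_mul_nat]
  norm_num

end X92.Sec
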