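import Pool.Agent.X92.Sec9
set_option autoImplicit false
open MeasureTheory Set Complex
open scoped ENNReal ComplexConjugate

namespace X92.Sec

noncomputable def AA (x : ℝ × ℝ) : ℝ≥0∞ :=
  (Icc (0 : ℝ) 1 ×ˢ Icc (0 : ℝ) 1).indicator (fun _ => (1 : ℝ≥0∞)) x * (ENNReal.ofReal |x.1 - x.2|) ^ (-(1 / 2) : ℝ)

theorem AA_meas : Measurable AA := by
  unfold AA
  refine Measurable.mul (measurable_const.indicator (measurableSet_Icc.prod measurableSet_Icc)) ?_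
  exact (ENNReal.measurable_ofReal.comp ((measurable_fst.sub measurable_snd).norm)).pow_const _

theorem AA_int : ∫⁻ x, AA x < ⊤ := by
  have h1 : ∀ x : ℝ × ℝ, AA x ≤ (Icc (0 : ℝ) 1).indicator (fun _ => (1 : ℝ≥0∞)) x.1 * hh (1 / 2) (x.1 - x.2) := by
    intro x
    unfold AA
    by_cases h : x ∈ Icc (0 : ℝ) 1 ×ˢ Icc (0 : ℝ) 1
    · rw [indicator_of_mem h, indicator_of_mem h.1, one_mul, one_mul]
      unfold hh
      rw [indicator_of_mem]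
      exact ⟨by linarith [h.1.1, h.2.2], by linarith [h.1.2, h.2.1]⟩
    · rw [indicator_of_notMem h, zero_mul]; exact zero_le
  refine (lintegral_mono h1).trans_lt ?_
  have hm : Measurable (fun x : ℝ × ℝ => (Icc (0 : ℝ) 1).indicator (fun _ => (1 : ℝ≥0∞)) x.1 * hh (1 / 2) (x.1 - x.2)) :=
    ((measurable_const.indicator measurableSet_Icc).comp measurable_fst).mul
      ((hh_meas _).comp (measurable_fst.sub measurable_snd))
  rw [Measure.volume_eq_prod, lintegral_prod _ hm.aemeasurable]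
  have h2 : ∀ x : ℝ, ∫⁻ y : ℝ, (Icc (0 : ℝ) 1).indicator (fun _ => (1 : ℝ≥0∞)) x * hh (1 / 2) (x - y) =
      (Icc (0 : ℝ) 1).indicator (fun _ => (1 : ℝ≥0∞)) x * ∫⁻ y, hh (1 / 2) y := by
    intro x
    have hmm : Measurable (fun y : ℝ => hh (1 / 2) (x - y)) := (hh_meas _).comp (measurable_const.sub measurable_id)
    rw [lintegral_const_mul _ hmm]
    congr 1
    exact lintegral_sub_left_eq_self (fun y => hh (1 / 2) y) x
  simp_rw [h2]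
  rw [lintegral_mul_const _ (measurable_const.indicator measurableSet_Icc), lintegral_indicator measurableSet_Icc,
    setLIntegral_one, Real.volume_Icc]
  exact ENNReal.mul_lt_top ENNReal.ofReal_lt_top (hh_int _ (by norm_num) (by norm_num))

theorem H_int (t M : ℝ) (hM : 0 ≤ M) (f : ℝ → ℂ) (hf : Measurable f) (hfM : ∀ v, ‖f v‖ ≤ M)
    (hf0 : ∀ v, v ∉ Icc (0 : ℝ) 1 → f v = 0) :
    Integrable (Function.uncurry (fun (p : ℝ × ℝ) (z : (ℝ × ℝ) × (ℝ × ℝ)) =>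
      ((f z.1.1 * f z.1.2) * conj (f z.2.1 * f z.2.2)) *
      ((Kt t z.1.1 p * Kt t z.1.2 p) * conj (Kt t z.2.1 p * Kt t z.2.2 p))))
      ((volume : Measure (ℝ × ℝ)).prod ((volume : Measure (ℝ × ℝ)).prod (volume : Measure (ℝ × ℝ)))) := by
  set H : (ℝ × ℝ) → ((ℝ × ℝ) × (ℝ × ℝ)) → ℂ := fun p z =>
      ((f z.1.1 * f z.1.2) * conj (f z.2.1 * f z.2.2)) *
      ((Kt t z.1.1 p * Kt t z.1.2 p) * conj (Kt t z.2.1 p * Kt t z.2.2 p)) with hH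
  have hHm : Measurable (Function.uncurry H) := by
    have hconj : Measurable (conj : ℂ → ℂ) := Complex.continuous_conj.measurable
    have a1 : Measurable (fun y : (ℝ × ℝ) × ((ℝ × ℝ) × (ℝ × ℝ)) => y.2.1.1) := by fun_prop
    have a2 : Measurable (fun y : (ℝ × ℝ) × ((ℝ × ℝ) × (ℝ × ℝ)) => y.2.1.2) := by fun_prop
    have a3 : Measurable (fun y : (ℝ × ℝ) × ((ℝ × ℝ) × (ℝ × ℝ)) => y.2.2.1) := by fun_prop
    have a4 : Measurable (fun y : (ℝ × ℝ) × ((ℝ × ℝ) × (ℝ × ℝ)) => y.2.2.2) := by fun_prop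
    have a0 : Measurable (fun y : (ℝ × ℝ) × ((ℝ × ℝ) × (ℝ × ℝ)) => y.1) := measurable_fst
    have ac : Measurable (fun y : (ℝ × ℝ) × ((ℝ × ℝ) × (ℝ × ℝ)) => t) := measurable_const
    exact (((hf.comp a1).mul (hf.comp a2)).mul (hconj.comp ((hf.comp a3).mul (hf.comp a4)))).mul
      (((Kt_meas _ _ _ ac a1 a0).mul (Kt_meas _ _ _ ac a2 a0)).mul
      (hconj.comp ((Kt_meas _ _ _ ac a3 a0).mul (Kt_meas _ _ _ ac a4 a0))))
  refine ⟨hHm.aestronglyMeasurable, ?_⟩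
  rw [hasFiniteIntegral_iff_enorm, lintegral_prod_symm _ hHm.enorm.aemeasurable]
  set c : ℝ := 1 / (32 + 8 * t ^ 2) with hc
  have hc0 : 0 < c := by positivity
  set C1 : ℝ≥0∞ := ENNReal.ofReal (M ^ 4 * 256) with hC1
  set C2 : ℝ≥0∞ := ENNReal.ofReal (Real.sqrt (Real.pi / (4 * c)) * Real.sqrt (2 * Real.pi / c)) with hC2
  have h1 : ∀ z : (ℝ × ℝ) × (ℝ × ℝ), ∫⁻ p, ‖Function.uncurry H (p, z)‖ₑ ≤ (C1 * C2) * (AA z.1 * AA z.2) := by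
    intro z
    set I1 := (Icc (0 : ℝ) 1 ×ˢ Icc (0 : ℝ) 1).indicator (fun _ => (1 : ℝ≥0∞)) z.1 with hI1
    set I2 := (Icc (0 : ℝ) 1 ×ˢ Icc (0 : ℝ) 1).indicator (fun _ => (1 : ℝ≥0∞)) z.2 with hI2
    have hIt : C1 * (I1 * I2) ≠ ⊤ := by
      have g1 : I1 ≤ 1 := indicator_le_self' (fun _ _ => zero_le) z.1 |>.trans (le_refl _)
      have g2 : I2 ≤ 1 := indicator_le_self' (fun _ _ => zero_le) z.2 |>.trans (le_refl _)
      refine ENNReal.mul_ne_top ENNReal.ofReal_ne_top (ENNReal.mul_ne_top ?_ ?_)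
      · exact ne_top_of_le_ne_top (by simp) g1
      · exact ne_top_of_le_ne_top (by simp) g2
    calc ∫⁻ p, ‖Function.uncurry H (p, z)‖ₑ
        ≤ ∫⁻ p : ℝ × ℝ, C1 * (I1 * I2) * ENNReal.ofReal (Real.exp (-c * ((p.1 + z.1.1 * p.2) ^ 2 +
          (p.1 + z.1.2 * p.2) ^ 2 + (p.1 + z.2.1 * p.2) ^ 2 + (p.1 + z.2.2 * p.2) ^ 2))) := by
          refine lintegral_mono (fun p => ?_)
          refine (enorm_H t M hM f hfM hf0 p z).trans (le_of_eq ?_)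
          rw [← mul_assoc]
      _ = C1 * (I1 * I2) * ∫⁻ p : ℝ × ℝ, ENNReal.ofReal (Real.exp (-c * ((p.1 + z.1.1 * p.2) ^ 2 +
          (p.1 + z.1.2 * p.2) ^ 2 + (p.1 + z.2.1 * p.2) ^ 2 + (p.1 + z.2.2 * p.2) ^ 2))) :=
          lintegral_const_mul' _ _ hIt
      _ ≤ C1 * (I1 * I2) * (C2 * ((ENNReal.ofReal |z.1.1 - z.1.2|) ^ (-(1 / 2) : ℝ) *
          (ENNReal.ofReal |z.2.1 - z.2.2|) ^ (-(1 / 2) : ℝ))) := mul_le_mul' le_rfl (g4 c hc0 _ _ _ _)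
      _ = _ := by unfold AA; rw [← hI1, ← hI2]; ring
  refine (lintegral_mono h1).trans_lt ?_
  rw [lintegral_const_mul' _ _ (ENNReal.mul_ne_top ENNReal.ofReal_ne_top ENNReal.ofReal_ne_top),
    lintegral_prod_mul AA_meas.aemeasurable AA_meas.aemeasurable]
  exact ENNReal.mul_lt_top (ENNReal.mul_lt_top ENNReal.ofReal_lt_top ENNReal.ofReal_lt_top)
    (ENNReal.mul_lt_top AA_int AA_int)

theorem G_sq (t : ℝ) (f : ℝ → ℂ) (p : ℝ × ℝ) :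
    (Gt t f p) ^ 2 = ∫ x : ℝ × ℝ, (f x.1 * f x.2) * (Kt t x.1 p * Kt t x.2 p) := by
  unfold Gt
  rw [sq, Measure.volume_eq_prod, ← integral_prod_mul]
  congr 1
  ext x
  ring

theorem L4_pre (ε t M : ℝ) (hε : 0 < ε) (hε1 : ε < 1) (ht : 1 ≤ t) (hM : 0 ≤ M) (f : ℝ → ℂ)
    (hf : Measurable f) (hfM : ∀ v, ‖f v‖ ≤ M) (hf0 : ∀ v, v ∉ Icc (0 : ℝ) 1 → f v = 0) :
    ∫⁻ p, ‖Gt t f p‖ₑ ^ 4 ≤ ∫⁻ z : (ℝ × ℝ) × (ℝ × ℝ),
      (‖f z.1.1‖ₑ * ‖f z.1.2‖ₑ) * (‖f z.2.1‖ₑ * ‖f z.2.2‖ₑ) * BB ε t z := by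
  have h1 : ∀ p, ‖Gt t f p‖ₑ ^ 4 = ‖∫ x : ℝ × ℝ, (f x.1 * f x.2) * (Kt t x.1 p * Kt t x.2 p)‖ₑ ^ 2 := by
    intro p
    rw [← G_sq, enorm_pow, ← pow_mul]
  simp_rw [h1]
  refine (tt2 (volume : Measure (ℝ × ℝ)) (volume : Measure (ℝ × ℝ))
    (fun p x => Kt t x.1 p * Kt t x.2 p) (fun x => f x.1 * f x.2) (H_int t M hM f hf hfM hf0)).trans ?_
  rw [← Measure.volume_eq_prod]
  refine lintegral_mono (fun z => ?_)
  simp only [enorm_mul]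
  by_cases k1 : z.1.1 ∈ Icc (0 : ℝ) 1
  swap
  · rw [hf0 _ k1]; simp
  by_cases k2 : z.1.2 ∈ Icc (0 : ℝ) 1
  swap
  · rw [hf0 _ k2]; simp
  by_cases k3 : z.2.1 ∈ Icc (0 : ℝ) 1
  swap
  · rw [hf0 _ k3]; simp
  by_cases k4 : z.2.2 ∈ Icc (0 : ℝ) 1
  swap
  · rw [hf0 _ k4]; simp
  exact mul_le_mul' le_rfl (four_bound' ε t hε hε1 ht _ _ _ _ k1 k2 k3 k4)

end X92.Sec
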