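import Pool.Agent.X92.Sec10
set_option autoImplicit false
open MeasureTheory Set Complex
open scoped ENNReal ComplexConjugate

namespace X92.Sec

theorem amgm (a b : ℝ≥0∞) : a * b ≤ a ^ 2 + b ^ 2 := by
  rcases le_total a b with h | h
  · calc a * b ≤ b * b := mul_le_mul' h le_rfl
      _ = b ^ 2 := (sq _).symm
      _ ≤ _ := le_add_self
  · calc a * b ≤ a * a := mul_le_mul' le_rfl h
      _ = a ^ 2 := (sq _).symm
      _ ≤ _ := le_self_add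

/-- symmetric kernels -/
theorem sym_schur {X : Type*} [MeasurableSpace X] (μ : Measure X) [SFinite μ] (a : X → ℝ≥0∞) (ha : Measurable a)
    (K : X × X → ℝ≥0∞) (hK : Measurable K) (hs : ∀ x y, K (x, y) = K (y, x)) :
    ∫⁻ z, a z.1 * a z.2 * K z ∂(μ.prod μ) ≤ 2 * ∫⁻ x, a x ^ 2 * (∫⁻ y, K (x, y) ∂μ) ∂μ := by
  have hA : Measurable (fun z : X × X => a z.1 ^ 2 * K z) := ((ha.comp measurable_fst).pow_const 2).mul hK
  have hB : Measurable (fun z : X × X => a z.2 ^ 2 * K z) := ((ha.comp measurable_snd).pow_const 2).mul hK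
  have h2 : ∫⁻ z, a z.1 ^ 2 * K z ∂(μ.prod μ) = ∫⁻ x, a x ^ 2 * (∫⁻ y, K (x, y) ∂μ) ∂μ := by
    rw [lintegral_prod _ hA.aemeasurable]
    refine lintegral_congr (fun x => ?_)
    have hm : Measurable (fun y => K (x, y)) := hK.comp (measurable_const.prodMk measurable_id)
    simp only
    rw [lintegral_const_mul _ hm]
  have h3 : ∫⁻ z, a z.2 ^ 2 * K z ∂(μ.prod μ) = ∫⁻ z, a z.1 ^ 2 * K z ∂(μ.prod μ) := by
    rw [← lintegral_prod_swap]
    refine lintegral_congr (fun z => ?_)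
    simp only [Prod.snd_swap]
    rw [show Prod.swap z = (z.2, z.1) from rfl, hs]
  calc ∫⁻ z, a z.1 * a z.2 * K z ∂(μ.prod μ)
      ≤ ∫⁻ z, (a z.1 ^ 2 * K z + a z.2 ^ 2 * K z) ∂(μ.prod μ) := by
        refine lintegral_mono (fun z => ?_)
        rw [← add_mul]
        exact mul_le_mul' (amgm _ _) le_rfl
    _ = ∫⁻ z, a z.1 ^ 2 * K z ∂(μ.prod μ) + ∫⁻ z, a z.2 ^ 2 * K z ∂(μ.prod μ) :=
        lintegral_add_left hA _
    _ = _ := by rw [h3, h2, two_mul]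

/-- the inner integral -/
noncomputable def kap (ε d0 : ℝ) : ℝ≥0∞ := ∫⁻ d, hh (1 - ε / 2) (d - d0) * hh (1 - ε / 2) (d + d0)

theorem kap_meas (ε : ℝ) : Measurable (kap ε) := by
  unfold kap
  have : Measurable (fun z : ℝ × ℝ => hh (1 - ε / 2) (z.2 - z.1) * hh (1 - ε / 2) (z.2 + z.1)) :=
    ((hh_meas _).comp (measurable_snd.sub measurable_fst)).mul ((hh_meas _).comp (measurable_snd.add measurable_fst))
  exact this.lintegral_prod_right'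

theorem kap_neg (ε d0 : ℝ) : kap ε (-d0) = kap ε d0 := by
  unfold kap
  refine lintegral_congr (fun d => ?_)
  rw [mul_comm]
  congr 2
  ring

theorem kap_int (ε : ℝ) : ∫⁻ x, kap ε x = ENNReal.ofReal (1 / 2) * ((∫⁻ x, hh (1 - ε / 2) x) * ∫⁻ x, hh (1 - ε / 2) x) := by
  rw [← rot _ _ (hh_meas _) (hh_meas _)]
  have hm : Measurable (fun x : ℝ × ℝ => hh (1 - ε / 2) (x.1 + x.2) * hh (1 - ε / 2) (x.1 - x.2)) :=
    ((hh_meas _).comp (measurable_fst.add measurable_snd)).mul ((hh_meas _).comp (measurable_fst.sub measurable_snd))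
  rw [Measure.volume_eq_prod, lintegral_prod_symm _ hm.aemeasurable]
  refine lintegral_congr (fun y => ?_)
  unfold kap
  refine lintegral_congr (fun x => ?_)
  rw [mul_comm]

theorem BB_inner (ε t : ℝ) (x : ℝ × ℝ) :
    ∫⁻ y : ℝ × ℝ, BB ε t (x, y) = ENNReal.ofReal (64000 * Real.pi ^ 3 * t ^ (-(2 - 2 * ε))) *
      (ENNReal.ofReal (1 / 2) * ((∫⁻ s, hh (1 - ε) s) * kap ε (x.1 - x.2))) := by
  unfold BB
  rw [lintegral_const_mul' _ _ ENNReal.ofReal_ne_top]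
  congr 1
  have hA : Measurable (fun s : ℝ => hh (1 - ε) (s - (x.1 + x.2))) := (hh_meas _).comp (measurable_id.sub measurable_const)
  have hB : Measurable (fun d : ℝ => hh (1 - ε / 2) (d - (x.1 - x.2)) * hh (1 - ε / 2) (d + (x.1 - x.2))) :=
    ((hh_meas _).comp (measurable_id.sub measurable_const)).mul ((hh_meas _).comp (measurable_id.add measurable_const))
  have h := rot _ _ hA hB
  rw [lintegral_sub_right_eq_self (fun s => hh (1 - ε) s)] at h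
  exact h

theorem f_meas4 {f : ℝ → ℂ} (hf : Measurable f) : Measurable (fun x => ‖f x‖ₑ) := hf.enorm

theorem L4 (ε : ℝ) (hε : 0 < ε) (hε1 : ε < 1) : ∃ C : ℝ, 0 < C ∧ ∀ t : ℝ, 1 ≤ t → ∀ f : ℝ → ℂ, Measurable f →
    ∀ M : ℝ, 0 ≤ M → (∀ v, ‖f v‖ ≤ M) → (∀ v, v ∉ Icc (0 : ℝ) 1 → f v = 0) →
    ∫⁻ p, ‖Gt t f p‖ₑ ^ 4 ≤ ENNReal.ofReal (C * t ^ (-(2 - 2 * ε))) * ∫⁻ v, ‖f v‖ₑ ^ 4 := by
  set I1 := ∫⁻ s, hh (1 - ε) s with hI1
  set I2 := ∫⁻ s, hh (1 - ε / 2) s with hI2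
  have hI1t : I1 ≠ ⊤ := (hh_int _ (by linarith) (by linarith)).ne
  have hI2t : I2 ≠ ⊤ := (hh_int _ (by linarith) (by linarith)).ne
  refine ⟨64000 * Real.pi ^ 3 * ((I1 * (I2 * I2)).toReal + 1), by
    have := Real.pi_pos
    positivity, ?_⟩
  intro t ht f hf M hM hfM hf0
  have ht0 : 0 < t := by linarith
  have hfe := f_meas4 hf
  refine (L4_pre ε t M hε hε1 ht hM f hf hfM hf0).trans ?_
  have ham : Measurable (fun x : ℝ × ℝ => ‖f x.1‖ₑ * ‖f x.2‖ₑ) :=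
    (hfe.comp measurable_fst).mul (hfe.comp measurable_snd)
  have h1 := sym_schur (volume : Measure (ℝ × ℝ)) (fun x : ℝ × ℝ => ‖f x.1‖ₑ * ‖f x.2‖ₑ) ham (BB ε t) (BB_meas ε t)
    (BB_symm ε t)
  rw [← Measure.volume_eq_prod] at h1
  set c := ENNReal.ofReal (64000 * Real.pi ^ 3 * t ^ (-(2 - 2 * ε))) with hc
  set r := ENNReal.ofReal (1 / 2) with hr
  have hr2 : 2 * r = 1 := by
    rw [hr, ← ENNReal.ofReal_ofNat, ← ENNReal.ofReal_mul (by norm_num)]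
    norm_num
  have e1 : ∫⁻ x : ℝ × ℝ, (‖f x.1‖ₑ * ‖f x.2‖ₑ) ^ 2 * (∫⁻ y : ℝ × ℝ, BB ε t (x, y)) =
      ∫⁻ x : ℝ × ℝ, (c * (r * I1)) * ((‖f x.1‖ₑ ^ 2) * (‖f x.2‖ₑ ^ 2) * kap ε (x.1 - x.2)) := by
    refine lintegral_congr (fun x => ?_)
    rw [BB_inner, ← hc, ← hr, ← hI1]
    ring
  refine h1.trans ?_
  rw [e1]
  have hct : c * (r * I1) ≠ ⊤ := ENNReal.mul_ne_top ENNReal.ofReal_ne_top (ENNReal.mul_ne_top ENNReal.ofReal_ne_top hI1t)
  rw [lintegral_const_mul' _ _ hct]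
  have hkm : Measurable (fun x : ℝ × ℝ => kap ε (x.1 - x.2)) := (kap_meas ε).comp (measurable_fst.sub measurable_snd)
  have h2 : ∫⁻ z : ℝ × ℝ, ‖f z.1‖ₑ ^ 2 * ‖f z.2‖ₑ ^ 2 * kap ε (z.1 - z.2) ≤
      2 * ∫⁻ x : ℝ, (‖f x‖ₑ ^ 2) ^ 2 * ∫⁻ y : ℝ, kap ε (x - y) := by
    have h2' := sym_schur (volume : Measure ℝ) (fun x : ℝ => ‖f x‖ₑ ^ 2) (hfe.pow_const 2)
      (fun x : ℝ × ℝ => kap ε (x.1 - x.2)) hkm (fun x y => by
        show kap ε (x - y) = kap ε (y - x)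
        rw [← kap_neg]; congr 1; ring)
    rw [← Measure.volume_eq_prod] at h2'
    exact h2'
  have h3 : ∀ x : ℝ, ∫⁻ y : ℝ, kap ε (x - y) = r * (I2 * I2) := by
    intro x
    rw [lintegral_sub_left_eq_self (fun y => kap ε y) x, kap_int]
  simp only [h3] at h2
  have hI2m : r * (I2 * I2) ≠ ⊤ := ENNReal.mul_ne_top ENNReal.ofReal_ne_top (ENNReal.mul_ne_top hI2t hI2t)
  rw [lintegral_mul_const' _ _ hI2m] at h2
  have e4 : ∀ x : ℝ, (‖f x‖ₑ ^ 2) ^ 2 = ‖f x‖ₑ ^ 4 := fun x => by rw [← pow_mul]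
  simp only [e4] at h2
  calc 2 * (c * (r * I1) * ∫⁻ x : ℝ × ℝ, (‖f x.1‖ₑ ^ 2) * (‖f x.2‖ₑ ^ 2) * kap ε (x.1 - x.2))
      ≤ 2 * (c * (r * I1) * (2 * ((∫⁻ x, ‖f x‖ₑ ^ 4) * (r * (I2 * I2))))) :=
        mul_le_mul' le_rfl (mul_le_mul' le_rfl h2)
    _ = (2 * r) * (2 * r) * (c * (I1 * (I2 * I2)) * ∫⁻ x, ‖f x‖ₑ ^ 4) := by ring
    _ = c * (I1 * (I2 * I2)) * ∫⁻ x, ‖f x‖ₑ ^ 4 := by rw [hr2, one_mul, one_mul]
    _ ≤ _ := by
        refine mul_le_mul' ?_ le_rfl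
        have h5 : I1 * (I2 * I2) ≤ ENNReal.ofReal ((I1 * (I2 * I2)).toReal + 1) := by
          calc I1 * (I2 * I2) = ENNReal.ofReal ((I1 * (I2 * I2)).toReal) :=
                (ENNReal.ofReal_toReal (ENNReal.mul_ne_top hI1t (ENNReal.mul_ne_top hI2t hI2t))).symm
            _ ≤ _ := ENNReal.ofReal_le_ofReal (by linarith)
        calc c * (I1 * (I2 * I2)) ≤ c * ENNReal.ofReal ((I1 * (I2 * I2)).toReal + 1) := mul_le_mul' le_rfl h5
          _ = _ := by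
            rw [hc, ← ENNReal.ofReal_mul (by
              have := Real.pi_pos
              positivity)]
            congr 1; ring

end X92.Sec
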