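import Pool.Agent.X92.Sec11
import Pool.Agent.X92.Ext15
set_option autoImplicit false
open MeasureTheory Set Complex
open scoped ENNReal ComplexConjugate

namespace X92.Sec

open X92.Ext (ph T sq2 norm_ph ph_eq T_le T_L2 measurable_Tc)

/-- the radial weight -/
noncomputable def w0 (x : ℝ) : ℝ := Real.exp (-2 * x ^ 2) - Real.exp (-4 * x ^ 2)
noncomputable def ww (x : ℝ) : ℝ := w0 x / |x|
/-- functions of the slope with the weight -/
noncomputable def wF (F : ℝ → ℂ) (x : ℝ × ℝ) : ℂ := (ww x.1 : ℂ) * F (x.2 / x.1)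

theorem w0_nonneg (x : ℝ) : 0 ≤ w0 x := by
  unfold w0
  rw [sub_nonneg]
  exact Real.exp_le_exp.2 (by nlinarith [sq_nonneg x])

theorem w0_le (x : ℝ) : w0 x ≤ 2 * x ^ 2 * Real.exp (-2 * x ^ 2) := by
  unfold w0
  have h1 : Real.exp (-4 * x ^ 2) = Real.exp (-2 * x ^ 2) * Real.exp (-(2 * x ^ 2)) := by
    rw [← Real.exp_add]; congr 1; ring
  have h2 : 1 - 2 * x ^ 2 ≤ Real.exp (-(2 * x ^ 2)) := by
    have := Real.add_one_le_exp (-(2 * x ^ 2))
    linarith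
  have h3 : 0 < Real.exp (-2 * x ^ 2) := Real.exp_pos _
  rw [h1]
  nlinarith

theorem w0_le_exp (x : ℝ) : w0 x ≤ Real.exp (-2 * x ^ 2) := by
  unfold w0
  linarith [Real.exp_pos (-4 * x ^ 2)]

theorem ww_nonneg (x : ℝ) : 0 ≤ ww x := div_nonneg (w0_nonneg x) (abs_nonneg x)

theorem abs_ww (x : ℝ) : |x| * ww x = w0 x := by
  unfold ww
  rcases eq_or_ne x 0 with h | h
  · rw [h]; simp [w0]
  · rw [mul_div_cancel₀ _ (abs_pos.2 h).ne']

theorem ww_meas : Measurable ww := by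
  unfold ww w0
  fun_prop

theorem wF_meas {F : ℝ → ℂ} (hF : Measurable F) : Measurable (wF F) := by
  unfold wF
  exact (Complex.measurable_ofReal.comp (ww_meas.comp measurable_fst)).mul
    (hF.comp (measurable_snd.div measurable_fst))

/-- polar-type coordinates -/
theorem lint_sec (G : ℝ × ℝ → ℝ≥0∞) (hG : Measurable G) :
    ∫⁻ x : ℝ × ℝ, G (x.1, x.2 / x.1) = ∫⁻ x : ℝ, ENNReal.ofReal |x| * ∫⁻ v, G (x, v) := by
  have hm : Measurable (fun x : ℝ × ℝ => G (x.1, x.2 / x.1)) :=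
    hG.comp (measurable_fst.prodMk (measurable_snd.div measurable_fst))
  rw [Measure.volume_eq_prod, lintegral_prod _ hm.aemeasurable]
  refine lintegral_congr_ae ?_
  have h0 : ∀ᵐ x : ℝ, x ≠ 0 := by rw [ae_iff]; simp
  filter_upwards [h0] with x hx
  have hg : Measurable (fun v => G (x, v)) := hG.comp (measurable_const.prodMk measurable_id)
  have h1 : ∫⁻ y : ℝ, G (x, y / x) = ∫⁻ v, G (x, v) ∂(Measure.map (fun y : ℝ => x⁻¹ * y) volume) := by
    rw [lintegral_map hg (measurable_const_mul _)]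
    refine lintegral_congr (fun y => ?_)
    congr 2
    rw [div_eq_inv_mul]
  rw [h1, Real.map_volume_mul_left (inv_ne_zero hx), lintegral_smul_measure, smul_eq_mul, inv_inv]

theorem w0_integrable : Integrable w0 := by
  unfold w0
  exact (integrable_exp_neg_mul_sq (by norm_num : (0 : ℝ) < 2)).sub
    (integrable_exp_neg_mul_sq (by norm_num : (0 : ℝ) < 4))

noncomputable def N1 : ℝ≥0∞ := ∫⁻ x, ENNReal.ofReal (w0 x)
noncomputable def N2 : ℝ≥0∞ := ∫⁻ x : ℝ, ENNReal.ofReal |x| * ENNReal.ofReal (ww x) ^ 2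

theorem N1_fin : N1 ≠ ⊤ := by
  unfold N1
  rw [← ofReal_integral_eq_lintegral_ofReal w0_integrable (Filter.Eventually.of_forall w0_nonneg)]
  exact ENNReal.ofReal_ne_top

theorem N2_fin : N2 ≠ ⊤ := by
  unfold N2
  have h1 : ∀ x : ℝ, ENNReal.ofReal |x| * ENNReal.ofReal (ww x) ^ 2 ≤
      ENNReal.ofReal (2 * (|x| * Real.exp (-4 * x ^ 2))) := by
    intro x
    rw [← ENNReal.ofReal_pow (ww_nonneg x), ← ENNReal.ofReal_mul (abs_nonneg x)]
    refine ENNReal.ofReal_le_ofReal ?_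
    rcases eq_or_ne x 0 with h | h
    · rw [h]; simp
    have hx : 0 < |x| := abs_pos.2 h
    have e1 : |x| * ww x ^ 2 = w0 x ^ 2 / |x| := by
      unfold ww; field_simp
    rw [e1, div_le_iff₀ hx]
    have h2 : w0 x * w0 x ≤ (2 * x ^ 2 * Real.exp (-2 * x ^ 2)) * Real.exp (-2 * x ^ 2) :=
      mul_le_mul (w0_le x) (w0_le_exp x) (w0_nonneg x) (by positivity)
    have e2 : Real.exp (-2 * x ^ 2) * Real.exp (-2 * x ^ 2) = Real.exp (-4 * x ^ 2) := by
      rw [← Real.exp_add]; congr 1; ring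
    calc w0 x ^ 2 = w0 x * w0 x := sq _
      _ ≤ _ := h2
      _ = 2 * x ^ 2 * (Real.exp (-2 * x ^ 2) * Real.exp (-2 * x ^ 2)) := by ring
      _ = 2 * (|x| * Real.exp (-4 * x ^ 2)) * |x| := by rw [e2, ← sq_abs x]; ring
  have h3 : Integrable (fun x : ℝ => 2 * (|x| * Real.exp (-4 * x ^ 2))) := by
    have := (integrable_mul_exp_neg_mul_sq (by norm_num : (0 : ℝ) < 4)).norm
    refine (this.congr (Filter.Eventually.of_forall (fun x => ?_))).const_mul 2
    simp only [norm_mul, Real.norm_eq_abs, Real.abs_exp]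
  refine ne_top_of_le_ne_top ?_ (lintegral_mono h1)
  rw [← ofReal_integral_eq_lintegral_ofReal h3 (Filter.Eventually.of_forall (fun x => by positivity))]
  exact ENNReal.ofReal_ne_top

theorem enorm_ofReal_nn (r : ℝ) (hr : 0 ≤ r) : ‖(r : ℂ)‖ₑ = ENNReal.ofReal r := by
  rw [← ofReal_norm, Complex.norm_real, Real.norm_of_nonneg hr]

theorem wF_L1 {F : ℝ → ℂ} (hF : Measurable F) : ∫⁻ x, ‖wF F x‖ₑ = N1 * ∫⁻ v, ‖F v‖ₑ := by
  have h := lint_sec (fun z => ENNReal.ofReal (ww z.1) * ‖F z.2‖ₑ)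
    ((ENNReal.measurable_ofReal.comp (ww_meas.comp measurable_fst)).mul (hF.enorm.comp measurable_snd))
  have e1 : ∀ x : ℝ × ℝ, ‖wF F x‖ₑ = ENNReal.ofReal (ww x.1) * ‖F (x.2 / x.1)‖ₑ := by
    intro x
    unfold wF
    rw [enorm_mul, enorm_ofReal_nn _ (ww_nonneg _)]
  simp_rw [e1]
  refine h.trans ?_
  simp only
  have e2 : ∀ x : ℝ, ENNReal.ofReal |x| * ∫⁻ v, ENNReal.ofReal (ww x) * ‖F v‖ₑ =
      ENNReal.ofReal (w0 x) * ∫⁻ v, ‖F v‖ₑ := by
    intro x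
    rw [lintegral_const_mul' _ _ ENNReal.ofReal_ne_top, ← mul_assoc, ← ENNReal.ofReal_mul (abs_nonneg x), abs_ww]
  simp_rw [e2]
  have hmw : Measurable (fun x : ℝ => ENNReal.ofReal (w0 x)) := ENNReal.measurable_ofReal.comp (by unfold w0; fun_prop)
  rw [lintegral_mul_const _ hmw]
  rfl

theorem wF_L2 {F : ℝ → ℂ} (hF : Measurable F) : ∫⁻ x, ‖wF F x‖ₑ ^ 2 = N2 * ∫⁻ v, ‖F v‖ₑ ^ 2 := by
  have h := lint_sec (fun z => ENNReal.ofReal (ww z.1) ^ 2 * ‖F z.2‖ₑ ^ 2)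
    (((ENNReal.measurable_ofReal.comp (ww_meas.comp measurable_fst)).pow_const 2).mul
      ((hF.enorm.comp measurable_snd).pow_const 2))
  have e1 : ∀ x : ℝ × ℝ, ‖wF F x‖ₑ ^ 2 = ENNReal.ofReal (ww x.1) ^ 2 * ‖F (x.2 / x.1)‖ₑ ^ 2 := by
    intro x
    unfold wF
    rw [enorm_mul, enorm_ofReal_nn _ (ww_nonneg _), mul_pow]
  simp_rw [e1]
  refine h.trans ?_
  simp only
  have e2 : ∀ x : ℝ, ENNReal.ofReal |x| * ∫⁻ v, ENNReal.ofReal (ww x) ^ 2 * ‖F v‖ₑ ^ 2 =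
      (ENNReal.ofReal |x| * ENNReal.ofReal (ww x) ^ 2) * ∫⁻ v, ‖F v‖ₑ ^ 2 := by
    intro x
    rw [lintegral_const_mul' _ _ (ENNReal.pow_ne_top ENNReal.ofReal_ne_top), ← mul_assoc]
  simp_rw [e2]
  have hmw : Measurable (fun x : ℝ => ENNReal.ofReal |x| * ENNReal.ofReal (ww x) ^ 2) :=
    (ENNReal.measurable_ofReal.comp measurable_norm).mul
    ((ENNReal.measurable_ofReal.comp ww_meas).pow_const 2)
  rw [lintegral_mul_const _ hmw]
  rfl

theorem wF_int {F : ℝ → ℂ} (hF : Measurable F) (hi : Integrable F) : Integrable (wF F) := by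
  refine ⟨(wF_meas hF).aestronglyMeasurable, ?_⟩
  rw [hasFiniteIntegral_iff_enorm, wF_L1 hF]
  exact ENNReal.mul_lt_top N1_fin.lt_top hi.2

/-- the oscillating factor in the coordinates `(x, v)` -/
noncomputable def E0 (p : ℝ × ℝ) (t x v : ℝ) : ℂ := ph p (x, x * v) * ph (t, t) (sq2 (x, x * v))

theorem E0_norm (p : ℝ × ℝ) (t x v : ℝ) : ‖E0 p t x v‖ = 1 := by
  unfold E0; rw [norm_mul, norm_ph, norm_ph, one_mul]

theorem E0_cont (p : ℝ × ℝ) (t : ℝ) : Continuous (fun z : ℝ × ℝ => E0 p t z.1 z.2) := by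
  unfold E0
  refine Continuous.mul ?_ ?_
  · exact X92.Ext.continuous_ph.comp (by fun_prop : Continuous (fun z : ℝ × ℝ => (p, (z.1, z.1 * z.2))))
  · exact X92.Ext.continuous_ph.comp (by unfold sq2; fun_prop :
      Continuous (fun z : ℝ × ℝ => ((t, t), sq2 (z.1, z.1 * z.2))))

theorem inner_gauss (e t v : ℝ) (he : 0 < e) (p : ℝ × ℝ) :
    Integrable (fun x : ℝ => ((Real.exp (-e * x ^ 2) : ℝ) : ℂ) * E0 p t x v) ∧
    ∫ x : ℝ, ((Real.exp (-e * x ^ 2) : ℝ) : ℂ) * E0 p t x v = kk (cc e t v) v p := by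
  have hre : 0 < (cc e t v).re := he
  have hcc : cc e t v = (e : ℂ) + ((t * (1 + v ^ 2) : ℝ) : ℂ) * I := Complex.mk_eq_add_mul_I _ _
  have h := fourierIntegral_gaussian hre ((-(p.1 + v * p.2) : ℝ) : ℂ)
  have hpt : ∀ x : ℝ, ((Real.exp (-e * x ^ 2) : ℝ) : ℂ) * E0 p t x v =
      cexp (I * ((-(p.1 + v * p.2) : ℝ) : ℂ) * x) * cexp (-(cc e t v) * x ^ 2) := by
    intro x
    unfold E0
    rw [ph_eq, ph_eq, ← Complex.exp_add, ← Complex.exp_add, Complex.ofReal_exp, ← Complex.exp_add, hcc]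
    congr 1
    simp only [sq2]
    push_cast
    ring_nf
  constructor
  · have hI := integrable_cexp_quadratic hre (I * ((-(p.1 + v * p.2) : ℝ) : ℂ)) 0
    refine hI.congr (Filter.Eventually.of_forall (fun x => ?_))
    simp only
    rw [hpt, ← Complex.exp_add]
    congr 1
    ring
  · simp_rw [hpt]
    rw [h]
    unfold kk c0
    congr 1
    congr 1
    push_cast
    have := ne_of_re hre
    field_simp

end X92.Sec
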