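import Pool.Agent.X92.Sec12
set_option autoImplicit false
open MeasureTheory Set Complex
open scoped ENNReal ComplexConjugate

namespace X92.Sec

open X92.Ext (ph T sq2 norm_ph ph_eq T_le T_L2 measurable_Tc Phi)

theorem T_eq {F : ℝ → ℂ} (hF : Measurable F) (hi : Integrable F) (p : ℝ × ℝ) (t : ℝ) :
    T (wF F) p (t, t) = Gt t F p := by
  have hw := wF_int hF hi
  unfold T
  have hint : Integrable (fun x : ℝ × ℝ => wF F x * (ph p x * ph (t, t) (sq2 x))) := by
    have h1 := X92.Ext.integrable_mod _ (X92.Ext.integrable_mod (wF F) hw p (fun x => x) continuous_id) (t, t) sq2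
      X92.Ext.continuous_sq2
    refine h1.congr (Filter.Eventually.of_forall (fun x => ?_))
    simp only
    ring
  rw [Measure.volume_eq_prod] at hint ⊢
  rw [integral_prod _ hint]
  have h1 : (fun x : ℝ => ∫ y : ℝ, wF F (x, y) * (ph p (x, y) * ph (t, t) (sq2 (x, y)))) =ᵐ[volume]
      fun x : ℝ => ∫ v : ℝ, (w0 x : ℂ) * (F v * E0 p t x v) := by
    have h0 : ∀ᵐ x : ℝ, x ≠ 0 := by rw [ae_iff]; simp
    filter_upwards [h0] with x hx
    have h2 : ∫ y : ℝ, wF F (x, y) * (ph p (x, y) * ph (t, t) (sq2 (x, y))) =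
        ∫ y : ℝ, (fun v : ℝ => (ww x : ℂ) * (F v * E0 p t x v)) (x⁻¹ * y) := by
      congr 1
      ext y
      unfold wF E0
      simp only
      have e : x * (x⁻¹ * y) = y := by rw [mul_inv_cancel_left₀ hx]
      rw [e, div_eq_inv_mul]
      ring
    have h3 := Measure.integral_comp_mul_left (fun v : ℝ => (ww x : ℂ) * (F v * E0 p t x v)) x⁻¹
    rw [h2, h3, inv_inv, ← integral_smul]
    congr 1
    ext v
    rw [← abs_ww x, Complex.real_smul]
    push_cast
    ring
  rw [integral_congr_ae h1]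
  have hprod : Integrable (Function.uncurry (fun (x v : ℝ) => (w0 x : ℂ) * (F v * E0 p t x v)))
      ((volume : Measure ℝ).prod volume) := by
    have g1 : Integrable (fun x : ℝ => (w0 x : ℂ)) := w0_integrable.ofReal
    have g2 := g1.mul_prod hi
    have g3 := g2.bdd_mul (c := 1) (E0_cont p t).aestronglyMeasurable
      (Filter.Eventually.of_forall (fun z => (E0_norm p t z.1 z.2).le))
    refine g3.congr (Filter.Eventually.of_forall (fun z => ?_))
    simp only [Function.uncurry]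
    ring
  rw [integral_integral_swap hprod]
  unfold Gt
  congr 1
  ext v
  have e1 : ∀ x : ℝ, (w0 x : ℂ) * (F v * E0 p t x v) = F v * (((Real.exp (-2 * x ^ 2) : ℝ) : ℂ) * E0 p t x v -
      ((Real.exp (-4 * x ^ 2) : ℝ) : ℂ) * E0 p t x v) := by
    intro x
    unfold w0
    push_cast
    ring
  simp_rw [e1]
  have i2 := inner_gauss 2 t v (by norm_num) p
  have i4 := inner_gauss 4 t v (by norm_num) p
  rw [integral_const_mul, integral_sub i2.1 i4.1, i2.2, i4.2]
  rfl

theorem Gt_L2 {F : ℝ → ℂ} (hF : Measurable F) (hi : Integrable F) (t : ℝ) :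
    ∫⁻ p, ‖Gt t F p‖ₑ ^ 2 ≤ (ENNReal.ofReal (8 * Real.pi ^ 2) * N2) * ∫⁻ v, ‖F v‖ₑ ^ 2 := by
  simp_rw [← T_eq hF hi]
  refine (T_L2 (wF F) (wF_int hF hi) (t, t)).trans (le_of_eq ?_)
  rw [wF_L2 hF, mul_assoc]

theorem Gt_sup {F : ℝ → ℂ} (hF : Measurable F) (hi : Integrable F) (t : ℝ) (p : ℝ × ℝ) :
    ‖Gt t F p‖ₑ ≤ N1 * ∫⁻ v, ‖F v‖ₑ := by
  rw [← T_eq hF hi, ← wF_L1 hF]
  exact T_le _ _ _

theorem Gt_meas {F : ℝ → ℂ} (hF : Measurable F) (t : ℝ) : Measurable (fun p => Gt t F p) := by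
  unfold Gt
  have h : Measurable (fun z : (ℝ × ℝ) × ℝ => F z.2 * Kt t z.2 z.1) :=
    (hF.comp measurable_snd).mul (Kt_meas _ _ _ measurable_const measurable_snd measurable_fst)
  exact (h.stronglyMeasurable.integral_prod_right').measurable

theorem Gt_Kint {F : ℝ → ℂ} (hF : Measurable F) (hi : Integrable F) (hF0 : ∀ v, v ∉ Icc (0 : ℝ) 1 → F v = 0)
    (t : ℝ) (p : ℝ × ℝ) : Integrable (fun v => F v * Kt t v p) := by
  have hm : Measurable (fun v => F v * Kt t v p) :=
    hF.mul (Kt_meas _ _ _ measurable_const measurable_id measurable_const)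
  refine (hi.norm.const_mul 4).mono' hm.aestronglyMeasurable (Filter.Eventually.of_forall (fun v => ?_))
  by_cases hv : v ∈ Icc (0 : ℝ) 1
  · rw [norm_mul, mul_comm]
    refine mul_le_mul_of_nonneg_right ?_ (norm_nonneg _)
    refine (Kt_le t v hv p).trans ?_
    have : Real.exp (-(1 / (32 + 8 * t ^ 2)) * (p.1 + v * p.2) ^ 2) ≤ 1 := by
      rw [Real.exp_le_one_iff]
      have : 0 ≤ 1 / (32 + 8 * t ^ 2) * (p.1 + v * p.2) ^ 2 := by positivity
      linarith
    linarith
  · rw [hF0 v hv]; simp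

/-- fixed-time bound -/
theorem fixed_t (q ε : ℝ) (hq2 : 2 < q) (hq4 : q < 4) (hε : 0 < ε) (hε1 : ε < 1) :
    ∃ C : ℝ, 0 < C ∧ ∀ t : ℝ, 1 ≤ t → ∀ F : ℝ → ℂ, Measurable F → Integrable F →
      (∀ v, v ∉ Icc (0 : ℝ) 1 → F v = 0) →
      ∫⁻ p, ‖Gt t F p‖ₑ ^ q ≤ ENNReal.ofReal (C * t ^ (-((1 - ε) * (q - 2)))) * ∫⁻ v, ‖F v‖ₑ ^ q := by
  obtain ⟨C4, hC4, h4⟩ := L4 ε hε hε1
  set A2 : ℝ := 8 * Real.pi ^ 2 * N2.toReal + 1 with hA2
  have hA2p : 0 < A2 := by
    have := Real.pi_pos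
    positivity
  have hA2' : ENNReal.ofReal (8 * Real.pi ^ 2) * N2 ≤ ENNReal.ofReal A2 := by
    rw [← ENNReal.ofReal_toReal N2_fin, ← ENNReal.ofReal_mul (by positivity)]
    exact ENNReal.ofReal_le_ofReal (by rw [hA2]; linarith)
  refine ⟨q * (4 * A2 / (q - 2) + 16 * C4 / (4 - q)), by
    have h1 : 0 < q - 2 := by linarith
    have h2 : 0 < 4 - q := by linarith
    positivity, ?_⟩
  intro t ht F hF hi hF0
  have ht0 : 0 < t := by linarith
  set c : ℝ := t ^ (1 - ε) with hc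
  have hc0 : 0 < c := Real.rpow_pos_of_pos ht0 _
  have hset1 : ∀ s : ℝ, MeasurableSet {x : ℝ | c * s < ‖F x‖} := fun s =>
    measurableSet_lt measurable_const hF.norm
  have hset2 : ∀ s : ℝ, MeasurableSet {x : ℝ | ‖F x‖ ≤ c * s} := fun s =>
    measurableSet_le hF.norm measurable_const
  have hm := X92.Ext.marcin (volume : Measure ℝ) (volume : Measure (ℝ × ℝ)) q hq2 hq4 (ENNReal.ofReal A2)
    (ENNReal.ofReal (C4 * t ^ (-(2 - 2 * ε)))) c hc0 F hF (fun p => Gt t F p) (Gt_meas hF t).aestronglyMeasurable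
    (fun s p => Gt t ({x | c * s < ‖F x‖}.indicator F) p) (fun s p => Gt t ({x | ‖F x‖ ≤ c * s}.indicator F) p)
    ?_ ?_ ?_ ?_ ?_
  · refine hm.trans (le_of_eq ?_)
    rw [← ENNReal.ofReal_ofNat 4, ← ENNReal.ofReal_ofNat 16]
    have h1 : 0 < q - 2 := by linarith
    have h2 : 0 < 4 - q := by linarith
    rw [← ENNReal.ofReal_mul (by norm_num), ← ENNReal.ofReal_mul (by positivity),
      ← ENNReal.ofReal_mul (by norm_num), ← ENNReal.ofReal_mul (by positivity),
      ← ENNReal.ofReal_add (by positivity) (by positivity), ← ENNReal.ofReal_mul (by linarith)]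
    congr 2
    have e1 : c ^ (2 - q) = t ^ (-((1 - ε) * (q - 2))) := by
      rw [hc, ← Real.rpow_mul ht0.le]; congr 1; ring
    have e2 : t ^ (-(2 - 2 * ε)) * c ^ (4 - q) = t ^ (-((1 - ε) * (q - 2))) := by
      rw [hc, ← Real.rpow_mul ht0.le, ← Real.rpow_add ht0]; congr 1; ring
    rw [e1]
    calc q * (4 * A2 * (t ^ (-((1 - ε) * (q - 2))) / (q - 2)) +
          16 * (C4 * t ^ (-(2 - 2 * ε))) * (c ^ (4 - q) / (4 - q)))
        = q * (4 * A2 * (t ^ (-((1 - ε) * (q - 2))) / (q - 2)) +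
          16 * C4 * ((t ^ (-(2 - 2 * ε)) * c ^ (4 - q)) / (4 - q))) := by ring
      _ = _ := by rw [e2]; ring
  · intro s hs p
    unfold Gt
    have j1 : Integrable (fun v => ({x | c * s < ‖F x‖}.indicator F) v * Kt t v p) :=
      Gt_Kint (hF.indicator (hset1 s)) (hi.indicator (hset1 s)) (fun v hv => by
        rw [indicator_apply_eq_zero]; intro _; exact hF0 v hv) t p
    have j2 : Integrable (fun v => ({x | ‖F x‖ ≤ c * s}.indicator F) v * Kt t v p) :=
      Gt_Kint (hF.indicator (hset2 s)) (hi.indicator (hset2 s)) (fun v hv => by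
        rw [indicator_apply_eq_zero]; intro _; exact hF0 v hv) t p
    rw [← integral_add j1 j2]
    congr 1
    ext v
    by_cases hv : c * s < ‖F v‖
    · rw [indicator_of_mem (show v ∈ {x | c * s < ‖F x‖} from hv),
        indicator_of_notMem (show v ∉ {x | ‖F x‖ ≤ c * s} from not_le.2 hv)]
      ring
    · rw [indicator_of_notMem (show v ∉ {x | c * s < ‖F x‖} from hv),
        indicator_of_mem (show v ∈ {x | ‖F x‖ ≤ c * s} from not_lt.1 hv)]
      ring
  · intro s _
    exact (Gt_meas (hF.indicator (hset1 s)) t).aestronglyMeasurable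
  · intro s _
    exact (Gt_meas (hF.indicator (hset2 s)) t).aestronglyMeasurable
  · intro s _
    refine (Gt_L2 (hF.indicator (hset1 s)) (hi.indicator (hset1 s)) t).trans ?_
    refine mul_le_mul' hA2' (le_of_eq ?_)
    refine lintegral_congr (fun v => ?_)
    by_cases hv : v ∈ {x | c * s < ‖F x‖}
    · rw [indicator_of_mem hv, indicator_of_mem hv]
    · rw [indicator_of_notMem hv, indicator_of_notMem hv]; simp
  · intro s hs
    refine (h4 t ht _ (hF.indicator (hset2 s)) (c * s) (by positivity) ?_ ?_).trans ?_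
    · intro v
      by_cases hv : v ∈ {x | ‖F x‖ ≤ c * s}
      · rw [indicator_of_mem hv]; exact hv
      · rw [indicator_of_notMem hv, norm_zero]; positivity
    · intro v hv
      rw [indicator_apply_eq_zero]; intro _; exact hF0 v hv
    · refine mul_le_mul' le_rfl (le_of_eq ?_)
      refine lintegral_congr (fun v => ?_)
      by_cases hv : v ∈ {x | ‖F x‖ ≤ c * s}
      · rw [indicator_of_mem hv, indicator_of_mem hv]
      · rw [indicator_of_notMem hv, indicator_of_notMem hv]; simp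

end X92.Sec
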