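import Pool.Agent.X92.Sec13
set_option autoImplicit false
open MeasureTheory Set Complex
open scoped ENNReal ComplexConjugate

namespace X92.Sec

open X92.Ext (ph T sq2 norm_ph ph_eq T_le T_L2 measurable_Tc Phi)

theorem lpq {Ω : Type*} [MeasurableSpace Ω] (μ : Measure Ω) [IsProbabilityMeasure μ] (r q : ℝ) (hr : 0 < r)
    (hrq : r ≤ q) (F : Ω → ℂ) (hF : AEStronglyMeasurable F μ) :
    ∫⁻ v, ‖F v‖ₑ ^ r ∂μ ≤ (∫⁻ v, ‖F v‖ₑ ^ q ∂μ) ^ (r / q) := by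
  have h := eLpNorm'_le_eLpNorm'_of_exponent_le (p := r) (q := q) hr hrq μ hF
  unfold eLpNorm' at h
  have h2 := ENNReal.rpow_le_rpow h hr.le
  rw [← ENNReal.rpow_mul, ← ENNReal.rpow_mul, one_div_mul_cancel hr.ne', ENNReal.rpow_one] at h2
  refine h2.trans (le_of_eq ?_)
  congr 1
  ring

theorem lint01 (g : ℝ → ℝ≥0∞) (h : ∀ v, v ∉ Icc (0 : ℝ) 1 → g v = 0) :
    ∫⁻ v, g v = ∫⁻ v in Icc (0 : ℝ) 1, g v := by
  rw [← lintegral_indicator measurableSet_Icc]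
  refine lintegral_congr (fun v => ?_)
  by_cases hv : v ∈ Icc (0 : ℝ) 1
  · rw [indicator_of_mem hv]
  · rw [indicator_of_notMem hv, h v hv]

theorem hold01 (r q : ℝ) (hr : 1 ≤ r) (hrq : r ≤ q) (F : ℝ → ℂ) (hF : Measurable F)
    (hF0 : ∀ v, v ∉ Icc (0 : ℝ) 1 → F v = 0) :
    (∫⁻ v, ‖F v‖ₑ) ^ (q - r) * ∫⁻ v, ‖F v‖ₑ ^ r ≤ ∫⁻ v, ‖F v‖ₑ ^ q := by
  have hq0 : 0 < q := by linarith
  have : IsProbabilityMeasure (volume.restrict (Icc (0 : ℝ) 1)) := by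
    constructor
    rw [Measure.restrict_apply_univ, Real.volume_Icc]; norm_num
  have e : ∀ s : ℝ, 0 < s → ∫⁻ v, ‖F v‖ₑ ^ s = ∫⁻ v in Icc (0 : ℝ) 1, ‖F v‖ₑ ^ s := by
    intro s hs
    refine lint01 _ (fun v hv => ?_)
    rw [hF0 v hv, enorm_zero, ENNReal.zero_rpow_of_pos hs]
  have e1 : ∫⁻ v, ‖F v‖ₑ = ∫⁻ v in Icc (0 : ℝ) 1, ‖F v‖ₑ ^ (1 : ℝ) := by
    rw [← e 1 one_pos]; simp
  rw [e1, e r (by linarith), e q hq0]
  have h1 := lpq (volume.restrict (Icc (0 : ℝ) 1)) 1 q one_pos (hr.trans hrq) F hF.aestronglyMeasurable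
  have h2 := lpq (volume.restrict (Icc (0 : ℝ) 1)) r q (by linarith) hrq F hF.aestronglyMeasurable
  refine (mul_le_mul' (ENNReal.rpow_le_rpow h1 (by linarith)) h2).trans (le_of_eq ?_)
  rw [← ENNReal.rpow_mul, ← ENNReal.rpow_add_of_nonneg _ _ (by
    have : 0 ≤ q - r := by linarith
    positivity) (by positivity)]
  have : 1 / q * (q - r) + r / q = 1 := by field_simp; ring
  rw [this, ENNReal.rpow_one]

theorem T_conj (f : ℝ × ℝ → ℂ) (p b : ℝ × ℝ) : conj (T f p b) = T (fun x => conj (f x)) (-p) (-b) := by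
  unfold T
  rw [← integral_conj]
  congr 1
  ext x
  rw [map_mul, map_mul, X92.Ext.conj_ph, X92.Ext.conj_ph]
  have e : ∀ a y : ℝ × ℝ, ph a (-y) = ph (-a) y := by
    intro a y
    rw [ph_eq, ph_eq]
    congr 2
    simp
  rw [e, e]

theorem Phi_conj (q : ℝ) (f : ℝ × ℝ → ℂ) (b : ℝ × ℝ) : Phi q f b = Phi q (fun x => conj (f x)) (-b) := by
  unfold Phi
  rw [← lintegral_neg_eq_self (fun p : ℝ × ℝ => ‖T (fun x => conj (f x)) p (-b)‖ₑ ^ q)]
  refine lintegral_congr (fun p => ?_)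
  rw [← T_conj, ← ofReal_norm, ← ofReal_norm, RCLike.norm_conj]

theorem wF_conj (F : ℝ → ℂ) : (fun x => conj (wF F x)) = wF (fun v => conj (F v)) := by
  ext x
  unfold wF
  rw [map_mul, Complex.conj_ofReal]

theorem Phi_eq (q : ℝ) {F : ℝ → ℂ} (hF : Measurable F) (hi : Integrable F) (t : ℝ) :
    Phi q (wF F) (t, t) = ∫⁻ p, ‖Gt t F p‖ₑ ^ q := by
  unfold Phi
  simp_rw [T_eq hF hi]

theorem R0 (q : ℝ) (hq3 : 3 < q) (hq4 : q < 4) :
    ∃ C : ℝ, 0 < C ∧ ∀ F : ℝ → ℂ, Measurable F → Integrable F → (∀ v, v ∉ Icc (0 : ℝ) 1 → F v = 0) →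
      ∀ t : ℝ, Phi q (wF F) (t, t) ≤ ENNReal.ofReal (C * (1 + ‖t‖) ^ (-((q - 1) / 2))) * ∫⁻ v, ‖F v‖ₑ ^ q := by
  set ε : ℝ := (q - 3) / (2 * (q - 2)) with hε
  have hq2 : 0 < q - 2 := by linarith
  have hε0 : 0 < ε := div_pos (by linarith) (by linarith)
  have hε1 : ε < 1 := by rw [hε, div_lt_one (by linarith)]; linarith
  have hea : (1 - ε) * (q - 2) = (q - 1) / 2 := by
    rw [hε]; field_simp; ring
  obtain ⟨C1, hC1, h1⟩ := fixed_t q ε (by linarith) hq4 hε0 hε1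
  rw [hea] at h1
  set a : ℝ := (q - 1) / 2 with ha
  have ha0 : 0 < a := by rw [ha]; linarith
  have hN1 := N1_fin
  have hN2 := N2_fin
  set C2 : ℝ := (N1 ^ (q - 2) * (ENNReal.ofReal (8 * Real.pi ^ 2) * N2)).toReal with hC2
  have hC2t : N1 ^ (q - 2) * (ENNReal.ofReal (8 * Real.pi ^ 2) * N2) ≠ ⊤ :=
    ENNReal.mul_ne_top (ENNReal.rpow_ne_top_of_nonneg (by linarith) hN1)
      (ENNReal.mul_ne_top ENNReal.ofReal_ne_top hN2)
  refine ⟨(C1 + C2) * 2 ^ a, by positivity, ?_⟩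
  -- t ≥ 1
  have hpos : ∀ F : ℝ → ℂ, Measurable F → Integrable F → (∀ v, v ∉ Icc (0 : ℝ) 1 → F v = 0) →
      ∀ t : ℝ, 1 ≤ t → Phi q (wF F) (t, t) ≤
        ENNReal.ofReal ((C1 + C2) * 2 ^ a * (1 + t) ^ (-a)) * ∫⁻ v, ‖F v‖ₑ ^ q := by
    intro F hF hi hF0 t ht
    rw [Phi_eq q hF hi]
    refine (h1 t ht F hF hi hF0).trans (mul_le_mul' (ENNReal.ofReal_le_ofReal ?_) le_rfl)
    have ht0 : 0 < t := by linarith
    have g1 : t ^ (-a) ≤ 2 ^ a * (1 + t) ^ (-a) := by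
      have g2 : (2 * t) ^ (-a) ≤ (1 + t) ^ (-a) := Real.rpow_le_rpow_of_nonpos (by linarith) (by linarith) (by linarith)
      rw [Real.mul_rpow (by norm_num) ht0.le] at g2
      have g3 : (2 : ℝ) ^ a * 2 ^ (-a) = 1 := by
        rw [← Real.rpow_add (by norm_num)]; simp
      calc t ^ (-a) = 2 ^ a * (2 ^ (-a) * t ^ (-a)) := by rw [← mul_assoc, g3, one_mul]
        _ ≤ _ := mul_le_mul_of_nonneg_left g2 (by positivity)
    have hC2n : 0 ≤ C2 := ENNReal.toReal_nonneg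
    calc C1 * t ^ (-a) ≤ C1 * (2 ^ a * (1 + t) ^ (-a)) := mul_le_mul_of_nonneg_left g1 hC1.le
      _ ≤ (C1 + C2) * (2 ^ a * (1 + t) ^ (-a)) := mul_le_mul_of_nonneg_right (by linarith) (by positivity)
      _ = _ := by ring
  intro F hF hi hF0 t
  rcases le_total 1 t with ht | ht
  · have := hpos F hF hi hF0 t ht
    rw [Real.norm_of_nonneg (by linarith : 0 ≤ t)]
    exact this
  rcases le_total t (-1) with ht' | ht'
  · rw [Phi_conj, wF_conj]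
    have hcm : Measurable (fun v => conj (F v)) := Complex.continuous_conj.measurable.comp hF
    have hci : Integrable (fun v => conj (F v)) := by
      refine hi.norm.mono' hcm.aestronglyMeasurable (Filter.Eventually.of_forall (fun v => ?_))
      rw [RCLike.norm_conj]
    have := hpos (fun v => conj (F v)) hcm hci (fun v hv => by rw [hF0 v hv, map_zero]) (-t) (by linarith)
    have e1 : -(t, t) = (-t, -t) := rfl
    rw [e1]
    refine this.trans (le_of_eq ?_)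
    congr 1
    · congr 3
      rw [Real.norm_of_nonpos (by linarith)]
    · refine lintegral_congr (fun v => ?_)
      rw [← ofReal_norm, RCLike.norm_conj, ofReal_norm]
  · rw [Phi_eq q hF hi]
    have g1 : ∫⁻ p, ‖Gt t F p‖ₑ ^ q ≤ (N1 * ∫⁻ v, ‖F v‖ₑ) ^ (q - 2) * ∫⁻ p, ‖Gt t F p‖ₑ ^ 2 := by
      rw [← lintegral_const_mul' _ _ (ENNReal.rpow_ne_top_of_nonneg (by linarith) (ENNReal.mul_ne_top hN1 hi.2.ne))]
      refine lintegral_mono (fun p => ?_)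
      have e1 : ‖Gt t F p‖ₑ ^ q = ‖Gt t F p‖ₑ ^ (q - 2) * ‖Gt t F p‖ₑ ^ 2 := by
        rw [← ENNReal.rpow_natCast, ← ENNReal.rpow_add_of_nonneg _ _ (by linarith) (by norm_num)]
        congr 1; push_cast; ring
      rw [e1]
      exact mul_le_mul' (ENNReal.rpow_le_rpow (Gt_sup hF hi t p) (by linarith)) le_rfl
    have g2 := Gt_L2 hF hi t
    have g3 := hold01 2 q (by norm_num) (by linarith) F hF hF0
    have e2 : ∀ v, ‖F v‖ₑ ^ (2 : ℝ) = ‖F v‖ₑ ^ 2 := by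
      intro v; rw [← ENNReal.rpow_natCast]; norm_num
    simp_rw [e2] at g3
    calc ∫⁻ p, ‖Gt t F p‖ₑ ^ q ≤ (N1 * ∫⁻ v, ‖F v‖ₑ) ^ (q - 2) *
          ((ENNReal.ofReal (8 * Real.pi ^ 2) * N2) * ∫⁻ v, ‖F v‖ₑ ^ 2) := g1.trans (mul_le_mul' le_rfl g2)
      _ = (N1 ^ (q - 2) * (ENNReal.ofReal (8 * Real.pi ^ 2) * N2)) *
          ((∫⁻ v, ‖F v‖ₑ) ^ (q - 2) * ∫⁻ v, ‖F v‖ₑ ^ 2) := by
          rw [ENNReal.mul_rpow_of_nonneg _ _ (by linarith)]; ring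
      _ ≤ (N1 ^ (q - 2) * (ENNReal.ofReal (8 * Real.pi ^ 2) * N2)) * ∫⁻ v, ‖F v‖ₑ ^ q := mul_le_mul' le_rfl g3
      _ ≤ _ := by
          refine mul_le_mul' ?_ le_rfl
          rw [← ENNReal.ofReal_toReal hC2t, ← hC2]
          refine ENNReal.ofReal_le_ofReal ?_
          have hn : 1 + ‖t‖ ≤ 2 := by
            have : ‖t‖ ≤ 1 := abs_le.2 ⟨ht', ht⟩
            linarith
          have hn0 : 0 < 1 + ‖t‖ := by positivity
          have g4 : (2 : ℝ) ^ (-a) ≤ (1 + ‖t‖) ^ (-a) := Real.rpow_le_rpow_of_nonpos hn0 hn (by linarith)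
          have g5 : (2 : ℝ) ^ a * 2 ^ (-a) = 1 := by
            rw [← Real.rpow_add (by norm_num)]; simp
          have hC2n : 0 ≤ C2 := ENNReal.toReal_nonneg
          calc C2 ≤ (C1 + C2) * (2 ^ a * 2 ^ (-a)) := by rw [g5]; linarith
            _ = (C1 + C2) * 2 ^ a * 2 ^ (-a) := by ring
            _ ≤ _ := mul_le_mul_of_nonneg_left g4 (by positivity)

/-- The basic estimate: functions of the slope with the Gaussian weight. -/
theorem R1 (q : ℝ) (hq3 : 3 < q) (hq4 : q < 4) :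
    ∃ C : ℝ, 0 < C ∧ ∀ F : ℝ → ℂ, Measurable F → Integrable F → (∀ v, v ∉ Icc (0 : ℝ) 1 → F v = 0) →
      ∫⁻ t : ℝ, Phi q (wF F) (t, t) ≤ ENNReal.ofReal C * ∫⁻ v, ‖F v‖ₑ ^ q := by
  obtain ⟨C, hC, h⟩ := R0 q hq3 hq4
  have hint : Integrable (fun t : ℝ => (1 + ‖t‖) ^ (-((q - 1) / 2))) :=
    integrable_one_add_norm (by rw [Module.finrank_self]; push_cast; linarith)
  set I := ∫ t : ℝ, (1 + ‖t‖) ^ (-((q - 1) / 2)) with hI
  have hIn : 0 ≤ I := integral_nonneg (fun t => by positivity)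
  refine ⟨C * (I + 1), by positivity, ?_⟩
  intro F hF hi hF0
  calc ∫⁻ t : ℝ, Phi q (wF F) (t, t) ≤
        ∫⁻ t : ℝ, ENNReal.ofReal (C * (1 + ‖t‖) ^ (-((q - 1) / 2))) * ∫⁻ v, ‖F v‖ₑ ^ q :=
        lintegral_mono (h F hF hi hF0)
    _ = (∫⁻ t : ℝ, ENNReal.ofReal (C * (1 + ‖t‖) ^ (-((q - 1) / 2)))) * ∫⁻ v, ‖F v‖ₑ ^ q := by
        have hm : Measurable (fun t : ℝ => ENNReal.ofReal (C * (1 + ‖t‖) ^ (-((q - 1) / 2)))) :=
          ENNReal.measurable_ofReal.comp (((measurable_norm.const_add 1).pow_const _).const_mul C)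
        rw [lintegral_mul_const _ hm]
    _ ≤ _ := by
        refine mul_le_mul' ?_ le_rfl
        rw [← ofReal_integral_eq_lintegral_ofReal (hint.const_mul C)
          (Filter.Eventually.of_forall (fun t => by positivity)), integral_const_mul]
        refine ENNReal.ofReal_le_ofReal ?_
        rw [← hI]
        nlinarith

end X92.Sec
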