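import Pool.Agent.X92.Sec14
set_option autoImplicit false
open MeasureTheory Set Complex
open scoped ENNReal ComplexConjugate FourierTransform SchwartzMap ContDiff

namespace X92.Sec

open X92.Ext (ph T sq2 norm_ph ph_eq T_le T_L2 measurable_Tc Phi)

/-- Multiplication by a superposition of characters. -/
theorem mult_gen (q : ℝ) (hq : 1 < q) (m : ℝ → ℂ) (hm : Integrable m) (φ : ℝ → ℝ × ℝ) (hφ : Continuous φ)
    (g : ℝ × ℝ → ℂ) (hgm : Measurable g) (hg : Integrable g) (b : ℝ × ℝ) :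
    Phi q (fun x => (∫ η, m η * ph (φ η) x) * g x) b ≤ (∫⁻ η, ‖m η‖ₑ) ^ q * Phi q g b := by
  have hmf : ∫⁻ η, ‖m η‖ₑ ≠ ⊤ := hm.2.ne
  have hφm : Measurable φ := hφ.measurable
  -- the identity
  have hid : ∀ p : ℝ × ℝ, T (fun x => (∫ η, m η * ph (φ η) x) * g x) p b = ∫ η, m η * T g (p + φ η) b := by
    intro p
    unfold T
    have hG : Integrable (fun x => g x * (ph p x * ph b (sq2 x))) := by
      have h1 := X92.Ext.integrable_mod _ (X92.Ext.integrable_mod g hg p (fun x => x) continuous_id) b sq2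
        X92.Ext.continuous_sq2
      refine h1.congr (Filter.Eventually.of_forall (fun x => ?_))
      simp only
      ring
    have hprod : Integrable (Function.uncurry (fun (x : ℝ × ℝ) (η : ℝ) =>
        (g x * (ph p x * ph b (sq2 x))) * m η * ph (φ η) x))
        ((volume : Measure (ℝ × ℝ)).prod (volume : Measure ℝ)) := by
      have h1 := hG.mul_prod hm
      have hc : Continuous (fun z : (ℝ × ℝ) × ℝ => ph (φ z.2) z.1) :=
        X92.Ext.continuous_ph.comp (by fun_prop : Continuous (fun z : (ℝ × ℝ) × ℝ => (φ z.2, z.1)))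
      have h2 := h1.bdd_mul (c := 1) hc.aestronglyMeasurable (Filter.Eventually.of_forall (fun z => (norm_ph _ _).le))
      refine h2.congr (Filter.Eventually.of_forall (fun z => ?_))
      simp only [Function.uncurry]
      ring
    calc ∫ x, (∫ η, m η * ph (φ η) x) * g x * (ph p x * ph b (sq2 x))
        = ∫ x, ∫ η, (g x * (ph p x * ph b (sq2 x))) * m η * ph (φ η) x := by
          congr 1; ext x
          rw [mul_assoc, mul_comm, ← integral_const_mul]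
          congr 1; ext η; ring
      _ = ∫ η, ∫ x, (g x * (ph p x * ph b (sq2 x))) * m η * ph (φ η) x := integral_integral_swap hprod
      _ = _ := by
          congr 1; ext η
          rw [← integral_const_mul]
          congr 1; ext x
          have : ph (p + φ η) x = ph p x * ph (φ η) x := by
            rw [ph_eq, ph_eq, ph_eq, ← Complex.exp_add]
            congr 1
            simp only [Prod.fst_add, Prod.snd_add]
            push_cast; ring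
          rw [this]; ring
  have hgT0 : Measurable (fun z : (ℝ × ℝ) × ℝ => T g (z.1 + φ z.2) b) :=
    measurable_Tc (Z := (ℝ × ℝ) × ℝ) g hgm (fun z : (ℝ × ℝ) × ℝ => z.1 + φ z.2)
      (fun _ : (ℝ × ℝ) × ℝ => b) (measurable_fst.add (hφm.comp measurable_snd)) measurable_const
  have hq0 : 0 < q := by linarith
  have hpt : ∀ p : ℝ × ℝ, ‖T (fun x => (∫ η, m η * ph (φ η) x) * g x) p b‖ₑ ^ q ≤
      (∫⁻ η, ‖m η‖ₑ) ^ (q - 1) * ∫⁻ η, ‖m η‖ₑ * ‖T g (p + φ η) b‖ₑ ^ q := by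
    intro p
    rw [hid p]
    have hTp : Measurable (fun η : ℝ => T g (p + φ η) b) :=
      measurable_Tc (Z := ℝ) g hgm (fun η : ℝ => p + φ η) (fun _ : ℝ => b)
        (measurable_const.add hφm) measurable_const
    have h1 : ‖∫ η, m η * T g (p + φ η) b‖ₑ ≤ ∫⁻ η, ‖m η‖ₑ ^ (1 - 1 / q) * (‖m η‖ₑ * ‖T g (p + φ η) b‖ₑ ^ q) ^ (1 / q) := by
      refine (enorm_integral_le_lintegral_enorm _).trans (le_of_eq ?_)
      refine lintegral_congr (fun η => ?_)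
      have hinv : 0 ≤ 1 / q := by positivity
      have hinv2 : 0 ≤ 1 - 1 / q := by
        have : 1 / q ≤ 1 := by rw [div_le_one hq0]; linarith
        linarith
      rw [enorm_mul, ENNReal.mul_rpow_of_nonneg _ _ hinv, ← ENNReal.rpow_mul, ← mul_assoc,
        ← ENNReal.rpow_add_of_nonneg _ _ hinv2 hinv]
      have e1 : 1 - 1 / q + 1 / q = 1 := by ring
      have e2 : q * (1 / q) = 1 := by field_simp
      rw [e1, e2, ENNReal.rpow_one, ENNReal.rpow_one]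
    have h2 := ENNReal.lintegral_mul_norm_pow_le (μ := (volume : Measure ℝ))
      (f := fun η => ‖m η‖ₑ) (g := fun η => ‖m η‖ₑ * ‖T g (p + φ η) b‖ₑ ^ q)
      hm.aestronglyMeasurable.enorm (hm.aestronglyMeasurable.enorm.mul (hTp.enorm.pow_const q).aemeasurable)
      (p := 1 - 1 / q) (q := 1 / q)
      (by
        have : 1 / q ≤ 1 := by rw [div_le_one hq0]; linarith
        linarith) (by positivity) (by ring)
    have h3 := ENNReal.rpow_le_rpow (h1.trans h2) hq0.le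
    refine h3.trans (le_of_eq ?_)
    rw [ENNReal.mul_rpow_of_nonneg _ _ hq0.le, ← ENNReal.rpow_mul, ← ENNReal.rpow_mul]
    have e1 : (1 - 1 / q) * q = q - 1 := by field_simp
    have e2 : 1 / q * q = 1 := by field_simp
    rw [e1, e2, ENNReal.rpow_one]
  have hmq : (∫⁻ η, ‖m η‖ₑ) ^ (q - 1) ≠ ⊤ := ENNReal.rpow_ne_top_of_nonneg (by linarith) hmf
  have hshift : ∀ η : ℝ, ∫⁻ p : ℝ × ℝ, ‖m η‖ₑ * ‖T g (p + φ η) b‖ₑ ^ q = ‖m η‖ₑ * Phi q g b := by
    intro η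
    have hTη0 : Measurable (fun p : ℝ × ℝ => T g (p + φ η) b) :=
      measurable_Tc (Z := ℝ × ℝ) g hgm (fun p : ℝ × ℝ => p + φ η) (fun _ : ℝ × ℝ => b)
        (measurable_id.add measurable_const) measurable_const
    have hTη : Measurable (fun p : ℝ × ℝ => ‖T g (p + φ η) b‖ₑ ^ q) := hTη0.enorm.pow_const q
    rw [lintegral_const_mul _ hTη]
    congr 1
    exact lintegral_add_right_eq_self (fun p : ℝ × ℝ => ‖T g p b‖ₑ ^ q) (φ η)
  calc Phi q (fun x => (∫ η, m η * ph (φ η) x) * g x) b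
      ≤ ∫⁻ p : ℝ × ℝ, (∫⁻ η, ‖m η‖ₑ) ^ (q - 1) * ∫⁻ η, ‖m η‖ₑ * ‖T g (p + φ η) b‖ₑ ^ q := lintegral_mono hpt
    _ = (∫⁻ η, ‖m η‖ₑ) ^ (q - 1) * ∫⁻ p : ℝ × ℝ, ∫⁻ η, ‖m η‖ₑ * ‖T g (p + φ η) b‖ₑ ^ q :=
        lintegral_const_mul' _ _ hmq
    _ = (∫⁻ η, ‖m η‖ₑ) ^ (q - 1) * ∫⁻ η : ℝ, ∫⁻ p : ℝ × ℝ, ‖m η‖ₑ * ‖T g (p + φ η) b‖ₑ ^ q := by
        congr 1
        refine lintegral_lintegral_swap ?_
        exact (hm.aestronglyMeasurable.comp_snd).enorm.mul (hgT0.enorm.pow_const q).aemeasurable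
    _ = (∫⁻ η, ‖m η‖ₑ) ^ (q - 1) * ((∫⁻ η, ‖m η‖ₑ) * Phi q g b) := by
        congr 1
        simp_rw [hshift]
        rw [lintegral_mul_const'' _ hm.aestronglyMeasurable.enorm]
    _ = _ := by
        rw [← mul_assoc]
        congr 1
        have e3 : (∫⁻ η, ‖m η‖ₑ) ^ q = (∫⁻ η, ‖m η‖ₑ) ^ ((q - 1) + 1) := by congr 1; ring
        rw [e3, ENNReal.rpow_add_of_nonneg _ _ (by linarith) (by norm_num), ENNReal.rpow_one]

/-- smooth compactly supported functions are Fourier transforms of integrable functions -/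
theorem rep (ϕ : ℝ → ℂ) (h1 : ContDiff ℝ ∞ ϕ) (h2 : HasCompactSupport ϕ) :
    ∃ m : ℝ → ℂ, Integrable m ∧ ∀ y : ℝ, ϕ y = ∫ ξ, m ξ * cexp ((2 * Real.pi * (ξ * y) : ℝ) * I) := by
  set G : 𝓢(ℝ, ℂ) := h2.toSchwartzMap h1 with hG
  have hGe : ∀ x, G x = ϕ x := fun x => rfl
  refine ⟨fun ξ => (𝓕 G) ξ, (𝓕 G).integrable, fun y => ?_⟩
  have h3 : 𝓕⁻ (𝓕 G) = G := by simp
  have h4 : ((𝓕⁻ (𝓕 G) : 𝓢(ℝ, ℂ)) : ℝ → ℂ) y = 𝓕⁻ ((𝓕 G : 𝓢(ℝ, ℂ)) : ℝ → ℂ) y := by
    rw [SchwartzMap.fourierInv_coe]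
  have h5 : G y = 𝓕⁻ ((𝓕 G : 𝓢(ℝ, ℂ)) : ℝ → ℂ) y := by rw [← h4, h3]
  rw [← hGe y, h5, Real.fourierInv_eq']
  refine integral_congr_ae (Filter.Eventually.of_forall (fun ξ => ?_))
  simp only [smul_eq_mul]
  rw [mul_comm]
  congr 2
  simp [mul_comm]

/-- multiplication by a function of an affine function of `x₁`, uniformly -/
theorem mult1 (q : ℝ) (hq : 1 < q) (ϕ : ℝ → ℂ) (h1 : ContDiff ℝ ∞ ϕ) (h2 : HasCompactSupport ϕ) :
    ∃ C : ℝ, 0 < C ∧ ∀ (a c : ℝ) (g : ℝ × ℝ → ℂ), Measurable g → Integrable g → ∀ b : ℝ × ℝ,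
      Phi q (fun x => ϕ (a * x.1 + c) * g x) b ≤ ENNReal.ofReal C * Phi q g b := by
  obtain ⟨m, hm, hr⟩ := rep ϕ h1 h2
  have hmf : ∫⁻ η, ‖m η‖ₑ ≠ ⊤ := hm.2.ne
  have hmq : (∫⁻ η, ‖m η‖ₑ) ^ q ≠ ⊤ := ENNReal.rpow_ne_top_of_nonneg (by linarith) hmf
  refine ⟨((∫⁻ η, ‖m η‖ₑ) ^ q).toReal + 1, by positivity, ?_⟩
  intro a c g hgm hg b
  set m' : ℝ → ℂ := fun ξ => m ξ * cexp ((2 * Real.pi * (ξ * c) : ℝ) * I) with hm'
  have hn : ∀ ξ, ‖m' ξ‖ = ‖m ξ‖ := by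
    intro ξ
    rw [hm']
    simp only
    rw [norm_mul, Complex.norm_exp_ofReal_mul_I, mul_one]
  have hm'i : Integrable m' := by
    refine hm.norm.mono' ?_ (Filter.Eventually.of_forall (fun ξ => (hn ξ).le))
    refine hm.aestronglyMeasurable.mul ?_
    exact (by fun_prop : Continuous (fun ξ : ℝ => cexp ((2 * Real.pi * (ξ * c) : ℝ) * I))).aestronglyMeasurable
  have h := mult_gen q hq m' hm'i (fun ξ => (-(2 * Real.pi * a * ξ), 0)) (by fun_prop) g hgm hg b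
  have e1 : (fun x : ℝ × ℝ => (∫ η, m' η * ph (-(2 * Real.pi * a * η), 0) x) * g x) =
      fun x => ϕ (a * x.1 + c) * g x := by
    ext x
    rw [hr]
    congr 1
    congr 1
    ext ξ
    rw [hm']
    simp only
    rw [ph_eq, mul_assoc, ← Complex.exp_add]
    congr 2
    push_cast
    ring
  rw [e1] at h
  refine h.trans (mul_le_mul' ?_ le_rfl)
  have e2 : ∫⁻ η, ‖m' η‖ₑ = ∫⁻ η, ‖m η‖ₑ := by
    refine lintegral_congr (fun ξ => ?_)
    rw [← ofReal_norm, ← ofReal_norm, hn]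
  rw [e2, ← ENNReal.ofReal_toReal hmq]
  refine ENNReal.ofReal_le_ofReal ?_
  rw [ENNReal.toReal_ofReal ENNReal.toReal_nonneg]
  linarith

end X92.Sec
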