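import Pool.Agent.X92.Sec15
set_option autoImplicit false
open MeasureTheory Set Complex
open scoped ENNReal ComplexConjugate ContDiff Topology

namespace X92.Sec

open X92.Ext (ph T sq2 norm_ph ph_eq T_le T_L2 measurable_Tc Phi)

/-- smooth step: `0` for `y ≤ 1/2`, `1` for `y ≥ 1` -/
noncomputable def th (y : ℝ) : ℝ := Real.smoothTransition (2 * y - 1)

theorem th_zero {y : ℝ} (h : y ≤ 1 / 2) : th y = 0 := Real.smoothTransition.zero_of_nonpos (by linarith)
theorem th_one {y : ℝ} (h : 1 ≤ y) : th y = 1 := Real.smoothTransition.one_of_one_le (by linarith)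
theorem th_nonneg (y : ℝ) : 0 ≤ th y := Real.smoothTransition.nonneg _
theorem th_le (y : ℝ) : th y ≤ 1 := Real.smoothTransition.le_one _
theorem th_smooth : ContDiff ℝ ∞ th := by
  unfold th
  exact Real.smoothTransition.contDiff.comp (by fun_prop)

/-- dyadic bump, supported in `[1/4, 1]` -/
noncomputable def bp (y : ℝ) : ℝ := th (2 * y) - th y

theorem bp_low {y : ℝ} (h : y ≤ 1 / 4) : bp y = 0 := by
  unfold bp; rw [th_zero (by linarith), th_zero (by linarith), sub_zero]
theorem bp_high {y : ℝ} (h : 1 ≤ y) : bp y = 0 := by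
  unfold bp; rw [th_one (by linarith), th_one (by linarith), sub_self]
theorem bp_abs (y : ℝ) : |bp y| ≤ 1 := by
  unfold bp
  rw [abs_le]
  constructor <;> linarith [th_nonneg y, th_nonneg (2 * y), th_le y, th_le (2 * y)]
theorem bp_smooth : ContDiff ℝ ∞ bp := by
  unfold bp
  exact (th_smooth.comp (by fun_prop)).sub th_smooth

/-- middle bump, supported in `[1/4, 3/4]` -/
noncomputable def mp (x : ℝ) : ℝ := th (2 * x) * th (2 - 2 * x)

theorem mp_low {y : ℝ} (h : y ≤ 1 / 4) : mp y = 0 := by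
  unfold mp; rw [th_zero (by linarith : 2 * y ≤ 1 / 2), zero_mul]
theorem mp_high {y : ℝ} (h : 3 / 4 ≤ y) : mp y = 0 := by
  unfold mp; rw [th_zero (by linarith : 2 - 2 * y ≤ 1 / 2), mul_zero]
theorem mp_abs (y : ℝ) : |mp y| ≤ 1 := by
  unfold mp
  rw [abs_mul, abs_of_nonneg (th_nonneg _), abs_of_nonneg (th_nonneg _)]
  exact mul_le_one₀ (th_le _) (th_nonneg _) (th_le _)
theorem mp_smooth : ContDiff ℝ ∞ mp := by
  unfold mp
  exact (th_smooth.comp (by fun_prop)).mul (th_smooth.comp (by fun_prop))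

/-- the dyadic sum -/
theorem bp_hasSum (y : ℝ) : HasSum (fun k : ℕ => bp (2 ^ (k + 1) * y)) (if 0 < y then 1 - th (2 * y) else 0) := by
  split_ifs with h
  · obtain ⟨K, hK⟩ := pow_unbounded_of_one_lt (1 / y) (by norm_num : (1 : ℝ) < 2)
    have hK1 : 1 ≤ 2 ^ K * y := by
      rw [div_lt_iff₀ h] at hK
      exact hK.le
    have hz : ∀ k : ℕ, k ∉ Finset.range K → bp (2 ^ (k + 1) * y) = 0 := by
      intro k hk
      rw [Finset.mem_range, not_lt] at hk
      refine bp_high (hK1.trans ?_)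
      refine mul_le_mul_of_nonneg_right ?_ h.le
      exact pow_le_pow_right₀ (by norm_num) (by omega)
    have hs : HasSum (fun k : ℕ => bp (2 ^ (k + 1) * y)) (∑ k ∈ Finset.range K, bp (2 ^ (k + 1) * y)) :=
      hasSum_sum_of_ne_finset_zero hz
    have ht : ∀ n : ℕ, ∑ k ∈ Finset.range n, bp (2 ^ (k + 1) * y) = th (2 ^ (n + 1) * y) - th (2 * y) := by
      intro n
      induction n with
      | zero => simp
      | succ n ih =>
        rw [Finset.sum_range_succ, ih]
        unfold bp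
        have e : 2 * (2 ^ (n + 1) * y) = 2 ^ (n + 1 + 1) * y := by ring
        rw [e]; ring
    rw [ht K] at hs
    have h1 : th (2 ^ (K + 1) * y) = 1 := by
      refine th_one (hK1.trans ?_)
      exact mul_le_mul_of_nonneg_right (pow_le_pow_right₀ (by norm_num) (by omega)) h.le
    rw [h1] at hs
    exact hs
  · have hz : ∀ k : ℕ, bp (2 ^ (k + 1) * y) = 0 := by
      intro k
      refine bp_low ?_
      have : 2 ^ (k + 1) * y ≤ 0 := mul_nonpos_of_nonneg_of_nonpos (by positivity) (not_lt.1 h)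
      linarith
    simp_rw [hz]
    exact hasSum_zero

theorem part_one (x : ℝ) : mp x + (∑' k : ℕ, bp (2 ^ (k + 1) * x)) + (∑' k : ℕ, bp (2 ^ (k + 1) * (1 - x))) =
    (Ioo (0 : ℝ) 1).indicator (fun _ => (1 : ℝ)) x := by
  rw [(bp_hasSum x).tsum_eq, (bp_hasSum (1 - x)).tsum_eq]
  by_cases h0 : 0 < x
  · by_cases h1 : x < 1
    · rw [indicator_of_mem (show x ∈ Ioo (0 : ℝ) 1 from ⟨h0, h1⟩), if_pos h0, if_pos (by linarith)]
      unfold mp
      have e : 2 * (1 - x) = 2 - 2 * x := by ring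
      rw [e]
      rcases le_total x (1 / 2) with h | h
      · rw [th_one (by linarith : 1 ≤ 2 - 2 * x)]; ring
      · rw [th_one (by linarith : 1 ≤ 2 * x)]; ring
    · rw [indicator_of_notMem (fun h => h1 h.2), if_pos h0, if_neg (by linarith)]
      rw [mp_high (by linarith), th_one (by linarith)]; ring
  · rw [indicator_of_notMem (fun h => h0 h.1), if_neg h0, if_pos (by linarith)]
    rw [mp_low (by linarith), th_one (by linarith)]; ring

/-- smooth cutoff, `1` on `[1/4, 1]` -/
noncomputable def ch (x : ℝ) : ℝ := th (4 * x) * th (2 - x)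

theorem ch_one {x : ℝ} (h1 : 1 / 4 ≤ x) (h2 : x ≤ 1) : ch x = 1 := by
  unfold ch; rw [th_one (by linarith), th_one (by linarith)]; norm_num
theorem ch_low {x : ℝ} (h1 : x ≤ 1 / 8) : ch x = 0 := by
  unfold ch; rw [th_zero (by linarith), zero_mul]
theorem ch_high {x : ℝ} (h1 : 3 / 2 ≤ x) : ch x = 0 := by
  unfold ch; rw [th_zero (by linarith : 2 - x ≤ 1 / 2), mul_zero]
theorem ch_smooth : ContDiff ℝ ∞ ch := by
  unfold ch
  exact (th_smooth.comp (by fun_prop)).mul (th_smooth.comp (by fun_prop))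

theorem w0_pos {x : ℝ} (hx : x ≠ 0) : 0 < w0 x := by
  unfold w0
  rw [sub_pos]
  refine Real.exp_lt_exp.2 ?_
  have : 0 < x ^ 2 := by positivity
  nlinarith

/-- the inverse of the weight, cut off -/
noncomputable def zz (x : ℝ) : ℝ := ch x * (x / w0 x)

theorem zz_smooth : ContDiff ℝ ∞ zz := by
  rw [contDiff_iff_contDiffAt]
  intro x
  rcases lt_or_ge (1 / 16) x with h | h
  · unfold zz
    refine ch_smooth.contDiffAt.mul (contDiffAt_id.div ?_ (w0_pos (by linarith)).ne')
    unfold w0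
    fun_prop
  · have he : zz =ᶠ[𝓝 x] fun _ => 0 := by
      filter_upwards [Iio_mem_nhds (show x < 1 / 8 by linarith)] with y hy
      unfold zz
      rw [ch_low (le_of_lt hy), zero_mul]
    exact (contDiffAt_const (c := (0 : ℝ))).congr_of_eventuallyEq he

theorem zz_supp : HasCompactSupport zz := by
  refine HasCompactSupport.of_support_subset_isCompact (isCompact_Icc (a := (1 / 8 : ℝ)) (b := 3 / 2)) ?_
  intro x hx
  rw [Function.mem_support] at hx
  by_contra hc
  rw [mem_Icc, not_and_or, not_le, not_le] at hc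
  apply hx
  unfold zz
  rcases hc with hc | hc
  · rw [ch_low hc.le, zero_mul]
  · rw [ch_high hc.le, zero_mul]

theorem zz_ww {x : ℝ} (h1 : 1 / 4 ≤ x) (h2 : x ≤ 1) : zz x * ww x = 1 := by
  unfold zz ww
  have hx : 0 < x := by linarith
  have := (w0_pos hx.ne').ne'
  rw [ch_one h1 h2, abs_of_pos hx]
  field_simp

theorem zz_zero {x : ℝ} (h : x ≤ 1 / 8 ∨ 3 / 2 ≤ x) : zz x = 0 := by
  unfold zz
  rcases h with h | h
  · rw [ch_low h, zero_mul]
  · rw [ch_high h, zero_mul]

end X92.Sec
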