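import Pool.Agent.X92.Sec16
set_option autoImplicit false
open MeasureTheory Set Complex
open scoped ENNReal ComplexConjugate ContDiff Topology

namespace X92.Sec

open X92.Ext (ph T sq2 norm_ph ph_eq T_le T_L2 measurable_Tc Phi)

/-- the `q`-th power of the `L^q(ℝ³)` norm of the extension -/
noncomputable def Psi (q : ℝ) (f : ℝ × ℝ → ℂ) : ℝ≥0∞ := ∫⁻ t : ℝ, Phi q f (t, t)

/-- a function of `x₁` times a function of the slope -/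
noncomputable def cF (κ : ℝ → ℝ) (F : ℝ → ℂ) (x : ℝ × ℝ) : ℂ := (κ x.1 : ℂ) * F (x.2 / x.1)

theorem cF_meas {κ : ℝ → ℝ} (hκ : Measurable κ) {F : ℝ → ℂ} (hF : Measurable F) : Measurable (cF κ F) := by
  unfold cF
  exact (Complex.measurable_ofReal.comp (hκ.comp measurable_fst)).mul (hF.comp (measurable_snd.div measurable_fst))

theorem cF_pow {κ : ℝ → ℝ} (hκ : Measurable κ) {F : ℝ → ℂ} (hF : Measurable F) (q : ℝ) (hq : 0 < q) :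
    ∫⁻ x, ‖cF κ F x‖ₑ ^ q = (∫⁻ x : ℝ, ENNReal.ofReal |x| * ‖κ x‖ₑ ^ q) * ∫⁻ v, ‖F v‖ₑ ^ q := by
  have h := lint_sec (fun z => ‖κ z.1‖ₑ ^ q * ‖F z.2‖ₑ ^ q)
    (((hκ.enorm.comp measurable_fst).pow_const q).mul ((hF.enorm.comp measurable_snd).pow_const q))
  have e1 : ∀ x : ℝ × ℝ, ‖cF κ F x‖ₑ ^ q = ‖κ x.1‖ₑ ^ q * ‖F (x.2 / x.1)‖ₑ ^ q := by
    intro x
    unfold cF
    rw [enorm_mul, ENNReal.mul_rpow_of_nonneg _ _ hq.le]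
    congr 2
    rw [← ofReal_norm, ← ofReal_norm, Complex.norm_real]
  simp_rw [e1]
  refine h.trans ?_
  simp only
  have e2 : ∀ x : ℝ, ENNReal.ofReal |x| * ∫⁻ v, ‖κ x‖ₑ ^ q * ‖F v‖ₑ ^ q =
      (ENNReal.ofReal |x| * ‖κ x‖ₑ ^ q) * ∫⁻ v, ‖F v‖ₑ ^ q := by
    intro x
    have ht : ‖κ x‖ₑ ^ q ≠ ⊤ := ENNReal.rpow_ne_top_of_nonneg hq.le enorm_ne_top
    rw [lintegral_const_mul' _ _ ht, ← mul_assoc]
  simp_rw [e2]
  have hmw : Measurable (fun x : ℝ => ENNReal.ofReal |x| * ‖κ x‖ₑ ^ q) :=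
    (ENNReal.measurable_ofReal.comp (by fun_prop)).mul (hκ.enorm.pow_const q)
  rw [lintegral_mul_const _ hmw]

theorem cF_L1 {κ : ℝ → ℝ} (hκ : Measurable κ) {F : ℝ → ℂ} (hF : Measurable F) :
    ∫⁻ x, ‖cF κ F x‖ₑ = (∫⁻ x : ℝ, ENNReal.ofReal |x| * ‖κ x‖ₑ) * ∫⁻ v, ‖F v‖ₑ := by
  have h := cF_pow hκ hF 1 one_pos
  simpa only [ENNReal.rpow_one] using h

theorem cF_L1_le {κ : ℝ → ℝ} (hκ : Measurable κ) {F : ℝ → ℂ} (hF : Measurable F)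
    (hs : ∀ x, κ x ≠ 0 → |x| ≤ 1) :
    ∫⁻ x, ‖cF κ F x‖ₑ ≤ (∫⁻ x : ℝ, ‖κ x‖ₑ) * ∫⁻ v, ‖F v‖ₑ := by
  rw [cF_L1 hκ hF]
  refine mul_le_mul' (lintegral_mono (fun x => ?_)) le_rfl
  simp only
  by_cases h : κ x = 0
  · rw [h]; simp
  · have : ENNReal.ofReal |x| ≤ 1 := by
      rw [← ENNReal.ofReal_one]; exact ENNReal.ofReal_le_ofReal (hs x h)
    calc ENNReal.ofReal |x| * ‖κ x‖ₑ ≤ 1 * ‖κ x‖ₑ := mul_le_mul' this le_rfl
      _ = _ := one_mul _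

/-- raising the exponent -/
theorem Psi_up (q r : ℝ) (hr : 0 < r) (hrq : r ≤ q) (f : ℝ × ℝ → ℂ) (hf : ∫⁻ x, ‖f x‖ₑ ≠ ⊤) :
    Psi q f ≤ (∫⁻ x, ‖f x‖ₑ) ^ (q - r) * Psi r f := by
  have hqr : 0 ≤ q - r := by linarith
  have hmq : (∫⁻ x, ‖f x‖ₑ) ^ (q - r) ≠ ⊤ := ENNReal.rpow_ne_top_of_nonneg hqr hf
  unfold Psi
  rw [← lintegral_const_mul' _ _ hmq]
  refine lintegral_mono (fun t => ?_)
  unfold Phi
  simp only
  rw [← lintegral_const_mul' _ _ hmq]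
  refine lintegral_mono (fun p => ?_)
  simp only
  have e1 : ‖T f p (t, t)‖ₑ ^ q = ‖T f p (t, t)‖ₑ ^ (q - r) * ‖T f p (t, t)‖ₑ ^ r := by
    rw [← ENNReal.rpow_add_of_nonneg _ _ hqr hr.le]
    congr 1; ring
  rw [e1]
  exact mul_le_mul' (ENNReal.rpow_le_rpow (T_le f p (t, t)) hqr) le_rfl

theorem ofReal_smooth {ϕ : ℝ → ℝ} (h : ContDiff ℝ ∞ ϕ) : ContDiff ℝ ∞ (fun y => (ϕ y : ℂ)) :=
  Complex.ofRealCLM.contDiff.comp h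

theorem ofReal_supp {ϕ : ℝ → ℝ} (h : HasCompactSupport ϕ) : HasCompactSupport (fun y => (ϕ y : ℂ)) :=
  h.comp_left Complex.ofReal_zero

/-- the piece bound -/
theorem PB (q q0 : ℝ) (h3 : 3 < q0) (h4 : q0 < 4) (hq0 : q0 ≤ q) (ϕ : ℝ → ℝ) (hϕ : ContDiff ℝ ∞ ϕ)
    (hϕs : HasCompactSupport ϕ) :
    ∃ C : ℝ, 0 < C ∧ ∀ a c : ℝ, (∀ x, ϕ (a * x + c) ≠ 0 → 1 / 4 ≤ x ∧ x ≤ 1) →
      ∀ F : ℝ → ℂ, Measurable F → Integrable F → (∀ v, v ∉ Icc (0 : ℝ) 1 → F v = 0) →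
      (∫⁻ x : ℝ, ‖ϕ (a * x + c)‖ₑ) ≠ ⊤ →
      Psi q (cF (fun x => ϕ (a * x + c)) F) ≤
        ENNReal.ofReal C * (∫⁻ x : ℝ, ‖ϕ (a * x + c)‖ₑ) ^ (q - q0) * ∫⁻ v, ‖F v‖ₑ ^ q := by
  obtain ⟨C1, hC1, h1⟩ := mult1 q0 (by linarith) _ (ofReal_smooth zz_smooth) (ofReal_supp zz_supp)
  obtain ⟨C2, hC2, h2⟩ := mult1 q0 (by linarith) _ (ofReal_smooth hϕ) (ofReal_supp hϕs)
  obtain ⟨C3, hC3, h3'⟩ := R1 q0 h3 h4
  refine ⟨C2 * (C1 * C3), by positivity, ?_⟩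
  intro a c hs F hF hi hF0 hM
  have hκ : Measurable (fun x => ϕ (a * x + c)) := hϕ.continuous.measurable.comp (by fun_prop)
  set M := ∫⁻ x : ℝ, ‖ϕ (a * x + c)‖ₑ with hMd
  have hL1 : ∫⁻ x, ‖cF (fun x => ϕ (a * x + c)) F x‖ₑ ≤ M * ∫⁻ v, ‖F v‖ₑ :=
    cF_L1_le hκ hF (fun x hx => by
      obtain ⟨g1, g2⟩ := hs x hx
      rw [abs_of_nonneg (by linarith)]; exact g2)
  have hL1' : ∫⁻ x, ‖cF (fun x => ϕ (a * x + c)) F x‖ₑ ≠ ⊤ :=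
    ne_top_of_le_ne_top (ENNReal.mul_ne_top hM hi.2.ne) hL1
  -- the q0 bound
  set g : ℝ × ℝ → ℂ := fun x => ((zz (1 * x.1 + 0) : ℝ) : ℂ) * wF F x with hg
  have hwm : Measurable (wF F) := wF_meas hF
  have hwi : Integrable (wF F) := wF_int hF hi
  have hzm : Measurable (fun x : ℝ × ℝ => ((zz (1 * x.1 + 0) : ℝ) : ℂ)) :=
    Complex.measurable_ofReal.comp (zz_smooth.continuous.measurable.comp (by fun_prop))
  have hgm : Measurable g := hzm.mul hwm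
  have hzb : ∃ K : ℝ, ∀ x, ‖zz x‖ ≤ K := by
    obtain ⟨K, hK⟩ := zz_supp.exists_bound_of_continuous zz_smooth.continuous
    exact ⟨K, hK⟩
  obtain ⟨K, hK⟩ := hzb
  have hgi : Integrable g := by
    refine hwi.bdd_mul (c := K) hzm.aestronglyMeasurable (Filter.Eventually.of_forall (fun x => ?_))
    rw [Complex.norm_real]; exact hK _
  have heq : cF (fun x => ϕ (a * x + c)) F = fun x => ((ϕ (a * x.1 + c) : ℝ) : ℂ) * g x := by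
    ext x
    unfold cF
    simp only [hg]
    by_cases hx : ϕ (a * x.1 + c) = 0
    · rw [hx]; simp
    · obtain ⟨g1, g2⟩ := hs x.1 hx
      have := zz_ww g1 g2
      unfold wF
      rw [one_mul, add_zero, ← mul_assoc (zz x.1 : ℂ), ← Complex.ofReal_mul, this, Complex.ofReal_one, one_mul]
  have hq0b : Psi q0 (cF (fun x => ϕ (a * x + c)) F) ≤ ENNReal.ofReal (C2 * (C1 * C3)) * ∫⁻ v, ‖F v‖ₑ ^ q0 := by
    unfold Psi
    calc ∫⁻ t : ℝ, Phi q0 (cF (fun x => ϕ (a * x + c)) F) (t, t)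
        ≤ ∫⁻ t : ℝ, ENNReal.ofReal C2 * (ENNReal.ofReal C1 * Phi q0 (wF F) (t, t)) := by
          refine lintegral_mono (fun t => ?_)
          simp only
          rw [heq]
          refine (h2 a c g hgm hgi (t, t)).trans (mul_le_mul' le_rfl ?_)
          exact h1 1 0 (wF F) hwm hwi (t, t)
      _ = ENNReal.ofReal C2 * (ENNReal.ofReal C1 * ∫⁻ t : ℝ, Phi q0 (wF F) (t, t)) := by
          rw [lintegral_const_mul' _ _ ENNReal.ofReal_ne_top, lintegral_const_mul' _ _ ENNReal.ofReal_ne_top]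
      _ ≤ ENNReal.ofReal C2 * (ENNReal.ofReal C1 * (ENNReal.ofReal C3 * ∫⁻ v, ‖F v‖ₑ ^ q0)) :=
          mul_le_mul' le_rfl (mul_le_mul' le_rfl (h3' F hF hi hF0))
      _ = _ := by
          rw [ENNReal.ofReal_mul hC2.le, ENNReal.ofReal_mul hC1.le]; ring
  have hqr : 0 ≤ q - q0 := by linarith
  calc Psi q (cF (fun x => ϕ (a * x + c)) F)
      ≤ (∫⁻ x, ‖cF (fun x => ϕ (a * x + c)) F x‖ₑ) ^ (q - q0) * Psi q0 (cF (fun x => ϕ (a * x + c)) F) :=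
        Psi_up q q0 (by linarith) hq0 _ hL1'
    _ ≤ (M * ∫⁻ v, ‖F v‖ₑ) ^ (q - q0) * (ENNReal.ofReal (C2 * (C1 * C3)) * ∫⁻ v, ‖F v‖ₑ ^ q0) :=
        mul_le_mul' (ENNReal.rpow_le_rpow hL1 hqr) hq0b
    _ = (ENNReal.ofReal (C2 * (C1 * C3)) * M ^ (q - q0)) * ((∫⁻ v, ‖F v‖ₑ) ^ (q - q0) * ∫⁻ v, ‖F v‖ₑ ^ q0) := by
        rw [ENNReal.mul_rpow_of_nonneg _ _ hqr]; ring
    _ ≤ _ := mul_le_mul' le_rfl (hold01 q0 q (by linarith) hq0 F hF hF0)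

theorem lint_mul_left (c : ℝ) (hc : 0 < c) (G : ℝ → ℝ≥0∞) (hG : Measurable G) :
    ∫⁻ t : ℝ, G (c * t) = ENNReal.ofReal (c⁻¹) * ∫⁻ t, G t := by
  have h1 : ∫⁻ t : ℝ, G (c * t) = ∫⁻ v, G v ∂(Measure.map (fun y : ℝ => c * y) volume) := by
    rw [lintegral_map hG (measurable_const_mul _)]
  rw [h1, Real.map_volume_mul_left hc.ne', lintegral_smul_measure, smul_eq_mul, abs_of_pos (inv_pos.2 hc)]

/-- dilation -/
theorem Psi_dil (q a : ℝ) (hq : 0 < q) (ha : 0 < a) (f : ℝ × ℝ → ℂ) (hf : Measurable f) :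
    Psi q (fun x => f (a * x.1, a * x.2)) = ENNReal.ofReal (a ^ (4 - 2 * q)) * Psi q f := by
  unfold Psi
  have h1 : ∀ t : ℝ, Phi q (fun x => f (a * x.1, a * x.2)) (t, t) =
      ENNReal.ofReal ((a * a) ^ (1 - q)) * Phi q f (a⁻¹ ^ 2 * t, a⁻¹ ^ 2 * t) := by
    intro t
    exact X92.Ext.Phi_dil q a a hq ha ha f hf (t, t)
  simp_rw [h1]
  rw [lintegral_const_mul' _ _ ENNReal.ofReal_ne_top]
  have hm : Measurable (fun t : ℝ => Phi q f (t, t)) :=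
    (X92.Ext.measurable_Phi q f hf).comp (measurable_id.prodMk measurable_id)
  rw [lint_mul_left (a⁻¹ ^ 2) (by positivity) (fun t : ℝ => Phi q f (t, t)) hm, ← mul_assoc,
    ← ENNReal.ofReal_mul (by positivity)]
  congr 2
  have e1 : (a⁻¹ ^ 2)⁻¹ = a ^ (2 : ℝ) := by
    rw [inv_pow, inv_inv]; norm_num
  have e2 : a * a = a ^ (2 : ℝ) := by norm_num; ring
  rw [e1, e2, ← Real.rpow_mul ha.le, ← Real.rpow_add ha]
  congr 1; ring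

end X92.Sec
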