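import Pool.Agent.X92.Sec17
import Pool.Agent.X92.Mom1
set_option autoImplicit false
open MeasureTheory Set Complex
open scoped ENNReal ComplexConjugate ContDiff Topology

namespace X92.Sec

open X92.Ext (ph T sq2 norm_ph ph_eq T_le T_L2 measurable_Tc Phi)

theorem T_int {f : ℝ × ℝ → ℂ} (hf : Integrable f) (p b : ℝ × ℝ) :
    Integrable (fun x => f x * (ph p x * ph b (sq2 x))) := by
  have h1 := X92.Ext.integrable_mod _ (X92.Ext.integrable_mod f hf p (fun x => x) continuous_id) b sq2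
    X92.Ext.continuous_sq2
  refine h1.congr (Filter.Eventually.of_forall (fun x => ?_))
  simp only
  ring

theorem T_add {f g : ℝ × ℝ → ℂ} (hf : Integrable f) (hg : Integrable g) (p b : ℝ × ℝ) :
    T (fun x => f x + g x) p b = T f p b + T g p b := by
  unfold T
  rw [← integral_add (T_int hf p b) (T_int hg p b)]
  congr 1
  ext x
  ring

theorem T_tsum (g : ℕ → ℝ × ℝ → ℂ) (hg : ∀ k, Measurable (g k)) (hs : ∑' k, ∫⁻ x, ‖g k x‖ₑ ≠ ⊤) (p b : ℝ × ℝ) :
    ‖T (fun x => ∑' k, g k x) p b‖ₑ ≤ ∑' k, ‖T (g k) p b‖ₑ := by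
  unfold T
  have e1 : ∀ x : ℝ × ℝ, (∑' k, g k x) * (ph p x * ph b (sq2 x)) = ∑' k, g k x * (ph p x * ph b (sq2 x)) := by
    intro x
    rw [tsum_mul_right]
  simp_rw [e1]
  have hc : Measurable (fun x : ℝ × ℝ => ph p x * ph b (sq2 x)) := by
    refine Measurable.mul ?_ ?_
    · exact (X92.Ext.continuous_ph.comp (Continuous.prodMk continuous_const continuous_id)).measurable
    · exact (X92.Ext.continuous_ph.comp (Continuous.prodMk continuous_const X92.Ext.continuous_sq2)).measurable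
  have hgm : ∀ k : ℕ, AEStronglyMeasurable (fun x : ℝ × ℝ => g k x * (ph p x * ph b (sq2 x))) volume :=
    fun k => ((hg k).mul hc).aestronglyMeasurable
  rw [integral_tsum hgm]
  · exact enorm_tsum_le_tsum_enorm
  · refine ne_top_of_le_ne_top hs (ENNReal.tsum_le_tsum (fun k => lintegral_mono (fun x => ?_)))
    simp only
    rw [enorm_mul, enorm_mul]
    have e2 : ‖ph p x‖ₑ = 1 := by rw [← ofReal_norm, norm_ph]; simp
    have e3 : ‖ph b (sq2 x)‖ₑ = 1 := by rw [← ofReal_norm, norm_ph]; simp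
    rw [e2, e3, mul_one, mul_one]

theorem Psi_tsum (q δ : ℝ) (hq : 1 < q) (hδ : 0 < δ) :
    ∃ C : ℝ≥0∞, C ≠ ⊤ ∧ ∀ g : ℕ → ℝ × ℝ → ℂ, (∀ k, Measurable (g k)) → (∑' k, ∫⁻ x, ‖g k x‖ₑ ≠ ⊤) →
      Psi q (fun x => ∑' k, g k x) ≤ C * ∑' k : ℕ, ENNReal.ofReal ((2 : ℝ) ^ (δ * k)) * Psi q (g k) := by
  obtain ⟨C, hC, h⟩ := X92.Mom.tsum_pow q δ hq hδ
  refine ⟨C, hC, ?_⟩
  intro g hg hs
  have hT : ∀ k, Measurable (fun z : ℝ × (ℝ × ℝ) => T (g k) z.2 (z.1, z.1)) := fun k =>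
    measurable_Tc (Z := ℝ × (ℝ × ℝ)) (g k) (hg k) (fun z : ℝ × (ℝ × ℝ) => z.2) (fun z : ℝ × (ℝ × ℝ) => (z.1, z.1))
      measurable_snd (measurable_fst.prodMk measurable_fst)
  have hT1 : ∀ k, ∀ t : ℝ, Measurable (fun p : ℝ × ℝ => ‖T (g k) p (t, t)‖ₑ ^ q) := fun k t =>
    ((hT k).comp (measurable_const.prodMk measurable_id)).enorm.pow_const q
  have hPm : ∀ k, Measurable (fun t : ℝ => Phi q (g k) (t, t)) := fun k =>
    (X92.Ext.measurable_Phi q (g k) (hg k)).comp (measurable_id.prodMk measurable_id)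
  have h1 : ∀ t : ℝ, Phi q (fun x => ∑' k, g k x) (t, t) ≤
      C * ∑' k : ℕ, ENNReal.ofReal ((2 : ℝ) ^ (δ * k)) * Phi q (g k) (t, t) := by
    intro t
    unfold Phi
    calc ∫⁻ p : ℝ × ℝ, ‖T (fun x => ∑' k, g k x) p (t, t)‖ₑ ^ q
        ≤ ∫⁻ p : ℝ × ℝ, C * ∑' k : ℕ, ENNReal.ofReal ((2 : ℝ) ^ (δ * k)) * ‖T (g k) p (t, t)‖ₑ ^ q := by
          refine lintegral_mono (fun p => ?_)
          exact (ENNReal.rpow_le_rpow (T_tsum g hg hs p (t, t)) (by linarith)).trans (h _)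
      _ = _ := by
          rw [lintegral_const_mul' _ _ hC, lintegral_tsum (fun k => ((hT1 k t).const_mul _).aemeasurable)]
          congr 1
          refine tsum_congr (fun k => ?_)
          rw [lintegral_const_mul' _ _ ENNReal.ofReal_ne_top]
  unfold Psi
  calc ∫⁻ t : ℝ, Phi q (fun x => ∑' k, g k x) (t, t)
      ≤ ∫⁻ t : ℝ, C * ∑' k : ℕ, ENNReal.ofReal ((2 : ℝ) ^ (δ * k)) * Phi q (g k) (t, t) := lintegral_mono h1
    _ = _ := by
        rw [lintegral_const_mul' _ _ hC, lintegral_tsum (fun k => ((hPm k).const_mul _).aemeasurable)]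
        congr 1
        refine tsum_congr (fun k => ?_)
        rw [lintegral_const_mul' _ _ ENNReal.ofReal_ne_top]

theorem Psi_add (q : ℝ) (hq : 1 ≤ q) {f g : ℝ × ℝ → ℂ} (hfm : Measurable f) (hf : Integrable f) (hg : Integrable g) :
    Psi q (fun x => f x + g x) ≤ 2 ^ (q - 1) * (Psi q f + Psi q g) := by
  have h2 : (2 : ℝ≥0∞) ^ (q - 1) ≠ ⊤ := ENNReal.rpow_ne_top_of_nonneg (by linarith) (by norm_num)
  have hT : Measurable (fun z : ℝ × (ℝ × ℝ) => T f z.2 (z.1, z.1)) :=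
    measurable_Tc (Z := ℝ × (ℝ × ℝ)) f hfm (fun z : ℝ × (ℝ × ℝ) => z.2) (fun z : ℝ × (ℝ × ℝ) => (z.1, z.1))
      measurable_snd (measurable_fst.prodMk measurable_fst)
  have hPm : Measurable (fun t : ℝ => Phi q f (t, t)) :=
    (X92.Ext.measurable_Phi q f hfm).comp (measurable_id.prodMk measurable_id)
  unfold Psi
  rw [← lintegral_add_left hPm, ← lintegral_const_mul' _ _ h2]
  refine lintegral_mono (fun t => ?_)
  unfold Phi
  simp only
  have hm : Measurable (fun p : ℝ × ℝ => ‖T f p (t, t)‖ₑ ^ q) :=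
    (hT.comp (measurable_const.prodMk measurable_id)).enorm.pow_const q
  rw [← lintegral_add_left hm, ← lintegral_const_mul' _ _ h2]
  refine lintegral_mono (fun p => ?_)
  simp only
  rw [T_add hf hg]
  exact (ENNReal.rpow_le_rpow (enorm_add_le _ _) (by linarith)).trans (ENNReal.rpow_add_le_mul_rpow_add_rpow _ _ hq)

theorem kap_le {κ : ℝ → ℝ} {a b : ℝ} (h1 : ∀ x, |κ x| ≤ 1) (h2 : ∀ x, κ x ≠ 0 → x ∈ Icc a b) :
    ∫⁻ x, ‖κ x‖ₑ ≤ ENNReal.ofReal (b - a) := by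
  calc ∫⁻ x, ‖κ x‖ₑ ≤ ∫⁻ x, (Icc a b).indicator (fun _ => (1 : ℝ≥0∞)) x := by
        refine lintegral_mono (fun x => ?_)
        simp only
        by_cases h : κ x = 0
        · rw [h]; simp
        · rw [indicator_of_mem (h2 x h), ← ofReal_norm, ← ENNReal.ofReal_one]
          exact ENNReal.ofReal_le_ofReal (h1 x)
    _ = ENNReal.ofReal (b - a) := by
        rw [lintegral_indicator measurableSet_Icc, setLIntegral_one, Real.volume_Icc]

theorem cF_int {κ : ℝ → ℝ} (hκ : Measurable κ) {F : ℝ → ℂ} (hF : Measurable F) (hi : Integrable F)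
    (h1 : ∀ x, |κ x| ≤ 1) (h2 : ∀ x, κ x ≠ 0 → x ∈ Icc (0 : ℝ) 1) : Integrable (cF κ F) := by
  refine ⟨(cF_meas hκ hF).aestronglyMeasurable, ?_⟩
  have h := cF_L1_le hκ hF (fun x hx => by
    obtain ⟨a, b⟩ := h2 x hx
    rw [abs_of_nonneg a]; exact b)
  refine lt_of_le_of_lt h ?_
  refine ENNReal.mul_lt_top ?_ hi.2
  exact lt_of_le_of_lt (kap_le h1 h2) ENNReal.ofReal_lt_top

end X92.Sec
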