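import Pool.Agent.X92.Sec18
set_option autoImplicit false
open MeasureTheory Set Complex
open scoped ENNReal ComplexConjugate ContDiff Topology

namespace X92.Sec

open X92.Ext (ph T sq2 norm_ph ph_eq T_le T_L2 measurable_Tc Phi)

/-- the dyadic sum as a function -/
noncomputable def bb (y : ℝ) : ℝ := if 0 < y then 1 - th (2 * y) else 0

theorem bb_meas : Measurable bb := by
  unfold bb
  refine Measurable.ite measurableSet_Ioi ?_ measurable_const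
  exact measurable_const.sub (th_smooth.continuous.measurable.comp (by fun_prop))

theorem bb_abs (y : ℝ) : |bb y| ≤ 1 := by
  unfold bb
  split_ifs
  · rw [abs_le]; constructor <;> linarith [th_nonneg (2 * y), th_le (2 * y)]
  · simp

theorem bb_supp (y : ℝ) (h : bb y ≠ 0) : y ∈ Icc (0 : ℝ) (1 / 2) := by
  unfold bb at h
  split_ifs at h with h0
  · refine ⟨h0.le, ?_⟩
    by_contra hc
    apply h
    rw [th_one (by linarith [not_le.1 hc])]; norm_num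
  · exact absurd rfl h

theorem mp_supp : HasCompactSupport mp := by
  refine HasCompactSupport.of_support_subset_isCompact (isCompact_Icc (a := (1 / 4 : ℝ)) (b := 3 / 4)) ?_
  intro x hx
  rw [Function.mem_support] at hx
  by_contra hc
  rw [mem_Icc, not_and_or, not_le, not_le] at hc
  apply hx
  rcases hc with hc | hc
  · exact mp_low hc.le
  · exact mp_high hc.le

theorem mp_mem (x : ℝ) (h : mp x ≠ 0) : x ∈ Icc (1 / 4 : ℝ) (3 / 4) := by
  by_contra hc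
  rw [mem_Icc, not_and_or, not_le, not_le] at hc
  apply h
  rcases hc with hc | hc
  · exact mp_low hc.le
  · exact mp_high hc.le

theorem bp_mem (x : ℝ) (h : bp x ≠ 0) : x ∈ Icc (1 / 4 : ℝ) 1 := by
  by_contra hc
  rw [mem_Icc, not_and_or, not_le, not_le] at hc
  apply h
  rcases hc with hc | hc
  · exact bp_low hc.le
  · exact bp_high hc.le

theorem bp_supp : HasCompactSupport bp :=
  HasCompactSupport.of_support_subset_isCompact (isCompact_Icc (a := (1 / 4 : ℝ)) (b := 1)) (fun x hx => bp_mem x hx)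

theorem bp_meas : Measurable bp := bp_smooth.continuous.measurable
theorem mp_meas : Measurable mp := mp_smooth.continuous.measurable

theorem u_mem (k : ℕ) (x : ℝ) (h : bp (2 ^ (k + 1) * x) ≠ 0) : x ∈ Icc (0 : ℝ) ((1 / 2) ^ (k + 1)) := by
  obtain ⟨h1, h2⟩ := bp_mem _ h
  have h3 : (0 : ℝ) < 2 ^ (k + 1) := by positivity
  constructor
  · by_contra hc
    have : 2 ^ (k + 1) * x ≤ 0 := mul_nonpos_of_nonneg_of_nonpos h3.le (not_le.1 hc).le
    linarith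
  · rw [one_div, inv_pow, le_inv_comm₀ (by
      by_contra hc
      have : 2 ^ (k + 1) * x ≤ 0 := mul_nonpos_of_nonneg_of_nonpos h3.le (not_lt.1 hc)
      linarith) h3, ← one_div, le_div_iff₀ (by
      by_contra hc
      have : 2 ^ (k + 1) * x ≤ 0 := mul_nonpos_of_nonneg_of_nonpos h3.le (not_lt.1 hc)
      linarith)]
    linarith

theorem pow_half_le (k : ℕ) : ((1 : ℝ) / 2) ^ (k + 1) ≤ 1 / 2 := by
  rw [pow_succ]
  have : ((1 : ℝ) / 2) ^ k ≤ 1 := pow_le_one₀ (by norm_num) (by norm_num)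
  linarith

theorem v_mem (k : ℕ) (x : ℝ) (h : bp (2 ^ (k + 1) * (1 - x)) ≠ 0) : x ∈ Icc (1 - (1 / 2) ^ (k + 1) : ℝ) 1 := by
  obtain ⟨h1, h2⟩ := u_mem k (1 - x) h
  exact ⟨by linarith, by linarith⟩

theorem geo_ne : ∑' k : ℕ, ENNReal.ofReal ((1 / 2) ^ (k + 1) : ℝ) ≠ ⊤ := by
  have hs : Summable (fun k : ℕ => ((1 / 2) ^ (k + 1) : ℝ)) := by
    have := (summable_geometric_of_lt_one (by norm_num : (0 : ℝ) ≤ 1 / 2) (by norm_num)).mul_right (1 / 2)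
    refine this.congr (fun k => ?_)
    rw [pow_succ]
  exact hs.tsum_ofReal_ne_top

/-- summation of the pieces -/
theorem sumP (q δ : ℝ) (hq : 1 < q) (hδ : 0 < δ) (ρ : ℝ) (hρ : δ < ρ) (C0 : ℝ) (hC0 : 0 < C0) :
    ∃ C : ℝ, 0 < C ∧ ∀ κ : ℕ → ℝ → ℝ, (∀ k, Measurable (κ k)) → (∀ k x, |κ k x| ≤ 1) →
      (∀ k x, κ k x ≠ 0 → |x| ≤ 1) → (∀ k, ∫⁻ x, ‖κ k x‖ₑ ≤ ENNReal.ofReal ((1 / 2) ^ (k + 1))) →
      ∀ F : ℝ → ℂ, Measurable F → Integrable F →
      (∀ k, Psi q (cF (κ k) F) ≤ ENNReal.ofReal (C0 * 2 ^ (-(ρ * k))) * ∫⁻ v, ‖F v‖ₑ ^ q) →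
      Psi q (fun x => ∑' k, cF (κ k) F x) ≤ ENNReal.ofReal C * ∫⁻ v, ‖F v‖ₑ ^ q := by
  obtain ⟨C1, hC1, h1⟩ := Psi_tsum q δ hq hδ
  have hs : Summable (fun k : ℕ => (2 : ℝ) ^ (δ * k) * (C0 * 2 ^ (-(ρ * k)))) := by
    have e : ∀ k : ℕ, (2 : ℝ) ^ (δ * k) * (C0 * 2 ^ (-(ρ * k))) = C0 * ((2 : ℝ) ^ (-(ρ - δ))) ^ k := by
      intro k
      rw [← Real.rpow_natCast, ← Real.rpow_mul (by norm_num)]
      have : (2 : ℝ) ^ (δ * k) * (C0 * 2 ^ (-(ρ * k))) = C0 * ((2 : ℝ) ^ (δ * k) * 2 ^ (-(ρ * k))) := by ring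
      rw [this, ← Real.rpow_add (by norm_num)]
      congr 2; ring
    simp_rw [e]
    refine (summable_geometric_of_lt_one (by positivity) ?_).mul_left C0
    exact Real.rpow_lt_one_of_one_lt_of_neg (by norm_num) (by linarith)
  set S := ∑' k : ℕ, ENNReal.ofReal ((2 : ℝ) ^ (δ * k) * (C0 * 2 ^ (-(ρ * k)))) with hS
  have hSt : S ≠ ⊤ := hs.tsum_ofReal_ne_top
  refine ⟨(C1 * S).toReal + 1, by positivity, ?_⟩
  intro κ hκm hκ1 hκs hκi F hF hi hP
  have hsum : ∑' k, ∫⁻ x, ‖cF (κ k) F x‖ₑ ≠ ⊤ := by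
    have : ∀ k, ∫⁻ x, ‖cF (κ k) F x‖ₑ ≤ ENNReal.ofReal ((1 / 2) ^ (k + 1)) * ∫⁻ v, ‖F v‖ₑ := fun k =>
      (cF_L1_le (hκm k) hF (hκs k)).trans (mul_le_mul' (hκi k) le_rfl)
    refine ne_top_of_le_ne_top ?_ (ENNReal.tsum_le_tsum this)
    rw [ENNReal.tsum_mul_right]
    exact ENNReal.mul_ne_top geo_ne hi.2.ne
  refine (h1 (fun k => cF (κ k) F) (fun k => cF_meas (hκm k) hF) hsum).trans ?_
  calc C1 * ∑' k : ℕ, ENNReal.ofReal ((2 : ℝ) ^ (δ * k)) * Psi q (cF (κ k) F)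
      ≤ C1 * ∑' k : ℕ, ENNReal.ofReal ((2 : ℝ) ^ (δ * k) * (C0 * 2 ^ (-(ρ * k)))) * ∫⁻ v, ‖F v‖ₑ ^ q := by
        refine mul_le_mul' le_rfl (ENNReal.tsum_le_tsum (fun k => ?_))
        rw [ENNReal.ofReal_mul (by positivity), mul_assoc]
        exact mul_le_mul' le_rfl (hP k)
    _ = C1 * S * ∫⁻ v, ‖F v‖ₑ ^ q := by
        rw [ENNReal.tsum_mul_right, hS, mul_assoc]
    _ ≤ _ := by
        refine mul_le_mul' ?_ le_rfl
        rw [← ENNReal.ofReal_toReal (ENNReal.mul_ne_top hC1 hSt)]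
        refine ENNReal.ofReal_le_ofReal ?_
        rw [ENNReal.toReal_ofReal ENNReal.toReal_nonneg]
        linarith

/-- the sharp cutoff -/
noncomputable def ind (ρ : ℝ) (x : ℝ) : ℝ := (Ioo (0 : ℝ) ρ).indicator (fun _ => (1 : ℝ)) x

theorem cF_split (F : ℝ → ℂ) : cF (ind 1) F = fun x => (cF mp F x + (∑' k : ℕ, cF (fun y => bp (2 ^ (k + 1) * y)) F x)) +
    ∑' k : ℕ, cF (fun y => bp (2 ^ (k + 1) * (1 - y))) F x := by
  ext x
  unfold cF ind
  simp only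
  rw [← part_one x.1, tsum_mul_right, tsum_mul_right]
  push_cast
  ring

theorem cF_bb (F : ℝ → ℂ) : (fun x => ∑' k : ℕ, cF (fun y => bp (2 ^ (k + 1) * y)) F x) = cF bb F := by
  ext x
  unfold cF
  simp only
  rw [tsum_mul_right, ← Complex.ofReal_tsum, (bp_hasSum x.1).tsum_eq]
  rfl

theorem cF_bb' (F : ℝ → ℂ) : (fun x => ∑' k : ℕ, cF (fun y => bp (2 ^ (k + 1) * (1 - y))) F x) =
    cF (fun y => bb (1 - y)) F := by
  ext x
  unfold cF
  simp only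
  rw [tsum_mul_right, ← Complex.ofReal_tsum, (bp_hasSum (1 - x.1)).tsum_eq]
  rfl

end X92.Sec
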