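import Pool.Agent.X92.Sec1
set_option autoImplicit false
open MeasureTheory Set Complex
open scoped ENNReal ComplexConjugate

namespace X92.Sec

/-- the determinant of the four-linear form -/
noncomputable def Qf (a1 a2 a3 a4 : ℂ) (v1 v2 v3 v4 : ℝ) : ℂ :=
  a3 * a4 * (((v1 - v2) ^ 2 : ℝ) : ℂ) + a1 * a2 * (((v3 - v4) ^ 2 : ℝ) : ℂ) +
  a2 * a4 * (((v1 - v3) ^ 2 : ℝ) : ℂ) + a2 * a3 * (((v1 - v4) ^ 2 : ℝ) : ℂ) +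
  a1 * a4 * (((v2 - v3) ^ 2 : ℝ) : ℂ) + a1 * a3 * (((v2 - v4) ^ 2 : ℝ) : ℂ)

/-- its derivative in the first variable -/
noncomputable def Nf (a2 a3 a4 : ℂ) (v2 v3 v4 : ℝ) : ℂ :=
  a2 * (((v3 - v4) ^ 2 : ℝ) : ℂ) + a4 * (((v2 - v3) ^ 2 : ℝ) : ℂ) + a3 * (((v2 - v4) ^ 2 : ℝ) : ℂ)

/-- `e + i t (1 + v²)` -/
noncomputable def cc (e t v : ℝ) : ℂ := ⟨e, t * (1 + v ^ 2)⟩

theorem Q_re (e1 e2 e3 e4 t v1 v2 v3 v4 : ℝ) :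
    (Qf (cc e1 t v1) (cc e2 t v2) (cc e3 (-t) v3) (cc e4 (-t) v4) v1 v2 v3 v4).re =
      e3 * e4 * (v1 - v2) ^ 2 + e1 * e2 * (v3 - v4) ^ 2 + e2 * e4 * (v1 - v3) ^ 2 +
      e2 * e3 * (v1 - v4) ^ 2 + e1 * e4 * (v2 - v3) ^ 2 + e1 * e3 * (v2 - v4) ^ 2 +
      t ^ 2 * (4 * (v3 * v4 - v1 * v2) ^ 2 +
        ((1 + v1 * v2) * (v3 + v4 - v1 - v2) - (v1 + v2) * (v3 * v4 - v1 * v2)) ^ 2) := by
  unfold Qf cc
  simp only [Complex.add_re, Complex.re_mul_ofReal]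
  simp only [Complex.mul_re]
  ring

theorem Q_im (e1 e2 e3 e4 t v1 v2 v3 v4 : ℝ) :
    (Qf (cc e1 t v1) (cc e2 t v2) (cc e3 (-t) v3) (cc e4 (-t) v4) v1 v2 v3 v4).im =
      2 * t * (((1 + v3 * v4) * (e1 + e2) + (1 + v1 * v2) * (e3 + e4)) / 4 *
        ((v3 - v4) ^ 2 - (v1 - v2) ^ 2) +
        (v3 + v4 - v1 - v2) *
        ((1 + v3 * v4) * (e1 * (v2 - (v1 + v2 + v3 + v4) / 4) + e2 * (v1 - (v1 + v2 + v3 + v4) / 4)) +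
          (1 + v1 * v2) * (e3 * (v4 - (v1 + v2 + v3 + v4) / 4) + e4 * (v3 - (v1 + v2 + v3 + v4) / 4)))) := by
  unfold Qf cc
  simp only [Complex.add_im, Complex.im_mul_ofReal]
  simp only [Complex.mul_im]
  ring

theorem N_re (e2 e3 e4 t v2 v3 v4 : ℝ) :
    (Nf (cc e2 t v2) (cc e3 (-t) v3) (cc e4 (-t) v4) v2 v3 v4).re =
      e2 * (v3 - v4) ^ 2 + e4 * (v2 - v3) ^ 2 + e3 * (v2 - v4) ^ 2 := by
  unfold Nf cc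
  simp only [Complex.add_re, Complex.re_mul_ofReal]

theorem N_im (e2 e3 e4 t v2 v3 v4 : ℝ) :
    (Nf (cc e2 t v2) (cc e3 (-t) v3) (cc e4 (-t) v4) v2 v3 v4).im =
      -(2 * t * (1 + v3 * v4) * ((v2 - v3) * (v2 - v4))) := by
  unfold Nf cc
  simp only [Complex.add_im, Complex.im_mul_ofReal]
  ring

end X92.Sec
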