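import Pool.Agent.X92.Sec19
set_option autoImplicit false
open MeasureTheory Set Complex
open scoped ENNReal ComplexConjugate ContDiff Topology

namespace X92.Sec

open X92.Ext (ph T sq2 norm_ph ph_eq T_le T_L2 measurable_Tc Phi)

theorem ind_meas (ρ : ℝ) : Measurable (ind ρ) := by
  unfold ind
  exact measurable_const.indicator measurableSet_Ioo

/-- functions of the slope on the triangle `0 < x₁ < 1`, `0 ≤ x₂ ≤ x₁` -/
theorem H0 (q : ℝ) (hq3 : 3 < q) :
    ∃ C : ℝ, 0 < C ∧ ∀ F : ℝ → ℂ, Measurable F → Integrable F → (∀ v, v ∉ Icc (0 : ℝ) 1 → F v = 0) →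
      Psi q (cF (ind 1) F) ≤ ENNReal.ofReal C * ∫⁻ v, ‖F v‖ₑ ^ q := by
  set q0 : ℝ := min ((3 + q) / 2) (7 / 2) with hq0
  have h3 : 3 < q0 := lt_min (by linarith) (by norm_num)
  have h4 : q0 < 4 := lt_of_le_of_lt (min_le_right _ _) (by norm_num)
  have hqq : q0 < q := lt_of_le_of_lt (min_le_left _ _) (by linarith)
  have hqr : 0 < q - q0 := by linarith
  obtain ⟨CA, hCA, hA⟩ := PB q q0 h3 h4 hqq.le mp mp_smooth mp_supp
  obtain ⟨CU, hCU, hU⟩ := PB q q0 h3 h4 hqq.le bp bp_smooth bp_supp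
  obtain ⟨C1, hC1, h1⟩ := sumP q 1 (by linarith) one_pos (2 * q - 4) (by linarith) CU hCU
  obtain ⟨C2, hC2, h2⟩ := sumP q ((q - q0) / 2) (by linarith) (by linarith) (q - q0) (by linarith) CU hCU
  refine ⟨2 ^ (q - 1) * (2 ^ (q - 1) * (CA + C1) + C2), by positivity, ?_⟩
  intro F hF hi hF0
  -- middle piece
  have eA : (fun x : ℝ => mp (1 * x + 0)) = mp := by ext x; rw [one_mul, add_zero]
  have eU : (fun x : ℝ => bp (1 * x + 0)) = bp := by ext x; rw [one_mul, add_zero]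
  have eU' : (fun x : ℝ => ‖bp (1 * x + 0)‖ₑ) = fun x => ‖bp x‖ₑ := by ext x; rw [one_mul, add_zero]
  have eA' : (fun x : ℝ => ‖mp (1 * x + 0)‖ₑ) = fun x => ‖mp x‖ₑ := by ext x; rw [one_mul, add_zero]
  have mA : ∫⁻ x, ‖mp x‖ₑ ≤ 1 := by
    refine (kap_le mp_abs mp_mem).trans ?_
    rw [← ENNReal.ofReal_one]; exact ENNReal.ofReal_le_ofReal (by norm_num)
  have mU : ∫⁻ x, ‖bp x‖ₑ ≤ 1 := by
    refine (kap_le bp_abs bp_mem).trans ?_
    rw [← ENNReal.ofReal_one]; exact ENNReal.ofReal_le_ofReal (by norm_num)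
  have pA : Psi q (cF mp F) ≤ ENNReal.ofReal CA * ∫⁻ v, ‖F v‖ₑ ^ q := by
    have h := hA 1 0 (fun x hx => by
      rw [one_mul, add_zero] at hx
      obtain ⟨a, b⟩ := mp_mem x hx
      exact ⟨a, by linarith⟩) F hF hi hF0 (by rw [eA']; exact ne_top_of_le_ne_top ENNReal.one_ne_top mA)
    rw [eA, eA'] at h
    refine h.trans ?_
    calc ENNReal.ofReal CA * (∫⁻ x, ‖mp x‖ₑ) ^ (q - q0) * ∫⁻ v, ‖F v‖ₑ ^ q
        ≤ ENNReal.ofReal CA * 1 * ∫⁻ v, ‖F v‖ₑ ^ q :=
          mul_le_mul' (mul_le_mul' le_rfl (ENNReal.rpow_le_one mA hqr.le)) le_rfl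
      _ = _ := by rw [mul_one]
  have pU : Psi q (cF bp F) ≤ ENNReal.ofReal CU * ∫⁻ v, ‖F v‖ₑ ^ q := by
    have h := hU 1 0 (fun x hx => by
      rw [one_mul, add_zero] at hx
      obtain ⟨a, b⟩ := bp_mem x hx
      exact ⟨a, b⟩) F hF hi hF0 (by rw [eU']; exact ne_top_of_le_ne_top ENNReal.one_ne_top mU)
    rw [eU, eU'] at h
    refine h.trans ?_
    calc ENNReal.ofReal CU * (∫⁻ x, ‖bp x‖ₑ) ^ (q - q0) * ∫⁻ v, ‖F v‖ₑ ^ q
        ≤ ENNReal.ofReal CU * 1 * ∫⁻ v, ‖F v‖ₑ ^ q :=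
          mul_le_mul' (mul_le_mul' le_rfl (ENNReal.rpow_le_one mU hqr.le)) le_rfl
      _ = _ := by rw [mul_one]
  -- pieces near zero
  have s1 := h1 (fun k y => bp (2 ^ (k + 1) * y)) (fun k => bp_meas.comp (measurable_const_mul _))
    (fun k x => bp_abs _)
    (fun k x hx => by
      obtain ⟨a, b⟩ := u_mem k x hx
      rw [abs_of_nonneg a]; linarith [pow_half_le k])
    (fun k => by
      refine (kap_le (fun x => bp_abs _) (u_mem k)).trans (le_of_eq ?_)
      rw [sub_zero])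
    F hF hi (fun k => by
      have e1 : cF (fun y => bp (2 ^ (k + 1) * y)) F = fun x => cF bp F (2 ^ (k + 1) * x.1, 2 ^ (k + 1) * x.2) := by
        ext x
        unfold cF
        simp only
        have h2k : (2 : ℝ) ^ (k + 1) ≠ 0 := by positivity
        rw [mul_div_mul_left _ _ h2k]
      rw [e1, Psi_dil q (2 ^ (k + 1)) (by linarith) (by positivity) _ (cF_meas bp_meas hF)]
      refine (mul_le_mul' le_rfl pU).trans ?_
      rw [← mul_assoc, ← ENNReal.ofReal_mul (by positivity)]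
      refine mul_le_mul' (ENNReal.ofReal_le_ofReal ?_) le_rfl
      rw [mul_comm CU]
      refine mul_le_mul_of_nonneg_right ?_ hCU.le
      rw [← Real.rpow_natCast, ← Real.rpow_mul (by norm_num)]
      refine Real.rpow_le_rpow_of_exponent_le (by norm_num) ?_
      push_cast
      nlinarith [(Nat.cast_nonneg k : (0 : ℝ) ≤ k)])
  -- pieces near one
  have s2 := h2 (fun k y => bp (2 ^ (k + 1) * (1 - y)))
    (fun k => bp_meas.comp ((measurable_const.sub measurable_id).const_mul _))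
    (fun k x => bp_abs _)
    (fun k x hx => by
      obtain ⟨a, b⟩ := v_mem k x hx
      rw [abs_of_nonneg (by linarith [pow_half_le k])]; exact b)
    (fun k => by
      refine (kap_le (fun x => bp_abs _) (v_mem k)).trans (le_of_eq ?_)
      congr 1; ring)
    F hF hi (fun k => by
      have e1 : (fun x : ℝ => bp (-(2 ^ (k + 1)) * x + 2 ^ (k + 1))) = fun y => bp (2 ^ (k + 1) * (1 - y)) := by
        ext x; congr 1; ring
      have e2 : (fun x : ℝ => ‖bp (-(2 ^ (k + 1)) * x + 2 ^ (k + 1))‖ₑ) = fun y => ‖bp (2 ^ (k + 1) * (1 - y))‖ₑ := by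
        ext x; congr 2; ring
      have hM : ∫⁻ x, ‖bp (2 ^ (k + 1) * (1 - x))‖ₑ ≤ ENNReal.ofReal ((1 / 2) ^ (k + 1)) := by
        refine (kap_le (fun x => bp_abs _) (v_mem k)).trans (le_of_eq ?_)
        congr 1; ring
      have h := hU (-(2 ^ (k + 1))) (2 ^ (k + 1)) (fun x hx => by
        have hx' : bp (2 ^ (k + 1) * (1 - x)) ≠ 0 := by
          have e : 2 ^ (k + 1) * (1 - x) = -(2 ^ (k + 1)) * x + 2 ^ (k + 1) := by ring
          rw [e]; exact hx
        obtain ⟨a, b⟩ := v_mem k x hx'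
        exact ⟨by linarith [pow_half_le k], b⟩) F hF hi hF0
        (by rw [e2]; exact ne_top_of_le_ne_top ENNReal.ofReal_ne_top hM)
      rw [e1, e2] at h
      refine h.trans (mul_le_mul' ?_ le_rfl)
      rw [ENNReal.ofReal_mul hCU.le]
      refine mul_le_mul' le_rfl ?_
      refine (ENNReal.rpow_le_rpow hM hqr.le).trans ?_
      rw [ENNReal.ofReal_rpow_of_nonneg (by positivity) hqr.le]
      refine ENNReal.ofReal_le_ofReal ?_
      have e3 : ((1 : ℝ) / 2) ^ (k + 1) = 2 ^ (-((k : ℝ) + 1)) := by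
        rw [Real.rpow_neg (by norm_num), one_div, inv_pow]
        congr 1
        rw [← Real.rpow_natCast]
        push_cast; rfl
      rw [e3, ← Real.rpow_mul (by norm_num)]
      refine Real.rpow_le_rpow_of_exponent_le (by norm_num) ?_
      nlinarith)
  rw [cF_bb] at s1
  rw [cF_bb'] at s2
  -- assembling
  have hmA : Measurable (cF mp F) := cF_meas mp_meas hF
  have hmB : Measurable (cF bb F) := cF_meas bb_meas hF
  have hmB' : Measurable (cF (fun y => bb (1 - y)) F) := cF_meas (bb_meas.comp (measurable_const.sub measurable_id)) hF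
  have hiA : Integrable (cF mp F) := cF_int mp_meas hF hi mp_abs (fun x hx => by
    obtain ⟨a, b⟩ := mp_mem x hx
    exact ⟨by linarith, by linarith⟩)
  have hiB : Integrable (cF bb F) := cF_int bb_meas hF hi bb_abs (fun x hx => by
    obtain ⟨a, b⟩ := bb_supp x hx
    exact ⟨by linarith, by linarith⟩)
  have hbm : Measurable (fun y : ℝ => bb (1 - y)) := bb_meas.comp (measurable_const.sub measurable_id)
  have hiB' : Integrable (cF (fun y => bb (1 - y)) F) :=
    cF_int hbm hF hi (fun x => bb_abs _) (fun x hx => by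
      obtain ⟨a, b⟩ := bb_supp _ hx
      exact ⟨by linarith, by linarith⟩)
  have hsp : cF (ind 1) F = fun x => (cF mp F x + cF bb F x) + cF (fun y => bb (1 - y)) F x := by
    rw [cF_split]
    ext x
    rw [← cF_bb, ← cF_bb']
  rw [hsp]
  have hq1 : (1 : ℝ) ≤ q := by linarith
  have e2 : (2 : ℝ≥0∞) ^ (q - 1) = ENNReal.ofReal (2 ^ (q - 1)) := by
    rw [← ENNReal.ofReal_rpow_of_pos (by norm_num)]; norm_num
  have g1 := Psi_add q hq1 (f := fun x => cF mp F x + cF bb F x) (g := cF (fun y => bb (1 - y)) F)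
    (hmA.add hmB) (hiA.add hiB) hiB'
  have g2 := Psi_add q hq1 (f := cF mp F) (g := cF bb F) hmA hiA hiB
  set N := ∫⁻ v, ‖F v‖ₑ ^ q with hN
  calc Psi q (fun x => (cF mp F x + cF bb F x) + cF (fun y => bb (1 - y)) F x)
      ≤ 2 ^ (q - 1) * (2 ^ (q - 1) * (ENNReal.ofReal CA * N + ENNReal.ofReal C1 * N) + ENNReal.ofReal C2 * N) := by
        refine g1.trans (mul_le_mul' le_rfl (add_le_add ?_ s2))
        exact g2.trans (mul_le_mul' le_rfl (add_le_add pA s1))
    _ = _ := by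
        rw [e2, ENNReal.ofReal_mul (by positivity), ENNReal.ofReal_add (by positivity) hC2.le,
          ENNReal.ofReal_mul (by positivity), ENNReal.ofReal_add hCA.le hC1.le]
        ring

/-- the scaled form -/
theorem Hρ (q : ℝ) (hq3 : 3 < q) :
    ∃ C : ℝ, 0 < C ∧ ∀ F : ℝ → ℂ, Measurable F → Integrable F → (∀ v, v ∉ Icc (0 : ℝ) 1 → F v = 0) →
      ∀ ρ : ℝ, 0 < ρ → Psi q (cF (ind ρ) F) ≤ ENNReal.ofReal (C * ρ ^ (2 * q - 4)) * ∫⁻ v, ‖F v‖ₑ ^ q := by
  obtain ⟨C, hC, h⟩ := H0 q hq3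
  refine ⟨C, hC, ?_⟩
  intro F hF hi hF0 ρ hρ
  have e1 : cF (ind ρ) F = fun x => cF (ind 1) F (ρ⁻¹ * x.1, ρ⁻¹ * x.2) := by
    ext x
    unfold cF
    simp only
    have h2k : ρ⁻¹ ≠ 0 := inv_ne_zero hρ.ne'
    rw [mul_div_mul_left _ _ h2k]
    congr 2
    unfold ind
    by_cases hx : x.1 ∈ Ioo (0 : ℝ) ρ
    · rw [indicator_of_mem hx, indicator_of_mem]
      refine ⟨mul_pos (inv_pos.2 hρ) hx.1, ?_⟩
      rw [inv_mul_lt_iff₀ hρ, mul_one]; exact hx.2
    · rw [indicator_of_notMem hx, indicator_of_notMem]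
      intro hc
      apply hx
      refine ⟨?_, ?_⟩
      · exact pos_of_mul_pos_right hc.1 (inv_pos.2 hρ).le
      · have := hc.2
        rw [inv_mul_lt_iff₀ hρ, mul_one] at this; exact this
  rw [e1, Psi_dil q ρ⁻¹ (by linarith) (inv_pos.2 hρ) _ (cF_meas (ind_meas 1) hF)]
  refine (mul_le_mul' le_rfl (h F hF hi hF0)).trans (le_of_eq ?_)
  rw [← mul_assoc, ← ENNReal.ofReal_mul (by positivity)]
  congr 2
  rw [Real.inv_rpow hρ.le, ← Real.rpow_neg hρ.le, mul_comm]
  congr 2; ring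

end X92.Sec
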