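import Pool.Agent.X92.Sec20
set_option autoImplicit false
open MeasureTheory Set Complex
open scoped ENNReal ComplexConjugate ContDiff Topology

namespace X92.Sec

open X92.Ext (ph T sq2 norm_ph ph_eq T_le T_L2 measurable_Tc Phi)

/-- Hölder with a power weight on the unit interval -/
theorem hold_w (q β : ℝ) (hq : 1 < q) (hβ : β < q - 1) :
    ∃ K : ℝ, 0 < K ∧ ∀ a : ℝ → ℝ≥0∞, AEMeasurable a (volume.restrict (Ioo (0 : ℝ) 1)) →
      (∫⁻ s in Ioo (0 : ℝ) 1, a s) ^ q ≤ ENNReal.ofReal K * ∫⁻ s in Ioo (0 : ℝ) 1, ENNReal.ofReal (s ^ β) * a s ^ q := by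
  have hq0 : 0 < q := by linarith
  have hpq : (q / (q - 1)).HolderConjugate q := by
    rw [Real.holderConjugate_iff]
    have h1 : 0 < q - 1 := by linarith
    refine ⟨?_, ?_⟩
    · rw [lt_div_iff₀ h1]; linarith
    · field_simp; ring
  set w : ℝ → ℝ≥0∞ := fun s => ENNReal.ofReal (s ^ (-(β / q))) with hw
  have hwm : Measurable w := ENNReal.measurable_ofReal.comp (by fun_prop)
  -- the weight integral
  have hI : IntegrableOn (fun s : ℝ => s ^ (-(β / (q - 1)))) (Ioo (0 : ℝ) 1) := by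
    have : -1 < -(β / (q - 1)) := by
      have : β / (q - 1) < 1 := by rw [div_lt_one (by linarith)]; exact hβ
      linarith
    have h := intervalIntegral.intervalIntegrable_rpow' (a := 0) (b := 1) this
    rw [intervalIntegrable_iff_integrableOn_Ioo_of_le (by norm_num)] at h
    exact h
  have hW : ∫⁻ s in Ioo (0 : ℝ) 1, w s ^ (q / (q - 1)) ≠ ⊤ := by
    have e : ∫⁻ s in Ioo (0 : ℝ) 1, w s ^ (q / (q - 1)) = ∫⁻ s in Ioo (0 : ℝ) 1, ENNReal.ofReal (s ^ (-(β / (q - 1)))) := by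
      refine setLIntegral_congr_fun measurableSet_Ioo (fun s hs => ?_)
      simp only [hw]
      have hs0 : 0 < s := hs.1
      rw [ENNReal.ofReal_rpow_of_pos (Real.rpow_pos_of_pos hs0 _), ← Real.rpow_mul hs0.le]
      congr 2
      have : q - 1 ≠ 0 := by linarith
      field_simp
    rw [e]
    exact hI.lintegral_lt_top.ne
  set W := ∫⁻ s in Ioo (0 : ℝ) 1, w s ^ (q / (q - 1)) with hWd
  have hWt : W ^ (q - 1) ≠ ⊤ := ENNReal.rpow_ne_top_of_nonneg (by linarith) hW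
  refine ⟨(W ^ (q - 1)).toReal + 1, by positivity, ?_⟩
  intro a ha
  have h := ENNReal.lintegral_mul_le_Lp_mul_Lq (volume.restrict (Ioo (0 : ℝ) 1)) hpq
    (f := w) (g := fun s => ENNReal.ofReal (s ^ (β / q)) * a s) hwm.aemeasurable
    ((ENNReal.measurable_ofReal.comp (by fun_prop : Measurable (fun s : ℝ => s ^ (β / q)))).aemeasurable.mul ha)
  have e1 : ∫⁻ s in Ioo (0 : ℝ) 1, (w * fun s => ENNReal.ofReal (s ^ (β / q)) * a s) s = ∫⁻ s in Ioo (0 : ℝ) 1, a s := by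
    refine setLIntegral_congr_fun measurableSet_Ioo (fun s hs => ?_)
    have hs0 : 0 < s := hs.1
    simp only [Pi.mul_apply, hw]
    rw [← mul_assoc, ← ENNReal.ofReal_mul (Real.rpow_nonneg hs0.le _), ← Real.rpow_add hs0]
    have : -(β / q) + β / q = 0 := by ring
    rw [this, Real.rpow_zero, ENNReal.ofReal_one, one_mul]
  have e2 : ∫⁻ s in Ioo (0 : ℝ) 1, (ENNReal.ofReal (s ^ (β / q)) * a s) ^ q =
      ∫⁻ s in Ioo (0 : ℝ) 1, ENNReal.ofReal (s ^ β) * a s ^ q := by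
    refine setLIntegral_congr_fun measurableSet_Ioo (fun s hs => ?_)
    have hs0 : 0 < s := hs.1
    rw [ENNReal.mul_rpow_of_nonneg _ _ hq0.le, ENNReal.ofReal_rpow_of_pos (Real.rpow_pos_of_pos hs0 _),
      ← Real.rpow_mul hs0.le]
    congr 3
    field_simp
  rw [e1] at h
  have h2 := ENNReal.rpow_le_rpow h hq0.le
  rw [ENNReal.mul_rpow_of_nonneg _ _ hq0.le, ← ENNReal.rpow_mul, ← ENNReal.rpow_mul] at h2
  have e3 : 1 / (q / (q - 1)) * q = q - 1 := by
    have : q - 1 ≠ 0 := by linarith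
    field_simp
  have e4 : 1 / q * q = 1 := by field_simp
  rw [e3, e4, ENNReal.rpow_one, e2] at h2
  refine h2.trans (mul_le_mul' ?_ le_rfl)
  rw [← hWd, ← ENNReal.ofReal_toReal hWt]
  refine ENNReal.ofReal_le_ofReal ?_
  rw [ENNReal.toReal_ofReal ENNReal.toReal_nonneg]
  linarith

theorem int01 (q : ℝ) (hq : 1 ≤ q) {F : ℝ → ℂ} (hF : Measurable F) (hF0 : ∀ v, v ∉ Icc (0 : ℝ) 1 → F v = 0)
    (hfin : ∫⁻ v, ‖F v‖ₑ ^ q ≠ ⊤) : Integrable F := by
  refine ⟨hF.aestronglyMeasurable, ?_⟩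
  have : IsProbabilityMeasure (volume.restrict (Icc (0 : ℝ) 1)) := by
    constructor
    rw [Measure.restrict_apply_univ, Real.volume_Icc]; norm_num
  have e : ∀ s : ℝ, 0 < s → ∫⁻ v, ‖F v‖ₑ ^ s = ∫⁻ v in Icc (0 : ℝ) 1, ‖F v‖ₑ ^ s := by
    intro s hs
    refine lint01 _ (fun v hv => ?_)
    rw [hF0 v hv, enorm_zero, ENNReal.zero_rpow_of_pos hs]
  have h1 := lpq (volume.restrict (Icc (0 : ℝ) 1)) 1 q one_pos hq F hF.aestronglyMeasurable
  rw [← e 1 one_pos, ← e q (by linarith)] at h1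
  simp only [ENNReal.rpow_one] at h1
  exact lt_of_le_of_lt h1 (ENNReal.rpow_lt_top_of_nonneg (by positivity) hfin)

/-- no integrability needed -/
theorem Hρ' (q : ℝ) (hq3 : 3 < q) :
    ∃ C : ℝ, 0 < C ∧ ∀ F : ℝ → ℂ, Measurable F → (∀ v, v ∉ Icc (0 : ℝ) 1 → F v = 0) →
      ∀ ρ : ℝ, 0 < ρ → Psi q (cF (ind ρ) F) ≤ ENNReal.ofReal (C * ρ ^ (2 * q - 4)) * ∫⁻ v, ‖F v‖ₑ ^ q := by
  obtain ⟨C, hC, h⟩ := Hρ q hq3
  refine ⟨C, hC, ?_⟩
  intro F hF hF0 ρ hρ
  by_cases hfin : ∫⁻ v, ‖F v‖ₑ ^ q = ⊤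
  · rw [hfin, ENNReal.mul_top]
    · exact le_top
    · rw [ne_eq, ENNReal.ofReal_eq_zero, not_le]; positivity
  · exact h F hF (int01 q (by linarith) hF hF0 hfin) hF0 ρ hρ

/-- Minkowski type bound for superpositions -/
theorem Psi_int (q β : ℝ) (hq : 1 < q) (hβ : β < q - 1) :
    ∃ K : ℝ, 0 < K ∧ ∀ h : ℝ × (ℝ × ℝ) → ℂ, Measurable h →
      Integrable h ((volume.restrict (Ioo (0 : ℝ) 1)).prod volume) →
      Psi q (fun x => ∫ s in Ioo (0 : ℝ) 1, h (s, x)) ≤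
        ENNReal.ofReal K * ∫⁻ s in Ioo (0 : ℝ) 1, ENNReal.ofReal (s ^ β) * Psi q (fun x => h (s, x)) := by
  obtain ⟨K, hK, hh⟩ := hold_w q β hq hβ
  refine ⟨K, hK, ?_⟩
  intro h hm hi
  set μ := (volume : Measure ℝ).restrict (Ioo (0 : ℝ) 1) with hμ
  -- joint measurability
  have hTm : Measurable (fun z : ℝ × (ℝ × (ℝ × ℝ)) => T (fun x => h (z.1, x)) z.2.2 (z.2.1, z.2.1)) := by
    unfold T
    have h1 : Measurable (fun y : (ℝ × (ℝ × (ℝ × ℝ))) × (ℝ × ℝ) =>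
        h (y.1.1, y.2) * (ph y.1.2.2 y.2 * ph (y.1.2.1, y.1.2.1) (sq2 y.2))) := by
      refine (hm.comp (by fun_prop)).mul (Measurable.mul ?_ ?_)
      · exact (X92.Ext.continuous_ph.comp (by fun_prop :
          Continuous (fun y : (ℝ × (ℝ × (ℝ × ℝ))) × (ℝ × ℝ) => (y.1.2.2, y.2)))).measurable
      · have hc : Continuous (fun y : (ℝ × (ℝ × (ℝ × ℝ))) × (ℝ × ℝ) => (((y.1.2.1, y.1.2.1) : ℝ × ℝ), sq2 y.2)) :=
          Continuous.prodMk (by fun_prop) (X92.Ext.continuous_sq2.comp continuous_snd)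
        exact (X92.Ext.continuous_ph.comp hc).measurable
    exact (h1.stronglyMeasurable.integral_prod_right').measurable
  have hpt : ∀ (t : ℝ) (p : ℝ × ℝ), ‖T (fun x => ∫ s in Ioo (0 : ℝ) 1, h (s, x)) p (t, t)‖ₑ ≤
      ∫⁻ s, ‖T (fun x => h (s, x)) p (t, t)‖ₑ ∂μ := by
    intro t p
    have hid : T (fun x => ∫ s in Ioo (0 : ℝ) 1, h (s, x)) p (t, t) = ∫ s, T (fun x => h (s, x)) p (t, t) ∂μ := by
      unfold T
      have hsw : Integrable (Function.uncurry (fun (s : ℝ) (x : ℝ × ℝ) => h (s, x) * (ph p x * ph (t, t) (sq2 x))))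
          (μ.prod volume) := by
        have hc : Continuous (fun z : ℝ × (ℝ × ℝ) => ph p z.2 * ph (t, t) (sq2 z.2)) := by
          refine Continuous.mul ?_ ?_
          · exact X92.Ext.continuous_ph.comp (Continuous.prodMk continuous_const continuous_snd)
          · exact X92.Ext.continuous_ph.comp (Continuous.prodMk continuous_const
              (X92.Ext.continuous_sq2.comp continuous_snd))
        have h2 := hi.bdd_mul (c := 1) hc.aestronglyMeasurable (Filter.Eventually.of_forall (fun z => by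
          rw [norm_mul, norm_ph, norm_ph]; norm_num))
        refine h2.congr (Filter.Eventually.of_forall (fun z => ?_))
        simp only [Function.uncurry]
        ring
      rw [integral_integral_swap hsw]
      congr 1
      ext x
      rw [← integral_mul_const]
    rw [hid]
    exact enorm_integral_le_lintegral_enorm _
  have hsm : ∀ (t : ℝ) (p : ℝ × ℝ), Measurable (fun s : ℝ => ‖T (fun x => h (s, x)) p (t, t)‖ₑ) := fun t p =>
    (hTm.comp (measurable_id.prodMk measurable_const : Measurable (fun s : ℝ => (s, ((t, p) : ℝ × (ℝ × ℝ)))))).enorm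
  have hqm : Measurable (fun z : ℝ × (ℝ × (ℝ × ℝ)) =>
      ENNReal.ofReal (z.1 ^ β) * ‖T (fun x => h (z.1, x)) z.2.2 (z.2.1, z.2.1)‖ₑ ^ q) :=
    (ENNReal.measurable_ofReal.comp ((by fun_prop : Measurable (fun s : ℝ => s ^ β)).comp measurable_fst)).mul
      (hTm.enorm.pow_const q)
  unfold Psi Phi
  calc ∫⁻ t : ℝ, ∫⁻ p : ℝ × ℝ, ‖T (fun x => ∫ s in Ioo (0 : ℝ) 1, h (s, x)) p (t, t)‖ₑ ^ q
      ≤ ∫⁻ t : ℝ, ∫⁻ p : ℝ × ℝ, ENNReal.ofReal K *
          ∫⁻ s, ENNReal.ofReal (s ^ β) * ‖T (fun x => h (s, x)) p (t, t)‖ₑ ^ q ∂μ := by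
        refine lintegral_mono (fun t => lintegral_mono (fun p => ?_))
        exact (ENNReal.rpow_le_rpow (hpt t p) (by linarith)).trans (hh _ (hsm t p).aemeasurable)
    _ = ENNReal.ofReal K * ∫⁻ t : ℝ, ∫⁻ p : ℝ × ℝ,
          ∫⁻ s, ENNReal.ofReal (s ^ β) * ‖T (fun x => h (s, x)) p (t, t)‖ₑ ^ q ∂μ := by
        rw [← lintegral_const_mul' _ _ ENNReal.ofReal_ne_top]
        refine lintegral_congr (fun t => ?_)
        rw [lintegral_const_mul' _ _ ENNReal.ofReal_ne_top]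
    _ = ENNReal.ofReal K * ∫⁻ y : ℝ × (ℝ × ℝ),
          ∫⁻ s, ENNReal.ofReal (s ^ β) * ‖T (fun x => h (s, x)) y.2 (y.1, y.1)‖ₑ ^ q ∂μ := by
        congr 1
        have hm2 : Measurable (fun y : ℝ × (ℝ × ℝ) =>
            ∫⁻ s, ENNReal.ofReal (s ^ β) * ‖T (fun x => h (s, x)) y.2 (y.1, y.1)‖ₑ ^ q ∂μ) :=
          hqm.lintegral_prod_left'
        rw [Measure.volume_eq_prod ℝ (ℝ × ℝ), lintegral_prod _ hm2.aemeasurable]
    _ = ENNReal.ofReal K * ∫⁻ s, (∫⁻ y : ℝ × (ℝ × ℝ),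
          ENNReal.ofReal (s ^ β) * ‖T (fun x => h (s, x)) y.2 (y.1, y.1)‖ₑ ^ q) ∂μ := by
        congr 1
        exact (lintegral_lintegral_swap (μ := μ) (ν := (volume : Measure (ℝ × (ℝ × ℝ))))
          (f := fun s y => ENNReal.ofReal (s ^ β) * ‖T (fun x => h (s, x)) y.2 (y.1, y.1)‖ₑ ^ q)
          hqm.aemeasurable).symm
    _ = _ := by
        congr 1
        refine lintegral_congr (fun s => ?_)
        have hm3 : Measurable (fun y : ℝ × (ℝ × ℝ) => ‖T (fun x => h (s, x)) y.2 (y.1, y.1)‖ₑ ^ q) :=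
          (hTm.comp (measurable_const.prodMk measurable_id :
            Measurable (fun y : ℝ × (ℝ × ℝ) => (s, y)))).enorm.pow_const q
        rw [lintegral_const_mul' _ _ ENNReal.ofReal_ne_top]
        rw [Measure.volume_eq_prod ℝ (ℝ × ℝ), lintegral_prod _ hm3.aemeasurable]

end X92.Sec
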