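import Pool.Agent.X92.Sec21
set_option autoImplicit false
open MeasureTheory Set Complex
open scoped ENNReal ComplexConjugate ContDiff Topology

namespace X92.Sec

/-- the half-quadrant triangle -/
def oct : Set (ℝ × ℝ) := {x | x.1 ∈ Ioo (0 : ℝ) 1 ∧ x.2 / x.1 ∈ Icc (0 : ℝ) 1}

theorem oct_meas : MeasurableSet oct := by
  unfold oct
  exact (measurable_fst measurableSet_Ioo).inter ((measurable_snd.div measurable_fst) measurableSet_Icc)

theorem mem_oct (s v : ℝ) (hs : s ∈ Ioo (0 : ℝ) 1) (hv : v ∈ Icc (0 : ℝ) 1) : (s, s * v) ∈ oct := by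
  refine ⟨hs, ?_⟩
  simp only
  rw [mul_div_cancel_left₀ v hs.1.ne']
  exact hv

theorem slice_meas {W : ℝ × ℝ → ℝ≥0∞} (hW : Measurable W) : Measurable (fun z : ℝ × ℝ => W (z.1, z.1 * z.2)) :=
  hW.comp (measurable_fst.prodMk (measurable_fst.mul measurable_snd))

theorem lint_oct (W : ℝ × ℝ → ℝ≥0∞) (hW : Measurable W) :
    ∫⁻ x, oct.indicator W x = ∫⁻ s in Ioo (0 : ℝ) 1, ENNReal.ofReal s * ∫⁻ v in Icc (0 : ℝ) 1, W (s, s * v) := by
  set G : ℝ × ℝ → ℝ≥0∞ := (Ioo (0 : ℝ) 1 ×ˢ Icc (0 : ℝ) 1).indicator (fun z => W (z.1, z.1 * z.2)) with hG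
  have hGm : Measurable G := (slice_meas hW).indicator (measurableSet_Ioo.prod measurableSet_Icc)
  have h := lint_sec G hGm
  have e1 : (fun x : ℝ × ℝ => G (x.1, x.2 / x.1)) = oct.indicator W := by
    ext x
    simp only [hG]
    by_cases hx : x ∈ oct
    · rw [indicator_of_mem hx, indicator_of_mem (show (x.1, x.2 / x.1) ∈ Ioo (0 : ℝ) 1 ×ˢ Icc (0 : ℝ) 1 from ⟨hx.1, hx.2⟩)]
      simp only
      have hx0 : x.1 ≠ 0 := hx.1.1.ne'
      rw [mul_div_cancel₀ _ hx0]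
    · rw [indicator_of_notMem hx, indicator_of_notMem]
      intro hc
      exact hx ⟨hc.1, hc.2⟩
  rw [e1] at h
  rw [h, ← lintegral_indicator measurableSet_Ioo]
  refine lintegral_congr (fun s => ?_)
  by_cases hs : s ∈ Ioo (0 : ℝ) 1
  · rw [indicator_of_mem hs, abs_of_pos hs.1, ← lintegral_indicator measurableSet_Icc]
    congr 1
    refine lintegral_congr (fun v => ?_)
    simp only [hG]
    by_cases hv : v ∈ Icc (0 : ℝ) 1
    · rw [indicator_of_mem hv, indicator_of_mem (show (s, v) ∈ Ioo (0 : ℝ) 1 ×ˢ Icc (0 : ℝ) 1 from ⟨hs, hv⟩)]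
    · rw [indicator_of_notMem hv, indicator_of_notMem (fun hc => hv hc.2)]
  · rw [indicator_of_notMem hs]
    have : ∀ v, G (s, v) = 0 := by
      intro v
      simp only [hG]
      rw [indicator_of_notMem (fun hc => hs hc.1)]
    simp_rw [this]
    simp

theorem lint_oct' (W : ℝ × ℝ → ℝ≥0∞) (hW : Measurable W) :
    ∫⁻ v in Icc (0 : ℝ) 1, ∫⁻ s in Ioo (0 : ℝ) 1, ENNReal.ofReal s * W (s, s * v) = ∫⁻ x, oct.indicator W x := by
  rw [lint_oct W hW]
  have hm : Measurable (fun z : ℝ × ℝ => ENNReal.ofReal z.2 * W (z.2, z.2 * z.1)) :=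
    (ENNReal.measurable_ofReal.comp measurable_snd).mul
      (hW.comp (measurable_snd.prodMk (measurable_snd.mul measurable_fst)))
  have h := lintegral_lintegral_swap (μ := (volume : Measure ℝ).restrict (Icc (0 : ℝ) 1))
    (ν := (volume : Measure ℝ).restrict (Ioo (0 : ℝ) 1))
    (f := fun v s => ENNReal.ofReal s * W (s, s * v)) hm.aemeasurable
  rw [h]
  refine lintegral_congr (fun s => ?_)
  rw [lintegral_const_mul' _ _ ENNReal.ofReal_ne_top]

/-- the derivative along the ray of slope `v` -/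
noncomputable def dr (D : ℝ × ℝ → ℂ) (v s : ℝ) : ℂ := D (s, s * v) / s

theorem dr_meas2 {D : ℝ × ℝ → ℂ} (hD : Measurable D) : Measurable (fun z : ℝ × ℝ => dr D z.2 z.1) := by
  unfold dr
  exact (hD.comp (measurable_fst.prodMk (measurable_fst.mul measurable_snd))).div
    (Complex.measurable_ofReal.comp measurable_fst)

theorem dr_meas {D : ℝ × ℝ → ℂ} (hD : Measurable D) (v : ℝ) : Measurable (dr D v) := by
  have h := (dr_meas2 hD).comp (measurable_id.prodMk measurable_const : Measurable (fun s : ℝ => (s, v)))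
  exact h

theorem dr_hasDeriv {f D : ℝ × ℝ → ℂ}
    (hfD : ∀ x ∈ oct, HasDerivAt (fun l : ℝ => f (l * x.1, l * x.2)) (D x) 1)
    (v : ℝ) (hv : v ∈ Icc (0 : ℝ) 1) (u : ℝ) (hu : u ∈ Ioo (0 : ℝ) 1) :
    HasDerivAt (fun y : ℝ => f (y, y * v)) (dr D v u) u := by
  have h := hfD (u, u * v) (mem_oct u v hu hv)
  simp only at h
  have hu0 : u ≠ 0 := hu.1.ne'
  have h1 : HasDerivAt (fun y : ℝ => y / u) (1 / u) u := (hasDerivAt_id u).div_const u
  have h2 : HasDerivAt (fun l : ℝ => f (l * u, l * (u * v))) (D (u, u * v)) (u / u) := by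
    rw [div_self hu0]; exact h
  have h3 := HasDerivAt.scomp (h := fun y : ℝ => y / u) u h2 h1
  have e : (fun l : ℝ => f (l * u, l * (u * v))) ∘ (fun y : ℝ => y / u) = fun y : ℝ => f (y, y * v) := by
    ext y
    simp only [Function.comp]
    congr 2
    · field_simp
    · field_simp
  rw [e] at h3
  refine h3.congr_deriv ?_
  unfold dr
  rw [Complex.real_smul]
  push_cast
  ring

/-- the good slopes -/
def gd (D : ℝ × ℝ → ℂ) : Set ℝ := {v | v ∈ Icc (0 : ℝ) 1 ∧ ∫⁻ s in Ioo (0 : ℝ) 1, ENNReal.ofReal s * ‖D (s, s * v)‖ₑ < ⊤}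

theorem gd_meas {D : ℝ × ℝ → ℂ} (hD : Measurable D) : MeasurableSet (gd D) := by
  unfold gd
  have hm : Measurable (fun z : ℝ × ℝ => ENNReal.ofReal z.2 * ‖D (z.2, z.2 * z.1)‖ₑ) :=
    (ENNReal.measurable_ofReal.comp measurable_snd).mul
      (hD.comp (measurable_snd.prodMk (measurable_snd.mul measurable_fst))).enorm
  have h2 : Measurable (fun v : ℝ => ∫⁻ s in Ioo (0 : ℝ) 1, ENNReal.ofReal s * ‖D (s, s * v)‖ₑ) :=
    hm.lintegral_prod_right'
  exact measurableSet_Icc.inter (measurableSet_lt h2 measurable_const)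

theorem gd_ae {D : ℝ × ℝ → ℂ} (hD : Measurable D) (hfin : ∫⁻ x, oct.indicator (fun x => ‖D x‖ₑ) x ≠ ⊤) :
    ∀ᵐ v : ℝ, v ∈ Icc (0 : ℝ) 1 → v ∈ gd D := by
  have h := lint_oct' (fun x => ‖D x‖ₑ) hD.enorm
  rw [← h] at hfin
  have hm : Measurable (fun z : ℝ × ℝ => ENNReal.ofReal z.2 * ‖D (z.2, z.2 * z.1)‖ₑ) :=
    (ENNReal.measurable_ofReal.comp measurable_snd).mul
      (hD.comp (measurable_snd.prodMk (measurable_snd.mul measurable_fst))).enorm
  have h2 : Measurable (fun v : ℝ => ∫⁻ s in Ioo (0 : ℝ) 1, ENNReal.ofReal s * ‖D (s, s * v)‖ₑ) :=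
    hm.lintegral_prod_right'
  have h3 := ae_lt_top h2 hfin
  rw [ae_restrict_iff' measurableSet_Icc] at h3
  filter_upwards [h3] with v hv hmem
  exact ⟨hmem, hv hmem⟩

theorem gd_int {D : ℝ × ℝ → ℂ} (hD : Measurable D) (v : ℝ) (hv : v ∈ gd D) (x : ℝ) (hx : 0 < x) :
    IntegrableOn (dr D v) (Ioo x 1) := by
  refine ⟨(dr_meas hD v).aestronglyMeasurable, ?_⟩
  refine lt_of_le_of_lt ?_ (ENNReal.mul_lt_top (ENNReal.ofReal_lt_top (r := (x ^ 2)⁻¹)) hv.2)
  rw [← lintegral_const_mul' _ _ ENNReal.ofReal_ne_top]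
  calc ∫⁻ s in Ioo x 1, ‖dr D v s‖ₑ ≤ ∫⁻ s in Ioo x 1, ENNReal.ofReal ((x ^ 2)⁻¹) * (ENNReal.ofReal s * ‖D (s, s * v)‖ₑ) := by
        refine setLIntegral_mono' measurableSet_Ioo (fun s hs => ?_)
        have hs0 : 0 < s := hx.trans hs.1
        unfold dr
        rw [div_eq_mul_inv, enorm_mul, mul_comm, ← mul_assoc, ← ENNReal.ofReal_mul (by positivity)]
        refine mul_le_mul' ?_ le_rfl
        rw [← Complex.ofReal_inv, enorm_ofReal_nn _ (by positivity)]
        refine ENNReal.ofReal_le_ofReal ?_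
        rw [inv_le_iff_one_le_mul₀ hs0]
        have : 1 ≤ (x ^ 2)⁻¹ * (s * s) := by
          rw [le_inv_mul_iff₀ (by positivity), mul_one]
          nlinarith [hs.1]
        linarith
    _ ≤ _ := lintegral_mono_set (Ioo_subset_Ioo_left hx.le)

/-- the trace at `x₁ = 1` -/
noncomputable def Bt (f D : ℝ × ℝ → ℂ) (v : ℝ) : ℂ :=
  (gd D).indicator (fun v => f (1 / 2, 1 / 2 * v) + ∫ s in Ioo (1 / 2 : ℝ) 1, dr D v s) v

theorem Bt_meas {f D : ℝ × ℝ → ℂ} (hf : Measurable f) (hD : Measurable D) : Measurable (Bt f D) := by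
  unfold Bt
  refine Measurable.indicator ?_ (gd_meas hD)
  refine Measurable.add ?_ ?_
  · exact hf.comp (measurable_const.prodMk (measurable_const.mul measurable_id))
  · have h1 : Measurable (fun z : ℝ × ℝ => dr D z.1 z.2) := (dr_meas2 hD).comp measurable_swap
    exact (h1.stronglyMeasurable.integral_prod_right').measurable

theorem Bt_supp {f D : ℝ × ℝ → ℂ} (v : ℝ) (hv : v ∉ Icc (0 : ℝ) 1) : Bt f D v = 0 := by
  unfold Bt
  rw [indicator_of_notMem]
  exact fun h => hv h.1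

/-- the trace formula -/
theorem Bt_eq {f D : ℝ × ℝ → ℂ} (hD : Measurable D)
    (hfD : ∀ x ∈ oct, HasDerivAt (fun l : ℝ => f (l * x.1, l * x.2)) (D x) 1)
    (v : ℝ) (hv : v ∈ gd D) (r : ℝ) (hr : r ∈ Ioo (0 : ℝ) 1) :
    Bt f D v = f (r, r * v) + ∫ s in Ioo r 1, dr D v s := by
  unfold Bt
  rw [indicator_of_mem hv]
  have hio : ∀ a : ℝ, a ∈ Ioo (0 : ℝ) 1 → IntervalIntegrable (dr D v) volume a 1 := by
    intro a ha
    rw [intervalIntegrable_iff_integrableOn_Ioo_of_le ha.2.le]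
    exact gd_int hD v hv a ha.1
  have hii : ∀ a b : ℝ, a ∈ Ioo (0 : ℝ) 1 → b ∈ Ioo (0 : ℝ) 1 → IntervalIntegrable (dr D v) volume a b :=
    fun a b ha hb => (hio a ha).trans (hio b hb).symm
  have hs : ∀ a : ℝ, a ∈ Ioo (0 : ℝ) 1 → ∫ s in Ioo a 1, dr D v s = ∫ s in a..1, dr D v s := by
    intro a ha
    rw [intervalIntegral.integral_of_le ha.2.le, integral_Ioc_eq_integral_Ioo]
  have hh : (1 / 2 : ℝ) ∈ Ioo (0 : ℝ) 1 := by constructor <;> norm_num
  rw [hs _ hh, hs _ hr]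
  have hftc : ∫ s in (1 / 2 : ℝ)..r, dr D v s = f (r, r * v) - f (1 / 2, 1 / 2 * v) := by
    have hsub : uIcc (1 / 2 : ℝ) r ⊆ Ioo 0 1 := by
      intro y hy
      rw [mem_uIcc] at hy
      rcases hy with hy | hy
      · exact ⟨by linarith [hy.1], by linarith [hy.2, hr.2]⟩
      · exact ⟨by linarith [hy.1, hr.1], by linarith [hy.2]⟩
    have := intervalIntegral.integral_eq_sub_of_hasDerivAt (f := fun y : ℝ => f (y, y * v)) (f' := dr D v)
      (a := 1 / 2) (b := r) (fun y hy => dr_hasDeriv hfD v hv.1 y (hsub hy)) (hii _ _ hh hr)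
    simpa using this
  have hadd := intervalIntegral.integral_add_adjacent_intervals (hii _ _ hh hr) (hio r hr)
  rw [← hadd, hftc]
  ring

end X92.Sec
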