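import Pool.Agent.X92.Sec22
set_option autoImplicit false
open MeasureTheory Set Complex
open scoped ENNReal ComplexConjugate ContDiff Topology

namespace X92.Sec

open X92.Ext (ph T sq2 norm_ph ph_eq T_le T_L2 measurable_Tc Phi)

theorem T_congr {f g : ℝ × ℝ → ℂ} (h : f =ᵐ[volume] g) (p b : ℝ × ℝ) : T f p b = T g p b := by
  unfold T
  refine integral_congr_ae ?_
  filter_upwards [h] with x hx
  rw [hx]

theorem Psi_congr (q : ℝ) {f g : ℝ × ℝ → ℂ} (h : f =ᵐ[volume] g) : Psi q f = Psi q g := by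
  unfold Psi Phi
  simp_rw [T_congr h]

theorem Psi_neg (q : ℝ) (f : ℝ × ℝ → ℂ) : Psi q (fun x => -f x) = Psi q f := by
  unfold Psi Phi
  have : ∀ p b, T (fun x => -f x) p b = -T f p b := by
    intro p b
    unfold T
    rw [← integral_neg]
    congr 1
    ext x
    ring
  simp_rw [this, enorm_neg]

noncomputable def Gs (D : ℝ × ℝ → ℂ) (s v : ℝ) : ℂ := (Icc (0 : ℝ) 1).indicator (fun v => dr D v s) v

theorem Gs_meas2 {D : ℝ × ℝ → ℂ} (hD : Measurable D) : Measurable (fun z : ℝ × ℝ => Gs D z.1 z.2) := by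
  have h1 : (fun z : ℝ × ℝ => Gs D z.1 z.2) = (univ ×ˢ Icc (0 : ℝ) 1).indicator (fun z : ℝ × ℝ => dr D z.2 z.1) := by
    ext z
    unfold Gs
    by_cases hz : z.2 ∈ Icc (0 : ℝ) 1
    · rw [indicator_of_mem hz, indicator_of_mem (show z ∈ univ ×ˢ Icc (0 : ℝ) 1 from ⟨mem_univ _, hz⟩)]
    · rw [indicator_of_notMem hz, indicator_of_notMem (fun h => hz h.2)]
  rw [h1]
  exact (dr_meas2 hD).indicator (MeasurableSet.univ.prod measurableSet_Icc)

theorem Gs_meas {D : ℝ × ℝ → ℂ} (hD : Measurable D) (s : ℝ) : Measurable (Gs D s) :=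
  (Gs_meas2 hD).comp (measurable_const.prodMk measurable_id : Measurable (fun v : ℝ => (s, v)))

theorem Gs_supp {D : ℝ × ℝ → ℂ} (s v : ℝ) (hv : v ∉ Icc (0 : ℝ) 1) : Gs D s v = 0 := by
  unfold Gs; rw [indicator_of_notMem hv]

noncomputable def hf (D : ℝ × ℝ → ℂ) (z : ℝ × (ℝ × ℝ)) : ℂ := cF (ind z.1) (Gs D z.1) z.2

theorem ind_eq (s x : ℝ) : ind s x = if 0 < x ∧ x < s then 1 else 0 := by
  unfold ind
  by_cases h : 0 < x ∧ x < s
  · rw [if_pos h, indicator_of_mem (show x ∈ Ioo 0 s from h)]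
  · rw [if_neg h, indicator_of_notMem (show x ∉ Ioo 0 s from h)]

theorem hf_meas {D : ℝ × ℝ → ℂ} (hD : Measurable D) : Measurable (hf D) := by
  unfold hf cF
  simp_rw [ind_eq]
  refine Measurable.mul ?_ ?_
  · refine Complex.measurable_ofReal.comp (Measurable.ite ?_ measurable_const measurable_const)
    exact (measurableSet_lt (f := fun _ : ℝ × (ℝ × ℝ) => (0 : ℝ)) (g := fun z : ℝ × (ℝ × ℝ) => z.2.1)
      measurable_const (measurable_fst.comp measurable_snd)).inter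
      (measurableSet_lt (f := fun z : ℝ × (ℝ × ℝ) => z.2.1) (g := fun z : ℝ × (ℝ × ℝ) => z.1)
        (measurable_fst.comp measurable_snd) measurable_fst)
  · exact (Gs_meas2 hD).comp (measurable_fst.prodMk
      ((measurable_snd.comp measurable_snd).div (measurable_fst.comp measurable_snd)))

theorem Gs_pow {D : ℝ × ℝ → ℂ} (q : ℝ) (hq : 0 < q) (s : ℝ) (hs : 0 < s) :
    ∫⁻ v, ‖Gs D s v‖ₑ ^ q = ENNReal.ofReal (s ^ (-q)) * ∫⁻ v in Icc (0 : ℝ) 1, ‖D (s, s * v)‖ₑ ^ q := by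
  rw [← lintegral_const_mul' _ _ ENNReal.ofReal_ne_top, ← lintegral_indicator measurableSet_Icc]
  refine lintegral_congr (fun v => ?_)
  unfold Gs
  by_cases hv : v ∈ Icc (0 : ℝ) 1
  · rw [indicator_of_mem hv, indicator_of_mem hv]
    unfold dr
    rw [div_eq_mul_inv, enorm_mul, ENNReal.mul_rpow_of_nonneg _ _ hq.le, mul_comm, ← Complex.ofReal_inv,
      enorm_ofReal_nn _ (by positivity), ENNReal.ofReal_rpow_of_pos (inv_pos.2 hs), Real.inv_rpow hs.le,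
      Real.rpow_neg hs.le]
  · rw [indicator_of_notMem hv, indicator_of_notMem hv, enorm_zero, ENNReal.zero_rpow_of_pos hq]

theorem ind_L1 (s : ℝ) (hs : 0 < s) : ∫⁻ x : ℝ, ENNReal.ofReal |x| * ‖ind s x‖ₑ ≤ ENNReal.ofReal (s * s) := by
  calc ∫⁻ x : ℝ, ENNReal.ofReal |x| * ‖ind s x‖ₑ ≤ ∫⁻ x, (Ioo (0 : ℝ) s).indicator (fun _ => ENNReal.ofReal s) x := by
        refine lintegral_mono (fun x => ?_)
        simp only
        by_cases h : x ∈ Ioo (0 : ℝ) s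
        · rw [indicator_of_mem h]
          unfold ind
          rw [indicator_of_mem h]
          have : ‖(1 : ℝ)‖ₑ = 1 := by simp
          rw [this, mul_one, abs_of_pos h.1]
          exact ENNReal.ofReal_le_ofReal h.2.le
        · unfold ind
          rw [indicator_of_notMem h, indicator_of_notMem h]; simp
    _ = ENNReal.ofReal (s * s) := by
        rw [lintegral_indicator measurableSet_Ioo, setLIntegral_const, Real.volume_Ioo, sub_zero,
          ← ENNReal.ofReal_mul hs.le]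

theorem hf_int {D : ℝ × ℝ → ℂ} (hD : Measurable D) (hfin : ∫⁻ x, oct.indicator (fun x => ‖D x‖ₑ) x ≠ ⊤) :
    Integrable (hf D) ((volume.restrict (Ioo (0 : ℝ) 1)).prod volume) := by
  refine ⟨(hf_meas hD).aestronglyMeasurable, ?_⟩
  unfold HasFiniteIntegral
  rw [lintegral_prod _ (hf_meas hD).enorm.aemeasurable]
  rw [lint_oct _ hD.enorm] at hfin
  refine lt_of_le_of_lt ?_ (lt_top_iff_ne_top.2 hfin)
  refine setLIntegral_mono' measurableSet_Ioo (fun s hs => ?_)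
  unfold hf
  simp only
  have hs0 : 0 < s := hs.1
  rw [cF_L1 (ind_meas s) (Gs_meas hD s)]
  have h1 := Gs_pow (D := D) 1 one_pos s hs0
  simp only [ENNReal.rpow_one] at h1
  rw [h1]
  refine (mul_le_mul' (ind_L1 s hs0) le_rfl).trans (le_of_eq ?_)
  rw [← mul_assoc, ← ENNReal.ofReal_mul (by positivity)]
  congr 2
  rw [Real.rpow_neg hs0.le, Real.rpow_one, mul_assoc, mul_inv_cancel₀ hs0.ne', mul_one]

/-- the superposition bound -/
theorem H_bound (q : ℝ) (hq3 : 3 < q) :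
    ∃ C : ℝ, 0 < C ∧ ∀ D : ℝ × ℝ → ℂ, Measurable D → (∫⁻ x, oct.indicator (fun x => ‖D x‖ₑ) x ≠ ⊤) →
      Psi q (fun x => ∫ s in Ioo (0 : ℝ) 1, hf D (s, x)) ≤
        ENNReal.ofReal C * ∫⁻ x, oct.indicator (fun x => ‖D x‖ₑ ^ q) x := by
  obtain ⟨K, hK, h1⟩ := Psi_int q (5 - q) (by linarith) (by linarith)
  obtain ⟨C, hC, h2⟩ := Hρ' q hq3
  refine ⟨K * C, by positivity, ?_⟩
  intro D hD hfin
  refine (h1 (hf D) (hf_meas hD) (hf_int hD hfin)).trans ?_
  rw [ENNReal.ofReal_mul hK.le, mul_assoc]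
  refine mul_le_mul' le_rfl ?_
  rw [lint_oct _ (hD.enorm.pow_const q), ← lintegral_const_mul' _ _ ENNReal.ofReal_ne_top]
  refine setLIntegral_mono' measurableSet_Ioo (fun s hs => ?_)
  have hs0 : 0 < s := hs.1
  have h3 := h2 (Gs D s) (Gs_meas hD s) (Gs_supp s) s hs0
  rw [Gs_pow q (by linarith) s hs0] at h3
  have e1 : (fun x => hf D (s, x)) = cF (ind s) (Gs D s) := rfl
  rw [e1]
  refine (mul_le_mul' le_rfl h3).trans (le_of_eq ?_)
  rw [← mul_assoc, ← mul_assoc, ← mul_assoc, ← ENNReal.ofReal_mul (by positivity), ← ENNReal.ofReal_mul (by positivity),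
    ← ENNReal.ofReal_mul hC.le]
  congr 2
  have : s ^ (5 - q) * (C * s ^ (2 * q - 4)) * s ^ (-q) = C * (s ^ (5 - q) * s ^ (2 * q - 4) * s ^ (-q)) := by ring
  rw [this, ← Real.rpow_add hs0, ← Real.rpow_add hs0]
  have e2 : 5 - q + (2 * q - 4) + -q = 1 := by ring
  rw [e2, Real.rpow_one]

/-- the trace bound -/
theorem Bt_bound (q : ℝ) (hq : 1 < q) :
    ∃ C : ℝ, 0 < C ∧ ∀ f D : ℝ × ℝ → ℂ, Measurable f → Measurable D →
      (∀ x ∈ oct, HasDerivAt (fun l : ℝ => f (l * x.1, l * x.2)) (D x) 1) →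
      ∫⁻ v, ‖Bt f D v‖ₑ ^ q ≤ ENNReal.ofReal C * ((∫⁻ x, oct.indicator (fun x => ‖f x‖ₑ ^ q) x) +
        ∫⁻ x, oct.indicator (fun x => ‖D x‖ₑ ^ q) x) := by
  obtain ⟨K, hK, hh⟩ := hold_w q 0 hq (by linarith)
  refine ⟨2 ^ (q - 1) * (4 + K * 2 ^ (q + 1)), by positivity, ?_⟩
  intro f D hf hD hfD
  have h2 : (2 : ℝ≥0∞) ^ (q - 1) = ENNReal.ofReal (2 ^ (q - 1)) := by
    rw [← ENNReal.ofReal_rpow_of_pos (by norm_num)]; norm_num
  have hq0 : 0 < q := by linarith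
  -- the pointwise bound
  set a : ℝ → ℝ≥0∞ := fun v => ∫⁻ s in Ioo (1 / 2 : ℝ) 1, ‖dr D v s‖ₑ with ha
  have hB : ∀ v ∈ gd D, ∀ r ∈ Ioo (1 / 2 : ℝ) 1, ‖Bt f D v‖ₑ ^ q ≤
      ENNReal.ofReal (2 ^ (q - 1)) * (‖f (r, r * v)‖ₑ ^ q + a v ^ q) := by
    intro v hv r hr
    rw [Bt_eq hD hfD v hv r ⟨by linarith [hr.1], hr.2⟩, ← h2]
    refine (ENNReal.rpow_le_rpow (enorm_add_le _ _) hq0.le).trans
      ((ENNReal.rpow_add_le_mul_rpow_add_rpow _ _ hq.le).trans ?_)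
    refine mul_le_mul' le_rfl (add_le_add le_rfl (ENNReal.rpow_le_rpow ?_ hq0.le))
    refine (enorm_integral_le_lintegral_enorm _).trans ?_
    exact lintegral_mono_set (Ioo_subset_Ioo_left hr.1.le)
  -- the bound for a
  have hab : ∀ v, a v ^ q ≤ ENNReal.ofReal (K * 2 ^ (q + 1)) * ∫⁻ s in Ioo (0 : ℝ) 1, ENNReal.ofReal s * ‖D (s, s * v)‖ₑ ^ q := by
    intro v
    have e0 : Ioi (1 / 2 : ℝ) ∩ Ioo 0 1 = Ioo (1 / 2) 1 := by
      ext s
      constructor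
      · intro hs; exact ⟨hs.1, hs.2.2⟩
      · intro hs; exact ⟨hs.1, by linarith [hs.1], hs.2⟩
    have e1 : a v = ∫⁻ s in Ioo (0 : ℝ) 1, (Ioi (1 / 2 : ℝ)).indicator (fun s => ‖dr D v s‖ₑ) s := by
      rw [setLIntegral_indicator measurableSet_Ioi, e0]
    rw [e1]
    refine (hh _ ((dr_meas hD v).enorm.indicator measurableSet_Ioi).aemeasurable).trans ?_
    rw [ENNReal.ofReal_mul hK.le, mul_assoc]
    refine mul_le_mul' le_rfl ?_
    rw [← lintegral_const_mul' _ _ ENNReal.ofReal_ne_top]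
    refine setLIntegral_mono' measurableSet_Ioo (fun s hs => ?_)
    rw [Real.rpow_zero, ENNReal.ofReal_one, one_mul]
    by_cases hs2 : s ∈ Ioi (1 / 2 : ℝ)
    · rw [indicator_of_mem hs2]
      have hs0 : 0 < s := hs.1
      unfold dr
      rw [div_eq_mul_inv, enorm_mul, ENNReal.mul_rpow_of_nonneg _ _ hq0.le, mul_comm, ← Complex.ofReal_inv,
        enorm_ofReal_nn _ (by positivity), ENNReal.ofReal_rpow_of_pos (inv_pos.2 hs0), ← mul_assoc,
        ← ENNReal.ofReal_mul (by positivity)]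
      refine mul_le_mul' (ENNReal.ofReal_le_ofReal ?_) le_rfl
      have g1 : s⁻¹ ≤ 2 := by
        rw [inv_le_comm₀ hs0 (by norm_num)]
        have : (1 / 2 : ℝ) < s := hs2
        linarith
      have g2 : s⁻¹ ^ q ≤ 2 ^ q := Real.rpow_le_rpow (by positivity) g1 hq0.le
      have g3 : (2 : ℝ) ^ (q + 1) = 2 ^ q * 2 := by rw [Real.rpow_add (by norm_num), Real.rpow_one]
      rw [g3]
      have g4 : 0 < (2 : ℝ) ^ q := by positivity
      have : (1 / 2 : ℝ) < s := hs2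
      nlinarith
    · rw [indicator_of_notMem hs2, ENNReal.zero_rpow_of_pos hq0]
      exact zero_le
  -- integrate
  have hfm2 : Measurable (fun z : ℝ × ℝ => ENNReal.ofReal z.2 * ‖f (z.2, z.2 * z.1)‖ₑ ^ q) :=
    (ENNReal.measurable_ofReal.comp measurable_snd).mul
      ((hf.comp (measurable_snd.prodMk (measurable_snd.mul measurable_fst))).enorm.pow_const q)
  have hfm3 : Measurable (fun v : ℝ => ∫⁻ s in Ioo (0 : ℝ) 1, ENNReal.ofReal s * ‖f (s, s * v)‖ₑ ^ q) :=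
    hfm2.lintegral_prod_right'
  have hBv : ∀ v : ℝ, v ∈ Icc (0 : ℝ) 1 → ‖Bt f D v‖ₑ ^ q ≤ ENNReal.ofReal (2 ^ (q - 1) * (4 + K * 2 ^ (q + 1))) *
      ((∫⁻ s in Ioo (0 : ℝ) 1, ENNReal.ofReal s * ‖f (s, s * v)‖ₑ ^ q) +
        ∫⁻ s in Ioo (0 : ℝ) 1, ENNReal.ofReal s * ‖D (s, s * v)‖ₑ ^ q) := by
    intro v hv0
    by_cases hv : v ∈ gd D
    · have hhalf : ∫⁻ r in Ioo (1 / 2 : ℝ) 1, ‖Bt f D v‖ₑ ^ q = ENNReal.ofReal (1 / 2) * ‖Bt f D v‖ₑ ^ q := by
        rw [setLIntegral_const, Real.volume_Ioo, mul_comm]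
        congr 2; norm_num
      have hfr : Measurable (fun r : ℝ => ‖f (r, r * v)‖ₑ ^ q) :=
        (hf.comp (measurable_id.prodMk (measurable_id.mul measurable_const))).enorm.pow_const q
      have g1 : ENNReal.ofReal (1 / 2) * ‖Bt f D v‖ₑ ^ q ≤ ENNReal.ofReal (2 ^ (q - 1)) *
          ((∫⁻ r in Ioo (1 / 2 : ℝ) 1, ‖f (r, r * v)‖ₑ ^ q) + a v ^ q * ENNReal.ofReal (1 / 2)) := by
        rw [← hhalf]
        refine (setLIntegral_mono' measurableSet_Ioo (fun r hr => hB v hv r hr)).trans (le_of_eq ?_)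
        rw [lintegral_const_mul' _ _ ENNReal.ofReal_ne_top, lintegral_add_left hfr, setLIntegral_const, Real.volume_Ioo]
        congr 3
        congr 1; norm_num
      have g2 : ∫⁻ r in Ioo (1 / 2 : ℝ) 1, ‖f (r, r * v)‖ₑ ^ q ≤
          ENNReal.ofReal 2 * ∫⁻ s in Ioo (0 : ℝ) 1, ENNReal.ofReal s * ‖f (s, s * v)‖ₑ ^ q := by
        rw [← lintegral_const_mul' _ _ ENNReal.ofReal_ne_top]
        refine le_trans ?_ (lintegral_mono_set (Ioo_subset_Ioo_left (by norm_num : (0 : ℝ) ≤ 1 / 2)))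
        refine setLIntegral_mono' measurableSet_Ioo (fun r hr => ?_)
        rw [← mul_assoc, ← ENNReal.ofReal_mul (by norm_num)]
        have : (1 : ℝ≥0∞) ≤ ENNReal.ofReal (2 * r) := by
          rw [← ENNReal.ofReal_one]; exact ENNReal.ofReal_le_ofReal (by linarith [hr.1])
        calc ‖f (r, r * v)‖ₑ ^ q = 1 * ‖f (r, r * v)‖ₑ ^ q := (one_mul _).symm
          _ ≤ _ := mul_le_mul' this le_rfl
      set X := ∫⁻ s in Ioo (0 : ℝ) 1, ENNReal.ofReal s * ‖f (s, s * v)‖ₑ ^ q with hX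
      set Y := ∫⁻ s in Ioo (0 : ℝ) 1, ENNReal.ofReal s * ‖D (s, s * v)‖ₑ ^ q with hY
      have g3 : ENNReal.ofReal (1 / 2) * ‖Bt f D v‖ₑ ^ q ≤ ENNReal.ofReal (2 ^ (q - 1)) *
          (ENNReal.ofReal 2 * X + (ENNReal.ofReal (K * 2 ^ (q + 1)) * Y) * ENNReal.ofReal (1 / 2)) :=
        g1.trans (mul_le_mul' le_rfl (add_le_add g2 (mul_le_mul' (hab v) le_rfl)))
      have e12 : ENNReal.ofReal 2 * ENNReal.ofReal (1 / 2) = 1 := by
        rw [← ENNReal.ofReal_mul (by norm_num)]; norm_num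
      calc ‖Bt f D v‖ₑ ^ q = ENNReal.ofReal 2 * (ENNReal.ofReal (1 / 2) * ‖Bt f D v‖ₑ ^ q) := by
            rw [← mul_assoc, e12, one_mul]
        _ ≤ ENNReal.ofReal 2 * (ENNReal.ofReal (2 ^ (q - 1)) *
          (ENNReal.ofReal 2 * X + (ENNReal.ofReal (K * 2 ^ (q + 1)) * Y) * ENNReal.ofReal (1 / 2))) :=
            mul_le_mul' le_rfl g3
        _ = ENNReal.ofReal (2 ^ (q - 1)) * ((ENNReal.ofReal 2 * ENNReal.ofReal 2) * X +
            (ENNReal.ofReal 2 * ENNReal.ofReal (1 / 2)) * (ENNReal.ofReal (K * 2 ^ (q + 1)) * Y)) := by ring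
        _ = ENNReal.ofReal (2 ^ (q - 1)) * (ENNReal.ofReal 4 * X + ENNReal.ofReal (K * 2 ^ (q + 1)) * Y) := by
            rw [e12, one_mul, ← ENNReal.ofReal_mul (by norm_num)]
            norm_num
        _ ≤ ENNReal.ofReal (2 ^ (q - 1)) * (ENNReal.ofReal (4 + K * 2 ^ (q + 1)) * X +
              ENNReal.ofReal (4 + K * 2 ^ (q + 1)) * Y) := by
            refine mul_le_mul' le_rfl (add_le_add (mul_le_mul' (ENNReal.ofReal_le_ofReal ?_) le_rfl)
              (mul_le_mul' (ENNReal.ofReal_le_ofReal ?_) le_rfl))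
            · have : 0 ≤ K * 2 ^ (q + 1) := by positivity
              linarith
            · linarith
        _ = _ := by
            rw [ENNReal.ofReal_mul (by positivity : (0 : ℝ) ≤ 2 ^ (q - 1))]
            ring
    · unfold Bt
      rw [indicator_of_notMem hv, enorm_zero, ENNReal.zero_rpow_of_pos hq0]
      exact zero_le
  have e5 : ∫⁻ v, ‖Bt f D v‖ₑ ^ q = ∫⁻ v in Icc (0 : ℝ) 1, ‖Bt f D v‖ₑ ^ q := by
    refine lint01 _ (fun v hv => ?_)
    rw [Bt_supp v hv, enorm_zero, ENNReal.zero_rpow_of_pos hq0]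
  rw [e5]
  refine (setLIntegral_mono' measurableSet_Icc hBv).trans (le_of_eq ?_)
  rw [lintegral_const_mul' _ _ ENNReal.ofReal_ne_top, lintegral_add_left hfm3]
  rw [lint_oct' (fun x => ‖f x‖ₑ ^ q) (hf.enorm.pow_const q), lint_oct' (fun x => ‖D x‖ₑ ^ q) (hD.enorm.pow_const q)]

end X92.Sec
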