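import Pool.Agent.X92.Sec23
set_option autoImplicit false
open MeasureTheory Set Complex
open scoped ENNReal ComplexConjugate ContDiff Topology

namespace X92.Sec

open X92.Ext (ph T sq2 norm_ph ph_eq T_le T_L2 measurable_Tc Phi)

theorem ae_slope {D : ℝ × ℝ → ℂ} (hD : Measurable D) (hfin : ∫⁻ x, oct.indicator (fun x => ‖D x‖ₑ) x ≠ ⊤) :
    ∀ᵐ x : ℝ × ℝ, x.2 / x.1 ∈ Icc (0 : ℝ) 1 → x.2 / x.1 ∈ gd D := by
  set N : Set ℝ := Icc (0 : ℝ) 1 ∩ (gd D)ᶜ with hN
  have hNm : MeasurableSet N := measurableSet_Icc.inter (gd_meas hD).compl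
  have hN0 : volume N = 0 := by
    have h := gd_ae hD hfin
    rw [ae_iff] at h
    have : {v : ℝ | ¬(v ∈ Icc (0 : ℝ) 1 → v ∈ gd D)} = N := by
      ext v
      simp only [mem_ofPred_eq, hN, mem_inter_iff, mem_compl_iff, Classical.not_imp]
    rw [this] at h
    exact h
  have hm : Measurable (fun z : ℝ × ℝ => N.indicator (fun _ => (1 : ℝ≥0∞)) z.2) :=
    (measurable_const.indicator hNm).comp measurable_snd
  have h := lint_sec (fun z => N.indicator (fun _ => (1 : ℝ≥0∞)) z.2) hm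
  simp only at h
  rw [lintegral_indicator hNm, setLIntegral_one, hN0] at h
  simp only [mul_zero, lintegral_zero] at h
  have hm2 : Measurable (fun x : ℝ × ℝ => N.indicator (fun _ => (1 : ℝ≥0∞)) (x.2 / x.1)) :=
    (measurable_const.indicator hNm).comp (measurable_snd.div measurable_fst)
  rw [lintegral_eq_zero_iff hm2] at h
  filter_upwards [h] with x hx hmem
  by_contra hc
  simp only [Pi.zero_apply] at hx
  rw [indicator_of_mem (show x.2 / x.1 ∈ N from ⟨hmem, hc⟩)] at hx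
  exact one_ne_zero hx

theorem oct_id {f D : ℝ × ℝ → ℂ} (hD : Measurable D)
    (hfD : ∀ x ∈ oct, HasDerivAt (fun l : ℝ => f (l * x.1, l * x.2)) (D x) 1)
    (x : ℝ × ℝ) (hx : x.2 / x.1 ∈ Icc (0 : ℝ) 1 → x.2 / x.1 ∈ gd D) :
    oct.indicator f x = cF (ind 1) (Bt f D) x + -(∫ s in Ioo (0 : ℝ) 1, hf D (s, x)) := by
  by_cases h1 : x.1 ∈ Ioo (0 : ℝ) 1
  · by_cases h2 : x.2 / x.1 ∈ Icc (0 : ℝ) 1
    · have hg := hx h2
      have hx0 : x.1 ≠ 0 := h1.1.ne'
      rw [indicator_of_mem (show x ∈ oct from ⟨h1, h2⟩)]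
      have hB := Bt_eq hD hfD _ hg x.1 h1
      rw [mul_div_cancel₀ _ hx0] at hB
      have e1 : cF (ind 1) (Bt f D) x = Bt f D (x.2 / x.1) := by
        unfold cF
        rw [ind_eq, if_pos (show 0 < x.1 ∧ x.1 < 1 from h1)]; simp
      have e2 : ∫ s in Ioo (0 : ℝ) 1, hf D (s, x) = ∫ s in Ioo x.1 1, dr D (x.2 / x.1) s := by
        have e3 : ∀ s : ℝ, hf D (s, x) = (Ioi x.1).indicator (fun s => dr D (x.2 / x.1) s) s := by
          intro s
          unfold hf cF Gs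
          simp only
          rw [indicator_of_mem h2, ind_eq]
          by_cases hs : x.1 < s
          · rw [if_pos ⟨h1.1, hs⟩, indicator_of_mem (show s ∈ Ioi x.1 from hs)]; simp
          · rw [if_neg (fun h => hs h.2), indicator_of_notMem (show s ∉ Ioi x.1 from hs)]; simp
        simp_rw [e3]
        have e0 : Ioo (0 : ℝ) 1 ∩ Ioi x.1 = Ioo x.1 1 := by
          ext s
          constructor
          · intro hs; exact ⟨hs.2, hs.1.2⟩
          · intro hs; exact ⟨⟨h1.1.trans hs.1, hs.2⟩, hs.1⟩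
        rw [setIntegral_indicator measurableSet_Ioi, e0]
      rw [e1, e2, hB]
      simp
    · rw [indicator_of_notMem (fun h => h2 h.2)]
      have e1 : cF (ind 1) (Bt f D) x = 0 := by
        unfold cF
        rw [Bt_supp _ h2, mul_zero]
      have e3 : ∀ s : ℝ, hf D (s, x) = 0 := by
        intro s
        unfold hf cF
        simp only
        rw [Gs_supp _ _ h2, mul_zero]
      simp_rw [e3]
      rw [e1]; simp
  · rw [indicator_of_notMem (fun h => h1 h.1)]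
    have e1 : cF (ind 1) (Bt f D) x = 0 := by
      unfold cF
      rw [ind_eq, if_neg (show ¬ (0 < x.1 ∧ x.1 < 1) from h1)]; simp
    have e3 : ∫ s in Ioo (0 : ℝ) 1, hf D (s, x) = 0 := by
      rw [setIntegral_congr_fun (g := fun _ => (0 : ℂ)) measurableSet_Ioo]
      · simp
      · intro s hs
        unfold hf cF
        simp only
        rw [ind_eq, if_neg (fun h => h1 ⟨h.1, h.2.trans hs.2⟩)]; simp
    rw [e1, e3]; simp

theorem oct_L1 (q : ℝ) (hq : 1 ≤ q) {D : ℝ × ℝ → ℂ} (hD : Measurable D)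
    (hfin : ∫⁻ x, oct.indicator (fun x => ‖D x‖ₑ ^ q) x ≠ ⊤) :
    ∫⁻ x, oct.indicator (fun x => ‖D x‖ₑ) x ≠ ⊤ := by
  have h1 : ∫⁻ x : ℝ × ℝ, oct.indicator (fun _ => (1 : ℝ≥0∞)) x ≤ 1 := by
    rw [lint_oct _ measurable_const]
    have : ∀ s : ℝ, ENNReal.ofReal s * ∫⁻ v in Icc (0 : ℝ) 1, (1 : ℝ≥0∞) = ENNReal.ofReal s := by
      intro s
      rw [setLIntegral_one, Real.volume_Icc, sub_zero, ENNReal.ofReal_one, mul_one]
    simp_rw [this]
    calc ∫⁻ s in Ioo (0 : ℝ) 1, ENNReal.ofReal s ≤ ∫⁻ s in Ioo (0 : ℝ) 1, (1 : ℝ≥0∞) := by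
          refine setLIntegral_mono' measurableSet_Ioo (fun s hs => ?_)
          rw [← ENNReal.ofReal_one]; exact ENNReal.ofReal_le_ofReal hs.2.le
      _ = 1 := by rw [setLIntegral_one, Real.volume_Ioo, sub_zero, ENNReal.ofReal_one]
  have h2 : ∀ x : ℝ × ℝ, oct.indicator (fun x => ‖D x‖ₑ) x ≤
      oct.indicator (fun _ => (1 : ℝ≥0∞)) x + oct.indicator (fun x => ‖D x‖ₑ ^ q) x := by
    intro x
    by_cases hx : x ∈ oct
    · rw [indicator_of_mem hx, indicator_of_mem hx, indicator_of_mem hx]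
      rcases le_total ‖D x‖ₑ 1 with h | h
      · exact h.trans (le_self_add)
      · refine le_trans ?_ le_add_self
        calc ‖D x‖ₑ = ‖D x‖ₑ ^ (1 : ℝ) := (ENNReal.rpow_one _).symm
          _ ≤ ‖D x‖ₑ ^ q := ENNReal.rpow_le_rpow_of_exponent_le h hq
    · rw [indicator_of_notMem hx, indicator_of_notMem hx, indicator_of_notMem hx]; simp
  refine ne_top_of_le_ne_top ?_ (lintegral_mono h2)
  rw [lintegral_add_left (measurable_const.indicator oct_meas)]
  exact ENNReal.add_ne_top.2 ⟨ne_top_of_le_ne_top ENNReal.one_ne_top h1, hfin⟩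

/-- the theorem on the triangle -/
theorem octant (q : ℝ) (hq3 : 3 < q) :
    ∃ C : ℝ, 0 < C ∧ ∀ f D : ℝ × ℝ → ℂ, Measurable f → Measurable D →
      (∀ x ∈ oct, HasDerivAt (fun l : ℝ => f (l * x.1, l * x.2)) (D x) 1) →
      Psi q (oct.indicator f) ≤ ENNReal.ofReal C * ((∫⁻ x, oct.indicator (fun x => ‖f x‖ₑ ^ q) x) +
        ∫⁻ x, oct.indicator (fun x => ‖D x‖ₑ ^ q) x) := by
  obtain ⟨C1, hC1, h1⟩ := Hρ' q hq3
  obtain ⟨C2, hC2, h2⟩ := Bt_bound q (by linarith)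
  obtain ⟨C3, hC3, h3⟩ := H_bound q hq3
  refine ⟨2 ^ (q - 1) * (C1 * C2 + C3), by positivity, ?_⟩
  intro f D hf' hD hfD
  set X := ∫⁻ x, oct.indicator (fun x => ‖f x‖ₑ ^ q) x with hX
  set Y := ∫⁻ x, oct.indicator (fun x => ‖D x‖ₑ ^ q) x with hY
  by_cases hfin : X + Y = ⊤
  · rw [hfin, ENNReal.mul_top]
    · exact le_top
    · rw [ne_eq, ENNReal.ofReal_eq_zero, not_le]; positivity
  have hYf : Y ≠ ⊤ := fun h => hfin (by rw [h]; simp)
  have hD1 := oct_L1 q (by linarith) hD hYf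
  have hBm : Measurable (Bt f D) := Bt_meas hf' hD
  have hBb := h2 f D hf' hD hfD
  have hBfin : ∫⁻ v, ‖Bt f D v‖ₑ ^ q ≠ ⊤ := ne_top_of_le_ne_top (ENNReal.mul_ne_top ENNReal.ofReal_ne_top hfin) hBb
  have hBi : Integrable (Bt f D) := int01 q (by linarith) hBm (fun v hv => Bt_supp v hv) hBfin
  have hae : (oct.indicator f) =ᵐ[volume] fun x => cF (ind 1) (Bt f D) x + -(∫ s in Ioo (0 : ℝ) 1, hf D (s, x)) := by
    filter_upwards [ae_slope hD hD1] with x hx
    exact oct_id hD hfD x hx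
  rw [Psi_congr q hae]
  have hc1 : Integrable (cF (ind 1) (Bt f D)) := cF_int (ind_meas 1) hBm hBi (fun x => by
      rw [ind_eq]; split_ifs <;> simp) (fun x hx => by
      rw [ind_eq] at hx
      by_cases h : 0 < x ∧ x < 1
      · exact ⟨h.1.le, h.2.le⟩
      · rw [if_neg h] at hx; exact absurd rfl hx)
  have hc2 : Integrable (fun x : ℝ × ℝ => ∫ s in Ioo (0 : ℝ) 1, hf D (s, x)) :=
    (hf_int hD hD1).integral_prod_right
  have hc3 : Integrable (fun x : ℝ × ℝ => -(∫ s in Ioo (0 : ℝ) 1, hf D (s, x))) := hc2.neg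
  have hadd := Psi_add q (by linarith) (cF_meas (ind_meas 1) hBm) hc1 hc3
  have e2 : (2 : ℝ≥0∞) ^ (q - 1) = ENNReal.ofReal (2 ^ (q - 1)) := by
    rw [← ENNReal.ofReal_rpow_of_pos (by norm_num)]; norm_num
  rw [Psi_neg] at hadd
  have g1 := h1 (Bt f D) hBm (fun v hv => Bt_supp v hv) 1 one_pos
  rw [Real.one_rpow, mul_one] at g1
  have g3 := h3 D hD hD1
  calc Psi q (fun x => cF (ind 1) (Bt f D) x + -(∫ s in Ioo (0 : ℝ) 1, hf D (s, x)))
      ≤ 2 ^ (q - 1) * (ENNReal.ofReal C1 * (ENNReal.ofReal C2 * (X + Y)) + ENNReal.ofReal C3 * Y) :=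
        hadd.trans (mul_le_mul' le_rfl (add_le_add (g1.trans (mul_le_mul' le_rfl hBb)) g3))
    _ ≤ 2 ^ (q - 1) * (ENNReal.ofReal C1 * (ENNReal.ofReal C2 * (X + Y)) + ENNReal.ofReal C3 * (X + Y)) :=
        mul_le_mul' le_rfl (add_le_add le_rfl (mul_le_mul' le_rfl le_add_self))
    _ = _ := by
        rw [e2, ENNReal.ofReal_mul (by positivity), ENNReal.ofReal_add (by positivity) hC3.le, ENNReal.ofReal_mul hC1.le]
        ring

end X92.Sec
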