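import Pool.Agent.X92.Sec24
set_option autoImplicit false
open MeasureTheory Set Complex
open scoped ENNReal ComplexConjugate ContDiff Topology

namespace X92.Sec

open X92.Ext (ph T sq2 norm_ph ph_eq T_le T_L2 measurable_Tc Phi)

/-- the symmetries of the square -/
structure IsRefl (R : ℝ × ℝ → ℝ × ℝ) : Prop where
  meas : Measurable R
  inv : ∀ x, R (R x) = x
  mp : MeasurePreserving R volume volume
  ph1 : ∀ p x, ph (R p) (R x) = ph p x
  ph2 : ∀ (t : ℝ) (x : ℝ × ℝ), ph (t, t) (sq2 (R x)) = ph (t, t) (sq2 x)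
  lin : ∀ (l : ℝ) (x : ℝ × ℝ), R (l * x.1, l * x.2) = (l * (R x).1, l * (R x).2)

theorem refl_swap : IsRefl (fun x => (x.2, x.1)) where
  meas := measurable_snd.prodMk measurable_fst
  inv := fun x => rfl
  mp := Measure.measurePreserving_swap
  ph1 := fun p x => by
    rw [ph_eq, ph_eq]
    congr 3
    simp only
    ring
  ph2 := fun t x => by
    rw [ph_eq, ph_eq]
    congr 3
    simp only [sq2]
    ring
  lin := fun l x => rfl

theorem refl_neg1 : IsRefl (fun x => (-x.1, x.2)) where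
  meas := measurable_fst.neg.prodMk measurable_snd
  inv := fun x => by simp
  mp := by
    have h := (Measure.measurePreserving_neg (volume : Measure ℝ)).prod (MeasurePreserving.id (volume : Measure ℝ))
    exact h
  ph1 := fun p x => by
    rw [ph_eq, ph_eq]
    congr 3
    simp only
    ring
  ph2 := fun t x => by
    rw [ph_eq, ph_eq]
    congr 3
    simp only [sq2]
    ring
  lin := fun l x => by simp

theorem refl_neg2 : IsRefl (fun x => (x.1, -x.2)) where
  meas := measurable_fst.prodMk measurable_snd.neg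
  inv := fun x => by simp
  mp := by
    have h := (MeasurePreserving.id (volume : Measure ℝ)).prod (Measure.measurePreserving_neg (volume : Measure ℝ))
    exact h
  ph1 := fun p x => by
    rw [ph_eq, ph_eq]
    congr 3
    simp only
    ring
  ph2 := fun t x => by
    rw [ph_eq, ph_eq]
    congr 3
    simp only [sq2]
    ring
  lin := fun l x => by simp

theorem refl_emb {R : ℝ × ℝ → ℝ × ℝ} (h : IsRefl R) : MeasurableEmbedding R :=
  (MeasurableEquiv.mk ⟨R, R, h.inv, h.inv⟩ h.meas h.meas).measurableEmbedding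

theorem T_refl {R : ℝ × ℝ → ℝ × ℝ} (h : IsRefl R) (f : ℝ × ℝ → ℂ) (p : ℝ × ℝ) (t : ℝ) :
    T (fun x => f (R x)) p (t, t) = T f (R p) (t, t) := by
  unfold T
  rw [← h.mp.integral_comp (refl_emb h) (fun y => f y * (ph (R p) y * ph (t, t) (sq2 y)))]
  congr 1
  ext x
  rw [h.ph1, h.ph2]

theorem Psi_refl {R : ℝ × ℝ → ℝ × ℝ} (h : IsRefl R) (q : ℝ) (f : ℝ × ℝ → ℂ) :
    Psi q (fun x => f (R x)) = Psi q f := by
  unfold Psi Phi
  refine lintegral_congr (fun t => ?_)
  simp_rw [T_refl h]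
  exact h.mp.lintegral_comp_emb (refl_emb h) (fun p => ‖T f p (t, t)‖ₑ ^ q)

/-- the estimate on a set -/
def Bd (q : ℝ) (S : Set (ℝ × ℝ)) : Prop :=
  ∃ C : ℝ, 0 < C ∧ ∀ f D : ℝ × ℝ → ℂ, Measurable f → Measurable D →
      (∀ x ∈ S, HasDerivAt (fun l : ℝ => f (l * x.1, l * x.2)) (D x) 1) →
      Psi q (S.indicator f) ≤ ENNReal.ofReal C * ((∫⁻ x, S.indicator (fun x => ‖f x‖ₑ ^ q) x) +
        ∫⁻ x, S.indicator (fun x => ‖D x‖ₑ ^ q) x)

theorem set_int (q : ℝ) (hq : 1 ≤ q) {S : Set (ℝ × ℝ)} (hS : MeasurableSet S) (hv : volume S ≠ ⊤)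
    {f : ℝ × ℝ → ℂ} (hf : Measurable f) (hfin : ∫⁻ x, S.indicator (fun x => ‖f x‖ₑ ^ q) x ≠ ⊤) :
    Integrable (S.indicator f) := by
  refine ⟨(hf.indicator hS).aestronglyMeasurable, ?_⟩
  have h2 : ∀ x : ℝ × ℝ, ‖S.indicator f x‖ₑ ≤
      S.indicator (fun _ => (1 : ℝ≥0∞)) x + S.indicator (fun x => ‖f x‖ₑ ^ q) x := by
    intro x
    by_cases hx : x ∈ S
    · rw [indicator_of_mem hx, indicator_of_mem hx, indicator_of_mem hx]
      rcases le_total ‖f x‖ₑ 1 with h | h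
      · exact h.trans (le_self_add)
      · refine le_trans ?_ le_add_self
        calc ‖f x‖ₑ = ‖f x‖ₑ ^ (1 : ℝ) := (ENNReal.rpow_one _).symm
          _ ≤ ‖f x‖ₑ ^ q := ENNReal.rpow_le_rpow_of_exponent_le h hq
    · rw [indicator_of_notMem hx, indicator_of_notMem hx, indicator_of_notMem hx]; simp
  refine lt_of_le_of_lt (lintegral_mono h2) ?_
  rw [lintegral_add_left (measurable_const.indicator hS), lintegral_indicator hS, setLIntegral_one]
  exact ENNReal.add_lt_top.2 ⟨lt_top_iff_ne_top.2 hv, lt_top_iff_ne_top.2 hfin⟩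

theorem Bd_step (q : ℝ) (hq : 1 ≤ q) {S : Set (ℝ × ℝ)} (hS : MeasurableSet S) (hv : volume S ≠ ⊤)
    {R : ℝ × ℝ → ℝ × ℝ} (hR : IsRefl R) (hd : volume (S ∩ R ⁻¹' S) = 0) (hB : Bd q S) : Bd q (S ∪ R ⁻¹' S) := by
  obtain ⟨C, hC, h⟩ := hB
  refine ⟨2 ^ (q - 1) * (C + C), by positivity, ?_⟩
  intro f D hf hD hfD
  set X := ∫⁻ x, (S ∪ R ⁻¹' S).indicator (fun x => ‖f x‖ₑ ^ q) x with hX
  set Y := ∫⁻ x, (S ∪ R ⁻¹' S).indicator (fun x => ‖D x‖ₑ ^ q) x with hY
  have hRS : MeasurableSet (R ⁻¹' S) := hR.meas hS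
  have hRv : volume (R ⁻¹' S) ≠ ⊤ := by rw [hR.mp.measure_preimage hS.nullMeasurableSet]; exact hv
  by_cases hfin : X + Y = ⊤
  · rw [hfin, ENNReal.mul_top]
    · exact le_top
    · rw [ne_eq, ENNReal.ofReal_eq_zero, not_le]; positivity
  have hXf : X ≠ ⊤ := fun h => hfin (by rw [h]; simp)
  -- monotonicity
  have mono1 : ∀ g : ℝ × ℝ → ℂ, ∫⁻ x, S.indicator (fun x => ‖g x‖ₑ ^ q) x ≤
      ∫⁻ x, (S ∪ R ⁻¹' S).indicator (fun x => ‖g x‖ₑ ^ q) x := fun g =>
    lintegral_mono (fun x => indicator_le_indicator_of_subset subset_union_left (fun _ => zero_le) x)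
  have mono2 : ∀ g : ℝ × ℝ → ℂ, ∫⁻ x, (R ⁻¹' S).indicator (fun x => ‖g x‖ₑ ^ q) x ≤
      ∫⁻ x, (S ∪ R ⁻¹' S).indicator (fun x => ‖g x‖ₑ ^ q) x := fun g =>
    lintegral_mono (fun x => indicator_le_indicator_of_subset subset_union_right (fun _ => zero_le) x)
  have h1 := h f D hf hD (fun x hx => hfD x (Or.inl hx))
  have h2 := h (fun x => f (R x)) (fun x => D (R x)) (hf.comp hR.meas) (hD.comp hR.meas) (fun x hx => by
    have h3 := hfD (R x) (Or.inr (by rw [mem_preimage, hR.inv]; exact hx))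
    have e : (fun l : ℝ => f (l * (R x).1, l * (R x).2)) = fun l : ℝ => f (R (l * x.1, l * x.2)) := by
      ext l; rw [hR.lin]
    rw [e] at h3
    exact h3)
  have e1 : (R ⁻¹' S).indicator f = fun x => (S.indicator (fun x => f (R x))) (R x) := by
    ext x
    by_cases hx : R x ∈ S
    · rw [indicator_of_mem hx, indicator_of_mem (show x ∈ R ⁻¹' S from hx), hR.inv]
    · rw [indicator_of_notMem hx, indicator_of_notMem (show x ∉ R ⁻¹' S from hx)]
  have e2 : Psi q ((R ⁻¹' S).indicator f) = Psi q (S.indicator (fun x => f (R x))) := by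
    rw [e1]; exact Psi_refl hR q _
  have e3 : ∀ g : ℝ × ℝ → ℂ, ∫⁻ x, S.indicator (fun x => ‖g (R x)‖ₑ ^ q) x =
      ∫⁻ x, (R ⁻¹' S).indicator (fun x => ‖g x‖ₑ ^ q) x := by
    intro g
    rw [← hR.mp.lintegral_comp_emb (refl_emb hR) (fun x => S.indicator (fun x => ‖g (R x)‖ₑ ^ q) x)]
    refine lintegral_congr (fun x => ?_)
    by_cases hx : R x ∈ S
    · rw [indicator_of_mem hx, indicator_of_mem (show x ∈ R ⁻¹' S from hx), hR.inv]
    · rw [indicator_of_notMem hx, indicator_of_notMem (show x ∉ R ⁻¹' S from hx)]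
  rw [← e2, e3 f, e3 D] at h2
  have i1 : Integrable (S.indicator f) := set_int q hq hS hv hf (ne_top_of_le_ne_top hXf (mono1 f))
  have i2 : Integrable ((R ⁻¹' S).indicator f) := set_int q hq hRS hRv hf (ne_top_of_le_ne_top hXf (mono2 f))
  have hae : ((S ∪ R ⁻¹' S).indicator f) =ᵐ[volume] fun x => S.indicator f x + (R ⁻¹' S).indicator f x := by
    have hz : ∀ᵐ x, x ∉ S ∩ R ⁻¹' S := measure_eq_zero_iff_ae_notMem.1 hd
    filter_upwards [hz] with x hx
    by_cases hx1 : x ∈ S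
    · have hx2 : x ∉ R ⁻¹' S := fun h => hx ⟨hx1, h⟩
      rw [indicator_of_mem (show x ∈ S ∪ R ⁻¹' S from Or.inl hx1), indicator_of_mem hx1, indicator_of_notMem hx2, add_zero]
    · by_cases hx2 : x ∈ R ⁻¹' S
      · rw [indicator_of_mem (show x ∈ S ∪ R ⁻¹' S from Or.inr hx2), indicator_of_notMem hx1, indicator_of_mem hx2, zero_add]
      · rw [indicator_of_notMem (show x ∉ S ∪ R ⁻¹' S from fun h => h.elim hx1 hx2), indicator_of_notMem hx1,
          indicator_of_notMem hx2, add_zero]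
  rw [Psi_congr q hae]
  have e4 : (2 : ℝ≥0∞) ^ (q - 1) = ENNReal.ofReal (2 ^ (q - 1)) := by
    rw [← ENNReal.ofReal_rpow_of_pos (by norm_num)]; norm_num
  calc Psi q (fun x => S.indicator f x + (R ⁻¹' S).indicator f x)
      ≤ 2 ^ (q - 1) * (ENNReal.ofReal C * (X + Y) + ENNReal.ofReal C * (X + Y)) := by
        refine (Psi_add q hq (hf.indicator hS) i1 i2).trans (mul_le_mul' le_rfl (add_le_add ?_ ?_))
        · exact h1.trans (mul_le_mul' le_rfl (add_le_add (mono1 f) (mono1 D)))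
        · exact h2.trans (mul_le_mul' le_rfl (add_le_add (mono2 f) (mono2 D)))
    _ = _ := by
        rw [e4, ENNReal.ofReal_mul (by positivity), ENNReal.ofReal_add hC.le hC.le]
        ring

end X92.Sec
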