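import Pool.Agent.X92.Sec25
set_option autoImplicit false
open MeasureTheory Set Complex
open scoped ENNReal ComplexConjugate ContDiff Topology

namespace X92.Sec

open X92.Ext (ph T sq2 norm_ph ph_eq T_le T_L2 measurable_Tc Phi)

/-- the open square -/
def Sq : Set (ℝ × ℝ) := {x | |x.1| < 1 ∧ |x.2| < 1}

theorem Sq_meas : MeasurableSet Sq :=
  (measurableSet_lt (measurable_fst.abs) measurable_const).inter (measurableSet_lt (measurable_snd.abs) measurable_const)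

theorem Sq_vol : volume Sq ≠ ⊤ := by
  have h : Sq ⊆ Icc (-1 : ℝ) 1 ×ˢ Icc (-1 : ℝ) 1 := by
    intro x hx
    exact ⟨abs_le.1 hx.1.le, abs_le.1 hx.2.le⟩
  refine ne_top_of_le_ne_top ?_ (measure_mono h)
  rw [Measure.volume_eq_prod, Measure.prod_prod, Real.volume_Icc]
  exact ENNReal.mul_ne_top ENNReal.ofReal_ne_top ENNReal.ofReal_ne_top

theorem null1 : volume {x : ℝ × ℝ | x.1 = 0} = 0 := by
  have h : {x : ℝ × ℝ | x.1 = 0} = {(0 : ℝ)} ×ˢ univ := by
    ext x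
    constructor
    · intro hx; exact ⟨hx, mem_univ _⟩
    · intro hx; exact hx.1
  rw [h, Measure.volume_eq_prod, Measure.prod_prod, Real.volume_singleton, zero_mul]

theorem null2 : volume {x : ℝ × ℝ | x.2 = 0} = 0 := by
  have h : {x : ℝ × ℝ | x.2 = 0} = univ ×ˢ {(0 : ℝ)} := by
    ext x
    constructor
    · intro hx; exact ⟨mem_univ _, hx⟩
    · intro hx; exact hx.2
  rw [h, Measure.volume_eq_prod, Measure.prod_prod, Real.volume_singleton, mul_zero]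

theorem nulld : volume {x : ℝ × ℝ | x.1 = x.2} = 0 := by
  have hm : MeasurableSet {x : ℝ × ℝ | x.1 = x.2} := measurableSet_eq_fun measurable_fst measurable_snd
  rw [Measure.volume_eq_prod, Measure.measure_prod_null hm]
  refine Filter.Eventually.of_forall (fun x => ?_)
  simp only [Pi.zero_apply]
  have : Prod.mk x ⁻¹' {x : ℝ × ℝ | x.1 = x.2} = {x} := by
    ext y
    constructor
    · intro hy; exact (show x = y from hy).symm
    · intro hy; exact (show y = x from hy).symm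
  rw [this, Real.volume_singleton]

theorem oct_iff (x : ℝ × ℝ) : x ∈ oct ↔ 0 < x.1 ∧ x.1 < 1 ∧ 0 ≤ x.2 ∧ x.2 ≤ x.1 := by
  unfold oct
  constructor
  · rintro ⟨⟨h1, h2⟩, h3, h4⟩
    refine ⟨h1, h2, ?_, ?_⟩
    · have := mul_nonneg h3 h1.le
      rwa [div_mul_cancel₀ _ h1.ne'] at this
    · rw [div_le_one h1] at h4; exact h4
  · rintro ⟨h1, h2, h3, h4⟩
    exact ⟨⟨h1, h2⟩, div_nonneg h3 h1.le, (div_le_one h1).2 h4⟩

def S1 : Set (ℝ × ℝ) := oct ∪ (fun x : ℝ × ℝ => (x.2, x.1)) ⁻¹' oct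
def S2 : Set (ℝ × ℝ) := S1 ∪ (fun x : ℝ × ℝ => (-x.1, x.2)) ⁻¹' S1
def S3 : Set (ℝ × ℝ) := S2 ∪ (fun x : ℝ × ℝ => (x.1, -x.2)) ⁻¹' S2

theorem S1_iff (x : ℝ × ℝ) : x ∈ S1 ↔ 0 ≤ x.1 ∧ x.1 < 1 ∧ 0 ≤ x.2 ∧ x.2 < 1 ∧ (0 < x.1 ∨ 0 < x.2) := by
  unfold S1
  rw [mem_union, mem_preimage, oct_iff, oct_iff]
  simp only
  constructor
  · rintro (⟨h1, h2, h3, h4⟩ | ⟨h1, h2, h3, h4⟩)
    · exact ⟨h1.le, h2, h3, by linarith, Or.inl h1⟩
    · exact ⟨h3, by linarith, h1.le, h2, Or.inr h1⟩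
  · rintro ⟨h1, h2, h3, h4, h5⟩
    rcases le_total x.2 x.1 with h | h
    · left
      refine ⟨?_, h2, h3, h⟩
      rcases h5 with h5 | h5
      · exact h5
      · linarith
    · right
      refine ⟨?_, h4, h1, h⟩
      rcases h5 with h5 | h5
      · linarith
      · exact h5

theorem S2_iff (x : ℝ × ℝ) : x ∈ S2 ↔ |x.1| < 1 ∧ 0 ≤ x.2 ∧ x.2 < 1 ∧ (x.1 ≠ 0 ∨ 0 < x.2) := by
  unfold S2
  rw [mem_union, mem_preimage, S1_iff, S1_iff]
  simp only
  constructor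
  · rintro (⟨h1, h2, h3, h4, h5⟩ | ⟨h1, h2, h3, h4, h5⟩)
    · exact ⟨abs_lt.2 ⟨by linarith, h2⟩, h3, h4, h5.imp (fun h => h.ne') id⟩
    · exact ⟨abs_lt.2 ⟨by linarith, by linarith⟩, h3, h4, h5.imp (fun h => (neg_pos.1 h).ne) id⟩
  · rintro ⟨h1, h3, h4, h5⟩
    obtain ⟨ha, hb⟩ := abs_lt.1 h1
    rcases le_total 0 x.1 with h | h
    · left
      exact ⟨h, hb, h3, h4, h5.imp (fun h' => lt_of_le_of_ne h (Ne.symm h')) id⟩
    · right
      exact ⟨by linarith, by linarith, h3, h4, h5.imp (fun h' => neg_pos.2 (lt_of_le_of_ne h h')) id⟩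

theorem S3_iff (x : ℝ × ℝ) : x ∈ S3 ↔ x ∈ Sq ∧ x ≠ 0 := by
  unfold S3 Sq
  rw [mem_union, mem_preimage, S2_iff, S2_iff]
  simp only
  have hne : x ≠ 0 ↔ (x.1 ≠ 0 ∨ x.2 ≠ 0) := by
    rw [ne_eq, Prod.ext_iff, not_and_or]; rfl
  rw [hne]
  constructor
  · rintro (⟨h1, h3, h4, h5⟩ | ⟨h1, h3, h4, h5⟩)
    · exact ⟨⟨h1, abs_lt.2 ⟨by linarith, h4⟩⟩, h5.imp id (fun h => h.ne')⟩
    · exact ⟨⟨h1, abs_lt.2 ⟨by linarith, by linarith⟩⟩, h5.imp id (fun h => (neg_pos.1 h).ne)⟩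
  · rintro ⟨⟨h1, h2⟩, h5⟩
    obtain ⟨ha, hb⟩ := abs_lt.1 h2
    rcases le_total 0 x.2 with h | h
    · left
      exact ⟨h1, h, hb, h5.imp id (fun h' => lt_of_le_of_ne h (Ne.symm h'))⟩
    · right
      exact ⟨h1, by linarith, by linarith, h5.imp id (fun h' => neg_pos.2 (lt_of_le_of_ne h h'))⟩

theorem S1_meas : MeasurableSet S1 := oct_meas.union (refl_swap.meas oct_meas)
theorem S2_meas : MeasurableSet S2 := S1_meas.union (refl_neg1.meas S1_meas)
theorem S3_meas : MeasurableSet S3 := S2_meas.union (refl_neg2.meas S2_meas)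

theorem S3_vol : volume S3 ≠ ⊤ := ne_top_of_le_ne_top Sq_vol (measure_mono (fun x hx => ((S3_iff x).1 hx).1))
theorem S2_vol : volume S2 ≠ ⊤ := ne_top_of_le_ne_top S3_vol (measure_mono subset_union_left)
theorem S1_vol : volume S1 ≠ ⊤ := ne_top_of_le_ne_top S2_vol (measure_mono subset_union_left)
theorem oct_vol : volume oct ≠ ⊤ := ne_top_of_le_ne_top S1_vol (measure_mono subset_union_left)

theorem Bd3 (q : ℝ) (hq : 3 < q) : Bd q S3 := by
  have h0 : Bd q oct := octant q hq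
  have h1 : Bd q S1 := by
    refine Bd_step q (by linarith) oct_meas oct_vol refl_swap ?_ h0
    refine measure_mono_null ?_ nulld
    rintro x ⟨h1, h2⟩
    rw [mem_preimage] at h2
    rw [oct_iff] at h1 h2
    exact le_antisymm h2.2.2.2 h1.2.2.2
  have h2 : Bd q S2 := by
    refine Bd_step q (by linarith) S1_meas S1_vol refl_neg1 ?_ h1
    refine measure_mono_null ?_ null1
    rintro x ⟨h1, h2⟩
    rw [mem_preimage] at h2
    rw [S1_iff] at h1 h2
    simp only at h2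
    have : x.1 = 0 := by linarith [h1.1, h2.1]
    exact this
  refine Bd_step q (by linarith) S2_meas S2_vol refl_neg2 ?_ h2
  refine measure_mono_null ?_ null2
  rintro x ⟨h1, h2⟩
  rw [mem_preimage] at h2
  rw [S2_iff] at h1 h2
  simp only at h2
  have : x.2 = 0 := by linarith [h1.2.1, h2.2.1]
  exact this

/-- the theorem on the square -/
theorem square (q : ℝ) (hq : 3 < q) :
    ∃ C : ℝ, 0 < C ∧ ∀ f D : ℝ × ℝ → ℂ, Measurable f → Measurable D → (∀ x, x ∉ Sq → f x = 0) →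
      (∀ x ∈ Sq, x ≠ 0 → HasDerivAt (fun l : ℝ => f (l * x.1, l * x.2)) (D x) 1) →
      Psi q f ≤ ENNReal.ofReal C * ((∫⁻ x, ‖f x‖ₑ ^ q) + ∫⁻ x in Sq, ‖D x‖ₑ ^ q) := by
  obtain ⟨C, hC, h⟩ := Bd3 q hq
  refine ⟨C, hC, ?_⟩
  intro f D hf hD h0 hfD
  have h1 := h f D hf hD (fun x hx => hfD x ((S3_iff x).1 hx).1 ((S3_iff x).1 hx).2)
  have hae : (S3.indicator f) =ᵐ[volume] f := by
    have hz : ∀ᵐ x : ℝ × ℝ, x ≠ 0 := by
      have : ∀ᵐ x : ℝ × ℝ, x ∉ {x : ℝ × ℝ | x.1 = 0} := measure_eq_zero_iff_ae_notMem.1 null1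
      filter_upwards [this] with x hx h
      apply hx
      rw [h]; rfl
    filter_upwards [hz] with x hx
    by_cases hS : x ∈ S3
    · rw [indicator_of_mem hS]
    · rw [indicator_of_notMem hS]
      rw [S3_iff, not_and_or] at hS
      rcases hS with hS | hS
      · exact (h0 x hS).symm
      · exact absurd hx hS
  rw [Psi_congr q hae] at h1
  refine h1.trans (mul_le_mul' le_rfl (add_le_add ?_ ?_))
  · exact lintegral_mono (fun x => indicator_le_self' (fun _ _ => zero_le) x)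
  · rw [← lintegral_indicator Sq_meas]
    exact lintegral_mono (fun x => indicator_le_indicator_of_subset (fun x hx => ((S3_iff x).1 hx).1) (fun _ => zero_le) x)

end X92.Sec
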