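import Pool.Agent.X92.Sec26
set_option autoImplicit false
open MeasureTheory Set Complex
open scoped ENNReal ComplexConjugate ContDiff Topology

namespace X92.Sec

open X92.Ext (ph T sq2 norm_ph ph_eq T_le T_L2 measurable_Tc Phi)

theorem T_shift (f : ℝ × ℝ → ℂ) (a p : ℝ × ℝ) (t : ℝ) :
    ‖T (fun x => f (x + a)) p (t, t)‖ₑ = ‖T f (p - (2 * t * a.1, 2 * t * a.2)) (t, t)‖ₑ := by
  have h : T (fun x => f (x + a)) p (t, t) =
      cexp (((p.1 * a.1 + p.2 * a.2 - t * (a.1 ^ 2 + a.2 ^ 2) : ℝ) : ℂ) * I) * T f (p - (2 * t * a.1, 2 * t * a.2)) (t, t) := by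
    unfold T
    rw [← integral_const_mul]
    have h3 := integral_add_right_eq_self (μ := (volume : Measure (ℝ × ℝ))) (fun y : ℝ × ℝ =>
      cexp (((p.1 * a.1 + p.2 * a.2 - t * (a.1 ^ 2 + a.2 ^ 2) : ℝ) : ℂ) * I) *
        (f y * (ph (p - (2 * t * a.1, 2 * t * a.2)) y * ph (t, t) (sq2 y)))) a
    rw [← h3]
    congr 1
    ext x
    have h2 : ph p x * ph (t, t) (sq2 x) =
        cexp (((p.1 * a.1 + p.2 * a.2 - t * (a.1 ^ 2 + a.2 ^ 2) : ℝ) : ℂ) * I) *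
          (ph (p - (2 * t * a.1, 2 * t * a.2)) (x + a) * ph (t, t) (sq2 (x + a))) := by
      rw [ph_eq, ph_eq, ph_eq, ph_eq, ← Complex.exp_add, ← Complex.exp_add, ← Complex.exp_add, ← add_mul,
        ← add_mul, ← add_mul]
      congr 2
      rw [← Complex.ofReal_add, ← Complex.ofReal_add, ← Complex.ofReal_add]
      congr 1
      simp only [sq2, Prod.fst_sub, Prod.snd_sub, Prod.fst_add, Prod.snd_add]
      ring
    rw [h2]
    ring
  rw [h, enorm_mul]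
  have : ‖cexp (((p.1 * a.1 + p.2 * a.2 - t * (a.1 ^ 2 + a.2 ^ 2) : ℝ) : ℂ) * I)‖ₑ = 1 := by
    rw [← ofReal_norm, Complex.norm_exp_ofReal_mul_I]; simp
  rw [this, one_mul]

theorem Psi_shift (q : ℝ) (f : ℝ × ℝ → ℂ) (a : ℝ × ℝ) : Psi q (fun x => f (x + a)) = Psi q f := by
  unfold Psi Phi
  refine lintegral_congr (fun t => ?_)
  simp_rw [T_shift f a]
  exact lintegral_sub_right_eq_self (fun p : ℝ × ℝ => ‖T f p (t, t)‖ₑ ^ q) (2 * t * a.1, 2 * t * a.2)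

/-- the square with centre `a` -/
def SqA (a : ℝ × ℝ) : Set (ℝ × ℝ) := {x | |x.1 - a.1| < 1 ∧ |x.2 - a.2| < 1}

theorem SqA_open (a : ℝ × ℝ) : IsOpen (SqA a) :=
  (isOpen_lt (f := fun x : ℝ × ℝ => |x.1 - a.1|) (g := fun _ => (1 : ℝ)) (by fun_prop) continuous_const).inter
    (isOpen_lt (f := fun x : ℝ × ℝ => |x.2 - a.2|) (g := fun _ => (1 : ℝ)) (by fun_prop) continuous_const)

theorem SqA_meas (a : ℝ × ℝ) : MeasurableSet (SqA a) := (SqA_open a).measurableSet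

/-- the theorem on squares with any centre -/
theorem squareA (q : ℝ) (hq : 3 < q) :
    ∃ C : ℝ, 0 < C ∧ ∀ (a : ℝ × ℝ) (f D : ℝ × ℝ → ℂ), Measurable f → Measurable D → (∀ x, x ∉ SqA a → f x = 0) →
      (∀ x ∈ SqA a, x ≠ a → HasDerivAt (fun l : ℝ => f (a + l • (x - a))) (D x) 1) →
      Psi q f ≤ ENNReal.ofReal C * ((∫⁻ x, ‖f x‖ₑ ^ q) + ∫⁻ x in SqA a, ‖D x‖ₑ ^ q) := by
  obtain ⟨C, hC, h⟩ := square q hq
  refine ⟨C, hC, ?_⟩
  intro a f D hf hD h0 hfD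
  have hm : Measurable (fun x : ℝ × ℝ => x + a) := measurable_id.add measurable_const
  have hmem : ∀ x : ℝ × ℝ, x + a ∈ SqA a ↔ x ∈ Sq := by
    intro x
    unfold SqA Sq
    simp only [mem_ofPred_eq, Prod.fst_add, Prod.snd_add, add_sub_cancel_right]
  have h1 := h (fun x => f (x + a)) (fun x => D (x + a)) (hf.comp hm) (hD.comp hm)
    (fun x hx => h0 _ (fun hc => hx ((hmem x).1 hc)))
    (fun x hx hx0 => by
      have h2 := hfD (x + a) ((hmem x).2 hx) (fun hc => hx0 (by simpa using hc))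
      have e : (fun l : ℝ => f (a + l • (x + a - a))) = fun l : ℝ => f ((l * x.1, l * x.2) + a) := by
        ext l
        congr 1
        rw [add_sub_cancel_right, add_comm]
        rfl
      rw [e] at h2
      exact h2)
  rw [Psi_shift] at h1
  have e1 : ∫⁻ x, ‖f (x + a)‖ₑ ^ q = ∫⁻ x, ‖f x‖ₑ ^ q :=
    lintegral_add_right_eq_self (fun x : ℝ × ℝ => ‖f x‖ₑ ^ q) a
  have e2 : ∫⁻ x in Sq, ‖D (x + a)‖ₑ ^ q = ∫⁻ x in SqA a, ‖D x‖ₑ ^ q := by
    rw [← lintegral_indicator Sq_meas, ← lintegral_indicator (SqA_meas a),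
      ← lintegral_add_right_eq_self (μ := (volume : Measure (ℝ × ℝ))) ((SqA a).indicator fun x => ‖D x‖ₑ ^ q) a]
    refine lintegral_congr (fun x => ?_)
    by_cases hx : x ∈ Sq
    · rw [indicator_of_mem hx, indicator_of_mem ((hmem x).2 hx)]
    · rw [indicator_of_notMem hx, indicator_of_notMem (fun hc => hx ((hmem x).1 hc))]
  rw [e1, e2] at h1
  exact h1

/-- homogeneous functions -/
theorem homog_deriv (a : ℝ × ℝ) (z : ℂ) (f : ℝ × ℝ → ℂ)
    (hh : ∀ x ∈ SqA a, x ≠ a → ∀ l : ℝ, 0 < l → l ≤ 1 → f (a + l • (x - a)) = (l : ℂ) ^ z * f x)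
    (x : ℝ × ℝ) (hx : x ∈ SqA a) (hxa : x ≠ a) : HasDerivAt (fun l : ℝ => f (a + l • (x - a))) (z * f x) 1 := by
  have h1 : HasDerivAt (fun l : ℝ => (l : ℂ) ^ z) z 1 := by
    have h2 := ((hasDerivAt_id ((1 : ℝ) : ℂ)).cpow_const (c := z) (by simp)).comp_ofReal
    refine h2.congr_deriv ?_
    simp
  have h3 : HasDerivAt (fun l : ℝ => (l : ℂ) ^ z * f x) (z * f x) 1 := h1.mul_const (f x)
  refine h3.congr_of_eventuallyEq ?_
  have hc : Continuous (fun l : ℝ => a + l • (x - a)) := by fun_prop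
  have hn : ∀ᶠ l : ℝ in 𝓝 1, a + l • (x - a) ∈ SqA a := by
    refine hc.continuousAt.eventually_mem ((SqA_open a).mem_nhds ?_)
    simpa using hx
  filter_upwards [hn, Ioi_mem_nhds (show (0 : ℝ) < 1 by norm_num)] with l hl hl0
  have hl0' : 0 < l := hl0
  rcases le_total l 1 with h | h
  · exact hh x hx hxa l hl0' h
  · set y := a + l • (x - a) with hy
    have hya : y ≠ a := by
      intro hc
      rw [hy, add_eq_left, smul_eq_zero] at hc
      rcases hc with hc | hc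
      · exact hl0'.ne' hc
      · exact hxa (sub_eq_zero.1 hc)
    have h4 := hh y hl hya l⁻¹ (inv_pos.2 hl0') (inv_le_one_of_one_le₀ h)
    have h5 : a + l⁻¹ • (y - a) = x := by
      rw [hy, add_sub_cancel_left, smul_smul, inv_mul_cancel₀ hl0'.ne', one_smul, add_sub_cancel]
    rw [h5] at h4
    rw [h4, Complex.ofReal_inv, Complex.inv_cpow _ _ (by
      rw [Complex.arg_ofReal_of_nonneg hl0'.le]; exact Real.pi_pos.ne), ← mul_assoc]
    have h6 : (l : ℂ) ^ z ≠ 0 := by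
      rw [Complex.cpow_ne_zero_iff]
      left
      exact_mod_cast hl0'.ne'
    rw [mul_inv_cancel₀ h6, one_mul]

theorem homog (q : ℝ) (hq : 3 < q) :
    ∃ C : ℝ, 0 < C ∧ ∀ (a : ℝ × ℝ) (z : ℂ) (f : ℝ × ℝ → ℂ), Measurable f → (∀ x, x ∉ SqA a → f x = 0) →
      (∀ x ∈ SqA a, x ≠ a → ∀ l : ℝ, 0 < l → l ≤ 1 → f (a + l • (x - a)) = (l : ℂ) ^ z * f x) →
      Psi q f ≤ ENNReal.ofReal (C * (1 + ‖z‖ ^ q)) * ∫⁻ x, ‖f x‖ₑ ^ q := by
  obtain ⟨C, hC, h⟩ := squareA q hq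
  refine ⟨C, hC, ?_⟩
  intro a z f hf h0 hh
  refine (h a f (fun x => z * f x) hf (hf.const_mul z) h0 (fun x hx hxa => homog_deriv a z f hh x hx hxa)).trans ?_
  have e1 : ∫⁻ x in SqA a, ‖z * f x‖ₑ ^ q ≤ ENNReal.ofReal (‖z‖ ^ q) * ∫⁻ x, ‖f x‖ₑ ^ q := by
    rw [← lintegral_const_mul' _ _ ENNReal.ofReal_ne_top]
    refine (setLIntegral_le_lintegral _ _).trans (lintegral_mono (fun x => ?_))
    simp only
    rw [enorm_mul, ENNReal.mul_rpow_of_nonneg _ _ (by linarith), ← ofReal_norm z,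
      ENNReal.ofReal_rpow_of_nonneg (norm_nonneg z) (by linarith)]
  calc ENNReal.ofReal C * ((∫⁻ x, ‖f x‖ₑ ^ q) + ∫⁻ x in SqA a, ‖z * f x‖ₑ ^ q)
      ≤ ENNReal.ofReal C * ((∫⁻ x, ‖f x‖ₑ ^ q) + ENNReal.ofReal (‖z‖ ^ q) * ∫⁻ x, ‖f x‖ₑ ^ q) :=
        mul_le_mul' le_rfl (add_le_add le_rfl e1)
    _ = _ := by
        rw [ENNReal.ofReal_mul hC.le, ENNReal.ofReal_add one_pos.le (by positivity), ENNReal.ofReal_one]
        ring

end X92.Sec
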