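import Pool.Agent.X92.Sec2
set_option autoImplicit false
open MeasureTheory Set Complex
open scoped ENNReal ComplexConjugate

namespace X92.Sec

theorem pt_ineq (t e1 e2 e3 e4 v1 v2 v3 v4 : ℝ) (ht : 1 ≤ t)
    (h1 : 2 ≤ e1 ∧ e1 ≤ 4) (h2 : 2 ≤ e2 ∧ e2 ≤ 4) (h3 : 2 ≤ e3 ∧ e3 ≤ 4) (h4 : 2 ≤ e4 ∧ e4 ≤ 4)
    (k1 : 0 ≤ v1 ∧ v1 ≤ 1) (k2 : 0 ≤ v2 ∧ v2 ≤ 1) (k3 : 0 ≤ v3 ∧ v3 ≤ 1) (k4 : 0 ≤ v4 ∧ v4 ≤ 1)
    (Q N : ℂ) (hQ : Q = Qf (cc e1 t v1) (cc e2 t v2) (cc e3 (-t) v3) (cc e4 (-t) v4) v1 v2 v3 v4)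
    (hN : N = Nf (cc e2 t v2) (cc e3 (-t) v3) (cc e4 (-t) v4) v2 v3 v4) :
    ((v1 - v2) ^ 2 + (v3 - v4) ^ 2 + t ^ 2 * (v3 + v4 - v1 - v2) ^ 2 / 2 ≤ ‖Q‖) ∧
    (1 + t * |(v3 - v4) ^ 2 - (v1 - v2) ^ 2|) * ‖N‖ ≤ 1000 * ‖Q‖ := by
  obtain ⟨h1a, h1b⟩ := h1
  obtain ⟨h2a, h2b⟩ := h2
  obtain ⟨h3a, h3b⟩ := h3
  obtain ⟨h4a, h4b⟩ := h4
  obtain ⟨k1a, k1b⟩ := k1
  obtain ⟨k2a, k2b⟩ := k2
  obtain ⟨k3a, k3b⟩ := k3
  obtain ⟨k4a, k4b⟩ := k4
  have ht0 : 0 < t := by linarith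
  set q := ‖Q‖ with hq
  set σ := v3 + v4 - v1 - v2 with hσ
  set τ := v3 * v4 - v1 * v2 with hτ
  set d0 := v1 - v2 with hd0
  set d := v3 - v4 with hd
  set B := 4 * τ ^ 2 + ((1 + v1 * v2) * σ - (v1 + v2) * τ) ^ 2 with hB
  set X := d0 ^ 2 + d ^ 2 with hX
  have hP0 : 0 ≤ v1 * v2 := mul_nonneg k1a k2a
  have hP : 0 ≤ v3 * v4 := mul_nonneg k3a k4a
  have hP01 : v1 * v2 ≤ 1 := mul_le_one₀ k1b k2a k2b
  have hP1 : v3 * v4 ≤ 1 := mul_le_one₀ k3b k4a k4b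
  have hXn : 0 ≤ X := by positivity
  have hB1 : σ ^ 2 / 2 ≤ B := by
    have g1 : ((v1 + v2) * τ) ^ 2 ≤ 4 * τ ^ 2 := by
      have h5 : 0 ≤ v1 + v2 := by linarith only [k1a, k2a]
      have h6 : v1 + v2 ≤ 2 := by linarith only [k1b, k2b]
      have : (v1 + v2) ^ 2 ≤ 4 := by nlinarith only [h5, h6]
      rw [mul_pow]
      exact mul_le_mul_of_nonneg_right this (sq_nonneg _)
    have g2 : σ ^ 2 ≤ ((1 + v1 * v2) * σ) ^ 2 := by
      rw [mul_pow]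
      have : 1 ≤ (1 + v1 * v2) ^ 2 := by nlinarith only [hP0]
      have h7 := mul_le_mul_of_nonneg_right this (sq_nonneg σ)
      linarith only [h7]
    have g3 : 0 ≤ ((1 + v1 * v2) * σ - 2 * ((v1 + v2) * τ)) ^ 2 := sq_nonneg _
    rw [hB]
    linarith only [g1, g2, g3]
  have hB2 : 4 * τ ^ 2 ≤ B := by rw [hB]; linarith only [sq_nonneg ((1 + v1 * v2) * σ - (v1 + v2) * τ)]
  have hBn : 0 ≤ B := by rw [hB]; positivity
  have hR : 4 * X + t ^ 2 * B ≤ q := by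
    have g1 : Q.re ≤ q := (le_abs_self _).trans (Complex.abs_re_le_norm Q)
    rw [hQ, Q_re] at g1
    refine le_trans ?_ g1
    have g2 : 4 * d0 ^ 2 ≤ e3 * e4 * d0 ^ 2 := mul_le_mul_of_nonneg_right (by nlinarith only [h3a, h4a]) (sq_nonneg _)
    have g3 : 4 * d ^ 2 ≤ e1 * e2 * d ^ 2 := mul_le_mul_of_nonneg_right (by nlinarith only [h1a, h2a]) (sq_nonneg _)
    have g4 : 0 ≤ e2 * e4 * (v1 - v3) ^ 2 := by positivity
    have g5 : 0 ≤ e2 * e3 * (v1 - v4) ^ 2 := by positivity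
    have g6 : 0 ≤ e1 * e4 * (v2 - v3) ^ 2 := by positivity
    have g7 : 0 ≤ e1 * e3 * (v2 - v4) ^ 2 := by positivity
    rw [hX, hB]
    linarith
  have hqn : 0 ≤ q := norm_nonneg _
  have hts : t ^ 2 * σ ^ 2 ≤ 2 * (t ^ 2 * B) := by
    have : t ^ 2 * (σ ^ 2 / 2) ≤ t ^ 2 * B := mul_le_mul_of_nonneg_left hB1 (sq_nonneg _)
    linarith only [this]
  constructor
  · linarith only [hts, hR, hXn]
  set D := d ^ 2 - d0 ^ 2 with hD
  have hDe : D = σ * (v1 + v2 + v3 + v4) - 4 * τ := by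
    rw [hD, hσ, hτ, hd, hd0]; ring
  have hD2 : D ^ 2 ≤ 72 * B := by
    have g1 : (σ * (v1 + v2 + v3 + v4)) ^ 2 ≤ 16 * σ ^ 2 := by
      rw [mul_pow]
      have h5 : 0 ≤ v1 + v2 + v3 + v4 := by linarith only [k1a, k2a, k3a, k4a]
      have h6 : v1 + v2 + v3 + v4 ≤ 4 := by linarith only [k1b, k2b, k3b, k4b]
      have : (v1 + v2 + v3 + v4) ^ 2 ≤ 16 := by nlinarith only [h5, h6]
      have h7 := mul_le_mul_of_nonneg_right this (sq_nonneg σ)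
      linarith only [h7]
    have g2 : D ^ 2 ≤ 2 * (σ * (v1 + v2 + v3 + v4)) ^ 2 + 2 * (4 * τ) ^ 2 := by
      rw [hDe]
      linarith only [sq_nonneg (σ * (v1 + v2 + v3 + v4) + 4 * τ)]
    linarith only [g1, g2, hB1, hB2]
  have htD2 : t ^ 2 * D ^ 2 ≤ 72 * q := by
    have : t ^ 2 * D ^ 2 ≤ t ^ 2 * (72 * B) := mul_le_mul_of_nonneg_left hD2 (sq_nonneg _)
    linarith only [this, hR, hXn]
  -- absolute values
  set y := |D| with hy
  set s := |σ| with hs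
  set z := |d0| with hz
  set w := |d| with hw
  have hyn : 0 ≤ y := abs_nonneg _
  have hsn : 0 ≤ s := abs_nonneg _
  have hzn : 0 ≤ z := abs_nonneg _
  have hwn : 0 ≤ w := abs_nonneg _
  have hy2 : y ^ 2 = D ^ 2 := sq_abs _
  have hs2 : s ^ 2 = σ ^ 2 := sq_abs _
  have hz2 : z ^ 2 = d0 ^ 2 := sq_abs _
  have hw2 : w ^ 2 = d ^ 2 := sq_abs _
  have hz1 : z ≤ 1 := by rw [hz, hd0, abs_le]; constructor <;> linarith
  have hw1 : w ≤ 1 := by rw [hw, hd, abs_le]; constructor <;> linarith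
  have hs1 : s ≤ 2 := by rw [hs, hσ, abs_le]; constructor <;> linarith
  have hX2 : X ≤ 2 := by rw [hX, ← hz2, ← hw2]; nlinarith only [hz1, hw1, hzn, hwn]
  have htt : t ≤ t ^ 2 := by nlinarith only [ht]
  have cr1 : t * s * z ≤ (t ^ 2 * σ ^ 2 + d0 ^ 2) / 2 := by
    rw [← hs2, ← hz2]; linarith only [sq_nonneg (t * s - z)]
  have cr2 : t * s * w ≤ (t ^ 2 * σ ^ 2 + d ^ 2) / 2 := by
    rw [← hs2, ← hw2]; linarith only [sq_nonneg (t * s - w)]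
  have cr3 : t * s ^ 2 ≤ t ^ 2 * σ ^ 2 := by
    rw [← hs2]; exact mul_le_mul_of_nonneg_right htt (sq_nonneg _)
  -- the imaginary part
  have htD : t * y ≤ 17 * q := by
    set K := (1 + v3 * v4) * (e1 + e2) + (1 + v1 * v2) * (e3 + e4) with hK
    set L := (1 + v3 * v4) * (e1 * (v2 - (v1 + v2 + v3 + v4) / 4) + e2 * (v1 - (v1 + v2 + v3 + v4) / 4)) +
          (1 + v1 * v2) * (e3 * (v4 - (v1 + v2 + v3 + v4) / 4) + e4 * (v3 - (v1 + v2 + v3 + v4) / 4)) with hL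
    have g1 : |Q.im| ≤ q := Complex.abs_im_le_norm Q
    rw [hQ, Q_im] at g1
    have g2 : |2 * t * (K / 4 * D + σ * L)| ≤ q := g1
    have hK8 : 8 ≤ K := by
      have y1 : 0 ≤ v3 * v4 * (e1 + e2) := mul_nonneg hP (by linarith only [h1a, h2a])
      have y2 : 0 ≤ v1 * v2 * (e3 + e4) := mul_nonneg hP0 (by linarith only [h3a, h4a])
      rw [hK]; linarith only [y1, y2, h1a, h2a, h3a, h4a]
    have hm : ∀ x : ℝ, ∀ e P : ℝ, 0 ≤ e → e ≤ 4 → 0 ≤ P → P ≤ 1 → |(1 + P) * (e * x)| ≤ 8 * |x| := by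
      intro x e P he0 he4 hP0 hP1
      rw [abs_mul, abs_mul, abs_of_nonneg (by linarith : 0 ≤ 1 + P), abs_of_nonneg he0]
      have : (1 + P) * e ≤ 8 := by nlinarith only [he0, he4, hP0, hP1]
      calc (1 + P) * (e * |x|) = ((1 + P) * e) * |x| := by ring
        _ ≤ 8 * |x| := mul_le_mul_of_nonneg_right this (abs_nonneg _)
    have x1 : |v1 - (v1 + v2 + v3 + v4) / 4| ≤ z / 2 + s / 4 := by
      have : v1 - (v1 + v2 + v3 + v4) / 4 = d0 / 2 - σ / 4 := by rw [hd0, hσ]; ring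
      rw [this, hz, hs]
      calc |d0 / 2 - σ / 4| ≤ |d0 / 2| + |σ / 4| := abs_sub _ _
        _ = _ := by rw [abs_div, abs_div]; norm_num
    have x2 : |v2 - (v1 + v2 + v3 + v4) / 4| ≤ z / 2 + s / 4 := by
      have : v2 - (v1 + v2 + v3 + v4) / 4 = -(d0 / 2) - σ / 4 := by rw [hd0, hσ]; ring
      rw [this, hz, hs]
      calc |-(d0 / 2) - σ / 4| ≤ |-(d0 / 2)| + |σ / 4| := abs_sub _ _
        _ = _ := by rw [abs_neg, abs_div, abs_div]; norm_num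
    have x3 : |v3 - (v1 + v2 + v3 + v4) / 4| ≤ w / 2 + s / 4 := by
      have : v3 - (v1 + v2 + v3 + v4) / 4 = d / 2 + σ / 4 := by rw [hd, hσ]; ring
      rw [this, hw, hs]
      calc |d / 2 + σ / 4| ≤ |d / 2| + |σ / 4| := abs_add_le _ _
        _ = _ := by rw [abs_div, abs_div]; norm_num
    have x4 : |v4 - (v1 + v2 + v3 + v4) / 4| ≤ w / 2 + s / 4 := by
      have : v4 - (v1 + v2 + v3 + v4) / 4 = -(d / 2) + σ / 4 := by rw [hd, hσ]; ring
      rw [this, hw, hs]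
      calc |-(d / 2) + σ / 4| ≤ |-(d / 2)| + |σ / 4| := abs_add_le _ _
        _ = _ := by rw [abs_neg, abs_div, abs_div]; norm_num
    have hLb : |L| ≤ 8 * (z + w + s) := by
      have e : L = (1 + v3 * v4) * (e1 * (v2 - (v1 + v2 + v3 + v4) / 4)) +
          (1 + v3 * v4) * (e2 * (v1 - (v1 + v2 + v3 + v4) / 4)) +
          (1 + v1 * v2) * (e3 * (v4 - (v1 + v2 + v3 + v4) / 4)) +
          (1 + v1 * v2) * (e4 * (v3 - (v1 + v2 + v3 + v4) / 4)) := by rw [hL]; ring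
      have m1 := hm (v2 - (v1 + v2 + v3 + v4) / 4) e1 (v3 * v4) (by linarith) h1b hP hP1
      have m2 := hm (v1 - (v1 + v2 + v3 + v4) / 4) e2 (v3 * v4) (by linarith) h2b hP hP1
      have m3 := hm (v4 - (v1 + v2 + v3 + v4) / 4) e3 (v1 * v2) (by linarith) h3b hP0 hP01
      have m4 := hm (v3 - (v1 + v2 + v3 + v4) / 4) e4 (v1 * v2) (by linarith) h4b hP0 hP01
      rw [e]
      refine (abs_add_le _ _).trans ?_
      have n1 := abs_add_le ((1 + v3 * v4) * (e1 * (v2 - (v1 + v2 + v3 + v4) / 4)) +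
          (1 + v3 * v4) * (e2 * (v1 - (v1 + v2 + v3 + v4) / 4)))
          ((1 + v1 * v2) * (e3 * (v4 - (v1 + v2 + v3 + v4) / 4)))
      have n2 := abs_add_le ((1 + v3 * v4) * (e1 * (v2 - (v1 + v2 + v3 + v4) / 4)))
          ((1 + v3 * v4) * (e2 * (v1 - (v1 + v2 + v3 + v4) / 4)))
      linarith
    have g3 : 4 * (t * y) ≤ q + 2 * t * (s * |L|) := by
      have g4 : 2 * t * (K / 4 * y) ≤ |2 * t * (K / 4 * D + σ * L)| + 2 * t * (s * |L|) := by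
        have u1 : 2 * t * (K / 4 * D) = 2 * t * (K / 4 * D + σ * L) - 2 * t * (σ * L) := by ring
        have u2 : |2 * t * (K / 4 * D)| = 2 * t * (K / 4 * y) := by
          rw [abs_mul (2 * t) (K / 4 * D), abs_mul (K / 4) D, abs_of_pos (by linarith only [ht0] : 0 < 2 * t),
            abs_of_pos (by linarith only [hK8] : 0 < K / 4)]
        have u3 : |2 * t * (σ * L)| = 2 * t * (s * |L|) := by
          rw [abs_mul (2 * t) (σ * L), abs_mul σ L, abs_of_pos (by linarith only [ht0] : 0 < 2 * t)]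
        rw [← u2, ← u3, u1]
        exact abs_sub _ _
      have g5 : 4 * (t * y) ≤ 2 * t * (K / 4 * y) := by
        have : 2 * (t * y) ≤ K / 4 * (t * y) :=
          mul_le_mul_of_nonneg_right (by linarith only [hK8]) (mul_nonneg ht0.le hyn)
        linarith only [this]
      linarith
    have g6 : 2 * t * (s * |L|) ≤ 16 * (t * s * z + t * s * w + t * s ^ 2) := by
      have : 2 * t * s * |L| ≤ 2 * t * s * (8 * (z + w + s)) :=
        mul_le_mul_of_nonneg_left hLb (by positivity)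
      linarith only [this]
    have e : X = d0 ^ 2 + d ^ 2 := hX
    linarith only [g3, g6, cr1, cr2, cr3, e, hts, hR, hXn, hqn]
  -- the numerator
  have hNn : ‖N‖ ≤ 6 * X + 4 * σ ^ 2 + t * y + 2 * (t * s * z) + t * s ^ 2 := by
    have g1 : ‖N‖ ≤ |N.re| + |N.im| := Complex.norm_le_abs_re_add_abs_im N
    have nre : N.re = e2 * (v3 - v4) ^ 2 + e4 * (v2 - v3) ^ 2 + e3 * (v2 - v4) ^ 2 := by rw [hN, N_re]
    have nim : N.im = -(2 * t * (1 + v3 * v4) * ((v2 - v3) * (v2 - v4))) := by rw [hN, N_im]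
    rw [nre, nim] at g1
    have e0 : v3 - v4 = d := rfl
    have e1' : v2 - v3 = -(σ + d0 + d) / 2 := by rw [hσ, hd0, hd]; ring
    have e2' : v2 - v4 = -(σ + d0 - d) / 2 := by rw [hσ, hd0, hd]; ring
    have g2 : |e2 * (v3 - v4) ^ 2 + e4 * (v2 - v3) ^ 2 + e3 * (v2 - v4) ^ 2| ≤ 6 * X + 4 * σ ^ 2 := by
      rw [abs_of_nonneg (by positivity)]
      have m1 : e2 * (v3 - v4) ^ 2 ≤ 4 * d ^ 2 := mul_le_mul_of_nonneg_right h2b (sq_nonneg _)
      have m2 : e4 * (v2 - v3) ^ 2 ≤ 4 * (v2 - v3) ^ 2 := mul_le_mul_of_nonneg_right h4b (sq_nonneg _)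
      have m3 : e3 * (v2 - v4) ^ 2 ≤ 4 * (v2 - v4) ^ 2 := mul_le_mul_of_nonneg_right h3b (sq_nonneg _)
      have m4 : (v2 - v3) ^ 2 + (v2 - v4) ^ 2 = ((σ + d0) ^ 2 + d ^ 2) / 2 := by rw [e1', e2']; ring
      have m5 : (σ + d0) ^ 2 ≤ 2 * σ ^ 2 + 2 * d0 ^ 2 := by linarith only [sq_nonneg (σ - d0)]
      rw [hX]
      linarith only [m1, m2, m3, m4, m5, sq_nonneg d0, sq_nonneg d]
    have g3 : |-(2 * t * (1 + v3 * v4) * ((v2 - v3) * (v2 - v4)))| ≤ t * y + 2 * (t * s * z) + t * s ^ 2 := by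
      have m1 : (v2 - v3) * (v2 - v4) = ((σ ^ 2 + 2 * (σ * d0)) - D) / 4 := by rw [e1', e2', hD]; ring
      have m2 : |(σ ^ 2 + 2 * (σ * d0)) - D| ≤ s ^ 2 + 2 * (s * z) + y := by
        have w1 : |(σ ^ 2 + 2 * (σ * d0)) - D| ≤ |σ ^ 2 + 2 * (σ * d0)| + |D| := abs_sub _ _
        have w2 := abs_add_le (σ ^ 2) (2 * (σ * d0))
        have w3 : |σ ^ 2| = s ^ 2 := by rw [abs_of_nonneg (sq_nonneg σ), hs2]
        have w4 : |2 * (σ * d0)| = 2 * (s * z) := by rw [abs_mul 2, abs_mul σ, abs_two]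
        rw [w3, w4] at w2
        linarith only [w1, w2]
      rw [abs_neg, abs_mul (2 * t * (1 + v3 * v4)), abs_mul (2 * t) (1 + v3 * v4),
        abs_of_pos (by linarith only [ht0] : 0 < 2 * t),
        abs_of_pos (by linarith only [hP] : 0 < 1 + v3 * v4), m1, abs_div]
      have m3 : 2 * t * (1 + v3 * v4) ≤ 4 * t := by nlinarith only [ht0, hP1]
      calc 2 * t * (1 + v3 * v4) * (|(σ ^ 2 + 2 * (σ * d0)) - D| / |(4 : ℝ)|)
          ≤ 4 * t * ((s ^ 2 + 2 * (s * z) + y) / 4) := by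
            rw [abs_of_pos (by norm_num : (0 : ℝ) < 4)]
            refine mul_le_mul m3 (by linarith) (by positivity) (by positivity)
        _ = _ := by ring
    linarith
  have hNx : 0 ≤ ‖N‖ := norm_nonneg _
  have r1 : 6 * X ≤ 3 / 2 * q := by linarith only [mul_nonneg (sq_nonneg t) hBn, hR]
  have r2 : t ^ 2 * σ ^ 2 ≤ 2 * q := by linarith only [hts, hR, hXn]
  have r3 : σ ^ 2 ≤ t ^ 2 * σ ^ 2 := by
    have h5 : 1 ≤ t ^ 2 := by nlinarith only [ht]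
    have h6 := mul_le_mul_of_nonneg_right h5 (sq_nonneg σ)
    linarith only [h6]
  have r4 : d0 ^ 2 ≤ q / 4 := by
    have : d0 ^ 2 ≤ X := by rw [hX]; linarith only [sq_nonneg d]
    linarith only [mul_nonneg (sq_nonneg t) hBn, hR, this]
  have f1 : 6 * X + 4 * σ ^ 2 + t * y + 2 * (t * s * z) + t * s ^ 2 ≤ 31 * q := by
    linarith only [r1, r2, r3, r4, htD, cr1, cr3, hqn]
  have hty : 0 ≤ t * y := mul_nonneg ht0.le hyn
  have f2 : t * y * (6 * X + 4 * σ ^ 2 + t * y + 2 * (t * s * z) + t * s ^ 2) ≤ 700 * q := by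
    have m1 : t * y * (6 * X) ≤ 12 * (17 * q) := by nlinarith only [hty, hX2, htD]
    have hσ4 : σ ^ 2 ≤ 4 := by rw [← hs2]; nlinarith only [hs1, hsn]
    have m2 : t * y * (4 * σ ^ 2) ≤ 16 * (17 * q) := by nlinarith only [hty, hσ4, htD]
    have m3 : t * y * (t * y) ≤ 72 * q := by
      have : t * y * (t * y) = t ^ 2 * D ^ 2 := by rw [← hy2]; ring
      linarith only [this, htD2]
    have m6 : (t * y) * (t * s) ≤ 37 * q := by
      have : 0 ≤ (t * y - t * s) ^ 2 := sq_nonneg _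
      have e : (t * s) ^ 2 = t ^ 2 * σ ^ 2 := by rw [← hs2]; ring
      linarith only [this, e, m3, r2]
    have hts' : 0 ≤ (t * y) * (t * s) := by positivity
    have m4 : t * y * (2 * (t * s * z)) ≤ 74 * q := by
      calc t * y * (2 * (t * s * z)) = 2 * ((t * y) * (t * s)) * z := by ring
        _ ≤ 2 * ((t * y) * (t * s)) * 1 := mul_le_mul_of_nonneg_left hz1 (by positivity)
        _ ≤ _ := by linarith only [m6]
    have m5 : t * y * (t * s ^ 2) ≤ 74 * q := by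
      calc t * y * (t * s ^ 2) = ((t * y) * (t * s)) * s := by ring
        _ ≤ ((t * y) * (t * s)) * 2 := mul_le_mul_of_nonneg_left hs1 hts'
        _ ≤ _ := by linarith only [m6]
    linarith only [m1, m2, m3, m4, m5, hqn]
  calc (1 + t * y) * ‖N‖ ≤ (1 + t * y) * (6 * X + 4 * σ ^ 2 + t * y + 2 * (t * s * z) + t * s ^ 2) :=
        mul_le_mul_of_nonneg_left hNn (by positivity)
    _ = (6 * X + 4 * σ ^ 2 + t * y + 2 * (t * s * z) + t * s ^ 2) +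
        t * y * (6 * X + 4 * σ ^ 2 + t * y + 2 * (t * s * z) + t * s ^ 2) := by ring
    _ ≤ _ := by linarith only [f1, f2, hqn]

end X92.Sec
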