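import Pool.Agent.X92.Sec3
set_option autoImplicit false
open MeasureTheory Set Complex
open scoped ENNReal ComplexConjugate

namespace X92.Sec

noncomputable def c0 (a : ℂ) : ℂ := 1 / (4 * a)

noncomputable def sA (a1 a2 a3 a4 : ℂ) : ℂ := c0 a1 + c0 a2 + c0 a3 + c0 a4
noncomputable def sB (a1 a2 a3 a4 : ℂ) (v1 v2 v3 v4 : ℝ) : ℂ :=
  c0 a1 * (v1 : ℂ) + c0 a2 * (v2 : ℂ) + c0 a3 * (v3 : ℂ) + c0 a4 * (v4 : ℂ)
noncomputable def sC (a1 a2 a3 a4 : ℂ) (v1 v2 v3 v4 : ℝ) : ℂ :=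
  c0 a1 * ((v1 ^ 2 : ℝ) : ℂ) + c0 a2 * ((v2 ^ 2 : ℝ) : ℂ) + c0 a3 * ((v3 ^ 2 : ℝ) : ℂ) +
    c0 a4 * ((v4 ^ 2 : ℝ) : ℂ)

/-- the closed form of the four-linear Gaussian integral -/
noncomputable def JF (a1 a2 a3 a4 : ℂ) (v1 v2 v3 v4 : ℝ) : ℂ :=
  (Real.pi / a1) ^ (1 / 2 : ℂ) * (Real.pi / a2) ^ (1 / 2 : ℂ) * (Real.pi / a3) ^ (1 / 2 : ℂ) *
    (Real.pi / a4) ^ (1 / 2 : ℂ) *
    ((Real.pi / sA a1 a2 a3 a4) ^ (1 / 2 : ℂ) *
      (Real.pi / (sC a1 a2 a3 a4 v1 v2 v3 v4 - sB a1 a2 a3 a4 v1 v2 v3 v4 ^ 2 / sA a1 a2 a3 a4)) ^ (1 / 2 : ℂ))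

theorem ne_of_re {a : ℂ} (h : 0 < a.re) : a ≠ 0 := fun h0 => by rw [h0] at h; simp at h

theorem re_inv_pos {a : ℂ} (h : 0 < a.re) (r : ℝ) (hr : 0 < r) : 0 < ((r : ℂ) / a).re := by
  have hn : 0 < Complex.normSq a := Complex.normSq_pos.2 (ne_of_re h)
  rw [Complex.div_re, Complex.ofReal_re, Complex.ofReal_im]
  have : 0 < r * a.re / Complex.normSq a := div_pos (mul_pos hr h) hn
  simpa using this

theorem c0_re {a : ℂ} (h : 0 < a.re) : 0 < (c0 a).re := by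
  have e : c0 a = ((1 / 4 : ℝ) : ℂ) / a := by
    unfold c0
    have := ne_of_re h
    push_cast
    field_simp
  rw [e]
  exact re_inv_pos h _ (by norm_num)

theorem sA_re {a1 a2 a3 a4 : ℂ} (h1 : 0 < a1.re) (h2 : 0 < a2.re) (h3 : 0 < a3.re) (h4 : 0 < a4.re) :
    0 < (sA a1 a2 a3 a4).re := by
  unfold sA
  rw [Complex.add_re, Complex.add_re, Complex.add_re]
  have := c0_re h1
  have := c0_re h2
  have := c0_re h3
  have := c0_re h4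
  linarith

theorem pd {a1 a2 a3 a4 : ℂ} (h1 : 0 < a1.re) (h2 : 0 < a2.re) (h3 : 0 < a3.re) (h4 : 0 < a4.re)
    (v1 v2 v3 v4 : ℝ) (hv : v1 ≠ v2 ∨ v3 ≠ v4) :
    (sB a1 a2 a3 a4 v1 v2 v3 v4).re ^ 2 <
      (sA a1 a2 a3 a4).re * (sC a1 a2 a3 a4 v1 v2 v3 v4).re := by
  unfold sA sB sC
  simp only [Complex.add_re, Complex.re_mul_ofReal]
  set r1 := (c0 a1).re
  set r2 := (c0 a2).re
  set r3 := (c0 a3).re
  set r4 := (c0 a4).re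
  have g1 : 0 < r1 := c0_re h1
  have g2 : 0 < r2 := c0_re h2
  have g3 : 0 < r3 := c0_re h3
  have g4 : 0 < r4 := c0_re h4
  have key : (r1 + r2 + r3 + r4) * (r1 * v1 ^ 2 + r2 * v2 ^ 2 + r3 * v3 ^ 2 + r4 * v4 ^ 2) -
      (r1 * v1 + r2 * v2 + r3 * v3 + r4 * v4) ^ 2 =
      r1 * r2 * (v1 - v2) ^ 2 + r3 * r4 * (v3 - v4) ^ 2 + r1 * r3 * (v1 - v3) ^ 2 +
      r1 * r4 * (v1 - v4) ^ 2 + r2 * r3 * (v2 - v3) ^ 2 + r2 * r4 * (v2 - v4) ^ 2 := by ring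
  have p1 : 0 ≤ r1 * r3 * (v1 - v3) ^ 2 := by positivity
  have p2 : 0 ≤ r1 * r4 * (v1 - v4) ^ 2 := by positivity
  have p3 : 0 ≤ r2 * r3 * (v2 - v3) ^ 2 := by positivity
  have p4 : 0 ≤ r2 * r4 * (v2 - v4) ^ 2 := by positivity
  have p5 : 0 ≤ r1 * r2 * (v1 - v2) ^ 2 := by positivity
  have p6 : 0 ≤ r3 * r4 * (v3 - v4) ^ 2 := by positivity
  rcases hv with hv | hv
  · have : 0 < (v1 - v2) ^ 2 := by
      have := sub_ne_zero.2 hv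
      positivity
    have : 0 < r1 * r2 * (v1 - v2) ^ 2 := by positivity
    linarith
  · have : 0 < (v3 - v4) ^ 2 := by
      have := sub_ne_zero.2 hv
      positivity
    have : 0 < r3 * r4 * (v3 - v4) ^ 2 := by positivity
    linarith

theorem Q_eq {a1 a2 a3 a4 : ℂ} (h1 : a1 ≠ 0) (h2 : a2 ≠ 0) (h3 : a3 ≠ 0) (h4 : a4 ≠ 0)
    (v1 v2 v3 v4 : ℝ) :
    Qf a1 a2 a3 a4 v1 v2 v3 v4 = 16 * (a1 * a2 * a3 * a4) *
      (sA a1 a2 a3 a4 * sC a1 a2 a3 a4 v1 v2 v3 v4 - sB a1 a2 a3 a4 v1 v2 v3 v4 ^ 2) := by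
  unfold Qf sA sB sC c0
  push_cast
  field_simp
  ring

theorem JF_sq {a1 a2 a3 a4 : ℂ} (h1 : 0 < a1.re) (h2 : 0 < a2.re) (h3 : 0 < a3.re) (h4 : 0 < a4.re)
    (v1 v2 v3 v4 : ℝ) (hv : v1 ≠ v2 ∨ v3 ≠ v4) :
    JF a1 a2 a3 a4 v1 v2 v3 v4 ^ 2 * Qf a1 a2 a3 a4 v1 v2 v3 v4 = 16 * (Real.pi : ℂ) ^ 6 := by
  have hA := sA_re h1 h2 h3 h4
  have hS := schur_re _ _ _ hA (pd h1 h2 h3 h4 v1 v2 v3 v4 hv)
  rw [Q_eq (ne_of_re h1) (ne_of_re h2) (ne_of_re h3) (ne_of_re h4)]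
  unfold JF
  simp only [mul_pow, half_sq]
  set A := sA a1 a2 a3 a4
  set B := sB a1 a2 a3 a4 v1 v2 v3 v4
  set C := sC a1 a2 a3 a4 v1 v2 v3 v4
  set S := C - B ^ 2 / A with hSdef
  have hA0 : A ≠ 0 := ne_of_re hA
  have hS0 : S ≠ 0 := ne_of_re hS
  have e : A * C - B ^ 2 = A * S := by
    rw [hSdef]
    field_simp
  rw [e]
  have := ne_of_re h1
  have := ne_of_re h2
  have := ne_of_re h3
  have := ne_of_re h4
  field_simp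

theorem slit_of_re {z : ℂ} (h : 0 < z.re) : z ∈ slitPlane := Or.inl h

theorem JF_diff {a1 a2 a3 a4 : ℂ} (h1 : 0 < a1.re) (h2 : 0 < a2.re) (h3 : 0 < a3.re) (h4 : 0 < a4.re)
    (v1 v2 v3 v4 : ℝ) (hv : v1 ≠ v2 ∨ v3 ≠ v4) :
    DifferentiableAt ℂ (fun z => JF z a2 a3 a4 v1 v2 v3 v4) a1 := by
  have hA := sA_re h1 h2 h3 h4
  have hS := schur_re _ _ _ hA (pd h1 h2 h3 h4 v1 v2 v3 v4 hv)
  have hc : DifferentiableAt ℂ c0 a1 := by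
    unfold c0
    refine (differentiableAt_const _).div ((differentiableAt_const _).mul differentiableAt_id) ?_
    exact mul_ne_zero (by norm_num) (ne_of_re h1)
  have hdA : DifferentiableAt ℂ (fun z => sA z a2 a3 a4) a1 := by
    unfold sA
    exact ((hc.add (differentiableAt_const _)).add (differentiableAt_const _)).add (differentiableAt_const _)
  have hdB : DifferentiableAt ℂ (fun z => sB z a2 a3 a4 v1 v2 v3 v4) a1 := by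
    unfold sB
    exact (((hc.mul (differentiableAt_const _)).add (differentiableAt_const _)).add
      (differentiableAt_const _)).add (differentiableAt_const _)
  have hdC : DifferentiableAt ℂ (fun z => sC z a2 a3 a4 v1 v2 v3 v4) a1 := by
    unfold sC
    exact (((hc.mul (differentiableAt_const _)).add (differentiableAt_const _)).add
      (differentiableAt_const _)).add (differentiableAt_const _)
  have hdS : DifferentiableAt ℂ (fun z => sC z a2 a3 a4 v1 v2 v3 v4 -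
      sB z a2 a3 a4 v1 v2 v3 v4 ^ 2 / sA z a2 a3 a4) a1 :=
    hdC.sub ((hdB.pow 2).div hdA (ne_of_re hA))
  have k1 : DifferentiableAt ℂ (fun z : ℂ => ((Real.pi : ℂ) / z) ^ (1 / 2 : ℂ)) a1 :=
    ((differentiableAt_const _).div differentiableAt_id (ne_of_re h1)).cpow (differentiableAt_const _)
      (slit_of_re (re_inv_pos h1 _ Real.pi_pos))
  have k2 : DifferentiableAt ℂ (fun z : ℂ => ((Real.pi : ℂ) / sA z a2 a3 a4) ^ (1 / 2 : ℂ)) a1 :=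
    ((differentiableAt_const _).div hdA (ne_of_re hA)).cpow (differentiableAt_const _)
      (slit_of_re (re_inv_pos hA _ Real.pi_pos))
  have k3 : DifferentiableAt ℂ (fun z : ℂ => ((Real.pi : ℂ) / (sC z a2 a3 a4 v1 v2 v3 v4 -
      sB z a2 a3 a4 v1 v2 v3 v4 ^ 2 / sA z a2 a3 a4)) ^ (1 / 2 : ℂ)) a1 :=
    ((differentiableAt_const _).div hdS (ne_of_re hS)).cpow (differentiableAt_const _)
      (slit_of_re (re_inv_pos hS _ Real.pi_pos))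
  unfold JF
  exact ((((k1.mul (differentiableAt_const _)).mul (differentiableAt_const _)).mul
    (differentiableAt_const _))).mul (k2.mul k3)

theorem Q_hasDeriv (a1 a2 a3 a4 : ℂ) (v1 v2 v3 v4 : ℝ) :
    HasDerivAt (fun z => Qf z a2 a3 a4 v1 v2 v3 v4) (Nf a2 a3 a4 v2 v3 v4) a1 := by
  have e : (fun z => Qf z a2 a3 a4 v1 v2 v3 v4) = fun z => z * Nf a2 a3 a4 v2 v3 v4 +
      Qf 0 a2 a3 a4 v1 v2 v3 v4 := by
    ext z
    unfold Qf Nf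
    ring
  rw [e]
  have := ((hasDerivAt_id a1).mul_const (Nf a2 a3 a4 v2 v3 v4)).add_const (Qf 0 a2 a3 a4 v1 v2 v3 v4)
  simpa using this

theorem JF_deriv {a1 a2 a3 a4 : ℂ} (h1 : 0 < a1.re) (h2 : 0 < a2.re) (h3 : 0 < a3.re) (h4 : 0 < a4.re)
    (v1 v2 v3 v4 : ℝ) (hv : v1 ≠ v2 ∨ v3 ≠ v4) :
    ‖deriv (fun z => JF z a2 a3 a4 v1 v2 v3 v4) a1‖ * (2 * ‖Qf a1 a2 a3 a4 v1 v2 v3 v4‖) =
      ‖JF a1 a2 a3 a4 v1 v2 v3 v4‖ * ‖Nf a2 a3 a4 v2 v3 v4‖ := by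
  have hd := (JF_diff h1 h2 h3 h4 v1 v2 v3 v4 hv).hasDerivAt
  set D := deriv (fun z => JF z a2 a3 a4 v1 v2 v3 v4) a1 with hD
  have hp := (hd.pow 2).mul (Q_hasDeriv a1 a2 a3 a4 v1 v2 v3 v4)
  have hev : (fun z => JF z a2 a3 a4 v1 v2 v3 v4 ^ 2 * Qf z a2 a3 a4 v1 v2 v3 v4) =ᶠ[nhds a1]
      fun _ => 16 * (Real.pi : ℂ) ^ 6 := by
    have ho : IsOpen {z : ℂ | 0 < z.re} := isOpen_lt continuous_const Complex.continuous_re
    filter_upwards [ho.mem_nhds h1] with z hz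
    exact JF_sq hz h2 h3 h4 v1 v2 v3 v4 hv
  have h0 : HasDerivAt (fun z => JF z a2 a3 a4 v1 v2 v3 v4 ^ 2 * Qf z a2 a3 a4 v1 v2 v3 v4) 0 a1 :=
    (hasDerivAt_const a1 _).congr_of_eventuallyEq hev
  have he := hp.unique h0
  have hJ0 : JF a1 a2 a3 a4 v1 v2 v3 v4 ≠ 0 := by
    intro h
    have := JF_sq h1 h2 h3 h4 v1 v2 v3 v4 hv
    rw [h] at this
    have hpi : (Real.pi : ℂ) ≠ 0 := by exact_mod_cast Real.pi_ne_zero
    have h16 : (16 : ℂ) * (Real.pi : ℂ) ^ 6 ≠ 0 := mul_ne_zero (by norm_num) (pow_ne_zero _ hpi)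
    simp at this
  have he2 : JF a1 a2 a3 a4 v1 v2 v3 v4 * (D * (2 * Qf a1 a2 a3 a4 v1 v2 v3 v4)) =
      JF a1 a2 a3 a4 v1 v2 v3 v4 * (-(JF a1 a2 a3 a4 v1 v2 v3 v4 * Nf a2 a3 a4 v2 v3 v4)) := by
    simp at he
    linear_combination he
  have he3 := mul_left_cancel₀ hJ0 he2
  have he4 := congrArg norm he3
  rw [norm_mul, norm_mul, norm_neg, norm_mul] at he4
  simpa using he4

end X92.Sec
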