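import Pool.Agent.X92.Sec4
set_option autoImplicit false
open MeasureTheory Set Complex
open scoped ENNReal ComplexConjugate

namespace X92.Sec

theorem split_low (ε t X δ σ : ℝ) (hε : 0 < ε) (hε1 : ε < 1) (ht : 1 ≤ t) (hσ : σ ≠ 0) (hδ : 0 < δ)
    (hX1 : t ^ 2 * σ ^ 2 / 2 ≤ X) (hX2 : δ ≤ X) :
    t ^ (2 - 2 * ε) * (|σ| ^ (1 - ε) * δ ^ (1 - ε / 2)) ≤ 2 * (Real.sqrt X * (1 + t * δ)) := by
  have ht0 : 0 < t := by linarith
  have hs : 0 < |σ| := abs_pos.2 hσ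
  have hX0 : 0 < X := lt_of_lt_of_le hδ hX2
  have h1 : (t * |σ|) ^ (1 - ε) * δ ^ (ε / 2) ≤ 2 * Real.sqrt X := by
    have e1 : Real.sqrt X = X ^ ((1 - ε) / 2) * X ^ (ε / 2) := by
      rw [← Real.rpow_add hX0, Real.sqrt_eq_rpow]
      congr 1; ring
    have e2 : (t * |σ|) ^ (1 - ε) ≤ 2 * X ^ ((1 - ε) / 2) := by
      have g1 : (t * |σ|) ^ (1 - ε) = ((t * |σ|) ^ 2) ^ ((1 - ε) / 2) := by
        rw [← Real.rpow_natCast (t * |σ|) 2, ← Real.rpow_mul (by positivity)]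
        congr 1; push_cast; ring
      have g2 : (t * |σ|) ^ 2 ≤ 2 * X := by rw [mul_pow, sq_abs]; linarith
      rw [g1]
      calc ((t * |σ|) ^ 2) ^ ((1 - ε) / 2) ≤ (2 * X) ^ ((1 - ε) / 2) :=
            Real.rpow_le_rpow (by positivity) g2 (by linarith)
        _ = 2 ^ ((1 - ε) / 2) * X ^ ((1 - ε) / 2) := Real.mul_rpow (by norm_num) hX0.le
        _ ≤ 2 ^ (1 : ℝ) * X ^ ((1 - ε) / 2) := by
            refine mul_le_mul_of_nonneg_right ?_ (by positivity)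
            exact Real.rpow_le_rpow_of_exponent_le (by norm_num) (by linarith)
        _ = _ := by rw [Real.rpow_one]
    have e3 : δ ^ (ε / 2) ≤ X ^ (ε / 2) := Real.rpow_le_rpow hδ.le hX2 (by linarith)
    rw [e1]
    calc (t * |σ|) ^ (1 - ε) * δ ^ (ε / 2) ≤ (2 * X ^ ((1 - ε) / 2)) * X ^ (ε / 2) :=
          mul_le_mul e2 e3 (by positivity) (by positivity)
      _ = _ := by ring
  have h2 : (t * δ) ^ (1 - ε) ≤ 1 + t * δ := by
    have g0 : 0 < t * δ := by positivity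
    rcases le_total (t * δ) 1 with g | g
    · have := Real.rpow_le_one g0.le g (by linarith : 0 ≤ 1 - ε)
      linarith
    · have : (t * δ) ^ (1 - ε) ≤ (t * δ) ^ (1 : ℝ) := Real.rpow_le_rpow_of_exponent_le g (by linarith)
      rw [Real.rpow_one] at this
      linarith
  calc t ^ (2 - 2 * ε) * (|σ| ^ (1 - ε) * δ ^ (1 - ε / 2))
      = ((t * |σ|) ^ (1 - ε) * δ ^ (ε / 2)) * (t * δ) ^ (1 - ε) := by
        rw [Real.mul_rpow ht0.le hs.le, Real.mul_rpow ht0.le hδ.le]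
        have e1 : t ^ (2 - 2 * ε) = t ^ (1 - ε) * t ^ (1 - ε) := by
          rw [← Real.rpow_add ht0]; congr 1; ring
        have e2 : δ ^ (1 - ε / 2) = δ ^ (ε / 2) * δ ^ (1 - ε) := by
          rw [← Real.rpow_add hδ]; congr 1; ring
        rw [e1, e2]; ring
    _ ≤ (2 * Real.sqrt X) * (1 + t * δ) := mul_le_mul h1 h2 (by positivity) (by positivity)
    _ = _ := by ring

theorem JF_bound (ε t e2 e3 e4 v1 v2 v3 v4 : ℝ) (hε : 0 < ε) (hε1 : ε < 1) (ht : 1 ≤ t)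
    (h2 : 2 ≤ e2 ∧ e2 ≤ 4) (h3 : 2 ≤ e3 ∧ e3 ≤ 4) (h4 : 2 ≤ e4 ∧ e4 ≤ 4)
    (k1 : 0 ≤ v1 ∧ v1 ≤ 1) (k2 : 0 ≤ v2 ∧ v2 ≤ 1) (k3 : 0 ≤ v3 ∧ v3 ≤ 1) (k4 : 0 ≤ v4 ∧ v4 ≤ 1)
    (hσ : v3 + v4 - v1 - v2 ≠ 0) (hδ1 : (v3 - v4) - (v1 - v2) ≠ 0) (hδ2 : (v3 - v4) + (v1 - v2) ≠ 0) :
    ‖JF (cc 4 t v1) (cc e2 t v2) (cc e3 (-t) v3) (cc e4 (-t) v4) v1 v2 v3 v4 -
      JF (cc 2 t v1) (cc e2 t v2) (cc e3 (-t) v3) (cc e4 (-t) v4) v1 v2 v3 v4‖ ≤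
      8000 * Real.pi ^ 3 * (t ^ (-(2 - 2 * ε)) * (|v3 + v4 - v1 - v2| ^ (-(1 - ε)) *
        (|(v3 - v4) - (v1 - v2)| ^ (-(1 - ε / 2)) * |(v3 - v4) + (v1 - v2)| ^ (-(1 - ε / 2))))) := by
  set a2 := cc e2 t v2 with ha2
  set a3 := cc e3 (-t) v3 with ha3
  set a4 := cc e4 (-t) v4 with ha4
  have ht0 : 0 < t := by linarith
  have p2 : 0 < a2.re := by rw [ha2]; show 0 < e2; linarith [h2.1]
  have p3 : 0 < a3.re := by rw [ha3]; show 0 < e3; linarith [h3.1]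
  have p4 : 0 < a4.re := by rw [ha4]; show 0 < e4; linarith [h4.1]
  have hv : v1 ≠ v2 ∨ v3 ≠ v4 := by
    by_contra h
    push Not at h
    apply hδ1
    rw [h.1, h.2]; ring
  set σ := v3 + v4 - v1 - v2 with hσd
  set δ := |(v3 - v4) ^ 2 - (v1 - v2) ^ 2| with hδd
  have hδe : δ = |(v3 - v4) - (v1 - v2)| * |(v3 - v4) + (v1 - v2)| := by
    rw [hδd, ← abs_mul]; congr 1; ring
  have hδ0 : 0 < δ := by rw [hδe]; exact mul_pos (abs_pos.2 hδ1) (abs_pos.2 hδ2)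
  set X := (v1 - v2) ^ 2 + (v3 - v4) ^ 2 + t ^ 2 * σ ^ 2 / 2 with hX
  have hX1 : t ^ 2 * σ ^ 2 / 2 ≤ X := by rw [hX]; nlinarith [sq_nonneg (v1 - v2), sq_nonneg (v3 - v4)]
  have hX2 : δ ≤ X := by
    rw [hδd, hX, abs_le]
    constructor <;> nlinarith [sq_nonneg (v1 - v2), sq_nonneg (v3 - v4), mul_nonneg (sq_nonneg t) (sq_nonneg σ)]
  have hX0 : 0 < X := lt_of_lt_of_le hδ0 hX2
  have hlow := split_low ε t X δ σ hε hε1 ht hσ hδ0 hX1 hX2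
  set s : Set ℂ := {z | 2 ≤ z.re ∧ z.re ≤ 4 ∧ z.im = t * (1 + v1 ^ 2)} with hs
  have hsc : Convex ℝ s := by
    have e : s = ({z : ℂ | 2 ≤ z.re} ∩ {z : ℂ | z.re ≤ 4}) ∩
        ({z : ℂ | t * (1 + v1 ^ 2) ≤ z.im} ∩ {z : ℂ | z.im ≤ t * (1 + v1 ^ 2)}) := by
      ext z
      simp only [hs, Set.mem_ofPred_eq, Set.mem_inter_iff]
      constructor
      · rintro ⟨a, b, c⟩; exact ⟨⟨a, b⟩, ⟨c.ge, c.le⟩⟩
      · rintro ⟨⟨a, b⟩, ⟨c, d⟩⟩; exact ⟨a, b, le_antisymm d c⟩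
    rw [e]
    exact ((convex_halfSpace_re_ge 2).inter (convex_halfSpace_re_le 4)).inter
      ((convex_halfSpace_im_ge _).inter (convex_halfSpace_im_le _))
  set K := 2000 * Real.pi ^ 3 / (Real.sqrt X * (1 + t * δ)) with hK
  have hbound : ∀ z ∈ s, ‖deriv (fun z => JF z a2 a3 a4 v1 v2 v3 v4) z‖ ≤ K := by
    intro z hz
    obtain ⟨hz1, hz2, hz3⟩ := hz
    have hze : z = cc z.re t v1 := by
      apply Complex.ext
      · rfl
      · show z.im = t * (1 + v1 ^ 2); exact hz3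
    have hzp : 0 < z.re := by linarith
    have g1 := JF_deriv hzp p2 p3 p4 v1 v2 v3 v4 hv
    have g2 := JF_sq hzp p2 p3 p4 v1 v2 v3 v4 hv
    have g3 := pt_ineq t z.re e2 e3 e4 v1 v2 v3 v4 ht ⟨hz1, hz2⟩ h2 h3 h4 k1 k2 k3 k4
      (Qf z a2 a3 a4 v1 v2 v3 v4) (Nf a2 a3 a4 v2 v3 v4) (by rw [← hze]) rfl
    obtain ⟨g4, g5⟩ := g3
    set q := ‖Qf z a2 a3 a4 v1 v2 v3 v4‖ with hq
    set J := ‖JF z a2 a3 a4 v1 v2 v3 v4‖ with hJ
    set N := ‖Nf a2 a3 a4 v2 v3 v4‖ with hN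
    set D := ‖deriv (fun z => JF z a2 a3 a4 v1 v2 v3 v4) z‖ with hD
    have hq0 : 0 < q := lt_of_lt_of_le hX0 g4
    have hJq : J ^ 2 * q = 16 * Real.pi ^ 6 := by
      have := congrArg norm g2
      rw [norm_mul, norm_pow] at this
      rw [this]
      simp [abs_of_pos Real.pi_pos]
    have hJ0 : 0 ≤ J := norm_nonneg _
    have hsq : 0 < Real.sqrt X := Real.sqrt_pos.2 hX0
    have hJX : J * Real.sqrt X ≤ 4 * Real.pi ^ 3 := by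
      have : (J * Real.sqrt X) ^ 2 ≤ (4 * Real.pi ^ 3) ^ 2 := by
        rw [mul_pow, Real.sq_sqrt hX0.le]
        calc J ^ 2 * X ≤ J ^ 2 * q := mul_le_mul_of_nonneg_left g4 (sq_nonneg _)
          _ = _ := by rw [hJq]; ring
      exact abs_le_of_sq_le_sq' this (by positivity) |>.2
    have h1δ : 0 < 1 + t * δ := by positivity
    rw [hK, le_div_iff₀ (by positivity)]
    have hD0 : 0 ≤ D := norm_nonneg _
    -- D * 2q = J N
    have w1 : D * (2 * q) * (Real.sqrt X * (1 + t * δ)) ≤ 2000 * Real.pi ^ 3 * (2 * q) := by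
      rw [g1]
      calc J * N * (Real.sqrt X * (1 + t * δ)) = (J * Real.sqrt X) * ((1 + t * δ) * N) := by ring
        _ ≤ (4 * Real.pi ^ 3) * (1000 * q) :=
            mul_le_mul hJX g5 (mul_nonneg h1δ.le (norm_nonneg _)) (by positivity)
        _ = _ := by ring
    have w2 : (D * (Real.sqrt X * (1 + t * δ))) * (2 * q) ≤ (2000 * Real.pi ^ 3) * (2 * q) := by
      calc (D * (Real.sqrt X * (1 + t * δ))) * (2 * q) = D * (2 * q) * (Real.sqrt X * (1 + t * δ)) := by ring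
        _ ≤ _ := w1
    exact le_of_mul_le_mul_right w2 (by positivity)
  have hm := hsc.norm_image_sub_le_of_norm_deriv_le (f := fun z => JF z a2 a3 a4 v1 v2 v3 v4)
    (fun z hz => JF_diff (by have := hz.1; linarith : 0 < z.re) p2 p3 p4 v1 v2 v3 v4 hv) hbound
    (x := cc 2 t v1) (y := cc 4 t v1) ⟨le_refl _, by show (2 : ℝ) ≤ 4; norm_num, rfl⟩
    ⟨by show (2 : ℝ) ≤ 4; norm_num, le_refl _, rfl⟩
  have hcc : ‖cc 4 t v1 - cc 2 t v1‖ = 2 := by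
    have : cc 4 t v1 - cc 2 t v1 = ((2 : ℝ) : ℂ) := by
      apply Complex.ext
      · show (4 : ℝ) - 2 = 2; norm_num
      · show t * (1 + v1 ^ 2) - t * (1 + v1 ^ 2) = 0; ring
    rw [this, Complex.norm_real]; norm_num
  rw [hcc] at hm
  refine hm.trans ?_
  -- compare
  have hsq : 0 < Real.sqrt X := Real.sqrt_pos.2 hX0
  have hY : 0 < Real.sqrt X * (1 + t * δ) := by positivity
  have hZ : 0 < t ^ (2 - 2 * ε) * (|σ| ^ (1 - ε) * δ ^ (1 - ε / 2)) := by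
    have : 0 < |σ| := abs_pos.2 hσ
    positivity
  have e : t ^ (-(2 - 2 * ε)) * (|σ| ^ (-(1 - ε)) *
        (|(v3 - v4) - (v1 - v2)| ^ (-(1 - ε / 2)) * |(v3 - v4) + (v1 - v2)| ^ (-(1 - ε / 2)))) =
      (t ^ (2 - 2 * ε) * (|σ| ^ (1 - ε) * δ ^ (1 - ε / 2)))⁻¹ := by
    rw [← Real.mul_rpow (abs_nonneg _) (abs_nonneg _), ← hδe, Real.rpow_neg ht0.le,
      Real.rpow_neg (abs_nonneg _), Real.rpow_neg hδ0.le, mul_inv, mul_inv]
  rw [e, hK]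
  rw [div_mul_eq_mul_div, div_le_iff₀ hY]
  have w : 1 ≤ (t ^ (2 - 2 * ε) * (|σ| ^ (1 - ε) * δ ^ (1 - ε / 2)))⁻¹ * (2 * (Real.sqrt X * (1 + t * δ))) := by
    rw [inv_mul_eq_div, one_le_div hZ]
    exact hlow
  have hπ : 0 < Real.pi ^ 3 := by positivity
  calc 2000 * Real.pi ^ 3 * 2 = 4000 * Real.pi ^ 3 * 1 := by ring
    _ ≤ 4000 * Real.pi ^ 3 * ((t ^ (2 - 2 * ε) * (|σ| ^ (1 - ε) * δ ^ (1 - ε / 2)))⁻¹ *
        (2 * (Real.sqrt X * (1 + t * δ)))) := mul_le_mul_of_nonneg_left w (by positivity)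
    _ = _ := by ring

end X92.Sec
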