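import Pool.Agent.X92.Sec5
set_option autoImplicit false
open MeasureTheory Set Complex
open scoped ENNReal ComplexConjugate

namespace X92.Sec

/-- The `T T*` identity for absolutely integrable kernels. -/
theorem tt2 {Ξ X : Type*} [MeasurableSpace Ξ] [MeasurableSpace X] (ν : Measure Ξ) [SFinite ν]
    (μ : Measure X) [SFinite μ] (e : Ξ → X → ℂ) (F : X → ℂ)
    (hint : Integrable (Function.uncurry (fun (ξ : Ξ) (z : X × X) =>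
      (F z.1 * conj (F z.2)) * (e ξ z.1 * conj (e ξ z.2)))) (ν.prod (μ.prod μ))) :
    ∫⁻ ξ, ‖∫ x, F x * e ξ x ∂μ‖ₑ ^ 2 ∂ν ≤
      ∫⁻ z, ‖F z.1‖ₑ * ‖F z.2‖ₑ * ‖∫ ξ, e ξ z.1 * conj (e ξ z.2) ∂ν‖ₑ ∂(μ.prod μ) := by
  set S : Ξ → ℂ := fun ξ => ∫ x, F x * e ξ x ∂μ with hS
  set H : Ξ → X × X → ℂ := fun ξ z => (F z.1 * conj (F z.2)) * (e ξ z.1 * conj (e ξ z.2)) with hH
  have hSS : ∀ ξ, S ξ * conj (S ξ) = ∫ z, H ξ z ∂(μ.prod μ) := by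
    intro ξ
    have h5 : conj (S ξ) = ∫ x, conj (F x * e ξ x) ∂μ := by
      rw [hS]; exact (integral_conj).symm
    rw [h5, hS, ← integral_prod_mul (μ := μ) (ν := μ) (fun x => F x * e ξ x) (fun x => conj (F x * e ξ x))]
    congr 1
    ext z
    simp only [map_mul, hH]
    ring
  have hI : Integrable (fun ξ => S ξ * conj (S ξ)) ν := by
    have := hint.integral_prod_left
    refine this.congr (Filter.Eventually.of_forall (fun ξ => ?_))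
    simp only [Function.uncurry]
    exact (hSS ξ).symm
  have hLHS : ∫⁻ ξ, ‖S ξ‖ₑ ^ 2 ∂ν = ‖∫ ξ, S ξ * conj (S ξ) ∂ν‖ₑ := by
    have h6 : ∀ ξ, S ξ * conj (S ξ) = ((‖S ξ‖ ^ 2 : ℝ) : ℂ) := by
      intro ξ
      rw [Complex.mul_conj, Complex.normSq_eq_norm_sq]
    have h8 : Integrable (fun ξ => ‖S ξ‖ ^ 2) ν := by
      have := hI.norm
      refine this.congr (Filter.Eventually.of_forall (fun ξ => ?_))
      simp only [h6, Complex.norm_real]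
      exact Real.norm_of_nonneg (by positivity)
    simp_rw [h6]
    have h7 : ∫ ξ, ((‖S ξ‖ ^ 2 : ℝ) : ℂ) ∂ν = ((∫ ξ, ‖S ξ‖ ^ 2 ∂ν : ℝ) : ℂ) := integral_ofReal
    rw [h7]
    have h9 : 0 ≤ ∫ ξ, ‖S ξ‖ ^ 2 ∂ν := integral_nonneg (fun ξ => by positivity)
    have h10 : ‖((∫ ξ, ‖S ξ‖ ^ 2 ∂ν : ℝ) : ℂ)‖ₑ = ENNReal.ofReal (∫ ξ, ‖S ξ‖ ^ 2 ∂ν) := by
      rw [← ofReal_norm, Complex.norm_real, Real.norm_of_nonneg h9]
    rw [h10, ofReal_integral_eq_lintegral_ofReal h8 (Filter.Eventually.of_forall (fun ξ => by positivity))]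
    refine lintegral_congr (fun ξ => ?_)
    rw [ENNReal.ofReal_pow (norm_nonneg _), ofReal_norm]
  rw [hLHS]
  have hswap : ∫ ξ, S ξ * conj (S ξ) ∂ν =
      ∫ z, (F z.1 * conj (F z.2)) * (∫ ξ, e ξ z.1 * conj (e ξ z.2) ∂ν) ∂(μ.prod μ) := by
    simp_rw [hSS]
    rw [integral_integral_swap hint]
    congr 1
    ext z
    rw [← integral_const_mul]
  rw [hswap]
  refine (enorm_integral_le_lintegral_enorm _).trans ?_
  refine lintegral_mono (fun z => ?_)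
  rw [enorm_mul, enorm_mul]
  have h12 : ‖conj (F z.2)‖ₑ = ‖F z.2‖ₑ := by
    rw [← ofReal_norm, ← ofReal_norm, RCLike.norm_conj]
  rw [h12]

/-- the Gaussian kernel -/
noncomputable def kk (a : ℂ) (v : ℝ) (p : ℝ × ℝ) : ℂ :=
  (Real.pi / a) ^ (1 / 2 : ℂ) * cexp (-(c0 a * (((p.1 + v * p.2) ^ 2 : ℝ) : ℂ)))

theorem kk_prod (a1 a2 a3 a4 : ℂ) (v1 v2 v3 v4 : ℝ) (p : ℝ × ℝ) :
    (kk a1 v1 p * kk a2 v2 p) * (kk a3 v3 p * kk a4 v4 p) =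
      ((Real.pi / a1) ^ (1 / 2 : ℂ) * (Real.pi / a2) ^ (1 / 2 : ℂ) * (Real.pi / a3) ^ (1 / 2 : ℂ) *
        (Real.pi / a4) ^ (1 / 2 : ℂ)) *
      gq (sA a1 a2 a3 a4) (sB a1 a2 a3 a4 v1 v2 v3 v4) (sC a1 a2 a3 a4 v1 v2 v3 v4) p := by
  unfold kk gq sA sB sC
  have e : cexp (-((c0 a1 + c0 a2 + c0 a3 + c0 a4) * (p.1 : ℂ) ^ 2 +
      2 * (c0 a1 * (v1 : ℂ) + c0 a2 * (v2 : ℂ) + c0 a3 * (v3 : ℂ) + c0 a4 * (v4 : ℂ)) * p.1 * p.2 +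
      (c0 a1 * ((v1 ^ 2 : ℝ) : ℂ) + c0 a2 * ((v2 ^ 2 : ℝ) : ℂ) + c0 a3 * ((v3 ^ 2 : ℝ) : ℂ) +
      c0 a4 * ((v4 ^ 2 : ℝ) : ℂ)) * (p.2 : ℂ) ^ 2)) =
      cexp (-(c0 a1 * (((p.1 + v1 * p.2) ^ 2 : ℝ) : ℂ))) * cexp (-(c0 a2 * (((p.1 + v2 * p.2) ^ 2 : ℝ) : ℂ))) *
      (cexp (-(c0 a3 * (((p.1 + v3 * p.2) ^ 2 : ℝ) : ℂ))) * cexp (-(c0 a4 * (((p.1 + v4 * p.2) ^ 2 : ℝ) : ℂ)))) := by
    rw [← Complex.exp_add, ← Complex.exp_add, ← Complex.exp_add]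
    congr 1
    push_cast
    ring
  rw [e]
  ring

theorem kk_int {a1 a2 a3 a4 : ℂ} (h1 : 0 < a1.re) (h2 : 0 < a2.re) (h3 : 0 < a3.re) (h4 : 0 < a4.re)
    (v1 v2 v3 v4 : ℝ) (hv : v1 ≠ v2 ∨ v3 ≠ v4) :
    Integrable (fun p => (kk a1 v1 p * kk a2 v2 p) * (kk a3 v3 p * kk a4 v4 p)) ∧
    ∫ p, (kk a1 v1 p * kk a2 v2 p) * (kk a3 v3 p * kk a4 v4 p) = JF a1 a2 a3 a4 v1 v2 v3 v4 := by
  simp_rw [kk_prod]
  have hA := sA_re h1 h2 h3 h4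
  have hp := pd h1 h2 h3 h4 v1 v2 v3 v4 hv
  constructor
  · exact (gq_integrable _ _ _ hA hp).const_mul _
  · rw [integral_const_mul, gq_integral _ _ _ hA hp]
    rfl

theorem c0_conj (a : ℂ) : conj (c0 a) = c0 (conj a) := by
  unfold c0
  have e : conj (4 : ℂ) = 4 := Complex.conj_eq_iff_real.2 ⟨4, by norm_num⟩
  rw [map_div₀, map_one, map_mul, e]

theorem kk_conj {a : ℂ} (ha : 0 < a.re) (v : ℝ) (p : ℝ × ℝ) : conj (kk a v p) = kk (conj a) v p := by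
  unfold kk
  rw [map_mul, ← Complex.exp_conj, map_neg, map_mul, c0_conj, Complex.conj_ofReal]
  congr 1
  have h1 : (Real.pi / a).arg ≠ Real.pi := by
    have h2 : 0 < ((Real.pi : ℂ) / a).re := re_inv_pos ha _ Real.pi_pos
    intro h
    have := (Complex.arg_eq_pi_iff.1 h).1
    linarith
  have h3 := Complex.conj_cpow ((Real.pi : ℂ) / a) (1 / 2 : ℂ) h1
  have e1 : conj ((Real.pi : ℂ) / a) = (Real.pi : ℂ) / conj a := by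
    rw [map_div₀, Complex.conj_ofReal]
  have e2 : conj (1 / 2 : ℂ) = 1 / 2 := by
    rw [map_div₀, map_one]
    congr 1
    exact Complex.conj_eq_iff_real.2 ⟨2, by norm_num⟩
  rw [e1, e2] at h3
  rw [h3]

theorem cc_conj (e t v : ℝ) : conj (cc e t v) = cc e (-t) v := by
  unfold cc
  apply Complex.ext
  · simp
  · simp

end X92.Sec
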