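import Pool.Agent.X92.Sec6
set_option autoImplicit false
open MeasureTheory Set Complex
open scoped ENNReal ComplexConjugate

namespace X92.Sec

/-- the difference kernel -/
noncomputable def Kt (t v : ℝ) (p : ℝ × ℝ) : ℂ := kk (cc 2 t v) v p - kk (cc 4 t v) v p

/-- the majorant of the four-linear kernel -/
noncomputable def kb (ε t v1 v2 v3 v4 : ℝ) : ℝ :=
  8000 * Real.pi ^ 3 * (t ^ (-(2 - 2 * ε)) * (|v3 + v4 - v1 - v2| ^ (-(1 - ε)) *
        (|(v3 - v4) - (v1 - v2)| ^ (-(1 - ε / 2)) * |(v3 - v4) + (v1 - v2)| ^ (-(1 - ε / 2)))))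

theorem two_int {f g : ℝ × ℝ → ℂ} {a b : ℝ} (hf : Integrable f ∧ ‖∫ p, f p‖ ≤ a)
    (hg : Integrable g ∧ ‖∫ p, g p‖ ≤ b) :
    Integrable (fun p => f p - g p) ∧ ‖∫ p, (f p - g p)‖ ≤ a + b := by
  refine ⟨hf.1.sub hg.1, ?_⟩
  rw [integral_sub hf.1 hg.1]
  exact (norm_sub_le _ _).trans (add_le_add hf.2 hg.2)

theorem four_bound (ε t v1 v2 v3 v4 : ℝ) (hε : 0 < ε) (hε1 : ε < 1) (ht : 1 ≤ t)
    (k1 : 0 ≤ v1 ∧ v1 ≤ 1) (k2 : 0 ≤ v2 ∧ v2 ≤ 1) (k3 : 0 ≤ v3 ∧ v3 ≤ 1) (k4 : 0 ≤ v4 ∧ v4 ≤ 1)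
    (hσ : v3 + v4 - v1 - v2 ≠ 0) (hδ1 : (v3 - v4) - (v1 - v2) ≠ 0) (hδ2 : (v3 - v4) + (v1 - v2) ≠ 0) :
    ‖∫ p, (Kt t v1 p * Kt t v2 p) * conj (Kt t v3 p * Kt t v4 p)‖ ≤ 8 * kb ε t v1 v2 v3 v4 := by
  have hv : v1 ≠ v2 ∨ v3 ≠ v4 := by
    by_contra h
    push Not at h
    apply hδ1
    rw [h.1, h.2]; ring
  have r2 : ∀ (t' v : ℝ), 0 < (cc 2 t' v).re := fun t' v => by show (0 : ℝ) < 2; norm_num
  have r4 : ∀ (t' v : ℝ), 0 < (cc 4 t' v).re := fun t' v => by show (0 : ℝ) < 4; norm_num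
  set D : ℝ → ℝ → ℝ → ℝ × ℝ → ℂ := fun e2 e3 e4 p =>
    (kk (cc 4 t v1) v1 p * kk (cc e2 t v2) v2 p) * (kk (cc e3 (-t) v3) v3 p * kk (cc e4 (-t) v4) v4 p) -
    (kk (cc 2 t v1) v1 p * kk (cc e2 t v2) v2 p) * (kk (cc e3 (-t) v3) v3 p * kk (cc e4 (-t) v4) v4 p) with hD
  have hDI : ∀ e2 e3 e4 : ℝ, (2 ≤ e2 ∧ e2 ≤ 4) → (2 ≤ e3 ∧ e3 ≤ 4) → (2 ≤ e4 ∧ e4 ≤ 4) →
      Integrable (D e2 e3 e4) ∧ ‖∫ p, D e2 e3 e4 p‖ ≤ kb ε t v1 v2 v3 v4 := by
    intro e2 e3 e4 h2 h3 h4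
    have p2 : 0 < (cc e2 t v2).re := by show 0 < e2; linarith [h2.1]
    have p3 : 0 < (cc e3 (-t) v3).re := by show 0 < e3; linarith [h3.1]
    have p4 : 0 < (cc e4 (-t) v4).re := by show 0 < e4; linarith [h4.1]
    have i4 := kk_int (r4 t v1) p2 p3 p4 v1 v2 v3 v4 hv
    have i2 := kk_int (r2 t v1) p2 p3 p4 v1 v2 v3 v4 hv
    refine ⟨i4.1.sub i2.1, ?_⟩
    rw [hD]
    simp only
    rw [integral_sub i4.1 i2.1, i4.2, i2.2]
    exact JF_bound ε t e2 e3 e4 v1 v2 v3 v4 hε hε1 ht h2 h3 h4 k1 k2 k3 k4 hσ hδ1 hδ2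
  have a2 : (2 : ℝ) ≤ 2 ∧ (2 : ℝ) ≤ 4 := by norm_num
  have a4 : (2 : ℝ) ≤ 4 ∧ (4 : ℝ) ≤ 4 := by norm_num
  have h := two_int (two_int (two_int (hDI 4 2 2 a4 a2 a2) (hDI 2 2 2 a2 a2 a2))
      (two_int (hDI 4 4 2 a4 a4 a2) (hDI 2 4 2 a2 a4 a2)))
    (two_int (two_int (hDI 4 2 4 a4 a2 a4) (hDI 2 2 4 a2 a2 a4))
      (two_int (hDI 4 4 4 a4 a4 a4) (hDI 2 4 4 a2 a4 a4)))
  have e : (fun p => (Kt t v1 p * Kt t v2 p) * conj (Kt t v3 p * Kt t v4 p)) = fun p =>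
      ((D 4 2 2 p - D 2 2 2 p) - (D 4 4 2 p - D 2 4 2 p)) -
      ((D 4 2 4 p - D 2 2 4 p) - (D 4 4 4 p - D 2 4 4 p)) := by
    ext p
    have c3 : conj (Kt t v3 p) = kk (cc 2 (-t) v3) v3 p - kk (cc 4 (-t) v3) v3 p := by
      unfold Kt
      rw [map_sub, kk_conj (r2 _ _), kk_conj (r4 _ _), cc_conj, cc_conj]
    have c4 : conj (Kt t v4 p) = kk (cc 2 (-t) v4) v4 p - kk (cc 4 (-t) v4) v4 p := by
      unfold Kt
      rw [map_sub, kk_conj (r2 _ _), kk_conj (r4 _ _), cc_conj, cc_conj]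
    rw [map_mul, c3, c4, hD]
    unfold Kt
    ring
  rw [e]
  refine h.2.trans (le_of_eq ?_)
  ring

/-- the decay of the kernel -/
theorem kk_le (e t v : ℝ) (he : 2 ≤ e) (he4 : e ≤ 4) (hv : 0 ≤ v ∧ v ≤ 1) (p : ℝ × ℝ) :
    ‖kk (cc e t v) v p‖ ≤ 2 * Real.exp (-(1 / (32 + 8 * t ^ 2)) * (p.1 + v * p.2) ^ 2) := by
  have hre : 0 < (cc e t v).re := by show 0 < e; linarith
  have hn : Complex.normSq (cc e t v) = e ^ 2 + (t * (1 + v ^ 2)) ^ 2 := by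
    rw [Complex.normSq_apply]; show e * e + (t * (1 + v ^ 2)) * (t * (1 + v ^ 2)) = _; ring
  have hn1 : Complex.normSq (cc e t v) ≤ 16 + 4 * t ^ 2 := by
    rw [hn, mul_pow]
    have h1 : (1 + v ^ 2) ^ 2 ≤ 4 := by
      have : v ^ 2 ≤ 1 := by nlinarith [hv.1, hv.2]
      nlinarith [sq_nonneg v]
    nlinarith [sq_nonneg t]
  have hnp : 0 < Complex.normSq (cc e t v) := Complex.normSq_pos.2 (ne_of_re hre)
  unfold kk
  rw [norm_mul]
  refine mul_le_mul ?_ ?_ (norm_nonneg _) (by norm_num)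
  · have h1 : ‖((Real.pi : ℂ) / cc e t v) ^ (1 / 2 : ℂ)‖ ^ 2 ≤ 2 ^ 2 := by
      rw [← norm_pow, half_sq, norm_div, Complex.norm_real, Real.norm_of_nonneg Real.pi_pos.le]
      have h2 : 2 ≤ ‖cc e t v‖ := by
        have h3 : e ≤ ‖cc e t v‖ := (le_abs_self _).trans (Complex.abs_re_le_norm (cc e t v))
        linarith
      rw [div_le_iff₀ (by linarith)]
      have := Real.pi_le_four
      nlinarith
    exact abs_le_of_sq_le_sq' h1 (by norm_num) |>.2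
  · rw [Complex.norm_exp]
    refine Real.exp_le_exp.2 ?_
    rw [Complex.neg_re, Complex.re_mul_ofReal, neg_mul, neg_le_neg_iff]
    refine mul_le_mul_of_nonneg_right ?_ (sq_nonneg _)
    have h1 : (c0 (cc e t v)).re = e / (4 * Complex.normSq (cc e t v)) := by
      unfold c0
      rw [one_div, Complex.inv_re]
      have h2 : (4 * cc e t v).re = 4 * e := by
        have : (4 : ℂ) = ((4 : ℝ) : ℂ) := by norm_num
        rw [this, Complex.re_ofReal_mul]; rfl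
      have h3 : Complex.normSq (4 * cc e t v) = 16 * Complex.normSq (cc e t v) := by
        rw [Complex.normSq_mul]
        congr 1
        have : (4 : ℂ) = ((4 : ℝ) : ℂ) := by norm_num
        rw [this, Complex.normSq_ofReal]; norm_num
      rw [h2, h3]
      field_simp
      ring
    rw [h1, div_le_div_iff₀ (by positivity) (by positivity)]
    nlinarith

theorem Kt_le (t v : ℝ) (hv : 0 ≤ v ∧ v ≤ 1) (p : ℝ × ℝ) :
    ‖Kt t v p‖ ≤ 4 * Real.exp (-(1 / (32 + 8 * t ^ 2)) * (p.1 + v * p.2) ^ 2) := by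
  unfold Kt
  have h2 := kk_le 2 t v (by norm_num) (by norm_num) hv p
  have h4 := kk_le 4 t v (by norm_num) (by norm_num) hv p
  have := norm_sub_le (kk (cc 2 t v) v p) (kk (cc 4 t v) v p)
  linarith

theorem cc_meas {Z : Type*} [MeasurableSpace Z] (e : ℝ) (a b : Z → ℝ) (ha : Measurable a) (hb : Measurable b) :
    Measurable (fun z => cc e (a z) (b z)) := by
  have e1 : (fun z => cc e (a z) (b z)) = fun z => (e : ℂ) + ((a z * (1 + b z ^ 2) : ℝ) : ℂ) * I := by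
    ext z
    exact Complex.mk_eq_add_mul_I _ _
  rw [e1]
  refine Measurable.add measurable_const (Measurable.mul ?_ measurable_const)
  exact Complex.measurable_ofReal.comp (ha.mul ((hb.pow_const 2).const_add 1))

theorem Kt_meas {Z : Type*} [MeasurableSpace Z] (a b : Z → ℝ) (c : Z → ℝ × ℝ) (ha : Measurable a)
    (hb : Measurable b) (hc : Measurable c) : Measurable (fun z => Kt (a z) (b z) (c z)) := by
  have hk : ∀ e : ℝ, Measurable (fun z => kk (cc e (a z) (b z)) (b z) (c z)) := by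
    intro e
    have hcc := cc_meas e a b ha hb
    unfold kk c0
    refine Measurable.mul ?_ ?_
    · exact (measurable_const.div hcc).pow_const _
    · refine Complex.measurable_exp.comp (Measurable.neg (Measurable.mul ?_ ?_))
      · exact measurable_const.div (measurable_const.mul hcc)
      · exact Complex.measurable_ofReal.comp
          (((measurable_fst.comp hc).add (hb.mul (measurable_snd.comp hc))).pow_const 2)
  unfold Kt
  exact (hk 2).sub (hk 4)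

end X92.Sec
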