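import Pool.Agent.X92.Sec7
set_option autoImplicit false
open MeasureTheory Set Complex
open scoped ENNReal ComplexConjugate

namespace X92.Sec

theorem half_norm (z : ℂ) : ‖z ^ (1 / 2 : ℂ)‖ = Real.sqrt ‖z‖ := by
  have h := congrArg norm (half_sq z)
  rw [norm_pow] at h
  rw [← h, Real.sqrt_sq (norm_nonneg _)]

theorem lg2 (a b g : ℝ) (ha : 0 < a) (hd : b ^ 2 < a * g) :
    ∫⁻ p : ℝ × ℝ, ENNReal.ofReal (Real.exp (-(a * p.1 ^ 2 + 2 * b * p.1 * p.2 + g * p.2 ^ 2))) =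
      ENNReal.ofReal (Real.sqrt (Real.pi / a) * Real.sqrt (Real.pi / (g - b ^ 2 / a))) := by
  have hα : 0 < ((a : ℂ)).re := by simpa using ha
  have hdd : ((b : ℂ)).re ^ 2 < ((a : ℂ)).re * ((g : ℂ)).re := by simpa using hd
  have hint := gq_integrable (a : ℂ) (b : ℂ) (g : ℂ) hα hdd
  have hval := gq_integral (a : ℂ) (b : ℂ) (g : ℂ) hα hdd
  have hS : 0 < g - b ^ 2 / a := by
    rw [sub_pos, div_lt_iff₀ ha]; linarith
  have hn : ∀ p : ℝ × ℝ, gq (a : ℂ) (b : ℂ) (g : ℂ) p =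
      ((Real.exp (-(a * p.1 ^ 2 + 2 * b * p.1 * p.2 + g * p.2 ^ 2)) : ℝ) : ℂ) := by
    intro p
    unfold gq
    push_cast
    rfl
  simp_rw [hn] at hval
  have hint2 : Integrable (fun p : ℝ × ℝ => Real.exp (-(a * p.1 ^ 2 + 2 * b * p.1 * p.2 + g * p.2 ^ 2))) := by
    refine hint.norm.congr (Filter.Eventually.of_forall (fun p => ?_))
    simp only
    rw [hn, Complex.norm_real, Real.norm_of_nonneg (Real.exp_pos _).le]
  have h7 : ∫ p : ℝ × ℝ, ((Real.exp (-(a * p.1 ^ 2 + 2 * b * p.1 * p.2 + g * p.2 ^ 2)) : ℝ) : ℂ) =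
      ((∫ p : ℝ × ℝ, Real.exp (-(a * p.1 ^ 2 + 2 * b * p.1 * p.2 + g * p.2 ^ 2)) : ℝ) : ℂ) := integral_ofReal
  rw [h7] at hval
  have h2 := congrArg norm hval
  rw [Complex.norm_real, Real.norm_of_nonneg (integral_nonneg (fun p => (Real.exp_pos _).le)), norm_mul,
    half_norm, half_norm] at h2
  rw [← ofReal_integral_eq_lintegral_ofReal hint2 (Filter.Eventually.of_forall (fun p => (Real.exp_pos _).le)), h2]
  congr 2
  · rw [norm_div, Complex.norm_real, Complex.norm_real, Real.norm_of_nonneg Real.pi_pos.le,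
      Real.norm_of_nonneg ha.le]
  · have e : (g : ℂ) - (b : ℂ) ^ 2 / a = ((g - b ^ 2 / a : ℝ) : ℂ) := by push_cast; ring
    rw [e, norm_div, Complex.norm_real, Complex.norm_real, Real.norm_of_nonneg Real.pi_pos.le,
      Real.norm_of_nonneg hS.le]

theorem g4 (c : ℝ) (hc : 0 < c) (v1 v2 v3 v4 : ℝ) :
    ∫⁻ p : ℝ × ℝ, ENNReal.ofReal (Real.exp (-c * ((p.1 + v1 * p.2) ^ 2 + (p.1 + v2 * p.2) ^ 2 +
      (p.1 + v3 * p.2) ^ 2 + (p.1 + v4 * p.2) ^ 2))) ≤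
      ENNReal.ofReal (Real.sqrt (Real.pi / (4 * c)) * Real.sqrt (2 * Real.pi / c)) *
        ((ENNReal.ofReal |v1 - v2|) ^ (-(1 / 2) : ℝ) * (ENNReal.ofReal |v3 - v4|) ^ (-(1 / 2) : ℝ)) := by
  have hC : ENNReal.ofReal (Real.sqrt (Real.pi / (4 * c)) * Real.sqrt (2 * Real.pi / c)) ≠ 0 := by
    have : 0 < Real.sqrt (Real.pi / (4 * c)) * Real.sqrt (2 * Real.pi / c) := by
      have := Real.pi_pos
      positivity
    exact (ENNReal.ofReal_pos.2 this).ne'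
  have hne : ∀ x : ℝ, (ENNReal.ofReal |x|) ^ (-(1 / 2) : ℝ) ≠ 0 := by
    intro x
    rw [ne_eq, ENNReal.rpow_eq_zero_iff]
    push Not
    constructor
    · intro h; norm_num
    · intro h; exact absurd h ENNReal.ofReal_ne_top
  have h0 : (ENNReal.ofReal |(0 : ℝ)|) ^ (-(1 / 2) : ℝ) = ⊤ := by
    rw [abs_zero, ENNReal.ofReal_zero]
    exact ENNReal.zero_rpow_of_neg (by norm_num)
  by_cases h12 : v1 - v2 = 0
  · rw [h12, h0, ENNReal.top_mul (hne _), ENNReal.mul_top hC]; exact le_top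
  by_cases h34 : v3 - v4 = 0
  · rw [h34, h0, ENNReal.mul_top (hne _), ENNReal.mul_top hC]; exact le_top
  have p12 : 0 < |v1 - v2| := abs_pos.2 h12
  have p34 : 0 < |v3 - v4| := abs_pos.2 h34
  have hVar : |v1 - v2| * |v3 - v4| / 2 ≤ (v1 ^ 2 + v2 ^ 2 + v3 ^ 2 + v4 ^ 2) - (v1 + v2 + v3 + v4) ^ 2 / 4 := by
    have e : (v1 ^ 2 + v2 ^ 2 + v3 ^ 2 + v4 ^ 2) - (v1 + v2 + v3 + v4) ^ 2 / 4 =
      ((v1 - v2) ^ 2 + (v3 - v4) ^ 2 + (v1 - v3) ^ 2 + (v1 - v4) ^ 2 + (v2 - v3) ^ 2 + (v2 - v4) ^ 2) / 4 := by ring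
    rw [e]
    have e2 : 2 * (|v1 - v2| * |v3 - v4|) ≤ (v1 - v2) ^ 2 + (v3 - v4) ^ 2 := by
      rw [← sq_abs (v1 - v2), ← sq_abs (v3 - v4)]
      nlinarith [sq_nonneg (|v1 - v2| - |v3 - v4|)]
    nlinarith [sq_nonneg (v1 - v3), sq_nonneg (v1 - v4), sq_nonneg (v2 - v3), sq_nonneg (v2 - v4)]
  have hprod : 0 < |v1 - v2| * |v3 - v4| := mul_pos p12 p34
  have hd : (c * (v1 + v2 + v3 + v4)) ^ 2 < (4 * c) * (c * (v1 ^ 2 + v2 ^ 2 + v3 ^ 2 + v4 ^ 2)) := by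
    have : 0 < (v1 ^ 2 + v2 ^ 2 + v3 ^ 2 + v4 ^ 2) - (v1 + v2 + v3 + v4) ^ 2 / 4 := by linarith
    have h3 : 0 < c ^ 2 * ((v1 ^ 2 + v2 ^ 2 + v3 ^ 2 + v4 ^ 2) - (v1 + v2 + v3 + v4) ^ 2 / 4) := by positivity
    nlinarith
  have hl := lg2 (4 * c) (c * (v1 + v2 + v3 + v4)) (c * (v1 ^ 2 + v2 ^ 2 + v3 ^ 2 + v4 ^ 2)) (by linarith) hd
  have e1 : ∀ p : ℝ × ℝ, -c * ((p.1 + v1 * p.2) ^ 2 + (p.1 + v2 * p.2) ^ 2 +
      (p.1 + v3 * p.2) ^ 2 + (p.1 + v4 * p.2) ^ 2) = -(4 * c * p.1 ^ 2 +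
      2 * (c * (v1 + v2 + v3 + v4)) * p.1 * p.2 + (c * (v1 ^ 2 + v2 ^ 2 + v3 ^ 2 + v4 ^ 2)) * p.2 ^ 2) := by
    intro p; ring
  simp_rw [e1]
  rw [hl, ENNReal.ofReal_rpow_of_pos p12, ENNReal.ofReal_rpow_of_pos p34, ← ENNReal.ofReal_mul (by positivity),
    ← ENNReal.ofReal_mul (by positivity)]
  refine ENNReal.ofReal_le_ofReal ?_
  rw [mul_assoc]
  refine mul_le_mul_of_nonneg_left ?_ (Real.sqrt_nonneg _)
  rw [← Real.mul_rpow p12.le p34.le]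
  have e3 : c * (v1 ^ 2 + v2 ^ 2 + v3 ^ 2 + v4 ^ 2) - (c * (v1 + v2 + v3 + v4)) ^ 2 / (4 * c) =
      c * ((v1 ^ 2 + v2 ^ 2 + v3 ^ 2 + v4 ^ 2) - (v1 + v2 + v3 + v4) ^ 2 / 4) := by
    field_simp
  rw [e3]
  have e4 : (|v1 - v2| * |v3 - v4|) ^ (-(1 / 2) : ℝ) = Real.sqrt (1 / (|v1 - v2| * |v3 - v4|)) := by
    rw [Real.sqrt_eq_rpow, one_div (|v1 - v2| * |v3 - v4|), Real.inv_rpow hprod.le, Real.rpow_neg hprod.le]
  rw [e4, ← Real.sqrt_mul (by have := Real.pi_pos; positivity)]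
  refine Real.sqrt_le_sqrt ?_
  have hπ := Real.pi_pos
  rw [div_mul_div_comm, mul_one, div_le_div_iff₀ (by
    have : 0 < (v1 ^ 2 + v2 ^ 2 + v3 ^ 2 + v4 ^ 2) - (v1 + v2 + v3 + v4) ^ 2 / 4 := by linarith
    positivity) (by positivity)]
  have h5 : c * (|v1 - v2| * |v3 - v4|) ≤
      2 * (c * ((v1 ^ 2 + v2 ^ 2 + v3 ^ 2 + v4 ^ 2) - (v1 + v2 + v3 + v4) ^ 2 / 4)) := by nlinarith
  nlinarith

/-- powers are integrable -/
theorem lint_pow (β R : ℝ) (hβ0 : 0 < β) (hβ : β < 1) :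
    ∫⁻ x in Icc (-R) R, (ENNReal.ofReal |x|) ^ (-β) < ⊤ := by
  have h0 : ∫⁻ x in Icc (-R) R, (ENNReal.ofReal |x|) ^ (-β) = ∫⁻ x in Icc (-R) R, ENNReal.ofReal (|x| ^ (-β)) := by
    refine lintegral_congr_ae ?_
    refine (ae_restrict_of_ae ?_)
    have : ∀ᵐ x : ℝ, x ≠ 0 := by
      rw [ae_iff]; simp
    filter_upwards [this] with x hx
    rw [ENNReal.ofReal_rpow_of_pos (abs_pos.2 hx)]
  rw [h0]
  rcases lt_or_ge R 0 with hR | hR
  · rw [Icc_eq_empty (by linarith)]; simp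
  have h1 : IntegrableOn (fun x : ℝ => |x| ^ (-β)) (Icc (-R) R) := by
    rw [integrableOn_Icc_iff_integrableOn_Ioc]
    have h2 : IntervalIntegrable (fun x : ℝ => |x| ^ (-β)) volume (-R) R := by
      have h3 : IntervalIntegrable (fun x : ℝ => x ^ (-β)) volume 0 R :=
        intervalIntegral.intervalIntegrable_rpow' (by linarith)
      have h4 : IntervalIntegrable (fun x : ℝ => |x| ^ (-β)) volume 0 R := by
        refine h3.congr_ae ?_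
        refine (ae_restrict_iff' measurableSet_uIoc).2 (Filter.Eventually.of_forall (fun x hx => ?_))
        rw [uIoc_of_le hR] at hx
        simp only [abs_of_pos hx.1]
      have h5 : IntervalIntegrable (fun x : ℝ => |x| ^ (-β)) volume (-R) 0 := by
        have := (h4.comp_sub_left 0)
        simp only [zero_sub, abs_neg, sub_self, sub_zero] at this
        exact this.symm
      exact h5.trans h4
    exact (intervalIntegrable_iff_integrableOn_Ioc_of_le (by linarith)).1 h2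
  have := h1.2
  rw [hasFiniteIntegral_iff_ofReal (Filter.Eventually.of_forall (fun x => by positivity))] at this
  exact this

end X92.Sec
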