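import Pool.Agent.X92.Sec8
set_option autoImplicit false
open MeasureTheory Set Complex
open scoped ENNReal ComplexConjugate

namespace X92.Sec

/-- truncated power -/
noncomputable def hh (β x : ℝ) : ℝ≥0∞ := (Icc (-2 : ℝ) 2).indicator (fun x => (ENNReal.ofReal |x|) ^ (-β)) x

theorem hh_meas (β : ℝ) : Measurable (hh β) := by
  unfold hh
  refine Measurable.indicator ?_ measurableSet_Icc
  exact (ENNReal.measurable_ofReal.comp measurable_norm).pow_const _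

theorem hh_neg (β x : ℝ) : hh β (-x) = hh β x := by
  unfold hh
  by_cases h : x ∈ Icc (-2 : ℝ) 2
  · have h' : -x ∈ Icc (-2 : ℝ) 2 := ⟨by linarith [h.2], by linarith [h.1]⟩
    rw [indicator_of_mem h, indicator_of_mem h', abs_neg]
  · have h' : -x ∉ Icc (-2 : ℝ) 2 := fun h2 => h ⟨by linarith [h2.2], by linarith [h2.1]⟩
    rw [indicator_of_notMem h, indicator_of_notMem h']

theorem hh_int (β : ℝ) (hβ0 : 0 < β) (hβ : β < 1) : ∫⁻ x, hh β x < ⊤ := by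
  unfold hh
  rw [lintegral_indicator measurableSet_Icc]
  exact lint_pow β 2 hβ0 hβ

theorem hh_ne (β x : ℝ) (hβ0 : 0 < β) (hx : x ∈ Icc (-2 : ℝ) 2) : hh β x ≠ 0 := by
  unfold hh
  rw [indicator_of_mem hx, ne_eq, ENNReal.rpow_eq_zero_iff]
  push Not
  constructor
  · intro h; linarith
  · intro h; exact absurd h ENNReal.ofReal_ne_top

theorem hh_zero (β : ℝ) (hβ0 : 0 < β) : hh β 0 = ⊤ := by
  unfold hh
  rw [indicator_of_mem (by constructor <;> norm_num), abs_zero, ENNReal.ofReal_zero,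
    ENNReal.zero_rpow_of_neg (by linarith)]

theorem hh_eq (β x : ℝ) (hx : x ∈ Icc (-2 : ℝ) 2) (hx0 : x ≠ 0) : hh β x = ENNReal.ofReal (|x| ^ (-β)) := by
  unfold hh
  rw [indicator_of_mem hx, ENNReal.ofReal_rpow_of_pos (abs_pos.2 hx0)]

theorem rot (A B : ℝ → ℝ≥0∞) (hA : Measurable A) (hB : Measurable B) :
    ∫⁻ x : ℝ × ℝ, A (x.1 + x.2) * B (x.1 - x.2) = ENNReal.ofReal (1 / 2) * ((∫⁻ x, A x) * ∫⁻ x, B x) := by
  have hm : Measurable (fun x : ℝ × ℝ => A (x.1 + x.2) * B (x.1 - x.2)) :=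
    (hA.comp (measurable_fst.add measurable_snd)).mul (hB.comp (measurable_fst.sub measurable_snd))
  rw [Measure.volume_eq_prod, lintegral_prod_symm _ hm.aemeasurable]
  have h1 : ∀ y : ℝ, ∫⁻ x : ℝ, A (x + y) * B (x - y) = ∫⁻ u : ℝ, A (u + 2 * y) * B u := by
    intro y
    rw [← lintegral_add_right_eq_self (fun x : ℝ => A (x + y) * B (x - y)) y]
    refine lintegral_congr (fun u => ?_)
    congr 2
    · ring
    · ring
  simp_rw [h1]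
  rw [lintegral_lintegral_swap]
  swap
  · exact ((hA.comp (measurable_snd.add (measurable_const.mul measurable_fst))).mul
      (hB.comp measurable_snd)).aemeasurable
  have h2 : ∀ u : ℝ, ∫⁻ y : ℝ, A (u + 2 * y) * B u = ENNReal.ofReal (1 / 2) * (∫⁻ x, A x) * B u := by
    intro u
    have hm2 : Measurable (fun y : ℝ => A (u + y)) := hA.comp (measurable_const.add measurable_id)
    have hm3 : Measurable (fun y : ℝ => A (u + 2 * y)) := hm2.comp (measurable_const_mul 2)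
    rw [lintegral_mul_const _ hm3]
    congr 1
    have h3 : ∫⁻ y : ℝ, A (u + 2 * y) = ∫⁻ y, A (u + y) ∂(Measure.map (fun y : ℝ => 2 * y) volume) :=
      (lintegral_map hm2 (measurable_const_mul 2)).symm
    rw [h3, Real.map_volume_mul_left (by norm_num), lintegral_smul_measure, smul_eq_mul,
      lintegral_add_left_eq_self]
    congr 2
    norm_num
  simp_rw [h2]
  rw [lintegral_const_mul _ hB, mul_assoc]

/-- the ENNReal majorant -/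
noncomputable def BB (ε t : ℝ) (z : (ℝ × ℝ) × (ℝ × ℝ)) : ℝ≥0∞ :=
  ENNReal.ofReal (64000 * Real.pi ^ 3 * t ^ (-(2 - 2 * ε))) *
    (hh (1 - ε) (z.2.1 + z.2.2 - (z.1.1 + z.1.2)) *
    (hh (1 - ε / 2) (z.2.1 - z.2.2 - (z.1.1 - z.1.2)) * hh (1 - ε / 2) (z.2.1 - z.2.2 + (z.1.1 - z.1.2))))

theorem BB_symm (ε t : ℝ) (x y : ℝ × ℝ) : BB ε t (x, y) = BB ε t (y, x) := by
  unfold BB
  simp only
  congr 1
  congr 1
  · rw [← hh_neg]; congr 1; ring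
  · congr 1
    · rw [← hh_neg]; congr 1; ring
    · congr 1; ring

theorem BB_meas (ε t : ℝ) : Measurable (BB ε t) := by
  unfold BB
  refine Measurable.mul measurable_const (Measurable.mul ?_ (Measurable.mul ?_ ?_))
  · exact (hh_meas _).comp (by fun_prop)
  · exact (hh_meas _).comp (by fun_prop)
  · exact (hh_meas _).comp (by fun_prop)

theorem four_bound' (ε t : ℝ) (hε : 0 < ε) (hε1 : ε < 1) (ht : 1 ≤ t) (v1 v2 v3 v4 : ℝ)
    (k1 : 0 ≤ v1 ∧ v1 ≤ 1) (k2 : 0 ≤ v2 ∧ v2 ≤ 1) (k3 : 0 ≤ v3 ∧ v3 ≤ 1) (k4 : 0 ≤ v4 ∧ v4 ≤ 1) :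
    ‖∫ p, (Kt t v1 p * Kt t v2 p) * conj (Kt t v3 p * Kt t v4 p)‖ₑ ≤ BB ε t ((v1, v2), (v3, v4)) := by
  have ht0 : 0 < t := by linarith
  have hc : ENNReal.ofReal (64000 * Real.pi ^ 3 * t ^ (-(2 - 2 * ε))) ≠ 0 := by
    have : 0 < 64000 * Real.pi ^ 3 * t ^ (-(2 - 2 * ε)) := by
      have := Real.pi_pos
      positivity
    exact (ENNReal.ofReal_pos.2 this).ne'
  have m1 : v3 + v4 - (v1 + v2) ∈ Icc (-2 : ℝ) 2 := ⟨by linarith [k1.2, k2.2, k3.1, k4.1], by linarith [k1.1, k2.1, k3.2, k4.2]⟩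
  have m2 : v3 - v4 - (v1 - v2) ∈ Icc (-2 : ℝ) 2 := ⟨by linarith [k1.2, k2.1, k3.1, k4.2], by linarith [k1.1, k2.2, k3.2, k4.1]⟩
  have m3 : v3 - v4 + (v1 - v2) ∈ Icc (-2 : ℝ) 2 := ⟨by linarith [k1.1, k2.2, k3.1, k4.2], by linarith [k1.2, k2.1, k3.2, k4.1]⟩
  have n1 := hh_ne (1 - ε) _ (by linarith) m1
  have n2 := hh_ne (1 - ε / 2) _ (by linarith) m2
  have n3 := hh_ne (1 - ε / 2) _ (by linarith) m3
  unfold BB
  simp only
  by_cases hσ : v3 + v4 - (v1 + v2) = 0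
  · rw [hσ, hh_zero _ (by linarith), ENNReal.top_mul (mul_ne_zero n2 n3), ENNReal.mul_top hc]
    exact le_top
  by_cases hδ1 : v3 - v4 - (v1 - v2) = 0
  · rw [hδ1, hh_zero _ (by linarith), ENNReal.top_mul n3, ENNReal.mul_top n1, ENNReal.mul_top hc]
    exact le_top
  by_cases hδ2 : v3 - v4 + (v1 - v2) = 0
  · rw [hδ2, hh_zero _ (by linarith), ENNReal.mul_top n2, ENNReal.mul_top n1, ENNReal.mul_top hc]
    exact le_top
  rw [hh_eq _ _ m1 hσ, hh_eq _ _ m2 hδ1, hh_eq _ _ m3 hδ2, ← ENNReal.ofReal_mul (by positivity),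
    ← ENNReal.ofReal_mul (by positivity), ← ENNReal.ofReal_mul (by
      have := Real.pi_pos
      positivity), ← ofReal_norm]
  refine ENNReal.ofReal_le_ofReal ?_
  have h := four_bound ε t v1 v2 v3 v4 hε hε1 ht k1 k2 k3 k4 (by
    intro h; apply hσ; linarith) hδ1 hδ2
  refine h.trans (le_of_eq ?_)
  unfold kb
  have e : v3 + v4 - v1 - v2 = v3 + v4 - (v1 + v2) := by ring
  rw [e]
  ring

/-- the operator -/
noncomputable def Gt (t : ℝ) (f : ℝ → ℂ) (p : ℝ × ℝ) : ℂ := ∫ v, f v * Kt t v p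

theorem enorm_H (t M : ℝ) (hM : 0 ≤ M) (f : ℝ → ℂ) (hfM : ∀ v, ‖f v‖ ≤ M) (hf0 : ∀ v, v ∉ Icc (0 : ℝ) 1 → f v = 0)
    (p : ℝ × ℝ) (z : (ℝ × ℝ) × (ℝ × ℝ)) :
    ‖((f z.1.1 * f z.1.2) * conj (f z.2.1 * f z.2.2)) *
      ((Kt t z.1.1 p * Kt t z.1.2 p) * conj (Kt t z.2.1 p * Kt t z.2.2 p))‖ₑ ≤
    ENNReal.ofReal (M ^ 4 * 256) * (((Icc (0 : ℝ) 1 ×ˢ Icc (0 : ℝ) 1).indicator (fun _ => (1 : ℝ≥0∞)) z.1 *
      (Icc (0 : ℝ) 1 ×ˢ Icc (0 : ℝ) 1).indicator (fun _ => (1 : ℝ≥0∞)) z.2) *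
      ENNReal.ofReal (Real.exp (-(1 / (32 + 8 * t ^ 2)) * ((p.1 + z.1.1 * p.2) ^ 2 + (p.1 + z.1.2 * p.2) ^ 2 +
      (p.1 + z.2.1 * p.2) ^ 2 + (p.1 + z.2.2 * p.2) ^ 2)))) := by
  by_cases h1 : z.1.1 ∈ Icc (0 : ℝ) 1
  swap
  · rw [hf0 _ h1]; simp
  by_cases h2 : z.1.2 ∈ Icc (0 : ℝ) 1
  swap
  · rw [hf0 _ h2]; simp
  by_cases h3 : z.2.1 ∈ Icc (0 : ℝ) 1
  swap
  · rw [hf0 _ h3]; simp
  by_cases h4 : z.2.2 ∈ Icc (0 : ℝ) 1
  swap
  · rw [hf0 _ h4]; simp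
  rw [indicator_of_mem (show z.1 ∈ Icc (0 : ℝ) 1 ×ˢ Icc (0 : ℝ) 1 from ⟨h1, h2⟩),
    indicator_of_mem (show z.2 ∈ Icc (0 : ℝ) 1 ×ˢ Icc (0 : ℝ) 1 from ⟨h3, h4⟩), one_mul, one_mul,
    ← ENNReal.ofReal_mul (by positivity), ← ofReal_norm]
  refine ENNReal.ofReal_le_ofReal ?_
  simp only [norm_mul, RCLike.norm_conj]
  set c := 1 / (32 + 8 * t ^ 2)
  have e : Real.exp (-c * ((p.1 + z.1.1 * p.2) ^ 2 + (p.1 + z.1.2 * p.2) ^ 2 +
      (p.1 + z.2.1 * p.2) ^ 2 + (p.1 + z.2.2 * p.2) ^ 2)) =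
      (Real.exp (-c * (p.1 + z.1.1 * p.2) ^ 2) * Real.exp (-c * (p.1 + z.1.2 * p.2) ^ 2)) *
      (Real.exp (-c * (p.1 + z.2.1 * p.2) ^ 2) * Real.exp (-c * (p.1 + z.2.2 * p.2) ^ 2)) := by
    rw [← Real.exp_add, ← Real.exp_add, ← Real.exp_add]; congr 1; ring
  rw [e]
  have g1 := Kt_le t z.1.1 h1 p
  have g2 := Kt_le t z.1.2 h2 p
  have g3 := Kt_le t z.2.1 h3 p
  have g4 := Kt_le t z.2.2 h4 p
  calc ‖f z.1.1‖ * ‖f z.1.2‖ * (‖f z.2.1‖ * ‖f z.2.2‖) *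
        (‖Kt t z.1.1 p‖ * ‖Kt t z.1.2 p‖ * (‖Kt t z.2.1 p‖ * ‖Kt t z.2.2 p‖))
      ≤ M * M * (M * M) * ((4 * Real.exp (-c * (p.1 + z.1.1 * p.2) ^ 2)) *
        (4 * Real.exp (-c * (p.1 + z.1.2 * p.2) ^ 2)) * ((4 * Real.exp (-c * (p.1 + z.2.1 * p.2) ^ 2)) *
        (4 * Real.exp (-c * (p.1 + z.2.2 * p.2) ^ 2)))) := by
        have i1 := hfM z.1.1
        have i2 := hfM z.1.2
        have i3 := hfM z.2.1
        have i4 := hfM z.2.2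
        gcongr
    _ = _ := by ring

end X92.Sec
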