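import Mathlib

/-! Two ellipses: the algebraic lemma (Schwarz-Pick for powers) -/

set_option autoImplicit false

namespace Pool.Agent.X92.TE

open Finset ComplexConjugate

/-- divided difference of the power `m` -/
noncomputable def S (m : ℕ) (x y : ℂ) : ℂ := ∑ i ∈ range m, x ^ i * y ^ (m - 1 - i)

lemma S_mul (m : ℕ) (x y : ℂ) : S m x y * (x - y) = x ^ m - y ^ m := by
  unfold S
  exact (Commute.all x y).geom_sum₂_mul m

lemma S_zero (x y : ℂ) : S 0 x y = 0 := by simp [S]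

lemma S_succ (m : ℕ) (x y : ℂ) : S (m + 1) x y = y * S m x y + x ^ m := by
  unfold S
  rw [sum_range_succ, mul_sum]
  congr 1
  · apply sum_congr rfl
    intro i hi
    rw [mem_range] at hi
    have : m + 1 - 1 - i = (m - 1 - i) + 1 := by omega
    rw [this, pow_succ]; ring
  · simp

/-- conjugate product sum -/
noncomputable def P (m : ℕ) (x y : ℂ) : ℂ := ∑ j ∈ range m, (x * conj y) ^ j

lemma P_mul (m : ℕ) (x y : ℂ) : P m x y * (1 - x * conj y) = 1 - (x * conj y) ^ m := by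
  unfold P
  exact geom_sum_mul_neg _ _

/-- real sum -/
noncomputable def Q (m : ℕ) (t : ℝ) : ℝ := ∑ j ∈ range m, t ^ j

lemma Q_mul (m : ℕ) (t : ℝ) : Q m t * (1 - t) = 1 - t ^ m := by
  unfold Q
  exact geom_sum_mul_neg _ _

lemma Q_nonneg (m : ℕ) {t : ℝ} (ht : 0 ≤ t) : 0 ≤ Q m t := sum_nonneg fun _ _ => pow_nonneg ht _

lemma Q_succ (m : ℕ) (t : ℝ) : Q (m + 1) t = Q m t + t ^ m := by unfold Q; rw [sum_range_succ]

lemma P_succ (m : ℕ) (x y : ℂ) : P (m + 1) x y = P m x y + (x * conj y) ^ m := by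
  unfold P; rw [sum_range_succ]

lemma norm_id (u v : ℂ) : ‖1 - u * conj v‖ ^ 2 - ‖u - v‖ ^ 2 = (1 - ‖u‖ ^ 2) * (1 - ‖v‖ ^ 2) := by
  simp only [Complex.sq_norm, Complex.normSq_apply, Complex.sub_re, Complex.sub_im, Complex.one_re,
    Complex.one_im, Complex.mul_re, Complex.mul_im, Complex.conj_re, Complex.conj_im]
  ring

lemma step (m : ℕ) (x y : ℂ) (h : ‖P m x y‖ ^ 2 ≤ Q m (‖x‖ ^ 2) * Q m (‖y‖ ^ 2)) :
    Q m (‖x‖ ^ 2) * Q m (‖y‖ ^ 2) - ‖P m x y‖ ^ 2 ≤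
      Q (m + 1) (‖x‖ ^ 2) * Q (m + 1) (‖y‖ ^ 2) - ‖P (m + 1) x y‖ ^ 2 := by
  rw [Q_succ, Q_succ, P_succ]
  have h1 : ‖P m x y + (x * conj y) ^ m‖ ≤ ‖P m x y‖ + ‖x‖ ^ m * ‖y‖ ^ m := by
    refine (norm_add_le _ _).trans ?_
    rw [norm_pow, norm_mul, mul_pow, RCLike.norm_conj]
  have h2 : ‖P m x y + (x * conj y) ^ m‖ ^ 2 ≤ (‖P m x y‖ + ‖x‖ ^ m * ‖y‖ ^ m) ^ 2 :=
    pow_le_pow_left₀ (norm_nonneg _) h1 2
  have hx := Q_nonneg m (sq_nonneg ‖x‖)
  have hy := Q_nonneg m (sq_nonneg ‖y‖)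
  have ea : (‖x‖ ^ 2) ^ m = (‖x‖ ^ m) ^ 2 := by rw [← pow_mul, ← pow_mul, mul_comm]
  have eb : (‖y‖ ^ 2) ^ m = (‖y‖ ^ m) ^ 2 := by rw [← pow_mul, ← pow_mul, mul_comm]
  rw [ea, eb]
  set A := Q m (‖x‖ ^ 2)
  set B := Q m (‖y‖ ^ 2)
  set p := ‖P m x y‖
  set a := ‖x‖ ^ m
  set b := ‖y‖ ^ m
  have hp : 0 ≤ p := norm_nonneg _
  have ha : 0 ≤ a := by positivity
  have hb : 0 ≤ b := by positivity
  have h3 : 2 * (p * (a * b)) ≤ A * b ^ 2 + B * a ^ 2 := by
    have h4 : (2 * (p * (a * b))) ^ 2 ≤ (A * b ^ 2 + B * a ^ 2) ^ 2 := by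
      have h5 : (2 * (p * (a * b))) ^ 2 = 4 * (p ^ 2 * (a * b) ^ 2) := by ring
      have h6 : 4 * (p ^ 2 * (a * b) ^ 2) ≤ 4 * ((A * B) * (a * b) ^ 2) := by
        gcongr
      have h7 : 0 ≤ (A * b ^ 2 - B * a ^ 2) ^ 2 := sq_nonneg _
      nlinarith
    exact le_of_sq_le_sq h4 (by positivity)
  nlinarith

lemma cs0 (m : ℕ) (x y : ℂ) : ‖P m x y‖ ^ 2 ≤ Q m (‖x‖ ^ 2) * Q m (‖y‖ ^ 2) := by
  induction m with
  | zero => simp [P, Q]
  | succ m ih => linarith [step m x y ih]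

lemma cs (m : ℕ) (hm : 2 ≤ m) (x y : ℂ) :
    ‖x - y‖ ^ 2 ≤ Q m (‖x‖ ^ 2) * Q m (‖y‖ ^ 2) - ‖P m x y‖ ^ 2 := by
  induction m, hm using Nat.le_induction with
  | base =>
    have e1 : Q 2 (‖x‖ ^ 2) = 1 + ‖x‖ ^ 2 := by simp [Q, sum_range_succ]
    have e2 : Q 2 (‖y‖ ^ 2) = 1 + ‖y‖ ^ 2 := by simp [Q, sum_range_succ]
    have e3 : P 2 x y = 1 + x * conj y := by simp [P, sum_range_succ]
    rw [e1, e2, e3]
    apply le_of_eq
    simp only [Complex.sq_norm, Complex.normSq_apply, Complex.sub_re, Complex.sub_im, Complex.one_re,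
      Complex.one_im, Complex.mul_re, Complex.mul_im, Complex.conj_re, Complex.conj_im,
      Complex.add_re, Complex.add_im]
    ring
  | succ m hm ih => exact ih.trans (step m x y (cs0 m x y))

/-- the strict inequality in the diagonal case -/
lemma diag (m : ℕ) (hm : 2 ≤ m) {t : ℝ} (ht : 0 ≤ t) (ht1 : t < 1) :
    (m : ℝ) * t ^ (m - 1) < Q m (t ^ 2) := by
  have h1 : ∑ j ∈ range m, (t ^ (m - 1 - j)) ^ 2 = Q m (t ^ 2) := by
    unfold Q
    rw [← sum_range_reflect]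
    apply sum_congr rfl
    intro j hj
    rw [mem_range] at hj
    have e : m - 1 - (m - 1 - j) = j := by omega
    rw [← pow_mul, ← pow_mul, mul_comm, e]
  have h2 : ∑ j ∈ range m, (t ^ j) ^ 2 = Q m (t ^ 2) := by
    unfold Q
    apply sum_congr rfl
    intro j hj
    rw [← pow_mul, ← pow_mul, mul_comm]
  have h3 : ∑ j ∈ range m, (t ^ j) * (t ^ (m - 1 - j)) = m * t ^ (m - 1) := by
    rw [sum_congr rfl (g := fun _ => t ^ (m - 1))]
    · simp
    · intro j hj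
      rw [mem_range] at hj
      rw [← pow_add]
      congr 1; omega
  have h4 : 0 < ∑ j ∈ range m, (t ^ j - t ^ (m - 1 - j)) ^ 2 := by
    apply sum_pos' (fun j _ => sq_nonneg _)
    refine ⟨0, by simp; omega, ?_⟩
    have : t ^ (m - 1) < 1 := pow_lt_one₀ ht ht1 (by omega)
    simp only [pow_zero, Nat.sub_zero]
    have : 0 < 1 - t ^ (m - 1) := by linarith
    positivity
  have h5 : ∑ j ∈ range m, (t ^ j - t ^ (m - 1 - j)) ^ 2 =
      ∑ j ∈ range m, (t ^ j) ^ 2 + ∑ j ∈ range m, (t ^ (m - 1 - j)) ^ 2 -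
        2 * ∑ j ∈ range m, (t ^ j) * (t ^ (m - 1 - j)) := by
    rw [mul_sum, ← sum_add_distrib, ← sum_sub_distrib]
    apply sum_congr rfl
    intro j _
    ring
  rw [h5, h1, h2, h3] at h4
  linarith

/-- strict Schwarz-Pick inequality for the power `m` -/
lemma sp (m : ℕ) (hm : 2 ≤ m) (x y : ℂ) (hx : ‖x‖ < 1) (hy : ‖y‖ < 1) : ‖S m x y‖ < ‖P m x y‖ := by
  by_cases hxy : x = y
  · subst hxy
    have h1 : S m x x = m * x ^ (m - 1) := by
      unfold S
      rw [sum_congr rfl (g := fun _ => x ^ (m - 1))]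
      · simp
      · intro j hj
        rw [mem_range] at hj
        rw [← pow_add]
        congr 1; omega
    have h2 : P m x x = ((Q m (‖x‖ ^ 2) : ℝ) : ℂ) := by
      unfold P Q
      rw [Complex.mul_conj, Complex.normSq_eq_norm_sq]
      push_cast
      rfl
    rw [h1, h2, Complex.norm_real, Real.norm_of_nonneg (Q_nonneg m (sq_nonneg _)), norm_mul,
      norm_pow, Complex.norm_natCast]
    exact diag m hm (norm_nonneg _) hx
  · have h0 : 0 < ‖x - y‖ ^ 2 := by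
      have : 0 < ‖x - y‖ := norm_pos_iff.2 (sub_ne_zero.2 hxy)
      positivity
    have h1 := cs m hm x y
    have hX : ‖x‖ ^ 2 < 1 := by nlinarith [norm_nonneg x]
    have hY : ‖y‖ ^ 2 < 1 := by nlinarith [norm_nonneg y]
    have h2 := norm_id x y
    have h3 := norm_id (x ^ m) (y ^ m)
    have h4 : ‖S m x y‖ ^ 2 * ‖x - y‖ ^ 2 = ‖x ^ m - y ^ m‖ ^ 2 := by
      rw [← S_mul, norm_mul]; ring
    have h5 : ‖P m x y‖ ^ 2 * ‖1 - x * conj y‖ ^ 2 = ‖1 - x ^ m * conj (y ^ m)‖ ^ 2 := by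
      have e : x ^ m * conj (y ^ m) = (x * conj y) ^ m := by rw [map_pow, mul_pow]
      rw [e, ← P_mul, norm_mul]; ring
    have h6 : (1 - ‖x ^ m‖ ^ 2) = Q m (‖x‖ ^ 2) * (1 - ‖x‖ ^ 2) := by
      rw [Q_mul, norm_pow, ← pow_mul, ← pow_mul, mul_comm]
    have h7 : (1 - ‖y ^ m‖ ^ 2) = Q m (‖y‖ ^ 2) * (1 - ‖y‖ ^ 2) := by
      rw [Q_mul, norm_pow, ← pow_mul, ← pow_mul, mul_comm]
    rw [← h4, ← h5, h6, h7] at h3
    have h8 : (‖P m x y‖ ^ 2 - ‖S m x y‖ ^ 2) * ‖x - y‖ ^ 2 =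
        (1 - ‖x‖ ^ 2) * (1 - ‖y‖ ^ 2) * (Q m (‖x‖ ^ 2) * Q m (‖y‖ ^ 2) - ‖P m x y‖ ^ 2) := by
      have : ‖1 - x * conj y‖ ^ 2 = ‖x - y‖ ^ 2 + (1 - ‖x‖ ^ 2) * (1 - ‖y‖ ^ 2) := by linarith
      rw [this] at h3
      linear_combination h3
    have h9 : 0 < (1 - ‖x‖ ^ 2) * (1 - ‖y‖ ^ 2) *
        (Q m (‖x‖ ^ 2) * Q m (‖y‖ ^ 2) - ‖P m x y‖ ^ 2) := by
      apply mul_pos (mul_pos (by linarith) (by linarith))
      linarith
    rw [← h8] at h9
    have h10 : 0 < ‖P m x y‖ ^ 2 - ‖S m x y‖ ^ 2 := pos_of_mul_pos_left h9 h0.le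
    exact lt_of_pow_lt_pow_left₀ 2 (norm_nonneg _) (by linarith)

/-- the algebraic core -/
lemma alg (m : ℕ) (hm : 2 ≤ m) (x y : ℂ) (hx : ‖x‖ < 1) (hy : ‖y‖ < 1) (a b : ℂ)
    (h1 : b + a * x + conj a * x ^ m + conj b * x ^ (m + 1) = 0)
    (h2 : a + conj a * S m x y + conj b * S (m + 1) x y = 0) : a = 0 ∧ b = 0 := by
  have h1' : b + a * y + conj a * y ^ m + conj b * y ^ (m + 1) = 0 := by
    have e1 := S_mul m x y
    have e2 := S_mul (m + 1) x y
    linear_combination h1 - (x - y) * h2 + conj a * e1 + conj b * e2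
  set p := conj a + conj b * x with hp
  set q := conj a + conj b * y with hq
  have hD : a * conj a - b * conj b = - S m x y * (p * q) := by
    rw [S_succ] at h2
    rw [hp, hq]
    linear_combination (-conj b) * h1 + (conj a + conj b * x) * h2
  have hqc : conj q = a + b * conj y := by
    rw [hq]; simp
  have hP : p * conj q * (1 - (x * conj y) ^ m) = (a * conj a - b * conj b) * (1 - x * conj y) := by
    have f1 : b + a * x = - x ^ m * p := by rw [hp]; linear_combination h1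
    have f2 : conj b + conj a * conj y = - conj y ^ m * conj q := by
      have := congrArg conj h1'
      simp only [map_add, map_mul, map_pow, Complex.conj_conj, map_zero] at this
      rw [hqc]; linear_combination this
    have f3 : (b + a * x) * (conj b + conj a * conj y) = (x * conj y) ^ m * (p * conj q) := by
      rw [f1, f2, mul_pow]; ring
    rw [hqc] at f3 ⊢
    rw [hp] at f3 ⊢
    linear_combination f3
  have hw : (1 - x * conj y) ≠ 0 := by
    intro h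
    have h3 : x * conj y = 1 := by linear_combination -h
    have h4 : ‖x * conj y‖ = 1 := by rw [h3]; simp
    rw [norm_mul, RCLike.norm_conj] at h4
    nlinarith [norm_nonneg x, norm_nonneg y]
  have hP2 : p * conj q * P m x y = a * conj a - b * conj b := by
    rw [← P_mul] at hP
    have : (p * conj q * P m x y - (a * conj a - b * conj b)) * (1 - x * conj y) = 0 := by
      linear_combination hP
    rcases mul_eq_zero.1 this with h | h
    · linear_combination h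
    · exact absurd h hw
  -- norms
  have hn1 : ‖a * conj a - b * conj b‖ = ‖S m x y‖ * (‖p‖ * ‖q‖) := by
    rw [hD]; simp [norm_mul]
  have hn2 : ‖a * conj a - b * conj b‖ = ‖P m x y‖ * (‖p‖ * ‖q‖) := by
    rw [← hP2]; simp only [norm_mul, RCLike.norm_conj]; ring
  have hsp := sp m hm x y hx hy
  have h3 : ‖p‖ * ‖q‖ = 0 := by
    by_contra hne
    have : ‖S m x y‖ = ‖P m x y‖ := mul_right_cancel₀ hne (by rw [← hn1, ← hn2])
    linarith
  have h4 : a * conj a - b * conj b = 0 := by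
    rw [← norm_eq_zero, hn1, h3, mul_zero]
  have h5 : ‖a‖ = ‖b‖ := by
    have : ((‖a‖ ^ 2 : ℝ) : ℂ) = ((‖b‖ ^ 2 : ℝ) : ℂ) := by
      rw [← Complex.normSq_eq_norm_sq, ← Complex.normSq_eq_norm_sq, ← Complex.mul_conj,
        ← Complex.mul_conj]
      linear_combination h4
    have h6 : ‖a‖ ^ 2 = ‖b‖ ^ 2 := by exact_mod_cast this
    exact (sq_eq_sq₀ (norm_nonneg _) (norm_nonneg _)).1 h6
  have key : ∀ w : ℂ, ‖w‖ < 1 → conj a + conj b * w = 0 → a = 0 ∧ b = 0 := by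
    intro w hw h
    have h7 : ‖a‖ = ‖b‖ * ‖w‖ := by
      have : conj a = - (conj b * w) := by linear_combination h
      rw [← RCLike.norm_conj a, this, norm_neg, norm_mul, RCLike.norm_conj]
    have h8 : ‖b‖ = 0 := by nlinarith [norm_nonneg b]
    exact ⟨norm_eq_zero.1 (by rw [h5, h8]), norm_eq_zero.1 h8⟩
  rcases mul_eq_zero.1 h3 with h | h
  · exact key x hx (norm_eq_zero.1 h)
  · exact key y hy (norm_eq_zero.1 h)

/-- the case of quadratic leading form -/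
lemma alg2 (x y : ℂ) (hx : ‖x‖ < 1) (hy : ‖y‖ < 1) (a b : ℂ)
    (h1 : b + a * x + conj a * x + conj b * x ^ 2 = 0)
    (h2 : a + conj a + conj b * (x + y) = 0) : a + conj a = 0 ∧ b = 0 := by
  have h3 : b = conj b * (x * y) := by linear_combination h1 - x * h2
  have h4 : ‖b‖ = ‖b‖ * (‖x‖ * ‖y‖) := by
    conv_lhs => rw [h3]
    rw [norm_mul, norm_mul, RCLike.norm_conj]
  have h5 : ‖x‖ * ‖y‖ < 1 := by nlinarith [norm_nonneg x, norm_nonneg y]
  have h6 : ‖b‖ = 0 := by nlinarith [norm_nonneg b]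
  have h7 : b = 0 := norm_eq_zero.1 h6
  refine ⟨?_, h7⟩
  rw [h7] at h2
  simpa using h2

end Pool.Agent.X92.TE
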