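import Mathlib

/-! Two ellipses: growth and polynomials -/

set_option autoImplicit false

namespace Pool.Agent.X92.TE

open Finset ComplexConjugate Metric

/-- the relation at two distinct points -/
def Rel (f g : ℂ → ℂ) (z a : ℂ) : Prop :=
  a * f z + z * conj (f (conj a)) + g z + conj (g (conj a)) = 0

lemma growth_step {f g : ℂ → ℂ} (hf : Differentiable ℂ f) (hg : Differentiable ℂ g)
    {k k' r₀ : ℝ} (hk : 0 < k) (hk' : k < k') (hk1 : k' < 1) (hr₀ : 0 < r₀)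
    (H : ∀ z : ℂ, r₀ ≤ ‖z‖ → ∃ a b : ℂ, ‖a‖ ≤ k * ‖z‖ ∧ ‖b‖ ≤ k * ‖z‖ ∧ a ≠ b ∧
      Rel f g z a ∧ Rel f g z b)
    {r K : ℝ} (hr : r₀ / k' ≤ r) (hK : ∀ w : ℂ, ‖w‖ ≤ k' * r → r * ‖f w‖ ≤ K ∧ ‖g w‖ ≤ K) :
    ∀ z : ℂ, ‖z‖ ≤ r → r * ‖f z‖ ≤ (2 / (k' - k) + 2) * K ∧
      ‖g z‖ ≤ (2 / (k' - k) + 2) * K := by
  intro z hz
  have hk'0 : 0 < k' := hk.trans hk'
  have hr0 : 0 < r := lt_of_lt_of_le (by positivity) hr
  have hr₀r : r₀ ≤ k' * r := by
    rw [div_le_iff₀ hk'0] at hr; linarith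
  have hK0 : 0 ≤ K := (norm_nonneg _).trans (hK 0 (by simp; positivity)).2
  have hdk : 0 < k' - k := by linarith
  have hc : 0 < 2 / (k' - k) := by positivity
  rcases lt_or_ge ‖z‖ r₀ with h | h
  · have h1 := hK z (by linarith)
    constructor <;> nlinarith [h1.1, h1.2]
  · obtain ⟨a, b, ha, hb, hab, h1, h2⟩ := H z h
    unfold Rel at h1 h2
    set d := (k' - k) * r with hd
    have hd0 : 0 < d := by positivity
    have hza : ‖a‖ ≤ k * r := ha.trans (by gcongr)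
    have hzb : ‖b‖ ≤ k * r := hb.trans (by gcongr)
    have sub : ∀ ξ ∈ closedBall (0 : ℂ) (k * r), ∀ w ∈ sphere ξ d, ‖w‖ ≤ k' * r := by
      intro ξ hξ w hw
      rw [mem_closedBall_zero_iff] at hξ
      rw [mem_sphere_iff_norm] at hw
      have : ‖w‖ ≤ ‖w - ξ‖ + ‖ξ‖ := by
        have := norm_add_le (w - ξ) ξ
        simpa using this
      rw [hw] at this
      have e : d + k * r = k' * r := by rw [hd]; ring
      linarith
    have df : ∀ ξ ∈ closedBall (0 : ℂ) (k * r), ‖deriv f ξ‖ ≤ (K / r) / d := by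
      intro ξ hξ
      apply Complex.norm_deriv_le_of_forall_mem_sphere_norm_le hd0 hf.diffContOnCl
      intro w hw
      rw [le_div_iff₀ hr0, mul_comm]
      exact (hK w (sub ξ hξ w hw)).1
    have dg : ∀ ξ ∈ closedBall (0 : ℂ) (k * r), ‖deriv g ξ‖ ≤ K / d := by
      intro ξ hξ
      apply Complex.norm_deriv_le_of_forall_mem_sphere_norm_le hd0 hg.diffContOnCl
      intro w hw
      exact (hK w (sub ξ hξ w hw)).2
    have ma : conj a ∈ closedBall (0 : ℂ) (k * r) := by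
      rw [mem_closedBall_zero_iff, RCLike.norm_conj]; exact hza
    have mb : conj b ∈ closedBall (0 : ℂ) (k * r) := by
      rw [mem_closedBall_zero_iff, RCLike.norm_conj]; exact hzb
    have mf : ‖f (conj a) - f (conj b)‖ ≤ (K / r) / d * ‖a - b‖ := by
      have := (convex_closedBall (0 : ℂ) (k * r)).norm_image_sub_le_of_norm_deriv_le
        (fun x _ => hf x) df mb ma
      rwa [← map_sub, RCLike.norm_conj] at this
    have mg : ‖g (conj a) - g (conj b)‖ ≤ K / d * ‖a - b‖ := by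
      have := (convex_closedBall (0 : ℂ) (k * r)).norm_image_sub_le_of_norm_deriv_le
        (fun x _ => hg x) dg mb ma
      rwa [← map_sub, RCLike.norm_conj] at this
    have e1 : (a - b) * f z = - (z * conj (f (conj a) - f (conj b)) + conj (g (conj a) - g (conj b))) := by
      simp only [map_sub]
      linear_combination h1 - h2
    have n0 : 0 < ‖a - b‖ := norm_pos_iff.2 (sub_ne_zero.2 hab)
    have n1 : ‖a - b‖ * ‖f z‖ ≤ ‖a - b‖ * (2 * K / d) := by
      rw [← norm_mul, e1, norm_neg]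
      refine (norm_add_le _ _).trans ?_
      rw [norm_mul, RCLike.norm_conj, RCLike.norm_conj]
      have t1 : ‖z‖ * ‖f (conj a) - f (conj b)‖ ≤ r * ((K / r) / d * ‖a - b‖) := by
        gcongr
      have t2 : r * ((K / r) / d * ‖a - b‖) = K / d * ‖a - b‖ := by field_simp
      have t3 : ‖a - b‖ * (2 * K / d) = K / d * ‖a - b‖ + K / d * ‖a - b‖ := by ring
      linarith
    have n2 : ‖f z‖ ≤ 2 * K / d := le_of_mul_le_mul_left n1 n0
    have n3 : r * ‖f z‖ ≤ 2 / (k' - k) * K := by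
      have : r * (2 * K / d) = 2 / (k' - k) * K := by rw [hd]; field_simp
      rw [← this]
      gcongr
    refine ⟨by nlinarith, ?_⟩
    have e2 : g z = - (a * f z + z * conj (f (conj a)) + conj (g (conj a))) := by
      linear_combination h1
    rw [e2, norm_neg]
    have n4 := hK (conj a) (by
      rw [RCLike.norm_conj]
      have : k * r ≤ k' * r := by gcongr
      linarith)
    have n5 : ‖a * f z‖ ≤ 2 / (k' - k) * K := by
      rw [norm_mul]
      have : ‖a‖ ≤ r := hza.trans (by nlinarith)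
      calc ‖a‖ * ‖f z‖ ≤ r * ‖f z‖ := by gcongr
        _ ≤ _ := n3
    have n6 : ‖z * conj (f (conj a))‖ ≤ K := by
      rw [norm_mul, RCLike.norm_conj]
      calc ‖z‖ * ‖f (conj a)‖ ≤ r * ‖f (conj a)‖ := by gcongr
        _ ≤ _ := n4.1
    have n7 : ‖conj (g (conj a))‖ ≤ K := by rw [RCLike.norm_conj]; exact n4.2
    have n8 := norm_add_le (a * f z + z * conj (f (conj a))) (conj (g (conj a)))
    have n9 := norm_add_le (a * f z) (z * conj (f (conj a)))
    linarith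

lemma growth {f g : ℂ → ℂ} (hf : Differentiable ℂ f) (hg : Differentiable ℂ g)
    {k k' r₀ : ℝ} (hk : 0 < k) (hk' : k < k') (hk1 : k' < 1) (hr₀ : 0 < r₀)
    (H : ∀ z : ℂ, r₀ ≤ ‖z‖ → ∃ a b : ℂ, ‖a‖ ≤ k * ‖z‖ ∧ ‖b‖ ≤ k * ‖z‖ ∧ a ≠ b ∧
      Rel f g z a ∧ Rel f g z b) :
    ∃ C : ℝ, ∃ m : ℕ, ∀ z : ℂ, ‖f z‖ ≤ C * (1 + ‖z‖) ^ m ∧ ‖g z‖ ≤ C * (1 + ‖z‖) ^ m := by
  have hk'0 : 0 < k' := hk.trans hk'
  have hdk : 0 < k' - k := by linarith
  obtain ⟨r₁, hr₁, hr₁1⟩ : ∃ r₁ : ℝ, r₀ / k' ≤ r₁ ∧ 1 ≤ r₁ := ⟨max (r₀ / k') 1, le_max_left _ _,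
    le_max_right _ _⟩
  have hr₁0 : 0 < r₁ := by linarith
  obtain ⟨A, hA⟩ := (isCompact_closedBall (0 : ℂ) r₁).exists_bound_of_continuousOn
    hf.continuous.continuousOn
  obtain ⟨A', hA'⟩ := (isCompact_closedBall (0 : ℂ) r₁).exists_bound_of_continuousOn
    hg.continuous.continuousOn
  obtain ⟨K₀, hK₀⟩ : ∃ K₀ : ℝ, ∀ w : ℂ, ‖w‖ ≤ r₁ → r₁ * ‖f w‖ ≤ K₀ ∧ ‖g w‖ ≤ K₀ := by
    refine ⟨max (r₁ * A) A', fun w hw => ⟨?_, ?_⟩⟩
    · refine le_trans ?_ (le_max_left _ _)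
      gcongr
      exact hA w (by rw [mem_closedBall_zero_iff]; exact hw)
    · exact (hA' w (by rw [mem_closedBall_zero_iff]; exact hw)).trans (le_max_right _ _)
  have hK₀0 : 0 ≤ K₀ := (norm_nonneg _).trans (hK₀ 0 (by simp; positivity)).2
  set y := 1 / k' with hy
  have hy1 : 1 < y := by rw [hy]; exact (one_lt_div hk'0).2 hk1
  have hy0 : 0 < y := by linarith
  set B := (2 / (k' - k) + 2) * y with hB
  have hB0 : 0 < B := by positivity
  have claim : ∀ j : ℕ, ∀ z : ℂ, ‖z‖ ≤ r₁ * y ^ j →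
      (r₁ * y ^ j) * ‖f z‖ ≤ K₀ * B ^ j ∧ ‖g z‖ ≤ K₀ * B ^ j := by
    intro j
    induction j with
    | zero => intro z hz; simpa using hK₀ z (by simpa using hz)
    | succ j ih =>
      have hy1j : 1 ≤ y ^ (j + 1) := one_le_pow₀ hy1.le
      have key := growth_step hf hg hk hk' hk1 hr₀ H (r := r₁ * y ^ (j + 1)) (K := K₀ * B ^ j * y)
        (by nlinarith) (by
          intro w hw
          have e : k' * (r₁ * y ^ (j + 1)) = r₁ * y ^ j := by
            rw [pow_succ, hy]; field_simp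
          rw [e] at hw
          have h1 := ih w hw
          have hp : 0 ≤ K₀ * B ^ j := by positivity
          refine ⟨?_, ?_⟩
          · calc r₁ * y ^ (j + 1) * ‖f w‖ = (r₁ * y ^ j * ‖f w‖) * y := by rw [pow_succ]; ring
              _ ≤ K₀ * B ^ j * y := mul_le_mul_of_nonneg_right h1.1 hy0.le
          · nlinarith [h1.2])
      intro z hz
      have h2 := key z hz
      have e2 : (2 / (k' - k) + 2) * (K₀ * B ^ j * y) = K₀ * B ^ (j + 1) := by
        rw [pow_succ, hB]; ring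
      rwa [e2] at h2
  obtain ⟨m, hm⟩ : ∃ m : ℕ, B < y ^ m := pow_unbounded_of_one_lt B hy1
  refine ⟨K₀ * y ^ m, m, ?_⟩
  have hz1 : ∀ z : ℂ, 1 ≤ (1 + ‖z‖) ^ m := fun z => one_le_pow₀ (by linarith [norm_nonneg z])
  have hym : 1 ≤ y ^ m := one_le_pow₀ hy1.le
  intro z
  rcases le_or_gt ‖z‖ r₁ with h | h
  · have h1 := hK₀ z h
    have h2 : K₀ ≤ K₀ * y ^ m * (1 + ‖z‖) ^ m := by
      have := mul_le_mul hym (hz1 z) (by norm_num) (by positivity)
      nlinarith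
    refine ⟨?_, h1.2.trans h2⟩
    have : ‖f z‖ ≤ r₁ * ‖f z‖ := by nlinarith [norm_nonneg (f z)]
    linarith [h1.1]
  · obtain ⟨n, hn1, hn2⟩ := exists_nat_pow_near (x := ‖z‖ / r₁) (y := y)
      (by rw [le_div_iff₀ hr₁0]; linarith) hy1
    have h3 : ‖z‖ ≤ r₁ * y ^ (n + 1) := by
      rw [div_lt_iff₀ hr₁0] at hn2; linarith
    have h4 := claim (n + 1) z h3
    have h5 : B ^ (n + 1) ≤ y ^ m * (1 + ‖z‖) ^ m := by
      have hq : y ^ (n + 1) ≤ y * (1 + ‖z‖) := by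
        rw [pow_succ, mul_comm]
        gcongr
        refine hn1.trans ?_
        rw [div_le_iff₀ hr₁0]
        nlinarith [norm_nonneg z]
      calc B ^ (n + 1) ≤ (y ^ m) ^ (n + 1) := by gcongr
        _ = (y ^ (n + 1)) ^ m := by rw [← pow_mul, ← pow_mul, mul_comm]
        _ ≤ (y * (1 + ‖z‖)) ^ m := by gcongr
        _ = _ := by rw [mul_pow]
    have h6 : K₀ * B ^ (n + 1) ≤ K₀ * y ^ m * (1 + ‖z‖) ^ m := by
      rw [mul_assoc]; gcongr
    refine ⟨?_, h4.2.trans h6⟩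
    have h7 : 1 ≤ r₁ * y ^ (n + 1) := by
      have : 1 ≤ y ^ (n + 1) := one_le_pow₀ hy1.le
      nlinarith
    have h8 : ‖f z‖ ≤ r₁ * y ^ (n + 1) * ‖f z‖ := by nlinarith [norm_nonneg (f z)]
    linarith [h4.1]

open Filter Topology Nat in
lemma poly_of_growth {f : ℂ → ℂ} (hf : Differentiable ℂ f) {C : ℝ} {m : ℕ}
    (h : ∀ z : ℂ, ‖f z‖ ≤ C * (1 + ‖z‖) ^ m) :
    ∃ c : ℕ → ℂ, ∀ z, f z = ∑ j ∈ Finset.range (m + 1), c j * z ^ j := by
  have hC : 0 ≤ C := by
    have := (norm_nonneg _).trans (h 0)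
    simpa using this
  have h0 : ∀ n, m < n → iteratedDeriv n f 0 = 0 := by
    intro n hn
    rw [← norm_le_zero_iff]
    have ht : Tendsto (fun R : ℝ => (n ! : ℝ) * (C * 2 ^ m) / R) atTop (𝓝 0) :=
      tendsto_const_nhds.div_atTop tendsto_id
    apply ge_of_tendsto ht
    filter_upwards [eventually_ge_atTop (1 : ℝ)] with R hR
    have hR0 : 0 < R := by linarith
    have h1 := Complex.norm_iteratedDeriv_le_of_forall_mem_sphere_norm_le (c := 0) (R := R)
      (C := C * (2 * R) ^ m) n hR0 hf.diffContOnCl (by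
        intro z hz
        rw [mem_sphere_zero_iff_norm] at hz
        refine (h z).trans ?_
        rw [hz]
        gcongr
        linarith)
    refine h1.trans ?_
    rw [div_le_div_iff₀ (by positivity) hR0]
    have e : R ^ n = R ^ m * R * R ^ (n - m - 1) := by
      rw [← pow_succ, ← pow_add]; congr 1; omega
    have h2 : 1 ≤ R ^ (n - m - 1) := one_le_pow₀ hR
    calc (n ! : ℝ) * (C * (2 * R) ^ m) * R = (n ! : ℝ) * (C * 2 ^ m) * (R ^ m * R) * 1 := by
          rw [mul_pow]; ring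
      _ ≤ (n ! : ℝ) * (C * 2 ^ m) * (R ^ m * R) * R ^ (n - m - 1) := by gcongr
      _ = _ := by rw [e]; ring
  refine ⟨fun n => (n ! : ℂ)⁻¹ * iteratedDeriv n f 0, fun z => ?_⟩
  have h1 := Complex.hasSum_taylorSeries_of_entire hf 0 z
  have h2 : HasSum (fun n : ℕ => (n ! : ℂ)⁻¹ • (z - 0) ^ n • iteratedDeriv n f 0)
      (∑ n ∈ Finset.range (m + 1), (n ! : ℂ)⁻¹ • (z - 0) ^ n • iteratedDeriv n f 0) := by
    apply hasSum_sum_of_ne_finset_zero
    intro n hn
    rw [Finset.mem_range, not_lt] at hn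
    rw [h0 n (by omega)]; simp
  rw [h1.unique h2]
  apply Finset.sum_congr rfl
  intro n _
  simp only [sub_zero, smul_eq_mul]
  ring

end Pool.Agent.X92.TE
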