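import Pool.Agent.X92.TE1
import Pool.Agent.X92.TE2

/-! Two ellipses: the leading forms -/

set_option autoImplicit false

namespace Pool.Agent.X92.TE

open Finset ComplexConjugate Filter Topology

/-- homogeneous part in one variable -/
noncomputable def hh (α b : ℕ → ℂ) (j : ℕ) (x : ℂ) : ℂ :=
  b j + α j * x + conj (α j) * x ^ (j - 1) + conj (b j) * x ^ j

/-- its divided difference -/
noncomputable def kk (α b : ℕ → ℂ) (j : ℕ) (x y : ℂ) : ℂ :=
  α j + conj (α j) * S (j - 1) x y + conj (b j) * S j x y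

lemma hh_sub (α b : ℕ → ℂ) (j : ℕ) (x y : ℂ) :
    hh α b j x - hh α b j y = (x - y) * kk α b j x y := by
  unfold hh kk
  have e1 := S_mul (j - 1) x y
  have e2 := S_mul j x y
  linear_combination (-conj (α j)) * e1 - conj (b j) * e2

lemma S_cont (j : ℕ) : Continuous (fun p : ℂ × ℂ => S j p.1 p.2) := by
  unfold S; fun_prop

lemma kk_cont (α b : ℕ → ℂ) (j : ℕ) : Continuous (fun p : ℂ × ℂ => kk α b j p.1 p.2) := by
  unfold kk
  exact (continuous_const.add (continuous_const.mul (S_cont _))).add
    (continuous_const.mul (S_cont _))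

lemma inv_tendsto : Tendsto (fun N : ℕ => ((N : ℂ))⁻¹) atTop (𝓝 0) := by
  have h := (Complex.continuous_ofReal.tendsto 0).comp (tendsto_inv_atTop_nhds_zero_nat (𝕜 := ℝ))
  simpa [Function.comp_def] using h

/-- a vanishing sum gives vanishing of the top coefficient in the limit -/
lemma top_limit (n : ℕ) (u : ℕ → ℕ → ℂ) (l : ℕ → ℂ) (hu : ∀ j, Tendsto (u j) atTop (𝓝 (l j)))
    (h0 : ∀ᶠ N : ℕ in atTop, ∑ j ∈ range (n + 1), (N : ℂ) ^ j * u j N = 0) : l n = 0 := by
  have h1 : Tendsto (fun N : ℕ => ∑ j ∈ range (n + 1), ((N : ℂ))⁻¹ ^ (n - j) * u j N) atTop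
      (𝓝 (∑ j ∈ range (n + 1), (0 : ℂ) ^ (n - j) * l j)) := by
    apply tendsto_finsetSum
    intro j _
    exact (inv_tendsto.pow _).mul (hu j)
  have h2 : ∑ j ∈ range (n + 1), (0 : ℂ) ^ (n - j) * l j = l n := by
    rw [sum_range_succ, sum_eq_zero, zero_add]
    · simp
    · intro j hj
      rw [mem_range] at hj
      rw [zero_pow (by omega), zero_mul]
  have h3 : (fun N : ℕ => ∑ j ∈ range (n + 1), ((N : ℂ))⁻¹ ^ (n - j) * u j N) =ᶠ[atTop]
      fun _ => 0 := by
    filter_upwards [h0, eventually_gt_atTop 0] with N hN hN0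
    have hN' : (N : ℂ) ≠ 0 := Nat.cast_ne_zero.2 hN0.ne'
    have : ∑ j ∈ range (n + 1), ((N : ℂ))⁻¹ ^ (n - j) * u j N =
        ((N : ℂ) ^ n)⁻¹ * ∑ j ∈ range (n + 1), (N : ℂ) ^ j * u j N := by
      rw [mul_sum]
      apply sum_congr rfl
      intro j hj
      rw [mem_range] at hj
      have e : (N : ℂ) ^ n = (N : ℂ) ^ (n - j) * (N : ℂ) ^ j := by
        rw [← pow_add]; congr 1; omega
      rw [e, inv_pow, mul_inv]
      field_simp
    rw [this, hN, mul_zero]
  rw [h2] at h1
  exact tendsto_nhds_unique (h1.congr' h3) tendsto_const_nhds |>.symm ▸ rfl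

lemma top_forms (n : ℕ) (α b : ℕ → ℂ) {x y : ℕ → ℂ} {l m : ℂ} (hx : Tendsto x atTop (𝓝 l))
    (hy : Tendsto y atTop (𝓝 m)) (hxy : ∀ᶠ N in atTop, x N ≠ y N)
    (h1 : ∀ᶠ N : ℕ in atTop, ∑ j ∈ range (n + 1), (N : ℂ) ^ j * hh α b j (x N) = 0)
    (h2 : ∀ᶠ N : ℕ in atTop, ∑ j ∈ range (n + 1), (N : ℂ) ^ j * hh α b j (y N) = 0) :
    hh α b n l = 0 ∧ kk α b n l m = 0 := by
  constructor
  · refine top_limit n (fun j N => hh α b j (x N)) (fun j => hh α b j l) ?_ h1
    intro j
    have : Continuous (fun z => hh α b j z) := by unfold hh; fun_prop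
    exact (this.tendsto l).comp hx
  · refine top_limit n (fun j N => kk α b j (x N) (y N)) (fun j => kk α b j l m) ?_ ?_
    · intro j
      have h := ((kk_cont α b j).tendsto (l, m)).comp (hx.prodMk_nhds hy)
      simp only [Function.comp_def] at h
      exact h
    · filter_upwards [h1, h2, hxy] with N a1 a2 a3
      have e : (x N - y N) * ∑ j ∈ range (n + 1), (N : ℂ) ^ j * kk α b j (x N) (y N) = 0 := by
        have : (x N - y N) * ∑ j ∈ range (n + 1), (N : ℂ) ^ j * kk α b j (x N) (y N) =
            ∑ j ∈ range (n + 1), (N : ℂ) ^ j * hh α b j (x N) -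
              ∑ j ∈ range (n + 1), (N : ℂ) ^ j * hh α b j (y N) := by
          rw [← sum_sub_distrib, mul_sum]
          apply sum_congr rfl
          intro j _
          have := hh_sub α b j (x N) (y N)
          linear_combination (-(N : ℂ) ^ j) * this
        rw [this, a1, a2, sub_zero]
      rcases mul_eq_zero.1 e with h | h
      · exact absurd (sub_eq_zero.1 h) a3
      · exact h

/-- all homogeneous parts vanish -/
lemma descend (α b : ℕ → ℂ) {x y : ℕ → ℂ} {l m : ℂ} (hl : ‖l‖ < 1) (hm : ‖m‖ < 1)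
    (hx : Tendsto x atTop (𝓝 l))
    (hy : Tendsto y atTop (𝓝 m)) (hxy : ∀ᶠ N in atTop, x N ≠ y N) (n : ℕ)
    (h1 : ∀ᶠ N : ℕ in atTop, ∑ j ∈ range (n + 1), (N : ℂ) ^ j * hh α b j (x N) = 0)
    (h2 : ∀ᶠ N : ℕ in atTop, ∑ j ∈ range (n + 1), (N : ℂ) ^ j * hh α b j (y N) = 0) :
    ∀ j ≤ n, (3 ≤ j → α j = 0 ∧ b j = 0) ∧ (j = 2 → α 2 + conj (α 2) = 0 ∧ b 2 = 0) ∧
      (j = 1 → α 1 + conj (b 1) = 0) ∧ (j = 0 → b 0 + α 0 * l + conj (α 0) + conj (b 0) = 0) := by
  induction n with
  | zero =>
    intro j hj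
    have hj0 : j = 0 := by omega
    subst hj0
    have := (top_forms 0 α b hx hy hxy h1 h2).1
    unfold hh at this
    refine ⟨by omega, by omega, by omega, fun _ => ?_⟩
    simpa using this
  | succ n ih =>
    have ht := top_forms (n + 1) α b hx hy hxy h1 h2
    have hcase : (3 ≤ n + 1 → α (n + 1) = 0 ∧ b (n + 1) = 0) ∧
        (n + 1 = 2 → α 2 + conj (α 2) = 0 ∧ b 2 = 0) ∧ (n + 1 = 1 → α 1 + conj (b 1) = 0) := by
      refine ⟨?_, ?_, ?_⟩
      · intro h3
        have a1 := ht.1
        have a2 := ht.2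
        unfold hh at a1
        unfold kk at a2
        simp only [Nat.add_sub_cancel] at a1 a2
        exact alg n (by omega) l m hl hm (α (n + 1)) (b (n + 1)) a1 a2
      · intro h3
        have hn : n = 1 := by omega
        subst hn
        have a1 := ht.1
        have a2 := ht.2
        unfold hh at a1
        unfold kk at a2
        have s1 : S 1 l m = 1 := by simp [S]
        have s2 : S 2 l m = l + m := by
          rw [S_succ, s1]; ring
        norm_num at a1 a2
        rw [s1, s2] at a2
        exact alg2 l m hl hm (α 2) (b 2) a1 (by linear_combination a2)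
      · intro h3
        have hn : n = 0 := by omega
        subst hn
        have a2 := ht.2
        unfold kk at a2
        have s1 : S 1 l m = 1 := by simp [S]
        norm_num at a2
        rw [s1, S_zero] at a2
        linear_combination a2
    have hz : ∀ z : ℂ, hh α b (n + 1) z = 0 := by
      intro z
      unfold hh
      rcases Nat.lt_or_ge (n + 1) 3 with h3 | h3
      · rcases Nat.lt_or_ge (n + 1) 2 with h4 | h4
        · have hn : n = 0 := by omega
          subst hn
          have h5 := hcase.2.2 rfl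
          have h6 := congrArg conj h5
          simp only [map_add, Complex.conj_conj, map_zero] at h6
          norm_num
          linear_combination z * h5 + h6
        · have hn : n = 1 := by omega
          subst hn
          obtain ⟨h5, h6⟩ := hcase.2.1 rfl
          norm_num
          rw [h6]
          simp only [map_zero]
          linear_combination z * h5
      · obtain ⟨h5, h6⟩ := hcase.1 h3
        rw [h5, h6]; simp
    have ih' := ih (by
      filter_upwards [h1] with N hN
      rw [sum_range_succ, hz] at hN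
      simpa using hN) (by
      filter_upwards [h2] with N hN
      rw [sum_range_succ, hz] at hN
      simpa using hN)
    intro j hj
    rcases Nat.lt_or_ge j (n + 1) with h | h
    · exact ih' j (by omega)
    · have hj' : j = n + 1 := by omega
      subst hj'
      exact ⟨hcase.1, hcase.2.1, hcase.2.2, by omega⟩

end Pool.Agent.X92.TE
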