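import Pool.Agent.X92.TE3

/-! Two ellipses: the core -/

set_option autoImplicit false

namespace Pool.Agent.X92.TE

open Finset ComplexConjugate Filter Topology

lemma conj_poly (M : ℕ) (c : ℕ → ℂ) (z : ℂ) :
    conj (∑ j ∈ range M, c j * (conj z) ^ j) = ∑ j ∈ range M, conj (c j) * z ^ j := by
  rw [map_sum]
  apply sum_congr rfl
  intro j _
  simp

/-- shifted coefficients -/
noncomputable def sh (M : ℕ) (a : ℕ → ℂ) (j : ℕ) : ℂ := if j = 0 then 0 else if j ≤ M + 1 then a (j - 1) else 0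

/-- cut coefficients -/
noncomputable def ct (M : ℕ) (b : ℕ → ℂ) (j : ℕ) : ℂ := if j ≤ M then b j else 0

lemma U_eq (M : ℕ) (a b : ℕ → ℂ) (z w : ℂ) :
    w * (∑ j ∈ range (M + 1), a j * z ^ j) + z * (∑ j ∈ range (M + 1), conj (a j) * w ^ j)
      + (∑ j ∈ range (M + 1), b j * z ^ j) + (∑ j ∈ range (M + 1), conj (b j) * w ^ j) =
    ∑ j ∈ range (M + 1 + 1), (ct M b j * z ^ j + sh M a j * (z ^ (j - 1) * w) +
      conj (sh M a j) * (z * w ^ (j - 1)) + conj (ct M b j) * w ^ j) := by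
  rw [sum_add_distrib, sum_add_distrib, sum_add_distrib]
  have e1 : ∑ j ∈ range (M + 1 + 1), ct M b j * z ^ j = ∑ j ∈ range (M + 1), b j * z ^ j := by
    rw [sum_range_succ]
    have : ct M b (M + 1) = 0 := by simp [ct]
    rw [this, zero_mul, add_zero]
    apply sum_congr rfl
    intro j hj
    rw [mem_range] at hj
    have : ct M b j = b j := by simp only [ct]; rw [if_pos (by omega)]
    rw [this]
  have e2 : ∑ j ∈ range (M + 1 + 1), conj (ct M b j) * w ^ j =
      ∑ j ∈ range (M + 1), conj (b j) * w ^ j := by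
    rw [sum_range_succ]
    have : ct M b (M + 1) = 0 := by simp [ct]
    rw [this, map_zero, zero_mul, add_zero]
    apply sum_congr rfl
    intro j hj
    rw [mem_range] at hj
    have : ct M b j = b j := by simp only [ct]; rw [if_pos (by omega)]
    rw [this]
  have s0 : sh M a 0 = 0 := by simp [sh]
  have s1 : ∀ j ∈ range (M + 1), sh M a (j + 1) = a j := by
    intro j hj
    rw [mem_range] at hj
    simp only [sh]
    rw [if_neg (by omega), if_pos (by omega), Nat.add_sub_cancel]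
  have e3 : ∑ j ∈ range (M + 1 + 1), sh M a j * (z ^ (j - 1) * w) =
      w * ∑ j ∈ range (M + 1), a j * z ^ j := by
    rw [sum_range_succ', s0, zero_mul, add_zero, mul_sum]
    apply sum_congr rfl
    intro j hj
    rw [s1 j hj, Nat.add_sub_cancel]; ring
  have e4 : ∑ j ∈ range (M + 1 + 1), conj (sh M a j) * (z * w ^ (j - 1)) =
      z * ∑ j ∈ range (M + 1), conj (a j) * w ^ j := by
    rw [sum_range_succ', s0, map_zero, zero_mul, add_zero, mul_sum]
    apply sum_congr rfl
    intro j hj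
    rw [s1 j hj, Nat.add_sub_cancel]; ring
  rw [e1, e2, e3, e4]
  ring

theorem core {f g : ℂ → ℂ} (hf : Differentiable ℂ f) (hg : Differentiable ℂ g) {l m : ℂ}
    (hl : ‖l‖ < 1) (hm : ‖m‖ < 1) {r₀ C : ℝ} (hr₀ : 0 < r₀) (A B : ℂ → ℂ)
    (hA : ∀ z : ℂ, r₀ ≤ ‖z‖ → ‖A z - l * z‖ ≤ C) (hB : ∀ z : ℂ, r₀ ≤ ‖z‖ → ‖B z - m * z‖ ≤ C)
    (hAB : ∀ z : ℂ, r₀ ≤ ‖z‖ → A z ≠ B z)
    (h1 : ∀ z : ℂ, r₀ ≤ ‖z‖ → Rel f g z (A z)) (h2 : ∀ z : ℂ, r₀ ≤ ‖z‖ → Rel f g z (B z)) :
    ∀ z : ℂ, (conj z * f z + g z).re = 0 := by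
  obtain ⟨s, hs0, hsl, hsm, hs1⟩ : ∃ s : ℝ, 0 ≤ s ∧ ‖l‖ ≤ s ∧ ‖m‖ ≤ s ∧ s < 1 :=
    ⟨max ‖l‖ ‖m‖, (norm_nonneg _).trans (le_max_left _ _), le_max_left _ _, le_max_right _ _,
      max_lt hl hm⟩
  set k := (1 + 2 * s) / 3 with hk
  set k' := (2 + s) / 3 with hk'
  have hks : 0 < k - s := by rw [hk]; linarith
  have hC0 : 0 ≤ C := by
    have : r₀ ≤ ‖(r₀ : ℂ)‖ := by rw [Complex.norm_real, Real.norm_of_nonneg hr₀.le]
    exact (norm_nonneg _).trans (hA _ this)
  obtain ⟨D, M, hD⟩ := growth hf hg (k := k) (k' := k') (r₀ := max r₀ (C / (k - s)))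
    (by rw [hk]; linarith) (by rw [hk, hk']; linarith) (by rw [hk']; linarith)
    (lt_of_lt_of_le hr₀ (le_max_left _ _)) (by
      intro z hz
      have hz1 : r₀ ≤ ‖z‖ := (le_max_left _ _).trans hz
      have hz2 : C ≤ (k - s) * ‖z‖ := by
        have := (le_max_right _ _).trans hz
        rw [div_le_iff₀ hks] at this
        linarith
      have bd : ∀ (w l' : ℂ), ‖l'‖ ≤ s → ‖w - l' * z‖ ≤ C → ‖w‖ ≤ k * ‖z‖ := by
        intro w l' hl' hw
        have t1 : ‖w‖ ≤ ‖w - l' * z‖ + ‖l' * z‖ := by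
          have := norm_add_le (w - l' * z) (l' * z)
          simpa using this
        rw [norm_mul] at t1
        nlinarith [norm_nonneg z]
      exact ⟨A z, B z, bd _ l hsl (hA z hz1), bd _ m hsm (hB z hz1), hAB z hz1, h1 z hz1,
        h2 z hz1⟩)
  obtain ⟨a, ha⟩ := poly_of_growth hf (fun z => (hD z).1)
  obtain ⟨b, hb⟩ := poly_of_growth hg (fun z => (hD z).2)
  -- the relation in terms of coefficients
  have rel : ∀ z w : ℂ, w * f z + z * conj (f (conj w)) + g z + conj (g (conj w)) =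
      ∑ j ∈ range (M + 1 + 1), (ct M b j * z ^ j + sh M a j * (z ^ (j - 1) * w) +
      conj (sh M a j) * (z * w ^ (j - 1)) + conj (ct M b j) * w ^ j) := by
    intro z w
    rw [← U_eq, ha z, hb z, ha (conj w), hb (conj w), conj_poly, conj_poly]
  have relh : ∀ (N : ℕ) (x : ℂ), ((N : ℂ) * x) * f N + N * conj (f (conj ((N : ℂ) * x))) + g N +
      conj (g (conj ((N : ℂ) * x))) =
      ∑ j ∈ range (M + 1 + 1), (N : ℂ) ^ j * hh (sh M a) (ct M b) j x := by
    intro N x
    rw [rel]
    apply sum_congr rfl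
    intro j _
    unfold hh
    rcases Nat.eq_zero_or_pos j with h | h
    · subst h
      have : sh M a 0 = 0 := by simp [sh]
      rw [this]; simp
    · obtain ⟨i, rfl⟩ := Nat.exists_eq_succ_of_ne_zero h.ne'
      simp only [Nat.succ_eq_add_one, Nat.add_sub_cancel]
      rw [mul_pow, mul_pow]
      ring
  have lim : ∀ (A' : ℂ → ℂ) (l' : ℂ), (∀ z : ℂ, r₀ ≤ ‖z‖ → ‖A' z - l' * z‖ ≤ C) →
      Tendsto (fun N : ℕ => A' N / N) atTop (𝓝 l') := by
    intro A' l' hA'
    rw [tendsto_iff_norm_sub_tendsto_zero]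
    have t1 : Tendsto (fun N : ℕ => C / (N : ℝ)) atTop (𝓝 0) :=
      tendsto_const_nhds.div_atTop tendsto_natCast_atTop_atTop
    refine squeeze_zero' (Eventually.of_forall fun _ => norm_nonneg _) ?_ t1
    filter_upwards [eventually_gt_atTop 0, eventually_ge_atTop ⌈r₀⌉₊] with N hN0 hN
    have hN' : (N : ℂ) ≠ 0 := Nat.cast_ne_zero.2 hN0.ne'
    have hN1 : r₀ ≤ ‖(N : ℂ)‖ := by
      rw [Complex.norm_natCast]; exact (Nat.le_ceil _).trans (by exact_mod_cast hN)
    have e : A' N / N - l' = (A' N - l' * N) / N := by field_simp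
    rw [e, norm_div, Complex.norm_natCast]
    gcongr
    exact hA' _ hN1
  have large : ∀ᶠ N : ℕ in atTop, r₀ ≤ ‖(N : ℂ)‖ ∧ (N : ℂ) ≠ 0 := by
    filter_upwards [eventually_gt_atTop 0, eventually_ge_atTop ⌈r₀⌉₊] with N hN0 hN
    refine ⟨?_, Nat.cast_ne_zero.2 hN0.ne'⟩
    rw [Complex.norm_natCast]; exact (Nat.le_ceil _).trans (by exact_mod_cast hN)
  have hd := descend (sh M a) (ct M b) hl hm (lim A l hA) (lim B m hB)
    (by
      filter_upwards [large] with N hN h
      have : A N = B N := by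
        have h3 := hN.2
        field_simp at h
        exact h
      exact hAB N hN.1 this) (M + 1)
    (by
      filter_upwards [large] with N hN
      rw [← relh]
      have : (N : ℂ) * (A N / N) = A N := by have := hN.2; field_simp
      rw [this]
      exact h1 N hN.1)
    (by
      filter_upwards [large] with N hN
      rw [← relh]
      have : (N : ℂ) * (B N / N) = B N := by have := hN.2; field_simp
      rw [this]
      exact h2 N hN.1)
  intro z
  have e0 := rel z (conj z)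
  rw [sum_eq_zero] at e0
  · rw [Complex.conj_conj] at e0
    have e1 := congrArg Complex.re e0
    simp only [Complex.add_re, Complex.mul_re, Complex.conj_re, Complex.conj_im,
      Complex.zero_re] at e1
    simp only [Complex.add_re, Complex.mul_re, Complex.conj_re, Complex.conj_im]
    linarith
  · intro j hj
    rw [mem_range] at hj
    obtain ⟨q3, q2, q1, q0⟩ := hd j (by omega)
    rcases Nat.lt_or_ge j 3 with h | h
    · have s0 : sh M a 0 = 0 := by simp [sh]
      interval_cases j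
      · have := q0 rfl
        rw [s0] at this ⊢
        simp at this ⊢
        linear_combination this
      · have h5 := q1 rfl
        have h6 := congrArg conj h5
        simp only [map_add, Complex.conj_conj, map_zero] at h6
        norm_num
        linear_combination conj z * h5 + z * h6
      · obtain ⟨h5, h6⟩ := q2 rfl
        rw [h6]
        norm_num
        linear_combination z * conj z * h5
    · obtain ⟨h5, h6⟩ := q3 h
      rw [h5, h6]; simp

end Pool.Agent.X92.TE
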