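import Pool.Agent.X92.TE4

/-! Two ellipses: complexification -/

set_option autoImplicit false

namespace Pool.Agent.X92.TE

open Finset ComplexConjugate Filter Topology

lemma star_diff {f : ℂ → ℂ} (hf : Differentiable ℂ f) :
    Differentiable ℂ (fun w => conj (f (conj w))) := by
  intro w
  have := (hf (conj w)).conj_conj (𝕜 := ℂ)
  simpa [Function.comp_def] using this

lemma circle_freq {ρ : ℝ} (hρ : 0 < ρ) {G : ℂ → ℂ} (hG : ∀ Y : ℂ, ‖Y‖ = ρ → G Y = 0) :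
    ∃ᶠ Y in 𝓝[≠] (ρ : ℂ), G Y = 0 := by
  have ht : Tendsto (fun n : ℕ => (ρ : ℂ) * Complex.exp (((1 / ((n : ℝ) + 1) : ℝ) : ℂ) * Complex.I))
      atTop (𝓝[≠] (ρ : ℂ)) := by
    rw [tendsto_nhdsWithin_iff]
    constructor
    · have h1 : Tendsto (fun n : ℕ => (1 / ((n : ℝ) + 1) : ℝ)) atTop (𝓝 0) :=
        tendsto_one_div_add_atTop_nhds_zero_nat
      have hc : Continuous (fun t : ℝ => (ρ : ℂ) * Complex.exp ((t : ℂ) * Complex.I)) := by fun_prop
      have h2 := (hc.tendsto 0).comp h1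
      simpa [Function.comp_def] using h2
    · apply Eventually.of_forall
      intro n h
      have h' : (ρ : ℂ) * Complex.exp (((1 / ((n : ℝ) + 1) : ℝ) : ℂ) * Complex.I) = (ρ : ℂ) := h
      have hρ' : (ρ : ℂ) ≠ 0 := Complex.ofReal_ne_zero.2 hρ.ne'
      have h2 : Complex.exp (((1 / ((n : ℝ) + 1) : ℝ) : ℂ) * Complex.I) = 1 := by
        have := mul_left_cancel₀ hρ' (h'.trans (mul_one _).symm)
        exact this
      have h3 := congrArg Complex.im h2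
      rw [Complex.exp_ofReal_mul_I_im, Complex.one_im] at h3
      have hn : (0 : ℝ) < (n : ℝ) + 1 := by positivity
      have h4 : (0 : ℝ) < 1 / ((n : ℝ) + 1) := by positivity
      have h5 : 1 / ((n : ℝ) + 1) ≤ 1 := by
        rw [div_le_one hn]; linarith [(Nat.cast_nonneg n : (0 : ℝ) ≤ n)]
      have h6 := Real.sin_pos_of_pos_of_lt_pi h4 (by linarith [Real.pi_gt_three])
      linarith
  apply ht.frequently
  apply Frequently.of_forall
  intro n
  apply hG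
  rw [norm_mul, Complex.norm_real, Real.norm_of_nonneg hρ.le, Complex.norm_exp_ofReal_mul_I, mul_one]

lemma complexify {f g : ℂ → ℂ} (hf : Differentiable ℂ f) (hg : Differentiable ℂ g) {l m : ℂ}
    (hl : ‖l‖ < 1) {ρ : ℝ} (hρ : 0 < ρ)
    (h : ∀ z : ℂ, ‖conj z - l * z - m‖ = ρ → (conj z * f z + g z).re = 0)
    (z w : ℂ) (hzw : (w - l * z - m) * (z - conj l * w - conj m) = (ρ : ℂ) ^ 2) :
    Rel f g z w := by
  have hρ' : (ρ : ℂ) ≠ 0 := Complex.ofReal_ne_zero.2 hρ.ne'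
  set κ : ℂ := 1 - l * conj l with hκ
  have hκr : κ = ((1 - ‖l‖ ^ 2 : ℝ) : ℂ) := by
    rw [hκ, Complex.mul_conj, Complex.normSq_eq_norm_sq]; push_cast; ring
  have hκ0 : κ ≠ 0 := by
    rw [hκr]
    apply Complex.ofReal_ne_zero.2
    have : ‖l‖ ^ 2 < 1 := by nlinarith [norm_nonneg l]
    linarith
  have hκc : conj κ = κ := by rw [hκr, Complex.conj_ofReal]
  set zY : ℂ → ℂ := fun Y => (Y + conj l * ((ρ : ℂ) ^ 2 / Y) + conj m + conj l * m) / κ with hzY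
  set wY : ℂ → ℂ := fun Y => ((ρ : ℂ) ^ 2 / Y + l * Y + m + l * conj m) / κ with hwY
  set G : ℂ → ℂ := fun Y => wY Y * f (zY Y) + zY Y * conj (f (conj (wY Y))) + g (zY Y) +
    conj (g (conj (wY Y))) with hG
  have hopen : IsOpen ({0}ᶜ : Set ℂ) := isOpen_compl_singleton
  have dz : ∀ Y : ℂ, Y ≠ 0 → DifferentiableAt ℂ zY Y := by
    intro Y hY
    rw [hzY]
    fun_prop (disch := assumption)
  have dw : ∀ Y : ℂ, Y ≠ 0 → DifferentiableAt ℂ wY Y := by
    intro Y hY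
    rw [hwY]
    fun_prop (disch := assumption)
  have dG : DifferentiableOn ℂ G ({0}ᶜ : Set ℂ) := by
    intro Y hY
    have hY' : Y ≠ 0 := hY
    apply DifferentiableAt.differentiableWithinAt
    have a1 := dz Y hY'
    have a2 := dw Y hY'
    have a3 : DifferentiableAt ℂ (fun Y => f (zY Y)) Y := (hf (zY Y)).comp Y a1
    have a4 : DifferentiableAt ℂ (fun Y => g (zY Y)) Y := (hg (zY Y)).comp Y a1
    have a5 : DifferentiableAt ℂ (fun Y => conj (f (conj (wY Y)))) Y :=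
      (star_diff hf (wY Y)).comp Y a2
    have a6 : DifferentiableAt ℂ (fun Y => conj (g (conj (wY Y)))) Y :=
      (star_diff hg (wY Y)).comp Y a2
    exact (((a2.mul a3).add (a1.mul a5)).add a4).add a6
  have hzero : ∀ Y : ℂ, ‖Y‖ = ρ → G Y = 0 := by
    intro Y hY
    have hY0 : Y ≠ 0 := by
      intro h0
      rw [h0, norm_zero] at hY
      exact hρ.ne hY
    have hYY : (ρ : ℂ) ^ 2 / Y = conj Y := by
      rw [div_eq_iff hY0, mul_comm, Complex.mul_conj, Complex.normSq_eq_norm_sq, hY]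
      push_cast; ring
    have hcz : wY Y = conj (zY Y) := by
      simp only [hwY, hzY]
      rw [hYY]
      simp only [map_div₀, map_add, map_mul, Complex.conj_conj, hκc]
    have hX : conj (zY Y) - l * zY Y - m = conj Y := by
      rw [← hcz]
      simp only [hwY, hzY]
      rw [hYY]
      field_simp
      rw [hκ]; ring
    have h1 := h (zY Y) (by rw [hX, RCLike.norm_conj, hY])
    simp only [hG]
    rw [hcz, Complex.conj_conj]
    apply Complex.ext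
    · simp only [Complex.add_re, Complex.mul_re, Complex.conj_re, Complex.conj_im,
        Complex.zero_re] at h1 ⊢
      linarith
    · simp only [Complex.add_im, Complex.mul_im, Complex.conj_re, Complex.conj_im,
        Complex.zero_im]
      ring
  have hall := AnalyticOnNhd.eqOn_zero_of_preconnected_of_frequently_eq_zero
    (dG.analyticOnNhd hopen)
    (isConnected_compl_singleton_of_one_lt_rank (by simp) (0 : ℂ)).isPreconnected
    (show (ρ : ℂ) ∈ ({0}ᶜ : Set ℂ) from hρ') (circle_freq hρ hzero)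
  set Y := z - conj l * w - conj m with hYdef
  have hY0 : Y ≠ 0 := by
    intro h0
    rw [h0, mul_zero] at hzw
    exact pow_ne_zero 2 hρ' hzw.symm
  have hX : (ρ : ℂ) ^ 2 / Y = w - l * z - m := by
    rw [div_eq_iff hY0, ← hzw]
  have ez : zY Y = z := by
    simp only [hzY]
    rw [hX, div_eq_iff hκ0, hYdef, hκ]; ring
  have ew : wY Y = w := by
    simp only [hwY]
    rw [hX, div_eq_iff hκ0, hYdef, hκ]; ring
  have := hall (show Y ∈ ({0}ᶜ : Set ℂ) from hY0)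
  simp only [hG, Pi.zero_apply] at this
  rw [ez, ew] at this
  exact this

/-- the small branch -/
lemma branch {l m : ℂ} (hl : ‖l‖ < 1) {ρ : ℝ} (hρ : 0 < ρ) :
    ∃ r₀ K : ℝ, 0 < r₀ ∧ ∀ z : ℂ, r₀ ≤ ‖z‖ → ∃ w X : ℂ, w = l * z + m + X ∧ ‖X‖ ≤ K / ‖z‖ ∧
      X * (z - conj l * w - conj m) = (ρ : ℂ) ^ 2 := by
  have hκ : 0 < 1 - ‖l‖ ^ 2 := by nlinarith [norm_nonneg l]
  refine ⟨4 * ‖m‖ / (1 - ‖l‖ ^ 2) + 1, 4 * ρ ^ 2 / (1 - ‖l‖ ^ 2), by positivity, ?_⟩
  intro z hz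
  have hz0 : 0 < ‖z‖ := lt_of_lt_of_le (by positivity) hz
  set κ : ℂ := 1 - l * conj l with hκd
  have hκr : κ = ((1 - ‖l‖ ^ 2 : ℝ) : ℂ) := by
    rw [hκd, Complex.mul_conj, Complex.normSq_eq_norm_sq]; push_cast; ring
  have hκ0 : κ ≠ 0 := by rw [hκr]; exact Complex.ofReal_ne_zero.2 hκ.ne'
  set Z : ℂ := κ * z - conj m - conj l * m with hZ
  have hZn : (1 - ‖l‖ ^ 2) / 2 * ‖z‖ ≤ ‖Z‖ := by
    have h1 : ‖κ * z‖ ≤ ‖Z‖ + ‖conj m + conj l * m‖ := by
      have : κ * z = Z + (conj m + conj l * m) := by rw [hZ]; ring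
      rw [this]; exact norm_add_le _ _
    have h2 : ‖conj m + conj l * m‖ ≤ 2 * ‖m‖ := by
      refine (norm_add_le _ _).trans ?_
      rw [norm_mul, RCLike.norm_conj, RCLike.norm_conj]
      nlinarith [norm_nonneg m]
    have h3 : ‖κ * z‖ = (1 - ‖l‖ ^ 2) * ‖z‖ := by
      rw [norm_mul, hκr, Complex.norm_real, Real.norm_of_nonneg hκ.le]
    have h4 : 4 * ‖m‖ ≤ (1 - ‖l‖ ^ 2) * ‖z‖ := by
      have : 4 * ‖m‖ / (1 - ‖l‖ ^ 2) ≤ ‖z‖ := by linarith
      rw [div_le_iff₀ hκ] at this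
      linarith
    linarith
  have hZ0 : 0 < ‖Z‖ := lt_of_lt_of_le (by positivity) hZn
  obtain ⟨δ, hδ⟩ := IsAlgClosed.exists_pow_nat_eq (Z ^ 2 - 4 * (conj l * (ρ : ℂ) ^ 2)) (n := 2)
    (by norm_num)
  obtain ⟨Y, hY, hYn⟩ : ∃ Y : ℂ, Y ^ 2 - Z * Y + conj l * (ρ : ℂ) ^ 2 = 0 ∧ ‖Z‖ / 2 ≤ ‖Y‖ := by
    rcases le_total ‖(Z - δ) / 2‖ ‖(Z + δ) / 2‖ with h | h
    · refine ⟨(Z + δ) / 2, by linear_combination hδ / 4, ?_⟩
      have : ‖Z‖ ≤ ‖(Z - δ) / 2‖ + ‖(Z + δ) / 2‖ := by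
        have e : Z = (Z - δ) / 2 + (Z + δ) / 2 := by ring
        conv_lhs => rw [e]
        exact norm_add_le _ _
      linarith
    · refine ⟨(Z - δ) / 2, by linear_combination hδ / 4, ?_⟩
      have : ‖Z‖ ≤ ‖(Z - δ) / 2‖ + ‖(Z + δ) / 2‖ := by
        have e : Z = (Z - δ) / 2 + (Z + δ) / 2 := by ring
        conv_lhs => rw [e]
        exact norm_add_le _ _
      linarith
  have hYp : 0 < ‖Y‖ := by linarith
  have hY0 : Y ≠ 0 := norm_pos_iff.1 hYp
  refine ⟨l * z + m + (ρ : ℂ) ^ 2 / Y, (ρ : ℂ) ^ 2 / Y, rfl, ?_, ?_⟩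
  · rw [norm_div, norm_pow, Complex.norm_real, Real.norm_of_nonneg hρ.le]
    rw [div_le_div_iff₀ hYp hz0]
    have h5 : (1 - ‖l‖ ^ 2) * ‖z‖ ≤ 4 * ‖Y‖ := by linarith
    have e : 4 * ρ ^ 2 / (1 - ‖l‖ ^ 2) * ‖Y‖ = ρ ^ 2 * (4 * ‖Y‖ / (1 - ‖l‖ ^ 2)) := by ring
    rw [e]
    gcongr
    rw [le_div_iff₀ hκ]; linarith
  · have e : z - conj l * (l * z + m + (ρ : ℂ) ^ 2 / Y) - conj m = Y := by
      have h6 : Z * Y - conj l * (ρ : ℂ) ^ 2 = Y ^ 2 := by linear_combination -hY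
      have h7 : z - conj l * (l * z + m + (ρ : ℂ) ^ 2 / Y) - conj m =
          Z - conj l * (ρ : ℂ) ^ 2 / Y := by rw [hZ, hκd]; ring
      rw [h7]
      field_simp
      linear_combination h6
    rw [e]
    field_simp

end Pool.Agent.X92.TE
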