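import Pool.Agent.X92.TE5

/-! Two ellipses: complex form of the theorem -/

set_option autoImplicit false

namespace Pool.Agent.X92.TE

open Finset ComplexConjugate Filter Topology

lemma distinct {l₁ m₁ l₂ m₂ : ℂ} {ρ₁ ρ₂ : ℝ} (h1 : 0 < ρ₁) (h2 : 0 < ρ₂)
    (hne : ¬ (l₁ = l₂ ∧ m₁ = m₂ ∧ ρ₁ = ρ₂)) (K : ℝ) :
    ∃ R : ℝ, ∀ z : ℂ, R ≤ ‖z‖ → ∀ w X₁ X₂ : ℂ, w = l₁ * z + m₁ + X₁ → w = l₂ * z + m₂ + X₂ →
      ‖X₁‖ ≤ K / ‖z‖ → ‖X₂‖ ≤ K / ‖z‖ → X₁ * (z - conj l₁ * w - conj m₁) = (ρ₁ : ℂ) ^ 2 →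
      X₂ * (z - conj l₂ * w - conj m₂) = (ρ₂ : ℂ) ^ 2 → False := by
  by_cases hl : l₁ = l₂
  · subst hl
    by_cases hm : m₁ = m₂
    · subst hm
      refine ⟨0, fun z _ w X₁ X₂ e1 e2 _ _ q1 q2 => ?_⟩
      have hX : X₁ = X₂ := by
        have := e1.symm.trans e2
        linear_combination this
      subst hX
      have h3 : (ρ₁ : ℂ) ^ 2 = (ρ₂ : ℂ) ^ 2 := q1.symm.trans q2
      have h4 : ρ₁ ^ 2 = ρ₂ ^ 2 := by exact_mod_cast h3
      exact hne ⟨rfl, rfl, (sq_eq_sq₀ h1.le h2.le).1 h4⟩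
    · have hd : 0 < ‖m₁ - m₂‖ := norm_pos_iff.2 (sub_ne_zero.2 hm)
      refine ⟨2 * |K| / ‖m₁ - m₂‖ + 1, fun z hz w X₁ X₂ e1 e2 n1 n2 _ _ => ?_⟩
      have hz0 : 0 < ‖z‖ := lt_of_lt_of_le (by positivity) hz
      have e : m₁ - m₂ = X₂ - X₁ := by
        have := e1.symm.trans e2
        linear_combination this
      have h3 : ‖m₁ - m₂‖ ≤ K / ‖z‖ + K / ‖z‖ := by
        rw [e]; exact (norm_sub_le _ _).trans (by linarith)
      have h4 : ‖m₁ - m₂‖ * ‖z‖ ≤ 2 * K := by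
        have h5 : K / ‖z‖ + K / ‖z‖ = 2 * K / ‖z‖ := by ring
        rw [h5, le_div_iff₀ hz0] at h3
        exact h3
      have h6 : 2 * |K| / ‖m₁ - m₂‖ < ‖z‖ := by linarith
      rw [div_lt_iff₀ hd] at h6
      linarith [le_abs_self K]
  · have hd : 0 < ‖l₁ - l₂‖ := norm_pos_iff.2 (sub_ne_zero.2 hl)
    refine ⟨(‖m₁ - m₂‖ + 2 * |K|) / ‖l₁ - l₂‖ + 1, fun z hz w X₁ X₂ e1 e2 n1 n2 _ _ => ?_⟩
    have hz1 : 1 ≤ ‖z‖ := by
      have : 0 ≤ (‖m₁ - m₂‖ + 2 * |K|) / ‖l₁ - l₂‖ := by positivity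
      linarith
    have hz0 : 0 < ‖z‖ := by linarith
    have hK : K / ‖z‖ ≤ |K| := by
      rw [div_le_iff₀ hz0]
      nlinarith [le_abs_self K, abs_nonneg K]
    have e : (l₁ - l₂) * z = - (m₁ - m₂) + (X₂ - X₁) := by
      have := e1.symm.trans e2
      linear_combination this
    have h3 : ‖l₁ - l₂‖ * ‖z‖ ≤ ‖m₁ - m₂‖ + 2 * |K| := by
      rw [← norm_mul, e]
      refine (norm_add_le _ _).trans ?_
      rw [norm_neg]
      have := norm_sub_le X₂ X₁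
      linarith
    have h6 : (‖m₁ - m₂‖ + 2 * |K|) / ‖l₁ - l₂‖ < ‖z‖ := by linarith
    rw [div_lt_iff₀ hd] at h6
    linarith

theorem complex_form {f g : ℂ → ℂ} (hf : Differentiable ℂ f) (hg : Differentiable ℂ g)
    {l₁ m₁ l₂ m₂ : ℂ} {ρ₁ ρ₂ : ℝ} (hl₁ : ‖l₁‖ < 1) (hl₂ : ‖l₂‖ < 1) (h1 : 0 < ρ₁) (h2 : 0 < ρ₂)
    (hne : ¬ (l₁ = l₂ ∧ m₁ = m₂ ∧ ρ₁ = ρ₂))
    (v1 : ∀ z : ℂ, ‖conj z - l₁ * z - m₁‖ = ρ₁ → (conj z * f z + g z).re = 0)
    (v2 : ∀ z : ℂ, ‖conj z - l₂ * z - m₂‖ = ρ₂ → (conj z * f z + g z).re = 0) :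
    ∀ z : ℂ, (conj z * f z + g z).re = 0 := by
  obtain ⟨r₁, K₁, hr₁, H1⟩ := branch (m := m₁) hl₁ h1
  obtain ⟨r₂, K₂, hr₂, H2⟩ := branch (m := m₂) hl₂ h2
  choose! A X hA hX hAX using H1
  choose! B Y hB hY hBY using H2
  set K := max K₁ K₂ with hK
  obtain ⟨R, hR⟩ := distinct h1 h2 hne K
  set r₀ := max (max r₁ r₂) (max R 1) with hr₀
  have b1 : r₁ ≤ r₀ := (le_max_left _ _).trans (le_max_left _ _)
  have b2 : r₂ ≤ r₀ := (le_max_right _ _).trans (le_max_left _ _)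
  have b3 : R ≤ r₀ := (le_max_left _ _).trans (le_max_right _ _)
  have b4 : 1 ≤ r₀ := (le_max_right _ _).trans (le_max_right _ _)
  have kz : ∀ (K' : ℝ) (z : ℂ), r₀ ≤ ‖z‖ → K' ≤ K → K' / ‖z‖ ≤ K / ‖z‖ := by
    intro K' z hz hK'
    have : 0 < ‖z‖ := by linarith
    gcongr
  have ka : ∀ (z : ℂ), r₀ ≤ ‖z‖ → K / ‖z‖ ≤ |K| := by
    intro z hz
    have : 0 < ‖z‖ := by linarith
    rw [div_le_iff₀ this]
    nlinarith [le_abs_self K, abs_nonneg K]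
  refine core hf hg hl₁ hl₂ (r₀ := r₀) (C := ‖m₁‖ + ‖m₂‖ + |K|) (by linarith) A B ?_ ?_ ?_ ?_ ?_
  · intro z hz
    have e : A z - l₁ * z = m₁ + X z := by
      have := hA z (b1.trans hz)
      linear_combination this
    rw [e]
    refine (norm_add_le _ _).trans ?_
    have := hX z (b1.trans hz)
    linarith [kz K₁ z hz (le_max_left _ _), ka z hz, norm_nonneg m₂]
  · intro z hz
    have e : B z - l₂ * z = m₂ + Y z := by
      have := hB z (b2.trans hz)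
      linear_combination this
    rw [e]
    refine (norm_add_le _ _).trans ?_
    have := hY z (b2.trans hz)
    linarith [kz K₂ z hz (le_max_right _ _), ka z hz, norm_nonneg m₁]
  · intro z hz h
    refine hR z (b3.trans hz) (A z) (X z) (Y z) (hA z (b1.trans hz)) ?_ ?_ ?_
      (hAX z (b1.trans hz)) ?_
    · rw [h]; exact hB z (b2.trans hz)
    · exact (hX z (b1.trans hz)).trans (kz K₁ z hz (le_max_left _ _))
    · exact (hY z (b2.trans hz)).trans (kz K₂ z hz (le_max_right _ _))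
    · rw [h]; exact hBY z (b2.trans hz)
  · intro z hz
    apply complexify hf hg hl₁ h1 v1
    have e : A z - l₁ * z - m₁ = X z := by
      have := hA z (b1.trans hz)
      linear_combination this
    rw [e]
    exact hAX z (b1.trans hz)
  · intro z hz
    apply complexify hf hg hl₂ h2 v2
    have e : B z - l₂ * z - m₂ = Y z := by
      have := hB z (b2.trans hz)
      linear_combination this
    rw [e]
    exact hBY z (b2.trans hz)

end Pool.Agent.X92.TE
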