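import Pool.Agent.X92.TE6

/-! Two ellipses: representation of biharmonic functions -/

set_option autoImplicit false

namespace Pool.Agent.X92.TE

open ComplexConjugate Filter Topology InnerProductSpace Laplacian

lemma fd_formula {f F : ℂ → ℂ} (hf : ∀ z, HasDerivAt f (F z) z) (z e : ℂ) :
    HasFDerivAt (fun z => (conj z * f z).re)
      (Complex.reCLM.comp ((conj z) • ((F z) • (1 : ℂ →L[ℝ] ℂ)) +
        (f z) • (Complex.conjCLE : ℂ →L[ℝ] ℂ))) z := by
  have h1 : HasFDerivAt (fun z : ℂ => conj z) (Complex.conjCLE : ℂ →L[ℝ] ℂ) z :=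
    Complex.conjCLE.hasFDerivAt
  have h2 : HasFDerivAt f ((F z) • (1 : ℂ →L[ℝ] ℂ)) z := (hf z).complexToReal_fderiv
  have h3 := h1.mul h2
  exact Complex.reCLM.hasFDerivAt.comp z h3

lemma w_contDiff {f F : ℂ → ℂ} (hf : ∀ z, HasDerivAt f (F z) z) :
    ContDiff ℝ 2 (fun z => (conj z * f z).re) := by
  have h1 : ContDiff ℝ 2 (fun z : ℂ => conj z) := Complex.conjCLE.contDiff
  have h2 : ContDiff ℝ 2 f := by
    have : Differentiable ℂ f := fun z => (hf z).differentiableAt
    exact (this.contDiff (n := 2)).restrict_scalars ℝ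
  exact Complex.reCLM.contDiff.comp (h1.mul h2)

lemma second {f F : ℂ → ℂ} (hf : ∀ z, HasDerivAt f (F z) z) (hF : Differentiable ℂ F) (z e : ℂ) :
    iteratedFDeriv ℝ 2 (fun z => (conj z * f z).re) z ![e, e] =
      (2 * (conj e * (F z * e)) + conj z * (deriv F z * e * e)).re := by
  rw [iteratedFDeriv_two_apply]
  simp only [Matrix.cons_val_zero, Matrix.cons_val_one]
  set w : ℂ → ℝ := fun z => (conj z * f z).re with hw
  have hd : DifferentiableAt ℝ (fderiv ℝ w) z :=
    ((w_contDiff hf).fderiv_right (m := 1) (by norm_num)).differentiable (by norm_num) z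
  have h1 : HasFDerivAt (fun x => fderiv ℝ w x e)
      ((ContinuousLinearMap.apply ℝ ℝ e).comp (fderiv ℝ (fderiv ℝ w) z)) z :=
    (ContinuousLinearMap.apply ℝ ℝ e).hasFDerivAt.comp z hd.hasFDerivAt
  have h2 : (fun x => fderiv ℝ w x e) = fun x => (conj x * (F x * e) + f x * conj e).re := by
    ext x
    rw [(fd_formula hf x e).fderiv]
    simp
  have h3 : HasFDerivAt (fun x : ℂ => (conj x * (F x * e) + f x * conj e).re)
      (Complex.reCLM.comp (((conj z) • ((deriv F z * e) • (1 : ℂ →L[ℝ] ℂ)) +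
        (F z * e) • (Complex.conjCLE : ℂ →L[ℝ] ℂ)) + ((F z * conj e) • (1 : ℂ →L[ℝ] ℂ)))) z := by
    have a1 : HasFDerivAt (fun z : ℂ => conj z) (Complex.conjCLE : ℂ →L[ℝ] ℂ) z :=
      Complex.conjCLE.hasFDerivAt
    have a2 : HasFDerivAt (fun x => F x * e) ((deriv F z * e) • (1 : ℂ →L[ℝ] ℂ)) z :=
      ((hF z).hasDerivAt.mul_const e).complexToReal_fderiv
    have a3 : HasFDerivAt (fun x => f x * conj e) ((F z * conj e) • (1 : ℂ →L[ℝ] ℂ)) z :=
      ((hf z).mul_const (conj e)).complexToReal_fderiv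
    exact Complex.reCLM.hasFDerivAt.comp z ((a1.mul a2).add a3)
  rw [← h2] at h3
  have h4 := h1.unique h3
  have h5 := congrArg (fun L : ℂ →L[ℝ] ℝ => L e) h4
  simp only [ContinuousLinearMap.comp_apply, ContinuousLinearMap.apply_apply,
    add_apply, smul_apply, one_apply_eq_self] at h5
  rw [h5]
  simp only [Complex.reCLM_apply, smul_eq_mul]
  congr 1
  have : (Complex.conjCLE : ℂ →L[ℝ] ℂ) e = conj e := rfl
  rw [this]
  ring

lemma lap_w {f F : ℂ → ℂ} (hf : ∀ z, HasDerivAt f (F z) z) (hF : Differentiable ℂ F) (z : ℂ) :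
    (Δ (fun z => (conj z * f z).re)) z = 4 * (F z).re := by
  rw [laplacian_eq_iteratedFDeriv_complexPlane]
  simp only
  rw [second hf hF, second hf hF, ← Complex.add_re]
  have : 2 * (conj (1 : ℂ) * (F z * 1)) + conj z * (deriv F z * 1 * 1) +
      (2 * (conj Complex.I * (F z * Complex.I)) + conj z * (deriv F z * Complex.I * Complex.I)) =
      4 * F z := by
    rw [map_one, Complex.conj_I]
    linear_combination (-2 * F z + conj z * deriv F z) * Complex.I_mul_I
  rw [this]
  simp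

/-- biharmonic functions on the plane -/
lemma rep {v : ℂ → ℝ} (hv : ContDiff ℝ 4 v) (h : ∀ z, (Δ (Δ v)) z = 0) :
    ∃ f g : ℂ → ℂ, Differentiable ℂ f ∧ Differentiable ℂ g ∧
      ∀ z, v z = (conj z * f z + g z).re := by
  have c2 : ContDiff ℝ 2 (Δ v) := by
    rw [laplacian_eq_iteratedFDeriv_complexPlane]
    have h1 : ContDiff ℝ 2 (iteratedFDeriv ℝ 2 v) := hv.iteratedFDeriv_right (by norm_num)
    have h2 : ∀ m : Fin 2 → ℂ, ContDiff ℝ 2 (fun x => iteratedFDeriv ℝ 2 v x m) := by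
      intro m
      exact (ContinuousMultilinearMap.apply ℝ (fun _ : Fin 2 => ℂ) ℝ m).contDiff.comp h1
    exact (h2 _).add (h2 _)
  have harm : HarmonicOnNhd (Δ v) Set.univ := by
    intro x _
    exact ⟨c2.contDiffAt, Eventually.of_forall h⟩
  obtain ⟨F, hF, hFv⟩ := InnerProductSpace.HarmonicOnNhd.exists_analyticOnNhd_univ_re_eq harm
  have dF : Differentiable ℂ F := fun z => (hF z (Set.mem_univ z)).differentiableAt
  have dF4 : Differentiable ℂ (fun z => F z / 4) := dF.div_const 4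
  obtain ⟨f, hf⟩ := dF4.isExactOn_univ
  have hf' : ∀ z, HasDerivAt f (F z / 4) z := fun z => hf z (Set.mem_univ z)
  set w : ℂ → ℝ := fun z => (conj z * f z).re with hw
  have cw : ContDiff ℝ 2 w := w_contDiff hf'
  have cv : ContDiff ℝ 2 v := hv.of_le (by norm_num)
  have harm2 : HarmonicOnNhd (v - w) Set.univ := by
    intro x _
    refine ⟨(cv.sub cw).contDiffAt, Eventually.of_forall fun z => ?_⟩
    rw [ContDiffAt.laplacian_sub cv.contDiffAt cw.contDiffAt, hw, lap_w hf' dF4,
      ← congrFun hFv z]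
    simp only [Pi.zero_apply]
    have : (F z / 4).re = (F z).re / 4 := by
      rw [show (4 : ℂ) = ((4 : ℝ) : ℂ) by norm_num, Complex.div_ofReal_re]
    rw [this]; ring
  obtain ⟨g, hg, hgv⟩ := InnerProductSpace.HarmonicOnNhd.exists_analyticOnNhd_univ_re_eq harm2
  refine ⟨f, g, fun z => (hf' z).differentiableAt, fun z => (hg z (Set.mem_univ z)).differentiableAt,
    fun z => ?_⟩
  have := congrFun hgv z
  simp only [Pi.sub_apply] at this
  rw [Complex.add_re, this, hw]
  ring

end Pool.Agent.X92.TE
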