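import Pool.Agent.X92.TE7

/-! Two ellipses: transfer to the Euclidean plane -/

set_option autoImplicit false

namespace Pool.Agent.X92.TE

open ComplexConjugate Filter Topology InnerProductSpace Laplacian

/-- identification of the plane with `ℂ` -/
noncomputable def ee : ℂ ≃ₗᵢ[ℝ] EuclideanSpace ℝ (Fin 2) := Complex.orthonormalBasisOneI.repr

lemma ee_zero (z : ℂ) : ee z 0 = z.re := by simp [ee]

lemma ee_one (z : ℂ) : ee z 1 = z.im := by simp [ee]

lemma lap_comp (u : EuclideanSpace ℝ (Fin 2) → ℝ) :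
    Δ (fun z => u (ee z)) = fun z => (Δ u) (ee z) := by
  ext z
  rw [laplacian_eq_iteratedFDeriv_orthonormalBasis (fun z => u (ee z)) Complex.orthonormalBasisOneI,
    laplacian_eq_iteratedFDeriv_orthonormalBasis u (Complex.orthonormalBasisOneI.map ee)]
  apply Finset.sum_congr rfl
  intro i _
  have h := ee.toContinuousLinearEquiv.iteratedFDerivWithin_comp_right u (s := Set.univ)
    uniqueDiffOn_univ (x := z) (Set.mem_univ _) 2
  rw [Set.preimage_univ, iteratedFDerivWithin_univ, iteratedFDerivWithin_univ] at h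
  have h2 : (fun z => u (ee z)) = u ∘ ee.toContinuousLinearEquiv := rfl
  rw [h2, h]
  simp only [ContinuousMultilinearMap.compContinuousLinearMap_apply]
  congr 1
  ext j
  fin_cases j <;> rfl

lemma ellipse_param (c : EuclideanSpace ℝ (Fin 2)) (A : Matrix (Fin 2) (Fin 2) ℝ) (hA : A.PosDef) :
    ∃ (l m : ℂ) (ρ : ℝ), ‖l‖ < 1 ∧ 0 < ρ ∧ ∀ z : ℂ,
      (∑ i, ∑ j, (ee z i - c i) * A i j * (ee z j - c j) = 1 ↔ ‖conj z - l * z - m‖ = ρ) := by
  have hdet := hA.det_pos
  rw [Matrix.det_fin_two] at hdet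
  have hsym : A 1 0 = A 0 1 := by
    have := hA.isHermitian.apply 0 1
    simpa using this
  rw [hsym] at hdet
  have h00 : 0 < A 0 0 := hA.diag_pos
  have h11 : 0 < A 1 1 := hA.diag_pos
  set P : ℝ := (A 0 0 + A 1 1) / 2 with hP
  set k₁ : ℝ := (A 0 0 - A 1 1) / 2 with hk₁
  set D : ℝ := Real.sqrt (A 0 0 * A 1 1 - A 0 1 * A 0 1) with hD
  have hD0 : 0 < D := Real.sqrt_pos.2 hdet
  have hD2 : D ^ 2 = A 0 0 * A 1 1 - A 0 1 * A 0 1 := Real.sq_sqrt hdet.le
  have hP0 : 0 < P := by rw [hP]; linarith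
  set s : ℝ := (P + D) / 2 with hs
  have hs0 : 0 < s := by rw [hs]; linarith
  have hPD : P ^ 2 - (k₁ ^ 2 + A 0 1 ^ 2) = D ^ 2 := by rw [hD2, hP, hk₁]; ring
  set l : ℂ := ⟨-k₁ / (2 * s), A 0 1 / (2 * s)⟩ with hl
  have l1 : 2 * s * l.re = -k₁ := by rw [hl]; field_simp
  have l2 : 2 * s * l.im = A 0 1 := by rw [hl]; field_simp
  have hln : (2 * s) ^ 2 * ‖l‖ ^ 2 = k₁ ^ 2 + A 0 1 ^ 2 := by
    rw [Complex.sq_norm, Complex.normSq_apply]
    linear_combination (2 * s * l.re - k₁) * l1 + (2 * s * l.im + A 0 1) * l2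
  have hl1 : ‖l‖ < 1 := by
    have h1 : (2 * s) ^ 2 * ‖l‖ ^ 2 < (2 * s) ^ 2 := by
      rw [hln]
      have : 2 * s = P + D := by rw [hs]; ring
      rw [this]
      nlinarith
    have h2 : ‖l‖ ^ 2 < 1 := by
      have h3 : 0 < (2 * s) ^ 2 := by positivity
      by_contra hcon
      push Not at hcon
      nlinarith
    nlinarith [norm_nonneg l]
  have hsP : s * (1 + (l.re ^ 2 + l.im ^ 2)) = P := by
    have h1 : ‖l‖ ^ 2 = l.re ^ 2 + l.im ^ 2 := by
      rw [Complex.sq_norm, Complex.normSq_apply]; ring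
    rw [← h1]
    have h2 : s ≠ 0 := hs0.ne'
    have h3 : 4 * s ^ 2 - 4 * s * P + (k₁ ^ 2 + A 0 1 ^ 2) = 0 := by
      rw [hs]; linear_combination -hPD
    have h4 : s * (s * (1 + ‖l‖ ^ 2) - P) = 0 := by
      linear_combination (1 / 4) * h3 + (1 / 4) * hln
    rcases mul_eq_zero.1 h4 with h | h
    · exact absurd h h2
    · linarith
  set c' : ℂ := ⟨c 0, c 1⟩ with hc'
  refine ⟨l, conj c' - l * c', 1 / Real.sqrt s, hl1, by positivity, ?_⟩
  intro z
  have e1 : ∑ i, ∑ j, (ee z i - c i) * A i j * (ee z j - c j) =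
      s * ‖conj z - l * z - (conj c' - l * c')‖ ^ 2 := by
    simp only [Fin.sum_univ_two]
    rw [ee_zero, ee_one, hsym, Complex.sq_norm, Complex.normSq_apply]
    simp only [Complex.sub_re, Complex.sub_im, Complex.mul_re, Complex.mul_im, Complex.conj_re,
      Complex.conj_im, hc']
    have a00 : A 0 0 = P + k₁ := by rw [hP, hk₁]; ring
    have a11 : A 1 1 = P - k₁ := by rw [hP, hk₁]; ring
    rw [a00, a11]
    set p := z.re
    set q := z.im
    linear_combination (-((p - c 0) ^ 2 + (q - c 1) ^ 2)) * hsP +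
      ((p - c 0) ^ 2 - (q - c 1) ^ 2) * l1 - 2 * (p - c 0) * (q - c 1) * l2
  rw [e1]
  have hsq : 0 < Real.sqrt s := Real.sqrt_pos.2 hs0
  have hsq2 : Real.sqrt s ^ 2 = s := Real.sq_sqrt hs0.le
  set N := ‖conj z - l * z - (conj c' - l * c')‖ with hN
  have hN0 : 0 ≤ N := norm_nonneg _
  constructor
  · intro h
    have h1 : (Real.sqrt s * N) ^ 2 = 1 ^ 2 := by rw [mul_pow, hsq2, h]; norm_num
    have h2 : Real.sqrt s * N = 1 := (sq_eq_sq₀ (by positivity) (by norm_num)).1 h1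
    field_simp
    linarith
  · intro h
    rw [h]
    field_simp
    rw [hsq2]

end Pool.Agent.X92.TE
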