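import Mathlib

/-!
# Dyadic group, Walsh functions, martingale Hardy spaces, Nörlund means

Shared definitions and the main lower estimate for the endpoint problems on Walsh–Cesàro and
`U^α` means.
-/

open MeasureTheory Filter Topology Finset
open scoped ENNReal NNReal

noncomputable section

namespace Pool.Agent.X92.Walsh

/-- The dyadic group `{0,1}^ℕ`. -/
abbrev G := ℕ → Bool

/-- The fair coin. -/
def coin : Measure Bool := (2⁻¹ : ℝ≥0∞) • (Measure.dirac true + Measure.dirac false)

instance : IsProbabilityMeasure coin := by
  constructor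
  unfold coin
  simp only [Measure.smul_apply, Measure.add_apply, measure_univ, smul_eq_mul]
  rw [one_add_one_eq_two]
  exact ENNReal.inv_mul_cancel (by norm_num) (by norm_num)

/-- The product probability measure on `{0,1}^ℕ`. -/
def mu : Measure G := Measure.infinitePi (fun _ => coin)

instance : IsProbabilityMeasure mu := by unfold mu; infer_instance

/-- The dyadic cylinder `I_n(x) = {y : y_j = x_j for j < n}`. -/
def cyl (n : ℕ) (x : G) : Set G := {y | ∀ j < n, y j = x j}

lemma measurableSet_cyl (n : ℕ) (x : G) : MeasurableSet (cyl n x) := by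
  have : cyl n x = ⋂ j ∈ Set.Iio n, (fun y : G => y j) ⁻¹' {x j} := by
    ext y; simp [cyl]
  rw [this]
  exact MeasurableSet.biInter (Set.to_countable _)
    (fun j _ => (measurable_pi_apply j) (measurableSet_singleton _))

/-- The filtration `F_n`, generated by the cylinders `I_n(x)`. -/
def Fil : Filtration ℕ (inferInstance : MeasurableSpace G) where
  seq n := MeasurableSpace.generateFrom (Set.range (cyl n))
  mono' := by
    intro m n hmn
    apply MeasurableSpace.generateFrom_le
    rintro _ ⟨x, rfl⟩
    have hcover : cyl m x = ⋃ s ∈ {s | s ∈ Set.range (cyl n) ∧ s ⊆ cyl m x}, s := by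
      ext y
      simp only [Set.mem_iUnion, exists_prop]
      constructor
      · intro hy
        refine ⟨cyl n y, ⟨⟨y, rfl⟩, ?_⟩, fun j _ => rfl⟩
        intro z hz j hj
        rw [hz j (lt_of_lt_of_le hj hmn), hy j hj]
      · rintro ⟨s, ⟨_, hs⟩, hy⟩
        exact hs hy
    rw [hcover]
    have hfin : (Set.range (cyl n)).Finite := by
      have h1 : Set.range (cyl n) = Set.range (fun a : Fin n → Bool =>
          cyl n (fun j => if h : j < n then a ⟨j, h⟩ else false)) := by
        ext s
        constructor
        · rintro ⟨y, rfl⟩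
          refine ⟨fun i => y i, ?_⟩
          ext z
          simp only [cyl]
          constructor
          · intro h j hj
            have := h j hj
            simpa [hj] using this
          · intro h j hj
            have := h j hj
            simpa [hj] using this
        · rintro ⟨a, rfl⟩
          exact ⟨_, rfl⟩
      rw [h1]
      exact Set.finite_range _
    apply MeasurableSet.biUnion
    · exact (hfin.subset (fun s hs => hs.1)).countable
    · rintro s ⟨hs, _⟩
      exact MeasurableSpace.measurableSet_generateFrom hs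
  le' := by
    intro n
    apply MeasurableSpace.generateFrom_le
    rintro _ ⟨x, rfl⟩
    exact measurableSet_cyl n x

/-- Rademacher functions `r_k(x) = (-1)^{x_k}`. -/
def rad (k : ℕ) (x : G) : ℝ := if x k then -1 else 1

/-- Walsh functions `w_n = ∏_k r_k^{n_k}`, `n_k` the binary digits of `n` (digits at positions
`≥ n` vanish). -/
def wal (n : ℕ) (x : G) : ℝ := ∏ k ∈ range n, if n.testBit k then rad k x else 1

/-- Walsh–Fourier coefficients of a martingale, `lim_k ∫ f^{(k)} w_i`. -/
def coef (f : ℕ → G → ℝ) (i : ℕ) : ℝ := limUnder atTop (fun k => ∫ x, f k x * wal i x ∂mu)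

/-- Partial sums `S_k f`. -/
def psum (f : ℕ → G → ℝ) (k : ℕ) (x : G) : ℝ := ∑ i ∈ range k, coef f i * wal i x

/-- `‖g‖_p`. -/
def lpNorm (p : ℝ) (g : G → ℝ) : ℝ≥0∞ := (∫⁻ x, ‖g x‖ₑ ^ p ∂mu) ^ (1 / p)

/-- `‖f‖_{H_p} = ‖sup_n |f^{(n)}|‖_p`. -/
def hpNorm (p : ℝ) (f : ℕ → G → ℝ) : ℝ≥0∞ := (∫⁻ x, (⨆ n, ‖f n x‖ₑ) ^ p ∂mu) ^ (1 / p)

/-- The martingale Hardy space `H_p`. -/
def MemHp (p : ℝ) (f : ℕ → G → ℝ) : Prop := Martingale f Fil mu ∧ hpNorm p f < ⊤

/-! ### Basic facts -/

lemma rad_sq (k : ℕ) (x : G) : rad k x * rad k x = 1 := by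
  unfold rad; split_ifs <;> norm_num

lemma abs_rad (k : ℕ) (x : G) : |rad k x| = 1 := by
  unfold rad; split_ifs <;> norm_num

lemma wal_eq {n K : ℕ} (h : n < 2 ^ K) (x : G) :
    wal n x = ∏ k ∈ range K, if n.testBit k then rad k x else 1 := by
  unfold wal
  have key : ∀ a b : ℕ, a ≤ b → (∀ k, a ≤ k → n.testBit k = false) →
      ∏ k ∈ range a, (if n.testBit k then rad k x else 1)
        = ∏ k ∈ range b, (if n.testBit k then rad k x else 1) := by
    intro a b hab hz
    apply prod_subset (range_mono hab)
    intro k _ hk
    rw [hz k (by simpa using hk)]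
    simp
  have hK : ∀ k, K ≤ k → n.testBit k = false := fun k hk =>
    Nat.testBit_eq_false_of_lt (lt_of_lt_of_le h (Nat.pow_le_pow_right (by norm_num) hk))
  have hn : ∀ k, n ≤ k → n.testBit k = false := fun k hk =>
    Nat.testBit_eq_false_of_lt (lt_of_lt_of_le Nat.lt_two_pow_self
      (Nat.pow_le_pow_right (by norm_num) hk))
  rcases le_total n K with h' | h'
  · exact key n K h' hn
  · exact (key K n h' hK).symm

lemma abs_wal (n : ℕ) (x : G) : |wal n x| = 1 := by
  unfold wal
  rw [Finset.abs_prod]
  apply prod_eq_one
  intro k _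
  split_ifs
  · exact abs_rad k x
  · exact abs_one

lemma wal_zero (x : G) : wal 0 x = 1 := by simp [wal]

lemma wal_xor (m n : ℕ) (x : G) : wal (m ^^^ n) x = wal m x * wal n x := by
  obtain ⟨K, hm, hn⟩ : ∃ K, m < 2 ^ K ∧ n < 2 ^ K := by
    refine ⟨m + n, ?_, ?_⟩
    · exact lt_of_lt_of_le Nat.lt_two_pow_self (Nat.pow_le_pow_right (by norm_num) (by omega))
    · exact lt_of_lt_of_le Nat.lt_two_pow_self (Nat.pow_le_pow_right (by norm_num) (by omega))
  rw [wal_eq hm, wal_eq hn, wal_eq (Nat.xor_lt_two_pow hm hn), ← prod_mul_distrib]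
  apply prod_congr rfl
  intro k _
  rw [Nat.testBit_xor]
  have := rad_sq k x
  cases m.testBit k <;> cases n.testBit k <;> simp [this]

/-- splitting off the low bits -/
lemma wal_split {u l : ℕ} (hu : u < 2 ^ l) (t : ℕ) (x : G) :
    wal (u + 2 ^ l * t) x = wal u x * wal t (fun k => x (k + l)) := by
  have ht : t < 2 ^ t := Nat.lt_two_pow_self
  have h1 : u + 2 ^ l * t < 2 ^ (l + t) := by
    rw [pow_add]
    have : 2 ^ l * (t + 1) ≤ 2 ^ l * 2 ^ t := Nat.mul_le_mul_left _ ht
    nlinarith
  rw [wal_eq h1, wal_eq hu, wal_eq ht, prod_range_add]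
  congr 1
  · apply prod_congr rfl
    intro k hk
    have hk' : k < l := mem_range.mp hk
    have : (u + 2 ^ l * t).testBit k = u.testBit k := by
      rw [add_comm, Nat.testBit_two_pow_mul_add _ hu, if_pos hk']
    rw [this]
  · apply prod_congr rfl
    intro k _
    have : (u + 2 ^ l * t).testBit (l + k) = t.testBit k := by
      rw [add_comm, Nat.testBit_two_pow_mul_add _ hu, if_neg (by omega)]
      congr 1
      omega
    rw [this]
    simp only [rad, add_comm l k]

lemma measurable_rad (k : ℕ) : Measurable (rad k) := by
  unfold rad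
  have h : MeasurableSet {a : G | a k = true} :=
    measurableSet_eq_fun (measurable_pi_apply k) measurable_const
  exact Measurable.ite h measurable_const measurable_const

lemma measurable_wal (n : ℕ) : Measurable (wal n) := by
  unfold wal
  apply Finset.measurable_prod
  intro k _
  split_ifs
  · exact measurable_rad k
  · exact measurable_const

/-- flipping one coordinate -/
def flip (k : ℕ) (x : G) : G := fun i => if i = k then !(x i) else x i

lemma measurePreserving_flip (k : ℕ) : MeasurePreserving (flip k) mu mu := by
  have hm : ∀ i : ℕ, Measurable (fun b : Bool => if i = k then !b else b) := fun i =>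
    measurable_from_top
  refine ⟨?_, ?_⟩
  · exact measurable_pi_lambda _ (fun i => (hm i).comp (measurable_pi_apply i))
  · have h := Measure.infinitePi_map_pi (μ := fun _ : ℕ => coin)
      (f := fun i (b : Bool) => if i = k then !b else b) hm
    unfold mu
    refine Eq.trans h ?_
    congr 1
    funext i
    split_ifs with hi
    · unfold coin
      rw [Measure.map_smul, Measure.map_add _ _ measurable_from_top,
        Measure.map_dirac' measurable_from_top, Measure.map_dirac' measurable_from_top]
      simp [add_comm]
    · exact Measure.map_id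

lemma integrable_of_bound {g : G → ℝ} (hg : Measurable g) {C : ℝ} (h : ∀ x, |g x| ≤ C) :
    Integrable g mu := by
  apply Integrable.mono' (integrable_const C) hg.aestronglyMeasurable
  filter_upwards with x
  exact h x

lemma integrable_wal (n : ℕ) : Integrable (wal n) mu :=
  integrable_of_bound (measurable_wal n) (C := 1) (fun x => (abs_wal n x).le)

lemma wal_flip {n k : ℕ} (h : n.testBit k = true) (x : G) : wal n (flip k x) = - wal n x := by
  have hk : k < n := by
    by_contra hcon
    push Not at hcon
    have : n.testBit k = false := Nat.testBit_eq_false_of_lt (lt_of_lt_of_le Nat.lt_two_pow_self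
      (Nat.pow_le_pow_right (by norm_num) hcon))
    rw [this] at h
    exact absurd h (by simp)
  unfold wal
  rw [← mul_prod_erase (range n) _ (mem_range.mpr hk), ← mul_prod_erase (range n) _
    (mem_range.mpr hk), ← neg_mul]
  congr 1
  · rw [if_pos h, if_pos h]
    simp only [rad, flip, if_true]
    cases x k <;> simp
  · apply prod_congr rfl
    intro i hi
    have : i ≠ k := ne_of_mem_erase hi
    simp only [rad, flip, this, if_false]

lemma integral_wal {n : ℕ} (hn : n ≠ 0) : ∫ x, wal n x ∂mu = 0 := by
  obtain ⟨k, hk⟩ := Nat.exists_testBit_of_ne_zero hn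
  have h1 : ∫ x, wal n (flip k x) ∂mu = ∫ x, wal n x ∂mu := by
    have hmp := measurePreserving_flip k
    rw [← integral_map hmp.measurable.aemeasurable (measurable_wal n).aestronglyMeasurable,
      hmp.map_eq]
  have h2 : ∫ x, wal n (flip k x) ∂mu = - ∫ x, wal n x ∂mu := by
    rw [← integral_neg]
    congr 1
    funext x
    exact wal_flip hk x
  linarith

lemma integral_wal_mul (m n : ℕ) :
    ∫ x, wal m x * wal n x ∂mu = if m = n then 1 else 0 := by
  simp_rw [← wal_xor]
  split_ifs with h
  · subst h
    simp [wal_zero]
  · apply integral_wal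
    intro h0
    exact h (Nat.xor_eq_zero_iff.mp h0)

/-- The Dirichlet kernel identity. -/
lemma sum_wal (n : ℕ) (e x : G) :
    ∑ s ∈ range (2 ^ n), wal s e * wal s x = Set.indicator (cyl n e) (fun _ => (2 : ℝ) ^ n) x := by
  induction n with
  | zero =>
    have : x ∈ cyl 0 e := fun j hj => absurd hj (by omega)
    rw [Set.indicator_of_mem this]
    simp [wal_zero]
  | succ n ih =>
    have h1 : ∀ y : G, ∀ s ∈ range (2 ^ n), wal (2 ^ n + s) y = wal s y * rad n y := by
      intro y s hs
      have h2 := wal_split (u := s) (l := n) (mem_range.mp hs) 1 y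
      rw [mul_one, add_comm] at h2
      rw [h2]
      congr 1
      simp [wal, rad]
    rw [pow_succ, mul_two, sum_range_add]
    have h3 : ∑ s ∈ range (2 ^ n), wal (2 ^ n + s) e * wal (2 ^ n + s) x
        = rad n e * rad n x * ∑ s ∈ range (2 ^ n), wal s e * wal s x := by
      rw [mul_sum]
      apply sum_congr rfl
      intro s hs
      rw [h1 e s hs, h1 x s hs]
      ring
    rw [h3, ih]
    by_cases hx : x ∈ cyl n e
    · rw [Set.indicator_of_mem hx]
      by_cases hn : x n = e n
      · have hx' : x ∈ cyl (n + 1) e := by
          intro j hj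
          rcases Nat.lt_succ_iff_lt_or_eq.mp hj with h | h
          · exact hx j h
          · rw [h, hn]
        rw [Set.indicator_of_mem hx']
        have : rad n e * rad n x = 1 := by
          unfold rad; rw [hn]; exact rad_sq n e
        rw [this]
        ring
      · have hx' : x ∉ cyl (n + 1) e := fun h => hn (h n (by omega))
        rw [Set.indicator_of_notMem hx']
        have : rad n e * rad n x = -1 := by
          unfold rad
          cases h1 : x n <;> cases h2 : e n <;> simp [h1, h2] at hn ⊢
        rw [this]
        ring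
    · have hx' : x ∉ cyl (n + 1) e := fun h => hx (fun j hj => h j (by omega))
      rw [Set.indicator_of_notMem hx, Set.indicator_of_notMem hx']
      ring

/-- integrals of Walsh functions over cylinders -/
lemma setIntegral_wal (n : ℕ) (e : G) (m : ℕ) :
    ∫ x in cyl n e, wal m x ∂mu = if m < 2 ^ n then ((2 : ℝ) ^ n)⁻¹ * wal m e else 0 := by
  rw [← integral_indicator (measurableSet_cyl n e)]
  have h1 : ∀ x, Set.indicator (cyl n e) (wal m) x
      = ((2 : ℝ) ^ n)⁻¹ * ∑ s ∈ range (2 ^ n), wal s e * (wal s x * wal m x) := by
    intro x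
    have h2 : ∑ s ∈ range (2 ^ n), wal s e * (wal s x * wal m x)
        = (∑ s ∈ range (2 ^ n), wal s e * wal s x) * wal m x := by
      rw [sum_mul]
      apply sum_congr rfl
      intro s _
      ring
    rw [h2, sum_wal]
    by_cases hx : x ∈ cyl n e
    · rw [Set.indicator_of_mem hx, Set.indicator_of_mem hx, ← mul_assoc,
        inv_mul_cancel₀ (by positivity), one_mul]
    · rw [Set.indicator_of_notMem hx, Set.indicator_of_notMem hx]
      simp
  simp_rw [h1]
  rw [integral_const_mul, integral_finsetSum]
  · simp_rw [integral_const_mul, integral_wal_mul]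
    split_ifs with h
    · congr 1
      rw [sum_eq_single m]
      · simp
      · intro s _ hs
        simp [hs]
      · intro h2
        exact absurd (mem_range.mpr h) h2
    · rw [sum_eq_zero, mul_zero]
      intro s hs
      have : s ≠ m := by
        have := mem_range.mp hs
        omega
      simp [this]
  · intro s _
    apply Integrable.const_mul
    apply integrable_of_bound ((measurable_wal s).mul (measurable_wal m)) (C := 1)
    intro x
    rw [Pi.mul_apply, abs_mul, abs_wal, abs_wal, one_mul]

lemma measure_cyl (n : ℕ) (e : G) : mu (cyl n e) = ENNReal.ofReal ((2 : ℝ) ^ n)⁻¹ := by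
  have h := setIntegral_wal n e 0
  simp only [wal_zero] at h
  rw [if_pos (by positivity)] at h
  simp only [integral_const, MeasurableSet.univ, measureReal_restrict_apply, Set.univ_inter,
    smul_eq_mul, mul_one] at h
  rw [← h, ofReal_measureReal]

end Pool.Agent.X92.Walsh
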