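import Pool.Agent.X92.Walsh

/-!
# Lower bound for `∫ |∑_{m < 2^M} B_m w_m|^p`
-/

open MeasureTheory Filter Topology Finset
open scoped ENNReal NNReal

noncomputable section

namespace Pool.Agent.X92.Walsh

/-- cumulative sums `B_m = ∑_{j ≤ m} b_j` -/
def cum (b : ℕ → ℝ) (m : ℕ) : ℝ := ∑ j ∈ range (m + 1), b j

lemma cum_add (b : ℕ → ℝ) (m a : ℕ) : cum b (m + a) - cum b m = ∑ i ∈ range a, b (m + 1 + i) := by
  unfold cum
  rw [show m + a + 1 = (m + 1) + a by ring, sum_range_add]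
  ring

lemma sum_blocks (a T : ℕ) (f : ℕ → ℝ) :
    ∑ m ∈ range (a * T), f m = ∑ t ∈ range T, ∑ u ∈ range a, f (u + a * t) := by
  induction T with
  | zero => simp
  | succ T ih =>
    rw [Nat.mul_succ, sum_range_add, ih, sum_range_succ]
    congr 1
    apply sum_congr rfl
    intro u _
    rw [add_comm]

/-- block sums of `b` -/
def blk (b : ℕ → ℝ) (l t : ℕ) : ℝ :=
  ∑ u ∈ range (2 ^ l), ∑ i ∈ range (2 ^ l), b (u + 2 ^ l * t + 1 + i)

lemma wal_low {l u : ℕ} (hu : u < 2 ^ l) {x : G} (hx : ∀ k < l, x k = false) : wal u x = 1 := by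
  rw [wal_eq hu]
  apply prod_eq_one
  intro k hk
  have : rad k x = 1 := by unfold rad; rw [hx k (mem_range.mp hk)]; simp
  rw [this]
  simp

lemma block_sum (b : ℕ → ℝ) (l K : ℕ) {x : G} (hx : ∀ k < l, x k = false) (h0 : x l = true)
    (h1 : x (l + 1) = true) :
    ∑ m ∈ range (2 ^ (l + 2 + K)), cum b m * wal m x
      = ∑ v ∈ range (2 ^ K), wal v (fun k => x (k + (l + 2))) *
        (blk b l (4 * v + 2) - blk b l (4 * v)) := by
  set y : G := fun k => x (k + l) with hy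
  have hy0 : y 0 = true := by simp [hy, h0]
  have hy1 : y 1 = true := by
    have : y 1 = x (1 + l) := rfl
    rw [this, add_comm, h1]
  set g : ℕ → ℝ := fun t => ∑ u ∈ range (2 ^ l), cum b (u + 2 ^ l * t) with hg
  have hgH : ∀ t, g (t + 1) - g t = blk b l t := by
    intro t
    simp only [hg, blk]
    rw [← sum_sub_distrib]
    apply sum_congr rfl
    intro u _
    rw [mul_add, mul_one, ← add_assoc, cum_add]
  have hpow : 2 ^ (l + 2 + K) = 2 ^ l * (2 ^ 2 * 2 ^ K) := by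
    rw [pow_add, pow_add]; ring
  rw [hpow, sum_blocks]
  have e1 : ∀ t ∈ range (2 ^ 2 * 2 ^ K), ∑ u ∈ range (2 ^ l),
      cum b (u + 2 ^ l * t) * wal (u + 2 ^ l * t) x = g t * wal t y := by
    intro t _
    rw [hg, sum_mul]
    apply sum_congr rfl
    intro u hu
    rw [wal_split (mem_range.mp hu), wal_low (mem_range.mp hu) hx, one_mul]
  rw [sum_congr rfl e1, sum_blocks]
  apply sum_congr rfl
  intro v _
  have hw0 : wal 0 y = 1 := wal_zero y
  have hw1 : wal 1 y = -1 := by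
    simp [wal, rad, hy0]
  have hw2 : wal 2 y = -1 := by
    rw [wal_eq (show 2 < 2 ^ 2 by norm_num)]
    simp only [prod_range_succ, range_zero, prod_empty]
    have t0 : (2 : ℕ).testBit 0 = false := by decide
    have t1 : (2 : ℕ).testBit 1 = true := by decide
    rw [t0, t1]
    simp [rad, hy1]
  have hw3 : wal 3 y = 1 := by
    rw [wal_eq (show 3 < 2 ^ 2 by norm_num)]
    simp only [prod_range_succ, range_zero, prod_empty]
    have t0 : (3 : ℕ).testBit 0 = true := by decide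
    have t1 : (3 : ℕ).testBit 1 = true := by decide
    rw [t0, t1]
    simp [rad, hy0, hy1]
  have hshift : (fun k => y (k + 2)) = (fun k => x (k + (l + 2))) := by
    funext k
    simp only [hy]
    congr 1
    ring
  have e2 : ∀ s < 2 ^ 2, wal (s + 2 ^ 2 * v) y = wal s y * wal v (fun k => x (k + (l + 2))) := by
    intro s hs
    rw [wal_split hs, hshift]
  rw [show (2 : ℕ) ^ 2 = 4 by norm_num] at e2 ⊢
  simp only [sum_range_succ, range_zero, sum_empty]
  rw [e2 0 (by norm_num), e2 1 (by norm_num), e2 2 (by norm_num), e2 3 (by norm_num), hw0, hw1, hw2,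
    hw3, ← hgH, ← hgH]
  have a0 : 0 + 4 * v = 4 * v := by ring
  have a1 : 1 + 4 * v = 4 * v + 1 := by ring
  have a2 : 2 + 4 * v = 4 * v + 2 := by ring
  have a3 : 3 + 4 * v = 4 * v + 2 + 1 := by ring
  rw [a0, a1, a2, a3]
  ring

/-- The point with exactly the coordinates `l`, `l+1` set. -/
def pt (l : ℕ) : G := fun k => decide (k = l ∨ k = l + 1)

lemma mem_cyl_pt {l : ℕ} {x : G} (h : x ∈ cyl (l + 2) (pt l)) :
    (∀ k < l, x k = false) ∧ x l = true ∧ x (l + 1) = true := by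
  refine ⟨?_, ?_, ?_⟩
  · intro k hk
    rw [h k (by omega)]
    simp only [pt, decide_eq_false_iff_not]
    omega
  · rw [h l (by omega)]; simp [pt]
  · rw [h (l + 1) (by omega)]; simp [pt]

/-- The function `∑_{m < 2^M} B_m w_m`. -/
def ker (b : ℕ → ℝ) (M : ℕ) (x : G) : ℝ := ∑ m ∈ range (2 ^ M), cum b m * wal m x

lemma measurable_ker (b : ℕ → ℝ) (M : ℕ) : Measurable (ker b M) := by
  unfold ker
  exact Finset.measurable_sum _ (fun m _ => (measurable_wal m).const_mul _)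

lemma blk_nonneg {b : ℕ → ℝ} (hb : ∀ n, 0 ≤ b n) (l t : ℕ) : 0 ≤ blk b l t :=
  sum_nonneg (fun _ _ => sum_nonneg (fun _ _ => hb _))

lemma blk_anti {b : ℕ → ℝ} (hb : Antitone b) (l : ℕ) : Antitone (blk b l) := by
  intro s t hst
  apply sum_le_sum
  intro u _
  apply sum_le_sum
  intro i _
  apply hb
  have := Nat.mul_le_mul_left (2 ^ l) hst
  omega

/-- pointwise bound on the cylinder -/
lemma ker_bound {b : ℕ → ℝ} (hb : Antitone b) (hb0 : ∀ n, 0 ≤ b n) {l M : ℕ} (hM : l + 2 ≤ M)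
    {x : G} (hx : x ∈ cyl (l + 2) (pt l)) : |ker b M x| ≤ blk b l 0 := by
  obtain ⟨K, rfl⟩ : ∃ K, M = l + 2 + K := ⟨M - (l + 2), by omega⟩
  obtain ⟨h1, h2, h3⟩ := mem_cyl_pt hx
  unfold ker
  rw [block_sum b l K h1 h2 h3]
  have hH := blk_anti hb l
  have key : ∀ V : ℕ, ∑ v ∈ range V, |wal v (fun k => x (k + (l + 2))) *
      (blk b l (4 * v + 2) - blk b l (4 * v))| ≤ blk b l 0 - blk b l (4 * V) := by
    intro V
    induction V with
    | zero => simp
    | succ V ih =>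
      rw [sum_range_succ, abs_mul, abs_wal, one_mul, abs_of_nonpos]
      · have := hH (show 4 * V + 2 ≤ 4 * (V + 1) by omega)
        linarith
      · have := hH (show 4 * V ≤ 4 * V + 2 by omega)
        linarith
  refine (abs_sum_le_sum_abs _ _).trans ((key _).trans ?_)
  linarith [blk_nonneg hb0 l (4 * 2 ^ K)]

/-- the integral over the cylinder -/
lemma integral_ker (b : ℕ → ℝ) {l M : ℕ} (hM : l + 2 ≤ M) :
    ∫ x in cyl (l + 2) (pt l), ker b M x ∂mu
      = ((2 : ℝ) ^ (l + 2))⁻¹ * (blk b l 2 - blk b l 0) := by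
  unfold ker
  rw [integral_finsetSum]
  · simp_rw [integral_const_mul, setIntegral_wal]
    have h1 : ∑ m ∈ range (2 ^ M), cum b m *
          (if m < 2 ^ (l + 2) then ((2 : ℝ) ^ (l + 2))⁻¹ * wal m (pt l) else 0)
        = ((2 : ℝ) ^ (l + 2))⁻¹ * ∑ m ∈ range (2 ^ (l + 2)), cum b m * wal m (pt l) := by
      rw [mul_sum]
      have hsub : range (2 ^ (l + 2)) ⊆ range (2 ^ M) :=
        range_mono (Nat.pow_le_pow_right (by norm_num) hM)
      rw [← sum_subset hsub (f := fun m => cum b m *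
          (if m < 2 ^ (l + 2) then ((2 : ℝ) ^ (l + 2))⁻¹ * wal m (pt l) else 0))]
      · apply sum_congr rfl
        intro m hm
        rw [if_pos (mem_range.mp hm)]
        ring
      · intro m _ hm
        rw [if_neg (by simpa using hm), mul_zero]
    rw [h1]
    have hx : pt l ∈ cyl (l + 2) (pt l) := fun j _ => rfl
    obtain ⟨h2, h3, h4⟩ := mem_cyl_pt hx
    have h5 := block_sum b l 0 h2 h3 h4
    rw [add_zero] at h5
    rw [h5]
    simp [wal_zero]
  · intro m _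
    exact ((integrable_wal m).const_mul _).integrableOn

/-- `L^p` lower bound on the cylinder, `0 < p ≤ 1`. -/
lemma lintegral_ker {b : ℕ → ℝ} (hb : Antitone b) (hb0 : ∀ n, 0 ≤ b n) {l M : ℕ}
    (hM : l + 2 ≤ M) {p : ℝ} (hp0 : 0 < p) (hp : p ≤ 1) (hpos : 0 < blk b l 0) :
    ENNReal.ofReal (((2 : ℝ) ^ (l + 2))⁻¹ * (blk b l 0 - blk b l 2) * blk b l 0 ^ (p - 1))
      ≤ ∫⁻ x in cyl (l + 2) (pt l), ‖ker b M x‖ₑ ^ p ∂mu := by
  set S := blk b l 0 with hS
  have hint : IntegrableOn (ker b M) (cyl (l + 2) (pt l)) mu := by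
    apply Integrable.integrableOn
    unfold ker
    exact integrable_finsetSum _ (fun m _ => (integrable_wal m).const_mul _)
  have h1 : ((2 : ℝ) ^ (l + 2))⁻¹ * (S - blk b l 2) ≤ ∫ x in cyl (l + 2) (pt l), |ker b M x| ∂mu := by
    have h2 := integral_ker b hM
    have h3 := norm_integral_le_integral_norm (μ := mu.restrict (cyl (l + 2) (pt l))) (ker b M)
    simp only [Real.norm_eq_abs] at h3
    rw [h2] at h3
    have h4 := neg_abs_le (((2 : ℝ) ^ (l + 2))⁻¹ * (blk b l 2 - S))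
    have h5 : -(((2 : ℝ) ^ (l + 2))⁻¹ * (blk b l 2 - S)) = ((2 : ℝ) ^ (l + 2))⁻¹ * (S - blk b l 2) := by
      ring
    linarith
  -- pointwise `|F|^p ≥ |F| S^{p-1}`
  have hpt : ∀ a : ℝ, 0 ≤ a → a ≤ S → a * S ^ (p - 1) ≤ a ^ p := by
    intro a ha haS
    rcases ha.eq_or_lt with rfl | ha'
    · rw [zero_mul]; positivity
    · have h6 : S ^ (p - 1) ≤ a ^ (p - 1) :=
        Real.rpow_le_rpow_of_nonpos ha' haS (by linarith)
      calc a * S ^ (p - 1) ≤ a * a ^ (p - 1) := mul_le_mul_of_nonneg_left h6 ha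
        _ = a ^ p := by
          rw [← Real.rpow_one_add' ha (by linarith)]
          congr 1; ring
  calc ENNReal.ofReal (((2 : ℝ) ^ (l + 2))⁻¹ * (S - blk b l 2) * S ^ (p - 1))
      ≤ ENNReal.ofReal ((∫ x in cyl (l + 2) (pt l), |ker b M x| ∂mu) * S ^ (p - 1)) := by
        apply ENNReal.ofReal_le_ofReal
        exact mul_le_mul_of_nonneg_right h1 (by positivity)
    _ = ENNReal.ofReal (∫ x in cyl (l + 2) (pt l), |ker b M x| * S ^ (p - 1) ∂mu) := by
        rw [integral_mul_const]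
    _ = ∫⁻ x in cyl (l + 2) (pt l), ENNReal.ofReal (|ker b M x| * S ^ (p - 1)) ∂mu := by
        rw [ofReal_integral_eq_lintegral_ofReal]
        · exact hint.abs.mul_const _
        · filter_upwards with x
          positivity
    _ ≤ ∫⁻ x in cyl (l + 2) (pt l), ‖ker b M x‖ₑ ^ p ∂mu := by
        apply setLIntegral_mono
        · exact (measurable_ker b M).enorm.pow_const _
        · intro x hx
          rw [← ofReal_norm, Real.norm_eq_abs, ENNReal.ofReal_rpow_of_nonneg (abs_nonneg _) hp0.le]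
          exact ENNReal.ofReal_le_ofReal (hpt _ (abs_nonneg _) (ker_bound hb hb0 hM hx))

lemma disjoint_cyl {l l' : ℕ} (h : l < l') :
    Disjoint (cyl (l + 2) (pt l)) (cyl (l' + 2) (pt l')) := by
  rw [Set.disjoint_left]
  intro x hx hx'
  have h1 := (mem_cyl_pt hx).2.1
  have h2 := (mem_cyl_pt hx').1 l h
  rw [h1] at h2
  exact absurd h2 (by simp)

/-- Lower bound for the `L^p` integral of the kernel, `p = 1/(1+α)`. -/
theorem ker_lower {b : ℕ → ℝ} (hb : Antitone b) (hb0 : ∀ n, 0 ≤ b n) {α c c1 : ℝ} (hα : 0 < α)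
    (hα1 : α < 1) (hc : 0 < c) (hc1 : 0 < c1)
    (hlow : ∀ n : ℕ, 1 ≤ n → c * (n : ℝ) ^ (α - 1) ≤ b n)
    (hgap : ∀ n k : ℕ, 1 ≤ n → n ≤ k → c1 * b n ≤ b n - b (n + k)) (M : ℕ) :
    (M : ℝ≥0∞) * ENNReal.ofReal (c1 / 4 * (c * 2 ^ (α - 1)) ^ (1 / (1 + α)))
      ≤ ∫⁻ x, ‖ker b (M + 1) x‖ₑ ^ (1 / (1 + α)) ∂mu := by
  set p : ℝ := 1 / (1 + α) with hp
  have hp0 : 0 < p := by positivity
  have hp1 : p ≤ 1 := by rw [hp, div_le_one (by positivity)]; linarith
  -- blocks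
  have hS : ∀ l : ℕ, c * 2 ^ (α - 1) * (2 : ℝ) ^ ((l : ℝ) * (1 + α)) ≤ blk b l 0 := by
    intro l
    unfold blk
    have h1 : ∀ u ∈ range (2 ^ l), ∀ i ∈ range (2 ^ l),
        c * ((2 : ℝ) ^ (l + 1)) ^ (α - 1) ≤ b (u + 2 ^ l * 0 + 1 + i) := by
      intro u hu i hi
      have hu' := mem_range.mp hu
      have hi' := mem_range.mp hi
      refine le_trans ?_ (hlow _ (by omega))
      apply mul_le_mul_of_nonneg_left _ hc.le
      apply Real.rpow_le_rpow_of_nonpos
      · exact_mod_cast (show 0 < u + 2 ^ l * 0 + 1 + i by omega)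
      · have : u + 2 ^ l * 0 + 1 + i ≤ 2 ^ (l + 1) := by rw [pow_succ]; omega
        exact_mod_cast this
      · linarith
    have h2 : ∑ u ∈ range (2 ^ l), ∑ i ∈ range (2 ^ l), c * ((2 : ℝ) ^ (l + 1)) ^ (α - 1)
        ≤ ∑ u ∈ range (2 ^ l), ∑ i ∈ range (2 ^ l), b (u + 2 ^ l * 0 + 1 + i) :=
      sum_le_sum (fun u hu => sum_le_sum (fun i hi => h1 u hu i hi))
    refine le_trans (le_of_eq ?_) h2
    simp only [sum_const, card_range, nsmul_eq_mul]
    push_cast
    rw [← Real.rpow_natCast 2 l, ← Real.rpow_natCast 2 (l + 1), ← Real.rpow_mul (by norm_num)]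
    have h3 : (2 : ℝ) ^ ((l : ℝ) * (1 + α)) = 2 ^ (l : ℝ) * 2 ^ (l : ℝ) * 2 ^ ((l : ℝ) * (α - 1)) := by
      rw [← Real.rpow_add (by norm_num), ← Real.rpow_add (by norm_num)]
      congr 1; ring
    have h4 : (2 : ℝ) ^ (((l + 1 : ℕ) : ℝ) * (α - 1)) = 2 ^ ((l : ℝ) * (α - 1)) * 2 ^ (α - 1) := by
      rw [← Real.rpow_add (by norm_num)]
      congr 1; push_cast; ring
    rw [h3, h4]
    ring
  have hSpos : ∀ l : ℕ, 0 < blk b l 0 := fun l => lt_of_lt_of_le (by positivity) (hS l)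
  have hgap' : ∀ l : ℕ, c1 * blk b l 0 ≤ blk b l 0 - blk b l 2 := by
    intro l
    unfold blk
    rw [mul_sum, ← sum_sub_distrib]
    apply sum_le_sum
    intro u hu
    rw [mul_sum, ← sum_sub_distrib]
    apply sum_le_sum
    intro i hi
    have hu' := mem_range.mp hu
    have hi' := mem_range.mp hi
    have := hgap (u + 2 ^ l * 0 + 1 + i) (2 ^ l * 2) (by omega) (by omega)
    have e1 : u + 2 ^ l * 2 + 1 + i = u + 2 ^ l * 0 + 1 + i + 2 ^ l * 2 := by omega
    rw [e1]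
    exact this
  have hl : ∀ l : ℕ, l < M → ENNReal.ofReal (c1 / 4 * (c * 2 ^ (α - 1)) ^ p)
      ≤ ∫⁻ x in cyl (l + 2) (pt l), ‖ker b (M + 1) x‖ₑ ^ p ∂mu := by
    intro l hlM
    refine le_trans ?_ (lintegral_ker hb hb0 (by omega) hp0 hp1 (hSpos l))
    apply ENNReal.ofReal_le_ofReal
    have h1 := hgap' l
    have h2 := hS l
    have h3 := hSpos l
    have h4 : c1 * blk b l 0 ^ p ≤ (blk b l 0 - blk b l 2) * blk b l 0 ^ (p - 1) := by
      have : blk b l 0 ^ p = blk b l 0 * blk b l 0 ^ (p - 1) := by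
        rw [← Real.rpow_one_add' h3.le (by linarith)]
        congr 1; ring
      rw [this, ← mul_assoc]
      exact mul_le_mul_of_nonneg_right h1 (by positivity)
    have h5 : (c * 2 ^ (α - 1)) ^ p * 2 ^ l ≤ blk b l 0 ^ p := by
      have h6 : ((2 : ℝ) ^ ((l : ℝ) * (1 + α))) ^ p = 2 ^ l := by
        rw [← Real.rpow_mul (by norm_num), hp, mul_assoc, mul_one_div_cancel (by positivity), mul_one,
          Real.rpow_natCast]
      rw [← h6, ← Real.mul_rpow (by positivity) (by positivity)]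
      exact Real.rpow_le_rpow (by positivity) h2 hp0.le
    calc c1 / 4 * (c * 2 ^ (α - 1)) ^ p
        = ((2 : ℝ) ^ (l + 2))⁻¹ * (c1 * ((c * 2 ^ (α - 1)) ^ p * 2 ^ l)) := by
          rw [pow_add]
          field_simp
          norm_num
      _ ≤ ((2 : ℝ) ^ (l + 2))⁻¹ * (c1 * blk b l 0 ^ p) := by gcongr
      _ ≤ ((2 : ℝ) ^ (l + 2))⁻¹ * ((blk b l 0 - blk b l 2) * blk b l 0 ^ (p - 1)) := by gcongr
      _ = _ := by ring
  -- sum over disjoint cylinders
  have hdis : Pairwise (Function.onFun Disjoint (fun l : ℕ => cyl (l + 2) (pt l))) := by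
    intro l l' hne
    rcases lt_or_gt_of_ne hne with h | h
    · exact disjoint_cyl h
    · exact (disjoint_cyl h).symm
  calc (M : ℝ≥0∞) * ENNReal.ofReal (c1 / 4 * (c * 2 ^ (α - 1)) ^ p)
      = ∑ l ∈ range M, ENNReal.ofReal (c1 / 4 * (c * 2 ^ (α - 1)) ^ p) := by
        rw [sum_const, card_range, nsmul_eq_mul]
    _ ≤ ∑ l ∈ range M, ∫⁻ x in cyl (l + 2) (pt l), ‖ker b (M + 1) x‖ₑ ^ p ∂mu :=
        sum_le_sum (fun l hlM => hl l (mem_range.mp hlM))
    _ = ∫⁻ x in ⋃ l ∈ range M, cyl (l + 2) (pt l), ‖ker b (M + 1) x‖ₑ ^ p ∂mu := by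
        rw [lintegral_biUnion_finset]
        · intro l _ l' _ hne
          exact hdis hne
        · intro l _
          exact measurableSet_cyl _ _
    _ ≤ ∫⁻ x, ‖ker b (M + 1) x‖ₑ ^ p ∂mu := setLIntegral_le_lintegral _ _

end Pool.Agent.X92.Walsh
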