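import Pool.Agent.X92.Walsh2

/-!
# The test martingale and unboundedness of Nörlund means at the endpoint
-/

open MeasureTheory Filter Topology Finset
open scoped ENNReal NNReal

noncomputable section

namespace Pool.Agent.X92.Walsh

/-- The zero point. -/
def zeroPt : G := fun _ => false

/-- `F_M = D_{2^{M+1}} - D_{2^M} = 2^M r_M 1_{I_M(0)}`. -/
def testF (M : ℕ) (x : G) : ℝ := Set.indicator (cyl M zeroPt) (fun x => (2 : ℝ) ^ M * rad M x) x

/-- The test martingale. -/
def testM (M n : ℕ) (x : G) : ℝ := if n ≤ M then 0 else testF M x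

lemma testF_eq (M : ℕ) (x : G) : testF M x = ∑ s ∈ range (2 ^ M), wal (2 ^ M + s) x := by
  have h1 : ∀ s ∈ range (2 ^ M), wal (2 ^ M + s) x = rad M x * (wal s zeroPt * wal s x) := by
    intro s hs
    have h2 := wal_split (u := s) (l := M) (mem_range.mp hs) 1 x
    rw [mul_one, add_comm] at h2
    rw [h2, wal_low (mem_range.mp hs) (x := zeroPt) (fun _ _ => rfl), one_mul, mul_comm]
    congr 1
    simp [wal, rad]
  rw [sum_congr rfl h1, ← mul_sum, sum_wal]
  unfold testF
  by_cases hx : x ∈ cyl M zeroPt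
  · rw [Set.indicator_of_mem hx, Set.indicator_of_mem hx, mul_comm]
  · rw [Set.indicator_of_notMem hx, Set.indicator_of_notMem hx, mul_zero]

lemma measurable_testF (M : ℕ) : Measurable (testF M) := by
  have : testF M = fun x => ∑ s ∈ range (2 ^ M), wal (2 ^ M + s) x := funext (testF_eq M)
  rw [this]
  exact Finset.measurable_sum _ (fun m _ => measurable_wal _)

lemma integrable_testF (M : ℕ) : Integrable (testF M) mu := by
  have : testF M = fun x => ∑ s ∈ range (2 ^ M), wal (2 ^ M + s) x := funext (testF_eq M)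
  rw [this]
  exact integrable_finsetSum _ (fun m _ => integrable_wal _)

/-! ### The filtration -/

lemma sat_measurable {n : ℕ} {A : Set G} (hA : ∀ x ∈ A, ∀ y ∈ cyl n x, y ∈ A) :
    MeasurableSet[Fil n] A := by
  have hcover : A = ⋃ s ∈ {s | s ∈ Set.range (cyl n) ∧ s ⊆ A}, s := by
    ext y
    simp only [Set.mem_iUnion, exists_prop]
    constructor
    · intro hy
      exact ⟨cyl n y, ⟨⟨y, rfl⟩, fun z hz => hA y hy z hz⟩, fun j _ => rfl⟩
    · rintro ⟨s, ⟨_, hs⟩, hy⟩
      exact hs hy
  rw [hcover]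
  have hfin : (Set.range (cyl n)).Finite := by
    have h1 : Set.range (cyl n) = Set.range (fun a : Fin n → Bool =>
        cyl n (fun j => if h : j < n then a ⟨j, h⟩ else false)) := by
      ext s
      constructor
      · rintro ⟨y, rfl⟩
        refine ⟨fun i => y i, ?_⟩
        ext z
        simp only [cyl]
        constructor
        · intro h j hj
          have := h j hj
          simpa [hj] using this
        · intro h j hj
          have := h j hj
          simpa [hj] using this
      · rintro ⟨a, rfl⟩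
        exact ⟨_, rfl⟩
    rw [h1]
    exact Set.finite_range _
  apply MeasurableSet.biUnion
  · exact (hfin.subset (fun s hs => hs.1)).countable
  · rintro s ⟨hs, _⟩
    exact MeasurableSpace.measurableSet_generateFrom hs

lemma sat_of_measurable {n : ℕ} {A : Set G} (hA : MeasurableSet[Fil n] A) :
    ∀ x ∈ A, ∀ y ∈ cyl n x, y ∈ A := by
  refine MeasurableSpace.generateFrom_induction (C := Set.range (cyl n))
    (p := fun s _ => ∀ x ∈ s, ∀ y ∈ cyl n x, y ∈ s) ?_ ?_ ?_ ?_ A hA
  · rintro _ ⟨z, rfl⟩ _ x hx y hy j hj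
    rw [hy j hj, hx j hj]
  · intro x hx
    exact absurd hx (Set.notMem_empty x)
  · intro s _ hs x hx y hy hys
    exact hx (hs y hys x (fun j hj => (hy j hj).symm))
  · intro s _ hs x hx y hy
    obtain ⟨i, hi⟩ := Set.mem_iUnion.mp hx
    exact Set.mem_iUnion.mpr ⟨i, hs i x hi y hy⟩

lemma testF_flip (M : ℕ) (x : G) : testF M (flip M x) = - testF M x := by
  unfold testF
  have h1 : flip M x ∈ cyl M zeroPt ↔ x ∈ cyl M zeroPt := by
    constructor
    · intro h j hj
      have := h j hj
      simpa [flip, hj.ne] using this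
    · intro h j hj
      have := h j hj
      simpa [flip, hj.ne] using this
  by_cases hx : x ∈ cyl M zeroPt
  · rw [Set.indicator_of_mem hx, Set.indicator_of_mem (h1.mpr hx)]
    have : rad M (flip M x) = - rad M x := by
      simp only [rad, flip, if_true]
      cases x M <;> simp
    rw [this]
    ring
  · rw [Set.indicator_of_notMem hx, Set.indicator_of_notMem (fun h => hx (h1.mp h)), neg_zero]

lemma setIntegral_testF {M : ℕ} {s : Set G} (hs : MeasurableSet[Fil M] s) :
    ∫ x in s, testF M x ∂mu = 0 := by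
  have hs' : MeasurableSet s := Fil.le M s hs
  have hsat := sat_of_measurable hs
  rw [← integral_indicator hs']
  have hmp := measurePreserving_flip M
  have h1 : ∫ x, s.indicator (testF M) (flip M x) ∂mu = ∫ x, s.indicator (testF M) x ∂mu := by
    rw [← integral_map hmp.measurable.aemeasurable
      ((measurable_testF M).indicator hs').aestronglyMeasurable, hmp.map_eq]
  have h2 : ∫ x, s.indicator (testF M) (flip M x) ∂mu = - ∫ x, s.indicator (testF M) x ∂mu := by
    rw [← integral_neg]
    congr 1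
    funext x
    have h3 : flip M x ∈ s ↔ x ∈ s := by
      constructor
      · intro h
        refine hsat _ h x (fun j hj => ?_)
        simp [flip, hj.ne]
      · intro h
        refine hsat _ h _ (fun j hj => ?_)
        simp [flip, hj.ne]
    by_cases hx : x ∈ s
    · rw [Set.indicator_of_mem hx, Set.indicator_of_mem (h3.mpr hx), testF_flip]
    · rw [Set.indicator_of_notMem hx, Set.indicator_of_notMem (fun h => hx (h3.mp h)), neg_zero]
  linarith

lemma stronglyMeasurable_testF {M n : ℕ} (h : M < n) : StronglyMeasurable[Fil n] (testF M) := by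
  apply Measurable.stronglyMeasurable
  intro s _
  apply sat_measurable
  intro x hx y hy
  have : testF M y = testF M x := by
    unfold testF
    have h1 : y ∈ cyl M zeroPt ↔ x ∈ cyl M zeroPt := by
      constructor
      · intro h' j hj
        rw [← hy j (by omega)]; exact h' j hj
      · intro h' j hj
        rw [hy j (by omega)]; exact h' j hj
    by_cases hx : x ∈ cyl M zeroPt
    · rw [Set.indicator_of_mem hx, Set.indicator_of_mem (h1.mpr hx)]
      unfold rad
      rw [hy M h]
    · rw [Set.indicator_of_notMem hx, Set.indicator_of_notMem (fun h => hx (h1.mp h))]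
  show testF M y ∈ s
  rw [this]
  exact hx

lemma martingale_testM (M : ℕ) : Martingale (testM M) Fil mu := by
  apply martingale_nat
  · intro n
    unfold testM
    split_ifs with h
    · exact stronglyMeasurable_const
    · exact stronglyMeasurable_testF (by omega)
  · intro n
    unfold testM
    split_ifs with h
    · exact integrable_zero _ _ _
    · exact integrable_testF M
  · intro n
    rcases lt_trichotomy n M with h | h | h
    · have h1 : testM M n = 0 := by funext x; unfold testM; rw [if_pos (by omega)]; rfl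
      have h2 : testM M (n + 1) = 0 := by funext x; unfold testM; rw [if_pos (by omega)]; rfl
      rw [h1, h2, condExp_zero]
    · have h1 : testM M n = 0 := by funext x; unfold testM; rw [if_pos (by omega)]; rfl
      have h2 : testM M (n + 1) = testF M := by
        funext x; unfold testM; rw [if_neg (by omega)]
      rw [h1, h2, h]
      apply ae_eq_condExp_of_forall_setIntegral_eq (Fil.le M) (integrable_testF M)
      · intro s _ _
        exact integrableOn_zero
      · intro s hs _
        rw [setIntegral_testF hs]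
        simp
      · exact aestronglyMeasurable_zero
    · have h1 : testM M n = testF M := by funext x; unfold testM; rw [if_neg (by omega)]
      have h2 : testM M (n + 1) = testF M := by
        funext x; unfold testM; rw [if_neg (by omega)]
      rw [h1, h2, condExp_of_stronglyMeasurable (Fil.le n) (stronglyMeasurable_testF h)
        (integrable_testF M)]

/-! ### Norms -/

lemma sup_testM (M : ℕ) (x : G) : (⨆ n, ‖testM M n x‖ₑ) = ‖testF M x‖ₑ := by
  apply le_antisymm
  · apply iSup_le
    intro n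
    unfold testM
    split_ifs
    · simp
    · exact le_refl _
  · refine le_trans (le_of_eq ?_) (le_iSup _ (M + 1))
    unfold testM
    rw [if_neg (by omega)]

lemma hpNorm_testM (M : ℕ) {α : ℝ} (hα : 0 < α) :
    hpNorm (1 / (1 + α)) (testM M) = ENNReal.ofReal ((2 : ℝ) ^ (-(M : ℝ) * α)) := by
  unfold hpNorm
  simp_rw [sup_testM]
  have hp : 0 < 1 / (1 + α) := by positivity
  have h1 : ∀ x, ‖testF M x‖ₑ ^ (1 / (1 + α)) = Set.indicator (cyl M zeroPt)
      (fun _ => ENNReal.ofReal (((2 : ℝ) ^ M) ^ (1 / (1 + α)))) x := by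
    intro x
    unfold testF
    by_cases hx : x ∈ cyl M zeroPt
    · rw [Set.indicator_of_mem hx, Set.indicator_of_mem hx, ← ofReal_norm, Real.norm_eq_abs, abs_mul,
        abs_rad, mul_one, abs_of_nonneg (by positivity),
        ENNReal.ofReal_rpow_of_nonneg (by positivity) hp.le]
    · rw [Set.indicator_of_notMem hx, Set.indicator_of_notMem hx, enorm_zero,
        ENNReal.zero_rpow_of_pos hp]
  simp_rw [h1]
  rw [lintegral_indicator_const (measurableSet_cyl _ _), measure_cyl, ← ENNReal.ofReal_mul
    (by positivity), ENNReal.ofReal_rpow_of_nonneg (by positivity) (by positivity)]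
  congr 1
  have h2 : ((2 : ℝ) ^ M) ^ (1 / (1 + α)) * ((2 : ℝ) ^ M)⁻¹ = 2 ^ ((M : ℝ) * (1 / (1 + α)) - M) := by
    rw [Real.rpow_sub (by norm_num), Real.rpow_natCast, ← Real.rpow_natCast 2 M,
      ← Real.rpow_mul (by norm_num)]
    rfl
  rw [h2, ← Real.rpow_mul (by norm_num)]
  congr 1
  field_simp
  ring

/-! ### Coefficients and means -/

lemma coef_testM (M i : ℕ) :
    coef (testM M) i = if 2 ^ M ≤ i ∧ i < 2 ^ (M + 1) then 1 else 0 := by
  unfold coef
  apply Tendsto.limUnder_eq
  apply Tendsto.congr' (f₁ := fun _ => (if 2 ^ M ≤ i ∧ i < 2 ^ (M + 1) then (1 : ℝ) else 0))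
  · filter_upwards [eventually_gt_atTop M] with k hk
    have h1 : ∀ x, testM M k x * wal i x = ∑ s ∈ range (2 ^ M), wal (2 ^ M + s) x * wal i x := by
      intro x
      unfold testM
      rw [if_neg (by omega), testF_eq, sum_mul]
    simp_rw [h1]
    rw [integral_finsetSum]
    · simp_rw [integral_wal_mul]
      split_ifs with h
      · rw [sum_eq_single (i - 2 ^ M)]
        · rw [if_pos (by omega)]
        · intro s _ hs
          rw [if_neg (by omega)]
        · intro h2
          exfalso
          apply h2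
          rw [mem_range]
          rw [pow_succ] at h
          omega
      · symm
        apply sum_eq_zero
        intro s hs
        rw [if_neg]
        intro h2
        apply h
        have := mem_range.mp hs
        rw [pow_succ]
        omega
    · intro s _
      apply integrable_of_bound ((measurable_wal _).mul (measurable_wal i)) (C := 1)
      intro x
      rw [Pi.mul_apply, abs_mul, abs_wal, abs_wal, one_mul]
  · exact tendsto_const_nhds

lemma wal_reflect {K m : ℕ} (hm : m < 2 ^ K) (x : G) :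
    wal (2 ^ K - 1 - m) x = wal (2 ^ K - 1) x * wal m x := by
  have h1 : 2 ^ K - 1 - m < 2 ^ K := by omega
  have h2 : 2 ^ K - 1 < 2 ^ K := by have : 0 < 2 ^ K := by positivity
                                    omega
  rw [wal_eq h1, wal_eq h2, wal_eq hm, ← prod_mul_distrib]
  apply prod_congr rfl
  intro k hk
  have hk' : k < K := mem_range.mp hk
  have e1 : (2 ^ K - 1 - m).testBit k = !(m.testBit k) := by
    rw [show 2 ^ K - 1 - m = 2 ^ K - (m + 1) by omega, Nat.testBit_two_pow_sub_succ hm]
    simp [hk']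
  have e2 : (2 ^ K - 1).testBit k = true := by
    rw [Nat.testBit_two_pow_sub_one]
    simp [hk']
  rw [e1, e2]
  have := rad_sq k x
  cases m.testBit k <;> simp [this]

/-- Numerator of the Nörlund mean of the test martingale. -/
lemma mean_eq (b : ℕ → ℝ) (M : ℕ) (x : G) :
    ∑ k ∈ Icc 1 (2 ^ (M + 1)), b (2 ^ (M + 1) - k) * psum (testM M) k x
      = wal (2 ^ (M + 1) - 1) x * ker b M x := by
  set N := 2 ^ (M + 1) with hN
  have hN2 : N = 2 * 2 ^ M := by rw [hN, pow_succ]; ring
  have hpos : 0 < 2 ^ M := by positivity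
  unfold psum
  simp_rw [mul_sum]
  rw [sum_comm' (t' := range N) (s' := fun i => Icc (i + 1) N)]
  · -- inner sums are cumulative sums
    have h1 : ∀ i ∈ range N, ∑ k ∈ Icc (i + 1) N, b (N - k) * (coef (testM M) i * wal i x)
        = cum b (N - 1 - i) * (coef (testM M) i * wal i x) := by
      intro i hi
      have hi' := mem_range.mp hi
      rw [← sum_mul]
      congr 1
      unfold cum
      apply sum_nbij' (i := fun k => N - k) (j := fun j => N - j)
      · intro k hk; have := mem_Icc.mp hk; rw [mem_range]; omega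
      · intro j hj; have := mem_range.mp hj; rw [mem_Icc]; omega
      · intro k hk; have := mem_Icc.mp hk; omega
      · intro j hj; have := mem_range.mp hj; omega
      · intro k _; rfl
    rw [sum_congr rfl h1, ← sum_range_reflect]
    have h2 : ∀ m ∈ range N, cum b (N - 1 - (N - 1 - m)) * (coef (testM M) (N - 1 - m) *
        wal (N - 1 - m) x) = if m < 2 ^ M then wal (N - 1) x * (cum b m * wal m x) else 0 := by
      intro m hm
      have hm' := mem_range.mp hm
      rw [show N - 1 - (N - 1 - m) = m by omega, coef_testM, ← hN]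
      split_ifs with h3 h4 h4
      · rw [hN, wal_reflect (by rw [← hN]; exact hm')]
        ring
      · exfalso; omega
      · exfalso; omega
      · ring
    rw [sum_congr rfl h2]
    unfold ker
    rw [mul_sum]
    have hsub : range (2 ^ M) ⊆ range N := range_mono (by omega)
    rw [← sum_subset hsub (f := fun m => if m < 2 ^ M then wal (N - 1) x * (cum b m * wal m x)
      else 0)]
    · apply sum_congr rfl
      intro m hm
      rw [if_pos (mem_range.mp hm)]
    · intro m _ hm
      rw [if_neg (by simpa using hm)]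
  · intro k i
    simp only [mem_Icc, mem_range]
    omega

/-- **Unboundedness of Nörlund means at the endpoint.** -/
theorem unbounded {b : ℕ → ℝ} (hb : Antitone b) (hb0 : ∀ n, 0 ≤ b n) {α c c1 C3 : ℝ} (hα : 0 < α)
    (hα1 : α < 1) (hc : 0 < c) (hc1 : 0 < c1) (hC3 : 0 < C3)
    (hlow : ∀ n : ℕ, 1 ≤ n → c * (n : ℝ) ^ (α - 1) ≤ b n)
    (hgap : ∀ n k : ℕ, 1 ≤ n → n ≤ k → c1 * b n ≤ b n - b (n + k))
    (Q : ℕ → ℝ) (hQ0 : ∀ n, 1 ≤ n → 0 < Q n) (hQ : ∀ n : ℕ, 1 ≤ n → Q n ≤ C3 * (n : ℝ) ^ α)
    (C : ℝ≥0) : ∃ (f : ℕ → G → ℝ) (n : ℕ), MemHp (1 / (1 + α)) f ∧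
      (C : ℝ≥0∞) * hpNorm (1 / (1 + α)) f < lpNorm (1 / (1 + α))
        (fun x => (Q (2 ^ n))⁻¹ * ∑ k ∈ Icc 1 (2 ^ n), b (2 ^ n - k) * psum f k x) := by
  set p : ℝ := 1 / (1 + α) with hp
  have hp0 : 0 < p := by positivity
  set c2 : ℝ := c1 / 4 * (c * 2 ^ (α - 1)) ^ p with hc2
  have hc2pos : 0 < c2 := by positivity
  -- choice of `m`
  obtain ⟨m, hm⟩ := exists_nat_gt (((C : ℝ) * C3 * 2 ^ α + 1) ^ p / c2)
  rw [div_lt_iff₀ hc2pos] at hm
  have hD : 0 < (C : ℝ) * C3 * 2 ^ α + 1 := by positivity
  have hm2 : (C : ℝ) * C3 * 2 ^ α + 1 < ((m : ℝ) * c2) ^ (1 / p) := by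
    have h1 := Real.rpow_lt_rpow (by positivity) hm (show 0 < 1 / p by positivity)
    rwa [← Real.rpow_mul hD.le, mul_one_div_cancel hp0.ne', Real.rpow_one] at h1
  refine ⟨testM (m + 1), m + 1 + 1, ⟨martingale_testM _, ?_⟩, ?_⟩
  · rw [hpNorm_testM _ hα]
    exact ENNReal.ofReal_lt_top
  · rw [hpNorm_testM _ hα]
    set N := 2 ^ (m + 1 + 1) with hN
    have hN1 : 1 ≤ N := Nat.one_le_two_pow
    have hQpos := hQ0 N hN1
    have h1 : lpNorm p (fun x => (Q N)⁻¹ * ∑ k ∈ Icc 1 N, b (N - k) * psum (testM (m + 1)) k x)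
        = ENNReal.ofReal (Q N)⁻¹ * (∫⁻ x, ‖ker b (m + 1) x‖ₑ ^ p ∂mu) ^ (1 / p) := by
      unfold lpNorm
      have h2 : ∀ x, ‖(Q N)⁻¹ * ∑ k ∈ Icc 1 N, b (N - k) * psum (testM (m + 1)) k x‖ₑ ^ p
          = ENNReal.ofReal (Q N)⁻¹ ^ p * ‖ker b (m + 1) x‖ₑ ^ p := by
        intro x
        rw [hN, mean_eq, ← hN, enorm_mul, enorm_mul, ENNReal.mul_rpow_of_nonneg _ _ hp0.le,
          ENNReal.mul_rpow_of_nonneg _ _ hp0.le]
        congr 1
        · rw [← ofReal_norm, Real.norm_of_nonneg (by positivity)]
        · have : ‖wal (N - 1) x‖ₑ = 1 := by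
            rw [← ofReal_norm, Real.norm_eq_abs, abs_wal, ENNReal.ofReal_one]
          rw [this, ENNReal.one_rpow, one_mul]
      simp_rw [h2]
      rw [lintegral_const_mul _ ((measurable_ker b (m + 1)).enorm.pow_const _),
        ENNReal.mul_rpow_of_nonneg _ _ (by positivity), ← ENNReal.rpow_mul,
        mul_one_div_cancel hp0.ne', ENNReal.rpow_one]
    rw [h1]
    have h3 := ker_lower hb hb0 hα hα1 hc hc1 hlow hgap m
    rw [← hp, ← hc2] at h3
    have h4 : ENNReal.ofReal (((m : ℝ) * c2) ^ (1 / p))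
        ≤ (∫⁻ x, ‖ker b (m + 1) x‖ₑ ^ p ∂mu) ^ (1 / p) := by
      rw [← ENNReal.ofReal_rpow_of_nonneg (by positivity) (by positivity)]
      apply ENNReal.rpow_le_rpow _ (by positivity)
      rw [ENNReal.ofReal_mul (by positivity), ENNReal.ofReal_natCast]
      exact h3
    have h5 : (C : ℝ) * (2 : ℝ) ^ (-((m + 1 : ℕ) : ℝ) * α) < (Q N)⁻¹ * ((m : ℝ) * c2) ^ (1 / p) := by
      have h6 : Q N ≤ C3 * 2 ^ α * 2 ^ (((m + 1 : ℕ) : ℝ) * α) := by
        refine (hQ N hN1).trans (le_of_eq ?_)
        have : ((N : ℕ) : ℝ) = 2 ^ ((m + 1 : ℕ) + 1 : ℝ) := by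
          rw [hN]
          push_cast
          rw [← Real.rpow_natCast]
          push_cast
          rfl
        rw [this, ← Real.rpow_mul (by norm_num), mul_assoc, ← Real.rpow_add (by norm_num)]
        congr 2
        ring
      have h7 : (C3 * 2 ^ α * 2 ^ (((m + 1 : ℕ) : ℝ) * α))⁻¹ ≤ (Q N)⁻¹ := inv_anti₀ hQpos h6
      refine lt_of_lt_of_le ?_ (mul_le_mul_of_nonneg_right h7 (by positivity))
      rw [mul_inv, neg_mul, Real.rpow_neg (by norm_num), mul_comm (C : ℝ)]
      have h8 : (C : ℝ) < (C3 * 2 ^ α)⁻¹ * ((m : ℝ) * c2) ^ (1 / p) := by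
        rw [lt_inv_mul_iff₀ (by positivity)]
        linarith
      calc ((2 : ℝ) ^ (((m + 1 : ℕ) : ℝ) * α))⁻¹ * C
          < ((2 : ℝ) ^ (((m + 1 : ℕ) : ℝ) * α))⁻¹ * ((C3 * 2 ^ α)⁻¹ * ((m : ℝ) * c2) ^ (1 / p)) :=
            mul_lt_mul_of_pos_left h8 (by positivity)
        _ = _ := by ring
    calc (C : ℝ≥0∞) * ENNReal.ofReal ((2 : ℝ) ^ (-((m + 1 : ℕ) : ℝ) * α))
        = ENNReal.ofReal ((C : ℝ) * (2 : ℝ) ^ (-((m + 1 : ℕ) : ℝ) * α)) := by
          rw [ENNReal.ofReal_mul (by positivity), ENNReal.ofReal_coe_nnreal]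
      _ < ENNReal.ofReal ((Q N)⁻¹ * ((m : ℝ) * c2) ^ (1 / p)) := by
          rw [ENNReal.ofReal_lt_ofReal_iff_of_nonneg (by positivity)]
          exact h5
      _ = ENNReal.ofReal (Q N)⁻¹ * ENNReal.ofReal (((m : ℝ) * c2) ^ (1 / p)) :=
          ENNReal.ofReal_mul (by positivity)
      _ ≤ _ := by gcongr

end Pool.Agent.X92.Walsh
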